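import Pool.Agent.Lib.MP_a572be_co.PW

/-!
# First consequences of the axioms
-/

namespace Pool.Agent.Lib.MP_a572be_co

namespace PW

variable {r : ℕ} {Ω : Type} (W : PW r Ω)

theorem m_self (K : Tg Ω) (x : Ω) : W.m (K + t x) x ↔ ¬ W.m K x := mem_add_t_self _ _ _

theorem m_ne (K : Tg Ω) {x y : Ω} (h : y ≠ x) : W.m (K + t y) x ↔ W.m K x := mem_add_t_ne _ _ h

theorem m_add (K : Tg Ω) (x y : Ω) :
    W.m (K + t y) x ↔ ((y = x ∧ ¬ W.m K x) ∨ (y ≠ x ∧ W.m K x)) := mem_add_t _ _ _ _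

theorem m_congr {K L : Tg Ω} {x : Ω} (h : x ∉ (K + L).support) : W.m K x ↔ W.m L x :=
  mem_congr_of_notMem _ h

theorem lev_E {K : Tg Ω} (h : W.E K) : W.lev K = 0 := W.lev_eq K h

theorem lev_in {K : Tg Ω} {x : Ω} (h : W.m K x) : W.lev (K + t x) = W.lev K - 1 := by
  unfold lev; rw [cnt_add_t]; have : mem W.I K x := h; simp [this]; ring

theorem lev_out {K : Tg Ω} {x : Ω} (h : ¬ W.m K x) : W.lev (K + t x) = W.lev K + 1 := by
  unfold lev; rw [cnt_add_t]; have : ¬ mem W.I K x := h; simp [this]; ring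

/-- A neighbour of a level `-1` set is outside it. -/
theorem not_m_of_E {S : Tg Ω} {v : Ω} (h : W.lev S = -1) (hE : W.E (S + t v)) : ¬ W.m S v := by
  intro hm
  have h1 := W.lev_in hm
  rw [W.lev_E hE, h] at h1
  omega

theorem lev_S {K : Tg Ω} {x : Ω} (hK : W.E K) (h : W.m K x) : W.lev (K + t x) = -1 := by
  rw [W.lev_in h, W.lev_E hK]; ring

theorem ne_of_m {K : Tg Ω} {x v : Ω} (hx : W.m K x) (hv : ¬ W.m K v) : x ≠ v := by
  rintro rfl; exact hv hx

/-- Visibility: if `v ∉ K` then `K - x + v` is an edge for infinitely many `x ∈ K`. -/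
theorem vis {K : Tg Ω} {v : Ω} (hK : W.E K) (hv : ¬ W.m K v) (hP : v ∉ W.P) (D : Finset Ω) :
    ∃ x, x ∉ D ∧ W.m K x ∧ W.E (K + t x + t v) := by
  classical
  obtain ⟨b, hb, hbv, hm, hZ⟩ := W.axFC (K + t v) (D.erase v) v (by simp) hP
  have hbD : b ∉ D := fun h => hb (Finset.mem_erase.2 ⟨hbv, h⟩)
  have h1 : mem W.I (K + t v) v := (W.m_self K v).2 hv
  have h2 : W.m K b := (W.m_ne K (Ne.symm hbv)).1 (hm.2 h1)
  refine ⟨b, hbD, h2, ?_⟩
  have h3 := hZ 0 (by simp)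
  simp only [add_zero, tg_add_t_t] at h3
  rw [tg_comm]
  exact h3.1 hK

/-- Infinitely many `v ∉ K` (outside the reference set) with `K - x + v` an edge. -/
theorem vis_out {K : Tg Ω} {x : Ω} (hK : W.E K) (hx : W.m K x) (D : Finset Ω) :
    ∃ v, v ∉ D ∧ v ∉ W.I ∧ ¬ W.m K v ∧ W.E (K + t x + t v) := by
  classical
  obtain ⟨v, hv, hvI, hE⟩ := W.axN (K + t x) (W.lev_S hK hx) (insert x D)
  have hvx : v ≠ x := fun h => hv (by simp [h])
  refine ⟨v, fun h => hv (by simp [h]), hvI, ?_, hE⟩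
  have := W.not_m_of_E (W.lev_S hK hx) hE
  rwa [W.m_ne K (Ne.symm hvx)] at this

theorem exch_symm {K K' : Tg Ω} (h : W.Exch K K') : W.Exch K' K := by
  obtain ⟨h1, h2, x, v, hx, hv, rfl⟩ := h
  have hne := W.ne_of_m hx hv
  refine ⟨h2, h1, v, x, ?_, ?_, ?_⟩
  · rw [W.m_self, W.m_ne K hne]; exact hv
  · rw [W.m_ne _ (Ne.symm hne), W.m_self]; simpa using hx
  · abel_nf; simp

theorem conn_refl (K : Tg Ω) : W.Conn K K := Relation.ReflTransGen.refl

theorem conn_trans {K K' K'' : Tg Ω} (h : W.Conn K K') (h' : W.Conn K' K'') : W.Conn K K'' :=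
  Relation.ReflTransGen.trans h h'

theorem conn_symm {K K' : Tg Ω} (h : W.Conn K K') : W.Conn K' K := by
  induction h with
  | refl => exact W.conn_refl _
  | tail _ h2 ih => exact Relation.ReflTransGen.head (W.exch_symm h2) ih

theorem exch_mk {K : Tg Ω} {x v : Ω} (hK : W.E K) (hx : W.m K x) (hv : ¬ W.m K v)
    (hE : W.E (K + t x + t v)) : W.Exch K (K + t x + t v) := ⟨hK, hE, x, v, hx, hv, rfl⟩

theorem conn_mk {K : Tg Ω} {x v : Ω} (hK : W.E K) (hx : W.m K x) (hv : ¬ W.m K v)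
    (hE : W.E (K + t x + t v)) : W.Conn K (K + t x + t v) :=
  Relation.ReflTransGen.single (W.exch_mk hK hx hv hE)

theorem conn_E {K K' : Tg Ω} (hK : W.E K) (h : W.Conn K K') : W.E K' := by
  induction h with
  | refl => exact hK
  | tail _ h2 _ => exact h2.2.1

theorem r_of_conn {K K' : Tg Ω} (h : W.Conn K K') {x v : Ω} (hr : W.R K' x v) : W.R K x v := by
  obtain ⟨L, h1, h2⟩ := hr
  exact ⟨L, W.conn_trans h h1, h2⟩

theorem eqv_refl (K : Tg Ω) (x : Ω) : W.Eqv K x x := Relation.EqvGen.refl x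

theorem eqv_symm {K : Tg Ω} {x y : Ω} (h : W.Eqv K x y) : W.Eqv K y x :=
  Relation.EqvGen.symm _ _ h

theorem eqv_trans {K : Tg Ω} {x y z : Ω} (h : W.Eqv K x y) (h' : W.Eqv K y z) : W.Eqv K x z :=
  Relation.EqvGen.trans _ _ _ h h'

theorem eqv_of_conn {K K' : Tg Ω} (h : W.Conn K K') {x y : Ω} (he : W.Eqv K' x y) :
    W.Eqv K x y :=
  Relation.EqvGen.mono (fun a b (hr : W.R K' a b) => W.r_of_conn h hr) _ _ he

theorem eqv_conn {K K' : Tg Ω} (h : W.Conn K K') {x y : Ω} : W.Eqv K x y ↔ W.Eqv K' x y :=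
  ⟨fun he => W.eqv_of_conn (W.conn_symm h) he, fun he => W.eqv_of_conn h he⟩

/-- An exchange gives equivalent elements. -/
theorem eqv_mk {K : Tg Ω} {x v : Ω} (hK : W.E K) (hx : W.m K x) (hv : ¬ W.m K v)
    (hE : W.E (K + t x + t v)) : W.Eqv K x v :=
  Relation.EqvGen.rel _ _ ⟨K, W.conn_refl K, hK, hx, hv, hE⟩

/-- Signed counts of classes are invariants of the component. -/
theorem cnt_conn {K K' : Tg Ω} (h : W.Conn K K') (C : Set Ω)
    (hC : ∀ x y, W.Eqv K x y → (x ∈ C ↔ y ∈ C)) : cnt W.I C K = cnt W.I C K' := by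
  classical
  have key : ∀ L, W.Conn K L → cnt W.I C K = cnt W.I C L := by
    intro L hL
    induction hL with
    | refl => rfl
    | tail h1 h2 ih =>
      obtain ⟨hE, hE', x, v, hx, hv, rfl⟩ := h2
      rw [ih, cnt_add_t, cnt_add_t]
      have hne := W.ne_of_m hx hv
      have e1 : mem W.I _ x := hx
      have e2 : ¬ mem W.I _ v := hv
      have e3 : ¬ mem W.I (_ + t x) v := fun hh => e2 ((mem_add_t_ne W.I _ hne).1 hh)
      have hxv : W.Eqv K x v := W.eqv_of_conn h1 (W.eqv_mk hE hx hv hE')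
      have hc := hC x v hxv
      by_cases hxC : x ∈ C
      · have hvC : v ∈ C := hc.1 hxC
        simp [e1, e3, hxC, hvC]
      · have hvC : v ∉ C := fun hh => hxC (hc.2 hh)
        simp [hxC, hvC]
  exact key K' h

/-- Two neighbours of a level `-1` set give exchange-adjacent (or equal) edges. -/
theorem conn_of_nbrs {S : Tg Ω} {v v' : Ω} (hS : W.lev S = -1) (h : W.E (S + t v))
    (h' : W.E (S + t v')) : W.Conn (S + t v) (S + t v') ∧ W.Eqv (S + t v) v v' := by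
  by_cases hvv : v = v'
  · subst hvv; exact ⟨W.conn_refl _, W.eqv_refl _ _⟩
  have h1 : W.m (S + t v) v := (W.m_self S v).2 (W.not_m_of_E hS h)
  have h2 : ¬ W.m (S + t v) v' := by
    rw [W.m_ne S hvv]; exact W.not_m_of_E hS h'
  have h3 : S + t v + t v + t v' = S + t v' := by rw [tg_add_t_t]
  have h4 : W.E (S + t v + t v + t v') := by rw [h3]; exact h'
  exact ⟨h3 ▸ W.conn_mk h h1 h2 h4, W.eqv_mk h h1 h2 h4⟩

theorem sameVal_refl {S : Tg Ω} (hS : W.lev S = -1) : W.SameVal S S := by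
  obtain ⟨v, _, _, hE⟩ := W.axN S hS ∅
  exact ⟨v, v, hE, hE, W.conn_refl _, W.eqv_refl _ _⟩

theorem sameVal_symm {S S' : Tg Ω} (h : W.SameVal S S') : W.SameVal S' S := by
  obtain ⟨v, v', h1, h2, h3, h4⟩ := h
  exact ⟨v', v, h2, h1, W.conn_symm h3, W.eqv_of_conn (W.conn_symm h3) (W.eqv_symm h4)⟩

/-- The component and the mark do not depend on the chosen neighbour. -/
theorem sameVal_all {S S' : Tg Ω} (hS : W.lev S = -1) (hS' : W.lev S' = -1)
    (h : W.SameVal S S') {v v' : Ω} (hv : W.E (S + t v)) (hv' : W.E (S' + t v')) :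
    W.Conn (S + t v) (S' + t v') ∧ W.Eqv (S + t v) v v' := by
  obtain ⟨u, u', h1, h2, h3, h4⟩ := h
  obtain ⟨a1, a2⟩ := W.conn_of_nbrs hS hv h1
  obtain ⟨b1, b2⟩ := W.conn_of_nbrs hS' h2 hv'
  refine ⟨W.conn_trans a1 (W.conn_trans h3 b1), ?_⟩
  exact W.eqv_trans a2 (W.eqv_trans (W.eqv_of_conn a1 h4)
    (W.eqv_of_conn (W.conn_trans a1 h3) b2))

theorem sameVal_trans {S S' S'' : Tg Ω} (hS' : W.lev S' = -1)
    (h : W.SameVal S S') (h' : W.SameVal S' S'') : W.SameVal S S'' := by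
  obtain ⟨u, u', h1, h2, h3, h4⟩ := h
  obtain ⟨w, w', k1, k2, k3, k4⟩ := h'
  obtain ⟨a1, a2⟩ := W.conn_of_nbrs hS' h2 k1
  refine ⟨u, w', h1, k2, W.conn_trans h3 (W.conn_trans a1 k3), ?_⟩
  exact W.eqv_trans h4 (W.eqv_trans (W.eqv_of_conn h3 a2)
    (W.eqv_of_conn (W.conn_trans h3 a1) k4))

/-- If `S` and `S' = S - x + y` have a common neighbour `v` then they have the same value, and
`x`, `y` are equivalent in the component of `S + v`. -/
theorem sameVal_of_common {S : Tg Ω} {x y v : Ω} (hS : W.lev S = -1) (hx : W.m S x)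
    (hy : ¬ W.m S y) (hv : W.E (S + t v)) (hv' : W.E (S + t x + t y + t v)) :
    W.SameVal S (S + t x + t y) ∧ W.Conn (S + t v) (S + t x + t y + t v) ∧
      W.Eqv (S + t v) x y := by
  have hxy := W.ne_of_m hx hy
  have hvS := W.not_m_of_E hS hv
  have hS' : W.lev (S + t x + t y) = -1 := by
    rw [W.lev_out, W.lev_in hx, hS]
    · ring
    · rw [W.m_ne S hxy]; exact hy
  have hvS' := W.not_m_of_E hS' hv'
  have hvx : v ≠ x := by rintro rfl; exact hvS hx
  have hvy : v ≠ y := by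
    rintro rfl
    apply hvS'
    rw [W.m_self, W.m_ne S hxy]; exact hy
  have e : S + t x + t y + t v = S + t v + t x + t y := by abel
  have h1 : W.m (S + t v) x := by rw [W.m_ne S hvx]; exact hx
  have h2 : ¬ W.m (S + t v) y := by rw [W.m_ne S hvy]; exact hy
  rw [e] at hv'
  have hc := W.conn_mk hv h1 h2 hv'
  refine ⟨⟨v, v, hv, by rw [e]; exact hv', by rw [e]; exact hc, W.eqv_refl _ _⟩,
    by rw [e]; exact hc, W.eqv_mk hv h1 h2 hv'⟩

open Classical in
/-- If `S` and `S' = S - x + y` have the same value, then `x`, `y` are equivalent in the component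
of `S + v` (compare the signed counts of the class of `x`). -/
theorem eqv_of_sameVal {S : Tg Ω} {x y v : Ω} (hS : W.lev S = -1) (hx : W.m S x)
    (hy : ¬ W.m S y) (hv : W.E (S + t v)) (h : W.SameVal S (S + t x + t y)) :
    W.Eqv (S + t v) x y := by
  have hxy := W.ne_of_m hx hy
  have hS' : W.lev (S + t x + t y) = -1 := by
    rw [W.lev_out, W.lev_in hx, hS]
    · ring
    · rw [W.m_ne S hxy]; exact hy
  obtain ⟨v', _, _, hv'⟩ := W.axN _ hS' ∅
  obtain ⟨hc, he⟩ := W.sameVal_all hS hS' h hv hv'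
  by_contra hne
  set C : Set Ω := {z | W.Eqv (S + t v) x z} with hCdef
  have hC : ∀ a b, W.Eqv (S + t v) a b → (a ∈ C ↔ b ∈ C) := fun a b hab =>
    ⟨fun ha => W.eqv_trans ha hab, fun hb => W.eqv_trans hb (W.eqv_symm hab)⟩
  have hk := W.cnt_conn hc C hC
  rw [cnt_add_t, cnt_add_t, cnt_add_t, cnt_add_t] at hk
  have hxC : x ∈ C := W.eqv_refl _ _
  have hyC : y ∉ C := hne
  have hvC : v ∈ C ↔ v' ∈ C := hC _ _ he
  have m1 : ¬ mem W.I S v := W.not_m_of_E hS hv
  have m2 : ¬ mem W.I (S + t x + t y) v' := W.not_m_of_E hS' hv'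
  have m3 : mem W.I S x := hx
  simp only [m1, m2, m3, hxC, hyC, if_true, if_false] at hk
  by_cases h1 : v ∈ C
  · have h2 := hvC.1 h1
    simp [h1, h2] at hk
  · have h2 : v' ∉ C := fun hh => h1 (hvC.2 hh)
    simp [h1, h2] at hk

end PW

end Pool.Agent.Lib.MP_a572be_co
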