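import Pool.Agent.Lib.MP_a572be_co.Basics

/-!
# Copying, joint copies, and the number of classes
-/

namespace Pool.Agent.Lib.MP_a572be_co

namespace PW

variable {r : ℕ} {Ω : Type} (W : PW r Ω)

/-- **Copying.** If all members of a finite family agree at `x` then there is `y ∉ D` (outside the
supports, and on the opposite side) such that exchanging the roles of `x` and `y` does not change
which members are edges. -/
theorem copy (F : Finset (Tg Ω)) (σ : Prop) {x : Ω} (hx : x ∉ W.P)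
    (hF : ∀ K ∈ F, (W.m K x ↔ σ)) (D : Finset Ω) :
    ∃ y, y ∉ D ∧ y ≠ x ∧ (y ∈ W.I ↔ ¬ σ) ∧
      ∀ K ∈ F, (W.m K y ↔ ¬ σ) ∧ (W.E K ↔ W.E (K + t x + t y)) := by
  classical
  rcases F.eq_empty_or_nonempty with rfl | ⟨K0, hK0⟩
  · by_cases hσ : σ
    · obtain ⟨y, hy, hyD⟩ := W.infO.exists_notMem_finset (insert x D)
      refine ⟨y, fun h => hyD (by simp [h]), fun h => hyD (by simp [h]), ?_, by simp⟩
      simp only [hσ, not_true, iff_false]
      exact hy
    · obtain ⟨y, hy, hyD⟩ := W.infI.exists_notMem_finset (insert x D)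
      refine ⟨y, fun h => hyD (by simp [h]), fun h => hyD (by simp [h]), ?_, by simp⟩
      simp only [hσ, not_false_iff, iff_true]
      exact hy
  set D' : Finset Ω := (D ∪ F.biUnion (fun K => (K + K0).support) ∪ K0.support).erase x with hD'
  obtain ⟨y, hyD', hyx, hm, hZ⟩ := W.axFC (K0 + t x) D' x (by simp [hD']) hx
  have hy : y ∉ D ∪ F.biUnion (fun K => (K + K0).support) ∪ K0.support :=
    fun h => hyD' (Finset.mem_erase.2 ⟨hyx, h⟩)
  simp only [Finset.mem_union, not_or, Finset.mem_biUnion, not_exists, not_and] at hy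
  obtain ⟨⟨hyD, hyF⟩, hyK0⟩ := hy
  have h1 : W.m K0 y ↔ y ∈ W.I := mem_of_notMem_support _ hyK0
  have h2 : W.m K0 y ↔ ¬ σ := by
    have e1 : mem W.I (K0 + t x) y ↔ W.m K0 y := W.m_ne K0 (Ne.symm hyx)
    have e2 : mem W.I (K0 + t x) x ↔ ¬ W.m K0 x := W.m_self K0 x
    rw [← e1, hm, e2, hF K0 hK0]
  refine ⟨y, hyD, hyx, by rw [← h1, h2], fun K hK => ⟨?_, ?_⟩⟩
  · rw [W.m_congr (hyF K hK), h2]
  · have hs : (K + K0).support ⊆ D' := by
      intro z hz
      rw [hD', Finset.mem_erase]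
      refine ⟨?_, ?_⟩
      · rintro rfl
        have e1 := hF K hK
        have e2 := hF K0 hK0
        have e3 : W.m K z ↔ W.m K0 z := by rw [e1, e2]
        have e4 : K z + K0 z ≠ 0 := by simpa using hz
        apply e4
        unfold m mem at e3
        rcases zmod2_cases (K z) with h' | h' <;> rcases zmod2_cases (K0 z) with h'' | h'' <;>
          rw [h', h''] at e3 ⊢ <;> by_cases hz' : z ∈ W.I <;> simp [hz'] at e3 ⊢
        all_goals decide
      · simp only [Finset.mem_union, Finset.mem_biUnion]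
        exact Or.inl (Or.inr ⟨K, hK, hz⟩)
    have h3 := hZ (K + K0) hs
    have e1 : K0 + t x + (K + K0) + t x = K := by abel_nf; simp
    have e2 : K0 + t x + (K + K0) + t y = K + t x + t y := by abel_nf; simp
    rwa [e1, e2] at h3

/-- **Joint copies**: for finitely many components there is `y ∉ D`, inside or outside the
reference set as we wish, equivalent to `x` in all of them. -/
theorem joint (F : Finset (Tg Ω)) (hF : ∀ K ∈ F, W.E K) {x : Ω} (hx : x ∉ W.P) (b : Prop)
    (D : Finset Ω) : ∃ y, y ∉ D ∧ y ≠ x ∧ (y ∈ W.I ↔ b) ∧ ∀ K ∈ F, W.Eqv K x y := by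
  classical
  by_cases hb : b
  · -- members not containing `x`
    have h1 : ∀ K : Tg Ω, ∃ K', K ∈ F → (W.Conn K K' ∧ W.E K' ∧ ¬ W.m K' x) := by
      intro K
      by_cases hK : K ∈ F
      · by_cases hm : W.m K x
        · obtain ⟨v, _, _, hv, hE⟩ := W.vis_out (hF K hK) hm ∅
          refine ⟨K + t x + t v, fun _ => ⟨W.conn_mk (hF K hK) hm hv hE, hE, ?_⟩⟩
          have hne : v ≠ x := by rintro rfl; exact hv hm
          rw [W.m_ne _ hne, W.m_self]; simpa using hm
        · exact ⟨K, fun _ => ⟨W.conn_refl _, hF K hK, hm⟩⟩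
      · exact ⟨K, fun h => absurd h hK⟩
    choose g hg using h1
    obtain ⟨y, hyD, hyx, hyI, hy⟩ := W.copy (F.image g) False hx (by
      intro K hK
      obtain ⟨L, hL, rfl⟩ := Finset.mem_image.1 hK
      simp [(hg L hL).2.2]) D
    refine ⟨y, hyD, hyx, by simpa [hb] using hyI, fun K hK => ?_⟩
    obtain ⟨hc, hE, hm⟩ := hg K hK
    obtain ⟨h2, h3⟩ := hy (g K) (Finset.mem_image_of_mem g hK)
    have h4 : W.m (g K) y := by simpa using h2
    have h5 : W.E (g K + t y + t x) := by rw [tg_comm]; exact h3.1 hE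
    exact W.eqv_symm (W.eqv_of_conn hc (W.eqv_mk hE h4 hm h5))
  · have h1 : ∀ K : Tg Ω, ∃ K', K ∈ F → (W.Conn K K' ∧ W.E K' ∧ W.m K' x) := by
      intro K
      by_cases hK : K ∈ F
      · by_cases hm : W.m K x
        · exact ⟨K, fun _ => ⟨W.conn_refl _, hF K hK, hm⟩⟩
        · obtain ⟨v, _, hv, hE⟩ := W.vis (hF K hK) hm hx ∅
          refine ⟨K + t v + t x, fun _ => ⟨W.conn_mk (hF K hK) hv hm hE, hE, ?_⟩⟩
          have hne : v ≠ x := by rintro rfl; exact hm hv
          rw [W.m_self, W.m_ne _ hne]; exact hm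
      · exact ⟨K, fun h => absurd h hK⟩
    choose g hg using h1
    obtain ⟨y, hyD, hyx, hyI, hy⟩ := W.copy (F.image g) True hx (by
      intro K hK
      obtain ⟨L, hL, rfl⟩ := Finset.mem_image.1 hK
      simp [(hg L hL).2.2]) D
    refine ⟨y, hyD, hyx, by simpa [hb] using hyI, fun K hK => ?_⟩
    obtain ⟨hc, hE, hm⟩ := hg K hK
    obtain ⟨h2, h3⟩ := hy (g K) (Finset.mem_image_of_mem g hK)
    have h4 : ¬ W.m (g K) y := by simpa using h2
    exact W.eqv_of_conn hc (W.eqv_mk hE hm h4 (h3.1 hE))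

theorem dj_symm {S S' : Tg Ω} (h : W.Dj S S') : W.Dj S' S := fun v hv hh => h v hv ⟨hh.2, hh.1⟩

/-- If two level `-1` sets have a common neighbour, they have infinitely many outside the
reference set. -/
theorem not_dj_inf {S S' : Tg Ω} (hS : W.lev S = -1) (hS' : W.lev S' = -1) (h : ¬ W.Dj S S')
    (D : Finset Ω) : ∃ v, v ∉ D ∧ v ∉ W.I ∧ W.E (S + t v) ∧ W.E (S' + t v) := by
  classical
  unfold Dj at h
  push Not at h
  obtain ⟨v, hvP, h1, h2⟩ := h
  obtain ⟨y, hyD, _, hyI, hy⟩ := W.copy {S + t v, S' + t v} True hvP (by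
    intro K hK
    simp only [Finset.mem_insert, Finset.mem_singleton] at hK
    rcases hK with rfl | rfl
    · simp [W.m_self, W.not_m_of_E hS h1]
    · simp [W.m_self, W.not_m_of_E hS' h2]) D
  refine ⟨y, hyD, by simpa using hyI, ?_, ?_⟩
  · have := ((hy (S + t v) (by simp)).2).1 h1
    rwa [tg_add_t_t] at this
  · have := ((hy (S' + t v) (by simp)).2).1 h2
    rwa [tg_add_t_t] at this

/-- Three level `-1` sets with pairwise disjoint neighbourhoods cover everything. -/
theorem cover3 {S1 S2 S3 : Tg Ω} (h1 : W.lev S1 = -1) (h2 : W.lev S2 = -1) (h3 : W.lev S3 = -1)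
    (d12 : W.Dj S1 S2) (d13 : W.Dj S1 S3) (d23 : W.Dj S2 S3) {v : Ω} (hv : v ∉ W.P)
    (m1 : ¬ W.m S1 v) (m2 : ¬ W.m S2 v) (m3 : ¬ W.m S3 v) :
    W.E (S1 + t v) ∨ W.E (S2 + t v) ∨ W.E (S3 + t v) := by
  classical
  obtain ⟨y, hyD, _, hyI, hy⟩ := W.copy {S1 + t v, S2 + t v, S3 + t v} True hv (by
    intro K hK
    simp only [Finset.mem_insert, Finset.mem_singleton] at hK
    rcases hK with rfl | rfl | rfl
    · simp [W.m_self, m1]
    · simp [W.m_self, m2]
    · simp [W.m_self, m3]) (S1.support ∪ S2.support ∪ S3.support)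
  have hyI' : y ∉ W.I := by simpa using hyI
  have hyP : y ∉ W.P := fun h => hyI' (W.P_sub h)
  have key := W.ax3 ![S1, S2, S3] (by
    intro a; fin_cases a
    · exact h1
    · exact h2
    · exact h3) (S1.support ∪ S2.support ∪ S3.support) (by
    intro a; fin_cases a
    · exact fun z hz => by simp only [Finset.mem_union]; exact Or.inl (Or.inl hz)
    · exact fun z hz => by simp only [Finset.mem_union]; exact Or.inl (Or.inr hz)
    · exact fun z hz => by simp only [Finset.mem_union]; exact Or.inr hz) (by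
    intro a b hab u _ hu
    have huP : u ∉ W.P := fun h => hu (W.P_sub h)
    have e := d12 u huP
    have f := d13 u huP
    have g := d23 u huP
    fin_cases a <;> fin_cases b <;>
      simp only [Matrix.cons_val_zero, Matrix.cons_val_one, Matrix.cons_val_two,
        Matrix.head_cons, Matrix.tail_cons, Fin.zero_eta, Fin.mk_one, Fin.reduceFinMk,
        Matrix.cons_val] at hab ⊢ <;>
      first
        | exact absurd rfl hab
        | exact e | exact f | exact g
        | exact fun hh => e ⟨hh.2, hh.1⟩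
        | exact fun hh => f ⟨hh.2, hh.1⟩
        | exact fun hh => g ⟨hh.2, hh.1⟩) y hyD hyI'
  have t1 := (hy (S1 + t v) (by simp)).2
  have t2 := (hy (S2 + t v) (by simp)).2
  have t3 := (hy (S3 + t v) (by simp)).2
  rw [tg_add_t_t] at t1 t2 t3
  obtain ⟨a, ha⟩ := key
  fin_cases a
  · exact Or.inl (t1.2 ha)
  · exact Or.inr (Or.inl (t2.2 ha))
  · exact Or.inr (Or.inr (t3.2 ha))

/-- Among four level `-1` sets two have a common neighbour. -/
theorem four (S : Fin 4 → Tg Ω) (h : ∀ a, W.lev (S a) = -1) : ∃ a b, a ≠ b ∧ ¬ W.Dj (S a) (S b) := by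
  obtain ⟨a, b, hab, v, _, hvI, h1, h2⟩ := W.ax4 S h ∅
  exact ⟨a, b, hab, fun hd => hd v (fun hP => hvI (W.P_sub hP)) ⟨h1, h2⟩⟩

/-- The converse of `not_dj_inf` for a single common neighbour. -/
theorem not_dj {S S' : Tg Ω} {v : Ω} (hv : v ∉ W.P) (h : W.E (S + t v)) (h' : W.E (S' + t v)) :
    ¬ W.Dj S S' := fun hd => hd v hv ⟨h, h'⟩

/-- `K - x` and `K - y` with `x`, `y ∈ K` not equivalent have disjoint neighbourhoods. -/
theorem dj_of_not_eqv {K : Tg Ω} {x y : Ω} (hK : W.E K) (hx : W.m K x) (hy : W.m K y)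
    (h : ¬ W.Eqv K x y) : W.Dj (K + t x) (K + t y) := by
  intro v _ hv
  have h1 : W.lev (K + t x) = -1 := W.lev_S hK hx
  have h2 : W.lev (K + t y) = -1 := W.lev_S hK hy
  have hxy : x ≠ y := by rintro rfl; exact h (W.eqv_refl _ _)
  by_cases hvx : v = x
  · subst hvx
    have := W.not_m_of_E h2 hv.2
    rw [W.m_ne K (Ne.symm hxy)] at this
    exact this hx
  by_cases hvy : v = y
  · subst hvy
    have := W.not_m_of_E h1 hv.1
    rw [W.m_ne K hxy] at this
    exact this hy
  have n1 : ¬ W.m K v := by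
    have := W.not_m_of_E h1 hv.1
    rwa [W.m_ne K (Ne.symm hvx)] at this
  exact h (W.eqv_trans (W.eqv_mk hK hx n1 hv.1) (W.eqv_symm (W.eqv_mk hK hy n1 hv.2)))

/-- Every component has at most three classes. -/
theorem le_three {K : Tg Ω} (hK : W.E K) (f : Fin 4 → Ω) (hf : ∀ a, f a ∉ W.P) :
    ∃ a b, a ≠ b ∧ W.Eqv K (f a) (f b) := by
  classical
  have h1 : ∀ a, ∃ y, W.m K y ∧ W.Eqv K (f a) y := by
    intro a
    by_cases hm : W.m K (f a)
    · exact ⟨f a, hm, W.eqv_refl _ _⟩
    · obtain ⟨x, _, hx, hE⟩ := W.vis hK hm (hf a) ∅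
      exact ⟨x, hx, W.eqv_symm (W.eqv_mk hK hx hm hE)⟩
  choose g hg hge using h1
  obtain ⟨a, b, hab, hd⟩ := W.four (fun a => K + t (g a)) (fun a => W.lev_S hK (hg a))
  refine ⟨a, b, hab, ?_⟩
  by_contra hne
  apply hd
  apply W.dj_of_not_eqv hK (hg a) (hg b)
  intro h
  exact hne (W.eqv_trans (hge a) (W.eqv_trans h (W.eqv_symm (hge b))))

/-- **Invariant relations.** Let `c'` be a relation on the edges of the component of `K0` with the
formal properties of `c` (equivalence, swap, move). Then elements of `K0` which are equivalent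
in the component are related by `c' K0`. (No special elements.)

Proof: for an edge `K` of the component and `x : Ω` call `x' ∈ K` a representative of `x` if
`x' = x`, or `x ∉ K` and `K - x' + x` is an edge. Representatives exist (`vis`) and any two are
related (`swap`). Define `Q K x y` to mean: `c' K x' y'` for some (equivalently all)
representatives. It is an equivalence relation on `Ω`. If `K' = K - x + v` is an exchange then
`Q K = Q K'`: it is enough to find for each `z` representatives `z'` at `K` and `z''` at `K'` such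
that `z'' = z'` if `z' ≠ x` and `z'' = v` if `z' = x` (then use `move`): for `z ∈ K`, `z ≠ x` take
`z' = z'' = z`; for `z = x` take `z' = x`, `z'' = v` (`K' - v + x = K`); for `z = v` the same;
for `z ∉ K`, `z ≠ v`: by `copy` applied to the family `{K, K - x + v}` and `z` there is `i ∉ {x, v}`
in both with `K - i + z` and `K - x + v - i + z` edges; `z' = z'' = i`. Finally an exchange `x → v`
at `K` gives `Q K x v`. So `Eqv K0` is contained in `Q K0`. -/
theorem inv_rel (hP : W.P = ∅) {K0 : Tg Ω} (hK0 : W.E K0) (c' : Tg Ω → Ω → Ω → Prop)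
    (crefl : ∀ K x, W.Conn K0 K → W.m K x → c' K x x)
    (csymm : ∀ K x y, W.Conn K0 K → W.m K x → W.m K y → c' K x y → c' K y x)
    (ctrans : ∀ K x y z, W.Conn K0 K → W.m K x → W.m K y → W.m K z → c' K x y → c' K y z →
      c' K x z)
    (cswap : ∀ K x y v, W.Conn K0 K → W.m K x → W.m K y → ¬ W.m K v → W.E (K + t x + t v) →
      W.E (K + t y + t v) → c' K x y)
    (cmove : ∀ K x v a b, W.Conn K0 K → W.m K x → ¬ W.m K v → W.E (K + t x + t v) → W.m K a →
      W.m K b → a ≠ x → b ≠ x → (c' K a b ↔ c' (K + t x + t v) a b))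
    (cmove' : ∀ K x v a, W.Conn K0 K → W.m K x → ¬ W.m K v → W.E (K + t x + t v) → W.m K a →
      a ≠ x → (c' K a x ↔ c' (K + t x + t v) a v))
    {x y : Ω} (hx : W.m K0 x) (hy : W.m K0 y) (h : W.Eqv K0 x y) : c' K0 x y := by
  classical
  have hnP : ∀ z : Ω, z ∉ W.P := fun z => by rw [hP]; exact Set.notMem_empty z
  let rep : Tg Ω → Ω → Ω → Prop := fun K z a =>
    W.m K a ∧ (a = z ∨ (¬ W.m K z ∧ W.E (K + t a + t z)))
  have rep_ex : ∀ K, W.Conn K0 K → ∀ z, ∃ a, rep K z a := by
    intro K hK z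
    by_cases hm : W.m K z
    · exact ⟨z, hm, Or.inl rfl⟩
    · obtain ⟨a, _, ha, hE⟩ := W.vis (W.conn_E hK0 hK) hm (hnP z) ∅
      exact ⟨a, ha, Or.inr ⟨hm, hE⟩⟩
  have rep_c : ∀ K, W.Conn K0 K → ∀ z a b, rep K z a → rep K z b → c' K a b := by
    rintro K hK z a b ⟨ha, ha'⟩ ⟨hb, hb'⟩
    rcases ha' with rfl | ⟨h1, h2⟩
    · rcases hb' with rfl | ⟨h3, _⟩
      · exact crefl K _ hK ha
      · exact absurd ha h3
    · rcases hb' with rfl | ⟨_, h4⟩
      · exact absurd hb h1
      · exact cswap K a b z hK ha hb h1 h2 h4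
  let Q : Tg Ω → Ω → Ω → Prop := fun K z w => ∃ a b, rep K z a ∧ rep K w b ∧ c' K a b
  have Q_iff : ∀ K, W.Conn K0 K → ∀ z w a b, rep K z a → rep K w b →
      (Q K z w ↔ c' K a b) := by
    intro K hK z w a b ha hb
    constructor
    · rintro ⟨a', b', ha', hb', hc⟩
      exact ctrans K a a' b hK ha.1 ha'.1 hb.1 (rep_c K hK z a a' ha ha')
        (ctrans K a' b' b hK ha'.1 hb'.1 hb.1 hc (rep_c K hK w b' b hb' hb))
    · intro hc
      exact ⟨a, b, ha, hb, hc⟩
  have Q_symm : ∀ K, W.Conn K0 K → ∀ z w, Q K z w → Q K w z := by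
    rintro K hK z w ⟨a, b, ha, hb, hc⟩
    exact ⟨b, a, hb, ha, csymm K a b hK ha.1 hb.1 hc⟩
  have Q_trans : ∀ K, W.Conn K0 K → ∀ z w u, Q K z w → Q K w u → Q K z u := by
    intro K hK z w u h1 h2
    obtain ⟨a, ha⟩ := rep_ex K hK z
    obtain ⟨b, hb⟩ := rep_ex K hK w
    obtain ⟨d, hd⟩ := rep_ex K hK u
    rw [Q_iff K hK z w a b ha hb] at h1
    rw [Q_iff K hK w u b d hb hd] at h2
    rw [Q_iff K hK z u a d ha hd]
    exact ctrans K a b d hK ha.1 hb.1 hd.1 h1 h2
  -- invariance under one exchange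
  have Q_exch : ∀ K, W.Conn K0 K → ∀ p v, W.m K p → ¬ W.m K v → W.E (K + t p + t v) →
      ∀ z w, Q K z w ↔ Q (K + t p + t v) z w := by
    intro K hK p v hp hv hE z w
    have hKE := W.conn_E hK0 hK
    have hK' : W.Conn K0 (K + t p + t v) := W.conn_trans hK (W.conn_mk hKE hp hv hE)
    have hpv : p ≠ v := W.ne_of_m hp hv
    have mv' : W.m (K + t p + t v) v := by
      rw [W.m_self, W.m_ne _ hpv]; exact hv
    have mp' : ¬ W.m (K + t p + t v) p := by
      rw [W.m_ne _ (Ne.symm hpv), W.m_self]; simpa using hp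
    have m_of : ∀ a, a ≠ p → a ≠ v → (W.m (K + t p + t v) a ↔ W.m K a) := by
      intro a h1 h2
      rw [W.m_ne _ (Ne.symm h2), W.m_ne _ (Ne.symm h1)]
    have eback : K + t p + t v + t v + t p = K := by abel_nf; simp
    -- matching representatives
    have both : ∀ z, ∃ a, rep K z a ∧ rep (K + t p + t v) z (if a = p then v else a) := by
      intro z
      by_cases hzp : z = p
      · subst hzp
        refine ⟨z, ⟨hp, Or.inl rfl⟩, ?_⟩
        rw [if_pos rfl]
        exact ⟨mv', Or.inr ⟨mp', by rw [eback]; exact hKE⟩⟩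
      by_cases hzv : z = v
      · subst hzv
        refine ⟨p, ⟨hp, Or.inr ⟨hv, hE⟩⟩, ?_⟩
        rw [if_pos rfl]
        exact ⟨mv', Or.inl rfl⟩
      by_cases hm : W.m K z
      · refine ⟨z, ⟨hm, Or.inl rfl⟩, ?_⟩
        rw [if_neg hzp]
        exact ⟨(m_of z hzp hzv).2 hm, Or.inl rfl⟩
      · obtain ⟨i, hiD, hiz, _, hi⟩ := W.copy {K, K + t p + t v} False (hnP z) (by
          intro L hL
          simp only [Finset.mem_insert, Finset.mem_singleton] at hL
          rcases hL with rfl | rfl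
          · simpa using hm
          · simpa [m_of z hzp hzv] using hm) {p, v}
        have hip : i ≠ p := fun h => hiD (by simp [h])
        have hiv : i ≠ v := fun h => hiD (by simp [h])
        obtain ⟨h1, h2⟩ := hi K (by simp)
        obtain ⟨h3, h4⟩ := hi (K + t p + t v) (by simp)
        refine ⟨i, ⟨by simpa using h1, Or.inr ⟨hm, ?_⟩⟩, ?_⟩
        · rw [tg_comm]; exact h2.1 hKE
        · rw [if_neg hip]
          refine ⟨by simpa using h3, Or.inr ⟨?_, ?_⟩⟩
          · rw [m_of z hzp hzv]; exact hm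
          · rw [tg_comm]; exact h4.1 hE
    obtain ⟨a, ha, ha'⟩ := both z
    obtain ⟨b, hb, hb'⟩ := both w
    rw [Q_iff K hK z w a b ha hb, Q_iff _ hK' z w _ _ ha' hb']
    by_cases hap : a = p
    · by_cases hbp : b = p
      · subst hap; subst hbp
        rw [if_pos rfl]
        exact ⟨fun _ => crefl _ _ hK' mv', fun _ => crefl _ _ hK hp⟩
      · subst hap
        rw [if_pos rfl, if_neg hbp]
        have := cmove' K a v b hK hp hv hE hb.1 hbp
        constructor
        · intro h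
          have h1 := this.1 (csymm K a b hK hp hb.1 h)
          exact csymm _ _ _ hK' ((m_of b hbp (by rintro rfl; exact hv hb.1)).2 hb.1) mv' h1
        · intro h
          have h1 := this.2 (csymm _ _ _ hK' mv'
            ((m_of b hbp (by rintro rfl; exact hv hb.1)).2 hb.1) h)
          exact csymm K b a hK hb.1 hp h1
    · by_cases hbp : b = p
      · subst hbp
        rw [if_neg hap, if_pos rfl]
        exact cmove' K b v a hK hp hv hE ha.1 hap
      · rw [if_neg hap, if_neg hbp]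
        exact cmove K p v a b hK hp hv hE ha.1 hb.1 hap hbp
  have Q_conn : ∀ K, W.Conn K0 K → ∀ z w, Q K0 z w ↔ Q K z w := by
    intro K hK
    induction hK with
    | refl => exact fun z w => Iff.rfl
    | tail h1 h2 ih =>
      obtain ⟨_, hE, p, v, hp, hv, rfl⟩ := h2
      exact fun z w => (ih z w).trans (Q_exch _ h1 p v hp hv hE z w)
  have key : ∀ z w, W.Eqv K0 z w → Q K0 z w := by
    intro z w hzw
    induction hzw with
    | rel z w hr =>
      obtain ⟨K, hK, hKE, hz, hw, hE⟩ := hr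
      rw [Q_conn K hK]
      exact ⟨z, z, ⟨hz, Or.inl rfl⟩, ⟨hz, Or.inr ⟨hw, hE⟩⟩, crefl K z hK hz⟩
    | refl z =>
      obtain ⟨a, ha⟩ := rep_ex K0 (W.conn_refl K0) z
      exact ⟨a, a, ha, ha, crefl K0 a (W.conn_refl K0) ha.1⟩
    | symm z w _ ih => exact Q_symm K0 (W.conn_refl K0) z w ih
    | trans z w u _ _ ih1 ih2 => exact Q_trans K0 (W.conn_refl K0) z w u ih1 ih2
  exact (Q_iff K0 (W.conn_refl K0) x y x y ⟨hx, Or.inl rfl⟩ ⟨hy, Or.inl rfl⟩).1 (key x y h)

/-- In a pre-world without special elements, equivalent elements of an edge are related by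
`c`. -/
theorem c_of_eqv (hP : W.P = ∅) {K : Tg Ω} (hK : W.E K) {x y : Ω} (hx : W.m K x) (hy : W.m K y)
    (h : W.Eqv K x y) : W.c K x y :=
  W.inv_rel hP hK W.c (fun L x hL hx => W.c_refl L x (W.conn_E hK hL) hx)
    (fun L x y hL hx hy => W.c_symm L x y (W.conn_E hK hL) hx hy)
    (fun L x y z hL hx hy hz => W.c_trans L x y z (W.conn_E hK hL) hx hy hz)
    (fun L x y v hL hx hy hv h1 h2 => W.c_swap L x y v (W.conn_E hK hL) hx hy hv h1 h2)
    (fun L x v a b hL hx hv h1 ha hb hax hbx =>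
      W.c_move L x v a b (W.conn_E hK hL) hx hv h1 ha hb hax hbx)
    (fun L x v a hL hx hv h1 ha hax => W.c_move' L x v a (W.conn_E hK hL) hx hv h1 ha hax)
    hx hy h

end PW

namespace World

variable {r : ℕ} {Ω : Type} (W : World r Ω)

theorem notP (x : Ω) : x ∉ W.P := by rw [W.P_empty]; exact Set.notMem_empty x

/-- Every component has at least two classes. -/
theorem two_eqv {K : Tg Ω} (hK : W.E K) (x : Ω) : ∃ y, W.m K y ∧ ¬ W.Eqv K x y := by
  by_cases hm : W.m K x
  · obtain ⟨y, hy, hc⟩ := W.two K x hK hm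
    exact ⟨y, hy, fun h => hc (W.toPW.c_of_eqv W.P_empty hK hm hy h)⟩
  · obtain ⟨x', _, hx', hE⟩ := W.toPW.vis hK hm (W.notP x) ∅
    obtain ⟨y, hy, hc⟩ := W.two K x' hK hx'
    refine ⟨y, hy, fun h => hc (W.toPW.c_of_eqv W.P_empty hK hx' hy ?_)⟩
    exact W.toPW.eqv_trans (W.toPW.eqv_mk hK hx' hm hE) h

end World

end Pool.Agent.Lib.MP_a572be_co
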