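import Mathlib

/-!
# Erdos' box theorem
-/

namespace Pool.Agent.Lib.MP_a572be_co

open Finset in
/-- The fibre of `S` over `φ'`. -/
private def boxFib {M n : ℕ} (S : Finset (Fin (M + 1) → Fin n)) (φ' : Fin M → Fin n) :
    Finset (Fin n) :=
  univ.filter (fun v => (Fin.cons v φ' : Fin (M + 1) → Fin n) ∈ S)

open Finset in
private theorem box_sum_fib {M n : ℕ} (S : Finset (Fin (M + 1) → Fin n)) :
    ∑ φ' : Fin M → Fin n, (boxFib S φ').card = S.card := by
  classical
  rw [Finset.card_eq_sum_card_fiberwise (f := fun φ : Fin (M + 1) → Fin n => Fin.tail φ)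
    (t := univ) (fun _ _ => by simp)]
  refine Finset.sum_congr rfl fun φ' _ => ?_
  refine Finset.card_bij (fun v _ => (Fin.cons v φ' : Fin (M + 1) → Fin n)) ?_ ?_ ?_
  · intro v hv
    simp only [boxFib, mem_filter, mem_univ, true_and] at hv
    simp [hv]
  · intro v _ w _ h
    have := congrFun h 0
    simpa using this
  · intro φ hφ
    simp only [mem_filter] at hφ
    refine ⟨φ 0, ?_, ?_⟩
    · simp only [boxFib, mem_filter, mem_univ, true_and]
      rw [← hφ.2, Fin.cons_self_tail]
      exact hφ.1
    · rw [← hφ.2, Fin.cons_self_tail]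

open Finset in
private theorem box_double {M n : ℕ} (t : ℕ) (S : Finset (Fin (M + 1) → Fin n)) :
    ∑ T ∈ powersetCard t (univ : Finset (Fin n)),
        (univ.filter (fun φ' : Fin M → Fin n => T ⊆ boxFib S φ')).card =
      ∑ φ' : Fin M → Fin n, ((boxFib S φ').card).choose t := by
  classical
  have h := sum_card_bipartiteAbove_eq_sum_card_bipartiteBelow
    (s := powersetCard t (univ : Finset (Fin n))) (t := (univ : Finset (Fin M → Fin n)))
    (fun (T : Finset (Fin n)) (φ' : Fin M → Fin n) => T ⊆ boxFib S φ')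
  simp only [bipartiteAbove, bipartiteBelow] at h
  rw [h]
  refine Finset.sum_congr rfl fun φ' _ => ?_
  rw [← card_powersetCard]
  congr 1
  ext T
  simp only [mem_filter, mem_powersetCard, subset_univ, true_and]
  tauto

/-- **Erdos' box theorem (1964).** A subset of positive density of `V^M`, `|V|` large, contains a
box `A_1 × ... × A_M` with all sides of size `t`.

Proof by induction on `M` (for all `δ` and, if convenient, for all `t`). For `M = 0` trivial (the
only map is in the set as the set is nonempty). Step `M → M+1`: for `φ' : Fin M → V` let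
`B(φ') = {v : Fin.cons v φ' ∈ S}` (or `Fin.snoc`). The average over `φ'` of `|B(φ')|/n` is at
least `δ`; for a `t`-subset `T` of `V` let `S_T = {φ' : T ⊆ B(φ')}`. Then
`∑_T |S_T| = ∑_{φ'} C(|B(φ')|, t) ≥ ` (keep only the `φ'` with `|B(φ')| ≥ δ n/2`; they are at
least `δ n^M/2` many) `(δ/2) n^M C(δn/2, t)`, and `C(⌈δn/2⌉, t) ≥ (δ/4)^t C(n,t)` for `n` large.
So some `T` has `|S_T| ≥ (δ/2)(δ/4)^t n^M`; apply the induction hypothesis to `S_T`. An alternative
for the averaging: choose functions `Fin t → V` instead of subsets. -/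
theorem box (M : ℕ) : ∀ (t : ℕ) (δ : ℝ), 0 < δ → ∃ n0 : ℕ, ∀ n ≥ n0,
    ∀ S : Finset (Fin M → Fin n), δ * (n : ℝ) ^ M ≤ (S.card : ℝ) →
      ∃ A : Fin M → Finset (Fin n), (∀ i, (A i).card = t) ∧
        ∀ φ : Fin M → Fin n, (∀ i, φ i ∈ A i) → φ ∈ S := by
  classical
  induction M with
  | zero =>
    intro t δ hδ
    refine ⟨0, fun n _ S hS => ?_⟩
    have hpos : 0 < (S.card : ℝ) := by
      have : δ ≤ (S.card : ℝ) := by simpa using hS
      linarith
    obtain ⟨s, hs⟩ := Finset.card_pos.mp (by exact_mod_cast hpos)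
    refine ⟨fun i => i.elim0, fun i => i.elim0, fun φ _ => ?_⟩
    rw [Subsingleton.elim φ s]
    exact hs
  | succ M ih =>
    intro t δ hδ
    obtain ⟨n1, h1⟩ := ih t (δ / 2 * (δ / 4) ^ t) (by positivity)
    refine ⟨max (max n1 1) (max t ⌈4 * (t : ℝ) / δ⌉₊), fun n hn S hS => ?_⟩
    have hn1 : n1 ≤ n := le_trans (le_trans (le_max_left _ _) (le_max_left _ _)) hn
    have hnpos : 1 ≤ n := le_trans (le_trans (le_max_right _ _) (le_max_left _ _)) hn
    have htn : t ≤ n := le_trans (le_trans (le_max_left _ _) (le_max_right _ _)) hn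
    have hceil : ⌈4 * (t : ℝ) / δ⌉₊ ≤ n :=
      le_trans (le_trans (le_max_right _ _) (le_max_right _ _)) hn
    have hnR : (0 : ℝ) < n := by exact_mod_cast hnpos
    have htδ : 4 * (t : ℝ) ≤ δ * n := by
      have : 4 * (t : ℝ) / δ ≤ n := le_trans (Nat.le_ceil _) (by exact_mod_cast hceil)
      rw [div_le_iff₀ hδ] at this
      linarith
    -- the popular fibres
    set G : Finset (Fin M → Fin n) :=
      Finset.univ.filter (fun φ' => δ / 2 * n ≤ ((boxFib S φ').card : ℝ)) with hG
    have hGcard : δ / 2 * (n : ℝ) ^ M ≤ (G.card : ℝ) := by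
      have hsum : (S.card : ℝ) = ∑ φ' : Fin M → Fin n, ((boxFib S φ').card : ℝ) := by
        rw [← box_sum_fib S]; push_cast; rfl
      have hle : ∑ φ' : Fin M → Fin n, ((boxFib S φ').card : ℝ) ≤
          (G.card : ℝ) * n + (n : ℝ) ^ M * (δ / 2 * n) := by
        rw [← Finset.sum_filter_add_sum_filter_not Finset.univ
          (fun φ' => δ / 2 * n ≤ ((boxFib S φ').card : ℝ))]
        refine add_le_add ?_ ?_
        · refine le_trans (Finset.sum_le_card_nsmul _ _ (n : ℝ) fun φ' _ => ?_) ?_
          · have := Finset.card_le_univ (boxFib S φ')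
            rw [Fintype.card_fin] at this
            exact_mod_cast this
          · rw [nsmul_eq_mul]
        · refine le_trans (Finset.sum_le_card_nsmul _ _ (δ / 2 * n : ℝ) fun φ' hφ' => ?_) ?_
          · simp only [Finset.mem_filter, Finset.mem_univ, true_and, not_le] at hφ'
            exact hφ'.le
          · rw [nsmul_eq_mul]
            refine mul_le_mul_of_nonneg_right ?_ (by positivity)
            have := Finset.card_le_univ (Finset.univ.filter
              (fun φ' : Fin M → Fin n => ¬ δ / 2 * n ≤ ((boxFib S φ').card : ℝ)))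
            rw [Fintype.card_fun, Fintype.card_fin, Fintype.card_fin] at this
            exact_mod_cast this
      have h3 : δ * (n : ℝ) ^ (M + 1) ≤ (G.card : ℝ) * n + (n : ℝ) ^ M * (δ / 2 * n) := by
        linarith
      have h4 : (δ / 2 * (n : ℝ) ^ M) * n ≤ (G.card : ℝ) * n := by
        have : δ * (n : ℝ) ^ (M + 1) = δ * (n : ℝ) ^ M * n := by ring
        nlinarith
      exact le_of_mul_le_mul_right h4 hnR
    -- the averaging over `t`-subsets
    have hchoose : ∀ φ' ∈ G, (δ / 4) ^ t * (n : ℝ) ^ t / (t.factorial : ℝ) ≤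
        (((boxFib S φ').card).choose t : ℝ) := by
      intro φ' hφ'
      simp only [hG, Finset.mem_filter, Finset.mem_univ, true_and] at hφ'
      refine le_trans ?_ (Nat.pow_le_choose t (boxFib S φ').card)
      refine div_le_div_of_nonneg_right ?_ (by positivity)
      rw [← mul_pow]
      refine pow_le_pow_left₀ (by positivity) ?_ t
      have hcast : ((boxFib S φ').card : ℝ) - t ≤
          (((boxFib S φ').card + 1 - t : ℕ) : ℝ) := by
        have : (boxFib S φ').card ≤ ((boxFib S φ').card + 1 - t) + t := by omega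
        have h' : ((boxFib S φ').card : ℝ) ≤ (((boxFib S φ').card + 1 - t : ℕ) : ℝ) + t := by
          exact_mod_cast this
        linarith
      linarith
    have hsumT : ∑ T ∈ Finset.powersetCard t (Finset.univ : Finset (Fin n)),
        (δ / 2 * (δ / 4) ^ t * (n : ℝ) ^ M) ≤
        ∑ T ∈ Finset.powersetCard t (Finset.univ : Finset (Fin n)),
          ((Finset.univ.filter (fun φ' : Fin M → Fin n => T ⊆ boxFib S φ')).card : ℝ) := by
      have e1 : ∑ T ∈ Finset.powersetCard t (Finset.univ : Finset (Fin n)),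
          ((Finset.univ.filter (fun φ' : Fin M → Fin n => T ⊆ boxFib S φ')).card : ℝ) =
          ∑ φ' : Fin M → Fin n, (((boxFib S φ').card).choose t : ℝ) := by
        have := box_double t S
        exact_mod_cast this
      rw [e1, Finset.sum_const, Finset.card_powersetCard, Finset.card_univ, Fintype.card_fin,
        nsmul_eq_mul]
      have h5 : (G.card : ℝ) * ((δ / 4) ^ t * (n : ℝ) ^ t / (t.factorial : ℝ)) ≤
          ∑ φ' : Fin M → Fin n, (((boxFib S φ').card).choose t : ℝ) := by
        refine le_trans ?_ (Finset.sum_le_sum_of_subset_of_nonneg (Finset.subset_univ G)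
          (fun _ _ _ => by positivity))
        rw [← nsmul_eq_mul]
        exact Finset.card_nsmul_le_sum G _ _ hchoose
      refine le_trans ?_ h5
      have h6 : ((n.choose t : ℕ) : ℝ) ≤ (n : ℝ) ^ t / (t.factorial : ℝ) :=
        Nat.choose_le_pow_div t n
      calc ((n.choose t : ℕ) : ℝ) * (δ / 2 * (δ / 4) ^ t * (n : ℝ) ^ M)
          ≤ ((n : ℝ) ^ t / (t.factorial : ℝ)) * (δ / 2 * (δ / 4) ^ t * (n : ℝ) ^ M) :=
            mul_le_mul_of_nonneg_right h6 (by positivity)
        _ = (δ / 2 * (n : ℝ) ^ M) * ((δ / 4) ^ t * (n : ℝ) ^ t / (t.factorial : ℝ)) := by ring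
        _ ≤ (G.card : ℝ) * ((δ / 4) ^ t * (n : ℝ) ^ t / (t.factorial : ℝ)) :=
            mul_le_mul_of_nonneg_right hGcard (by positivity)
    have hne : (Finset.powersetCard t (Finset.univ : Finset (Fin n))).Nonempty := by
      rw [Finset.powersetCard_nonempty, Finset.card_univ, Fintype.card_fin]
      exact htn
    obtain ⟨T, hT, hTle⟩ := Finset.exists_le_of_sum_le hne hsumT
    obtain ⟨A, hA, hbox⟩ := h1 n hn1 _ hTle
    refine ⟨Fin.cons T A, ?_, ?_⟩
    · intro i
      refine Fin.cases ?_ (fun j => ?_) i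
      · simpa using (Finset.mem_powersetCard.mp hT).2
      · simpa using hA j
    · intro φ hφ
      have htail : Fin.tail φ ∈ Finset.univ.filter
          (fun φ' : Fin M → Fin n => T ⊆ boxFib S φ') := by
        apply hbox
        intro j
        have := hφ j.succ
        simpa [Fin.tail] using this
      have hsub := (Finset.mem_filter.mp htail).2
      have h0 : φ 0 ∈ T := by simpa using hφ 0
      have h0' := hsub h0
      simp only [boxFib, Finset.mem_filter, Finset.mem_univ, true_and] at h0'
      rwa [Fin.cons_self_tail] at h0'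

end Pool.Agent.Lib.MP_a572be_co
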