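import Mathlib

/-!
# Independence of the decidability instances
-/

namespace Pool.Agent.Lib.MP_a572be_co

theorem insert_erase_dec {α : Type} (i1 i2 : DecidableEq α) (A : Finset α) (p q : α) :
    @insert α (Finset α) (@Finset.instInsert α i1) q (@Finset.erase α i1 A p) =
      @insert α (Finset α) (@Finset.instInsert α i2) q (@Finset.erase α i2 A p) := by
  have h : i1 = i2 := Subsingleton.elim _ _
  subst h
  rfl

theorem insert_dec {α : Type} (i1 i2 : DecidableEq α) (A : Finset α) (q : α) :
    @insert α (Finset α) (@Finset.instInsert α i1) q A =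
      @insert α (Finset α) (@Finset.instInsert α i2) q A := by
  have h : i1 = i2 := Subsingleton.elim _ _
  subst h
  rfl

theorem image_dec {α β : Type} (i1 i2 : DecidableEq β) (f : α → β) (s : Finset α) :
    @Finset.image α β i1 f s = @Finset.image α β i2 f s := by
  have h : i1 = i2 := Subsingleton.elim _ _
  subst h
  rfl

theorem swap_dec {α : Type} (i1 i2 : DecidableEq α) (a b : α) :
    @Equiv.swap α i1 a b = @Equiv.swap α i2 a b := by
  have h : i1 = i2 := Subsingleton.elim _ _
  subst h
  rfl

theorem filter_dec {α : Type} {p q : α → Prop} (i1 : DecidablePred p) (i2 : DecidablePred q)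
    (s : Finset α) (h : ∀ x ∈ s, p x ↔ q x) :
    @Finset.filter α p i1 s = @Finset.filter α q i2 s :=
  @Finset.filter_congr α p q i1 i2 s h

end Pool.Agent.Lib.MP_a572be_co
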