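import Pool.Agent.Lib.MP_a572be_co.LabBasic

namespace Pool.Agent.Lib.MP_a572be_co

open Classical

theorem labperm_image {V : Type} [Fintype V] {E : Set (Finset V)} {k : ℕ}
    {K : Finset V} (σ : Equiv.Perm V) (h2 : ∀ x ∈ K, cRel E k K x (σ x))
    {f : Fin k → V} (hf : LEdge E k f) (hK : Finset.univ.image f = K) :
    LEdge E k (fun i => σ (f i)) ∧ Finset.univ.image (fun i => σ (f i)) = K := by
  have himg : Finset.univ.image (fun i => σ (f i)) = K := by
    have h3 : Finset.univ.image (fun i => σ (f i)) = K.image σ := by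
      rw [← hK, Finset.image_image]
      rfl
    rw [h3]
    apply Finset.eq_of_subset_of_card_le
    · intro y hy
      obtain ⟨x, hx, rfl⟩ := Finset.mem_image.1 hy
      exact (h2 x hx).2.1
    · rw [Finset.card_image_of_injective _ σ.injective]
  refine ⟨⟨fun i j hij => hf.1 (σ.injective hij), ?_⟩, himg⟩
  rw [himg, ← hK]
  exact hf.2

/-- If `σ` is a permutation of `V` with `σ x = x` for `x ∉ K` and `cRel K x (σ x)` for all `x ∈ K`
then `LConn f (σ ∘ f)` for each labelling `f` of `K`: strong induction on the size of the support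
of `σ` (`Equiv.Perm.card_support_swap_mul`, `σ = swap x (σ x) * σ'` for `x` in the support, and
`σ'` satisfies the hypothesis by transitivity). -/
theorem conn_of_perm {V : Type} [Fintype V] {E : Set (Finset V)} {k : ℕ}
    (hE : ∀ e ∈ E, e.card = k) {K : Finset V} (σ : Equiv.Perm V)
    (h1 : ∀ x, x ∉ K → σ x = x) (h2 : ∀ x ∈ K, cRel E k K x (σ x))
    {f : Fin k → V} (hf : LEdge E k f) (hK : Finset.univ.image f = K) :
    LConn E k f (fun i => σ (f i)) := by
  have hP := cRel_props (E := E) (k := k) hE
  have hKE : K ∈ E := hK ▸ hf.2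
  obtain ⟨n, hn⟩ : ∃ n, n = σ.support.card := ⟨_, rfl⟩
  induction n using Nat.strong_induction_on generalizing σ with
  | _ n ih =>
    by_cases hσ : σ = 1
    · subst hσ
      exact Relation.ReflTransGen.refl
    · obtain ⟨x, hx⟩ : ∃ x, σ x ≠ x := by
        by_contra hcon
        push Not at hcon
        exact hσ (Equiv.ext hcon)
      have hxK : x ∈ K := by
        by_contra hcon
        exact hx (h1 x hcon)
      have hyK : σ x ∈ K := (h2 x hxK).2.1
      have hlt : (Equiv.swap x (σ x) * σ).support.card < n := by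
        rw [hn]
        exact Equiv.Perm.card_support_swap_mul hx
      have h1' : ∀ z, z ∉ K → (Equiv.swap x (σ x) * σ) z = z := by
        intro z hz
        rw [Equiv.Perm.mul_apply, h1 z hz]
        apply Equiv.swap_apply_of_ne_of_ne
        · rintro rfl; exact hz hxK
        · rintro rfl; exact hz hyK
      have h2' : ∀ z ∈ K, cRel E k K z ((Equiv.swap x (σ x) * σ) z) := by
        intro z hz
        rw [Equiv.Perm.mul_apply]
        have hz2 := h2 z hz
        by_cases e1 : σ z = x
        · rw [e1, Equiv.swap_apply_left]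
          rw [e1] at hz2
          exact hP.c_trans K z x (σ x) hKE hz hxK hyK hz2 (h2 x hxK)
        · by_cases e2 : σ z = σ x
          · rw [e2, Equiv.swap_apply_right]
            have : z = x := σ.injective e2
            subst this
            exact hP.c_refl K z hKE hz
          · rw [Equiv.swap_apply_of_ne_of_ne e1 e2]
            exact hz2
      have h3 := ih _ hlt (Equiv.swap x (σ x) * σ) h1' h2' rfl
      obtain ⟨h4, h5⟩ := labperm_image (Equiv.swap x (σ x) * σ) h2' hf hK
      have h6 := cRel_all (h2 x hxK) h4 h5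
      have h7 : (fun i => Equiv.swap x (σ x) ((Equiv.swap x (σ x) * σ) (f i))) =
          fun i => σ (f i) := by
        funext i
        rw [Equiv.Perm.mul_apply, Equiv.swap_apply_self]
      rw [h7] at h6
      exact Relation.ReflTransGen.trans h3 h6

theorem labperm_blocks {V : Type} [Nonempty V] {r : ℕ} (hr : 0 < r) (c : V → V → Prop) (d : ℕ) :
    ∀ (K : Finset V), K.card = r * d → (∀ x ∈ K, c x x) →
    (∀ x ∈ K, ∀ y ∈ K, c x y → c y x) →
    (∀ x ∈ K, ∀ y ∈ K, ∀ z ∈ K, c x y → c y z → c x z) →
    (∀ x ∈ K, r ∣ (K.filter (fun y => c x y)).card) →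
    ∃ F : ℕ → ℕ → V, (∀ b < d, ∀ a < r, F b a ∈ K) ∧
      (∀ b < d, ∀ a < r, ∀ b' < d, ∀ a' < r, F b a = F b' a' → b = b' ∧ a = a') ∧
      (∀ b < d, ∀ a < r, ∀ a' < r, c (F b a) (F b a')) := by
  induction d with
  | zero =>
    intro K hK _ _ _ _
    exact ⟨fun _ _ => Classical.arbitrary V, by simp, by simp, by simp⟩
  | succ d ih =>
    intro K hK h1 h2 h3 h4
    have hne : K.Nonempty := by
      rw [← Finset.card_pos, hK]
      positivity
    obtain ⟨x, hx⟩ := hne
    have hxC : x ∈ K.filter (fun y => c x y) := Finset.mem_filter.2 ⟨hx, h1 x hx⟩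
    have hrC : r ≤ (K.filter (fun y => c x y)).card :=
      Nat.le_of_dvd (Finset.card_pos.2 ⟨x, hxC⟩) (h4 x hx)
    obtain ⟨B, hBC, hBr⟩ := Finset.exists_subset_card_eq hrC
    have hBK : B ⊆ K := hBC.trans (Finset.filter_subset _ _)
    have hcB : ∀ u ∈ B, c x u := fun u hu => (Finset.mem_filter.1 (hBC hu)).2
    have hcard : (K \ B).card = r * d := by
      rw [Finset.card_sdiff_of_subset hBK, hBr, hK, Nat.mul_succ]
      omega
    have hsub : K \ B ⊆ K := Finset.sdiff_subset
    obtain ⟨F, hF1, hF2, hF3⟩ := ih (K \ B) hcard (fun y hy => h1 y (hsub hy))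
      (fun y hy z hz => h2 y (hsub hy) z (hsub hz))
      (fun y hy z hz w hw => h3 y (hsub hy) z (hsub hz) w (hsub hw)) (by
        intro y hy
        have hyK := hsub hy
        by_cases hxy : c x y
        · have h5 : (K \ B).filter (fun z => c y z) = (K.filter (fun z => c x z)) \ B := by
            ext z
            simp only [Finset.mem_filter, Finset.mem_sdiff]
            constructor
            · rintro ⟨⟨hz1, hz2⟩, hz3⟩
              exact ⟨⟨hz1, h3 x hx y hyK z hz1 hxy hz3⟩, hz2⟩
            · rintro ⟨⟨hz1, hz2⟩, hz3⟩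
              exact ⟨⟨hz1, hz3⟩, h3 y hyK x hx z hz1 (h2 x hx y hyK hxy) hz2⟩
          rw [h5, Finset.card_sdiff_of_subset hBC, hBr]
          exact Nat.dvd_sub (h4 x hx) dvd_rfl
        · have h5 : (K \ B).filter (fun z => c y z) = K.filter (fun z => c y z) := by
            ext z
            simp only [Finset.mem_filter, Finset.mem_sdiff]
            constructor
            · rintro ⟨⟨hz1, hz2⟩, hz3⟩
              exact ⟨hz1, hz3⟩
            · rintro ⟨hz1, hz3⟩
              refine ⟨⟨hz1, fun hzB => hxy ?_⟩, hz3⟩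
              exact h3 x hx z hz1 y hyK (hcB z hzB) (h2 y hyK z hz1 hz3)
          rw [h5]
          exact h4 y hyK)
    let e := Finset.equivFinOfCardEq hBr
    refine ⟨fun b a => if b = d then (if h : a < r then (e.symm ⟨a, h⟩ : V) else x) else F b a,
      ?_, ?_, ?_⟩
    · intro b hb a ha
      dsimp only
      by_cases hbd : b = d
      · rw [if_pos hbd, dif_pos ha]
        exact hBK (e.symm ⟨a, ha⟩).2
      · rw [if_neg hbd]
        exact hsub (hF1 b (by omega) a ha)
    · intro b hb a ha b' hb' a' ha' heq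
      dsimp only at heq
      by_cases hbd : b = d
      · by_cases hbd' : b' = d
        · rw [if_pos hbd, if_pos hbd', dif_pos ha, dif_pos ha'] at heq
          have h6 := e.symm.injective (Subtype.ext heq)
          have h7 : a = a' := by simpa using h6
          exact ⟨by omega, h7⟩
        · exfalso
          rw [if_pos hbd, if_neg hbd', dif_pos ha] at heq
          have h6 := hF1 b' (by omega) a' ha'
          rw [← heq] at h6
          exact (Finset.mem_sdiff.1 h6).2 (e.symm ⟨a, ha⟩).2
      · by_cases hbd' : b' = d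
        · exfalso
          rw [if_neg hbd, if_pos hbd', dif_pos ha'] at heq
          have h6 := hF1 b (by omega) a ha
          rw [heq] at h6
          exact (Finset.mem_sdiff.1 h6).2 (e.symm ⟨a', ha'⟩).2
        · rw [if_neg hbd, if_neg hbd'] at heq
          exact hF2 b (by omega) a ha b' (by omega) a' ha' heq
    · intro b hb a ha a' ha'
      dsimp only
      by_cases hbd : b = d
      · rw [if_pos hbd, if_pos hbd, dif_pos ha, dif_pos ha']
        have m1 := (e.symm ⟨a, ha⟩).2
        have m2 := (e.symm ⟨a', ha'⟩).2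
        exact h3 _ (hBK m1) x hx _ (hBK m2) (h2 x hx _ (hBK m1) (hcB _ m1)) (hcB _ m2)
      · rw [if_neg hbd, if_neg hbd]
        exact hF3 b (by omega) a ha a' ha'

/-- A labelling adapted to the classes. Let `K` have `r d` elements, and let `c` be an equivalence
relation on `K` all of whose classes have size divisible by `r`. Then there is a bijection
`f : Fin (r d) → K` such that `f i` and `f (i + d)` (index mod `r d`) are in the same class. List
the classes one after the other, cut into blocks of size `r` (each inside one class), `d` blocks in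
total, and put the `a`-th element of block `b` at place `a d + b` (`a < r`, `b < d`). One way:
induction to show that `K` is the disjoint union of `d` sets `B_b` of size `r`, each inside one
class, and then use `finProdFinEquiv` and equivalences `Fin r ≃ B_b`. -/
theorem exists_labelling {V : Type} {r d : ℕ} (hr : 0 < r) (hd : 0 < d) (K : Finset V)
    (hK : K.card = r * d) (c : V → V → Prop) (h1 : ∀ x ∈ K, c x x)
    (h2 : ∀ x ∈ K, ∀ y ∈ K, c x y → c y x)
    (h3 : ∀ x ∈ K, ∀ y ∈ K, ∀ z ∈ K, c x y → c y z → c x z)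
    (h4 : ∀ x ∈ K, r ∣ (K.filter (fun y => c x y)).card) :
    ∃ f : Fin (r * d) → V, Function.Injective f ∧ Finset.univ.image f = K ∧
      ∀ i j : Fin (r * d), (j : ℕ) = ((i : ℕ) + d) % (r * d) → c (f i) (f j) := by
  have hne : K.Nonempty := by
    rw [← Finset.card_pos, hK]
    exact Nat.mul_pos hr hd
  have : Nonempty V := ⟨hne.choose⟩
  obtain ⟨F, hF1, hF2, hF3⟩ := labperm_blocks hr c d K hK h1 h2 h3 h4
  have ha : ∀ i : Fin (r * d), (i : ℕ) / d < r := fun i =>
    (Nat.div_lt_iff_lt_mul hd).2 i.2
  have hb : ∀ i : Fin (r * d), (i : ℕ) % d < d := fun i => Nat.mod_lt _ hd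
  have hinj : Function.Injective (fun i : Fin (r * d) => F ((i : ℕ) % d) ((i : ℕ) / d)) := by
    intro i j hij
    obtain ⟨e1, e2⟩ := hF2 _ (hb i) _ (ha i) _ (hb j) _ (ha j) hij
    apply Fin.ext
    rw [← Nat.div_add_mod (i : ℕ) d, ← Nat.div_add_mod (j : ℕ) d, e1, e2]
  refine ⟨fun i => F ((i : ℕ) % d) ((i : ℕ) / d), hinj, ?_, ?_⟩
  · apply Finset.eq_of_subset_of_card_le
    · intro y hy
      obtain ⟨i, _, rfl⟩ := Finset.mem_image.1 hy
      exact hF1 _ (hb i) _ (ha i)
    · rw [Finset.card_image_of_injective _ hinj, hK]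
      simp
  · intro i j hij
    have h5 : (j : ℕ) % d = (i : ℕ) % d := by
      rw [hij, Nat.mod_mul_left_mod, Nat.add_mod_right]
    have h6 := hF3 _ (hb i) _ (ha i) _ (ha j)
    dsimp only
    rw [h5]
    exact h6

end Pool.Agent.Lib.MP_a572be_co
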