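import Pool.Agent.Lib.MP_a572be_co.LabDefs

namespace Pool.Agent.Lib.MP_a572be_co

open Classical

/-- A rotation of a labelled edge is a labelled edge. -/
theorem labWalk_rot {V : Type} {E : Set (Finset V)} {k : ℕ} (hk : 0 < k) {f : Fin k → V}
    (hf : LEdge E k f) (m : ℕ) :
    LEdge E k (fun i : Fin k => f ⟨(m + (i : ℕ)) % k, Nat.mod_lt _ hk⟩) := by
  have hinj : Function.Injective
      (fun i : Fin k => (⟨(m + (i : ℕ)) % k, Nat.mod_lt _ hk⟩ : Fin k)) := by
    intro a b hab
    have h1 : (m + (a : ℕ)) % k = (m + (b : ℕ)) % k := congrArg Fin.val hab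
    have h2 : m + (a : ℕ) ≡ m + (b : ℕ) [MOD k] := h1
    have h3 : (a : ℕ) ≡ (b : ℕ) [MOD k] := Nat.ModEq.add_left_cancel' m h2
    have h4 : (a : ℕ) % k = (b : ℕ) % k := h3
    rw [Nat.mod_eq_of_lt a.2, Nat.mod_eq_of_lt b.2] at h4
    exact Fin.ext h4
  have hsurj := Finite.surjective_of_injective hinj
  refine ⟨hf.1.comp hinj, ?_⟩
  have himg : Finset.univ.image
      (fun i : Fin k => f ⟨(m + (i : ℕ)) % k, Nat.mod_lt _ hk⟩) = Finset.univ.image f := by
    ext x
    simp only [Finset.mem_image, Finset.mem_univ, true_and]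
    constructor
    · rintro ⟨i, hi⟩
      exact ⟨_, hi⟩
    · rintro ⟨i, hi⟩
      obtain ⟨a, ha⟩ := hsurj i
      refine ⟨a, ?_⟩
      rw [← hi, ← ha]
  rw [himg]
  exact hf.2

/-- `labWalkPath E k n f g`: a sequence whose windows at `0, ..., n` are labelled edges, the
first of them being `f` and the last one `g`. -/
def labWalkPath {V : Type} (E : Set (Finset V)) (k n : ℕ) (f g : Fin k → V) : Prop :=
  ∃ w : ℕ → V, (∀ i : Fin k, w i = f i) ∧ (∀ i : Fin k, w (n + (i : ℕ)) = g i) ∧
    ∀ m ≤ n, LEdge E k (fun i : Fin k => w (m + (i : ℕ)))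

theorem labWalkPath_trans {V : Type} {E : Set (Finset V)} {k n m : ℕ} {f g h : Fin k → V}
    (h1 : labWalkPath E k n f g) (h2 : labWalkPath E k m g h) :
    labWalkPath E k (n + m) f h := by
  obtain ⟨w, hw0, hwn, hw⟩ := h1
  obtain ⟨u, hu0, hum, hu⟩ := h2
  have key1 : ∀ j, j < n + k → (if j < n then w j else u (j - n)) = w j := by
    intro j hj
    split_ifs with hjn
    · rfl
    · have hlt : j - n < k := by omega
      have e1 := hu0 ⟨j - n, hlt⟩
      have e2 := hwn ⟨j - n, hlt⟩
      have e3 : n + (j - n) = j := by omega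
      simp only at e1 e2
      rw [e3] at e2
      rw [e1, e2]
  have key2 : ∀ j, n ≤ j → (if j < n then w j else u (j - n)) = u (j - n) := by
    intro j hj
    rw [if_neg (by omega)]
  refine ⟨fun j => if j < n then w j else u (j - n), ?_, ?_, ?_⟩
  · intro i
    have := key1 i (by have := i.2; omega)
    simp only
    rw [this]
    exact hw0 i
  · intro i
    have := key2 (n + m + i) (by omega)
    simp only
    rw [this, ← hum i]
    congr 1
    omega
  · intro a ha
    by_cases han : a ≤ n
    · have : (fun i : Fin k => (fun j => if j < n then w j else u (j - n)) (a + (i : ℕ)))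
          = fun i : Fin k => w (a + (i : ℕ)) := by
        funext i
        exact key1 _ (by have := i.2; omega)
      rw [this]
      exact hw a han
    · have : (fun i : Fin k => (fun j => if j < n then w j else u (j - n)) (a + (i : ℕ)))
          = fun i : Fin k => u ((a - n) + (i : ℕ)) := by
        funext i
        have e := key2 (a + i) (by omega)
        simp only
        rw [e]
        congr 1
        omega
      rw [this]
      exact hu (a - n) (by omega)

theorem labWalkPath_adj {V : Type} {E : Set (Finset V)} {k : ℕ} (hk : 0 < k) {f g : Fin k → V}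
    (h : LAdj E k f g) : labWalkPath E k k f g := by
  obtain ⟨hf, hg, p, hp⟩ := h
  refine ⟨fun j => if hj : j < k then f ⟨j, hj⟩ else g ⟨(j - k) % k, Nat.mod_lt _ hk⟩,
    ?_, ?_, ?_⟩
  · intro i
    simp
  · intro i
    have e1 : ¬ (k + (i : ℕ) < k) := by omega
    simp only
    rw [dif_neg e1]
    congr 1
    apply Fin.ext
    simp only [Nat.add_sub_cancel_left]
    exact Nat.mod_eq_of_lt i.2
  · intro m hm
    by_cases hpm : m ≤ (p : ℕ)
    · -- the window is a rotation of `f`
      have : (fun i : Fin k => (fun j => if hj : j < k then f ⟨j, hj⟩ else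
            g ⟨(j - k) % k, Nat.mod_lt _ hk⟩) (m + (i : ℕ)))
          = fun i : Fin k => f ⟨(m + (i : ℕ)) % k, Nat.mod_lt _ hk⟩ := by
        funext i
        have hi := i.2
        simp only
        split_ifs with hj
        · congr 1
          apply Fin.ext
          exact (Nat.mod_eq_of_lt hj).symm
        · have e1 : (m + (i : ℕ) - k) % k = m + (i : ℕ) - k := Nat.mod_eq_of_lt (by omega)
          have e2 : (m + (i : ℕ)) % k = m + (i : ℕ) - k := by
            rw [Nat.mod_eq_sub_mod (by omega)]
            exact e1
          have e3 : (⟨(m + (i : ℕ) - k) % k, Nat.mod_lt _ hk⟩ : Fin k)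
              = ⟨(m + (i : ℕ)) % k, Nat.mod_lt _ hk⟩ := by
            apply Fin.ext
            simp only
            rw [e1, e2]
          rw [e3]
          refine (hp _ ?_).symm
          intro hcon
          have : ((⟨(m + (i : ℕ)) % k, Nat.mod_lt _ hk⟩ : Fin k) : ℕ) = (p : ℕ) := by
            rw [hcon]
          simp only at this
          omega
      rw [this]
      exact labWalk_rot hk hf m
    · have : (fun i : Fin k => (fun j => if hj : j < k then f ⟨j, hj⟩ else
            g ⟨(j - k) % k, Nat.mod_lt _ hk⟩) (m + (i : ℕ)))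
          = fun i : Fin k => g ⟨(m + (i : ℕ)) % k, Nat.mod_lt _ hk⟩ := by
        funext i
        have hi := i.2
        simp only
        split_ifs with hj
        · have e2 : (⟨m + (i : ℕ), hj⟩ : Fin k) = ⟨(m + (i : ℕ)) % k, Nat.mod_lt _ hk⟩ := by
            apply Fin.ext
            exact (Nat.mod_eq_of_lt hj).symm
          rw [← e2]
          refine hp _ ?_
          intro hcon
          have : ((⟨m + (i : ℕ), hj⟩ : Fin k) : ℕ) = (p : ℕ) := by
            rw [hcon]
          simp only at this
          omega
        · congr 1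
          apply Fin.ext
          simp only
          conv_rhs => rw [Nat.mod_eq_sub_mod (by omega)]
      rw [this]
      exact labWalk_rot hk hg m

theorem labWalkPath_refl {V : Type} {E : Set (Finset V)} {k : ℕ} (hk : 0 < k) {f : Fin k → V}
    (hf : LEdge E k f) : labWalkPath E k 0 f f := by
  refine ⟨fun j => f ⟨j % k, Nat.mod_lt _ hk⟩, ?_, ?_, ?_⟩
  · intro i
    simp only
    congr 1
    apply Fin.ext
    exact Nat.mod_eq_of_lt i.2
  · intro i
    simp only
    congr 1
    apply Fin.ext
    simp only [Nat.zero_add]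
    exact Nat.mod_eq_of_lt i.2
  · intro m _
    exact labWalk_rot hk hf m

theorem labWalkPath_conn {V : Type} {E : Set (Finset V)} {k : ℕ} (hk : 0 < k) {f g : Fin k → V}
    (hf : LEdge E k f) (h : LConn E k f g) : ∃ m : ℕ, labWalkPath E k (m * k) f g := by
  unfold LConn at h
  induction h with
  | refl => exact ⟨0, by simpa using labWalkPath_refl hk hf⟩
  | tail _ hab ih =>
    obtain ⟨m, hm⟩ := ih
    refine ⟨m + 1, ?_⟩
    have := labWalkPath_trans hm (labWalkPath_adj hk hab)
    rwa [← Nat.succ_mul] at this

theorem labWalkPath_rot {V : Type} {E : Set (Finset V)} {k d : ℕ} (hdk : d < k)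
    {f g : Fin k → V} (hf : LEdge E k f)
    (hg : ∀ i j : Fin k, (j : ℕ) = ((i : ℕ) + d) % k → g i = f j) :
    labWalkPath E k (k - d) g f := by
  have hk : 0 < k := by omega
  refine ⟨fun j => f ⟨(j + d) % k, Nat.mod_lt _ hk⟩, ?_, ?_, ?_⟩
  · intro i
    exact (hg i _ rfl).symm
  · intro i
    simp only
    congr 1
    apply Fin.ext
    simp only
    have : k - d + (i : ℕ) + d = (i : ℕ) + k := by omega
    rw [this, Nat.add_mod_right]
    exact Nat.mod_eq_of_lt i.2
  · intro m _
    have := labWalk_rot hk hf (m + d)
    have e : (fun i : Fin k => f ⟨(m + d + (i : ℕ)) % k, Nat.mod_lt _ hk⟩)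
        = fun i : Fin k => (fun j : ℕ => f ⟨(j + d) % k, Nat.mod_lt _ hk⟩) (m + (i : ℕ)) := by
      funext i
      simp only
      congr 1
      apply Fin.ext
      simp only
      congr 1
      omega
    rw [← e]
    exact this

theorem labWalk_closed {V : Type} {E : Set (Finset V)} {k L : ℕ} (hL : 0 < L)
    {f : Fin k → V} (h : labWalkPath E k L f f) : ClosedWalk E k L := by
  obtain ⟨w, hw0, hwL, hw⟩ := h
  have key : ∀ t, t < L + k → w (t % L) = w t := by
    intro t
    induction t using Nat.strong_induction_on with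
    | _ t ih =>
      intro ht
      by_cases htL : t < L
      · rw [Nat.mod_eq_of_lt htL]
      · have hj : t - L < k := by omega
        have e1 := hw0 ⟨t - L, hj⟩
        have e2 := hwL ⟨t - L, hj⟩
        simp only at e1 e2
        have e3 : L + (t - L) = t := by omega
        rw [e3] at e2
        have e4 := ih (t - L) (by omega) (by omega)
        rw [Nat.mod_eq_sub_mod (by omega), e4, e1, e2]
  refine ⟨hL, fun j => w (j % L), ?_, ?_⟩
  · intro i
    simp
  · intro i
    have hlt : i % L < L := Nat.mod_lt _ hL
    have h1 := (hw (i % L) hlt.le).2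
    have h2 : Finset.univ.image (fun j : Fin k => w (i % L + (j : ℕ)))
        = (Finset.range k).image (fun j => w ((i + j) % L)) := by
      ext x
      simp only [Finset.mem_image, Finset.mem_univ, true_and, Finset.mem_range]
      constructor
      · rintro ⟨j, hj⟩
        refine ⟨j, j.2, ?_⟩
        rw [← hj, ← key (i % L + (j : ℕ)) (by have := j.2; omega), Nat.mod_add_mod]
      · rintro ⟨j, hjk, hj⟩
        refine ⟨⟨j, hjk⟩, ?_⟩
        rw [← hj]
        simp only
        rw [← key (i % L + j) (by omega), Nat.mod_add_mod]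
    rw [h2] at h1
    convert h1

/-- From a connection between `f` and its rotation by `d` to a closed walk of length `≡ -d` mod
`k`, `0 < d < k`.

Say that a `k`-tuple `g` reaches `g'` in one step if `g' i = g (i+1)` for `i < k-1` and both are
labelled edges (`Reach n g g'`: reach in `n` steps). A change at one place `f → f'` gives
`Reach k f f'`: the intermediate tuples are `(f j, ..., f (k-1), f' 0, ..., f' (j-1))`, whose image
is the image of `f` or of `f'`. A labelled edge `g` reaches `g ∘ rot^j` (rotation by `j`) in `j`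
steps. So `Reach (m k) f (f ∘ rot^d)` for some `m` and `Reach (k-d) (f ∘ rot^d) f`. The closed path
of length `L = m k + k - d > 0` gives a closed walk: `w i` is the first entry of the `i`-th tuple
(indices mod `L`), and the window of `w` at `i` is the `i`-th tuple. -/
theorem walk_of_conn_rot {V : Type} {E : Set (Finset V)} {k d : ℕ} (hd : 0 < d) (hdk : d < k)
    {f g : Fin k → V} (hf : LEdge E k f) (h : LConn E k f g)
    (hg : ∀ i j : Fin k, (j : ℕ) = ((i : ℕ) + d) % k → g i = f j) :
    ∃ L, k ∣ L + d ∧ ClosedWalk E k L := by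
  have hk : 0 < k := by omega
  obtain ⟨m, hm⟩ := labWalkPath_conn hk hf h
  have h1 := labWalkPath_trans hm (labWalkPath_rot hdk hf hg)
  refine ⟨m * k + (k - d), ?_, labWalk_closed (by omega) h1⟩
  have : m * k + (k - d) + d = (m + 1) * k := by
    rw [Nat.succ_mul]
    omega
  rw [this]
  exact Dvd.intro_left _ rfl

end Pool.Agent.Lib.MP_a572be_co
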