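import Pool.Agent.Lib.MP_a572be_co.LabBasic
import Pool.Agent.Lib.MP_a572be_co.LabPerm
import Pool.Agent.Lib.MP_a572be_co.LabWalk
import Pool.Agent.Lib.MP_a572be_co.Dec

/-!
# Coloured systems and the rotation lemma

`CSys` records the properties of the edge set `E` and the relation `cRel` used later.
-/

namespace Pool.Agent.Lib.MP_a572be_co

open Classical

/-- A coloured system: a `k`-graph `E` on `V` together with a relation `c K` on each edge `K`. -/
structure CSys (k r : ℕ) (V : Type) where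
  /-- the edges -/
  E : Finset V → Prop
  /-- `c K x y`: `x` and `y` can be interchanged in `K` -/
  c : Finset V → V → V → Prop
  card_eq : ∀ K, E K → K.card = k
  c_refl : ∀ K x, E K → x ∈ K → c K x x
  c_symm : ∀ K x y, E K → x ∈ K → y ∈ K → c K x y → c K y x
  c_trans : ∀ K x y z, E K → x ∈ K → y ∈ K → z ∈ K → c K x y → c K y z → c K x z
  c_swap : ∀ K x y v, E K → x ∈ K → y ∈ K → v ∉ K → E (insert v (K.erase x)) →
    E (insert v (K.erase y)) → c K x y
  c_move : ∀ K x v, E K → x ∈ K → v ∉ K → E (insert v (K.erase x)) → ∀ a ∈ K, ∀ b ∈ K,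
    (c K a b ↔ c (insert v (K.erase x)) (Equiv.swap x v a) (Equiv.swap x v b))
  nz : ∀ K, E K → ∃ x ∈ K, ¬ r ∣ (K.filter (fun y => c K x y)).card

/-- If all class sizes of an edge are divisible by `r`, there is a closed walk of length
`≡ -d`. -/
theorem csys_walk {V : Type} [Fintype V] {r d : ℕ} (hr : 1 < r) (hd : 0 < d)
    {E : Set (Finset V)} (hE : ∀ e ∈ E, e.card = r * d) {K : Finset V} (hKE : K ∈ E)
    (hdvd : ∀ x ∈ K, r ∣ (K.filter (fun y => cRel E (r * d) K x y)).card) :
    ∃ L, r * d ∣ L + d ∧ ClosedWalk E (r * d) L := by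
  have hp := cRel_props (E := E) hE
  obtain ⟨f, hf, himg, hrot⟩ := exists_labelling (by omega : 0 < r) hd K (hE K hKE)
    (cRel E (r * d) K) (fun x hx => hp.c_refl K x hKE hx)
    (fun x hx y hy h => hp.c_symm K x y hKE hx hy h)
    (fun x hx y hy z hz h1 h2 => hp.c_trans K x y z hKE hx hy hz h1 h2) hdvd
  have hk : 0 < r * d := Nat.mul_pos (by omega) hd
  -- the rotation by `d`
  let rot : Fin (r * d) → Fin (r * d) := fun i => ⟨((i : ℕ) + d) % (r * d), Nat.mod_lt _ hk⟩
  have hrotinj : Function.Injective rot := by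
    intro i j hij
    have h1 : ((i : ℕ) + d) % (r * d) = ((j : ℕ) + d) % (r * d) := congrArg Fin.val hij
    have h2 : (i : ℕ) ≡ (j : ℕ) [MOD r * d] := Nat.ModEq.add_right_cancel' d h1
    exact Fin.ext (Nat.ModEq.eq_of_lt_of_lt h2 i.2 j.2)
  let ρ : Equiv.Perm (Fin (r * d)) :=
    Equiv.ofBijective rot (Finite.injective_iff_bijective.mp hrotinj)
  -- as a permutation of `V`
  let ef : Fin (r * d) ≃ Set.range f := Equiv.ofInjective f hf
  let σ : Equiv.Perm V := (ef.permCongr ρ).ofSubtype
  have hσ1 : ∀ i, σ (f i) = f (rot i) := by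
    intro i
    have hmem : f i ∈ Set.range f := ⟨i, rfl⟩
    have : σ (f i) = ((ef.permCongr ρ) ⟨f i, hmem⟩ : V) :=
      Equiv.Perm.ofSubtype_apply_of_mem _ hmem
    rw [this]
    have h2 : (⟨f i, hmem⟩ : Set.range f) = ef i := rfl
    rw [h2, Equiv.permCongr_apply, Equiv.symm_apply_apply]
    rfl
  have hσ2 : ∀ x, x ∉ K → σ x = x := by
    intro x hx
    apply Equiv.Perm.ofSubtype_apply_of_not_mem
    rintro ⟨i, rfl⟩
    apply hx
    rw [← himg]
    exact Finset.mem_image_of_mem f (Finset.mem_univ i)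
  have hedge : LEdge E (r * d) f := ⟨hf, by rw [himg]; exact hKE⟩
  have hconn := conn_of_perm hE σ hσ2 (by
    intro x hx
    rw [← himg] at hx
    obtain ⟨i, -, rfl⟩ := Finset.mem_image.mp hx
    rw [hσ1 i]
    exact hrot i (rot i) rfl) hedge himg
  refine walk_of_conn_rot hd ?_ hedge hconn ?_
  · nlinarith
  · intro i j hj
    show σ (f i) = f j
    rw [hσ1]
    congr 1
    exact Fin.ext hj.symm

/-- Independence of the instance. -/
theorem closedWalk_dec {V : Type} (i1 i2 : DecidableEq V) {E : Set (Finset V)} {k L : ℕ}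
    (h : @ClosedWalk V i1 E k L) : @ClosedWalk V i2 E k L := by
  have h12 : i1 = i2 := Subsingleton.elim _ _
  subst h12
  exact h

/-- **Rotation lemma**: a `k`-graph, `k = r d`, without closed walks of length `≡ -d` mod `k` gives
a coloured system. For `nz`: if all class sizes of an edge `K` are divisible by `r`, take `f` as in
`exists_labelling` (with `c = cRel K`), the permutation `σ` of `V` with `σ (f i) = f (i + d)` and
`σ x = x` outside `K`, `conn_of_perm` and `walk_of_conn_rot`. -/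
theorem exists_CSys {r d M : ℕ} (hr : 1 < r) (hd : 0 < d) (G : KGraph (r * d) (Fin M))
    (h : ¬ ∃ L, r * d ∣ L + d ∧ ClosedWalk G.edges (r * d) L) :
    ∃ S : CSys (r * d) r (Fin M), ∀ K, S.E K ↔ K ∈ G.edges := by
  have hp := cRel_props (E := G.edges) G.card_eq
  refine ⟨⟨fun K => K ∈ G.edges, cRel G.edges (r * d), G.card_eq, hp.c_refl, hp.c_symm,
    hp.c_trans, hp.c_swap, hp.c_move, ?_⟩, fun K => Iff.rfl⟩
  intro K hK
  by_contra hcon
  push Not at hcon
  obtain ⟨L, hL, hw⟩ := csys_walk hr hd G.card_eq hK hcon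
  exact h ⟨L, hL, closedWalk_dec _ _ hw⟩

end Pool.Agent.Lib.MP_a572be_co
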