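import Mathlib

/-!
# Locally 2-coloured complete graphs without rainbow triangles
-/

namespace Pool.Agent.Lib.MP_a572be_co

/-- **Centre colour.** Colour the edges of a complete graph (at least two vertices) such that every
vertex sees at most two colours and there is no rainbow triangle. Then the graph of some colour is
connected and spanning.

Proof. `C(i) = {θ i l : l ≠ i}` has one or two elements, and `θ i l ∈ C(i) ∩ C(l)`. First there is a
colour `c0` in all `C(i)`: if some `C(i) = {c}` then `c` works; otherwise all have two elements; let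
`C(i) = {a, b}`, `a ∉ C(j)`, `b ∉ C(l)`; then `θ i j = b`, `θ i l = a`, `j ≠ l` and
`θ j l ≠ a, b`: a rainbow triangle. If the graph of `c0` is connected we are done. Otherwise let
`i`, `l` be in different components; `a := θ i l ≠ c0` and `C(i) = C(l) = {c0, a}`. Any other `j`
is not joined by `c0` to both, so `a ∈ C(j)` and `C(j) = {c0, a}`: all edges have colour `c0` or `a`
(for `j` in general: `θ i j = a` or `θ l j = a`). So any two vertices in different `c0`-components
are joined by `a`, and two vertices in the same component are both joined by `a` to a vertex of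
another component. So the graph of colour `a` is connected. -/
theorem center {X C : Type} (θ : X → X → C) (hs : ∀ a b, θ a b = θ b a) (h2 : ∃ a b : X, a ≠ b)
    (h4 : ∀ i l1 l2 l3, i ≠ l1 → i ≠ l2 → i ≠ l3 →
      θ i l1 = θ i l2 ∨ θ i l1 = θ i l3 ∨ θ i l2 = θ i l3)
    (h3 : ∀ i l j, i ≠ l → l ≠ j → i ≠ j → θ i l = θ l j ∨ θ i l = θ i j ∨ θ l j = θ i j) :
    ∃ c0 : C, ∀ a b, Relation.ReflTransGen (fun x y => x ≠ y ∧ θ x y = c0) a b := by
  classical
  -- symmetry of the connection relation
  have hsymm : ∀ c : C, ∀ a b, Relation.ReflTransGen (fun x y => x ≠ y ∧ θ x y = c) a b →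
      Relation.ReflTransGen (fun x y => x ≠ y ∧ θ x y = c) b a := by
    intro c a b h
    induction h with
    | refl => exact Relation.ReflTransGen.refl
    | tail _ h2 ih =>
      exact Relation.ReflTransGen.head ⟨Ne.symm h2.1, by rw [hs]; exact h2.2⟩ ih
  -- a colour seen by all vertices
  have hc0 : ∃ c : C, ∀ i, ∃ l, i ≠ l ∧ θ i l = c := by
    by_contra hcon
    push Not at hcon
    obtain ⟨i, j0, hij0⟩ := h2
    obtain ⟨j, hj⟩ := hcon (θ i j0)
    have hji : i ≠ j := by
      rintro rfl
      exact hj j0 hij0 rfl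
    obtain ⟨l, hl⟩ := hcon (θ i j)
    have hli : i ≠ l := by
      rintro rfl
      exact hl j hji rfl
    have hlj : j ≠ l := by
      rintro rfl
      exact hl i (Ne.symm hji) (hs _ _)
    have e1 : θ i j ≠ θ i j0 := by
      rw [hs i j]
      exact hj i (Ne.symm hji)
    have e2 : θ i l ≠ θ i j := by
      rw [hs i l]
      exact hl i (Ne.symm hli)
    have e3 : θ i l = θ i j0 := by
      rcases h4 i j0 j l hij0 hji hli with h | h | h
      · exact absurd h.symm e1
      · exact h.symm
      · exact absurd h.symm e2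
    have e4 : θ j l ≠ θ i j0 := hj l hlj
    have e5 : θ j l ≠ θ i j := by
      rw [hs j l]
      exact hl j (Ne.symm hlj)
    rcases h3 i j l hji hlj hli with h | h | h
    · exact e5 h.symm
    · exact e2 h.symm
    · exact e4 (h.trans e3)
  obtain ⟨c0, hc0⟩ := hc0
  by_cases hcon : ∀ a b, Relation.ReflTransGen (fun x y => x ≠ y ∧ θ x y = c0) a b
  · exact ⟨c0, hcon⟩
  push Not at hcon
  obtain ⟨i, l, hil⟩ := hcon
  have hne : i ≠ l := by
    rintro rfl
    exact hil Relation.ReflTransGen.refl
  have ha : θ i l ≠ c0 := fun h => hil (Relation.ReflTransGen.single ⟨hne, h⟩)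
  -- every vertex sees `θ i l`
  have hsee : ∀ j, ∃ k, j ≠ k ∧ θ j k = θ i l := by
    intro j
    by_cases hji : j = i
    · subst hji; exact ⟨l, hne, rfl⟩
    by_cases hjl : j = l
    · subst hjl; exact ⟨i, hji, hs _ _⟩
    by_cases hc : θ i j = c0
    · by_cases hc' : θ l j = c0
      · exfalso
        apply hil
        exact Relation.ReflTransGen.tail (Relation.ReflTransGen.single ⟨Ne.symm hji, hc⟩)
          ⟨hjl, by rw [hs]; exact hc'⟩
      · obtain ⟨k, hk, hk'⟩ := hc0 l
        refine ⟨l, hjl, ?_⟩
        rcases h4 l k i j hk (Ne.symm hne) (Ne.symm hjl) with h | h | h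
        · exact absurd (by rw [hs, ← h, hk']) ha
        · exact absurd (by rw [← h, hk']) hc'
        · rw [hs j l, ← h, hs]
    · obtain ⟨k, hk, hk'⟩ := hc0 i
      refine ⟨i, hji, ?_⟩
      rcases h4 i k l j hk hne (Ne.symm hji) with h | h | h
      · exact absurd (by rw [← h, hk']) ha
      · exact absurd (by rw [← h, hk']) hc
      · rw [hs j i, ← h]
  have htwo : ∀ j k, j ≠ k → θ j k = c0 ∨ θ j k = θ i l := by
    intro j k hjk
    obtain ⟨p, hp, hp'⟩ := hc0 j
    obtain ⟨q, hq, hq'⟩ := hsee j
    rcases h4 j p q k hp hq hjk with h | h | h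
    · exact absurd (by rw [← hq', ← h, hp']) ha
    · left; rw [← h, hp']
    · right; rw [← h, hq']
  refine ⟨θ i l, ?_⟩
  have hdiff : ∀ x y, ¬ Relation.ReflTransGen (fun x y => x ≠ y ∧ θ x y = c0) x y →
      x ≠ y ∧ θ x y = θ i l := by
    intro x y hxy
    have hne' : x ≠ y := by
      rintro rfl
      exact hxy Relation.ReflTransGen.refl
    refine ⟨hne', ?_⟩
    rcases htwo x y hne' with h | h
    · exact absurd (Relation.ReflTransGen.single ⟨hne', h⟩) hxy
    · exact h
  intro a b
  by_cases hab : Relation.ReflTransGen (fun x y => x ≠ y ∧ θ x y = c0) a b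
  · have key : ∀ p, ¬ Relation.ReflTransGen (fun x y => x ≠ y ∧ θ x y = c0) a p →
        Relation.ReflTransGen (fun x y => x ≠ y ∧ θ x y = θ i l) a b := by
      intro p hp
      have h1 := hdiff a p hp
      have h2 := hdiff p b (fun h => hp (hab.trans (hsymm _ _ _ h)))
      exact Relation.ReflTransGen.tail (Relation.ReflTransGen.single h1) h2
    by_cases hi : Relation.ReflTransGen (fun x y => x ≠ y ∧ θ x y = c0) a i
    · apply key l
      intro hl
      exact hil ((hsymm _ _ _ hi).trans hl)
    · exact key i hi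
  · exact Relation.ReflTransGen.single (hdiff a b hab)

end Pool.Agent.Lib.MP_a572be_co
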