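import Mathlib

/-!
# Codegree Turan density of tight cycles: definitions

`KGraph k V` is a `k`-uniform hypergraph on the vertex type `V`, `KGraph.nbr` is the neighbourhood
of a set, `minCodeg` the minimum codegree, `exCodeg` the codegree Turan number, `gamma` the
codegree Turan density and `tightCycle` the tight cycle.
-/

namespace Pool.Agent.Lib.MP_a572be_co

open Filter

/-- A `k`-graph on the vertex type `V`: a set of edges, each a `k`-element set of vertices. -/
structure KGraph (k : ℕ) (V : Type) where
  /-- the edge set -/
  edges : Set (Finset V)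
  /-- every edge has exactly `k` vertices -/
  card_eq : ∀ e ∈ edges, e.card = k

/-- The neighbourhood `N_G(S) = {v : S ∪ {v} ∈ E(G)}` of a set `S` of vertices. -/
def KGraph.nbr {k : ℕ} {V : Type} [DecidableEq V] (G : KGraph k V) (S : Finset V) : Set V :=
  {v | insert v S ∈ G.edges}

/-- The minimum codegree of a `k`-graph: the minimum of `|N_G(S)|` over all `(k-1)`-element sets
of vertices `S`. -/
noncomputable def minCodeg {k : ℕ} {V : Type} [DecidableEq V] (G : KGraph k V) : ℕ :=
  sInf {m | ∃ S : Finset V, S.card = k - 1 ∧ m = (G.nbr S).ncard}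

/-- `G` contains a copy of `F`: an injective map of vertices sending edges to edges. -/
def Contains {k : ℕ} {V W : Type} [DecidableEq V] (G : KGraph k V) (F : KGraph k W) : Prop :=
  ∃ φ : W → V, Function.Injective φ ∧ ∀ e ∈ F.edges, e.image φ ∈ G.edges

/-- `ex_{k-1}(n,F)`: the largest minimum codegree of an `n`-vertex `k`-graph with no copy of
`F`. -/
noncomputable def exCodeg {k : ℕ} {W : Type} (n : ℕ) (F : KGraph k W) : ℕ :=
  sSup {m | ∃ G : KGraph k (Fin n), ¬ Contains G F ∧ m = minCodeg G}

/-- The codegree Turan density `γ(F) = lim ex_{k-1}(n,F) / n`, written as an upper limit (the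
limit exists). -/
noncomputable def gamma {k : ℕ} {W : Type} (F : KGraph k W) : ℝ :=
  limsup (fun n : ℕ => (exCodeg n F : ℝ) / n) atTop

/-- The tight cycle `C^k_ℓ`: its vertices are the residues modulo `ℓ` and its edges are the sets
of `k` cyclically consecutive vertices. -/
def tightCycle (k ℓ : ℕ) : KGraph k (ZMod ℓ) where
  edges := {e | e.card = k ∧ ∃ i : ZMod ℓ, e = (Finset.range k).image (fun j : ℕ => i + (j : ZMod ℓ))}
  card_eq := fun _ he => he.1

end Pool.Agent.Lib.MP_a572be_co
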