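import Pool.Agent.Lib.MP_a572be_co.EXCore

/-!
# The label does not flip, part 1
-/

namespace Pool.Agent.Lib.MP_a572be_co

namespace PW

variable {r : ℕ} {Ω : Type} (X : PW r Ω)

theorem exflip1_lab_compl {s : Ω} {A : Set Ω} {K : Tg Ω} (h : X.Lab s A False K) :
    X.Lab s Aᶜ True K := by
  obtain ⟨h1, h2, h3, h4, h5⟩ := h
  refine ⟨h1, h2, ?_, ?_, ?_⟩
  · intro a b ha hb ma mb
    rw [h3 a b ha hb ma mb, Set.mem_compl_iff, Set.mem_compl_iff, not_iff_not]
  · intro a v ha hv ma mv hE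
    rw [Set.mem_compl_iff, Set.mem_compl_iff, not_iff_not]
    exact h4 a v ha hv ma mv hE
  · intro a ha ma
    rw [h5 a ha ma, Set.mem_compl_iff]
    simp

theorem exflip1_lab_compl' {s : Ω} {A : Set Ω} {K : Tg Ω} (h : X.Lab s A True K) :
    X.Lab s Aᶜ False K := by
  obtain ⟨h1, h2, h3, h4, h5⟩ := h
  refine ⟨h1, h2, ?_, ?_, ?_⟩
  · intro a b ha hb ma mb
    rw [h3 a b ha hb ma mb, Set.mem_compl_iff, Set.mem_compl_iff, not_iff_not]
  · intro a v ha hv ma mv hE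
    rw [Set.mem_compl_iff, Set.mem_compl_iff, not_iff_not]
    exact h4 a v ha hv ma mv hE
  · intro a ha ma
    rw [h5 a ha ma, Set.mem_compl_iff]
    simp

theorem exflip1_notP {s : Ω} (hP : X.P = {s}) {v : Ω} (h : v ≠ s) : v ∉ X.P := by
  rw [hP]; simpa using h

theorem exflip1_lev1 {M : Tg Ω} (hM : X.lev M = -2) {x : Ω} (hx : ¬ X.m M x) :
    X.lev (M + t x) = -1 := by
  rw [X.lev_out hx, hM]; ring

theorem exflip1_nbr {M : Tg Ω} (hM : X.lev M = -2) {x v : Ω} (hx : ¬ X.m M x)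
    (hE : X.E (M + t x + t v)) : v ≠ x ∧ ¬ X.m M v := by
  have h1 := X.not_m_of_E (X.exflip1_lev1 hM hx) hE
  have hne : v ≠ x := by
    rintro rfl
    apply h1
    rw [X.m_self]; exact hx
  rw [X.m_ne M (Ne.symm hne)] at h1
  exact ⟨hne, h1⟩

theorem exflip1_lev3 {s : Ω} {M : Tg Ω} (hM : X.lev M = -2) (hMs : X.m M s) {x p : Ω}
    (hx : ¬ X.m M x) (hp : ¬ X.m M p) (hxp : x ≠ p) : X.lev (M + t s + t x + t p) = -1 := by
  have hxs : s ≠ x := X.ne_of_m hMs hx
  have hps : s ≠ p := X.ne_of_m hMs hp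
  rw [X.lev_out, X.lev_out, X.lev_in hMs, hM]
  · ring
  · rw [X.m_ne M hxs]; exact hx
  · rw [X.m_ne _ hxp, X.m_ne M hps]; exact hp

/-- one step: constancy along the edges of the link of `M` inside `A` -/
theorem exflip1_step {s : Ω} (hP : X.P = {s}) {M : Tg Ω} (hM : X.lev M = -2) (hMs : X.m M s)
    (A : Set Ω)
    (inf2 : ∀ D : Finset Ω, ∃ x, x ∉ D ∧ x ∉ A ∧ ¬ X.m M x)
    (h0 : ∀ x y, x ∈ A → y ∉ A → ¬ X.m M x → ¬ X.m M y → ¬ X.E (M + t x + t y))
    (h1 : ∀ x y, x ∈ A → y ∈ A → ¬ X.m M x → ¬ X.m M y → X.E (M + t x + t y) →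
      X.Lab s A True (M + t x + t y))
    (h2 : ∀ x y, x ∉ A → y ∉ A → ¬ X.m M x → ¬ X.m M y → X.E (M + t x + t y) →
      X.Lab s A False (M + t x + t y))
    {x y : Ω} (hx : x ∈ A) (hy : y ∈ A) (mx : ¬ X.m M x) (my : ¬ X.m M y)
    (hE : X.E (M + t x + t y)) {v : Ω} (mv : ¬ X.m M v) (hvx : v ≠ x) (hvy : v ≠ y) :
    X.E (M + t x + t v) ↔ X.E (M + t x + t y + t s + t v) := by
  classical
  obtain ⟨p, hpD, hpA, mp⟩ := inf2 {v}
  have hpv : v ≠ p := fun h => hpD (by simp [h])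
  have hps : p ≠ s := (X.ne_of_m hMs mp).symm
  have hvs : v ≠ s := (X.ne_of_m hMs mv).symm
  have hxs : x ≠ s := (X.ne_of_m hMs mx).symm
  have hys : y ≠ s := (X.ne_of_m hMs my).symm
  have hpx : p ≠ x := by rintro rfl; exact hpA hx
  have hpy : p ≠ y := by rintro rfl; exact hpA hy
  have hyx : y ≠ x := (X.exflip1_nbr hM mx hE).1
  have hL := h1 x y hx hy mx my hE
  have hvP := X.exflip1_notP hP hvs
  -- levels
  have l1 := X.exflip1_lev1 hM mx
  have l2 := X.exflip1_lev1 hM mp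
  have l3 := X.exflip1_lev3 hM hMs mx mp (Ne.symm hpx)
  have l4 : X.lev (M + t x + t y + t s) = -1 := X.lev_S hE hL.2.1
  -- disjointness
  have dA : ∀ u, X.E (M + t x + t u) → u ∈ A := by
    intro u hu
    by_contra huA
    exact h0 x u hx huA mx (X.exflip1_nbr hM mx hu).2 hu
  have dB : ∀ u, X.E (M + t p + t u) → u ∉ A := by
    intro u hu huA
    exact h0 u p huA hpA (X.exflip1_nbr hM mp hu).2 mp (by rw [tg_comm]; exact hu)
  have d12 : X.Dj (M + t x) (M + t p) := fun u _ hu => dB u hu.2 (dA u hu.1)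
  have d13 : X.Dj (M + t x) (M + t s + t x + t p) := by
    intro u hu hh
    have huA := dA u hh.1
    have hlab := h1 x u hx huA mx (X.exflip1_nbr hM mx hh.1).2 hh.1
    have e : M + t s + t x + t p + t u = M + t x + t u + t s + t p := by abel
    have := X.lab_nbr hP hlab hps (by rw [← e]; exact hh.2)
    exact hpA (this.2 trivial)
  have d23 : X.Dj (M + t p) (M + t s + t x + t p) := by
    intro u hu hh
    have huA := dB u hh.1
    have hlab := h2 p u hpA huA mp (X.exflip1_nbr hM mp hh.1).2 hh.1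
    have e : M + t s + t x + t p + t u = M + t p + t u + t s + t x := by abel
    have := X.lab_nbr hP hlab hxs (by rw [← e]; exact hh.2)
    exact this.1 hx
  have d42 : X.Dj (M + t x + t y + t s) (M + t p) := by
    intro u hu hh
    have hus : u ≠ s := by
      rintro rfl
      apply hu
      rw [hP]; rfl
    have := X.lab_nbr hP hL hus hh.1
    exact dB u hh.2 (this.2 trivial)
  have d43 : X.Dj (M + t x + t y + t s) (M + t s + t x + t p) := by
    have mp' : ¬ X.m (M + t x + t y) p := by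
      rw [X.m_ne _ (Ne.symm hpy), X.m_ne _ (Ne.symm hpx)]; exact mp
    have my' : X.m (M + t x + t y) y := by
      rw [X.m_self, X.m_ne _ (Ne.symm hyx)]; exact my
    have := X.lab_U4 hP hL hys my' hps mp' (fun h => hpA (h.1 hy))
    have e : M + t x + t y + t s + t y + t p = M + t s + t x + t p := by
      have : M + t x + t y + t s + t y + t p = M + t s + t x + t p + (t y + t y) := by abel
      rw [this, tg_add_self, add_zero]
    rwa [e] at this
  have n1 : ¬ X.m (M + t x) v := by rw [X.m_ne M (Ne.symm hvx)]; exact mv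
  have n2 : ¬ X.m (M + t p) v := by rw [X.m_ne M (Ne.symm hpv)]; exact mv
  have n3 : ¬ X.m (M + t s + t x + t p) v := by
    rw [X.m_ne _ (Ne.symm hpv), X.m_ne _ (Ne.symm hvx), X.m_ne _ (Ne.symm hvs)]; exact mv
  have n4 : ¬ X.m (M + t x + t y + t s) v := by
    rw [X.m_ne _ (Ne.symm hvs), X.m_ne _ (Ne.symm hvy), X.m_ne _ (Ne.symm hvx)]; exact mv
  constructor
  · intro h
    rcases X.cover3 l4 l2 l3 d42 d43 d23 hvP n4 n2 n3 with h' | h' | h'
    · exact h'
    · exact absurd ⟨h, h'⟩ (d12 v hvP)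
    · exact absurd ⟨h, h'⟩ (d13 v hvP)
  · intro h
    rcases X.cover3 l1 l2 l3 d12 d13 d23 hvP n1 n2 n3 with h' | h' | h'
    · exact h'
    · exact absurd ⟨h, h'⟩ (d42 v hvP)
    · exact absurd ⟨h, h'⟩ (d43 v hvP)

/-- the link of `M` inside `A` is almost complete -/
theorem exflip1_side {s : Ω} (hP : X.P = {s}) {M : Tg Ω} (hM : X.lev M = -2) (hMs : X.m M s)
    (A : Set Ω)
    (inf2 : ∀ D : Finset Ω, ∃ x, x ∉ D ∧ x ∉ A ∧ ¬ X.m M x)
    (h0 : ∀ x y, x ∈ A → y ∉ A → ¬ X.m M x → ¬ X.m M y → ¬ X.E (M + t x + t y))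
    (h1 : ∀ x y, x ∈ A → y ∈ A → ¬ X.m M x → ¬ X.m M y → X.E (M + t x + t y) →
      X.Lab s A True (M + t x + t y))
    (h2 : ∀ x y, x ∉ A → y ∉ A → ¬ X.m M x → ¬ X.m M y → X.E (M + t x + t y) →
      X.Lab s A False (M + t x + t y))
    (c1 : ∃ D0 : Finset Ω, ∀ v, v ∉ D0 → ∀ x y, x ∈ A → y ∈ A → ¬ X.m M x → ¬ X.m M y →
      x ≠ v → y ≠ v → X.LinkConn M A v x y) :
    ∃ D0 : Finset Ω, ∀ v, v ∉ D0 → v ∈ A → ¬ X.m M v → ∀ x, x ∈ A → ¬ X.m M x → x ≠ v →
      X.E (M + t x + t v) := by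
  classical
  obtain ⟨D0, hD0⟩ := c1
  refine ⟨D0, fun v hvD hvA mv x hx mx hxv => ?_⟩
  obtain ⟨y, hyD, -, hyE⟩ := X.axN (M + t v) (X.exflip1_lev1 hM mv) ∅
  obtain ⟨hyv, my⟩ := X.exflip1_nbr hM mv hyE
  have hyA : y ∈ A := by
    by_contra hyA
    exact h0 v y hvA hyA mv my hyE
  have hlink := hD0 v hvD x y hx hyA mx my hxv hyv
  have hEy : X.E (M + t y + t v) := by rw [tg_comm]; exact hyE
  -- constancy along the path
  have key : X.E (M + t x + t v) ↔ X.E (M + t y + t v) := by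
    unfold LinkConn at hlink
    clear hyE hEy hyD
    induction hlink with
    | refl => rfl
    | @tail b c _ hbc ih =>
      obtain ⟨ha, hb, hav, hbv, ma, mb, hab⟩ := hbc
      have e1 := X.exflip1_step hP hM hMs A inf2 h0 h1 h2 ha hb ma mb hab mv (Ne.symm hav)
        (Ne.symm hbv)
      have e2 := X.exflip1_step hP hM hMs A inf2 h0 h1 h2 hb ha mb ma (by rw [tg_comm]; exact hab)
        mv (Ne.symm hbv) (Ne.symm hav)
      rw [tg_comm M c b, ← e1] at e2
      rw [e2]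
      exact ih hav ma ha
  exact key.2 hEy

/-- **The label does not flip, part 1**: it is impossible that the label is `A` on the
`A`-side of the link of `M` and not `A` on the other side.

Proof. All sets `S` below have level `-1`; write `N(S)` for the set of `v ≠ s` with `S + v` an edge.
Note `x ∉ M` implies `x ≠ s`. For `x ∈ A`, `p ∉ A` outside `M`:
`N(M+x) ⊆ A`, `N(M+p) ⊆ Aᶜ` by `h0`. `N(M+x)` and `N(M-s+x+p)` are disjoint: a common neighbour `v`
is in `A`, `K = M+x+v` is an edge and so is `K - s + p`, so `p ∈ A` by `h1` and `lab_nbr`.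
Similarly `N(M+p)` and `N(M-s+x+p)` are disjoint. By `cover3` every `v ≠ s` outside `M ∪ {x,p}` is in
exactly one of `N(M+x)`, `N(M+p)`, `N(M-s+x+p)`.
Let `x, y ∈ A` be adjacent (`K = M+x+y` an edge). `N(K-s) ⊆ A` (`lab_nbr`). By `lab_U4`, `N(K-s)` is
disjoint from `N(K-s-y+p) = N(M-s+x+p)`; it is disjoint from `N(M+p)`. So by `cover3` (both for the
triple with `M+x` and for the triple with `K-s`), `N(M+x)` and `N(K-s)` agree outside
`M ∪ {x,y,p}`, for every `p`; as there are many `p`, outside `M ∪ {x,y}`. By symmetry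
`N(M+x)` and `N(M+y)` agree outside `M ∪ {x,y}`. By `c1`, for all `x, y ∈ A` outside `M` and all
`v ∉ M ∪ D0`, `v ≠ s, x, y`: `v ∈ N(M+x) ↔ v ∈ N(M+y)`. Hence, for `v ∈ A` outside `M ∪ D0`, `v ≠ x`:
choose a neighbour `y ∉ D0 ∪ {x, v}` of `M+v`, then `v ∈ N(M+y)` so `v ∈ N(M+x)`. Similarly `N(M+p)`
contains all `v ∉ A` outside `M ∪ D0'`, `v ≠ p, s`. But `M-s+x+p` has a neighbour `v` outside any
finite set and outside `I` by `axN` (so `v ≠ s`), a contradiction. -/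
theorem no_flip1 {s : Ω} (hP : X.P = {s}) {M : Tg Ω} (hM : X.lev M = -2) (hMs : X.m M s)
    (A : Set Ω) (inf1 : ∀ D : Finset Ω, ∃ x, x ∉ D ∧ x ∈ A ∧ ¬ X.m M x)
    (inf2 : ∀ D : Finset Ω, ∃ x, x ∉ D ∧ x ∉ A ∧ ¬ X.m M x)
    (h0 : ∀ x y, x ∈ A → y ∉ A → ¬ X.m M x → ¬ X.m M y → ¬ X.E (M + t x + t y))
    (h1 : ∀ x y, x ∈ A → y ∈ A → ¬ X.m M x → ¬ X.m M y → X.E (M + t x + t y) →
      X.Lab s A True (M + t x + t y))
    (h2 : ∀ x y, x ∉ A → y ∉ A → ¬ X.m M x → ¬ X.m M y → X.E (M + t x + t y) →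
      X.Lab s A False (M + t x + t y))
    (c1 : ∃ D0 : Finset Ω, ∀ v, v ∉ D0 → ∀ x y, x ∈ A → y ∈ A → ¬ X.m M x → ¬ X.m M y →
      x ≠ v → y ≠ v → X.LinkConn M A v x y)
    (c2 : ∃ D0 : Finset Ω, ∀ v, v ∉ D0 → ∀ x y, x ∉ A → y ∉ A → ¬ X.m M x → ¬ X.m M y →
      x ≠ v → y ≠ v → X.LinkConn M Aᶜ v x y) : False := by
  classical
  obtain ⟨D1, hD1⟩ := X.exflip1_side hP hM hMs A inf2 h0 h1 h2 c1
  obtain ⟨D2, hD2⟩ := X.exflip1_side hP hM hMs Aᶜ
    (fun D => by
      obtain ⟨x, hx, hxA, mx⟩ := inf1 D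
      exact ⟨x, hx, by simpa using hxA, mx⟩)
    (fun x y hx hy mx my hE =>
      h0 y x (by simpa using hy) hx my mx (by rw [tg_comm]; exact hE))
    (fun x y hx hy mx my hE => X.exflip1_lab_compl (h2 x y hx hy mx my hE))
    (fun x y hx hy mx my hE => X.exflip1_lab_compl' (h1 x y (by simpa using hx)
      (by simpa using hy) mx my hE))
    c2
  obtain ⟨x, -, hx, mx⟩ := inf1 ∅
  obtain ⟨p, -, hp, mp⟩ := inf2 ∅
  have hxp : x ≠ p := by rintro rfl; exact hp hx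
  have hxs : x ≠ s := (X.ne_of_m hMs mx).symm
  have hps : p ≠ s := (X.ne_of_m hMs mp).symm
  have l3 := X.exflip1_lev3 hM hMs mx mp hxp
  obtain ⟨v, hvD, hvI, hvE⟩ := X.axN _ l3 (D1 ∪ D2 ∪ {x, p})
  simp only [Finset.mem_union, Finset.mem_insert, Finset.mem_singleton, not_or] at hvD
  obtain ⟨⟨hv1, hv2⟩, hvx, hvp⟩ := hvD
  have hvs : v ≠ s := by
    rintro rfl
    exact hvI (X.P_sub (by rw [hP]; rfl))
  have mv : ¬ X.m M v := by
    have := X.not_m_of_E l3 hvE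
    rwa [X.m_ne _ (Ne.symm hvp), X.m_ne _ (Ne.symm hvx), X.m_ne _ (Ne.symm hvs)] at this
  by_cases hvA : v ∈ A
  · have hE := hD1 v hv1 hvA mv x hx mx (Ne.symm hvx)
    have hlab := h1 x v hx hvA mx mv hE
    have e : M + t s + t x + t p + t v = M + t x + t v + t s + t p := by abel
    have := X.lab_nbr hP hlab hps (by rw [← e]; exact hvE)
    exact hp (this.2 trivial)
  · have hE := hD2 v hv2 hvA mv p hp mp (Ne.symm hvp)
    have hlab := h2 p v hp hvA mp mv hE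
    have e : M + t s + t x + t p + t v = M + t p + t v + t s + t x := by abel
    have := X.lab_nbr hP hlab hxs (by rw [← e]; exact hvE)
    exact this.1 hx

end PW

end Pool.Agent.Lib.MP_a572be_co
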