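import Pool.Agent.Lib.MP_a572be_co.EXCore

/-!
# The label does not flip, part 2
-/

namespace Pool.Agent.Lib.MP_a572be_co

namespace PW

variable {r : ℕ} {Ω : Type} (X : PW r Ω)

/-- The hypotheses of `no_flip2` after the use of `lab_nbr` and `lab_U4`; this form is symmetric
in `A` and `Aᶜ`. -/
structure exflip2_H (s : Ω) (M : Tg Ω) (A : Set Ω) (D0 : Finset Ω) : Prop where
  hP : X.P = {s}
  hM : X.lev M = -2
  hMs : X.m M s
  h0 : ∀ x y, x ∈ A → y ∉ A → ¬ X.m M x → ¬ X.m M y → ¬ X.E (M + t x + t y)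
  nA : ∀ x y v, x ∈ A → y ∈ A → ¬ X.m M x → ¬ X.m M y → X.E (M + t x + t y) → v ≠ s →
    X.E (M + t s + t x + t y + t v) → v ∉ A
  nB : ∀ x y v, x ∉ A → y ∉ A → ¬ X.m M x → ¬ X.m M y → X.E (M + t x + t y) → v ≠ s →
    X.E (M + t s + t x + t y + t v) → v ∈ A
  uA : ∀ x y p, x ∈ A → y ∈ A → p ∉ A → ¬ X.m M x → ¬ X.m M y → ¬ X.m M p →
    X.E (M + t x + t y) → X.Dj (M + t s + t x + t y) (M + t s + t x + t p)
  uB : ∀ p q x, p ∉ A → q ∉ A → x ∈ A → ¬ X.m M p → ¬ X.m M q → ¬ X.m M x →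
    X.E (M + t p + t q) → X.Dj (M + t s + t p + t q) (M + t s + t p + t x)
  c1 : ∀ v, v ∉ D0 → ∀ x y, x ∈ A → y ∈ A → ¬ X.m M x → ¬ X.m M y →
      x ≠ v → y ≠ v → X.LinkConn M A v x y

/-- The level of `M - s + x + y`. -/
theorem exflip2_lev {s : Ω} {M : Tg Ω} (hM : X.lev M = -2) (hMs : X.m M s) {x y : Ω}
    (hx : ¬ X.m M x) (hy : ¬ X.m M y) (hxy : x ≠ y) : X.lev (M + t s + t x + t y) = -1 := by
  have hsx : s ≠ x := by rintro rfl; exact hx hMs
  have hsy : s ≠ y := by rintro rfl; exact hy hMs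
  have h1 : X.lev (M + t s) = -3 := by rw [X.lev_in hMs, hM]; ring
  have h2 : ¬ X.m (M + t s) x := by rw [X.m_ne _ hsx]; exact hx
  have h3 : X.lev (M + t s + t x) = -2 := by rw [X.lev_out h2, h1]; ring
  have h4 : ¬ X.m (M + t s + t x) y := by rw [X.m_ne _ hxy, X.m_ne _ hsy]; exact hy
  rw [X.lev_out h4, h3]; ring

/-- Adjacent elements are different. -/
theorem exflip2_ne {M : Tg Ω} (hM : X.lev M = -2) {x y : Ω} (h : X.E (M + t x + t y)) :
    x ≠ y := by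
  rintro rfl
  rw [tg_add_t_t] at h
  have := X.lev_E h
  omega

/-- Every `p ∉ M` has infinitely many neighbours in the link of `M`. -/
theorem exflip2_adj {M : Tg Ω} (hM : X.lev M = -2) {p : Ω} (hp : ¬ X.m M p) (D : Finset Ω) :
    ∃ q, q ∉ D ∧ ¬ X.m M q ∧ q ≠ p ∧ X.E (M + t p + t q) := by
  have h1 : X.lev (M + t p) = -1 := by rw [X.lev_out hp, hM]; ring
  obtain ⟨q, hq, _, hE⟩ := X.axN (M + t p) h1 D
  have hqp : p ≠ q := exflip2_ne X hM hE
  have hn := X.not_m_of_E h1 hE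
  rw [X.m_ne _ hqp] at hn
  exact ⟨q, hq, hn, Ne.symm hqp, hE⟩

theorem exflip2_notm {s : Ω} {M : Tg Ω} (hMs : X.m M s) {x y v : Ω} (hx : ¬ X.m M x)
    (hy : ¬ X.m M y) (hv : ¬ X.m M v) (hvx : v ≠ x) (hvy : v ≠ y) :
    ¬ X.m (M + t s + t x + t y) v := by
  have hsv : s ≠ v := by rintro rfl; exact hv hMs
  rw [X.m_ne _ (Ne.symm hvy), X.m_ne _ (Ne.symm hvx), X.m_ne _ hsv]
  exact hv

/-- One step of constancy. -/
theorem exflip2_step {s : Ω} {M : Tg Ω} {A : Set Ω} {D0 : Finset Ω} (H : X.exflip2_H s M A D0)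
    {x y p v : Ω} (hx : x ∈ A) (hy : y ∈ A) (hp : p ∉ A) (mx : ¬ X.m M x) (my : ¬ X.m M y)
    (mp : ¬ X.m M p) (mv : ¬ X.m M v) (hvx : v ≠ x) (hvy : v ≠ y) (hvp : v ≠ p)
    (hE : X.E (M + t x + t y)) (h : X.E (M + t s + t x + t p + t v)) :
    X.E (M + t s + t y + t p + t v) := by
  obtain ⟨q, hq, mq, hqp, hEq⟩ := exflip2_adj X H.hM mp {v}
  have hqv : v ≠ q := by
    intro h; apply hq; simp [h]
  have hqA : q ∉ A := by
    intro hqA
    apply H.h0 q p hqA hp mq mp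
    rwa [tg_comm]
  have hvs : v ≠ s := by rintro rfl; exact mv H.hMs
  have hvP : v ∉ X.P := by rw [H.hP]; simpa using hvs
  have hxy : x ≠ y := exflip2_ne X H.hM hE
  have hyp : y ≠ p := by rintro rfl; exact hp hy
  have hEyx : X.E (M + t y + t x) := by rwa [tg_comm]
  have d12 : X.Dj (M + t s + t x + t y) (M + t s + t p + t q) := by
    intro w hw hh
    have hws : w ≠ s := by
      rintro rfl; apply hw; rw [H.hP]; rfl
    exact H.nA x y w hx hy mx my hE hws hh.1 (H.nB p q w hp hqA mp mq hEq hws hh.2)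
  have d13 : X.Dj (M + t s + t x + t y) (M + t s + t y + t p) := by
    have := H.uA y x p hy hx hp my mx mp hEyx
    rwa [tg_comm (M + t s) y x] at this
  have d23 : X.Dj (M + t s + t p + t q) (M + t s + t y + t p) := by
    have := H.uB p q y hp hqA hy mp mq my hEq
    rwa [tg_comm (M + t s) p y] at this
  rcases X.cover3 (exflip2_lev X H.hM H.hMs mx my hxy)
    (exflip2_lev X H.hM H.hMs mp mq (Ne.symm hqp))
    (exflip2_lev X H.hM H.hMs my mp hyp) d12 d13 d23 hvP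
    (exflip2_notm X H.hMs mx my mv hvx hvy) (exflip2_notm X H.hMs mp mq mv hvp hqv)
    (exflip2_notm X H.hMs my mp mv hvy hvp) with h1 | h1 | h1
  · exact absurd ⟨h1, h⟩ (H.uA x y p hx hy hp mx my mp hE v hvP)
  · have h2 := H.uB p q x hp hqA hx mp mq mx hEq v hvP
    rw [tg_comm (M + t s) p x] at h2
    exact absurd ⟨h1, h⟩ h2
  · exact h1

/-- Constancy. -/
theorem exflip2_const {s : Ω} {M : Tg Ω} {A : Set Ω} {D0 : Finset Ω} (H : X.exflip2_H s M A D0)
    {x y p v : Ω} (hx : x ∈ A) (hy : y ∈ A) (hp : p ∉ A) (mx : ¬ X.m M x) (my : ¬ X.m M y)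
    (mp : ¬ X.m M p) (mv : ¬ X.m M v) (hvx : v ≠ x) (hvy : v ≠ y) (hvp : v ≠ p)
    (hv : v ∉ D0) (h : X.E (M + t s + t x + t p + t v)) :
    X.E (M + t s + t y + t p + t v) := by
  have hc := H.c1 v hv x y hx hy mx my (Ne.symm hvx) (Ne.symm hvy)
  unfold LinkConn at hc
  induction hc with
  | refl => exact h
  | tail _ h2 ih =>
    obtain ⟨ha, hb, hav, hbv, ma, mb, hE⟩ := h2
    exact exflip2_step X H ha hb hp ma mb mp mv (Ne.symm hav) (Ne.symm hbv) hvp hE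
      (ih ha ma (Ne.symm hav))

/-- One half of the final contradiction. -/
theorem exflip2_half {s : Ω} {M : Tg Ω} {A : Set Ω} {D0 : Finset Ω} (H : X.exflip2_H s M A D0)
    {x p v : Ω} (hx : x ∈ A) (hp : p ∉ A) (hvA : v ∈ A) (mx : ¬ X.m M x)
    (mp : ¬ X.m M p) (mv : ¬ X.m M v) (hvx : v ≠ x) (hv : v ∉ D0)
    (h : X.E (M + t s + t x + t p + t v)) : False := by
  classical
  obtain ⟨q, -, mq, hqp, hEq⟩ := exflip2_adj X H.hM mp ∅
  have hqA : q ∉ A := by
    intro hqA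
    apply H.h0 q p hqA hp mq mp
    rwa [tg_comm]
  have hvp : v ≠ p := by rintro rfl; exact hp hvA
  obtain ⟨u, hu, -, hEu⟩ := X.axN (M + t s + t p + t q)
    (exflip2_lev X H.hM H.hMs mp mq (Ne.symm hqp)) (D0 ∪ {s, x, p, q, v})
  simp only [Finset.mem_union, Finset.mem_insert, Finset.mem_singleton, not_or] at hu
  obtain ⟨huD, hus, hux, hup, huq, huv⟩ := hu
  have huP : u ∉ X.P := by rw [H.hP]; simpa using hus
  have mu : ¬ X.m M u := by
    have := X.not_m_of_E (exflip2_lev X H.hM H.hMs mp mq (Ne.symm hqp)) hEu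
    rwa [X.m_ne _ (Ne.symm huq), X.m_ne _ (Ne.symm hup), X.m_ne _ (Ne.symm hus)] at this
  have huA : u ∈ A := H.nB p q u hp hqA mp mq hEq hus hEu
  have h1 : X.E (M + t s + t u + t p + t v) :=
    exflip2_const X H hx huA hp mx mu mp mv hvx (Ne.symm huv) hvp hv h
  have h2 : X.E (M + t s + t v + t p + t u) := by
    have e : M + t s + t v + t p + t u = M + t s + t u + t p + t v := by abel
    rw [e]; exact h1
  have h3 : X.E (M + t s + t x + t p + t u) :=
    exflip2_const X H hvA hx hp mv mx mp mu huv hux hup huD h2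
  have h4 := H.uB p q x hp hqA hx mp mq mx hEq u huP
  rw [tg_comm (M + t s) p x] at h4
  exact h4 ⟨hEu, h3⟩

/-- The labels give the symmetric hypotheses. -/
theorem exflip2_lab_nbr {s : Ω} (hP : X.P = {s}) {M : Tg Ω} {A : Set Ω} {ε : Prop} {x y v : Ω}
    (h : X.Lab s A ε (M + t x + t y)) (hv : v ≠ s) (hE : X.E (M + t s + t x + t y + t v)) :
    v ∈ A ↔ ε := by
  apply X.lab_nbr hP h hv
  have e : M + t x + t y + t s + t v = M + t s + t x + t y + t v := by abel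
  rw [e]; exact hE

theorem exflip2_lab_U4 {s : Ω} (hP : X.P = {s}) {M : Tg Ω} (hMs : X.m M s) {A : Set Ω}
    {ε : Prop} {x y p : Ω} (h : X.Lab s A ε (M + t x + t y)) (hxy : x ≠ y) (hpx : p ≠ x)
    (hpy : p ≠ y) (mx : ¬ X.m M x) (my : ¬ X.m M y) (mp : ¬ X.m M p)
    (hyp : ¬ (y ∈ A ↔ p ∈ A)) : X.Dj (M + t s + t x + t y) (M + t s + t x + t p) := by
  have hys : y ≠ s := by rintro rfl; exact my hMs
  have hps : p ≠ s := by rintro rfl; exact mp hMs
  have m1 : X.m (M + t x + t y) y := by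
    rw [X.m_self, X.m_ne _ hxy]; exact my
  have m2 : ¬ X.m (M + t x + t y) p := by
    rw [X.m_ne _ (Ne.symm hpy), X.m_ne _ (Ne.symm hpx)]; exact mp
  have := X.lab_U4 hP h hys m1 hps m2 hyp
  have e1 : M + t x + t y + t s = M + t s + t x + t y := by abel
  have e2 : M + t x + t y + t s + t y + t p = M + t s + t x + t p := by
    abel_nf; simp
  rw [e1] at this
  rw [← e1, e2, e1] at this
  exact this

/-- **The label does not flip, part 2**: it is impossible that the label is not `A` on the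
`A`-side of the link of `M` and `A` on the other side.

Proof. Notation as in part 1. For adjacent `x, y ∈ A` let `n(x,y) = N(M-s+x+y)`, contained in `Aᶜ`
by `lab_nbr`; for adjacent `p, q ∉ A`, `n(p,q) = N(M-s+p+q) ⊆ A`; for `x ∈ A`, `p ∉ A`,
`n(x,p) = N(M-s+x+p)`. By `lab_U4`, `n(x,y)` and `n(x,p)` are disjoint, `n(p,q)` and `n(x,p)` are
disjoint (for adjacent pairs), and `n(x,y)`, `n(p,q)` are disjoint. So by `cover3`, for
adjacent `x, y` and adjacent `p, q`, `n(x,p)` is the complement of `n(x,y) ∪ n(p,q)` outside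
`M ∪ {x,y,p,q,s}`, and so is `n(y,p)`: for adjacent `x, y`, `v ∈ n(x,p) ↔ v ∈ n(y,p)` for
`v ∉ M ∪ {x,y,p}` (choose `q` adjacent to `p` with `q ≠ v`: any `p` has infinitely many neighbours,
outside `A` by `h0`). By `c1`, `v ∈ n(x,p) ↔ v ∈ n(y,p)` for all `x, y ∈ A` outside `M` and different
from `v`, for `v ∉ M ∪ D0 ∪ {p, s}`. Similarly for the second variable by `c2`.
Take a neighbour `v` of `M-s+x+p` far away (outside `I`, `D0`, `D0'`, `M`, `x`, `p`), by `axN`.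
Case `v ∈ A`. For `u ∈ A` far away: `v ∈ n(u,p)` (constancy), so `u ∈ n(v,p)` (the same set
`M-s+u+p+v`), so `u ∈ n(x,p)` (constancy). But for `q` adjacent to `p`, `n(p,q) ⊆ A` has a far away
element `u` (`axN`) and `n(p,q)` is disjoint from `n(x,p)`: contradiction.
Case `v ∉ A`. For `u ∉ A` far away: `v ∈ n(x,u)`, so `u ∈ n(x,v)`, so `u ∈ n(x,p)`. For `y` adjacent to
`x`, `n(x,y) ⊆ Aᶜ` has a far away element and is disjoint from `n(x,p)`: contradiction. -/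
theorem no_flip2 {s : Ω} (hP : X.P = {s}) {M : Tg Ω} (hM : X.lev M = -2) (hMs : X.m M s)
    (A : Set Ω) (inf1 : ∀ D : Finset Ω, ∃ x, x ∉ D ∧ x ∈ A ∧ ¬ X.m M x)
    (inf2 : ∀ D : Finset Ω, ∃ x, x ∉ D ∧ x ∉ A ∧ ¬ X.m M x)
    (h0 : ∀ x y, x ∈ A → y ∉ A → ¬ X.m M x → ¬ X.m M y → ¬ X.E (M + t x + t y))
    (h1 : ∀ x y, x ∈ A → y ∈ A → ¬ X.m M x → ¬ X.m M y → X.E (M + t x + t y) →
      X.Lab s A False (M + t x + t y))
    (h2 : ∀ x y, x ∉ A → y ∉ A → ¬ X.m M x → ¬ X.m M y → X.E (M + t x + t y) →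
      X.Lab s A True (M + t x + t y))
    (c1 : ∃ D0 : Finset Ω, ∀ v, v ∉ D0 → ∀ x y, x ∈ A → y ∈ A → ¬ X.m M x → ¬ X.m M y →
      x ≠ v → y ≠ v → X.LinkConn M A v x y)
    (c2 : ∃ D0 : Finset Ω, ∀ v, v ∉ D0 → ∀ x y, x ∉ A → y ∉ A → ¬ X.m M x → ¬ X.m M y →
      x ≠ v → y ≠ v → X.LinkConn M Aᶜ v x y) : False := by
  classical
  obtain ⟨D1, c1⟩ := c1
  obtain ⟨D2, c2⟩ := c2
  have nA : ∀ x y v, x ∈ A → y ∈ A → ¬ X.m M x → ¬ X.m M y → X.E (M + t x + t y) → v ≠ s →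
      X.E (M + t s + t x + t y + t v) → v ∉ A := fun x y v hx hy mx my hE hv hEv =>
    fun hA => (exflip2_lab_nbr X hP (h1 x y hx hy mx my hE) hv hEv).1 hA
  have nB : ∀ x y v, x ∉ A → y ∉ A → ¬ X.m M x → ¬ X.m M y → X.E (M + t x + t y) → v ≠ s →
      X.E (M + t s + t x + t y + t v) → v ∈ A := fun x y v hx hy mx my hE hv hEv =>
    (exflip2_lab_nbr X hP (h2 x y hx hy mx my hE) hv hEv).2 trivial
  have uA : ∀ x y p, x ∈ A → y ∈ A → p ∉ A → ¬ X.m M x → ¬ X.m M y → ¬ X.m M p →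
      X.E (M + t x + t y) → X.Dj (M + t s + t x + t y) (M + t s + t x + t p) := by
    intro x y p hx hy hp mx my mp hE
    exact exflip2_lab_U4 X hP hMs (h1 x y hx hy mx my hE) (exflip2_ne X hM hE)
      (by rintro rfl; exact hp hx) (by rintro rfl; exact hp hy) mx my mp
      (fun h => hp (h.1 hy))
  have uB : ∀ p q x, p ∉ A → q ∉ A → x ∈ A → ¬ X.m M p → ¬ X.m M q → ¬ X.m M x →
      X.E (M + t p + t q) → X.Dj (M + t s + t p + t q) (M + t s + t p + t x) := by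
    intro p q x hp hq hx mp mq mx hE
    exact exflip2_lab_U4 X hP hMs (h2 p q hp hq mp mq hE) (exflip2_ne X hM hE)
      (by rintro rfl; exact hp hx) (by rintro rfl; exact hq hx) mp mq mx
      (fun h => hq (h.2 hx))
  have H1 : X.exflip2_H s M A D1 := ⟨hP, hM, hMs, h0, nA, nB, uA, uB, c1⟩
  have H2 : X.exflip2_H s M Aᶜ D2 := by
    refine ⟨hP, hM, hMs, ?_, ?_, ?_, ?_, ?_, ?_⟩
    · intro x y hx hy mx my hE
      rw [Set.mem_compl_iff, not_not] at hy
      apply h0 y x hy hx my mx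
      rwa [tg_comm]
    · intro x y v hx hy mx my hE hv hEv hvA
      exact hvA (nB x y v hx hy mx my hE hv hEv)
    · intro x y v hx hy mx my hE hv hEv
      rw [Set.mem_compl_iff, not_not] at hx hy
      exact nA x y v hx hy mx my hE hv hEv
    · intro x y p hx hy hp mx my mp hE
      rw [Set.mem_compl_iff, not_not] at hp
      exact uB x y p hx hy hp mx my mp hE
    · intro p q x hp hq hx mp mq mx hE
      rw [Set.mem_compl_iff, not_not] at hp hq
      exact uA p q x hp hq hx mp mq mx hE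
    · intro v hv x y hx hy mx my hxv hyv
      exact c2 v hv x y hx hy mx my hxv hyv
  obtain ⟨x, -, hx, mx⟩ := inf1 ∅
  obtain ⟨p, -, hp, mp⟩ := inf2 ∅
  have hxp : x ≠ p := by rintro rfl; exact hp hx
  obtain ⟨v, hv, -, hE⟩ := X.axN (M + t s + t x + t p) (exflip2_lev X hM hMs mx mp hxp)
    (D1 ∪ D2 ∪ {s, x, p})
  simp only [Finset.mem_union, Finset.mem_insert, Finset.mem_singleton, not_or] at hv
  obtain ⟨⟨hv1, hv2⟩, hvs, hvx, hvp⟩ := hv
  have mv : ¬ X.m M v := by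
    have := X.not_m_of_E (exflip2_lev X hM hMs mx mp hxp) hE
    rwa [X.m_ne _ (Ne.symm hvp), X.m_ne _ (Ne.symm hvx), X.m_ne _ (Ne.symm hvs)] at this
  by_cases hvA : v ∈ A
  · exact exflip2_half X H1 hx hp hvA mx mp mv hvx hv1 hE
  · have hE' : X.E (M + t s + t p + t x + t v) := by
      rw [tg_comm (M + t s) p x]; exact hE
    exact exflip2_half X H2 (x := p) (p := x) hp (fun h => h hx) hvA mp mx mv hvp hv2 hE'

end PW

end Pool.Agent.Lib.MP_a572be_co
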