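import Pool.Agent.Lib.MP_a572be_co.Ext
import Pool.Agent.Lib.MP_a572be_co.EXFlip1
import Pool.Agent.Lib.MP_a572be_co.EXFlip2

/-!
# Two-class edges and the label of a special element
-/

namespace Pool.Agent.Lib.MP_a572be_co

variable {r : ℕ} {Ω : Type}

namespace PW

variable (W : PW r Ω)

/-- The `c`-classes of the edge `K` are `A ∩ K` and `K \ A` (both nonempty) and exchanges at `K`
respect `A`. -/
def CTwo (K : Tg Ω) (A : Set Ω) : Prop :=
  W.E K ∧ (∀ a b, W.m K a → W.m K b → (W.c K a b ↔ (a ∈ A ↔ b ∈ A))) ∧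
  (∀ a v, W.m K a → ¬ W.m K v → W.E (K + t a + t v) → (a ∈ A ↔ v ∈ A)) ∧
  (∃ a, a ∈ A ∧ W.m K a) ∧ (∃ b, b ∉ A ∧ W.m K b)

/-- `CTwo` is preserved by exchanges. Let `K' = K - x + v`. The classes by `c_move`, `c_move'` (and
`x ∈ A ↔ v ∈ A`). Exchanges at `K'`: let `K' - a + u` be an edge. If `u = x` then `c_swap` at `K'`
(with `K' - v + x = K`) gives `c K' a v`. Otherwise `u ∉ K`, and `copy` for the family `{K, K'}` at `u`
gives `i` in both with `K - i + u` and `K' - i + u` edges; `i ∈ A ↔ u ∈ A` from `K` and `c K' a i` by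
`c_swap`. -/
theorem ctwo_exch (hP : W.P = ∅) {K : Tg Ω} {A : Set Ω} (h : W.CTwo K A) {x v : Ω}
    (hx : W.m K x) (hv : ¬ W.m K v) (hE : W.E (K + t x + t v)) : W.CTwo (K + t x + t v) A := by
  classical
  obtain ⟨hK, hA, hB, ⟨a0, ha0, ma0⟩, ⟨b0, hb0, mb0⟩⟩ := h
  have hxv : x ∈ A ↔ v ∈ A := hB x v hx hv hE
  have hne : x ≠ v := W.ne_of_m hx hv
  have mv : W.m (K + t x + t v) v := by
    rw [W.m_self, W.m_ne _ hne]; exact hv
  have mx : ¬ W.m (K + t x + t v) x := by
    rw [W.m_ne _ (Ne.symm hne), W.m_self]; simpa using hx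
  have mo : ∀ a, a ≠ x → a ≠ v → (W.m (K + t x + t v) a ↔ W.m K a) := by
    intro a h1 h2
    rw [W.m_ne _ (Ne.symm h2), W.m_ne _ (Ne.symm h1)]
  have one : ∀ a, W.m (K + t x + t v) a → a ≠ v →
      (W.c (K + t x + t v) a v ↔ (a ∈ A ↔ v ∈ A)) := by
    intro a ma hav
    have hax : a ≠ x := by rintro rfl; exact mx ma
    have maK := (mo a hax hav).1 ma
    rw [← W.c_move' K x v a hK hx hv hE maK hax, hA a x maK hx, hxv]
  have cl : ∀ a b, W.m (K + t x + t v) a → W.m (K + t x + t v) b →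
      (W.c (K + t x + t v) a b ↔ (a ∈ A ↔ b ∈ A)) := by
    intro a b ma mb
    by_cases hav : a = v
    · by_cases hbv : b = v
      · subst hav; subst hbv
        exact ⟨fun _ => Iff.rfl, fun _ => W.c_refl _ _ hE ma⟩
      · subst hav
        have h1 := one b mb hbv
        constructor
        · intro h2
          exact (h1.1 (W.c_symm _ _ _ hE ma mb h2)).symm
        · intro h2
          exact W.c_symm _ _ _ hE mb ma (h1.2 h2.symm)
    · by_cases hbv : b = v
      · subst hbv; exact one a ma hav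
      · have hax : a ≠ x := by rintro rfl; exact mx ma
        have hbx : b ≠ x := by rintro rfl; exact mx mb
        have maK := (mo a hax hav).1 ma
        have mbK := (mo b hbx hbv).1 mb
        rw [← W.c_move K x v a b hK hx hv hE maK mbK hax hbx]
        exact hA a b maK mbK
  refine ⟨hE, cl, ?_, ?_, ?_⟩
  · intro a u ma mu hEu
    by_cases hux : u = x
    · subst hux
      have e : K + t u + t v + t v + t u = K := by
        rw [tg_add_t_t, tg_add_t_t]
      have h1 := W.c_swap _ a v u hE ma mv mx hEu (by rw [e]; exact hK)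
      rw [hxv]
      exact (cl a v ma mv).1 h1
    · have huv : u ≠ v := by rintro rfl; exact mu mv
      have muK : ¬ W.m K u := fun h => mu ((mo u hux huv).2 h)
      have huP : u ∉ W.P := by rw [hP]; exact Set.notMem_empty u
      obtain ⟨q, _, hqu, _, hq⟩ := W.copy {K, K + t x + t v} False huP (by
        intro L hL
        simp only [Finset.mem_insert, Finset.mem_singleton] at hL
        rcases hL with rfl | rfl
        · simpa using muK
        · simpa using mu) ∅
      obtain ⟨q1, q2⟩ := hq K (by simp)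
      obtain ⟨q3, q4⟩ := hq (K + t x + t v) (by simp)
      have mq : W.m K q := by simpa using q1
      have mq' : W.m (K + t x + t v) q := by simpa using q3
      have e1 : W.E (K + t q + t u) := by rw [tg_comm]; exact q2.1 hK
      have e2 : W.E (K + t x + t v + t q + t u) := by rw [tg_comm _ q u]; exact q4.1 hE
      have h1 := hB q u mq muK e1
      have h2 := (cl a q ma mq').1 (W.c_swap _ a q u hE ma mq' mu hEu e2)
      exact h2.trans h1
  · by_cases h : a0 = x
    · subst h; exact ⟨v, hxv.1 ha0, mv⟩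
    · refine ⟨a0, ha0, (mo a0 h ?_).2 ma0⟩
      rintro rfl; exact hv ma0
  · by_cases h : b0 = x
    · subst h; exact ⟨v, fun hh => hb0 (hxv.2 hh), mv⟩
    · refine ⟨b0, hb0, (mo b0 h ?_).2 mb0⟩
      rintro rfl; exact hv mb0

theorem ctwo_conn (hP : W.P = ∅) {K K' : Tg Ω} {A : Set Ω} (h : W.CTwo K A)
    (hc : W.Conn K K') : W.CTwo K' A := by
  induction hc with
  | refl => exact h
  | tail _ h2 ih =>
    obtain ⟨_, hE, x, v, hx, hv, rfl⟩ := h2
    exact W.ctwo_exch hP ih hx hv hE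

/-- The special element of an extension is on the side `ε` of the edge `K`. -/
def XLab (X : PW r (Option Ω)) (K : Tg Ω) (A : Set Ω) (ε : Prop) : Prop :=
  ∀ a, W.m K a → (X.c (emb K) none (some a) ↔ (a ∈ A ↔ ε))

/-- The special element has a label at each two-class edge: `emb K + t none` has a neighbour
`some v` (`axN`, `v ∉ I`), by `vis` there is `some y ∈ emb K` such that `emb K - y + v` is an edge, and
by `c_swap`, `X.c (emb K) none (some y)`; take `ε := y ∈ A` and use transitivity. -/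
theorem xlab_exists {X : PW r (Option Ω)} (hX : IsExt W X) {K : Tg Ω} {A : Set Ω}
    (h : W.CTwo K A) : ∃ ε : Prop, W.XLab X K A ε := by
  obtain ⟨hK, hA, _, _, _⟩ := h
  have hE : X.E (emb K) := (hX.E_iff K).2 hK
  have hn := m_emb_none hX K
  obtain ⟨v', _, hvI, mv, hv⟩ := X.vis_out hE hn ∅
  have hvn : v' ≠ none := by rintro rfl; exact hvI hX.none_I
  have hvP : v' ∉ X.P := by rw [hX.P_eq]; simpa using hvn
  obtain ⟨y', hyD, my', hy'⟩ := X.vis hE mv hvP {none}
  have hyn : y' ≠ none := by simpa using hyD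
  obtain ⟨y, rfl⟩ := Option.ne_none_iff_exists'.1 hyn
  have hc := X.c_swap _ none (some y) v' hE hn my' mv hv hy'
  have my : W.m K y := (m_emb hX K y).1 my'
  refine ⟨y ∈ A, fun a ma => ?_⟩
  have ma' := (m_emb hX K a).2 ma
  have h1 := hA y a my ma
  rw [← hX.c_iff] at h1
  constructor
  · intro h2
    have h3 := X.c_trans _ _ _ _ hE my' hn ma' (X.c_symm _ _ _ hE hn my' hc) h2
    exact (h1.1 h3).symm
  · intro h2
    exact X.c_trans _ _ _ _ hE hn my' ma' hc (h1.2 h2.symm)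

/-- The label is preserved by exchanges (`c_move`, `c_move'`). -/
theorem xlab_exch {X : PW r (Option Ω)} (hX : IsExt W X) {K : Tg Ω} {A : Set Ω} {ε : Prop}
    (h : W.CTwo K A) (hl : W.XLab X K A ε) {x v : Ω}
    (hx : W.m K x) (hv : ¬ W.m K v) (hE : W.E (K + t x + t v)) :
    W.XLab X (K + t x + t v) A ε := by
  obtain ⟨hK, _, hB, _, _⟩ := h
  have hxv : x ∈ A ↔ v ∈ A := hB x v hx hv hE
  have hne : x ≠ v := W.ne_of_m hx hv
  have hE0 : X.E (emb K) := (hX.E_iff K).2 hK
  have e : emb (K + t x + t v) = emb K + t (some x) + t (some v) := by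
    rw [emb_add_t, emb_add_t]
  have hE1 : X.E (emb K + t (some x) + t (some v)) := by
    rw [← e]; exact (hX.E_iff _).2 hE
  have hn := m_emb_none hX K
  have mx' := (m_emb hX K x).2 hx
  have mv' : ¬ X.m (emb K) (some v) := fun h => hv ((m_emb hX K v).1 h)
  intro a ma
  rw [e]
  by_cases hav : a = v
  · subst hav
    rw [← X.c_move' _ (some x) (some a) none hE0 mx' mv' hE1 hn (by simp), hl x hx, hxv]
  · have hax : a ≠ x := by
      rintro rfl
      rw [W.m_ne _ (Ne.symm hne), W.m_self] at ma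
      exact ma hx
    have maK : W.m K a := by
      rwa [W.m_ne _ (Ne.symm hav), W.m_ne _ (Ne.symm hax)] at ma
    rw [← X.c_move _ (some x) (some v) none (some a) hE0 mx' mv' hE1 hn
      ((m_emb hX K a).2 maK) (by simp) (by simpa using hax)]
    exact hl a maK

/-- From `CTwo` and `XLab` to `Lab`. -/
theorem exbase_lab {X : PW r (Option Ω)} (hX : IsExt W X) {K : Tg Ω} {A : Set Ω} {ε : Prop}
    (h : W.CTwo K A) (hl : W.XLab X K A ε) : X.Lab none (some '' A) ε (emb K) := by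
  obtain ⟨hK, hA, hB, _, _⟩ := h
  have mems : ∀ a : Ω, ((some a : Option Ω) ∈ some '' A ↔ a ∈ A) := by
    intro a
    constructor
    · rintro ⟨b, hb, hab⟩
      rw [Option.some.injEq] at hab
      rwa [← hab]
    · intro ha; exact ⟨a, ha, rfl⟩
  refine ⟨(hX.E_iff K).2 hK, m_emb_none hX K, ?_, ?_, ?_⟩
  · intro a b ha hb ma mb
    obtain ⟨a, rfl⟩ := Option.ne_none_iff_exists'.1 ha
    obtain ⟨b, rfl⟩ := Option.ne_none_iff_exists'.1 hb
    rw [hX.c_iff, mems, mems]
    exact hA a b ((m_emb hX K a).1 ma) ((m_emb hX K b).1 mb)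
  · intro a v ha hv ma mv hE
    obtain ⟨a, rfl⟩ := Option.ne_none_iff_exists'.1 ha
    obtain ⟨v, rfl⟩ := Option.ne_none_iff_exists'.1 hv
    rw [mems, mems]
    refine hB a v ((m_emb hX K a).1 ma) (fun h => mv ((m_emb hX K v).2 h)) ?_
    rw [← emb_add_t, ← emb_add_t] at hE
    exact (hX.E_iff _).1 hE
  · intro a ha ma
    obtain ⟨a, rfl⟩ := Option.ne_none_iff_exists'.1 ha
    rw [mems]
    exact hl a ((m_emb hX K a).1 ma)

theorem xlab_conn (hP : W.P = ∅) {X : PW r (Option Ω)} (hX : IsExt W X) {K K' : Tg Ω}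
    {A : Set Ω} {ε : Prop} (h : W.CTwo K A) (hl : W.XLab X K A ε) (hc : W.Conn K K') :
    W.XLab X K' A ε := by
  induction hc with
  | refl => exact hl
  | tail h1 h2 ih =>
    obtain ⟨_, hE, x, v, hx, hv, rfl⟩ := h2
    exact W.xlab_exch hX (W.ctwo_conn hP h h1) ih hx hv hE

/-- **The label does not flip**, in terms of the base world: from `no_flip1` and `no_flip2` for
`X`, `s = none`, `emb M` and the set `some '' A`. -/
theorem ex_base (hP : W.P = ∅) {X : PW r (Option Ω)} (hX : IsExt W X) {M : Tg Ω}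
    (hM : W.lev M = -2) (A : Set Ω) (ε1 ε2 : Prop)
    (inf1 : ∀ D : Finset Ω, ∃ x, x ∉ D ∧ x ∈ A ∧ ¬ W.m M x)
    (inf2 : ∀ D : Finset Ω, ∃ x, x ∉ D ∧ x ∉ A ∧ ¬ W.m M x)
    (h0 : ∀ x y, x ∈ A → y ∉ A → ¬ W.m M x → ¬ W.m M y → ¬ W.E (M + t x + t y))
    (h1 : ∀ x y, x ∈ A → y ∈ A → ¬ W.m M x → ¬ W.m M y → W.E (M + t x + t y) →
      W.CTwo (M + t x + t y) A ∧ W.XLab X (M + t x + t y) A ε1)
    (h2 : ∀ x y, x ∉ A → y ∉ A → ¬ W.m M x → ¬ W.m M y → W.E (M + t x + t y) →
      W.CTwo (M + t x + t y) A ∧ W.XLab X (M + t x + t y) A ε2)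
    (c1 : ∃ D0 : Finset Ω, ∀ v, v ∉ D0 → ∀ x y, x ∈ A → y ∈ A → ¬ W.m M x → ¬ W.m M y →
      x ≠ v → y ≠ v → W.LinkConn M A v x y)
    (c2 : ∃ D0 : Finset Ω, ∀ v, v ∉ D0 → ∀ x y, x ∉ A → y ∉ A → ¬ W.m M x → ¬ W.m M y →
      x ≠ v → y ≠ v → W.LinkConn M Aᶜ v x y) : ε1 ↔ ε2 := by
  classical
  have mems : ∀ a : Ω, ((some a : Option Ω) ∈ some '' A ↔ a ∈ A) := by
    intro a
    constructor
    · rintro ⟨b, hb, hab⟩
      rw [Option.some.injEq] at hab
      rwa [← hab]
    · intro ha; exact ⟨a, ha, rfl⟩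
  have hMl : X.lev (emb M) = -2 := by rw [lev_emb hX, hM]
  have hMs := m_emb_none hX M
  have nn : ∀ x : Option Ω, ¬ X.m (emb M) x → ∃ y, x = some y ∧ ¬ W.m M y := by
    intro x hx
    have : x ≠ none := by rintro rfl; exact hx hMs
    obtain ⟨y, rfl⟩ := Option.ne_none_iff_exists'.1 this
    exact ⟨y, rfl, fun h => hx ((m_emb hX M y).2 h)⟩
  have i1 : ∀ D : Finset (Option Ω), ∃ x, x ∉ D ∧ x ∈ some '' A ∧ ¬ X.m (emb M) x := by
    intro D
    obtain ⟨x, h1, h2, h3⟩ := inf1 (Finset.eraseNone D)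
    exact ⟨some x, fun h => h1 (Finset.mem_eraseNone.2 h), (mems x).2 h2,
      fun h => h3 ((m_emb hX M x).1 h)⟩
  have i2 : ∀ D : Finset (Option Ω), ∃ x, x ∉ D ∧ x ∉ some '' A ∧ ¬ X.m (emb M) x := by
    intro D
    obtain ⟨x, h1, h2, h3⟩ := inf2 (Finset.eraseNone D)
    exact ⟨some x, fun h => h1 (Finset.mem_eraseNone.2 h), fun h => h2 ((mems x).1 h),
      fun h => h3 ((m_emb hX M x).1 h)⟩
  have g0 : ∀ x y, x ∈ some '' A → y ∉ some '' A → ¬ X.m (emb M) x → ¬ X.m (emb M) y →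
      ¬ X.E (emb M + t x + t y) := by
    intro x y hx hy mx my hE
    obtain ⟨x, rfl, mx'⟩ := nn x mx
    obtain ⟨y, rfl, my'⟩ := nn y my
    rw [← emb_add_t, ← emb_add_t, hX.E_iff] at hE
    exact h0 x y ((mems x).1 hx) (fun h => hy ((mems y).2 h)) mx' my' hE
  have g1 : ∀ x y, x ∈ some '' A → y ∈ some '' A → ¬ X.m (emb M) x → ¬ X.m (emb M) y →
      X.E (emb M + t x + t y) → X.Lab none (some '' A) ε1 (emb M + t x + t y) := by
    intro x y hx hy mx my hE
    obtain ⟨x, rfl, mx'⟩ := nn x mx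
    obtain ⟨y, rfl, my'⟩ := nn y my
    rw [← emb_add_t, ← emb_add_t] at hE ⊢
    rw [hX.E_iff] at hE
    obtain ⟨k1, k2⟩ := h1 x y ((mems x).1 hx) ((mems y).1 hy) mx' my' hE
    exact W.exbase_lab hX k1 k2
  have g2 : ∀ x y, x ∉ some '' A → y ∉ some '' A → ¬ X.m (emb M) x → ¬ X.m (emb M) y →
      X.E (emb M + t x + t y) → X.Lab none (some '' A) ε2 (emb M + t x + t y) := by
    intro x y hx hy mx my hE
    obtain ⟨x, rfl, mx'⟩ := nn x mx
    obtain ⟨y, rfl, my'⟩ := nn y my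
    rw [← emb_add_t, ← emb_add_t] at hE ⊢
    rw [hX.E_iff] at hE
    obtain ⟨k1, k2⟩ := h2 x y (fun h => hx ((mems x).2 h)) (fun h => hy ((mems y).2 h))
      mx' my' hE
    exact W.exbase_lab hX k1 k2
  have lift : ∀ (B : Set Ω) (B' : Set (Option Ω)), (∀ a, a ∈ B → some a ∈ B') →
      ∀ v x y : Ω, W.LinkConn M B v x y → X.LinkConn (emb M) B' (some v) (some x) (some y) := by
    intro B B' hBB v x y hc
    refine Relation.ReflTransGen.lift (some : Ω → Option Ω) ?_ _ _ hc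
    rintro a b ⟨k1, k2, k3, k4, k5, k6, k7⟩
    refine ⟨hBB a k1, hBB b k2, by simpa using k3, by simpa using k4,
      fun h => k5 ((m_emb hX M a).1 h), fun h => k6 ((m_emb hX M b).1 h), ?_⟩
    rw [← emb_add_t, ← emb_add_t, hX.E_iff]
    exact k7
  have d1 : ∃ D0 : Finset (Option Ω), ∀ v, v ∉ D0 → ∀ x y, x ∈ some '' A → y ∈ some '' A →
      ¬ X.m (emb M) x → ¬ X.m (emb M) y → x ≠ v → y ≠ v →
      X.LinkConn (emb M) (some '' A) v x y := by
    obtain ⟨D0, hD0⟩ := c1
    refine ⟨insert none (D0.map Function.Embedding.some), ?_⟩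
    intro v hv x y hx hy mx my hxv hyv
    simp only [Finset.mem_insert, Finset.mem_map, not_or, not_exists] at hv
    obtain ⟨v, rfl⟩ := Option.ne_none_iff_exists'.1 hv.1
    obtain ⟨x, rfl, mx'⟩ := nn x mx
    obtain ⟨y, rfl, my'⟩ := nn y my
    refine lift A _ (fun a ha => (mems a).2 ha) v x y (hD0 v ?_ x y ((mems x).1 hx)
      ((mems y).1 hy) mx' my' (fun h => hxv (by rw [h])) (fun h => hyv (by rw [h])))
    intro h
    exact hv.2 v ⟨h, rfl⟩
  have d2 : ∃ D0 : Finset (Option Ω), ∀ v, v ∉ D0 → ∀ x y, x ∉ some '' A → y ∉ some '' A →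
      ¬ X.m (emb M) x → ¬ X.m (emb M) y → x ≠ v → y ≠ v →
      X.LinkConn (emb M) (some '' A)ᶜ v x y := by
    obtain ⟨D0, hD0⟩ := c2
    refine ⟨insert none (D0.map Function.Embedding.some), ?_⟩
    intro v hv x y hx hy mx my hxv hyv
    simp only [Finset.mem_insert, Finset.mem_map, not_or, not_exists] at hv
    obtain ⟨v, rfl⟩ := Option.ne_none_iff_exists'.1 hv.1
    obtain ⟨x, rfl, mx'⟩ := nn x mx
    obtain ⟨y, rfl, my'⟩ := nn y my
    refine lift Aᶜ (some '' A)ᶜ (fun a ha => fun h => ha ((mems a).1 h)) v x y (hD0 v ?_ x y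
      (fun h => hx ((mems x).2 h)) (fun h => hy ((mems y).2 h)) mx' my'
      (fun h => hxv (by rw [h])) (fun h => hyv (by rw [h])))
    intro h
    exact hv.2 v ⟨h, rfl⟩
  by_cases t1 : ε1
  · by_cases t2 : ε2
    · exact ⟨fun _ => t2, fun _ => t1⟩
    · exfalso
      have e1 : ε1 = True := by simpa using t1
      have e2 : ε2 = False := by simpa using t2
      rw [e1] at g1
      rw [e2] at g2
      exact X.no_flip1 hX.P_eq hMl hMs (some '' A) i1 i2 g0 g1 g2 d1 d2
  · by_cases t2 : ε2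
    · exfalso
      have e1 : ε1 = False := by simpa using t1
      have e2 : ε2 = True := by simpa using t2
      rw [e1] at g1
      rw [e2] at g2
      exact X.no_flip2 hX.P_eq hMl hMs (some '' A) i1 i2 g0 g1 g2 d1 d2
    · exact ⟨fun h => absurd h t1, fun h => absurd h t2⟩

end PW

namespace World

variable (W : World r Ω)

/-- In a two-class component the `c`-classes are the two classes (`c_of_eqv` and `two`). -/
theorem ctwo_of_two {K : Tg Ω} {A : Set Ω} (hT : W.Two K A) : W.CTwo K A := by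
  have hK := hT.1
  have ce : ∀ a b, W.toPW.m K a → W.toPW.m K b → (a ∈ A ↔ b ∈ A) → W.c K a b := by
    intro a b ma mb h
    exact W.toPW.c_of_eqv W.P_empty hK ma mb ((hT.2.1 a b).2 h)
  -- no two elements on different sides are related
  have nc : ∀ a b, W.toPW.m K a → W.toPW.m K b → a ∈ A → b ∉ A → ¬ W.c K a b := by
    intro a b ma mb ha hb hc
    obtain ⟨y, my, hy⟩ := W.two K a hK ma
    apply hy
    by_cases hyA : y ∈ A
    · exact ce a y ma my ⟨fun _ => hyA, fun _ => ha⟩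
    · exact W.c_trans K a b y hK ma mb my hc
        (ce b y mb my ⟨fun h => absurd h hb, fun h => absurd h hyA⟩)
  refine ⟨hK, ?_, ?_, ?_, ?_⟩
  · intro a b ma mb
    refine ⟨fun hc => ?_, ce a b ma mb⟩
    by_cases ha : a ∈ A
    · refine ⟨fun _ => ?_, fun _ => ha⟩
      by_contra hb
      exact nc a b ma mb ha hb hc
    · refine ⟨fun h => absurd h ha, fun hb => ?_⟩
      exact absurd (W.c_symm K a b hK ma mb hc) (nc b a mb ma hb ha)
  · intro a v ma mv hE
    exact W.two_exch hT (W.toPW.conn_refl K) ma mv hE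
  · obtain ⟨y, _, my, hy⟩ := W.two_mem hT K ∅
    exact ⟨y, hy, my⟩
  · obtain ⟨y, _, my, hy⟩ := W.two_mem' hT K ∅
    exact ⟨y, hy, my⟩

end World

end Pool.Agent.Lib.MP_a572be_co
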