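import Pool.Agent.Lib.MP_a572be_co.MainDefs

/-!
# The label of a special element does not flip
-/

namespace Pool.Agent.Lib.MP_a572be_co

namespace PW

variable {r : ℕ} {Ω : Type} (X : PW r Ω)

/-- `K` is an edge containing the special element `s`, the visible `c`-classes of `K` are
`A ∩ K` and `K \ A`, exchanges of visible elements respect `A`, and `s` belongs to the class of `A`
if and only if `ε`. -/
def Lab (s : Ω) (A : Set Ω) (ε : Prop) (K : Tg Ω) : Prop :=
  X.E K ∧ X.m K s ∧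
  (∀ a b, a ≠ s → b ≠ s → X.m K a → X.m K b → (X.c K a b ↔ (a ∈ A ↔ b ∈ A))) ∧
  (∀ a v, a ≠ s → v ≠ s → X.m K a → ¬ X.m K v → X.E (K + t a + t v) → (a ∈ A ↔ v ∈ A)) ∧
  (∀ a, a ≠ s → X.m K a → (X.c K s a ↔ (a ∈ A ↔ ε)))

/-- The neighbours of `K - s` are on the side of `s`: let `v ≠ s` be a neighbour; by `vis` there is
`y ∈ K`, `y ≠ s` with `K - y + v` an edge, `y ∈ A ↔ v ∈ A`; by `c_swap`, `c K s y`. -/
theorem lab_nbr {s : Ω} (hP : X.P = {s}) {A : Set Ω} {ε : Prop} {K : Tg Ω}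
    (h : X.Lab s A ε K) {v : Ω} (hv : v ≠ s) (hE : X.E (K + t s + t v)) : v ∈ A ↔ ε := by
  obtain ⟨hK, ms, _, hB, hC⟩ := h
  have nv : ¬ X.m K v := by
    have := X.not_m_of_E (X.lev_S hK ms) hE
    rwa [X.m_ne K (Ne.symm hv)] at this
  have hvP : v ∉ X.P := by rw [hP]; simpa using hv
  obtain ⟨x, hxD, mx, hx⟩ := X.vis hK nv hvP {s}
  have hxs : x ≠ s := by simpa using hxD
  have h1 := X.c_swap K s x v hK ms mx nv hE hx
  have h2 := (hC x hxs mx).1 h1
  have h3 := hB x v hxs hv mx nv hx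
  rw [← h3, h2]

/-- (U4) Let `K ∋ y`, `y ≠ s`, and let `p ∉ K`, `p ≠ s`, be on the other side. Then `K - s` and
`K - s - y + p` have disjoint neighbourhoods.

Proof: suppose `v ≠ s` is a common neighbour; `v ∉ K`, `v ≠ p`, and `Kv = K - s + v` is an edge
containing `y`, and `Kv - y + p` is an edge. Apply `copy` to the family `{K, Kv}` at `p`
(`σ = False`) avoiding `s, v, y`: there is `p'` in both with `K - p' + p` and `Kv - p' + p` edges. By
`c_swap` at `Kv` (with `v := p`), `c Kv p' y`; by `c_move` (`K → Kv`), `c K p' y`, so `p' ∈ A ↔ y ∈ A`;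
but `p' ∈ A ↔ p ∈ A`. -/
theorem lab_U4 {s : Ω} (hP : X.P = {s}) {A : Set Ω} {ε : Prop} {K : Tg Ω} (h : X.Lab s A ε K)
    {y p : Ω} (hy : y ≠ s) (my : X.m K y) (hp : p ≠ s) (mp : ¬ X.m K p)
    (hyp : ¬ (y ∈ A ↔ p ∈ A)) : X.Dj (K + t s) (K + t s + t y + t p) := by
  classical
  obtain ⟨hK, ms, hA, hB, hC⟩ := h
  intro v hvP hv
  obtain ⟨h1, h2⟩ := hv
  have hvs : v ≠ s := by rw [hP] at hvP; simpa using hvP
  have l1 : X.lev (K + t s) = -1 := X.lev_S hK ms
  have nv : ¬ X.m K v := by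
    have := X.not_m_of_E l1 h1
    rwa [X.m_ne K (Ne.symm hvs)] at this
  have hyp' : p ≠ y := by rintro rfl; exact mp my
  have my' : X.m (K + t s) y := by rw [X.m_ne K (Ne.symm hy)]; exact my
  have mp' : ¬ X.m (K + t s + t y) p := by
    rw [X.m_ne _ (Ne.symm hyp'), X.m_ne _ (Ne.symm hp)]; exact mp
  have l2 : X.lev (K + t s + t y + t p) = -1 := by
    rw [X.lev_out mp', X.lev_in my', l1]; ring
  have hvp : v ≠ p := by
    rintro rfl
    exact X.not_m_of_E l2 h2 ((X.m_self _ _).2 mp')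
  have hvy : v ≠ y := by rintro rfl; exact nv my
  have mpv : ¬ X.m (K + t s + t v) p := by
    rw [X.m_ne _ hvp, X.m_ne _ (Ne.symm hp)]; exact mp
  have myv : X.m (K + t s + t v) y := by rw [X.m_ne _ hvy]; exact my'
  have hpP : p ∉ X.P := by rw [hP]; simpa using hp
  obtain ⟨q, hqD, hqp, _, hq⟩ := X.copy {K, K + t s + t v} False hpP (by
    intro L hL
    simp only [Finset.mem_insert, Finset.mem_singleton] at hL
    rcases hL with rfl | rfl
    · simpa using mp
    · simpa using mpv) {s, v, y}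
  simp only [Finset.mem_insert, Finset.mem_singleton, not_or] at hqD
  obtain ⟨hqs, hqv, hqy⟩ := hqD
  obtain ⟨q1, q2⟩ := hq K (by simp)
  obtain ⟨q3, q4⟩ := hq (K + t s + t v) (by simp)
  have mq : X.m K q := by simpa using q1
  have mqv : X.m (K + t s + t v) q := by simpa using q3
  have e1 : X.E (K + t q + t p) := by rw [tg_comm]; exact q2.1 hK
  have e2 : X.E (K + t s + t v + t q + t p) := by rw [tg_comm _ q p]; exact q4.1 h1
  have e3 : X.E (K + t s + t v + t y + t p) := by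
    have e : K + t s + t v + t y + t p = K + t s + t y + t p + t v := by abel
    rw [e]; exact h2
  have c1 := X.c_swap _ q y p h1 mqv myv mpv e2 e3
  have c2 := (X.c_move K s v q y hK ms nv h1 mq my hqs hy).2 c1
  have c3 := (hA q y hqs hy mq my).1 c2
  have c4 := hB q p hqs hp mq mp e1
  exact hyp (c3.symm.trans c4)

end PW

end Pool.Agent.Lib.MP_a572be_co
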