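import Pool.Agent.Lib.MP_a572be_co.MainDefs

/-!
# Extensions of a world by one special element
-/

namespace Pool.Agent.Lib.MP_a572be_co

variable {r : ℕ} {Ω : Type}

/-- The embedding of finite modifications of `Ω` into those of `Option Ω`. -/
noncomputable def emb (K : Tg Ω) : Tg (Option Ω) := Finsupp.embDomain Function.Embedding.some K

theorem emb_none (K : Tg Ω) : emb K none = 0 := by
  unfold emb
  rw [Finsupp.embDomain_of_notMem_range]
  simp

theorem emb_some (K : Tg Ω) (x : Ω) : emb K (some x) = K x := by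
  unfold emb
  exact Finsupp.embDomain_apply_self Function.Embedding.some K x

theorem emb_add (K L : Tg Ω) : emb (K + L) = emb K + emb L := by
  ext x
  cases x with
  | none => rw [Finsupp.add_apply, emb_none, emb_none, emb_none, add_zero]
  | some x => rw [Finsupp.add_apply, emb_some, emb_some, emb_some, Finsupp.add_apply]

theorem emb_t (x : Ω) : emb (t x) = t (some x) := by
  classical
  ext y
  cases y with
  | none => rw [emb_none, t_ne (by simp)]
  | some y =>
    rw [emb_some]
    by_cases h : x = y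
    · subst h; rw [t_self, t_self]
    · rw [t_ne h, t_ne (by simpa using h)]

theorem emb_add_t (K : Tg Ω) (x : Ω) : emb (K + t x) = emb K + t (some x) := by
  rw [emb_add, emb_t]

/-- `X` extends the pre-world `W` by one special element `none` (inside the reference set). -/
structure IsExt (W : PW r Ω) (X : PW r (Option Ω)) : Prop where
  P_eq : X.P = {none}
  none_I : none ∈ X.I
  some_I : ∀ x, some x ∈ X.I ↔ x ∈ W.I
  e0_eq : X.e0 = W.e0
  E_iff : ∀ K, X.E (emb K) ↔ W.E K
  c_iff : ∀ K a b, X.c (emb K) (some a) (some b) ↔ W.c K a b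
  ρ_eq : ∀ K a, X.ρ (emb K) (some a) = W.ρ K a

theorem m_emb {W : PW r Ω} {X : PW r (Option Ω)} (h : IsExt W X) (K : Tg Ω) (x : Ω) :
    X.m (emb K) (some x) ↔ W.m K x := by
  unfold PW.m mem
  rw [h.some_I, emb_some]

theorem m_emb_none {W : PW r Ω} {X : PW r (Option Ω)} (h : IsExt W X) (K : Tg Ω) :
    X.m (emb K) none := by
  unfold PW.m mem
  simp [h.none_I, emb_none]

theorem m_emb_minus {W : PW r Ω} {X : PW r (Option Ω)} (h : IsExt W X) (K : Tg Ω) (x : Ω) :
    X.m (emb K + t none) (some x) ↔ W.m K x := by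
  rw [X.m_ne _ (by simp), m_emb h]

theorem m_emb_minus_none {W : PW r Ω} {X : PW r (Option Ω)} (h : IsExt W X) (K : Tg Ω) :
    ¬ X.m (emb K + t none) none := by
  rw [X.m_self]
  simpa using m_emb_none h K

theorem cnt_emb {W : PW r Ω} {X : PW r (Option Ω)} (h : IsExt W X) (K : Tg Ω) :
    cnt X.I Set.univ (emb K) = cnt W.I Set.univ K := by
  classical
  unfold cnt emb
  rw [Finsupp.support_embDomain, Finset.sum_map]
  apply Finset.sum_congr rfl
  intro x _
  have := h.some_I x
  simp only [Set.mem_univ, if_true, Function.Embedding.some_apply, this]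

theorem lev_emb {W : PW r Ω} {X : PW r (Option Ω)} (h : IsExt W X) (K : Tg Ω) :
    X.lev (emb K) = W.lev K := by
  unfold PW.lev
  rw [h.e0_eq, cnt_emb h]

theorem lev_emb_minus {W : PW r Ω} {X : PW r (Option Ω)} (h : IsExt W X) (K : Tg Ω) :
    X.lev (emb K + t none) = W.lev K - 1 := by
  rw [X.lev_in (m_emb_none h K), lev_emb h]

/-- Adding an element commutes with the passage to the sets without the special element. -/
theorem ext_add (K : Tg Ω) (x : Ω) : emb (K + t x) + t none = emb K + t none + t (some x) := by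
  rw [emb_add_t, tg_comm]

theorem ext_add' (K L : Tg Ω) : emb (K + L) + t none = emb K + t none + emb L := by
  rw [emb_add]; abel

theorem ext_supp [DecidableEq (Option Ω)] (K : Tg Ω) (D : Finset Ω) (hK : K.support ⊆ D) :
    (emb K).support ⊆ insert none (D.map Function.Embedding.some) := by
  intro x hx
  cases x with
  | none => simp
  | some x =>
    rw [Finsupp.mem_support_iff, emb_some] at hx
    have : x ∈ D := hK (by rwa [Finsupp.mem_support_iff])
    simp [this]

theorem ext_supp' [DecidableEq (Option Ω)] (K : Tg Ω) (D : Finset Ω) (hK : K.support ⊆ D) :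
    (emb K + t none).support ⊆ insert none (D.map Function.Embedding.some) := by
  intro x hx
  cases x with
  | none => simp
  | some x =>
    rw [Finsupp.mem_support_iff, Finsupp.add_apply, emb_some, t_ne (by simp), add_zero] at hx
    have : x ∈ D := hK (by rwa [Finsupp.mem_support_iff])
    simp [this]

theorem ext_lev {W : PW r Ω} {X : PW r (Option Ω)} (h : IsExt W X) (K : Tg Ω) {c : ℤ}
    (hK : W.e0 - 1 + cnt W.I Set.univ K = c) :
    X.e0 + cnt X.I Set.univ (emb K + t none) = c := by
  have h1 := lev_emb_minus h K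
  unfold PW.lev at h1
  rw [h1, ← hK]; ring

theorem ext_out {W : PW r Ω} {X : PW r (Option Ω)} (h : IsExt W X) {v : Option Ω}
    (hv : v ∉ X.I) : ∃ v', v = some v' ∧ v' ∉ W.I := by
  cases v with
  | none => exact absurd h.none_I hv
  | some v' => exact ⟨v', rfl, fun hh => hv ((h.some_I v').2 hh)⟩

theorem ext_ne {x y : Ω} (hxy : x ≠ y) : some x ≠ some y := fun hh => hxy (Option.some.inj hh)

/-- **The world of the sets without the special element.** The fields are the translations of those
of `X` (use `emb_add_t`, `m_emb_minus`, `lev_emb_minus`; every `v ∉ X.I` is `some v'` as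
`none ∈ X.I`; for `axFC` use `X.axFC` with `emb X' + t none` and `insert none (D.map some)`). -/
theorem exists_minus {W : PW r Ω} {X : PW r (Option Ω)} (h : IsExt W X) :
    ∃ V : PW r Ω, V.I = W.I ∧ V.P = ∅ ∧ V.e0 = W.e0 - 1 ∧
      (∀ K, V.E K ↔ X.E (emb K + t none)) ∧
      (∀ K a b, V.c K a b ↔ X.c (emb K + t none) (some a) (some b)) ∧
      (∀ K a, V.ρ K a = X.ρ (emb K + t none) (some a)) := by
  classical
  have hm : ∀ K x, mem X.I (emb K + t none) (some x) ↔ mem W.I K x := fun K x =>
    m_emb_minus h K x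
  refine ⟨{
    I := W.I
    P := ∅
    e0 := W.e0 - 1
    E := fun K => X.E (emb K + t none)
    c := fun K a b => X.c (emb K + t none) (some a) (some b)
    ρ := fun K a => X.ρ (emb K + t none) (some a)
    infI := W.infI
    infO := W.infO
    P_sub := Set.empty_subset _
    lev_eq := ?_
    axN := ?_
    ax4 := ?_
    ax3 := ?_
    axFC := ?_
    c_refl := ?_
    c_symm := ?_
    c_trans := ?_
    c_swap := ?_
    c_move := ?_
    c_move' := ?_
    ρ_c := ?_
    ρ_move := ?_
    ρ_move' := ?_ }, rfl, rfl, rfl, fun _ => Iff.rfl, fun _ _ _ => Iff.rfl, fun _ _ => rfl⟩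
  · intro K hK
    have h1 := X.lev_E hK
    rw [lev_emb_minus h] at h1
    unfold PW.lev at h1
    rw [← h1]; ring
  · intro S hS D
    obtain ⟨v, hvD, hvI, hE⟩ := X.axN (emb S + t none) (ext_lev h S hS)
      (D.map Function.Embedding.some)
    obtain ⟨v', rfl, hv'⟩ := ext_out h hvI
    refine ⟨v', fun hh => hvD (by simp [hh]), hv', ?_⟩
    rw [ext_add]; exact hE
  · intro S hS D
    obtain ⟨a, b, hab, v, hvD, hvI, h1, h2⟩ := X.ax4 (fun a => emb (S a) + t none)
      (fun a => ext_lev h (S a) (hS a)) (D.map Function.Embedding.some)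
    obtain ⟨v', rfl, hv'⟩ := ext_out h hvI
    refine ⟨a, b, hab, v', fun hh => hvD (by simp [hh]), hv', ?_, ?_⟩
    · rw [ext_add]; exact h1
    · rw [ext_add]; exact h2
  · intro S hS D hD hdj v hvD hvI
    obtain ⟨a, ha⟩ := X.ax3 (fun a => emb (S a) + t none) (fun a => ext_lev h (S a) (hS a))
      (insert none (D.map Function.Embedding.some)) (fun a => ext_supp' (S a) D (hD a)) (by
        intro a b hab u huD huI hu
        obtain ⟨u', rfl, hu'⟩ := ext_out h huI
        refine hdj a b hab u' (fun hh => huD (by simp [hh])) hu' ⟨?_, ?_⟩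
        · rw [ext_add]; exact hu.1
        · rw [ext_add]; exact hu.2) (some v) (by simpa using hvD)
        (fun hh => hvI ((h.some_I v).1 hh))
    refine ⟨a, ?_⟩
    rw [ext_add]; exact ha
  · intro Y D b hb _
    obtain ⟨b', hb'D, hb'b, hmb, hZ⟩ := X.axFC (emb Y + t none)
      (insert none (D.map Function.Embedding.some)) (some b) (by simpa using hb)
      (by rw [h.P_eq]; simp)
    cases b' with
    | none => exact absurd (Finset.mem_insert_self _ _) hb'D
    | some b' =>
      refine ⟨b', fun hh => hb'D (by simp [hh]), fun hh => hb'b (by rw [hh]), ?_, ?_⟩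
      · rw [hm, hm] at hmb; exact hmb
      · intro Z hZD
        rw [ext_add, ext_add, ext_add']
        exact hZ (emb Z) (ext_supp Z D hZD)
  · intro K x hE hx
    exact X.c_refl _ _ hE ((hm K x).2 hx)
  · intro K x y hE hx hy hc
    exact X.c_symm _ _ _ hE ((hm K x).2 hx) ((hm K y).2 hy) hc
  · intro K x y z hE hx hy hz hc hc'
    exact X.c_trans _ _ _ _ hE ((hm K x).2 hx) ((hm K y).2 hy) ((hm K z).2 hz) hc hc'
  · intro K x y v hE hx hy hv h1 h2
    rw [ext_add, ext_add] at h1 h2
    exact X.c_swap _ _ _ (some v) hE ((hm K x).2 hx) ((hm K y).2 hy)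
      (fun hh => hv ((hm K v).1 hh)) h1 h2
  · intro K x v a b hE hx hv h1 ha hb hax hbx
    rw [ext_add, ext_add] at h1 ⊢
    exact X.c_move _ _ (some v) _ _ hE ((hm K x).2 hx) (fun hh => hv ((hm K v).1 hh)) h1
      ((hm K a).2 ha) ((hm K b).2 hb) (ext_ne hax) (ext_ne hbx)
  · intro K x v a hE hx hv h1 ha hax
    rw [ext_add, ext_add] at h1 ⊢
    exact X.c_move' _ _ (some v) _ hE ((hm K x).2 hx) (fun hh => hv ((hm K v).1 hh)) h1
      ((hm K a).2 ha) (ext_ne hax)
  · intro K x y hE hx hy hc
    exact X.ρ_c _ _ _ hE ((hm K x).2 hx) ((hm K y).2 hy) hc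
  · intro K x v a hE hx hv h1 ha hax
    rw [ext_add, ext_add] at h1 ⊢
    exact X.ρ_move _ _ (some v) _ hE ((hm K x).2 hx) (fun hh => hv ((hm K v).1 hh)) h1
      ((hm K a).2 ha) (ext_ne hax)
  · intro K x v hE hx hv h1
    rw [ext_add, ext_add] at h1 ⊢
    exact X.ρ_move' _ _ (some v) hE ((hm K x).2 hx) (fun hh => hv ((hm K v).1 hh)) h1

end Pool.Agent.Lib.MP_a572be_co
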