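import Pool.Agent.Lib.MP_a572be_co.Ext

/-!
# The base world of a world with one special element
-/

namespace Pool.Agent.Lib.MP_a572be_co

variable {r : ℕ} {Ω : Type}

/-- The part of a set of `Option Ω` inside `Ω`. -/
def exI (I : Set (Option Ω)) : Set Ω := {x | some x ∈ I}

theorem exI_inf {I : Set (Option Ω)} (h : I.Infinite) : (exI I).Infinite := by
  intro hf
  apply h
  refine ((hf.image some).insert none).subset ?_
  intro x hx
  cases x with
  | none => exact Set.mem_insert _ _
  | some x => exact Set.mem_insert_of_mem _ ⟨x, hx, rfl⟩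

theorem exI_infO {I : Set (Option Ω)} (h : Iᶜ.Infinite) : (exI I)ᶜ.Infinite := by
  intro hf
  apply h
  refine ((hf.image some).insert none).subset ?_
  intro x hx
  cases x with
  | none => exact Set.mem_insert _ _
  | some x => exact Set.mem_insert_of_mem _ ⟨x, hx, rfl⟩

theorem exI_cnt {I : Set (Option Ω)} (K : Tg Ω) :
    cnt I Set.univ (emb K) = cnt (exI I) Set.univ K := by
  classical
  unfold cnt emb
  rw [Finsupp.support_embDomain, Finset.sum_map]
  apply Finset.sum_congr rfl
  intro x _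
  have h : x ∈ exI I ↔ some x ∈ I := Iff.rfl
  simp only [Set.mem_univ, if_true, Function.Embedding.some_apply, h]

theorem exI_mem {I : Set (Option Ω)} (K : Tg Ω) (x : Ω) :
    mem I (emb K) (some x) ↔ mem (exI I) K x := by
  have h : x ∈ exI I ↔ some x ∈ I := Iff.rfl
  unfold mem
  rw [emb_some, h]

theorem exI_out {I : Set (Option Ω)} (hI : none ∈ I) {v : Option Ω}
    (hv : v ∉ I) : ∃ v', v = some v' ∧ v' ∉ exI I := by
  cases v with
  | none => exact absurd hI hv
  | some v' => exact ⟨v', rfl, hv⟩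

/-- **The world of the sets containing the special element.** The fields are the translations of
those of `X` (`emb_add_t`; every `v ∉ X.I` is `some v'` as `none ∈ X.I`; for `axFC` use `X.axFC` with
`emb X'` and `insert none (D.map some)`). See `exists_minus` in `Ext.lean` for the analogous
construction. -/
theorem exists_plus (X : PW r (Option Ω)) (hP : X.P = {none}) (hI : none ∈ X.I) :
    ∃ W : PW r Ω, W.P = ∅ ∧ IsExt W X := by
  classical
  have hm : ∀ K x, mem X.I (emb K) (some x) ↔ mem (exI X.I) K x := fun K x => exI_mem K x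
  have hl : ∀ {K : Tg Ω} {c : ℤ}, X.e0 + cnt (exI X.I) Set.univ K = c →
      X.e0 + cnt X.I Set.univ (emb K) = c := by
    intro K c hK
    rw [exI_cnt]; exact hK
  refine ⟨{
    I := exI X.I
    P := ∅
    e0 := X.e0
    E := fun K => X.E (emb K)
    c := fun K a b => X.c (emb K) (some a) (some b)
    ρ := fun K a => X.ρ (emb K) (some a)
    infI := exI_inf X.infI
    infO := exI_infO X.infO
    P_sub := Set.empty_subset _
    lev_eq := ?_
    axN := ?_
    ax4 := ?_
    ax3 := ?_
    axFC := ?_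
    c_refl := ?_
    c_symm := ?_
    c_trans := ?_
    c_swap := ?_
    c_move := ?_
    c_move' := ?_
    ρ_c := ?_
    ρ_move := ?_
    ρ_move' := ?_ }, rfl, hP, hI, fun _ => Iff.rfl, rfl, fun _ => Iff.rfl,
      fun _ _ _ => Iff.rfl, fun _ _ => rfl⟩
  · intro K hK
    have h1 := X.lev_eq _ hK
    rw [exI_cnt] at h1
    exact h1
  · intro S hS D
    obtain ⟨v, hvD, hvI, hE⟩ := X.axN (emb S) (hl hS) (D.map Function.Embedding.some)
    obtain ⟨v', rfl, hv'⟩ := exI_out hI hvI
    refine ⟨v', fun hh => hvD (by simp [hh]), hv', ?_⟩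
    rw [emb_add_t]; exact hE
  · intro S hS D
    obtain ⟨a, b, hab, v, hvD, hvI, h1, h2⟩ := X.ax4 (fun a => emb (S a))
      (fun a => hl (hS a)) (D.map Function.Embedding.some)
    obtain ⟨v', rfl, hv'⟩ := exI_out hI hvI
    refine ⟨a, b, hab, v', fun hh => hvD (by simp [hh]), hv', ?_, ?_⟩
    · rw [emb_add_t]; exact h1
    · rw [emb_add_t]; exact h2
  · intro S hS D hD hdj v hvD hvI
    obtain ⟨a, ha⟩ := X.ax3 (fun a => emb (S a)) (fun a => hl (hS a))
      (insert none (D.map Function.Embedding.some)) (fun a => ext_supp (S a) D (hD a)) (by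
        intro a b hab u huD huI hu
        obtain ⟨u', rfl, hu'⟩ := exI_out hI huI
        refine hdj a b hab u' (fun hh => huD (by simp [hh])) hu' ⟨?_, ?_⟩
        · rw [emb_add_t]; exact hu.1
        · rw [emb_add_t]; exact hu.2) (some v) (by simpa using hvD)
        (fun hh => hvI hh)
    refine ⟨a, ?_⟩
    rw [emb_add_t]; exact ha
  · intro Y D b hb _
    obtain ⟨b', hb'D, hb'b, hmb, hZ⟩ := X.axFC (emb Y)
      (insert none (D.map Function.Embedding.some)) (some b) (by simpa using hb)
      (by rw [hP]; simp)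
    cases b' with
    | none => exact absurd (Finset.mem_insert_self _ _) hb'D
    | some b' =>
      refine ⟨b', fun hh => hb'D (by simp [hh]), fun hh => hb'b (by rw [hh]), ?_, ?_⟩
      · rw [hm, hm] at hmb; exact hmb
      · intro Z hZD
        rw [emb_add_t, emb_add_t, emb_add]
        exact hZ (emb Z) (ext_supp Z D hZD)
  · intro K x hE hx
    exact X.c_refl _ _ hE ((hm K x).2 hx)
  · intro K x y hE hx hy hc
    exact X.c_symm _ _ _ hE ((hm K x).2 hx) ((hm K y).2 hy) hc
  · intro K x y z hE hx hy hz hc hc'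
    exact X.c_trans _ _ _ _ hE ((hm K x).2 hx) ((hm K y).2 hy) ((hm K z).2 hz) hc hc'
  · intro K x y v hE hx hy hv h1 h2
    rw [emb_add_t, emb_add_t] at h1 h2
    exact X.c_swap _ _ _ (some v) hE ((hm K x).2 hx) ((hm K y).2 hy)
      (fun hh => hv ((hm K v).1 hh)) h1 h2
  · intro K x v a b hE hx hv h1 ha hb hax hbx
    rw [emb_add_t, emb_add_t] at h1 ⊢
    exact X.c_move _ _ (some v) _ _ hE ((hm K x).2 hx) (fun hh => hv ((hm K v).1 hh)) h1
      ((hm K a).2 ha) ((hm K b).2 hb) (ext_ne hax) (ext_ne hbx)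
  · intro K x v a hE hx hv h1 ha hax
    rw [emb_add_t, emb_add_t] at h1 ⊢
    exact X.c_move' _ _ (some v) _ hE ((hm K x).2 hx) (fun hh => hv ((hm K v).1 hh)) h1
      ((hm K a).2 ha) (ext_ne hax)
  · intro K x y hE hx hy hc
    exact X.ρ_c _ _ _ hE ((hm K x).2 hx) ((hm K y).2 hy) hc
  · intro K x v a hE hx hv h1 ha hax
    rw [emb_add_t, emb_add_t] at h1 ⊢
    exact X.ρ_move _ _ (some v) _ hE ((hm K x).2 hx) (fun hh => hv ((hm K v).1 hh)) h1
      ((hm K a).2 ha) (ext_ne hax)
  · intro K x v hE hx hv h1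
    rw [emb_add_t, emb_add_t] at h1 ⊢
    exact X.ρ_move' _ _ (some v) hE ((hm K x).2 hx) (fun hh => hv ((hm K v).1 hh)) h1

end Pool.Agent.Lib.MP_a572be_co
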