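import Pool.Agent.Lib.MP_a572be_co.LimDefs

/-!
# Final assembly, part A
-/

namespace Pool.Agent.Lib.MP_a572be_co

variable {r : ℕ} {Ω : Type}

/-- The special element of an extension is `c`-related to some element of the base world. -/
theorem fina_none {W : PW r Ω} {X : PW r (Option Ω)} (hX : IsExt W X) {K : Tg Ω}
    (hK : W.E K) : ∃ y, W.m K y ∧ X.c (emb K) none (some y) := by
  have hlev : X.lev (emb K + t none) = -1 := by
    rw [lev_emb_minus hX, W.lev_E hK]; ring
  obtain ⟨v, _, hvI, hE⟩ := X.axN (emb K + t none) hlev ∅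
  cases v with
  | none => exact absurd hX.none_I hvI
  | some v =>
    have hEK : X.E (emb K) := (hX.E_iff K).2 hK
    have hv : ¬ X.m (emb K) (some v) := by
      have h1 := X.not_m_of_E hlev hE
      rwa [X.m_ne _ (by simp)] at h1
    obtain ⟨x, hxD, hx, hEx⟩ := X.vis hEK hv (by rw [hX.P_eq]; simp) {none}
    cases x with
    | none => exact absurd (Finset.mem_singleton_self _) hxD
    | some y =>
      refine ⟨y, (m_emb hX K y).1 hx, ?_⟩
      exact X.c_swap _ _ _ _ hEK (m_emb_none hX K) hx hv hE hEx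

/-- Every edge of the limit world has at least two visible classes. Suppose `c K x y` for all
`y ∈ K`. Apply `tri` to the formula with `m = q = 1`, `K 0 = K`, `u 0 0 = x`. (i) `Emp`: `size` with
`lab = 0` gives `s 0 + cnt = 0`, `ρ K x = s 0 + cnt = 0` and `¬ ρ K x = 0`. (ii) excluded. (iii) there is
an extension `X` with `¬ X.c (emb K) none (some x)`. `emb K + t none` has a neighbour `some v`,
`v ∉ I` (`axN`), by `vis` (avoiding `none`) there is `y ∈ K` with `K - y + v` an edge; by `c_swap`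
`X.c (emb K) none (some y)`, and `c K y x`: contradiction by transitivity. -/
theorem lim_two (L : LimitData r Ω) : ∀ K x, L.W.E K → mem L.W.I K x →
    ∃ y, mem L.W.I K y ∧ ¬ L.W.c K x y := by
  classical
  intro K x hE hx
  by_contra hcon
  push Not at hcon
  have hsym : ∀ y, mem L.W.I K y → L.W.c K y x := fun y hy =>
    L.W.c_symm K x y hE hx hy (hcon y hy)
  rcases L.tri ⟨1, 1, fun _ => K, fun _ _ => x⟩ (fun _ => hE) (fun _ _ => hx) with h | h | h
  · obtain ⟨s, h1, h2, h3⟩ := L.size ⟨1, 1, fun _ => K, fun _ _ => x⟩ (fun _ => hE)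
      (fun _ _ => hx) h (fun _ => 0) (fun _ e he => hsym e he)
    apply h3 0
    intro a
    have e1 := h1 0
    have e2 := h2 0 a
    have hcx : L.W.c K x x := hcon x hx
    simp only [hcx, if_true] at e2
    rw [e2]; exact e1
  · obtain ⟨x', hx', hn⟩ := h
    exact hn ⟨0, fun _ => hsym x' (hx' 0)⟩
  · obtain ⟨X, hX, hn⟩ := h
    obtain ⟨y, hy, hc⟩ := fina_none hX hE
    refine hn ⟨0, fun _ => ?_⟩
    exact X.c_trans _ _ _ _ ((hX.E_iff K).2 hE) (m_emb_none hX K) ((m_emb hX K y).2 hy)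
      ((m_emb hX K x).2 hx) hc ((hX.c_iff K y x).2 (hsym y hy))

/-- The limit world. -/
def LimitData.world (L : LimitData r Ω) : World r Ω :=
  { L.W with
    P_empty := L.hP
    two := lim_two L }

/-- **Sizes at two two-class edges.** Choose `b ∈ K1 \ A`, `b' ∈ K2 \ A` and apply `tri` to
`φ = ⟨2, 2, ![K1, K2], ![![a, b], ![a', b']]⟩`. The second alternative is excluded by the classes, the
third by `hex` (`xlab_exists`). So `Emp φ`; apply `size` with `lab e = if e ∈ A then 0 else 1`: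
`ρ K1 a = s 0 + cnt A K1`, `ρ K2 a' = s 0 + cnt A K2`, `ρ K1 b = s 1 + cnt Aᶜ K1` and
`ρ K1 a + ρ K1 b = 0`, so if `ρ K1 a = 0` both are `0`, excluded. -/
theorem flip_size (L : LimitData r Ω) {K1 K2 : Tg Ω} {A : Set Ω} (h1 : L.W.CTwo K1 A)
    (h2 : L.W.CTwo K2 A)
    (hex : ∀ X : PW r (Option Ω), IsExt L.W X → ∀ ε1 ε2 : Prop, L.W.XLab X K1 A ε1 →
      L.W.XLab X K2 A ε2 → (ε1 ↔ ε2))
    {a a' : Ω} (ha : a ∈ A) (ma : L.W.m K1 a) (ha' : a' ∈ A) (ma' : L.W.m K2 a') :
    L.W.ρ K1 a - L.W.ρ K2 a' = ((cnt L.W.I A K1 - cnt L.W.I A K2 : ℤ) : ZMod r) ∧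
      L.W.ρ K1 a ≠ 0 := by
  classical
  have h1' := h1
  have h2' := h2
  obtain ⟨hE1, hc1, -, -, b, hb, mb⟩ := h1'
  obtain ⟨hE2, hc2, -, -, b', hb', mb'⟩ := h2'
  set φ : Fml Ω := ⟨2, 2, ![K1, K2], ![![a, b], ![a', b']]⟩ with hφ
  have hE : ∀ t, L.W.E (φ.K t) := by
    intro t; fin_cases t
    · exact hE1
    · exact hE2
  have hm : ∀ t c, L.W.m (φ.K t) (φ.u t c) := by
    intro t c; fin_cases t <;> fin_cases c
    · exact ma
    · exact mb
    · exact ma'
    · exact mb'
  rcases L.tri φ hE hm with h | h | h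
  · obtain ⟨s, e1, e2, e3⟩ := L.size φ hE hm h (fun e => if e ∈ A then 0 else 1) (by
      intro t e he
      by_cases heA : e ∈ A
      · simp only [heA, if_true]
        fin_cases t
        · exact (hc1 e a he ma).2 (by simp [heA, ha])
        · exact (hc2 e a' he ma').2 (by simp [heA, ha'])
      · simp only [heA, if_false]
        fin_cases t
        · exact (hc1 e b he mb).2 (by simp [heA, hb])
        · exact (hc2 e b' he mb').2 (by simp [heA, hb']))
    have s0 : {e | (if e ∈ A then (0 : Fin 2) else 1) = 0} = A := by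
      ext e; by_cases heA : e ∈ A <;> simp [heA]
    have s1 : {e | (if e ∈ A then (0 : Fin 2) else 1) = 1} = Aᶜ := by
      ext e; by_cases heA : e ∈ A <;> simp [heA]
    have c1 : L.W.c K1 a a := (hc1 a a ma ma).2 Iff.rfl
    have c2 : ¬ L.W.c K1 a b := fun hh => hb (((hc1 a b ma mb).1 hh).1 ha)
    have c3 : L.W.c K2 a' a' := (hc2 a' a' ma' ma').2 Iff.rfl
    have c4 : ¬ L.W.c K2 a' b' := fun hh => hb' (((hc2 a' b' ma' mb').1 hh).1 ha')
    have c5 : ¬ L.W.c K1 b a := fun hh => hb (((hc1 b a mb ma).1 hh).2 ha)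
    have c6 : L.W.c K1 b b := (hc1 b b mb mb).2 Iff.rfl
    have f1 : (s 0 + ((cnt L.W.I A K1 : ℤ) : ZMod r)) + (s 1 + ((cnt L.W.I Aᶜ K1 : ℤ) : ZMod r)) = 0 := by
      have := e1 0
      rw [Fin.sum_univ_two] at this
      rw [s0, s1] at this
      exact this
    have f2 : L.W.ρ K1 a = s 0 + ((cnt L.W.I A K1 : ℤ) : ZMod r) := by
      have := e2 0 0
      rw [Fin.sum_univ_two] at this
      rw [s0, s1] at this
      change L.W.ρ K1 a = (if L.W.c K1 a a then (s 0 + ((cnt L.W.I A K1 : ℤ) : ZMod r)) else 0) +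
        (if L.W.c K1 a b then _ else 0) at this
      rw [if_pos c1, if_neg c2, add_zero] at this
      exact this
    have f3 : L.W.ρ K2 a' = s 0 + ((cnt L.W.I A K2 : ℤ) : ZMod r) := by
      have := e2 1 0
      rw [Fin.sum_univ_two] at this
      rw [s0, s1] at this
      change L.W.ρ K2 a' = (if L.W.c K2 a' a' then (s 0 + ((cnt L.W.I A K2 : ℤ) : ZMod r)) else 0) +
        (if L.W.c K2 a' b' then _ else 0) at this
      rw [if_pos c3, if_neg c4, add_zero] at this
      exact this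
    have f4 : L.W.ρ K1 b = s 1 + ((cnt L.W.I Aᶜ K1 : ℤ) : ZMod r) := by
      have := e2 0 1
      rw [Fin.sum_univ_two] at this
      rw [s0, s1] at this
      change L.W.ρ K1 b = (if L.W.c K1 b a then _ else 0) +
        (if L.W.c K1 b b then (s 1 + ((cnt L.W.I Aᶜ K1 : ℤ) : ZMod r)) else 0) at this
      rw [if_neg c5, if_pos c6, zero_add] at this
      exact this
    refine ⟨?_, ?_⟩
    · rw [f2, f3]; push_cast; ring
    · intro h0
      apply e3 0
      intro c
      fin_cases c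
      · exact h0
      · change L.W.ρ K1 b = 0
        rw [← f2, h0, ← f4, zero_add] at f1
        exact f1
  · exfalso
    obtain ⟨x, hx, hn⟩ := h
    have hx1 : L.W.m K1 x := hx 0
    have hx2 : L.W.m K2 x := hx 1
    by_cases hxA : x ∈ A
    · refine hn ⟨(0 : Fin 2), fun t => ?_⟩
      fin_cases t
      · exact (hc1 x a hx1 ma).2 (by simp [hxA, ha])
      · exact (hc2 x a' hx2 ma').2 (by simp [hxA, ha'])
    · refine hn ⟨(1 : Fin 2), fun t => ?_⟩
      fin_cases t
      · exact (hc1 x b hx1 mb).2 (by simp [hxA, hb])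
      · exact (hc2 x b' hx2 mb').2 (by simp [hxA, hb'])
  · exfalso
    obtain ⟨X, hX, hn⟩ := h
    obtain ⟨ε1, l1⟩ := L.W.xlab_exists hX h1
    obtain ⟨ε2, l2⟩ := L.W.xlab_exists hX h2
    have hee := hex X hX ε1 ε2 l1 l2
    by_cases hε : ε1
    · refine hn ⟨(0 : Fin 2), fun t => ?_⟩
      fin_cases t
      · exact (l1 a ma).2 (by simp [hε, ha])
      · exact (l2 a' ma').2 (by simp [← hee, hε, ha'])
    · refine hn ⟨(1 : Fin 2), fun t => ?_⟩
      fin_cases t
      · exact (l1 b mb).2 (by simp [hε, hb])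
      · exact (l2 b' mb').2 (by simp [← hee, hε, hb'])

end Pool.Agent.Lib.MP_a572be_co
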