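import Pool.Agent.Lib.MP_a572be_co.LimDefs

/-!
# Final assembly, part B: the chain
-/

namespace Pool.Agent.Lib.MP_a572be_co

variable {r : ℕ} {Ω : Type}

/-- one exchange does not change the value of the class `A` -/
theorem finb_exch (W : World r Ω) {A : Set Ω} {K : Tg Ω} (hT : W.Two K A) {x v : Ω}
    (hx : W.m K x) (hv : ¬ W.m K v) (hE : W.E (K + t x + t v)) {c : ZMod r}
    (hc : ∀ a, a ∈ A → W.m K a → W.ρ K a = c) :
    ∀ a, a ∈ A → W.m (K + t x + t v) a → W.ρ (K + t x + t v) a = c := by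
  have hconn : W.Conn K (K + t x + t v) :=
    Relation.ReflTransGen.single ⟨hT.1, hE, x, v, hx, hv, rfl⟩
  have hT' := W.two_conn hT hconn
  obtain ⟨b, hbx, hbm, hbA⟩ := W.two_mem hT K {x}
  have hbx' : b ≠ x := by simpa using hbx
  have hbv : b ≠ v := by rintro rfl; exact hv hbm
  have hbm' : W.m (K + t x + t v) b := by
    rw [W.toPW.m_ne _ (Ne.symm hbv), W.toPW.m_ne _ (Ne.symm hbx')]
    exact hbm
  have h1 : W.ρ (K + t x + t v) b = c := by
    rw [W.ρ_move K x v b hT.1 hx hv hE hbm hbx']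
    exact hc b hbA hbm
  intro a haA ham
  rw [← h1]
  exact W.ρ_c _ _ _ hE ham hbm' (((W.ctwo_of_two hT').2.1 a b ham hbm').2 (by simp [haA, hbA]))

theorem finb_conn (W : World r Ω) {A : Set Ω} {K K' : Tg Ω} (hT : W.Two K A)
    (hK : W.Conn K K') {c : ZMod r} (hc : ∀ a, a ∈ A → W.m K a → W.ρ K a = c) :
    ∀ a, a ∈ A → W.m K' a → W.ρ K' a = c := by
  induction hK with
  | refl => exact hc
  | tail h1 h2 ih =>
    obtain ⟨_, hE, x, v, hx, hv, rfl⟩ := h2
    exact finb_exch W (W.two_conn hT h1) hx hv hE ih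

theorem finb_two (hr : 0 < r) (h2 : ¬ 2 ∣ r) (x : ZMod r) : ∃ n : ℕ, x - 2 * (n : ZMod r) = 0 := by
  have : NeZero r := ⟨hr.ne'⟩
  obtain ⟨k, hk⟩ : ∃ k, r + 1 = 2 * k := ⟨(r + 1) / 2, by omega⟩
  refine ⟨k * x.val, ?_⟩
  have h3 : (2 : ZMod r) * ((k : ℕ) : ZMod r) = 1 := by
    have h4 : ((2 * k : ℕ) : ZMod r) = 1 := by
      rw [← hk]; push_cast; simp
    rw [← h4]; push_cast; ring
  push_cast
  rw [← mul_assoc, h3, one_mul, ZMod.natCast_zmod_val, sub_self]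

/-- **The chain.** For a two-class component with classes `A`, `Aᶜ` the value `ρ K a`, `a ∈ A ∩ K`,
does not depend on `a` (`ctwo_of_two`, `ρ_c`) nor on the edge `K` of the component (`ρ_move`,
`ρ_move'`). By `main` and `hstep`, given such a component with value `x` there is another one (same
`A`) with value `x - 2`, and `x ≠ 0`. As `r` is odd some multiple of `2` equals the value of the
first component in `ZMod r`: contradiction. -/
theorem chain_false (W : World r Ω) (hr : 0 < r) (h2 : ¬ 2 ∣ r) {A : Set Ω} (hP : W.P1 Aᶜ)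
    (hstep : ∀ M i l z w, i ∈ A → l ∈ A → i ≠ l → ¬ W.m M i → ¬ W.m M l → z ∉ A → w ∉ A → z ≠ w →
      ¬ W.m M z → ¬ W.m M w → W.JumpAt M A (M + t i + t l) (M + t z + t w) →
      ∀ a a', a ∈ A → W.m (M + t i + t l) a → a' ∈ A → W.m (M + t z + t w) a' →
      W.ρ (M + t i + t l) a = W.ρ (M + t z + t w) a' + 2 ∧ W.ρ (M + t i + t l) a ≠ 0)
    {K : Tg Ω} (hT : W.Two K A) : False := by
  have step : ∀ (x : ZMod r), (∃ K, W.Two K A ∧ ∀ a, a ∈ A → W.m K a → W.ρ K a = x) →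
      x ≠ 0 ∧ ∃ K, W.Two K A ∧ ∀ a, a ∈ A → W.m K a → W.ρ K a = x - 2 := by
    rintro x ⟨K, hT, hx⟩
    obtain ⟨M, i, l, z, w, hi, hl, hil, mi, ml, hz, hw, hzw, mz, mw, hc, hJ⟩ := W.main hT hP
    have h3 := finb_conn W hT hc hx
    have h4 := hstep M i l z w hi hl hil mi ml hz hw hzw mz mw hJ
    obtain ⟨a, _, ham, haA⟩ := W.two_mem hJ.two1 (M + t i + t l) ∅
    obtain ⟨a', _, ham', haA'⟩ := W.two_mem hJ.two2 (M + t z + t w) ∅
    have h5 := h3 a haA ham
    refine ⟨?_, M + t z + t w, hJ.two2, ?_⟩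
    · rw [← h5]; exact (h4 a a' haA ham haA' ham').2
    · intro b hb hbm
      have h6 := (h4 a b haA ham hb hbm).1
      rw [h5] at h6
      rw [h6]; ring
  obtain ⟨b, _, hbm, hbA⟩ := W.two_mem hT K ∅
  have h0 : ∃ K', W.Two K' A ∧ ∀ a, a ∈ A → W.m K' a → W.ρ K' a = W.ρ K b :=
    ⟨K, hT, fun a haA ham => W.ρ_c _ _ _ hT.1 ham hbm
      (((W.ctwo_of_two hT).2.1 a b ham hbm).2 (by simp [haA, hbA]))⟩
  have hn : ∀ n : ℕ, ∃ K', W.Two K' A ∧ ∀ a, a ∈ A → W.m K' a →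
      W.ρ K' a = W.ρ K b - 2 * (n : ZMod r) := by
    intro n
    induction n with
    | zero => simpa using h0
    | succ n ih =>
      have := (step _ ih).2
      have e : W.ρ K b - 2 * ((n + 1 : ℕ) : ZMod r) = W.ρ K b - 2 * (n : ZMod r) - 2 := by
        push_cast; ring
      rw [e]; exact this
  obtain ⟨n, hn0⟩ := finb_two hr h2 (W.ρ K b)
  exact (step _ (hn n)).1 hn0

end Pool.Agent.Lib.MP_a572be_co
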