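import Pool.Agent.Lib.MP_a572be_co.FinA
import Pool.Agent.Lib.MP_a572be_co.FinB

/-!
# Final assembly, part C: the limit world has no two-class component
-/

namespace Pool.Agent.Lib.MP_a572be_co

variable {r : ℕ} {Ω : Type}

/-- The complementary pair of classes. -/
theorem finc_two_compl {W : PW r Ω} {K : Tg Ω} {A : Set Ω} (hT : W.Two K A) : W.Two K Aᶜ := by
  refine ⟨hT.1, fun x y => ?_, hT.2.2.2, ?_⟩
  · rw [hT.2.1 x y, Set.mem_compl_iff, Set.mem_compl_iff, not_iff_not]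
  · rw [compl_compl]; exact hT.2.2.1

/-- The signed count after adding two elements of `A`. -/
theorem finc_cnt_in (I A : Set Ω) {M : Tg Ω} {i l : Ω} (hi : i ∈ A) (hl : l ∈ A) (hil : i ≠ l)
    (mi : ¬ mem I M i) (ml : ¬ mem I M l) : cnt I A (M + t i + t l) = cnt I A M + 2 := by
  have ml' : ¬ mem I (M + t i) l := by rw [mem_add_t_ne I M hil]; exact ml
  rw [cnt_add_t, cnt_add_t]
  simp only [hi, hl, mi, ml', if_true, if_false]
  ring

/-- The signed count after adding two elements outside `A`. -/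
theorem finc_cnt_out (I A : Set Ω) {M : Tg Ω} {z w : Ω} (hz : z ∉ A) (hw : w ∉ A) :
    cnt I A (M + t z + t w) = cnt I A M := by
  rw [cnt_add_t, cnt_add_t]
  simp only [hz, hw, if_false]
  ring

/-- The level of `M` if `M + i + l` is an edge. -/
theorem finc_lev {W : PW r Ω} {M : Tg Ω} {i l : Ω} (hil : i ≠ l) (mi : ¬ W.m M i)
    (ml : ¬ W.m M l) (hE : W.E (M + t i + t l)) : W.lev M = -2 := by
  have h1 := W.lev_E hE
  have ml' : ¬ W.m (M + t i) l := by rw [W.m_ne M hil]; exact ml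
  rw [W.lev_out ml', W.lev_out mi] at h1
  omega

/-- The case `P1 Aᶜ`. -/
theorem finc_key (L : LimitData r Ω) (hr : 0 < r) (h2 : ¬ 2 ∣ r) (K : Tg Ω) (A : Set Ω)
    (hT : L.world.Two K A) (hP : L.world.P1 Aᶜ) : False := by
  refine chain_false L.world hr h2 hP ?_ hT
  intro M i l z w hi hl hil mi ml hz hw hzw mz mw hJ a a' ha ma ha' ma'
  have c1 : L.W.CTwo (M + t i + t l) A := L.world.ctwo_of_two hJ.two1
  have c2 : L.W.CTwo (M + t z + t w) A := L.world.ctwo_of_two hJ.two2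
  have hM : L.W.lev M = -2 := finc_lev hil mi ml c1.1
  have hex : ∀ X : PW r (Option Ω), IsExt L.W X → ∀ ε1 ε2 : Prop,
      L.W.XLab X (M + t i + t l) A ε1 → L.W.XLab X (M + t z + t w) A ε2 → (ε1 ↔ ε2) := by
    intro X hX ε1 ε2 hl1 hl2
    refine L.W.ex_base L.hP hX hM A ε1 ε2 ?_ ?_ ?_ ?_ ?_ hJ.con1 hJ.con2
    · intro D
      obtain ⟨y, y1, y2, y3⟩ := L.world.two_out hJ.two1 M D
      exact ⟨y, y1, y3, y2⟩
    · intro D
      obtain ⟨y, y1, y2, y3⟩ := L.world.two_out' hJ.two1 M D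
      exact ⟨y, y1, y3, y2⟩
    · intro x y hx hy mx my hE
      exact hy (hJ.nbr1 x y hx mx hE).1
    · intro x y hx hy mx my hE
      have hc := (hJ.nbr1 x y hx mx hE).2
      exact ⟨L.W.ctwo_conn L.hP c1 hc, L.W.xlab_conn L.hP hX c1 hl1 hc⟩
    · intro x y hx hy mx my hE
      have hc := (hJ.nbr2 x y hx mx hE).2
      exact ⟨L.W.ctwo_conn L.hP c2 hc, L.W.xlab_conn L.hP hX c2 hl2 hc⟩
  obtain ⟨e1, e2⟩ := flip_size L c1 c2 hex ha ma ha' ma'
  refine ⟨?_, e2⟩
  have k1 : cnt L.W.I A (M + t i + t l) = cnt L.W.I A M + 2 :=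
    finc_cnt_in L.W.I A hi hl hil mi ml
  have k2 : cnt L.W.I A (M + t z + t w) = cnt L.W.I A M := finc_cnt_out L.W.I A hz hw
  rw [k1, k2] at e1
  have e3 : L.W.ρ (M + t i + t l) a - L.W.ρ (M + t z + t w) a' = 2 := by
    rw [e1]; push_cast; ring
  have e4 : L.W.ρ (M + t i + t l) a = L.W.ρ (M + t z + t w) a' + 2 := by
    rw [← e3]; ring
  exact e4

/-- The limit world has no two-class component. Let `Two K A`. By `P1_or` we may assume `P1 Aᶜ`
(otherwise replace `A` by `Aᶜ`, `Two K Aᶜ` holds as well). Apply `chain_false`; `hstep` follows from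
`flip_size` for `K1 = M + i + l`, `K2 = M + z + w` (`ctwo_of_two` for `two1`, `two2`; the signed
counts of `A` differ by `2`, `cnt_add_t`), where `hex` follows from `ex_base`: `lev M = -2`; `inf1`,
`inf2` by `two_out`, `two_out'`; `h0` by `nbr1`; `h1`: `M + x + y` is in the component of `K1` by
`nbr1`, so `ctwo_conn` and `xlab_conn`; `h2` similarly by `nbr2`; `c1`, `c2` are `con1`, `con2`. -/
theorem lim_three (L : LimitData r Ω) (hr : 0 < r) (h2 : ¬ 2 ∣ r) : L.world.Three := by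
  intro K A hT
  rcases L.world.P1_or A with h | h
  · exact finc_key L hr h2 K Aᶜ (finc_two_compl hT) (by rw [compl_compl]; exact h)
  · exact finc_key L hr h2 K A hT h

end Pool.Agent.Lib.MP_a572be_co
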