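import Pool.Agent.Lib.MP_a572be_co.FinA

/-!
# Final assembly, part D: the linear case, a formula which is not empty
-/

namespace Pool.Agent.Lib.MP_a572be_co

variable {r : ℕ} {Ω : Type}

/-- Elements with a given label, on a given side of the reference set, avoiding a finite set. -/
theorem find_lab (W : World r Ω) {lam : Ω → ZMod 3} {cE : ZMod 3} (h : Lin W.toPW lam cE)
    {K0 : Tg Ω} (hK0 : W.E K0) (b : ZMod 3) (p : Prop) (D : Finset Ω) :
    ∃ y, y ∉ D ∧ (y ∈ W.I ↔ p) ∧ lam y = b := by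
  obtain ⟨x, hx⟩ := h.surj b
  obtain ⟨y, h1, _, h2, h3⟩ := W.toPW.joint {K0} (by simpa using hK0) (W.notP x) p D
  exact ⟨y, h1, h2, by rw [← (h.eqv K0 hK0 x y).1 (h3 K0 (by simp)), hx]⟩

/-- Change the signed count of one label by one. -/
theorem find_step (W : World r Ω) {lam : Ω → ZMod 3} {cE : ZMod 3} (h : Lin W.toPW lam cE)
    {K0 : Tg Ω} (hK0 : W.E K0) (b : ZMod 3) (K : Tg Ω) :
    (∃ K' : Tg Ω, ∀ b', cnt W.I {x | lam x = b'} K' =
      cnt W.I {x | lam x = b'} K + if b' = b then 1 else 0) ∧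
    (∃ K' : Tg Ω, ∀ b', cnt W.I {x | lam x = b'} K' =
      cnt W.I {x | lam x = b'} K - if b' = b then 1 else 0) := by
  classical
  constructor
  · obtain ⟨y, h1, h2, h3⟩ := find_lab W h hK0 b False K.support
    refine ⟨K + t y, fun b' => ?_⟩
    have hm : ¬ mem W.I K y := fun hh => by
      simpa using h2.1 ((mem_of_notMem_support W.I h1).1 hh)
    rw [cnt_add_t]
    simp only [hm, if_false, Set.mem_ofPred_eq, h3]
    by_cases hb : b = b'
    · subst hb; simp
    · simp [hb, Ne.symm hb]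
  · obtain ⟨y, h1, h2, h3⟩ := find_lab W h hK0 b True K.support
    refine ⟨K + t y, fun b' => ?_⟩
    have hm : mem W.I K y := (mem_of_notMem_support W.I h1).2 (h2.2 trivial)
    rw [cnt_add_t]
    simp only [hm, if_true, Set.mem_ofPred_eq, h3]
    by_cases hb : b = b'
    · subst hb; simp; ring
    · simp [hb, Ne.symm hb]

/-- Change the signed count of one label by an integer. -/
theorem find_int (W : World r Ω) {lam : Ω → ZMod 3} {cE : ZMod 3} (h : Lin W.toPW lam cE)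
    {K0 : Tg Ω} (hK0 : W.E K0) (b : ZMod 3) (K : Tg Ω) (n : ℤ) :
    ∃ K' : Tg Ω, ∀ b', cnt W.I {x | lam x = b'} K' =
      cnt W.I {x | lam x = b'} K + if b' = b then n else 0 := by
  induction n using Int.induction_on with
  | zero => exact ⟨K, fun b' => by simp⟩
  | succ n ih =>
    obtain ⟨K1, h1⟩ := ih
    obtain ⟨K2, h2⟩ := (find_step W h hK0 b K1).1
    refine ⟨K2, fun b' => ?_⟩
    rw [h2 b', h1 b']
    by_cases hb : b' = b
    · simp [hb]; ring
    · simp [hb]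
  | pred n ih =>
    obtain ⟨K1, h1⟩ := ih
    obtain ⟨K2, h2⟩ := (find_step W h hK0 b K1).2
    refine ⟨K2, fun b' => ?_⟩
    rw [h2 b', h1 b']
    by_cases hb : b' = b
    · simp [hb]; ring
    · simp [hb]

/-- Sets with prescribed signed counts of the three labels. Add or remove elements one at a time
(each label has infinitely many elements inside and outside the reference set: `joint` for some
edge and `h.eqv`); `cnt_add_t`. -/
theorem lin_counts (W : World r Ω) {lam : Ω → ZMod 3} {cE : ZMod 3} (h : Lin W.toPW lam cE)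
    {K0 : Tg Ω} (hK0 : W.E K0) (d : ZMod 3 → ℤ) :
    ∃ K, ∀ b, cnt W.I {x | lam x = b} K = cnt W.I {x | lam x = b} K0 + d b := by
  obtain ⟨K1, h1⟩ := find_int W h hK0 0 K0 (d 0)
  obtain ⟨K2, h2⟩ := find_int W h hK0 1 K1 (d 1)
  obtain ⟨K3, h3⟩ := find_int W h hK0 2 K2 (d 2)
  refine ⟨K3, fun b => ?_⟩
  rw [h3 b, h2 b, h1 b]
  have hb : b = 0 ∨ b = 1 ∨ b = 2 := by revert b; decide
  have e1 : (0 : ZMod 3) ≠ 1 := by decide
  have e2 : (0 : ZMod 3) ≠ 2 := by decide
  have e3 : (1 : ZMod 3) ≠ 2 := by decide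
  rcases hb with rfl | rfl | rfl
  · rw [if_pos rfl, if_neg e1, if_neg e2]; ring
  · rw [if_neg (Ne.symm e1), if_pos rfl, if_neg e3]; ring
  · rw [if_neg (Ne.symm e2), if_neg (Ne.symm e3), if_pos rfl]; ring

/-- `lev K = e0 + ∑ b, cnt {lam = b} K` and `fsum lam K = ∑ b, b * cnt {lam = b} K`. -/
theorem lin_lev (W : PW r Ω) (lam : Ω → ZMod 3) (K : Tg Ω) :
    W.lev K = W.e0 + ∑ b : ZMod 3, cnt W.I {x | lam x = b} K ∧
    fsum W.I lam K = ∑ b : ZMod 3, b * ((cnt W.I {x | lam x = b} K : ℤ) : ZMod 3) := by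
  classical
  constructor
  · unfold PW.lev cnt
    rw [Finset.sum_comm]
    congr 1
    refine Finset.sum_congr rfl fun x _ => ?_
    simp only [Set.mem_univ, if_true, Set.mem_ofPred_eq]
    rw [Finset.sum_eq_single (lam x)]
    · simp
    · intro b _ hb
      simp [Ne.symm hb]
    · intro hh; exact absurd (Finset.mem_univ _) hh
  · unfold fsum cnt
    push_cast
    simp only [Finset.mul_sum]
    rw [Finset.sum_comm]
    refine Finset.sum_congr rfl fun x _ => ?_
    simp only [Set.mem_ofPred_eq]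
    rw [Finset.sum_eq_single (lam x)]
    · by_cases hx : x ∈ W.I <;> simp [hx]
    · intro b _ hb
      simp [Ne.symm hb]
    · intro hh; exact absurd (Finset.mem_univ _) hh

/-- Sets of every level. -/
theorem find_level (W : PW r Ω) (n : ℤ) : ∃ K : Tg Ω, cnt W.I Set.univ K = n := by
  classical
  induction n using Int.induction_on with
  | zero => exact ⟨0, cnt_zero _ _⟩
  | succ n ih =>
    obtain ⟨K, hK⟩ := ih
    obtain ⟨y, hy, hyD⟩ := W.infO.exists_notMem_finset K.support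
    have hm : ¬ mem W.I K y := fun hh => hy ((mem_of_notMem_support W.I hyD).1 hh)
    refine ⟨K + t y, ?_⟩
    rw [cnt_add_t]
    simp [hm, hK]
  | pred n ih =>
    obtain ⟨K, hK⟩ := ih
    obtain ⟨y, hy, hyD⟩ := W.infI.exists_notMem_finset K.support
    have hm : mem W.I K y := (mem_of_notMem_support W.I hyD).2 hy
    refine ⟨K + t y, ?_⟩
    rw [cnt_add_t]
    simp [hm, hK]
    ring

/-- An edge exists. -/
theorem find_edge (W : PW r Ω) : ∃ K : Tg Ω, W.E K := by
  obtain ⟨S, hS⟩ := find_level W (-1 - W.e0)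
  obtain ⟨v, _, _, hE⟩ := W.axN S (by rw [hS]; ring) ∅
  exact ⟨_, hE⟩

/-- **A nonempty formula.** Let `K0` be an edge (one exists: there is a set of level `-1` as the
reference set and its complement are infinite, and `axN`). For `(p, q) ∈ Fin r × Fin r`
(`m = r * r`, `finProdFinEquiv`) choose by `lin_counts` a set `K (p,q)` with signed counts
`- 3 (p + q)`, `3 p`, `3 q` of the labels `0, 1, 2` relative to `K0`; by `lin_lev` it is an edge.
Choose `u t a ∈ K t` of label `a` (`joint`). Suppose `Emp`. Apply `size` with `lab e = lam e` (as an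
element of `Fin 3`); `c (K t) e (u t (lab e))` by `h.eqv` and `c_of_eqv`. As `3` is invertible mod `r`
there are `p`, `q` with `s 1 + cnt_1 = 0`, `s 2 + cnt_2 = 0` for `t = (p, q)`, and then
`s 0 + cnt_0 = 0` as the sum is `0`. So all `ρ (K t) (u t a)` are `0`: contradiction. -/
theorem lin_not_emp (L : LimitData r Ω) (hr : 0 < r) (h3 : ¬ 3 ∣ r) {lam : Ω → ZMod 3}
    {cE : ZMod 3} (h : Lin L.W lam cE) :
    ∃ (m : ℕ) (K : Fin m → Tg Ω) (u : Fin m → Fin 3 → Ω), (∀ t, L.W.E (K t)) ∧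
      (∀ t a, L.W.m (K t) (u t a)) ∧ (∀ t a, lam (u t a) = ((a : ℕ) : ZMod 3)) ∧
      ¬ L.Emp ⟨m, 3, K, u⟩ := by
  classical
  obtain ⟨K0, hK0⟩ := find_edge L.W
  have h' : Lin L.world.toPW lam cE := h
  have hK0' : L.world.E K0 := hK0
  -- the sets
  have hex : ∀ pq : Fin r × Fin r, ∃ K : Tg Ω,
      (cnt L.W.I {x | lam x = 0} K = cnt L.W.I {x | lam x = 0} K0 +
        (-(3 * ((pq.1 : ℕ) : ℤ)) - 3 * ((pq.2 : ℕ) : ℤ))) ∧
      (cnt L.W.I {x | lam x = 1} K = cnt L.W.I {x | lam x = 1} K0 + 3 * ((pq.1 : ℕ) : ℤ)) ∧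
      (cnt L.W.I {x | lam x = 2} K = cnt L.W.I {x | lam x = 2} K0 + 3 * ((pq.2 : ℕ) : ℤ)) := by
    intro pq
    obtain ⟨K, hK⟩ := lin_counts L.world h' hK0' (fun b =>
      if b = 0 then (-(3 * ((pq.1 : ℕ) : ℤ)) - 3 * ((pq.2 : ℕ) : ℤ)) else
      if b = 1 then 3 * ((pq.1 : ℕ) : ℤ) else 3 * ((pq.2 : ℕ) : ℤ))
    have e1 : (1 : ZMod 3) ≠ 0 := by decide
    have e2 : (2 : ZMod 3) ≠ 0 := by decide
    have e3 : (2 : ZMod 3) ≠ 1 := by decide
    refine ⟨K, ?_, ?_, ?_⟩
    · have := hK 0; rw [if_pos rfl] at this; exact this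
    · have := hK 1; rw [if_neg e1, if_pos rfl] at this; exact this
    · have := hK 2; rw [if_neg e2, if_neg e3] at this; exact this
  choose KK hKK0 hKK1 hKK2 using hex
  have hsum : ∀ f : ZMod 3 → ℤ, ∑ b : ZMod 3, f b = f 0 + f 1 + f 2 := fun f => by
    exact Fin.sum_univ_three f
  have hsum3 : ∀ f : ZMod 3 → ZMod 3, ∑ b : ZMod 3, f b = f 0 + f 1 + f 2 := fun f => by
    exact Fin.sum_univ_three f
  have hE : ∀ pq, L.W.E (KK pq) := by
    intro pq
    rw [h.E_iff]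
    obtain ⟨l0, f0⟩ := (h.E_iff K0).1 hK0
    rw [(lin_lev L.W lam (KK pq)).1, (lin_lev L.W lam (KK pq)).2]
    rw [(lin_lev L.W lam K0).1] at l0
    rw [(lin_lev L.W lam K0).2] at f0
    rw [hsum] at l0 ⊢
    rw [hsum3] at f0 ⊢
    rw [hKK0, hKK1, hKK2]
    refine ⟨by linarith, ?_⟩
    rw [← f0]
    push_cast
    have e3 : (3 : ZMod 3) = 0 := by decide
    rw [e3]; ring
  -- the representatives
  have hu : ∀ (pq : Fin r × Fin r) (a : Fin 3), ∃ y, L.W.m (KK pq) y ∧
      lam y = ((a : ℕ) : ZMod 3) := by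
    intro pq a
    obtain ⟨y, y1, y2, y3⟩ := find_lab L.world h' hK0' ((a : ℕ) : ZMod 3) True (KK pq).support
    exact ⟨y, (mem_of_notMem_support L.W.I y1).2 (y2.2 trivial), y3⟩
  choose uu hu1 hu2 using hu
  refine ⟨r * r, fun t => KK (finProdFinEquiv.symm t), fun t a => uu (finProdFinEquiv.symm t) a,
    fun t => hE _, fun t a => hu1 _ a, fun t a => hu2 _ a, ?_⟩
  intro hEmp
  have hlab : ∀ (t : Fin (r * r)) (e : Ω), L.W.m (KK (finProdFinEquiv.symm t)) e →
      L.W.c (KK (finProdFinEquiv.symm t)) e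
        (uu (finProdFinEquiv.symm t) ((show Fin 3 from lam e))) := by
    intro t e he
    refine L.W.c_of_eqv L.hP (hE _) he (hu1 _ _) ((h.eqv _ (hE _) _ _).2 ?_)
    rw [hu2]
    have key : ∀ z : ZMod 3, z = (((show Fin 3 from z) : ℕ) : ZMod 3) := by decide
    exact key (lam e)
  obtain ⟨s, hs1, hs2, hs3⟩ := L.size ⟨r * r, 3, fun t => KK (finProdFinEquiv.symm t),
    fun t a => uu (finProdFinEquiv.symm t) a⟩ (fun t => hE _) (fun t a => hu1 _ a) hEmp
    (fun e => (show Fin 3 from lam e)) hlab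
  have : NeZero r := ⟨by omega⟩
  -- `3` is a unit
  have hcop : Nat.Coprime 3 r := (Nat.Prime.coprime_iff_not_dvd Nat.prime_three).2 h3
  have hunit : (3 : ZMod r) * (3 : ZMod r)⁻¹ = 1 := by
    have := ZMod.coe_mul_inv_eq_one (n := r) 3 hcop
    simpa using this
  have hsol : ∀ z : ZMod r, ∃ p : Fin r, z + 3 * (((p : ℕ)) : ZMod r) = 0 := by
    intro z
    refine ⟨⟨(-(z * (3 : ZMod r)⁻¹)).val, ZMod.val_lt _⟩, ?_⟩
    simp only [ZMod.natCast_val, ZMod.cast_id', id_eq]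
    have : z + 3 * -(z * (3 : ZMod r)⁻¹) = z - z * (3 * (3 : ZMod r)⁻¹) := by ring
    rw [this, hunit]; ring
  obtain ⟨p, hp⟩ := hsol (s 1 + ((cnt L.W.I {x | lam x = 1} K0 : ℤ) : ZMod r))
  obtain ⟨q, hq⟩ := hsol (s 2 + ((cnt L.W.I {x | lam x = 2} K0 : ℤ) : ZMod r))
  have hsumr : ∀ f : Fin 3 → ZMod r, ∑ b : Fin 3, f b = f 0 + f 1 + f 2 := fun f =>
    Fin.sum_univ_three f
  have t1 := hs1 (finProdFinEquiv (p, q))
  have v1 : s 1 + ((cnt L.W.I {x | lam x = 1} (KK (p, q)) : ℤ) : ZMod r) = 0 := by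
    rw [hKK1]; push_cast; rw [← hp]; ring
  have v2 : s 2 + ((cnt L.W.I {x | lam x = 2} (KK (p, q)) : ℤ) : ZMod r) = 0 := by
    rw [hKK2]; push_cast; rw [← hq]; ring
  have t1' : (s 0 + ((cnt L.W.I {x | lam x = 0} (KK (p, q)) : ℤ) : ZMod r)) +
      (s 1 + ((cnt L.W.I {x | lam x = 1} (KK (p, q)) : ℤ) : ZMod r)) +
      (s 2 + ((cnt L.W.I {x | lam x = 2} (KK (p, q)) : ℤ) : ZMod r)) = 0 := by
    have t2 := t1
    simp only [Equiv.symm_apply_apply] at t2
    rw [hsumr] at t2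
    exact t2
  have v0 : s 0 + ((cnt L.W.I {x | lam x = 0} (KK (p, q)) : ℤ) : ZMod r) = 0 := by
    rw [v1, v2] at t1'; simpa using t1'
  have hall : ∀ b : Fin 3, s b + ((cnt L.W.I {x | (show Fin 3 from lam x) = b}
      (KK (p, q)) : ℤ) : ZMod r) = 0 := by
    intro b
    fin_cases b
    · exact v0
    · exact v1
    · exact v2
  apply hs3 (finProdFinEquiv (p, q))
  intro a
  rw [hs2]
  refine Finset.sum_eq_zero fun b _ => ?_
  split_ifs with hc
  · have := hall b
    simp only [Equiv.symm_apply_apply]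
    exact this
  · rfl

end Pool.Agent.Lib.MP_a572be_co
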