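import Pool.Agent.Lib.MP_a572be_co.FinA

/-!
# Final assembly, part E: the linear case, the world of the sets without the special element
-/

namespace Pool.Agent.Lib.MP_a572be_co

variable {r : ℕ} {Ω : Type}

/-- An edge of the component containing (or not containing) `x`. -/
private theorem fine_agree (V : PW r Ω) {x : Ω} (hx : x ∉ V.P) (σ : Prop) (K : Tg Ω)
    (hK : V.E K) : ∃ K', V.Conn K K' ∧ V.E K' ∧ (V.m K' x ↔ σ) := by
  by_cases hσ : σ
  · by_cases hm : V.m K x
    · exact ⟨K, V.conn_refl _, hK, iff_of_true hm hσ⟩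
    · obtain ⟨v, _, hv, hE⟩ := V.vis hK hm hx ∅
      refine ⟨K + t v + t x, V.conn_mk hK hv hm hE, hE, iff_of_true ?_ hσ⟩
      have hne : v ≠ x := by rintro rfl; exact hm hv
      rw [V.m_self, V.m_ne _ hne]; exact hm
  · by_cases hm : V.m K x
    · obtain ⟨v, _, _, hv, hE⟩ := V.vis_out hK hm ∅
      refine ⟨K + t x + t v, V.conn_mk hK hm hv hE, hE, iff_of_false ?_ hσ⟩
      have hne : v ≠ x := by rintro rfl; exact hv hm
      rw [V.m_ne _ hne, V.m_self]; simpa using hm
    · exact ⟨K, V.conn_refl _, hK, iff_of_false hm hσ⟩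

private theorem fine_eqv (V : PW r Ω) {x y : Ω} {σ : Prop} {K : Tg Ω} (hK : V.E K)
    (h1 : V.m K x ↔ σ) (h2 : V.m K y ↔ ¬ σ) (hE : V.E (K + t x + t y)) : V.Eqv K x y := by
  by_cases hσ : σ
  · exact V.eqv_mk hK (h1.2 hσ) (fun h => h2.1 h hσ) hE
  · refine V.eqv_symm (V.eqv_mk hK (h2.2 hσ) (fun h => hσ (h1.1 h)) ?_)
    rw [tg_comm]; exact hE

private theorem fine_exists_mem (W : PW r Ω) (K : Tg Ω) (D : Finset Ω) :
    ∃ a, a ∉ D ∧ W.m K a := by
  classical
  obtain ⟨a, ha, haD⟩ := W.infI.exists_notMem_finset (D ∪ K.support)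
  simp only [Finset.mem_union, not_or] at haD
  exact ⟨a, haD.1, (mem_of_notMem_support W.I haD.2).2 ha⟩

/-- There are sets of every level. -/
private theorem fine_level (W : PW r Ω) (n : ℤ) : ∃ K, W.lev K = n := by
  induction n using Int.inductionOn' (b := W.e0) with
  | zero => exact ⟨0, by unfold PW.lev; rw [cnt_zero, add_zero]⟩
  | succ k _ ih =>
    obtain ⟨K, hK⟩ := ih
    obtain ⟨v, hv, hvK⟩ := W.infO.exists_notMem_finset K.support
    have hm : ¬ W.m K v := fun h => hv ((mem_of_notMem_support W.I hvK).1 h)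
    exact ⟨K + t v, by rw [W.lev_out hm, hK]⟩
  | pred k _ ih =>
    obtain ⟨K, hK⟩ := ih
    obtain ⟨a, _, ha⟩ := fine_exists_mem W K ∅
    exact ⟨K + t a, by rw [W.lev_in ha, hK]⟩

/-- If there is a set of level `1` there is an edge. -/
private theorem fine_edge (W : PW r Ω) {K : Tg Ω} (hK : W.lev K = 1) : ∃ K', W.E K' := by
  obtain ⟨a, _, ha⟩ := fine_exists_mem W K ∅
  obtain ⟨b, _, hb⟩ := fine_exists_mem W (K + t a) ∅
  have h1 : W.lev (K + t a + t b) = -1 := by
    rw [W.lev_in hb, W.lev_in ha, hK]; norm_num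
  obtain ⟨v, _, _, hE⟩ := W.axN _ h1 ∅
  exact ⟨_, hE⟩

private theorem fine_lev {W : PW r Ω} {X : PW r (Option Ω)} {V : PW r Ω}
    (hV : IsMinus W X V) {K : Tg Ω} (hK : V.E K) : W.lev K = 1 := by
  have h1 := V.lev_eq K hK
  rw [hV.e0_eq, hV.I_eq] at h1
  show W.e0 + cnt W.I Set.univ K = 1
  linarith

private theorem fine_m {W : PW r Ω} {X : PW r (Option Ω)} {V : PW r Ω}
    (hV : IsMinus W X V) (K : Tg Ω) (x : Ω) : V.m K x ↔ W.m K x := by
  show mem V.I K x ↔ mem W.I K x
  rw [hV.I_eq]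

/-- Transport from a set without the special element to an edge of the base world: if `V.E K`
(so `lev K = 1`), `g ∈ K` and `W.E (K - g)`, then for `a, b ∈ K` different from `g`:
`V.c K a b ↔ W.c (K - g) a b`, `V.c K a g ↔ X.c (emb (K - g)) (some a) none` and
`V.ρ K a = W.ρ (K - g) a`, `V.ρ K g = X.ρ (emb (K - g)) none`: the sets `emb K + t none` and
`emb (K + t g)` differ by the exchange `g → none` (`c_move`, `c_move'`, `ρ_move`, `ρ_move'` for `X`). -/
theorem minus_move {W : PW r Ω} {X : PW r (Option Ω)} (hX : IsExt W X) {V : PW r Ω}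
    (hV : IsMinus W X V) {K : Tg Ω} {g : Ω} (hK : V.E K) (hg : W.m K g)
    (hE : W.E (K + t g)) :
    (∀ a b, W.m K a → W.m K b → a ≠ g → b ≠ g → (V.c K a b ↔ W.c (K + t g) a b)) ∧
    (∀ a, W.m K a → a ≠ g → (V.c K a g ↔ X.c (emb (K + t g)) (some a) none)) ∧
    (∀ a, W.m K a → a ≠ g → V.ρ K a = W.ρ (K + t g) a) := by
  have hL : X.E (emb K + t none) := (hV.E_iff K).1 hK
  have e : emb K + t none + t (some g) + t none = emb (K + t g) := by
    rw [emb_add_t]; abel_nf; simp
  have hL' : X.E (emb K + t none + t (some g) + t none) := by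
    rw [e, hX.E_iff]; exact hE
  have mg : mem X.I (emb K + t none) (some g) := (m_emb_minus hX K g).2 hg
  have mn : ¬ mem X.I (emb K + t none) none := m_emb_minus_none hX K
  refine ⟨?_, ?_, ?_⟩
  · intro a b ha hb hag hbg
    rw [hV.c_iff, X.c_move _ (some g) none (some a) (some b) hL mg mn hL'
      ((m_emb_minus hX K a).2 ha) ((m_emb_minus hX K b).2 hb) (by simpa using hag)
      (by simpa using hbg), e, hX.c_iff]
  · intro a ha hag
    rw [hV.c_iff, X.c_move' _ (some g) none (some a) hL mg mn hL'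
      ((m_emb_minus hX K a).2 ha) (by simpa using hag), e]
  · intro a ha hag
    rw [hV.ρ_eq, ← X.ρ_move _ (some g) none (some a) hL mg mn hL'
      ((m_emb_minus hX K a).2 ha) (by simpa using hag), e, hX.ρ_eq]

/-- In the linear case every set `K` of level `1` has an element `g`, avoiding a finite set, such
that `K - g` is an edge (`lam g = fsum K - cE`; elements of each label inside any set by `joint`
applied to an edge of `W`; `fsum_add_t`). -/
theorem lin_drop (W : World r Ω) {lam : Ω → ZMod 3} {cE : ZMod 3} (h : Lin W.toPW lam cE)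
    {K : Tg Ω} (hK : W.lev K = 1) (D : Finset Ω) :
    ∃ g, g ∉ D ∧ W.m K g ∧ lam g = fsum W.I lam K - cE ∧ W.E (K + t g) := by
  classical
  obtain ⟨x0, hx0⟩ := h.surj (fsum W.I lam K - cE)
  obtain ⟨K1, hK1⟩ := fine_edge W.toPW hK
  obtain ⟨g, hgD, _, hgI, hg⟩ := W.toPW.joint {K1} (by simpa using hK1) (W.notP x0) True
    (D ∪ K.support)
  simp only [Finset.mem_union, not_or] at hgD
  have hm : W.m K g := (mem_of_notMem_support W.I hgD.2).2 (by simpa using hgI)
  have hl : lam g = fsum W.I lam K - cE := by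
    rw [← hx0]
    exact ((h.eqv K1 hK1 x0 g).1 (hg K1 (by simp))).symm
  refine ⟨g, hgD.1, hm, hl, ?_⟩
  rw [h.E_iff]
  refine ⟨by rw [W.toPW.lev_in hm, hK]; norm_num, ?_⟩
  have hm' : mem W.I K g := hm
  rw [fsum_add_t, if_pos hm', hl]
  ring

/-- The world of the sets without the special element is a world. Let `V.E K`, `x ∈ K`. Let `g ∈ K`
be as in `lin_drop`, `g ≠ x`. The edge `K - g` of `W` has elements `a, b` with
`¬ W.c (K - g) a b` (`two`); `x` is not related to both in `W.c (K - g)`, and use `minus_move`. -/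
theorem minus_two (W : World r Ω) {lam : Ω → ZMod 3} {cE : ZMod 3} (h : Lin W.toPW lam cE)
    {X : PW r (Option Ω)} (hX : IsExt W.toPW X) {V : PW r Ω} (hV : IsMinus W.toPW X V) :
    ∀ K x, V.E K → mem V.I K x → ∃ y, mem V.I K y ∧ ¬ V.c K x y := by
  intro K x hK hx
  rw [hV.I_eq] at hx ⊢
  obtain ⟨g, hgx, mg, _, hE⟩ := lin_drop W h (fine_lev hV hK) {x}
  have hgx' : g ≠ x := by simpa using hgx
  obtain ⟨y, my, hc⟩ := W.two (K + t g) x hE ((mem_add_t_ne W.I K hgx').2 hx)
  have hyg : g ≠ y := by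
    rintro rfl
    exact (mem_add_t_self W.I K g).1 my mg
  have my' : mem W.I K y := (mem_add_t_ne W.I K hyg).1 my
  refine ⟨y, my', ?_⟩
  rw [(minus_move hX hV hK mg hE).1 x y hx my' (Ne.symm hgx') (Ne.symm hyg)]
  exact hc

/-- Joint copies preserving the labels of `W` and the classes of finitely many components of `V`:
apply `X.copy` (to `some x`, avoiding `none`) to a family consisting of `emb K` for one edge `K` of
`W` and of `emb K' + t none` for edges `K'` of `V`, all chosen to agree at `x` (as in the proof of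
`joint`: replace an edge by one of its component which contains, or does not contain, `x`, by `vis`
or `vis_out` in `W` or `V`). Here `b` says whether the copy is in the reference set. -/
theorem joint_minus (W : World r Ω) {lam : Ω → ZMod 3} {cE : ZMod 3} (h : Lin W.toPW lam cE)
    {X : PW r (Option Ω)} (hX : IsExt W.toPW X) {V : PW r Ω} (hV : IsMinus W.toPW X V)
    (F : Finset (Tg Ω)) (hF : ∀ K ∈ F, V.E K) (x : Ω) (b : Prop) (D : Finset Ω) :
    ∃ y, y ∉ D ∧ y ≠ x ∧ (y ∈ W.I ↔ b) ∧ lam y = lam x ∧ ∀ K ∈ F, V.Eqv K x y := by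
  classical
  -- an edge of `W`
  have hedge : ∃ K0, W.E K0 := by
    obtain ⟨K1, hK1⟩ : ∃ K1 : Tg Ω, W.lev K1 = -1 := fine_level W.toPW (-1)
    obtain ⟨v, _, _, hE⟩ := W.axN K1 hK1 ∅
    exact ⟨_, hE⟩
  obtain ⟨K0, hK0⟩ := hedge
  obtain ⟨K0', _, hK0E, hK0m⟩ := fine_agree W.toPW (W.notP x) (¬ b) K0 hK0
  have hxV : x ∉ V.P := by rw [hV.P_eq]; exact Set.notMem_empty x
  have h1 : ∀ K : Tg Ω, ∃ K', K ∈ F → (V.Conn K K' ∧ V.E K' ∧ (V.m K' x ↔ ¬ b)) := by
    intro K
    by_cases hK : K ∈ F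
    · obtain ⟨K', hK'⟩ := fine_agree V hxV (¬ b) K (hF K hK)
      exact ⟨K', fun _ => hK'⟩
    · exact ⟨K, fun h => absurd h hK⟩
  choose g hg using h1
  have hxX : some x ∉ X.P := by rw [hX.P_eq]; simp
  obtain ⟨y', hyD, hyx, hyI, hy⟩ := X.copy
    (insert (emb K0') (F.image fun K => emb (g K) + t none)) (¬ b) hxX (by
      intro L hL
      rw [Finset.mem_insert, Finset.mem_image] at hL
      rcases hL with rfl | ⟨K, hK, rfl⟩
      · rw [m_emb hX]; exact hK0m
      · rw [m_emb_minus hX, ← fine_m hV]; exact (hg K hK).2.2)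
    (insert none (D.map Function.Embedding.some))
  obtain ⟨y, rfl⟩ : ∃ y, y' = some y := by
    cases y' with
    | none => exact absurd (Finset.mem_insert_self _ _) hyD
    | some y => exact ⟨y, rfl⟩
  have hyx' : y ≠ x := fun h => hyx (by rw [h])
  have e : ∀ L : Tg Ω, emb L + t (some x) + t (some y) = emb (L + t x + t y) := by
    intro L; rw [emb_add_t, emb_add_t]
  have e' : ∀ L : Tg Ω, emb L + t none + t (some x) + t (some y) = emb (L + t x + t y) + t none := by
    intro L; rw [emb_add_t, emb_add_t]; abel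
  refine ⟨y, ?_, hyx', ?_, ?_, ?_⟩
  · intro h
    apply hyD
    rw [Finset.mem_insert, Finset.mem_map]
    exact Or.inr ⟨y, h, rfl⟩
  · rw [← hX.some_I, hyI, not_not]
  · have h2 := hy (emb K0') (Finset.mem_insert_self _ _)
    have h3 : W.Eqv K0' x y := by
      refine fine_eqv W.toPW hK0E hK0m ?_ ?_
      · rw [← m_emb hX]; exact h2.1
      · rw [← hX.E_iff, ← e]
        exact h2.2.1 ((hX.E_iff K0').2 hK0E)
    exact ((h.eqv K0' hK0E x y).1 h3).symm
  · intro K hK
    obtain ⟨hc, hE, hm⟩ := hg K hK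
    have h2 := hy (emb (g K) + t none)
      (Finset.mem_insert_of_mem (Finset.mem_image_of_mem (fun K => emb (g K) + t none) hK))
    refine V.eqv_of_conn hc (fine_eqv V hE hm ?_ ?_)
    · rw [fine_m hV, ← m_emb_minus hX]; exact h2.1
    · rw [hV.E_iff, ← e']
      exact h2.2.1 ((hV.E_iff _).1 hE)

end Pool.Agent.Lib.MP_a572be_co
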