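import Pool.Agent.Lib.MP_a572be_co.FinE

/-!
# Final assembly, part F: the case alpha
-/

namespace Pool.Agent.Lib.MP_a572be_co

variable {r : ℕ} {Ω : Type}

/-- Bijections of `ZMod 3` are affine (finite check). -/
theorem affine3 (π : ZMod 3 → ZMod 3) (h : Function.Surjective π) :
    ∃ u w : ZMod 3, ∀ s, π s = u * s + w := by
  have hinj : Function.Injective π := Finite.injective_iff_surjective.2 h
  have h01 : π 0 ≠ π 1 := fun e => absurd (hinj e) (by decide)
  have h02 : π 0 ≠ π 2 := fun e => absurd (hinj e) (by decide)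
  have h12 : π 1 ≠ π 2 := fun e => absurd (hinj e) (by decide)
  have key : ∀ a b c : ZMod 3, a ≠ b → a ≠ c → b ≠ c → a = (b - a) * 0 + a ∧
      b = (b - a) * 1 + a ∧ c = (b - a) * 2 + a := by decide
  obtain ⟨k0, k1, k2⟩ := key _ _ _ h01 h02 h12
  refine ⟨π 1 - π 0, π 0, fun s => ?_⟩
  have hs : s = 0 ∨ s = 1 ∨ s = 2 := by revert s; decide
  rcases hs with rfl | rfl | rfl
  · exact k0
  · exact k1
  · exact k2

/-- Sets of every level exist. -/
theorem finf_exists_lev (W : PW r Ω) (n : ℤ) : ∃ S, W.lev S = n := by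
  have up : ∀ k : ℕ, ∃ S, W.lev S = W.e0 + k := by
    intro k
    induction k with
    | zero => exact ⟨0, by unfold PW.lev; rw [cnt_zero]; simp⟩
    | succ k ih =>
      obtain ⟨S, hS⟩ := ih
      obtain ⟨x, hx, hxS⟩ := W.infO.exists_notMem_finset S.support
      have hm : ¬ W.m S x := fun h => hx ((mem_of_notMem_support W.I hxS).1 h)
      refine ⟨S + t x, ?_⟩
      rw [W.lev_out hm, hS]; push_cast; ring
  have dn : ∀ k : ℕ, ∃ S, W.lev S = W.e0 - k := by
    intro k
    induction k with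
    | zero => exact ⟨0, by unfold PW.lev; rw [cnt_zero]; simp⟩
    | succ k ih =>
      obtain ⟨S, hS⟩ := ih
      obtain ⟨x, hx, hxS⟩ := W.infI.exists_notMem_finset S.support
      have hm : W.m S x := (mem_of_notMem_support W.I hxS).2 hx
      refine ⟨S + t x, ?_⟩
      rw [W.lev_in hm, hS]; push_cast; ring
  rcases le_total W.e0 n with h | h
  · obtain ⟨S, hS⟩ := up (n - W.e0).toNat
    exact ⟨S, by rw [hS, Int.toNat_of_nonneg (by omega)]; ring⟩
  · obtain ⟨S, hS⟩ := dn (W.e0 - n).toNat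
    exact ⟨S, by rw [hS, Int.toNat_of_nonneg (by omega)]; ring⟩

/-- Edges exist. -/
theorem finf_exists_E (W : PW r Ω) : ∃ K, W.E K := by
  obtain ⟨S, hS⟩ := finf_exists_lev W (-1)
  obtain ⟨v, _, _, hv⟩ := W.axN S hS ∅
  exact ⟨_, hv⟩

/-- Levels in the world of the sets without the special element. -/
theorem finf_lev {W : PW r Ω} {X : PW r (Option Ω)} {V : PW r Ω}
    (hV : IsMinus W X V) (K : Tg Ω) : V.lev K = W.lev K - 1 := by
  unfold PW.lev
  rw [hV.I_eq, hV.e0_eq]; ring

/-- An exchange of elements with the same label. -/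
theorem finf_exch (W : World r Ω) {lam : Ω → ZMod 3} {cE : ZMod 3} (h : Lin W.toPW lam cE)
    {K : Tg Ω} (hK : W.E K) {x v : Ω} (hx : W.m K x) (hv : ¬ W.m K v) (hxv : lam x = lam v) :
    W.E (K + t x + t v) := by
  have hne := W.toPW.ne_of_m hx hv
  have h1 := (h.E_iff K).1 hK
  have hv' : ¬ W.m (K + t x) v := by rw [W.toPW.m_ne _ hne]; exact hv
  refine (h.E_iff _).2 ⟨?_, ?_⟩
  · rw [W.toPW.lev_out hv', W.toPW.lev_in hx, h1.1]; ring
  · have e1 : mem W.I K x := hx
    have e2 : ¬ mem W.I (K + t x) v := hv'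
    rw [fsum_add_t, fsum_add_t, if_pos e1, if_neg e2, h1.2, hxv]; ring

/-- The neighbours of `K - s` (`s` the special element) for an edge `K` of `W`: if `v ∉ K` and
`V.E (K + v)` then `s` is related by `X.c (emb K)` to every `u ∈ K` with `lam u = lam v`: `K - u + v` is
an edge of `W` (`h.E_iff`), `c_swap`. -/
theorem special_rel (W : World r Ω) {lam : Ω → ZMod 3} {cE : ZMod 3} (h : Lin W.toPW lam cE)
    {X : PW r (Option Ω)} (hX : IsExt W.toPW X) {V : PW r Ω} (hV : IsMinus W.toPW X V)
    {K : Tg Ω} (hK : W.E K) {v : Ω} (hv : ¬ W.m K v) (hE : V.E (K + t v)) {u : Ω}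
    (hu : W.m K u) (huv : lam u = lam v) : X.c (emb K) none (some u) := by
  have h1 : X.E (emb K) := (hX.E_iff K).2 hK
  have h2 : X.E (emb K + t none + t (some v)) := by
    have := (hV.E_iff _).1 hE
    rwa [emb_add_t, tg_comm] at this
  have h3 : X.E (emb K + t (some u) + t (some v)) := by
    rw [← emb_add_t, ← emb_add_t]
    exact (hX.E_iff _).2 (finf_exch W h hK hu hv huv)
  exact X.c_swap (emb K) none (some u) (some v) h1 (m_emb_none hX K) ((m_emb hX K u).2 hu)
    (fun hm => hv ((m_emb hX K v).1 hm)) h2 h3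

/-- Exchanges in `W` transport the relation of the special element to a label: if
`lam x = lam v`, `K' = K - x + v`, and `none` is related in `emb K` to all `u ∈ K` of label `b`, then
the same holds for `K'` (`c_move`, `c_move'` for `X`; choose `u ≠ x` of label `b`, two elements of
label `b` are related by `c_of_eqv`). -/
theorem special_move (W : World r Ω) {lam : Ω → ZMod 3} {cE : ZMod 3} (h : Lin W.toPW lam cE)
    {X : PW r (Option Ω)} (hX : IsExt W.toPW X) {K : Tg Ω} (hK : W.E K) {x v : Ω}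
    (hx : W.m K x) (hv : ¬ W.m K v) (hxv : lam x = lam v) (b : ZMod 3)
    (hb : ∀ u, W.m K u → lam u = b → X.c (emb K) none (some u)) :
    ∀ u, W.m (K + t x + t v) u → lam u = b → X.c (emb (K + t x + t v)) none (some u) := by
  intro u hu hub
  have hne := W.toPW.ne_of_m hx hv
  have h1 : X.E (emb K) := (hX.E_iff K).2 hK
  have h3 : X.E (emb K + t (some x) + t (some v)) := by
    rw [← emb_add_t, ← emb_add_t]
    exact (hX.E_iff _).2 (finf_exch W h hK hx hv hxv)
  have mx : X.m (emb K) (some x) := (m_emb hX K x).2 hx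
  have mv : ¬ X.m (emb K) (some v) := fun hm => hv ((m_emb hX K v).1 hm)
  rw [emb_add_t, emb_add_t]
  by_cases huv : u = v
  · subst huv
    have h4 := hb x hx (by rw [hxv, hub])
    exact (X.c_move' (emb K) (some x) (some u) none h1 mx mv h3 (m_emb_none hX K)
      (by simp)).1 h4
  · rw [W.toPW.m_ne _ (Ne.symm huv)] at hu
    have hux : u ≠ x := by
      rintro rfl
      rw [W.toPW.m_self] at hu
      exact hu hx
    rw [W.toPW.m_ne _ (Ne.symm hux)] at hu
    exact (X.c_move (emb K) (some x) (some v) none (some u) h1 mx mv h3 (m_emb_none hX K)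
      ((m_emb hX K u).2 hu) (by simp) (by simpa using hux)).1 (hb u hu hub)

/-- The signed sum of an affine function of the labels. -/
theorem finf_affine (I : Set Ω) (lam : Ω → ZMod 3) (u w : ZMod 3) (K : Tg Ω) :
    fsum I (fun x => u * lam x + w) K =
      u * fsum I lam K + w * ((cnt I Set.univ K : ℤ) : ZMod 3) := by
  unfold fsum cnt
  rw [Finset.mul_sum, Int.cast_sum, Finset.mul_sum, ← Finset.sum_add_distrib]
  refine Finset.sum_congr rfl fun x _ => ?_
  by_cases hx : x ∈ I
  · simp [hx, add_comm]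
  · simp [hx]

/-- **Case alpha.** If the world `V` of the sets without the special element is linear as well,
with `lam'`, `c'`, then the special element has a constant label.

Proof. For an edge `K` of `W` let `s(K) = c' - fsum lam' K`; for `v ∉ K`, `V.E (K + v)` iff
`lam' v = s(K)` (`V.lev (K + v) = 0`).
(1) `lam x = lam y → lam' x = lam' y`: suppose `lam x = lam y`, `lam' x ≠ lam' y`. Using
`joint_minus` (with `F` a singleton `{K'}`, `K'` an edge of `V`, and `hV'.eqv`) choose an edge `K0` of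
`W` (start with any edge; replace elements by copies with the same `lam`) containing two copies
`x1, x2` of `x` and not containing two copies `y1, y2` of `y` (copies: same `lam` and same `lam'`).
`K1 = K0 - x1 + y1`, `K2 = K1 - x2 + y2` are edges and `s(K_j) = s(K0) + j δ`, `δ = lam' x - lam' y ≠ 0`,
so `s(K0), s(K1), s(K2)` are all elements of `ZMod 3`. For each label `b` take `v` with `lam v = b`;
there is `j` with `lam' v = s(K_j)`, and after replacing `v` by a copy, `v ∉ K_j`; so by `special_rel`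
the special element is related in `K_j`, hence by `special_move` in `K0`, to the label `b` (all three
`b`). So all elements of `K0` are related by `X.c (emb K0)`, hence by `W.c K0`, contradicting
`W.two`.
(2) So `lam' = π ∘ lam` with `π` surjective, `π s = u s + w` (`affine3`), `u ≠ 0`. For an edge `K` of
`W`, `fsum lam' K = u cE + w (- e0)` is constant (`lev K = 0`; `lin_lev`-type computation, or induct
over `K`: `fsum (u lam + w) K = u fsum lam K + w cnt univ K`). So `s(K) = s0` is constant; let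
`π a = s0`. For every edge `K` take `v ∉ K` with `lam v = a`; `V.E (K + v)`, and `special_rel`. -/
theorem lin_alpha (W : World r Ω) {lam : Ω → ZMod 3} {cE : ZMod 3} (h : Lin W.toPW lam cE)
    {X : PW r (Option Ω)} (hX : IsExt W.toPW X) {V : PW r Ω} (hV : IsMinus W.toPW X V)
    {lam' : Ω → ZMod 3} {c' : ZMod 3} (hV' : Lin V lam' c') :
    ∃ a : ZMod 3, ∀ K, W.E K → ∀ u, W.m K u → lam u = a → X.c (emb K) none (some u) := by
  classical
  obtain ⟨K', hK'⟩ := finf_exists_E V
  -- copies
  have copy : ∀ (x : Ω) (b : Prop) (D : Finset Ω), ∃ y, y ∉ D ∧ (y ∈ W.I ↔ b) ∧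
      lam y = lam x ∧ lam' y = lam' x := by
    intro x b D
    obtain ⟨y, h1, _, h2, h3, h4⟩ := joint_minus W h hX hV {K'} (by simpa using hK') x b D
    exact ⟨y, h1, h2, h3, ((hV'.eqv K' hK' x y).1 (h4 K' (by simp))).symm⟩
  have copy_in : ∀ (x : Ω) (K : Tg Ω) (D : Finset Ω), ∃ y, y ∉ D ∧ W.m K y ∧
      lam y = lam x ∧ lam' y = lam' x := by
    intro x K D
    obtain ⟨y, h1, h2, h3, h4⟩ := copy x True (D ∪ K.support)
    simp only [Finset.mem_union, not_or] at h1
    exact ⟨y, h1.1, (mem_of_notMem_support W.I h1.2).2 (by simpa using h2), h3, h4⟩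
  have copy_out : ∀ (x : Ω) (K : Tg Ω) (D : Finset Ω), ∃ y, y ∉ D ∧ ¬ W.m K y ∧
      lam y = lam x ∧ lam' y = lam' x := by
    intro x K D
    obtain ⟨y, h1, h2, h3, h4⟩ := copy x False (D ∪ K.support)
    simp only [Finset.mem_union, not_or] at h1
    refine ⟨y, h1.1, fun hm => ?_, h3, h4⟩
    have := (mem_of_notMem_support W.I h1.2).1 hm
    simp [this] at h2
  -- edges `K + v` of `V`
  have hVE : ∀ K, W.E K → ∀ v, ¬ W.m K v → (V.E (K + t v) ↔ fsum W.I lam' K + lam' v = c') := by
    intro K hK v hv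
    have e1 : ¬ mem W.I K v := hv
    rw [hV'.E_iff, finf_lev hV, W.toPW.lev_out hv, W.toPW.lev_E hK, hV.I_eq, fsum_add_t,
      if_neg e1]
    simp
  -- (1)
  have step1 : ∀ x y, lam x = lam y → lam' x = lam' y := by
    intro x y hxy
    by_contra hne
    obtain ⟨K0, hK0⟩ := finf_exists_E W.toPW
    obtain ⟨x1, _, mx1, lx1, lx1'⟩ := copy_in x K0 ∅
    obtain ⟨x2, hx2, mx2, lx2, lx2'⟩ := copy_in x K0 {x1}
    obtain ⟨y1, _, my1, ly1, ly1'⟩ := copy_out y K0 ∅
    obtain ⟨y2, hy2, my2, ly2, ly2'⟩ := copy_out y K0 {y1}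
    have hx12 : x2 ≠ x1 := by simpa using hx2
    have hy12 : y2 ≠ y1 := by simpa using hy2
    have hxy11 := W.toPW.ne_of_m mx1 my1
    have hxy12 := W.toPW.ne_of_m mx1 my2
    have hxy21 := W.toPW.ne_of_m mx2 my1
    have hxy22 := W.toPW.ne_of_m mx2 my2
    have l11 : lam x1 = lam y1 := by rw [lx1, ly1, hxy]
    have l22 : lam x2 = lam y2 := by rw [lx2, ly2, hxy]
    set K1 := K0 + t x1 + t y1 with hK1d
    set K2 := K1 + t x2 + t y2 with hK2d
    have hK1 : W.E K1 := finf_exch W h hK0 mx1 my1 l11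
    have m1x2 : W.m K1 x2 := by
      rw [hK1d, W.toPW.m_ne _ (Ne.symm hxy21), W.toPW.m_ne _ (Ne.symm hx12)]; exact mx2
    have m1y2 : ¬ W.m K1 y2 := by
      rw [hK1d, W.toPW.m_ne _ (Ne.symm hy12), W.toPW.m_ne _ hxy12]; exact my2
    have hK2 : W.E K2 := finf_exch W h hK1 m1x2 m1y2 l22
    have m1x1 : ¬ W.m K1 x1 := by
      rw [hK1d, W.toPW.m_ne _ (Ne.symm hxy11), W.toPW.m_self]; simpa using mx1
    have m1y1 : W.m K1 y1 := by
      rw [hK1d, W.toPW.m_self, W.toPW.m_ne _ hxy11]; exact my1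
    have m2x2 : ¬ W.m K2 x2 := by
      rw [hK2d, W.toPW.m_ne _ (Ne.symm hxy22), W.toPW.m_self]; simpa using m1x2
    have m2y2 : W.m K2 y2 := by
      rw [hK2d, W.toPW.m_self, W.toPW.m_ne _ hxy22]; exact m1y2
    have b1 : K1 + t y1 + t x1 = K0 := by rw [hK1d]; abel_nf; simp
    have b2 : K2 + t y2 + t x2 = K1 := by rw [hK2d]; abel_nf; simp
    have f1 : fsum W.I lam' K1 = fsum W.I lam' K0 + (lam' y - lam' x) := by
      have e1 : mem W.I K0 x1 := mx1
      have e2 : ¬ mem W.I (K0 + t x1) y1 := fun hh => my1 ((W.toPW.m_ne K0 hxy11).1 hh)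
      rw [hK1d, fsum_add_t, fsum_add_t, if_pos e1, if_neg e2, lx1', ly1']; ring
    have f2 : fsum W.I lam' K2 = fsum W.I lam' K0 + 2 * (lam' y - lam' x) := by
      have e1 : mem W.I K1 x2 := m1x2
      have e2 : ¬ mem W.I (K1 + t x2) y2 := fun hh => m1y2 ((W.toPW.m_ne K1 hxy22).1 hh)
      rw [hK2d, fsum_add_t, fsum_add_t, if_pos e1, if_neg e2, lx2', ly2', f1]; ring
    -- all labels are related to the special element in `K0`
    have hall : ∀ b : ZMod 3, ∀ u, W.m K0 u → lam u = b → X.c (emb K0) none (some u) := by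
      intro b
      obtain ⟨v0, hv0⟩ := h.surj b
      have hδ : lam' y - lam' x ≠ 0 := fun e => hne (sub_eq_zero.1 e).symm
      have dec : ∀ f δ g c : ZMod 3, δ ≠ 0 → (f + g = c ∨ f + δ + g = c ∨ f + 2 * δ + g = c) := by
        decide
      have back1 : (∀ u, W.m K1 u → lam u = b → X.c (emb K1) none (some u)) →
          ∀ u, W.m K0 u → lam u = b → X.c (emb K0) none (some u) := by
        intro hb
        have := special_move W h hX hK1 m1y1 m1x1 l11.symm b hb
        rwa [b1] at this
      rcases dec (fsum W.I lam' K0) (lam' y - lam' x) (lam' v0) c' hδ with hc | hc | hc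
      · obtain ⟨v, _, mv, lv, lv'⟩ := copy_out v0 K0 ∅
        have hE : V.E (K0 + t v) := (hVE K0 hK0 v mv).2 (by rw [lv', hc])
        exact fun u hu hub => special_rel W h hX hV hK0 mv hE hu (by rw [hub, lv, hv0])
      · obtain ⟨v, _, mv, lv, lv'⟩ := copy_out v0 K1 ∅
        have hE : V.E (K1 + t v) := (hVE K1 hK1 v mv).2 (by rw [lv', f1, hc])
        exact back1 fun u hu hub => special_rel W h hX hV hK1 mv hE hu (by rw [hub, lv, hv0])
      · obtain ⟨v, _, mv, lv, lv'⟩ := copy_out v0 K2 ∅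
        have hE : V.E (K2 + t v) := (hVE K2 hK2 v mv).2 (by rw [lv', f2, hc])
        apply back1
        have := special_move W h hX hK2 m2y2 m2x2 l22.symm b
          (fun u hu hub => special_rel W h hX hV hK2 mv hE hu (by rw [hub, lv, hv0]))
        rwa [b2] at this
    obtain ⟨y', my', hc⟩ := W.two K0 x1 hK0 mx1
    apply hc
    rw [← hX.c_iff]
    have e0 : X.E (emb K0) := (hX.E_iff K0).2 hK0
    have e1 := hall _ x1 mx1 rfl
    have e2 := hall _ y' my' rfl
    have m1 : X.m (emb K0) (some x1) := (m_emb hX K0 x1).2 mx1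
    have m2 : X.m (emb K0) (some y') := (m_emb hX K0 y').2 my'
    have m0 := m_emb_none hX K0
    exact X.c_trans _ _ _ _ e0 m1 m0 m2 (X.c_symm _ _ _ e0 m0 m1 e1) e2
  -- (2)
  obtain ⟨g, hg⟩ := h.surj.hasRightInverse
  obtain ⟨u, w, huw⟩ := affine3 (fun b => lam' (g b)) (by
    intro b
    obtain ⟨x, hx⟩ := hV'.surj b
    refine ⟨lam x, ?_⟩
    change lam' (g (lam x)) = b
    rw [← hx]
    exact step1 _ _ (hg _))
  have hlam' : lam' = fun x => u * lam x + w := by
    funext x
    rw [← huw (lam x)]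
    exact step1 _ _ (hg _).symm
  obtain ⟨v0, hv0⟩ := hV'.surj (c' - (u * cE + w * ((-W.e0 : ℤ) : ZMod 3)))
  refine ⟨lam v0, fun K hK z hz hzl => ?_⟩
  obtain ⟨v, _, mv, lv, lv'⟩ := copy_out v0 K ∅
  have hKE := (h.E_iff K).1 hK
  have hcnt : cnt W.I Set.univ K = -W.e0 := by
    have := hKE.1
    unfold PW.lev at this
    linarith
  have hE : V.E (K + t v) := by
    rw [hVE K hK v mv, lv', hv0]
    have : fsum W.I lam' K = u * cE + w * ((-W.e0 : ℤ) : ZMod 3) := by
      rw [hlam', finf_affine, hKE.2, hcnt]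
    rw [this]; ring
  exact special_rel W h hX hV hK mv hE hz (by rw [hzl, lv])

end Pool.Agent.Lib.MP_a572be_co
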