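import Pool.Agent.Lib.MP_a572be_co.FinB
import Pool.Agent.Lib.MP_a572be_co.FinE

/-!
# Final assembly, part G: the case beta
-/

namespace Pool.Agent.Lib.MP_a572be_co

variable {r : ℕ} {Ω : Type}

/-- Levels in the world of the sets without the special element. -/
theorem fing_lev {W : PW r Ω} {X : PW r (Option Ω)} {V : PW r Ω}
    (hV : IsMinus W X V) (K : Tg Ω) : V.lev K = W.lev K - 1 := by
  unfold PW.lev
  rw [hV.I_eq, hV.e0_eq]; ring

/-- Membership in the world of the sets without the special element. -/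
theorem fing_m {W : PW r Ω} {X : PW r (Option Ω)} {V : PW r Ω}
    (hV : IsMinus W X V) (K : Tg Ω) (x : Ω) : V.m K x ↔ W.m K x := by
  unfold PW.m
  rw [hV.I_eq]

/-- Copies of an element with the same label. -/
theorem fing_copy (W : World r Ω) {lam : Ω → ZMod 3} {cE : ZMod 3} (h : Lin W.toPW lam cE)
    {K : Tg Ω} (hK : W.E K) (a : ZMod 3) (b : Prop) (D : Finset Ω) :
    ∃ y, y ∉ D ∧ (y ∈ W.I ↔ b) ∧ lam y = a := by
  obtain ⟨x, hx⟩ := h.surj a
  obtain ⟨y, h1, _, h2, h3⟩ := W.toPW.joint {K} (by simpa using hK) (W.notP x) b D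
  exact ⟨y, h1, h2, by rw [← hx]; exact ((h.eqv K hK x y).1 (h3 K (by simp))).symm⟩

theorem fing_in (W : World r Ω) {lam : Ω → ZMod 3} {cE : ZMod 3} (h : Lin W.toPW lam cE)
    {K : Tg Ω} (hK : W.E K) (a : ZMod 3) (L : Tg Ω) (D : Finset Ω) :
    ∃ y, y ∉ D ∧ W.m L y ∧ lam y = a := by
  classical
  obtain ⟨y, h1, h2, h3⟩ := fing_copy W h hK a True (D ∪ L.support)
  simp only [Finset.mem_union, not_or] at h1
  exact ⟨y, h1.1, (mem_of_notMem_support W.I h1.2).2 (by simpa using h2), h3⟩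

theorem fing_out (W : World r Ω) {lam : Ω → ZMod 3} {cE : ZMod 3} (h : Lin W.toPW lam cE)
    {K : Tg Ω} (hK : W.E K) (a : ZMod 3) (L : Tg Ω) (D : Finset Ω) :
    ∃ y, y ∉ D ∧ ¬ W.m L y ∧ lam y = a := by
  classical
  obtain ⟨y, h1, h2, h3⟩ := fing_copy W h hK a False (D ∪ L.support)
  simp only [Finset.mem_union, not_or] at h1
  refine ⟨y, h1.1, fun hm => ?_, h3⟩
  have := (mem_of_notMem_support W.I h1.2).1 hm
  simp [this] at h2

/-- In an edge a replacement of `x` by `v` gives an edge only if the labels agree. -/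
theorem fing_exch (W : World r Ω) {lam : Ω → ZMod 3} {cE : ZMod 3} (h : Lin W.toPW lam cE)
    {K : Tg Ω} (hK : W.E K) {x v : Ω} (hx : W.m K x) (hE : W.E (K + t x + t v)) :
    lam x = lam v := by
  have h1 := (h.E_iff K).1 hK
  have h2 := (h.E_iff _).1 hE
  have hv' := W.toPW.not_m_of_E (W.toPW.lev_S hK hx) hE
  have e1 : mem W.I K x := hx
  have e2 : ¬ mem W.I (K + t x) v := hv'
  have h3 := h2.2
  rw [fsum_add_t, fsum_add_t, if_pos e1, if_neg e2, h1.2] at h3
  have h4 : lam v - lam x = 0 := by linear_combination h3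
  exact (sub_eq_zero.1 h4).symm

/-- `ρ` is constant on `A` in a two-class component. -/
theorem fing_rho (V : World r Ω) {K K' : Tg Ω} {A : Set Ω} (hT : V.Two K A)
    (hc : V.Conn K K') {a : Ω} (ha : a ∈ A) (ma : V.m K a) :
    ∀ a', a' ∈ A → V.m K' a' → V.ρ K a = V.ρ K' a' := by
  induction hc with
  | refl =>
    intro a' ha' ma'
    exact V.ρ_c K a a' hT.1 ma ma'
      (((V.ctwo_of_two hT).2.1 a a' ma ma').2 ⟨fun _ => ha', fun _ => ha⟩)
  | tail h1 h2 ih =>
    obtain ⟨hE, hE', x, v, hx, hv, rfl⟩ := h2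
    intro a' ha' ma'
    by_cases hav : a' = v
    · subst hav
      have hxA : x ∈ A := (V.two_exch hT h1 hx hv hE').2 ha'
      rw [V.ρ_move' _ x a' hE hx hv hE']
      exact ih x hxA hx
    · rw [V.toPW.m_ne _ (Ne.symm hav)] at ma'
      have hax : a' ≠ x := by
        rintro rfl
        rw [V.toPW.m_self] at ma'
        exact ma' hx
      rw [V.toPW.m_ne _ (Ne.symm hax)] at ma'
      rw [V.ρ_move _ x v a' hE hx hv hE' ma' hax]
      exact ih a' ha' ma'

/-- The complement of a two-class component. -/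
theorem fing_two_compl (V : PW r Ω) {K : Tg Ω} {A : Set Ω} (hT : V.Two K A) : V.Two K Aᶜ := by
  refine ⟨hT.1, fun x y => ?_, hT.2.2.2, by rw [compl_compl]; exact hT.2.2.1⟩
  rw [hT.2.1 x y, Set.mem_compl_iff, Set.mem_compl_iff, not_iff_not]

/-- A predicate on `ZMod 3` which is neither always true nor always false. -/
theorem fing_pred : ∀ P : ZMod 3 → Bool, (∃ a, P a = true) → (∃ b, P b = false) →
    ∃ c, (∀ s, P s = true ↔ s ≠ c) ∨ (∀ s, P s = true ↔ s = c) := by
  decide

/-- (beta 1) In a two-class component of `V` the two classes are unions of labels, one of them a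
single label. Let `Two K A` in `V`. Let `g ∈ K` with `K - g` an edge of `W` (`lin_drop`). Elements
`a, b ∈ K`, different from `g`, with `lam a = lam b` are equivalent in the component of `K - g` in `W`
so related by `W.c (K - g)`, hence by `V.c K` (`minus_move`), so `a ∈ A ↔ b ∈ A` (`ctwo_of_two` for
`V`). For `x, y ∈ Ω` with `lam x = lam y` take copies in `K`, different from `g`, with the same `lam`
and equivalent in the component of `K` in `V` (`joint_minus` with `F = {K}`). So `A` is a union of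
fibres of `lam`; `A` and its complement are nonempty, so one of them is one fibre. -/
theorem beta_classes (W : World r Ω) {lam : Ω → ZMod 3} {cE : ZMod 3} (h : Lin W.toPW lam cE)
    {X : PW r (Option Ω)} (hX : IsExt W.toPW X) (V : World r Ω) (hV : IsMinus W.toPW X V.toPW)
    {K : Tg Ω} {A : Set Ω} (hT : V.Two K A) :
    ∃ c : ZMod 3, (Aᶜ = {x | lam x = c}) ∨ (A = {x | lam x = c}) := by
  classical
  have hlev : W.lev K = 1 := by
    have h1 := V.toPW.lev_E hT.1
    rw [fing_lev hV] at h1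
    linarith
  have key : ∀ x y, lam x = lam y → (x ∈ A ↔ y ∈ A) := by
    intro x y hxy
    obtain ⟨x', hx'D, _, hx'I, lx', ex'⟩ := joint_minus W h hX hV {K} (by simpa using hT.1) x True
      K.support
    obtain ⟨y', hy'D, _, hy'I, ly', ey'⟩ := joint_minus W h hX hV {K} (by simpa using hT.1) y True
      K.support
    have mx' : W.m K x' := (mem_of_notMem_support W.I hx'D).2 (by simpa using hx'I)
    have my' : W.m K y' := (mem_of_notMem_support W.I hy'D).2 (by simpa using hy'I)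
    obtain ⟨g, hgD, mg, _, hE⟩ := lin_drop W h hlev {x', y'}
    simp only [Finset.mem_insert, Finset.mem_singleton, not_or] at hgD
    have nx : x' ≠ g := Ne.symm hgD.1
    have ny : y' ≠ g := Ne.symm hgD.2
    have m1 : W.m (K + t g) x' := (W.toPW.m_ne _ (Ne.symm nx)).2 mx'
    have m2 : W.m (K + t g) y' := (W.toPW.m_ne _ (Ne.symm ny)).2 my'
    have e1 : W.Eqv (K + t g) x' y' := (h.eqv _ hE x' y').2 (by rw [lx', ly', hxy])
    have e2 : W.c (K + t g) x' y' := W.toPW.c_of_eqv W.P_empty hE m1 m2 e1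
    have e3 : V.c K x' y' := ((minus_move hX hV hT.1 mg hE).1 x' y' mx' my' nx ny).2 e2
    have e4 : x' ∈ A ↔ y' ∈ A := ((V.ctwo_of_two hT).2.1 x' y' ((fing_m hV K x').2 mx')
      ((fing_m hV K y').2 my')).1 e3
    have e5 : x ∈ A ↔ x' ∈ A := (hT.2.1 x x').1 (ex' K (by simp))
    have e6 : y ∈ A ↔ y' ∈ A := (hT.2.1 y y').1 (ey' K (by simp))
    rw [e5, e4, e6]
  obtain ⟨g, hg⟩ := h.surj.hasRightInverse
  have hP : ∀ x, x ∈ A ↔ g (lam x) ∈ A := fun x => key _ _ (hg _).symm
  obtain ⟨a, ha⟩ := hT.2.2.1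
  obtain ⟨b, hb⟩ := hT.2.2.2
  have ha' := (hP a).1 ha
  have hb' : ¬ g (lam b) ∈ A := fun hh => hb ((hP b).2 hh)
  obtain ⟨c, hc | hc⟩ := fing_pred (fun s => decide (g s ∈ A)) ⟨lam a, by simpa using ha'⟩
    ⟨lam b, by simpa using hb'⟩
  · refine ⟨c, Or.inl ?_⟩
    ext x
    have h1 := hc (lam x)
    simp only [decide_eq_true_eq] at h1
    rw [Set.mem_compl_iff, hP x, h1]
    exact not_not
  · refine ⟨c, Or.inr ?_⟩
    ext x
    have h1 := hc (lam x)
    simp only [decide_eq_true_eq] at h1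
    rw [hP x, h1]
    exact Iff.rfl

/-- (beta 2) `P1` holds in `V` for each single label `c`. Let `a`, `b` be the other two labels, `K` an
edge of `W`, `x, y ∈ K` with `lam x = a`, `lam y = b` (`joint`). If `S`, `S'` violated `P1` in `V`, the four
level `-1` sets `emb S + t none`, `emb S' + t none`, `emb (K - x)`, `emb (K - y)` of `X` would be
pairwise disjoint (outside `none`; the neighbours `v` of `K - x` have `lam v = a`), contradicting
`X.four`. -/
theorem beta_P1 (W : World r Ω) {lam : Ω → ZMod 3} {cE : ZMod 3} (h : Lin W.toPW lam cE)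
    {X : PW r (Option Ω)} (hX : IsExt W.toPW X) (V : World r Ω) (hV : IsMinus W.toPW X V.toPW)
    (hE : ∃ K, W.E K) (c : ZMod 3) : V.P1 {x | lam x = c} := by
  classical
  obtain ⟨K, hK⟩ := hE
  intro S S' hS hS' hN hN'
  by_contra hcon
  push Not at hcon
  have hab : ∀ c : ZMod 3, ∃ a b : ZMod 3, a ≠ b ∧ a ≠ c ∧ b ≠ c := by decide
  obtain ⟨a, b, nab, nac, nbc⟩ := hab c
  obtain ⟨x, _, mx, lx⟩ := fing_in W h hK a K ∅
  obtain ⟨y, _, my, ly⟩ := fing_in W h hK b K ∅
  have s1 : X.lev (emb S + t none) = -1 := by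
    rw [lev_emb_minus hX]; rw [fing_lev hV] at hS; exact hS
  have s2 : X.lev (emb S' + t none) = -1 := by
    rw [lev_emb_minus hX]; rw [fing_lev hV] at hS'; exact hS'
  have s3 : X.lev (emb (K + t x)) = -1 := by rw [lev_emb hX]; exact W.toPW.lev_S hK mx
  have s4 : X.lev (emb (K + t y)) = -1 := by rw [lev_emb hX]; exact W.toPW.lev_S hK my
  obtain ⟨i, j, hij, hd⟩ := X.four ![emb S + t none, emb S' + t none, emb (K + t x),
    emb (K + t y)] (by
    intro i; fin_cases i
    · exact s1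
    · exact s2
    · exact s3
    · exact s4)
  unfold PW.Dj at hd
  push Not at hd
  obtain ⟨v, hv, h1, h2⟩ := hd
  rw [hX.P_eq] at hv
  obtain ⟨v, rfl⟩ : ∃ v', v = some v' := by
    cases v with
    | none => exact absurd rfl hv
    | some v' => exact ⟨v', rfl⟩
  have f1 : X.E (emb S + t none + t (some v)) → lam v = c ∧ V.E (S + t v) := by
    intro hE
    have h3 : V.E (S + t v) := by
      rw [hV.E_iff, emb_add_t, tg_comm]; exact hE
    exact ⟨hN v h3, h3⟩
  have f2 : X.E (emb S' + t none + t (some v)) → lam v = c ∧ V.E (S' + t v) := by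
    intro hE
    have h3 : V.E (S' + t v) := by
      rw [hV.E_iff, emb_add_t, tg_comm]; exact hE
    exact ⟨hN' v h3, h3⟩
  have f3 : X.E (emb (K + t x) + t (some v)) → lam v = a := by
    intro hE
    rw [← emb_add_t, hX.E_iff] at hE
    rw [← fing_exch W h hK mx hE, lx]
  have f4 : X.E (emb (K + t y) + t (some v)) → lam v = b := by
    intro hE
    rw [← emb_add_t, hX.E_iff] at hE
    rw [← fing_exch W h hK my hE, ly]
  have g12 : ¬ (X.E (emb S + t none + t (some v)) ∧ X.E (emb S' + t none + t (some v))) :=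
    fun ⟨e1, e2⟩ => hcon v (f1 e1).2 (f2 e2).2
  have g13 : ¬ (X.E (emb S + t none + t (some v)) ∧ X.E (emb (K + t x) + t (some v))) :=
    fun ⟨e1, e2⟩ => nac ((f3 e2).symm.trans (f1 e1).1)
  have g14 : ¬ (X.E (emb S + t none + t (some v)) ∧ X.E (emb (K + t y) + t (some v))) :=
    fun ⟨e1, e2⟩ => nbc ((f4 e2).symm.trans (f1 e1).1)
  have g23 : ¬ (X.E (emb S' + t none + t (some v)) ∧ X.E (emb (K + t x) + t (some v))) :=
    fun ⟨e1, e2⟩ => nac ((f3 e2).symm.trans (f2 e1).1)
  have g24 : ¬ (X.E (emb S' + t none + t (some v)) ∧ X.E (emb (K + t y) + t (some v))) :=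
    fun ⟨e1, e2⟩ => nbc ((f4 e2).symm.trans (f2 e1).1)
  have g34 : ¬ (X.E (emb (K + t x) + t (some v)) ∧ X.E (emb (K + t y) + t (some v))) :=
    fun ⟨e1, e2⟩ => nab ((f3 e1).symm.trans (f4 e2))
  fin_cases i <;> fin_cases j
  · exact hij rfl
  · exact g12 ⟨h1, h2⟩
  · exact g13 ⟨h1, h2⟩
  · exact g14 ⟨h1, h2⟩
  · exact g12 ⟨h2, h1⟩
  · exact hij rfl
  · exact g23 ⟨h1, h2⟩
  · exact g24 ⟨h1, h2⟩
  · exact g13 ⟨h2, h1⟩
  · exact g23 ⟨h2, h1⟩
  · exact hij rfl
  · exact g34 ⟨h1, h2⟩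
  · exact g14 ⟨h2, h1⟩
  · exact g24 ⟨h2, h1⟩
  · exact g34 ⟨h2, h1⟩
  · exact hij rfl

/-- The edges of the link of `M1`. -/
theorem fing_link (W : World r Ω) {lam : Ω → ZMod 3} {cE : ZMod 3} (h : Lin W.toPW lam cE)
    {M1 : Tg Ω} (hM : W.lev M1 = -2) {c : ZMod 3} (hc : fsum W.I lam M1 - c = cE)
    {x y : Ω} (mx : ¬ W.m M1 x) (my : ¬ W.m M1 y) (hxy : x ≠ y) :
    W.E (M1 + t x + t y) ↔ lam x + lam y = -c := by
  have e1 : ¬ mem W.I M1 x := mx
  have e2 : ¬ W.m (M1 + t x) y := by rw [W.toPW.m_ne _ hxy]; exact my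
  have e3 : ¬ mem W.I (M1 + t x) y := e2
  rw [h.E_iff, W.toPW.lev_out e2, W.toPW.lev_out mx, hM, fsum_add_t, fsum_add_t, if_neg e1,
    if_neg e3]
  constructor
  · rintro ⟨_, h2⟩
    linear_combination h2 - hc
  · intro h2
    exact ⟨by norm_num, by linear_combination h2 + hc⟩

/-- Connecting two edges of the link with the same labels. -/
theorem fing_conn (W : World r Ω) {lam : Ω → ZMod 3} {cE : ZMod 3} (h : Lin W.toPW lam cE)
    {M1 : Tg Ω} (hM : W.lev M1 = -2) {c : ZMod 3} (hc : fsum W.I lam M1 - c = cE)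
    {a b a' b' : Ω} (ma : ¬ W.m M1 a) (mb : ¬ W.m M1 b) (ma' : ¬ W.m M1 a') (mb' : ¬ W.m M1 b')
    (hab : a ≠ b) (hab' : a' ≠ b') (la : lam a = lam a') (lb : lam b = lam b')
    (hE : W.E (M1 + t a + t b)) : W.Conn (M1 + t a + t b) (M1 + t a' + t b') := by
  classical
  have hl := (fing_link W h hM hc ma mb hab).1 hE
  -- one step
  have step : ∀ {p q p' : Ω}, ¬ W.m M1 p → ¬ W.m M1 q → ¬ W.m M1 p' → p ≠ q → p' ≠ q →
      lam p = lam p' → lam p + lam q = -c → W.Conn (M1 + t p + t q) (M1 + t p' + t q) := by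
    intro p q p' mp mq mp' hpq hpq' hl hs
    by_cases hpp : p = p'
    · subst hpp; exact W.toPW.conn_refl _
    have hE1 : W.E (M1 + t p + t q) := (fing_link W h hM hc mp mq hpq).2 hs
    have hE2 : W.E (M1 + t p' + t q) := (fing_link W h hM hc mp' mq hpq').2 (by rw [← hl]; exact hs)
    have e : M1 + t p + t q + t p + t p' = M1 + t p' + t q := by abel_nf; simp
    have m1 : W.m (M1 + t p + t q) p := by
      rw [W.toPW.m_ne _ (Ne.symm hpq), W.toPW.m_self]; exact mp
    have m2 : ¬ W.m (M1 + t p + t q) p' := by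
      rw [W.toPW.m_ne _ (Ne.symm hpq'), W.toPW.m_ne _ hpp]; exact mp'
    have := W.toPW.conn_mk hE1 m1 m2 (by rw [e]; exact hE2)
    rwa [e] at this
  by_cases h1 : a' = b
  · by_cases h2 : b' = a
    · subst h1 h2
      rw [tg_comm M1 a' b']
      exact W.toPW.conn_refl _
    · have s1 : W.Conn (M1 + t b + t a) (M1 + t b' + t a) :=
        step mb ma mb' (Ne.symm hab) h2 lb (by rw [add_comm]; exact hl)
      have s2 : W.Conn (M1 + t a + t b') (M1 + t a' + t b') :=
        step ma mb' ma' (Ne.symm h2) hab' la (by rw [← lb]; exact hl)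
      rw [tg_comm M1 b a, tg_comm M1 b' a] at s1
      exact W.toPW.conn_trans s1 s2
  · have s1 : W.Conn (M1 + t a + t b) (M1 + t a' + t b) := step ma mb ma' hab h1 la hl
    have s2 : W.Conn (M1 + t b + t a') (M1 + t b' + t a') :=
      step mb ma' mb' (fun e => h1 e.symm) (Ne.symm hab') lb (by rw [add_comm, ← la]; exact hl)
    rw [tg_comm M1 b a', tg_comm M1 b' a'] at s2
    exact W.toPW.conn_trans s1 s2

/-- (beta 3) The link of a level `-2` set `M1` of `W` in the linear case: let `c : ZMod 3`,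
`A = {x | lam x ≠ c}`, and suppose `fsum M1 - c = cE`, i.e. `M1 + x + y` (`x, y ∉ M1` distinct) is an
edge iff `lam x + lam y = -c`: that is, both labels are `c`, or they are the two other labels. Suppose
that some edge `K1 = M1 + y1 + y2` with `lam y1 ≠ c`, `lam y2 ≠ c`, and some edge `K2 = M1 + z + w` with
`lam z = lam w = c` satisfy `CTwo _ A`. Then for all extensions `X'` the labels of the special element
at `K1` and `K2` agree. Proof: `ex_base` for `M1` and `A`. `h0` by the formula for edges. `h1`: if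
`x, y ∈ A`, `M1 + x + y` an edge then `{lam x, lam y} = {lam y1, lam y2}` and `K1` is connected to it by
at most two exchanges of elements with the same label (`M1 + y1 + y2 → M1 + x + y2 → M1 + x + y` if
`lam x = lam y1`, note `x ≠ y2`), so `ctwo_conn`, `xlab_conn`. `h2` similarly (`z → x`, `w → y`; if
`x = w` or `y = z` use the other order). `c1` with `D0 = ∅`: `x, y ∈ A` are adjacent if their labels
differ; if they are equal both are adjacent to a common element of the other label, different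
from `v` and outside `M1`. `c2`: any two distinct elements of label `c` are adjacent. -/
theorem beta_ex (W : World r Ω) {lam : Ω → ZMod 3} {cE : ZMod 3} (h : Lin W.toPW lam cE)
    {M1 : Tg Ω} (hM : W.lev M1 = -2) {c : ZMod 3} (hc : fsum W.I lam M1 - c = cE)
    {y1 y2 z w : Ω} (m1 : ¬ W.m M1 y1) (m2 : ¬ W.m M1 y2) (m3 : ¬ W.m M1 z) (m4 : ¬ W.m M1 w)
    (n12 : y1 ≠ y2) (nzw : z ≠ w) (l1 : lam y1 ≠ c) (l2 : lam y2 ≠ c) (l3 : lam z = c)
    (l4 : lam w = c)
    (hK1 : W.CTwo (M1 + t y1 + t y2) {x | lam x ≠ c})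
    (hK2 : W.CTwo (M1 + t z + t w) {x | lam x ≠ c}) :
    ∀ X : PW r (Option Ω), IsExt W.toPW X → ∀ ε1 ε2 : Prop,
      W.XLab X (M1 + t y1 + t y2) {x | lam x ≠ c} ε1 →
      W.XLab X (M1 + t z + t w) {x | lam x ≠ c} ε2 → (ε1 ↔ ε2) := by
  classical
  intro X hX ε1 ε2 hl1 hl2
  have hE1 := hK1.1
  have hE2 := hK2.1
  have hs1 := (fing_link W h hM hc m1 m2 n12).1 hE1
  have hs2 := (fing_link W h hM hc m3 m4 nzw).1 hE2
  have not_loop : ∀ {x y}, W.E (M1 + t x + t y) → x ≠ y := by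
    rintro x y hE rfl
    have := W.toPW.lev_E hE
    rw [tg_add_t_t, hM] at this
    norm_num at this
  have d1 : ∀ c p q x y : ZMod 3, p ≠ c → q ≠ c → p + q = -c → x ≠ c → y ≠ c → x + y = -c →
      (p = x ∧ q = y) ∨ (q = x ∧ p = y) := by decide
  have d2 : ∀ c x y : ZMod 3, x ≠ c → y ≠ c → x ≠ y → x + y = -c := by decide
  have d3 : ∀ c x : ZMod 3, x ≠ c → ∃ e, e ≠ c ∧ e ≠ x ∧ x + e = -c := by decide
  have d4 : ∀ c : ZMod 3, c + c = -c := by decide
  have d5 : ∀ c x y : ZMod 3, x + y = -c → x = c → y = c := by decide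
  refine W.toPW.ex_base W.P_empty hX hM {x | lam x ≠ c} ε1 ε2 ?_ ?_ ?_ ?_ ?_ ?_ ?_
  · intro D
    obtain ⟨x, h1, h2, h3⟩ := fing_out W h hE1 (lam y1) M1 D
    exact ⟨x, h1, by simpa [h3] using l1, h2⟩
  · intro D
    obtain ⟨x, h1, h2, h3⟩ := fing_out W h hE1 c M1 D
    exact ⟨x, h1, by simpa using h3, h2⟩
  · intro x y hx hy mx my hE
    have hxy := not_loop hE
    have hy' : lam y = c := by simpa using hy
    have hs := (fing_link W h hM hc mx my hxy).1 hE
    exact hx (d5 c (lam y) (lam x) (by rw [add_comm]; exact hs) hy')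
  · intro x y hx hy mx my hE
    have hxy := not_loop hE
    have hs := (fing_link W h hM hc mx my hxy).1 hE
    have hcn : W.Conn (M1 + t y1 + t y2) (M1 + t x + t y) := by
      rcases d1 c _ _ _ _ l1 l2 hs1 hx hy hs with ⟨e1, e2⟩ | ⟨e1, e2⟩
      · exact fing_conn W h hM hc m1 m2 mx my n12 hxy e1 e2 hE1
      · rw [tg_comm M1 y1 y2]
        exact fing_conn W h hM hc m2 m1 mx my (Ne.symm n12) hxy e1 e2
          (by rw [tg_comm M1 y2 y1]; exact hE1)
    exact ⟨W.toPW.ctwo_conn W.P_empty hK1 hcn, W.toPW.xlab_conn W.P_empty hX hK1 hl1 hcn⟩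
  · intro x y hx hy mx my hE
    have hxy := not_loop hE
    have hx' : lam x = c := by simpa using hx
    have hy' : lam y = c := by simpa using hy
    have hcn : W.Conn (M1 + t z + t w) (M1 + t x + t y) :=
      fing_conn W h hM hc m3 m4 mx my nzw hxy (by rw [l3, hx']) (by rw [l4, hy']) hE2
    exact ⟨W.toPW.ctwo_conn W.P_empty hK2 hcn, W.toPW.xlab_conn W.P_empty hX hK2 hl2 hcn⟩
  · refine ⟨∅, fun v _ x y hx hy mx my hxv hyv => ?_⟩
    have adj : ∀ {p q}, lam p ≠ c → lam q ≠ c → ¬ W.m M1 p → ¬ W.m M1 q → lam p ≠ lam q →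
        W.E (M1 + t p + t q) := by
      intro p q hp hq mp mq hpq
      exact (fing_link W h hM hc mp mq (fun e => hpq (by rw [e]))).2 (d2 c _ _ hp hq hpq)
    by_cases hxy : lam x = lam y
    · obtain ⟨e, he1, he2, _⟩ := d3 c (lam x) hx
      obtain ⟨p, hpD, mp, lp⟩ := fing_out W h hE1 e M1 {v}
      have hpv : p ≠ v := by simpa using hpD
      refine Relation.ReflTransGen.tail (Relation.ReflTransGen.single
        ⟨hx, ?_, hxv, hpv, mx, mp, adj hx (by rw [lp]; exact he1) mx mp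
          (by rw [lp]; exact Ne.symm he2)⟩) ⟨?_, hy, hpv, hyv, mp, my,
          adj (by rw [lp]; exact he1) hy mp my (by rw [lp, ← hxy]; exact he2)⟩
      · simpa [lp] using he1
      · simpa [lp] using he1
    · exact Relation.ReflTransGen.single ⟨hx, hy, hxv, hyv, mx, my, adj hx hy mx my hxy⟩
  · refine ⟨∅, fun v _ x y hx hy mx my hxv hyv => ?_⟩
    by_cases hxy : x = y
    · subst hxy; exact Relation.ReflTransGen.refl
    · have hx' : lam x = c := by simpa using hx
      have hy' : lam y = c := by simpa using hy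
      refine Relation.ReflTransGen.single ⟨hx, hy, hxv, hyv, mx, my, ?_⟩
      exact (fing_link W h hM hc mx my hxy).2 (by rw [hx', hy']; exact d4 c)

/-- Two-class edges of `V` give two-class edges of `W`. -/
theorem fing_ctwo (W : World r Ω) {lam : Ω → ZMod 3} {cE : ZMod 3} (h : Lin W.toPW lam cE)
    {X : PW r (Option Ω)} (hX : IsExt W.toPW X) (V : World r Ω) (hV : IsMinus W.toPW X V.toPW)
    {K : Tg Ω} {g : Ω} {c : ZMod 3} (hT : V.Two K {x | lam x ≠ c}) (mg : W.m K g)
    (hE : W.E (K + t g)) : W.CTwo (K + t g) {x | lam x ≠ c} := by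
  have hm : ∀ a, W.m (K + t g) a → a ≠ g ∧ W.m K a := by
    intro a ha
    have hne : a ≠ g := by
      rintro rfl
      rw [W.toPW.m_self] at ha
      exact ha mg
    exact ⟨hne, by rwa [W.toPW.m_ne _ (Ne.symm hne)] at ha⟩
  refine ⟨hE, ?_, ?_, ?_, ?_⟩
  · intro a b ha hb
    obtain ⟨a1, a2⟩ := hm a ha
    obtain ⟨b1, b2⟩ := hm b hb
    rw [← (minus_move hX hV hT.1 mg hE).1 a b a2 b2 a1 b1]
    exact (V.ctwo_of_two hT).2.1 a b ((fing_m hV K a).2 a2) ((fing_m hV K b).2 b2)
  · intro a v ha _ hE'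
    have hl := fing_exch W h hE ha hE'
    simp only [Set.mem_ofPred_eq, hl]
  · have hp : ∀ c : ZMod 3, ∃ p : ZMod 3, p ≠ c := by decide
    obtain ⟨p, hp⟩ := hp c
    obtain ⟨x, _, mx, lx⟩ := fing_in W h hE p (K + t g) ∅
    exact ⟨x, by simpa [lx] using hp, mx⟩
  · obtain ⟨x, _, mx, lx⟩ := fing_in W h hE c (K + t g) ∅
    exact ⟨x, by simpa using lx, mx⟩

/-- **Case beta** is impossible. Let `Two K A` in `V`. By `beta_classes` we may assume
`A = {x | lam x ≠ c}` (replace `A` by its complement if necessary), and `P1 Aᶜ` in `V` by `beta_P1`.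
Apply `chain_false` to `V`. For `hstep` let `JumpAt M A (M+i+l) (M+z+w)` in `V`.
By `con1` there is a path in the link of `M` inside `A` from an element of one label to an element
of another label, so there are adjacent `y1, y2 ∈ A` (`V.E (M+y1+y2)`, outside `M`) with different
labels `≠ c`. Let `X1 = M + y1 + y2`, `X2 = M + z + w`. They have the same `fsum` as
`lam y1 + lam y2 = -c = 2 c` and `W.lev = 1`. By `lin_drop` for `X1`, avoiding `y1, y2, z, w` and the
support of `M`, choose `g ∈ M` with `K1 = X1 - g` an edge of `W`; then `K2 = X2 - g` is an edge of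
`W`. `M1 = M - g` has level `-2` in `W`. `CTwo K1 A` in `W`: the classes by `minus_move` and
`ctwo_of_two` (in `V`, `X1` is in the component of `M+i+l` by `nbr1`), exchanges in `W` preserve
`lam`. Similarly `CTwo K2 A`. By `beta_ex` and `flip_size`,
`ρ K1 a - ρ K2 a' = cnt A K1 - cnt A K2 = 2` and `ρ K1 a ≠ 0`. By `minus_move`, `V.ρ X1 a = W.ρ K1 a`,
`V.ρ X2 a' = W.ρ K2 a'` for `a, a' ≠ g`. Finally `V.ρ X1 a = V.ρ (M+i+l) a''` since both are in the
same two-class component of `V` (`ρ_move`, `ρ_c`; as in `chain_false`). -/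
theorem lin_beta (L : LimitData r Ω) (hr : 0 < r) (h2 : ¬ 2 ∣ r) {lam : Ω → ZMod 3}
    {cE : ZMod 3} (h : Lin L.W lam cE) {X : PW r (Option Ω)} (hX : IsExt L.W X)
    (V : World r Ω) (hV : IsMinus L.W X V.toPW) : V.Three := by
  classical
  -- work with the world `L.world`
  obtain ⟨W, hW⟩ : ∃ W : World r Ω, W = L.world := ⟨_, rfl⟩
  have hWL : W.toPW = L.W := by rw [hW]; rfl
  rw [← hWL] at h hX hV
  have hflip : ∀ {K1 K2 : Tg Ω} {A : Set Ω}, W.CTwo K1 A → W.CTwo K2 A →
      (∀ X : PW r (Option Ω), IsExt W.toPW X → ∀ ε1 ε2 : Prop, W.XLab X K1 A ε1 →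
        W.XLab X K2 A ε2 → (ε1 ↔ ε2)) → ∀ {a a' : Ω}, a ∈ A → W.m K1 a → a' ∈ A →
      W.m K2 a' → W.ρ K1 a - W.ρ K2 a' = ((cnt W.I A K1 - cnt W.I A K2 : ℤ) : ZMod r) ∧
      W.ρ K1 a ≠ 0 := by
    rw [hWL]
    intro K1 K2 A g1 g2 g3 a a' g4 g5 g6 g7
    exact flip_size L g1 g2 g3 g4 g5 g6 g7
  -- the case of a single label outside `A`
  have main : ∀ (K : Tg Ω) (c : ZMod 3), V.Two K {x | lam x ≠ c} → False := by
    intro K0 c hT0
    have hlev0 : W.lev K0 = 1 := by
      have h1 := V.toPW.lev_E hT0.1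
      rw [fing_lev hV] at h1
      linarith
    obtain ⟨g0, _, _, _, hKE⟩ := lin_drop W h hlev0 ∅
    have hcompl : ({x | lam x ≠ c} : Set Ω)ᶜ = {x | lam x = c} := by
      ext x
      simp
    refine chain_false V hr h2 (A := {x | lam x ≠ c}) ?_ ?_ hT0
    · rw [hcompl]
      exact beta_P1 W h hX V hV ⟨_, hKE⟩ c
    intro M i l z w hi hl hil mi ml hz hw hzw mz mw hJ a a' ha ma ha' ma'
    have hz' : lam z = c := by simpa using hz
    have hw' : lam w = c := by simpa using hw
    -- an edge of the link with two different labels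
    have hlab : ∀ c : ZMod 3, ∃ p q : ZMod 3, p ≠ q ∧ p ≠ c ∧ q ≠ c := by decide
    obtain ⟨p, q, hpq, hpc, hqc⟩ := hlab c
    obtain ⟨x, _, mx, lx⟩ := fing_out W h hKE p M ∅
    obtain ⟨y, hy0, my, ly⟩ := fing_out W h hKE q M ∅
    have hy12 : ∃ y1 y2, lam y1 ≠ c ∧ lam y2 ≠ c ∧ ¬ V.m M y1 ∧ ¬ V.m M y2 ∧
        V.E (M + t y1 + t y2) ∧ lam y1 ≠ lam y2 := by
      by_contra hcon
      push Not at hcon
      obtain ⟨D0, hD0⟩ := hJ.con1
      obtain ⟨v, _, hv⟩ := V.infI.exists_notMem_finset (D0 ∪ {x, y})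
      simp only [Finset.mem_union, Finset.mem_insert, Finset.mem_singleton, not_or] at hv
      have hpath := hD0 v hv.1 x y (by simpa [lx] using hpc) (by simpa [ly] using hqc)
        (by rw [fing_m hV]; exact mx) (by rw [fing_m hV]; exact my) (Ne.symm hv.2.1)
        (Ne.symm hv.2.2)
      have hconst : lam x = lam y := by
        clear my ly hv hy0
        unfold PW.LinkConn at hpath
        induction hpath with
        | refl => rfl
        | tail _ h4 ih =>
          obtain ⟨k1, k2, _, _, k5, k6, k7⟩ := h4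
          exact ih.trans (hcon _ _ k1 k2 k5 k6 k7)
      exact hpq (by rw [← lx, ← ly, hconst])
    obtain ⟨y1, y2, l1, l2, n1, n2, hE12, l12⟩ := hy12
    have n12 : y1 ≠ y2 := fun e => l12 (by rw [e])
    have hmV : ∀ L x, V.m L x ↔ W.m L x := fun L x => fing_m hV L x
    rw [hmV] at n1 n2 mz mw
    have hlev1 : W.lev (M + t y1 + t y2) = 1 := by
      have h1 := V.toPW.lev_E hE12
      rw [fing_lev hV] at h1
      linarith
    obtain ⟨g, hgD, mg, lg, hEg⟩ := lin_drop W h hlev1 {y1, y2, z, w}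
    simp only [Finset.mem_insert, Finset.mem_singleton, not_or] at hgD
    obtain ⟨gy1, gy2, gz, gw⟩ := hgD
    have mgM : W.m M g := by
      rwa [W.toPW.m_ne _ (Ne.symm gy2), W.toPW.m_ne _ (Ne.symm gy1)] at mg
    have my2' : ¬ W.m (M + t y1) y2 := by rw [W.toPW.m_ne _ n12]; exact n2
    have hlevM : W.lev M = -1 := by
      rw [W.toPW.lev_out my2', W.toPW.lev_out n1] at hlev1
      linarith
    have hlevM1 : W.lev (M + t g) = -2 := by rw [W.toPW.lev_in mgM, hlevM]; ring
    have d2 : ∀ c x y : ZMod 3, x ≠ c → y ≠ c → x ≠ y → x + y = -c := by decide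
    have d4 : ∀ c : ZMod 3, c + c = -c := by decide
    have hsum := d2 c _ _ l1 l2 l12
    have fM1 : fsum W.I lam (M + t g) - c = cE := by
      have e1 : mem W.I M g := mgM
      have e2 : ¬ mem W.I M y1 := n1
      have e3 : ¬ mem W.I (M + t y1) y2 := my2'
      rw [fsum_add_t, fsum_add_t, if_neg e2, if_neg e3] at lg
      rw [fsum_add_t, if_pos e1, lg]
      linear_combination -hsum
    have m1 : ¬ W.m (M + t g) y1 := by rw [W.toPW.m_ne _ gy1]; exact n1
    have m2 : ¬ W.m (M + t g) y2 := by rw [W.toPW.m_ne _ gy2]; exact n2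
    have m3 : ¬ W.m (M + t g) z := by rw [W.toPW.m_ne _ gz]; exact mz
    have m4 : ¬ W.m (M + t g) w := by rw [W.toPW.m_ne _ gw]; exact mw
    have e1 : M + t g + t y1 + t y2 = M + t y1 + t y2 + t g := by abel
    have e2 : M + t g + t z + t w = M + t z + t w + t g := by abel
    have hE2 : W.E (M + t z + t w + t g) := by
      rw [← e2]
      exact (fing_link W h hlevM1 fM1 m3 m4 hzw).2 (by rw [hz', hw']; exact d4 c)
    have mg2 : W.m (M + t z + t w) g := by
      rw [W.toPW.m_ne _ (Ne.symm gw), W.toPW.m_ne _ (Ne.symm gz)]; exact mgM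
    have hcn := (hJ.nbr1 y1 y2 l1 (by rw [hmV]; exact n1) hE12).2
    have hTX1 := V.two_conn hJ.two1 hcn
    have hC1 := fing_ctwo W h hX V hV hTX1 mg hEg
    have hC2 := fing_ctwo W h hX V hV hJ.two2 mg2 hE2
    have my1X : W.m (M + t y1 + t y2) y1 := by
      rw [W.toPW.m_ne _ (Ne.symm n12), W.toPW.m_self]; exact n1
    have my1K : W.m (M + t y1 + t y2 + t g) y1 := by
      rw [W.toPW.m_ne _ gy1]; exact my1X
    obtain ⟨a2, _, ma2, la2⟩ := fing_in W h hKE p (M + t z + t w + t g) ∅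
    have a2g : a2 ≠ g := by
      rintro rfl
      rw [W.toPW.m_self] at ma2
      exact ma2 mg2
    have ma2' : W.m (M + t z + t w) a2 := by
      rwa [W.toPW.m_ne _ (Ne.symm a2g)] at ma2
    have la2' : lam a2 ≠ c := by rw [la2]; exact hpc
    have hex := beta_ex W h hlevM1 fM1 m1 m2 m3 m4 n12 hzw l1 l2 hz' hw'
      (by rw [e1]; exact hC1) (by rw [e2]; exact hC2)
    rw [e1, e2] at hex
    obtain ⟨f1, f2⟩ := hflip hC1 hC2 hex (a := y1) (a' := a2) l1 my1K la2' ma2
    have hcnt : cnt W.I {x | lam x ≠ c} (M + t y1 + t y2 + t g) -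
        cnt W.I {x | lam x ≠ c} (M + t z + t w + t g) = 2 := by
      have k1 : ¬ mem W.I (M + t g) y1 := m1
      have k2 : ¬ mem W.I (M + t g + t y1) y2 := fun hh => m2 ((W.toPW.m_ne _ n12).1 hh)
      have q1 : y1 ∈ ({x | lam x ≠ c} : Set Ω) := l1
      have q2 : y2 ∈ ({x | lam x ≠ c} : Set Ω) := l2
      have c1 : cnt W.I {x | lam x ≠ c} (M + t g + t y1 + t y2) =
          cnt W.I {x | lam x ≠ c} (M + t g) + 1 + 1 := by
        rw [cnt_add_t, cnt_add_t, if_pos q2, if_pos q1, if_neg k1, if_neg k2]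
      have c2 : cnt W.I {x | lam x ≠ c} (M + t g + t z + t w) =
          cnt W.I {x | lam x ≠ c} (M + t g) := by
        rw [cnt_add_t, cnt_add_t, if_neg hw, if_neg hz, add_zero, add_zero]
      rw [← e1, ← e2, c1, c2]
      ring
    rw [hcnt] at f1
    have r1 : V.ρ (M + t i + t l) a = W.ρ (M + t y1 + t y2 + t g) y1 := by
      rw [fing_rho V hJ.two1 hcn ha ma y1 l1 (by rw [hmV]; exact my1X)]
      exact (minus_move hX hV hE12 mg hEg).2.2 y1 my1X (Ne.symm gy1)
    have r2 : V.ρ (M + t z + t w) a' = W.ρ (M + t z + t w + t g) a2 := by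
      rw [fing_rho V hJ.two2 (V.toPW.conn_refl _) ha' ma' a2 la2' (by rw [hmV]; exact ma2')]
      exact (minus_move hX hV hJ.two2.1 mg2 hE2).2.2 a2 ma2' a2g
    rw [r1, r2]
    refine ⟨?_, f2⟩
    have f3 := eq_add_of_sub_eq' f1
    rw [f3]
    push_cast
    ring
  intro K A hT
  obtain ⟨c, hc | hc⟩ := beta_classes W h hX V hV hT
  · have hA : A = {x | lam x ≠ c} := by
      rw [← compl_compl A, hc]
      ext x
      simp
    rw [hA] at hT
    exact main K c hT
  · have hA : Aᶜ = {x | lam x ≠ c} := by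
      rw [hc]
      ext x
      simp
    have hT' := fing_two_compl V.toPW hT
    rw [hA] at hT'
    exact main K c hT'

end Pool.Agent.Lib.MP_a572be_co
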