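import Pool.Agent.Lib.MP_a572be_co.FinC
import Pool.Agent.Lib.MP_a572be_co.FinD
import Pool.Agent.Lib.MP_a572be_co.FinF
import Pool.Agent.Lib.MP_a572be_co.FinG

/-!
# Final assembly: there are no limit data
-/

namespace Pool.Agent.Lib.MP_a572be_co

variable {r : ℕ} {Ω : Type}

theorem lin_of_three (W : World r Ω) (h3 : W.Three) : ∃ lam cE, Lin W.toPW lam cE := by
  obtain ⟨lam, cE, h1, h2, h3⟩ := W.linear h3
  exact ⟨lam, cE, ⟨h1, h2, h3⟩⟩

/-- In the linear case the special element of an extension has a constant label. -/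
theorem lin_label (L : LimitData r Ω) (hr : 0 < r) (h2 : ¬ 2 ∣ r) {lam : Ω → ZMod 3}
    {cE : ZMod 3} (h : Lin L.W lam cE) {X : PW r (Option Ω)} (hX : IsExt L.W X) :
    ∃ a : ZMod 3, ∀ K, L.W.E K → ∀ u, L.W.m K u → lam u = a → X.c (emb K) none (some u) := by
  obtain ⟨V, v1, v2, v3, v4, v5, v6⟩ := exists_minus hX
  have hV : IsMinus L.W X V := ⟨v1, v2, v3, v4, v5, v6⟩
  have h' : Lin L.world.toPW lam cE := h
  let V' : World r Ω := { V with P_empty := v2, two := minus_two L.world h' hX hV }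
  have hT : V'.Three := lin_beta L hr h2 h hX V' hV
  obtain ⟨lam', c', hl⟩ := lin_of_three V' hT
  exact lin_alpha L.world h' hX hV hl

theorem limit_false (L : LimitData r Ω) (hr : 0 < r) (h2 : ¬ 2 ∣ r) (h3 : ¬ 3 ∣ r) : False := by
  obtain ⟨lam, cE, h⟩ := lin_of_three L.world (lim_three L hr h2)
  have h' : Lin L.W lam cE := h
  obtain ⟨m, K, u, hK, hu, hlam, hE⟩ := lin_not_emp L hr h3 h'
  have key : ∀ b : ZMod 3, ∃ a : Fin 3, ((a : ℕ) : ZMod 3) = b := by decide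
  rcases L.tri ⟨m, 3, K, u⟩ hK hu with h1 | ⟨x, hx, hn⟩ | ⟨X, hX, hn⟩
  · exact hE h1
  · apply hn
    obtain ⟨a, ha⟩ := key (lam x)
    refine ⟨a, fun t => ?_⟩
    apply L.W.c_of_eqv L.hP (hK t) (hx t) (hu t a)
    rw [h'.eqv _ (hK t), ← ha]
    exact (hlam t a).symm
  · apply hn
    obtain ⟨b, hb⟩ := lin_label L hr h2 h' hX
    obtain ⟨a, ha⟩ := key b
    refine ⟨a, fun t => hb (K t) (hK t) (u t a) (hu t a) ?_⟩
    rw [← ha]
    exact hlam t a

end Pool.Agent.Lib.MP_a572be_co
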