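import Pool.Agent.Lib.MP_a572be_co.PartA

/-!
# The limit defining the codegree Turan density exists
-/

namespace Pool.Agent.Lib.MP_a572be_co

open Filter Topology

open Classical in
/-- The pull-back of an `F`-free graph along an injective map is `F`-free. -/
theorem not_contains_pull {k n M : ℕ} {W : Type} {F : KGraph k W} {G : KGraph k (Fin n)}
    (hG : ¬ Contains G F) (φ : Fin M → Fin n) (hφ : Function.Injective φ) :
    ¬ Contains (G.pull φ) F := by
  rintro ⟨ψ, hψ, h⟩
  apply hG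
  refine ⟨φ ∘ ψ, hφ.comp hψ, fun e he => ?_⟩
  have h1 := (h e he).2
  convert h1 using 1
  ext y
  simp

theorem gamma_bdd {k : ℕ} {W : Type} (F : KGraph k W) (n : ℕ) :
    BddAbove ({m | ∃ G : KGraph k (Fin n), ¬ Contains G F ∧ m = minCodeg G} : Set ℕ) := by
  refine ⟨n, ?_⟩
  rintro m ⟨G, -, rfl⟩
  exact partA_minCodeg_le G

theorem exCodeg_le_card {k : ℕ} {W : Type} (F : KGraph k W) (n : ℕ) : exCodeg n F ≤ n := by
  unfold exCodeg
  rcases Set.eq_empty_or_nonempty
    {m | ∃ G : KGraph k (Fin n), ¬ Contains G F ∧ m = minCodeg G} with h | h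
  · rw [h]; simp
  · obtain ⟨G, -, hGm⟩ := Nat.sSup_mem h (gamma_bdd F n)
    rw [hGm]
    exact partA_minCodeg_le G

/-- The codegree Turan ratios lie between `0` and `1`. -/
theorem ratio_mem {k : ℕ} {W : Type} (F : KGraph k W) (n : ℕ) :
    0 ≤ (exCodeg n F : ℝ) / n ∧ (exCodeg n F : ℝ) / n ≤ 1 := by
  refine ⟨by positivity, ?_⟩
  have h1 : (exCodeg n F : ℝ) ≤ n := by exact_mod_cast exCodeg_le_card F n
  exact div_le_one_of_le₀ h1 (Nat.cast_nonneg _)

theorem ratio_bdd {k : ℕ} {W : Type} (F : KGraph k W) :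
    IsBoundedUnder (· ≤ ·) atTop (fun n : ℕ => (exCodeg n F : ℝ) / n) :=
  isBoundedUnder_of ⟨1, fun n => (ratio_mem F n).2⟩

theorem ratio_bdd' {k : ℕ} {W : Type} (F : KGraph k W) :
    IsBoundedUnder (· ≥ ·) atTop (fun n : ℕ => (exCodeg n F : ℝ) / n) :=
  isBoundedUnder_of ⟨0, fun n => (ratio_mem F n).1⟩

/-- **Averaging.** If infinitely many ratios exceed `α`, then almost all ratios are at least
`α' < α`. -/
theorem ratio_sample {k : ℕ} (hk : 2 ≤ k) {W : Type} (F : KGraph k W) {α α' : ℝ} (h0 : 0 < α')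
    (h1 : α' < α) (h : ∃ᶠ n : ℕ in atTop, α < (exCodeg n F : ℝ) / n) :
    ∀ᶠ M : ℕ in atTop, α' ≤ (exCodeg M F : ℝ) / M := by
  classical
  have hα1 : α ≤ 1 := by
    obtain ⟨n, hn⟩ := h.exists
    exact hn.le.trans (ratio_mem F n).2
  obtain ⟨M0, hM0⟩ := sampling hk h0 h1 hα1
  filter_upwards [eventually_ge_atTop (max M0 k)] with M hM
  have hM1 : M0 ≤ M := le_trans (le_max_left _ _) hM
  have hMk : k ≤ M := le_trans (le_max_right _ _) hM
  obtain ⟨n0, hn0⟩ := hM0 M hM1
  obtain ⟨n, hn, hαn⟩ := (h.and_eventually (eventually_ge_atTop (max n0 1))).exists.imp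
    (fun n hn => (⟨hn.2, hn.1⟩ : max n0 1 ≤ n ∧ _))
  have hn1 : n ≥ n0 := le_trans (le_max_left _ _) hn
  have hnpos : 0 < n := le_trans (le_max_right _ _) hn
  have hnR : (0 : ℝ) < n := by exact_mod_cast hnpos
  have hMR : (0 : ℝ) < M := by
    have : 0 < M := by omega
    exact_mod_cast this
  rw [lt_div_iff₀ hnR] at hαn
  have hset : ({m | ∃ G : KGraph k (Fin n), ¬ Contains G F ∧ m = minCodeg G} :
      Set ℕ).Nonempty := by
    by_contra he
    rw [Set.not_nonempty_iff_eq_empty] at he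
    have : exCodeg n F = 0 := by
      unfold exCodeg
      rw [he]
      simp
    rw [this] at hαn
    have : (0 : ℝ) < α * n := mul_pos (h0.trans h1) hnR
    simp at hαn
    linarith
  obtain ⟨G, hG, hGm⟩ := Nat.sSup_mem hset (gamma_bdd F n)
  have hGcod : ∀ S : Finset (Fin n), S.card = k - 1 → α * n ≤ ((G.nbr S).ncard : ℝ) := by
    intro S hS
    have h2 : minCodeg G ≤ (G.nbr S).ncard := Nat.sInf_le ⟨S, hS, rfl⟩
    have h3 : α * n < (minCodeg G : ℝ) := by
      rw [← hGm]
      exact hαn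
    have h4 : (minCodeg G : ℝ) ≤ ((G.nbr S).ncard : ℝ) := by exact_mod_cast h2
    linarith
  have hsamp := hn0 n hn1 G hGcod
  have hpos : (0 : ℝ) < (n : ℝ) ^ M / 2 := by positivity
  have hcard : 0 < (Finset.univ.filter fun φ : Fin M → Fin n => Function.Injective φ ∧
        ∀ S : Finset (Fin M), S.card = k - 1 →
          α' * M ≤ (((G.pull φ).nbr S).ncard : ℝ)).card := by
    have h2 := hpos.trans_le hsamp
    exact_mod_cast h2
  obtain ⟨φ, hφ⟩ := Finset.card_pos.mp hcard
  rw [Finset.mem_filter] at hφ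
  obtain ⟨-, hinj, hcod⟩ := hφ
  have hfree := not_contains_pull hG φ hinj
  have h5 : minCodeg (G.pull φ) ≤ exCodeg M F := by
    refine le_csSup (gamma_bdd F M) ⟨G.pull φ, hfree, ?_⟩
    rfl
  have h6 : α' * M ≤ (minCodeg (G.pull φ) : ℝ) := by
    have hne : ({m | ∃ S : Finset (Fin M), S.card = k - 1 ∧
        m = ((G.pull φ).nbr S).ncard} : Set ℕ).Nonempty := by
      obtain ⟨S, -, hS⟩ := Finset.exists_subset_card_eq (s := (Finset.univ : Finset (Fin M)))
        (n := k - 1) (by rw [Finset.card_univ, Fintype.card_fin]; omega)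
      exact ⟨_, S, hS, rfl⟩
    obtain ⟨S, hS, hm⟩ := Nat.sInf_mem hne
    unfold minCodeg
    rw [hm]
    exact hcod S hS
  rw [le_div_iff₀ hMR]
  have h7 : (minCodeg (G.pull φ) : ℝ) ≤ exCodeg M F := by exact_mod_cast h5
  linarith

/-- **The limit defining `γ(F)` exists.** -/
theorem tendsto_gamma {k : ℕ} (hk : 2 ≤ k) {W : Type} (F : KGraph k W) :
    Tendsto (fun n : ℕ => (exCodeg n F : ℝ) / n) atTop (𝓝 (gamma F)) := by
  have hb := ratio_bdd F
  have hb' := ratio_bdd' F
  refine tendsto_of_le_liminf_of_limsup_le ?_ le_rfl hb hb'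
  rcases le_or_gt (gamma F) 0 with h0 | h0
  · refine h0.trans ?_
    exact le_liminf_of_le hb.isCoboundedUnder_ge (Eventually.of_forall fun n => (ratio_mem F n).1)
  · refine le_of_forall_lt_imp_le_of_dense ?_
    intro c hc
    rcases le_or_gt c 0 with hc0 | hc0
    · refine hc0.trans ?_
      exact le_liminf_of_le hb.isCoboundedUnder_ge (Eventually.of_forall fun n => (ratio_mem F n).1)
    · have h1 : ∃ᶠ n : ℕ in atTop, (c + gamma F) / 2 < (exCodeg n F : ℝ) / n := by
        refine frequently_lt_of_lt_limsup hb'.isCoboundedUnder_le ?_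
        change (c + gamma F) / 2 < gamma F
        linarith
      exact le_liminf_of_le hb.isCoboundedUnder_ge
        (ratio_sample hk F hc0 (by linarith) h1)

end Pool.Agent.Lib.MP_a572be_co
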