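import Pool.Agent.Lib.MP_a572be_co.GenSeq

/-!
# Asymptotics of the bad events
-/

namespace Pool.Agent.Lib.MP_a572be_co

open Classical

variable {r : ℕ} (Q : BSeq r)

private lemma genasym2_avg_false {V : Type} (F : Finset V) (B : V → Prop) (h : ∀ x, ¬ B x) :
    avg F B = 0 := by
  unfold avg
  have : F.filter B = ∅ := Finset.filter_eq_empty_iff.mpr fun x _ => h x
  rw [this]; simp

private lemma genasym2_avg_mono {V : Type} (F : Finset V) {B B' : V → Prop}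
    (h : ∀ x, B x → B' x) : avg F B ≤ avg F B' := by
  unfold avg
  apply div_le_div_of_nonneg_right _ (Nat.cast_nonneg _)
  exact_mod_cast Finset.card_le_card (Finset.monotone_filter_right F (fun x _ hx => h x hx))

private lemma genasym2_cls (n : ℕ) (hn : 24 ≤ n) :
    ((Q.N n : ℕ) : ℝ) < 4 * ((1 / 3 - 1 / ((n : ℝ) + 1)) * (Q.N n : ℕ) - 1) := by
  have h1 : (n + 1) * (Q.k n + 1) ≤ Q.N n := Q.hN n
  have h2 : n + 1 ≤ Q.N n := by nlinarith
  have h3 : ((n : ℝ) + 1) ≤ (Q.N n : ℝ) := by exact_mod_cast h2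
  have h4 : (24 : ℝ) ≤ (n : ℝ) := by exact_mod_cast hn
  have h5 : (0 : ℝ) < (n : ℝ) + 1 := by linarith
  have h6 : 1 / ((n : ℝ) + 1) ≤ 1 / 25 := by
    apply one_div_le_one_div_of_le <;> linarith
  have h7 : (0 : ℝ) ≤ (Q.N n : ℝ) := by linarith
  have h8 : 1 / ((n : ℝ) + 1) * (Q.N n : ℝ) ≤ 1 / 25 * (Q.N n : ℝ) :=
    mul_le_mul_of_nonneg_right h6 h7
  nlinarith

/-- From `cost_FC` and `cls3_of_cod`. -/
theorem asym_FC (φ : Fml Cl) (a : ℕ) (Y : Tg Cl) (b : Cl) {δ : ℝ} (hδ : 0 < δ) :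
    ∃ R n0, ∀ n ≥ n0,
    ∑ π : Equiv.Perm (Fin (Q.N n)), avg (Fset (Q.S n) φ π) (badFC Q φ a Y b R n π) ≤
      δ * ((Q.N n).factorial : ℝ) := by
  by_cases hc : FBel a φ ∧ FVal φ ∧ (∀ ω ∈ Y.support, idx (some ω) < a) ∧ idx (some b) < a
  · obtain ⟨hφ, hv, hY, hb⟩ := hc
    obtain ⟨C, hC⟩ := cost_FC φ hφ hv Y hY b hb r
    obtain ⟨R, hR⟩ := exists_nat_gt (|C| / δ)
    refine ⟨R, a + R + 24, fun n hn => ?_⟩
    have hk : n + 1 ≤ Q.k n := Q.hk n
    have hN : (n + 1) * (Q.k n + 1) ≤ Q.N n := Q.hN n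
    have hcls : Cls3 (Q.S n) :=
      cls3_of_cod (Q.S n) (Q.cod n) (by omega) (genasym2_cls Q n (by omega))
    have h1 := hC (Q.k n) (Q.N n) (Q.S n) hcls R (by omega) (by nlinarith)
    have h2 : C / (R + 1) ≤ δ := by
      have h3 : |C| < R * δ := by rwa [div_lt_iff₀ hδ] at hR
      have h4 : (0 : ℝ) < (R : ℝ) + 1 := by positivity
      rw [div_le_iff₀ h4]
      have h5 := le_abs_self C
      nlinarith
    refine le_trans (Finset.sum_le_sum fun π _ => ?_)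
      (le_trans h1 (mul_le_mul_of_nonneg_right h2 (Nat.cast_nonneg _)))
    exact genasym2_avg_mono _ fun x hx => ⟨hx.2.1, hx.2.2⟩
  · refine ⟨0, 0, fun n _ => ?_⟩
    rw [Finset.sum_eq_zero]
    · positivity
    · intro π _
      exact genasym2_avg_false _ _ fun x hx => hc hx.1

/-- From `cost_off`. -/
theorem asym_off (φ : Fml Cl) (a : ℕ) {δ : ℝ} (hδ : 0 < δ) :
    ∃ R n0, ∀ n ≥ n0,
    ∑ π : Equiv.Perm (Fin (Q.N n)), avg (Fset (Q.S n) φ π) (badOff Q φ a R n π) ≤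
      δ * ((Q.N n).factorial : ℝ) := by
  by_cases hc : φ.m = 0 ∧ φ.q = 0
  · obtain ⟨m, q, K, u⟩ := φ
    obtain ⟨hm, hq⟩ := hc
    simp only at hm hq
    subst hm hq
    obtain ⟨M, hM⟩ := exists_nat_gt ((a : ℝ) / δ)
    refine ⟨0, a + M, fun n hn => ?_⟩
    have hk : n + 1 ≤ Q.k n := Q.hk n
    have hN : (n + 1) * (Q.k n + 1) ≤ Q.N n := Q.hN n
    have h1 := cost_off (Q.S n) (a := a) (by omega) (by omega) (by nlinarith) K u
    have h2 : (a : ℝ) / (Q.k n : ℕ) ≤ δ := by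
      have h3 : (a : ℝ) < M * δ := by rwa [div_lt_iff₀ hδ] at hM
      have h4 : (M : ℝ) ≤ (Q.k n : ℝ) := by exact_mod_cast (by omega : M ≤ Q.k n)
      have h5 : (0 : ℝ) < (Q.k n : ℝ) := by exact_mod_cast (by omega : 0 < Q.k n)
      rw [div_le_iff₀ h5]
      nlinarith
    refine le_trans (Finset.sum_le_sum fun π _ => ?_)
      (le_trans h1 (mul_le_mul_of_nonneg_right h2 (Nat.cast_nonneg _)))
    exact genasym2_avg_mono _ fun x hx => hx.2
  · refine ⟨0, 0, fun n _ => ?_⟩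
    rw [Finset.sum_eq_zero]
    · positivity
    · intro π _
      exact genasym2_avg_false _ _ fun x hx => hc hx.1

end Pool.Agent.Lib.MP_a572be_co
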