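import Pool.Agent.Lib.MP_a572be_co.GenAsym1
import Pool.Agent.Lib.MP_a572be_co.GenAsym2

/-!
# Asymptotics of the bad events
-/

namespace Pool.Agent.Lib.MP_a572be_co

open Classical

variable {r : ℕ} (Q : BSeq r)

/-- All requirements. -/
theorem asym (φ : Fml Cl) (i : Rq) {δ : ℝ} (hδ : 0 < δ) :
    ∃ R n0, ∀ n ≥ n0,
    ∑ π : Equiv.Perm (Fin (Q.N n)), avg (Fset (Q.S n) φ π) (bad Q φ i R n π) ≤
      δ * ((Q.N n).factorial : ℝ) := by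
  obtain ⟨a, T | T | ⟨j, T⟩ | ⟨Y, b⟩ | ⟨⟩⟩ := i
  · exact asym_N Q φ a T hδ
  · exact asym_4 Q φ a T hδ
  · exact asym_3 Q φ a j T hδ
  · exact asym_FC Q φ a Y b hδ
  · exact asym_off Q φ a hδ

end Pool.Agent.Lib.MP_a572be_co
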