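import Pool.Agent.Lib.MP_a572be_co.GenSeq

/-!
# Asymptotics of the bad events
-/

namespace Pool.Agent.Lib.MP_a572be_co

open Classical

variable {r : ℕ} (Q : BSeq r)

theorem genasym1_avg_mono {V : Type} (F : Finset V) {B B' : V → Prop} (h : ∀ x, B x → B' x) :
    avg F B ≤ avg F B' := by
  unfold avg
  refine div_le_div_of_nonneg_right ?_ (Nat.cast_nonneg _)
  exact Nat.cast_le.2 (Finset.card_le_card (Finset.monotone_filter_right _ fun x _ hx => h x hx))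

theorem genasym1_avg_false {V : Type} (F : Finset V) {B : V → Prop} (h : ∀ x, ¬ B x) :
    avg F B = 0 := by
  unfold avg
  rw [Finset.filter_false_of_mem fun x _ => h x]
  simp

theorem genasym1_basic (n a : ℕ) (ha : a ≤ n) : ∃ y : ℝ, 0 ≤ y ∧
    (Q.N n : ℝ) = ((n : ℝ) + 1) * y ∧
    (1 / 3 - 1 / ((n : ℝ) + 1)) * (Q.N n : ℝ) = (Q.N n : ℝ) / 3 - y ∧
    (Q.k n : ℝ) + 1 ≤ y ∧ (a : ℝ) ≤ Q.k n := by
  have hx : (0 : ℝ) < (n : ℝ) + 1 := by positivity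
  refine ⟨(Q.N n : ℝ) / ((n : ℝ) + 1), by positivity, ?_, ?_, ?_, ?_⟩
  · field_simp
  · ring
  · rw [le_div_iff₀ hx]
    have := Q.hN n
    have h2 : (((n + 1) * (Q.k n + 1) : ℕ) : ℝ) ≤ Q.N n := by exact_mod_cast this
    push_cast at h2
    linarith
  · have := Q.hk n
    exact_mod_cast (by omega : a ≤ Q.k n)

theorem genasym1_N (n a R : ℕ) (ha : a + R + 3 ≤ n) : Q.k n + a + R ≤ Q.N n := by
  have h1 := Q.hk n
  have h2 := Q.hN n
  have h3 : 3 * (Q.k n + 1) ≤ (n + 1) * (Q.k n + 1) := Nat.mul_le_mul_right _ (by omega)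
  omega

theorem genasym1_sum_zero {n : ℕ} (F : Equiv.Perm (Fin (Q.N n)) → Finset (Fin (Q.N n)))
    (B : Equiv.Perm (Fin (Q.N n)) → Fin (Q.N n) → Prop) (h : ∀ π x, ¬ B π x) {δ : ℝ}
    (hδ : 0 < δ) : ∑ π : Equiv.Perm (Fin (Q.N n)), avg (F π) (B π) ≤
      δ * ((Q.N n).factorial : ℝ) := by
  rw [Finset.sum_congr rfl fun π _ => genasym1_avg_false (F π) (h π)]
  simp only [Finset.sum_const_zero]
  positivity

/-- From `cost_N` with `γ = 1/3 - 1/(n+1)`, `α = 1/4`: for `n` large `a ≤ k`, `k + a + R ≤ N` (as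
`N ≥ (n+1)(k+1)`) and `(N - k - a)/4 ≤ γ N - k - a`. Choose `R` with `(3/4)^R ≤ δ`. If the formal
conditions (`FBel a φ` etc.) fail, the event is empty. -/
theorem asym_N (φ : Fml Cl) (a : ℕ) (T : Tg Clx) {δ : ℝ} (hδ : 0 < δ) : ∃ R n0, ∀ n ≥ n0,
    ∑ π : Equiv.Perm (Fin (Q.N n)), avg (Fset (Q.S n) φ π) (badN Q φ a T R n π) ≤
      δ * ((Q.N n).factorial : ℝ) := by
  by_cases hP : FBel a φ ∧ Bel a T ∧ cnt ClxI Set.univ T = -1
  swap
  · exact ⟨0, 0, fun n _ => genasym1_sum_zero Q _ _ (fun π x h => hP h.1) hδ⟩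
  obtain ⟨hφ, hT, hlev⟩ := hP
  obtain ⟨R, hR⟩ := exists_pow_lt_of_lt_one hδ (by norm_num : (1 - 1 / 4 : ℝ) < 1)
  refine ⟨R, a + R + 100, fun n hn => ?_⟩
  obtain ⟨y, hy0, hN, hγ, hk, hak⟩ := genasym1_basic Q n a (by omega)
  have hn' : (100 : ℝ) ≤ n := by exact_mod_cast (by omega : 100 ≤ n)
  have hNy : 100 * y ≤ (Q.N n : ℝ) := by
    rw [hN]
    exact mul_le_mul_of_nonneg_right (by linarith) hy0
  have hak' : a ≤ Q.k n := by exact_mod_cast hak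
  have hNn := genasym1_N Q n a R (by omega)
  have h := cost_N (Q.S n) (Q.cod n) φ hφ hT hlev (R := R) hak' hNn (α := 1 / 4)
    (by norm_num) (by norm_num) (by rw [hγ]; linarith)
  refine le_trans (Finset.sum_le_sum fun π _ => genasym1_avg_mono _ fun x hx => hx.2)
    (h.trans ?_)
  exact mul_le_mul_of_nonneg_right hR.le (Nat.cast_nonneg _)

/-- From `cost_4`, with `α = 1/20`. -/
theorem asym_4 (φ : Fml Cl) (a : ℕ) (T : Fin 4 → Tg Clx) {δ : ℝ} (hδ : 0 < δ) :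
    ∃ R n0, ∀ n ≥ n0,
    ∑ π : Equiv.Perm (Fin (Q.N n)), avg (Fset (Q.S n) φ π) (bad4 Q φ a T R n π) ≤
      δ * ((Q.N n).factorial : ℝ) := by
  by_cases hP : FBel a φ ∧ (∀ b, Bel a (T b)) ∧ ∀ b, cnt ClxI Set.univ (T b) = -1
  swap
  · exact ⟨0, 0, fun n _ => genasym1_sum_zero Q _ _ (fun π x h => hP h.1) hδ⟩
  obtain ⟨hφ, hT, hlev⟩ := hP
  obtain ⟨R, hR⟩ := exists_pow_lt_of_lt_one hδ (by norm_num : (1 - 1 / 20 : ℝ) < 1)
  refine ⟨R, a + R + 100, fun n hn => ?_⟩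
  obtain ⟨y, hy0, hN, hγ, hk, hak⟩ := genasym1_basic Q n a (by omega)
  have hn' : (100 : ℝ) ≤ n := by exact_mod_cast (by omega : 100 ≤ n)
  have hNy : 100 * y ≤ (Q.N n : ℝ) := by
    rw [hN]
    exact mul_le_mul_of_nonneg_right (by linarith) hy0
  have hak' : a ≤ Q.k n := by exact_mod_cast hak
  have hNn := genasym1_N Q n a R (by omega)
  have h := cost_4 (Q.S n) (Q.cod n) φ hφ hT hlev (R := R) hak' hNn (α := 1 / 20)
    (by norm_num) (by norm_num) (by rw [hγ]; linarith)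
  refine le_trans (Finset.sum_le_sum fun π _ => genasym1_avg_mono _ fun x hx => hx.2)
    (h.trans ?_)
  exact mul_le_mul_of_nonneg_right hR.le (Nat.cast_nonneg _)

/-- From `cost_3`, with `η = min (δ/8) 1`, `β = δ/2`, `R` with `(1-η)^R ≤ δ/2`. -/
theorem asym_3 (φ : Fml Cl) (a j : ℕ) (T : Fin 3 → Tg Clx) {δ : ℝ} (hδ : 0 < δ) :
    ∃ R n0, ∀ n ≥ n0,
    ∑ π : Equiv.Perm (Fin (Q.N n)), avg (Fset (Q.S n) φ π) (bad3 Q φ a j T R n π) ≤
      δ * ((Q.N n).factorial : ℝ) := by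
  by_cases hP : FBel a φ ∧ (∀ b, Bel a (T b)) ∧ (∀ b, cnt ClxI Set.univ (T b) = -1) ∧ a ≤ j
  swap
  · exact ⟨0, 0, fun n _ => genasym1_sum_zero Q _ _ (fun π x h => hP h.1) hδ⟩
  obtain ⟨hφ, hT, hlev, hj⟩ := hP
  set η : ℝ := min (δ / 8) 1 with hη
  have hη0 : 0 < η := lt_min (by positivity) one_pos
  have hη1 : η ≤ 1 := min_le_right _ _
  have hη2 : η ≤ δ / 8 := min_le_left _ _
  obtain ⟨R, hR⟩ := exists_pow_lt_of_lt_one (half_pos hδ) (by linarith : (1 - η : ℝ) < 1)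
  obtain ⟨M, hM⟩ := exists_nat_ge (56 / δ)
  refine ⟨R, a + j + R + M + 100, fun n hn => ?_⟩
  obtain ⟨y, hy0, hN, hγ, hk, hak⟩ := genasym1_basic Q n a (by omega)
  have hn' : (100 : ℝ) ≤ n := by exact_mod_cast (by omega : 100 ≤ n)
  have hMn : (M : ℝ) ≤ n := by exact_mod_cast (by omega : M ≤ n)
  have hNy : 100 * y ≤ (Q.N n : ℝ) := by
    rw [hN]
    exact mul_le_mul_of_nonneg_right (by linarith) hy0
  have hδn : 56 ≤ δ * ((n : ℝ) + 1) := by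
    rw [div_le_iff₀ hδ] at hM
    nlinarith
  have hNy2 : 56 * y ≤ δ * (Q.N n : ℝ) := by
    rw [hN, ← mul_assoc]
    exact mul_le_mul_of_nonneg_right hδn hy0
  have hak' : a ≤ Q.k n := by exact_mod_cast hak
  have hNn := genasym1_N Q n (j + 1) R (by omega)
  have hM0 : 0 ≤ (Q.N n : ℝ) - Q.k n - a := by linarith
  have h := cost_3 (Q.S n) (Q.cod n) φ hφ hT hlev hj (R := R) hak' (by omega) (η := η)
    (β := δ / 2) hη0.le hη1 (by
      rw [hγ]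
      have h1 : 2 * η * ((Q.N n : ℝ) - Q.k n - a) ≤ δ / 4 * ((Q.N n : ℝ) - Q.k n - a) :=
        mul_le_mul_of_nonneg_right (by linarith) hM0
      have h2 : (Q.N n : ℝ) / 2 ≤ (Q.N n : ℝ) - Q.k n - a := by linarith
      have h3 : δ / 4 * ((Q.N n : ℝ) / 2) ≤ δ / 4 * ((Q.N n : ℝ) - Q.k n - a) :=
        mul_le_mul_of_nonneg_left h2 (by positivity)
      linarith) (by positivity)
  refine le_trans (Finset.sum_le_sum fun π _ => genasym1_avg_mono _ fun x hx => hx.2)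
    (h.trans ?_)
  exact mul_le_mul_of_nonneg_right (by linarith) (Nat.cast_nonneg _)

end Pool.Agent.Lib.MP_a572be_co
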