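import Mathlib

/-!
# Averages over permutations: exchangeable positions
-/

namespace Pool.Agent.Lib.MP_a572be_co

open Classical

/-- Let `w ≥ 0` and the set `A` be invariant under exchanging two positions in `Q`, and `p ∈ Q`. If
(where `w ≠ 0`) at most the fraction `β` of the positions of `Q` have their value outside `A`, then
the `w`-weight of the permutations with `π p ∉ A` is at most `β` times the total weight.
Proof: `∑ w π [π p ∉ A π] = ∑ w (π s) [(π s) p ∉ A (π s)]` for `s = swap p q`, `q ∈ Q`
(`Equiv.sum_comp` with right multiplication); average over `q ∈ Q`. -/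
theorem swap_one {N : ℕ} (Q : Finset (Fin N)) {p : Fin N} (hp : p ∈ Q)
    (w : Equiv.Perm (Fin N) → ℝ) (hw : ∀ π, 0 ≤ w π) (A : Equiv.Perm (Fin N) → Finset (Fin N))
    (inv : ∀ π, ∀ q ∈ Q, ∀ q' ∈ Q, w (π * Equiv.swap q q') = w π ∧ A (π * Equiv.swap q q') = A π)
    (β : ℝ) (hβ : ∀ π, w π ≠ 0 → ((Q.filter fun q => π q ∉ A π).card : ℝ) ≤ β * Q.card) :
    ∑ π, w π * (if π p ∉ A π then 1 else 0) ≤ β * ∑ π, w π := by
  have key : ∀ q ∈ Q, ∑ π, w π * (if π p ∉ A π then (1 : ℝ) else 0) =
      ∑ π, w π * (if π q ∉ A π then (1 : ℝ) else 0) := by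
    intro q hq
    rw [← Equiv.sum_comp (Equiv.mulRight (Equiv.swap p q))]
    refine Finset.sum_congr rfl fun π _ => ?_
    obtain ⟨h1, h2⟩ := inv π p hp q hq
    simp only [Equiv.coe_mulRight, h1, h2, Equiv.Perm.mul_apply, Equiv.swap_apply_left]
  have hQ : (0 : ℝ) < Q.card := by
    exact_mod_cast Finset.card_pos.mpr ⟨p, hp⟩
  have h1 : (Q.card : ℝ) * ∑ π, w π * (if π p ∉ A π then (1 : ℝ) else 0) =
      ∑ π, w π * ((Q.filter fun q => π q ∉ A π).card : ℝ) := by
    calc (Q.card : ℝ) * ∑ π, w π * (if π p ∉ A π then (1 : ℝ) else 0)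
        = ∑ q ∈ Q, ∑ π, w π * (if π q ∉ A π then (1 : ℝ) else 0) := by
          rw [Finset.sum_congr rfl fun q hq => (key q hq).symm, Finset.sum_const, nsmul_eq_mul]
      _ = ∑ π, w π * ((Q.filter fun q => π q ∉ A π).card : ℝ) := by
          rw [Finset.sum_comm]
          refine Finset.sum_congr rfl fun π _ => ?_
          rw [← Finset.mul_sum, Finset.sum_boole]
  have h2 : ∑ π, w π * ((Q.filter fun q => π q ∉ A π).card : ℝ) ≤
      ∑ π, w π * (β * Q.card) := by
    refine Finset.sum_le_sum fun π _ => ?_
    by_cases h0 : w π = 0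
    · rw [h0, zero_mul, zero_mul]
    · exact mul_le_mul_of_nonneg_left (hβ π h0) (hw π)
  rw [← Finset.sum_mul] at h2
  refine le_of_mul_le_mul_left ?_ hQ
  rw [h1]
  calc _ ≤ _ := h2
    _ = _ := by ring

/-- The same for `R` different positions: if at least the fraction `α` of the positions of `Q` have
their value in `A`, then the weight of the permutations with `π (p i) ∉ A` for all `i` is at most
`(1-α)^R` times the total weight. Induction on `R`, applying `swap_one` to
`w' = w * [π (p i) ∉ A π for i < R]`, `Q' = Q \ {p i | i < R}` and `p R`: where `w' ≠ 0`,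
`#{q ∈ Q' | π q ∉ A} = #{q ∈ Q | π q ∉ A} - R ≤ (1-α)|Q| - R ≤ (1-α)|Q'|`. -/
theorem swap_many {N : ℕ} (Q : Finset (Fin N)) {R : ℕ} (p : Fin R → Fin N)
    (hp : ∀ i, p i ∈ Q) (hinj : Function.Injective p)
    (w : Equiv.Perm (Fin N) → ℝ) (hw : ∀ π, 0 ≤ w π) (A : Equiv.Perm (Fin N) → Finset (Fin N))
    (inv : ∀ π, ∀ q ∈ Q, ∀ q' ∈ Q, w (π * Equiv.swap q q') = w π ∧ A (π * Equiv.swap q q') = A π)
    (α : ℝ) (h0 : 0 ≤ α) (h1 : α ≤ 1)
    (hα : ∀ π, w π ≠ 0 → α * Q.card ≤ ((Q.filter fun q => π q ∈ A π).card : ℝ)) :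
    ∑ π, w π * (if ∀ i, π (p i) ∉ A π then 1 else 0) ≤ (1 - α) ^ R * ∑ π, w π := by
  induction R with
  | zero => simp
  | succ R ih =>
    have hR := ih (fun i => p i.castSucc) (fun i => hp _)
      (fun i j hij => Fin.castSucc_injective R (hinj hij))
    set w' : Equiv.Perm (Fin N) → ℝ :=
      fun π => w π * (if ∀ i : Fin R, π (p i.castSucc) ∉ A π then 1 else 0) with hw'
    set P : Finset (Fin N) := Finset.univ.image (fun i : Fin R => p i.castSucc) with hP
    have hPQ : P ⊆ Q := by
      intro x hx
      obtain ⟨i, _, rfl⟩ := Finset.mem_image.mp hx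
      exact hp _
    have hPc : P.card = R := by
      rw [hP, Finset.card_image_of_injective _
        (fun i j hij => Fin.castSucc_injective R (hinj hij)), Finset.card_univ, Fintype.card_fin]
    have hQc : (Q \ P).card + R = Q.card := by
      rw [← hPc]
      exact Finset.card_sdiff_add_card_eq_card hPQ
    have hlast : p (Fin.last R) ∈ Q \ P := by
      rw [Finset.mem_sdiff]
      refine ⟨hp _, fun hx => ?_⟩
      obtain ⟨i, _, hi⟩ := Finset.mem_image.mp hx
      exact (Fin.castSucc_lt_last i).ne (hinj hi)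
    have h2 := swap_one (Q \ P) hlast w' (fun π => by
        simp only [hw']
        split_ifs
        · simpa using hw π
        · simp) A (fun π q hq q' hq' => by
        obtain ⟨a1, a2⟩ := inv π q (Finset.mem_sdiff.mp hq).1 q' (Finset.mem_sdiff.mp hq').1
        refine ⟨?_, a2⟩
        simp only [hw', a1, a2]
        have : ∀ i : Fin R, (π * Equiv.swap q q') (p i.castSucc) = π (p i.castSucc) := by
          intro i
          rw [Equiv.Perm.mul_apply, Equiv.swap_apply_of_ne_of_ne]
          · rintro rfl
            exact (Finset.mem_sdiff.mp hq).2 (Finset.mem_image.mpr ⟨i, Finset.mem_univ _, rfl⟩)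
          · rintro rfl
            exact (Finset.mem_sdiff.mp hq').2 (Finset.mem_image.mpr ⟨i, Finset.mem_univ _, rfl⟩)
        simp only [this]) (1 - α) (fun π hπ => by
        have hπ1 : w π ≠ 0 := fun h => hπ (by simp [hw', h])
        have hπ2 : ∀ i : Fin R, π (p i.castSucc) ∉ A π := by
          by_contra hcon
          exact hπ (by simp only [hw', if_neg hcon, mul_zero])
        have e1 := hα π hπ1
        have e2 : (Q.filter fun q => π q ∈ A π).card + (Q.filter fun q => π q ∉ A π).card =
            Q.card := Finset.card_filter_add_card_filter_not (fun q => π q ∈ A π)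
        have e3 : ((Q \ P).filter fun q => π q ∉ A π).card + R =
            (Q.filter fun q => π q ∉ A π).card := by
          rw [← hPc, ← Finset.card_union_of_disjoint]
          · congr 1
            ext q
            simp only [Finset.mem_union, Finset.mem_filter, Finset.mem_sdiff]
            constructor
            · rintro (⟨⟨a, _⟩, b⟩ | a)
              · exact ⟨a, b⟩
              · refine ⟨hPQ a, ?_⟩
                obtain ⟨i, _, rfl⟩ := Finset.mem_image.mp a
                exact hπ2 i
            · rintro ⟨a, b⟩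
              by_cases hq : q ∈ P
              · exact Or.inr hq
              · exact Or.inl ⟨⟨a, hq⟩, b⟩
          · rw [Finset.disjoint_left]
            intro q hq1 hq2
            exact (Finset.mem_sdiff.mp (Finset.mem_filter.mp hq1).1).2 hq2
        have e2' : ((Q.filter fun q => π q ∈ A π).card : ℝ) +
            ((Q.filter fun q => π q ∉ A π).card : ℝ) = Q.card := by exact_mod_cast e2
        have e3' : (((Q \ P).filter fun q => π q ∉ A π).card : ℝ) + R =
            ((Q.filter fun q => π q ∉ A π).card : ℝ) := by exact_mod_cast e3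
        have e4' : ((Q \ P).card : ℝ) + R = Q.card := by exact_mod_cast hQc
        have e5 : 0 ≤ α * (R : ℝ) := mul_nonneg h0 (Nat.cast_nonneg R)
        nlinarith [e1, e2', e3', e4', e5])
    have h3 : ∀ π, w' π * (if π (p (Fin.last R)) ∉ A π then (1 : ℝ) else 0) =
        w π * (if ∀ i, π (p i) ∉ A π then 1 else 0) := by
      intro π
      simp only [hw', mul_assoc]
      congr 1
      by_cases a : ∀ i : Fin R, π (p i.castSucc) ∉ A π
      · by_cases b : π (p (Fin.last R)) ∉ A π
        · have c : ∀ i, π (p i) ∉ A π := by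
            intro i
            refine Fin.lastCases b (fun j => a j) i
          rw [if_pos a, if_pos b, if_pos c, one_mul]
        · have c : ¬ ∀ i, π (p i) ∉ A π := fun c => b (c _)
          rw [if_pos a, if_neg b, if_neg c, one_mul]
      · have c : ¬ ∀ i, π (p i) ∉ A π := fun c => a (fun i => c _)
        rw [if_neg a, if_neg c, zero_mul]
    simp only [h3] at h2
    calc _ ≤ _ := h2
      _ ≤ (1 - α) * ((1 - α) ^ R * ∑ π, w π) :=
          mul_le_mul_of_nonneg_left hR (by linarith)
      _ = (1 - α) ^ (R + 1) * ∑ π, w π := by ring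

end Pool.Agent.Lib.MP_a572be_co
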