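import Pool.Agent.Lib.MP_a572be_co.GenInv
import Pool.Agent.Lib.MP_a572be_co.GenSwap

/-!
# Bounds for the probability of bad placements
-/

namespace Pool.Agent.Lib.MP_a572be_co

open Classical

variable {N : ℕ} [NeZero N]

/-! ### Averages as weighted sums -/

/-- The weight of `x` in the average over `F`, restricted to `O`. -/
noncomputable def gc3w {V : Type} (F : Finset V) (O : V → Prop) (x : V) : ℝ :=
  if x ∈ F ∧ O x then 1 / (F.card : ℝ) else 0

theorem gc3w_nonneg {V : Type} (F : Finset V) (O : V → Prop) (x : V) : 0 ≤ gc3w F O x := by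
  unfold gc3w
  split_ifs
  · positivity
  · exact le_rfl

theorem gc3_avg {V : Type} [Fintype V] (F : Finset V) (O P : V → Prop) :
    avg F (fun x => O x ∧ P x) = ∑ x, gc3w F O x * (if P x then 1 else 0) := by
  have h : ∀ x, gc3w F O x * (if P x then 1 else 0) =
      if x ∈ F then ((if O x ∧ P x then (1 : ℝ) else 0) / F.card) else 0 := by
    intro x
    unfold gc3w
    by_cases h1 : x ∈ F <;> by_cases h2 : O x <;> by_cases h3 : P x <;> simp [h1, h2, h3]
  simp_rw [h]
  rw [Finset.sum_ite_mem, Finset.univ_inter, ← Finset.sum_div]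
  unfold avg
  rw [Finset.card_filter]
  push_cast
  rfl

theorem gc3w_sum {V : Type} [Fintype V] (F : Finset V) (O : V → Prop) :
    ∑ x, gc3w F O x ≤ 1 := by
  have h := gc3_avg F O (fun _ => True)
  simp only [if_true, mul_one] at h
  rw [← h]
  unfold avg
  apply div_le_one_of_le₀
  · exact_mod_cast Finset.card_le_card (@Finset.filter_subset _ _ (_) _)
  · positivity

/-! ### Counting positions -/

/-- The far positions. -/
def gc3Q (N m : ℕ) : Finset (Fin N) := Finset.univ.filter fun q => m ≤ (q : ℕ)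

theorem gc3Q_compl (N m : ℕ) (h : m ≤ N) :
    (Finset.univ.filter fun q : Fin N => ¬ m ≤ (q : ℕ)).card = m := by
  have := @Fin.card_filter_val_lt N m
  rw [min_eq_right h] at this
  have e : (Finset.univ.filter fun q : Fin N => ¬ m ≤ (q : ℕ)) =
      Finset.univ.filter fun q : Fin N => (q : ℕ) < m := by
    ext q
    simp
  rw [e, this]

theorem gc3Q_card (N m : ℕ) (h : m ≤ N) : ((gc3Q N m).card : ℝ) = N - m := by
  have h1 := Finset.card_filter_add_card_filter_not (s := (Finset.univ : Finset (Fin N)))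
    (fun q => m ≤ (q : ℕ))
  rw [gc3Q_compl N m h, Finset.card_univ, Fintype.card_fin] at h1
  have h2 : ((gc3Q N m).card : ℝ) + m = N := by
    unfold gc3Q
    exact_mod_cast h1
  linarith

/-- At most `m` elements are not at far positions. -/
theorem gc3_lower {N : ℕ} (m : ℕ) (h : m ≤ N) (π : Equiv.Perm (Fin N)) (A : Finset (Fin N)) :
    (A.card : ℝ) - m ≤ (((gc3Q N m).filter fun q => π q ∈ A).card : ℝ) := by
  have h1 : A.card = (Finset.univ.filter fun q => π q ∈ A).card := by
    symm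
    apply Finset.card_bij (fun q _ => π q)
    · intro q hq
      exact (Finset.mem_filter.1 hq).2
    · intro q _ q' _ h
      exact π.injective h
    · intro x hx
      exact ⟨π.symm x, by simp [hx], by simp⟩
  have h2 : (Finset.univ.filter fun q => π q ∈ A) ⊆
      ((gc3Q N m).filter fun q => π q ∈ A) ∪ (Finset.univ.filter fun q => ¬ m ≤ (q : ℕ)) := by
    intro q hq
    rw [Finset.mem_union]
    by_cases hm : m ≤ (q : ℕ)
    · left
      rw [Finset.mem_filter]
      exact ⟨Finset.mem_filter.2 ⟨Finset.mem_univ _, hm⟩, (Finset.mem_filter.1 hq).2⟩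
    · right
      exact Finset.mem_filter.2 ⟨Finset.mem_univ _, hm⟩
  have h3 := (Finset.card_le_card h2).trans (Finset.card_union_le _ _)
  rw [gc3Q_compl N m h, ← h1] at h3
  have h4 : (A.card : ℝ) ≤ ((gc3Q N m).filter fun q => π q ∈ A).card + m := by exact_mod_cast h3
  linarith

/-- The number of positions with values in a set is invariant. -/
theorem gc3_inv {N : ℕ} (Q : Finset (Fin N)) {q1 q2 : Fin N} (h1 : q1 ∈ Q) (h2 : q2 ∈ Q)
    (π : Equiv.Perm (Fin N)) (A : Finset (Fin N)) :
    (Q.filter fun q => (π * Equiv.swap q1 q2) q ∈ A).card = (Q.filter fun q => π q ∈ A).card := by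
  have hm : ∀ q ∈ Q, Equiv.swap q1 q2 q ∈ Q := by
    intro q hq
    rw [Equiv.swap_apply_def]
    split_ifs
    · exact h2
    · exact h1
    · exact hq
  apply Finset.card_bij (fun q _ => Equiv.swap q1 q2 q)
  · intro q hq
    rw [Finset.mem_filter] at hq ⊢
    exact ⟨hm q hq.1, hq.2⟩
  · intro q _ q' _ h
    exact (Equiv.swap q1 q2).injective h
  · intro q hq
    rw [Finset.mem_filter] at hq
    refine ⟨Equiv.swap q1 q2 q, ?_, Equiv.swap_apply_self _ _ _⟩
    rw [Finset.mem_filter]
    refine ⟨hm q hq.1, ?_⟩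
    rw [Equiv.Perm.mul_apply, Equiv.swap_apply_self]
    exact hq.2

/-- Three sets: `∑ |N_b| ≤ |Cov| + 2 |A|` on the far positions. -/
theorem gc3_count {N : ℕ} (Q : Finset (Fin N)) (π : Equiv.Perm (Fin N))
    (M : Fin 3 → Finset (Fin N)) (Cov A : Finset (Fin N))
    (hC : ∀ v, v ∈ Cov ↔ ∃ b, v ∈ M b)
    (hA : ∀ v, v ∈ A ↔ ∃ b b', b ≠ b' ∧ v ∈ M b ∧ v ∈ M b') :
    (∑ b, ((Q.filter fun q => π q ∈ M b).card : ℝ)) ≤
      (Q.filter fun q => π q ∈ Cov).card + 2 * (Q.filter fun q => π q ∈ A).card := by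
  have h : ∀ A : Finset (Fin N), ((Q.filter fun q => π q ∈ A).card : ℝ) =
      ∑ q ∈ Q, if π q ∈ A then (1 : ℝ) else 0 := by
    intro A
    rw [Finset.card_filter]
    push_cast
    rfl
  simp_rw [h]
  rw [Finset.sum_comm, Finset.mul_sum, ← Finset.sum_add_distrib]
  apply Finset.sum_le_sum
  intro q _
  rw [Fin.sum_univ_three]
  have hC' := hC (π q)
  have hA' := hA (π q)
  by_cases h0 : π q ∈ M 0 <;> by_cases h1 : π q ∈ M 1 <;> by_cases h2 : π q ∈ M 2
  · rw [if_pos h0, if_pos h1, if_pos h2, if_pos (hC'.2 ⟨0, h0⟩),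
      if_pos (hA'.2 ⟨0, 1, by decide, h0, h1⟩)]
    norm_num
  · rw [if_pos h0, if_pos h1, if_neg h2, if_pos (hC'.2 ⟨0, h0⟩),
      if_pos (hA'.2 ⟨0, 1, by decide, h0, h1⟩)]
    norm_num
  · rw [if_pos h0, if_neg h1, if_pos h2, if_pos (hC'.2 ⟨0, h0⟩),
      if_pos (hA'.2 ⟨0, 2, by decide, h0, h2⟩)]
    norm_num
  · rw [if_pos h0, if_neg h1, if_neg h2, if_pos (hC'.2 ⟨0, h0⟩)]
    split_ifs <;> norm_num
  · rw [if_neg h0, if_pos h1, if_pos h2, if_pos (hC'.2 ⟨1, h1⟩),
      if_pos (hA'.2 ⟨1, 2, by decide, h1, h2⟩)]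
    norm_num
  · rw [if_neg h0, if_pos h1, if_neg h2, if_pos (hC'.2 ⟨1, h1⟩)]
    split_ifs <;> norm_num
  · rw [if_neg h0, if_neg h1, if_pos h2, if_pos (hC'.2 ⟨2, h2⟩)]
    split_ifs <;> norm_num
  · rw [if_neg h0, if_neg h1, if_neg h2]
    split_ifs <;> norm_num

/-- **Three sets.** `Q` and `w` as in `cost_N`. Let `Cov π` be the set of the neighbours of at least
one of the three sets and `A π` those of at least two. Split `w` into the part where
`#{q ∈ Q | π q ∈ A π} ≥ η |Q|` (there `swap_many` for the positions `k + j + 1 + i`) and the rest,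
where `#{q ∈ Q | π q ∉ Cov π} ≤ β |Q|` as
`3 (γ N - k - a) ≤ ∑_b |N_b ∩ U| ≤ |Cov ∩ U| + 2 |A ∩ U|` (there `swap_one` for the position
`k + j`). -/
theorem cost_3 {k r : ℕ} (S : CSys k r (Fin N)) {γ : ℝ} (hγ : Cod S γ) (φ : Fml Cl) {a j : ℕ}
    (hφ : FBel a φ) {T : Fin 3 → Tg Clx} (hT : ∀ b, Bel a (T b))
    (hlev : ∀ b, cnt ClxI Set.univ (T b) = -1) (hj : a ≤ j) {R : ℕ}
    (hk : a ≤ k) (hN : k + j + 1 + R ≤ N) {η β : ℝ} (h0 : 0 ≤ η) (h1 : η ≤ 1)
    (hβ : ((N : ℝ) - k - a) - 3 * (γ * N - k - a) + 2 * η * (N - k - a) ≤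
      β * (N - k - a)) (hβ0 : 0 ≤ β) :
    ∑ π : Equiv.Perm (Fin N), avg (Fset S φ π) (fun x => Off k a π x ∧
      (∀ b, ¬ S.E (rlx k π x (T b + t (some (Sum.inr j))))) ∧
      ∀ i < R, ¬ ∃ b b', b ≠ b' ∧ S.E (rlx k π x (T b + t (some (Sum.inr (j + 1 + i))))) ∧
        S.E (rlx k π x (T b' + t (some (Sum.inr (j + 1 + i)))))) ≤
      ((1 - η) ^ R + β) * (N.factorial : ℝ) := by
  have hka : k + a ≤ N := by omega
  have hcast : ((k + a : ℕ) : ℝ) = (k : ℝ) + a := by push_cast; ring
  have hQc : ((gc3Q N (k + a)).card : ℝ) = (N : ℝ) - k - a := by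
    rw [gc3Q_card N (k + a) hka, hcast]; ring
  have hη1 : 0 ≤ (1 - η) ^ R := pow_nonneg (by linarith) R
  -- the bound for each `x`
  have main : ∀ x : Fin N, ∑ π : Equiv.Perm (Fin N), gc3w (Fset S φ π) (Off k a π) x *
      (if ((∀ b, ¬ S.E (rlx k π x (T b + t (some (Sum.inr j))))) ∧
      ∀ i < R, ¬ ∃ b b', b ≠ b' ∧ S.E (rlx k π x (T b + t (some (Sum.inr (j + 1 + i))))) ∧
        S.E (rlx k π x (T b' + t (some (Sum.inr (j + 1 + i)))))) then (1 : ℝ) else 0) ≤
      ((1 - η) ^ R + β) * ∑ π : Equiv.Perm (Fin N), gc3w (Fset S φ π) (Off k a π) x := by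
    intro x
    set Q := gc3Q N (k + a) with hQ
    let M : Equiv.Perm (Fin N) → Fin 3 → Finset (Fin N) := fun π b =>
      Finset.univ.filter fun v => S.E (insert v (rlx k π x (T b)))
    let Cov : Equiv.Perm (Fin N) → Finset (Fin N) := fun π =>
      Finset.univ.filter fun v => ∃ b, v ∈ M π b
    let A : Equiv.Perm (Fin N) → Finset (Fin N) := fun π =>
      Finset.univ.filter fun v => ∃ b b', b ≠ b' ∧ v ∈ M π b ∧ v ∈ M π b'
    let w : Equiv.Perm (Fin N) → ℝ := fun π => gc3w (Fset S φ π) (Off k a π) x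
    let D : Equiv.Perm (Fin N) → Prop := fun π =>
      η * Q.card ≤ ((Q.filter fun q => π q ∈ A π).card : ℝ)
    let w1 : Equiv.Perm (Fin N) → ℝ := fun π => if D π then w π else 0
    let w2 : Equiv.Perm (Fin N) → ℝ := fun π => if D π then 0 else w π
    have hw : ∀ π, 0 ≤ w π := fun π => gc3w_nonneg _ _ _
    have hw1 : ∀ π, 0 ≤ w1 π := fun π => by
      simp only [w1]; split_ifs; exacts [hw π, le_rfl]
    have hw2 : ∀ π, 0 ≤ w2 π := fun π => by
      simp only [w2]; split_ifs; exacts [le_rfl, hw π]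
    -- invariance
    have inv : ∀ π, ∀ q ∈ Q, ∀ q' ∈ Q, w (π * Equiv.swap q q') = w π ∧
        M (π * Equiv.swap q q') = M π := by
      intro π q hq q' hq'
      have hq1 : k + a ≤ (q : ℕ) := (Finset.mem_filter.1 hq).2
      have hq1' : k + a ≤ (q' : ℕ) := (Finset.mem_filter.1 hq').2
      obtain ⟨_, _, e3, e4, e5⟩ := far_swap hk hka S π hq1 hq1'
      constructor
      · simp only [w, gc3w]
        rw [e4 φ hφ, e5 x]
      · funext b
        simp only [M]
        rw [e3 x (T b) (hT b)]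
    have invA : ∀ π, ∀ q ∈ Q, ∀ q' ∈ Q, A (π * Equiv.swap q q') = A π := by
      intro π q hq q' hq'
      simp only [A]
      rw [(inv π q hq q' hq').2]
    have invC : ∀ π, ∀ q ∈ Q, ∀ q' ∈ Q, Cov (π * Equiv.swap q q') = Cov π := by
      intro π q hq q' hq'
      simp only [Cov]
      rw [(inv π q hq q' hq').2]
    have invD : ∀ π, ∀ q ∈ Q, ∀ q' ∈ Q, (D (π * Equiv.swap q q') ↔ D π) := by
      intro π q hq q' hq'
      simp only [D]
      rw [invA π q hq q' hq', gc3_inv Q hq hq' π (A π)]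
    have inv1 : ∀ π, ∀ q ∈ Q, ∀ q' ∈ Q, w1 (π * Equiv.swap q q') = w1 π ∧
        A (π * Equiv.swap q q') = A π := by
      intro π q hq q' hq'
      refine ⟨?_, invA π q hq q' hq'⟩
      simp only [w1]
      rw [(inv π q hq q' hq').1]
      simp only [invD π q hq q' hq']
    have inv2 : ∀ π, ∀ q ∈ Q, ∀ q' ∈ Q, w2 (π * Equiv.swap q q') = w2 π ∧
        Cov (π * Equiv.swap q q') = Cov π := by
      intro π q hq q' hq'
      refine ⟨?_, invC π q hq q' hq'⟩
      simp only [w2]
      rw [(inv π q hq q' hq').1]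
      simp only [invD π q hq q' hq']
    -- positions
    have hval : ∀ p : ℕ, k + p < N → ((Fin.ofNat N (k + p) : Fin N) : ℕ) = k + p := by
      intro p hp
      simp [Fin.ofNat, Nat.mod_eq_of_lt hp]
    have hpj : (Fin.ofNat N (k + j) : Fin N) ∈ Q := by
      rw [hQ]
      refine Finset.mem_filter.2 ⟨Finset.mem_univ _, ?_⟩
      rw [hval j (by omega)]
      omega
    let p : Fin R → Fin N := fun i => Fin.ofNat N (k + (j + 1 + (i : ℕ)))
    have hpv : ∀ i : Fin R, ((p i : Fin N) : ℕ) = k + (j + 1 + (i : ℕ)) := by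
      intro i
      exact hval _ (by have := i.2; omega)
    have hp : ∀ i, p i ∈ Q := by
      intro i
      rw [hQ]
      refine Finset.mem_filter.2 ⟨Finset.mem_univ _, ?_⟩
      rw [hpv]
      omega
    have hinj : Function.Injective p := by
      intro i i' h
      have := congrArg (fun q : Fin N => (q : ℕ)) h
      simp only [hpv] at this
      exact Fin.ext (by omega)
    -- the two bounds
    have b1 := swap_many Q p hp hinj w1 hw1 A inv1 η h0 h1 (by
      intro π hπ
      by_contra hD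
      apply hπ
      simp only [w1]
      exact if_neg hD)
    have b2 := swap_one Q hpj w2 hw2 Cov inv2 β (by
      intro π hπ
      have hD : ¬ D π := by
        intro hD
        apply hπ
        simp only [w2]
        exact if_pos hD
      have hwx : w π ≠ 0 := by
        intro h
        apply hπ
        simp only [w2]
        rw [if_neg hD, h]
      have hx : x ∈ Fset S φ π ∧ Off k a π x := by
        by_contra h
        apply hwx
        simp only [w, gc3w]
        exact if_neg h
      have hxr := fset_ref hx.1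
      have hM : ∀ b, γ * N - (k : ℝ) - a ≤ ((Q.filter fun q => π q ∈ M π b).card : ℝ) := by
        intro b
        have e1 := hγ (rlx k π x (T b)) (rlx_card hk hka π hxr hx.2 (hT b) (hlev b))
        have e2 := gc3_lower (k + a) hka π (M π b)
        rw [hcast] at e2
        have e3 : γ * N ≤ ((M π b).card : ℝ) := e1
        linarith
      have hcnt := gc3_count Q π (M π) (Cov π) (A π) (by intro v; simp [Cov]) (by
        intro v; simp [A])
      rw [Fin.sum_univ_three] at hcnt
      have hM0 := hM 0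
      have hM1 := hM 1
      have hM2 := hM 2
      have hD' : ((Q.filter fun q => π q ∈ A π).card : ℝ) ≤ η * Q.card := (not_le.1 hD).le
      have hpart : ((Q.filter fun q => π q ∈ Cov π).card : ℝ) +
          (Q.filter fun q => π q ∉ Cov π).card = Q.card := by
        exact_mod_cast Finset.card_filter_add_card_filter_not (s := Q) (fun q => π q ∈ Cov π)
      rw [hQc] at hD' hpart ⊢
      nlinarith)
    -- combination
    have hev : ∀ π, w π * (if ((∀ b, ¬ S.E (rlx k π x (T b + t (some (Sum.inr j))))) ∧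
        ∀ i < R, ¬ ∃ b b', b ≠ b' ∧ S.E (rlx k π x (T b + t (some (Sum.inr (j + 1 + i))))) ∧
        S.E (rlx k π x (T b' + t (some (Sum.inr (j + 1 + i)))))) then (1 : ℝ) else 0) ≤
        w1 π * (if ∀ i, π (p i) ∉ A π then 1 else 0) +
        w2 π * (if π (Fin.ofNat N (k + j)) ∉ Cov π then 1 else 0) := by
      intro π
      by_cases hwx : w π = 0
      · have e1 : w1 π = 0 := by simp only [w1]; split_ifs; exacts [hwx, rfl]
        have e2 : w2 π = 0 := by simp only [w2]; split_ifs; exacts [rfl, hwx]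
        rw [hwx, e1, e2]
        simp
      have hx : x ∈ Fset S φ π ∧ Off k a π x := by
        by_contra h
        apply hwx
        simp only [w, gc3w]
        exact if_neg h
      have hxr := fset_ref hx.1
      have hadd : ∀ b, ∀ i, a ≤ i → k + i < N →
          (S.E (rlx k π x (T b + t (some (Sum.inr i)))) ↔
            π (Fin.ofNat N (k + i)) ∈ M π b) := by
        intro b i hi hiN
        rw [rlx_add hk hiN π hxr (hT b) hi]
        simp [M]
      by_cases hP : ((∀ b, ¬ S.E (rlx k π x (T b + t (some (Sum.inr j))))) ∧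
        ∀ i < R, ¬ ∃ b b', b ≠ b' ∧ S.E (rlx k π x (T b + t (some (Sum.inr (j + 1 + i))))) ∧
        S.E (rlx k π x (T b' + t (some (Sum.inr (j + 1 + i))))))
      · rw [if_pos hP]
        have c1 : ∀ i, π (p i) ∉ A π := by
          intro i hi
          obtain ⟨b, b', hbb, m1, m2⟩ := (Finset.mem_filter.1 hi).2
          refine hP.2 i i.2 ⟨b, b', hbb, ?_, ?_⟩
          · exact (hadd b (j + 1 + i) (by omega) (by have := i.2; omega)).2 m1
          · exact (hadd b' (j + 1 + i) (by omega) (by have := i.2; omega)).2 m2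
        have c2 : π (Fin.ofNat N (k + j)) ∉ Cov π := by
          intro hi
          obtain ⟨b, m1⟩ := (Finset.mem_filter.1 hi).2
          exact hP.1 b ((hadd b j hj (by omega)).2 m1)
        rw [if_pos c1, if_pos c2]
        simp only [w1, w2]
        split_ifs <;> simp
      · rw [if_neg hP, mul_zero]
        apply add_nonneg
        · apply mul_nonneg (hw1 π)
          split_ifs <;> norm_num
        · apply mul_nonneg (hw2 π)
          split_ifs <;> norm_num
    calc ∑ π : Equiv.Perm (Fin N), gc3w (Fset S φ π) (Off k a π) x *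
        (if ((∀ b, ¬ S.E (rlx k π x (T b + t (some (Sum.inr j))))) ∧
        ∀ i < R, ¬ ∃ b b', b ≠ b' ∧ S.E (rlx k π x (T b + t (some (Sum.inr (j + 1 + i))))) ∧
        S.E (rlx k π x (T b' + t (some (Sum.inr (j + 1 + i)))))) then (1 : ℝ) else 0)
        ≤ ∑ π : Equiv.Perm (Fin N), (w1 π * (if ∀ i, π (p i) ∉ A π then 1 else 0) +
          w2 π * (if π (Fin.ofNat N (k + j)) ∉ Cov π then 1 else 0)) :=
          Finset.sum_le_sum (fun π _ => hev π)
      _ ≤ (1 - η) ^ R * ∑ π, w1 π + β * ∑ π, w2 π := by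
          rw [Finset.sum_add_distrib]
          exact add_le_add b1 b2
      _ ≤ (1 - η) ^ R * ∑ π, w π + β * ∑ π, w π := by
          apply add_le_add
          · apply mul_le_mul_of_nonneg_left _ hη1
            apply Finset.sum_le_sum
            intro π _
            simp only [w1]
            split_ifs
            exacts [le_rfl, hw π]
          · apply mul_le_mul_of_nonneg_left _ hβ0
            apply Finset.sum_le_sum
            intro π _
            simp only [w2]
            split_ifs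
            exacts [hw π, le_rfl]
      _ = ((1 - η) ^ R + β) * ∑ π : Equiv.Perm (Fin N), gc3w (Fset S φ π) (Off k a π) x := by
          simp only [w]
          ring
  calc ∑ π : Equiv.Perm (Fin N), avg (Fset S φ π) (fun x => Off k a π x ∧
      (∀ b, ¬ S.E (rlx k π x (T b + t (some (Sum.inr j))))) ∧
      ∀ i < R, ¬ ∃ b b', b ≠ b' ∧ S.E (rlx k π x (T b + t (some (Sum.inr (j + 1 + i))))) ∧
        S.E (rlx k π x (T b' + t (some (Sum.inr (j + 1 + i))))))
      = ∑ π : Equiv.Perm (Fin N), ∑ x, gc3w (Fset S φ π) (Off k a π) x *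
        (if ((∀ b, ¬ S.E (rlx k π x (T b + t (some (Sum.inr j))))) ∧
        ∀ i < R, ¬ ∃ b b', b ≠ b' ∧ S.E (rlx k π x (T b + t (some (Sum.inr (j + 1 + i))))) ∧
        S.E (rlx k π x (T b' + t (some (Sum.inr (j + 1 + i)))))) then (1 : ℝ) else 0) := by
        apply Finset.sum_congr rfl
        intro π _
        convert gc3_avg (Fset S φ π) (Off k a π) (fun x =>
          (∀ b, ¬ S.E (rlx k π x (T b + t (some (Sum.inr j))))) ∧
          ∀ i < R, ¬ ∃ b b', b ≠ b' ∧ S.E (rlx k π x (T b + t (some (Sum.inr (j + 1 + i))))) ∧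
            S.E (rlx k π x (T b' + t (some (Sum.inr (j + 1 + i)))))) using 1
        apply Finset.sum_congr rfl
        intro x _
        congr!
    _ = ∑ x, ∑ π : Equiv.Perm (Fin N), gc3w (Fset S φ π) (Off k a π) x *
        (if ((∀ b, ¬ S.E (rlx k π x (T b + t (some (Sum.inr j))))) ∧
        ∀ i < R, ¬ ∃ b b', b ≠ b' ∧ S.E (rlx k π x (T b + t (some (Sum.inr (j + 1 + i))))) ∧
        S.E (rlx k π x (T b' + t (some (Sum.inr (j + 1 + i)))))) then (1 : ℝ) else 0) :=
        Finset.sum_comm
    _ ≤ ∑ x, ((1 - η) ^ R + β) * ∑ π : Equiv.Perm (Fin N),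
        gc3w (Fset S φ π) (Off k a π) x := Finset.sum_le_sum (fun x _ => main x)
    _ = ((1 - η) ^ R + β) * ∑ π : Equiv.Perm (Fin N), ∑ x,
        gc3w (Fset S φ π) (Off k a π) x := by
        rw [← Finset.mul_sum, Finset.sum_comm]
    _ ≤ ((1 - η) ^ R + β) * ∑ _π : Equiv.Perm (Fin N), (1 : ℝ) := by
        apply mul_le_mul_of_nonneg_left _ (by positivity)
        exact Finset.sum_le_sum (fun π _ => gc3w_sum _ _)
    _ = ((1 - η) ^ R + β) * (N.factorial : ℝ) := by
        rw [Finset.sum_const, Finset.card_univ, Fintype.card_perm, Fintype.card_fin]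
        simp

end Pool.Agent.Lib.MP_a572be_co
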