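import Pool.Agent.Lib.MP_a572be_co.GenInv
import Pool.Agent.Lib.MP_a572be_co.GenSwap

/-!
# Bounds for the probability of bad placements
-/

namespace Pool.Agent.Lib.MP_a572be_co

open Classical

variable {N : ℕ} [NeZero N]

/-- The far positions. -/
noncomputable def gencost4_Q (N m : ℕ) : Finset (Fin N) := Finset.univ.filter fun q => m ≤ (q : ℕ)

omit [NeZero N] in
theorem gencost4_compl_card {m : ℕ} (hm : m ≤ N) :
    (Finset.univ.filter fun q : Fin N => ¬ m ≤ (q : ℕ)).card = m := by
  have h1 : (Finset.univ.filter fun q : Fin N => ¬ m ≤ (q : ℕ)) =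
      (Finset.univ : Finset (Fin m)).map (Fin.castLEEmb hm) := by
    ext q
    simp only [Finset.mem_filter, Finset.mem_univ, true_and, Finset.mem_map, not_le]
    constructor
    · intro hq
      exact ⟨⟨q, hq⟩, by ext; rfl⟩
    · rintro ⟨j, rfl⟩
      exact j.2
  rw [h1, Finset.card_map, Finset.card_univ, Fintype.card_fin]

omit [NeZero N] in
theorem gencost4_Q_card {m : ℕ} (hm : m ≤ N) : (gencost4_Q N m).card + m = N := by
  have h := Finset.card_filter_add_card_filter_not (s := (Finset.univ : Finset (Fin N)))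
    (fun q : Fin N => m ≤ (q : ℕ))
  rw [gencost4_compl_card hm, Finset.card_univ, Fintype.card_fin] at h
  exact h

omit [NeZero N] in
/-- At most `m` of the elements of a set are not the value at a far position. -/
theorem gencost4_count {m : ℕ} (hm : m ≤ N) (π : Equiv.Perm (Fin N)) (A : Finset (Fin N)) :
    A.card ≤ ((gencost4_Q N m).filter fun q => π q ∈ A).card + m := by
  have h1 : A.card = (Finset.univ.filter fun q : Fin N => π q ∈ A).card := by
    rw [← Finset.card_map π.toEmbedding (s := Finset.univ.filter fun q : Fin N => π q ∈ A)]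
    congr 1
    ext v
    simp only [Finset.mem_map, Finset.mem_filter, Finset.mem_univ, true_and,
      Equiv.coe_toEmbedding]
    constructor
    · intro hv
      exact ⟨π.symm v, by simpa using hv, by simp⟩
    · rintro ⟨q, hq, rfl⟩
      exact hq
  have h2 := Finset.card_filter_add_card_filter_not
    (s := (Finset.univ.filter fun q : Fin N => π q ∈ A)) (fun q : Fin N => m ≤ (q : ℕ))
  have h3 : ((Finset.univ.filter fun q : Fin N => π q ∈ A).filter
      fun q : Fin N => m ≤ (q : ℕ)) = (gencost4_Q N m).filter fun q => π q ∈ A := by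
    unfold gencost4_Q
    rw [Finset.filter_filter, Finset.filter_filter]
    apply Finset.filter_congr
    intro q _
    exact and_comm
  have h4 : ((Finset.univ.filter fun q : Fin N => π q ∈ A).filter
      fun q : Fin N => ¬ m ≤ (q : ℕ)).card ≤ m := by
    calc _ ≤ (Finset.univ.filter fun q : Fin N => ¬ m ≤ (q : ℕ)).card := by
          apply Finset.card_le_card
          intro q hq
          rw [Finset.mem_filter] at hq ⊢
          exact ⟨Finset.mem_univ _, hq.2⟩
      _ = m := gencost4_compl_card hm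
  rw [h1, ← h2, h3]
  omega

/-- The general bound. -/
theorem gencost4_gen {k r : ℕ} (S : CSys k r (Fin N)) (φ : Fml Cl) {a : ℕ}
    (hφ : FBel a φ) {R : ℕ} (hk : a ≤ k) (hN : k + a + R ≤ N) {α : ℝ} (h0 : 0 ≤ α) (h1 : α ≤ 1)
    (A : Fin N → Equiv.Perm (Fin N) → Finset (Fin N))
    (hinv : ∀ x π, ∀ q q' : Fin N, k + a ≤ (q : ℕ) → k + a ≤ (q' : ℕ) →
      A x (π * Equiv.swap q q') = A x π)
    (hcount : ∀ x π, x ∈ Fset S φ π → Off k a π x →
      α * ((gencost4_Q N (k + a)).card : ℝ) ≤ (((gencost4_Q N (k + a)).filter fun q => π q ∈ A x π).card : ℝ))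
    (B : Equiv.Perm (Fin N) → Fin N → Prop)
    (hB : ∀ π x, x ∈ Fset S φ π → B π x → Off k a π x ∧
      ∀ i : Fin R, π (Fin.ofNat N (k + a + i)) ∉ A x π) :
    ∑ π : Equiv.Perm (Fin N), avg (Fset S φ π) (B π) ≤ (1 - α) ^ R * (N.factorial : ℝ) := by
  -- the weights
  let w : Fin N → Equiv.Perm (Fin N) → ℝ := fun x π =>
    if x ∈ Fset S φ π ∧ Off k a π x then 1 / ((Fset S φ π).card : ℝ) else 0
  let p : Fin R → Fin N := fun i => Fin.ofNat N (k + a + i)
  have hpval : ∀ i : Fin R, ((p i : Fin N) : ℕ) = k + a + i := by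
    intro i
    have : k + a + (i : ℕ) < N := by have := i.2; omega
    change (k + a + (i : ℕ)) % N = _
    exact Nat.mod_eq_of_lt this
  have hw : ∀ x π, 0 ≤ w x π := by
    intro x π
    simp only [w]
    split_ifs
    · positivity
    · exact le_refl _
  have hNka : k + a ≤ N := by omega
  -- invariance
  have hwinv : ∀ x π, ∀ q ∈ gencost4_Q N (k + a), ∀ q' ∈ gencost4_Q N (k + a),
      w x (π * Equiv.swap q q') = w x π ∧ A x (π * Equiv.swap q q') = A x π := by
    intro x π q hq q' hq'
    have hq1 : k + a ≤ (q : ℕ) := (Finset.mem_filter.1 hq).2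
    have hq2 : k + a ≤ (q' : ℕ) := (Finset.mem_filter.1 hq').2
    obtain ⟨_, _, _, h4, h5⟩ := far_swap hk hNka S π hq1 hq2
    refine ⟨?_, hinv x π q q' hq1 hq2⟩
    simp only [w]
    rw [h4 φ hφ]
    simp only [h5 x]
  have hmain : ∀ x, ∑ π, w x π * (if ∀ i, π (p i) ∉ A x π then 1 else 0) ≤
      (1 - α) ^ R * ∑ π, w x π := by
    intro x
    apply swap_many (gencost4_Q N (k + a)) p _ _ (w x) (hw x) (A x) (hwinv x) α h0 h1
    · intro π hne
      have : x ∈ Fset S φ π ∧ Off k a π x := by
        by_contra hcon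
        apply hne
        simp only [w, if_neg hcon]
      exact hcount x π this.1 this.2
    · intro i
      unfold gencost4_Q
      rw [Finset.mem_filter]
      refine ⟨Finset.mem_univ _, ?_⟩
      rw [hpval]
      omega
    · intro i j hij
      have : ((p i : Fin N) : ℕ) = ((p j : Fin N) : ℕ) := by rw [hij]
      rw [hpval, hpval] at this
      ext
      omega
  -- total weight
  have htot : ∀ π, ∑ x, w x π ≤ 1 := by
    intro π
    have h2 : ∑ x, w x π ≤ ∑ x, if x ∈ Fset S φ π then 1 / ((Fset S φ π).card : ℝ) else 0 := by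
      apply Finset.sum_le_sum
      intro x _
      simp only [w]
      by_cases hx : x ∈ Fset S φ π
      · by_cases ho : Off k a π x
        · simp [hx, ho]
        · simp [hx, ho]
      · simp [hx]
    refine h2.trans ?_
    rw [← Finset.sum_filter]
    have h3 : (Finset.univ.filter fun x => x ∈ Fset S φ π) = Fset S φ π := by
      ext x; simp
    rw [h3, Finset.sum_const, nsmul_eq_mul]
    by_cases hc : (Fset S φ π).card = 0
    · rw [hc]; simp
    · have : ((Fset S φ π).card : ℝ) ≠ 0 := by exact_mod_cast hc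
      rw [mul_one_div_cancel this]
  -- the averages
  have havg : ∀ π, avg (Fset S φ π) (B π) ≤
      ∑ x, w x π * (if ∀ i, π (p i) ∉ A x π then 1 else 0) := by
    intro π
    unfold avg
    have h2 : (((Fset S φ π).filter (B π)).card : ℝ) / ((Fset S φ π).card : ℝ) =
        ∑ x ∈ (Fset S φ π).filter (B π), 1 / ((Fset S φ π).card : ℝ) := by
      rw [Finset.sum_const, nsmul_eq_mul, mul_one_div]
    rw [h2]
    have h3 : ∑ x ∈ (Fset S φ π).filter (B π), 1 / ((Fset S φ π).card : ℝ) =
        ∑ x ∈ (Fset S φ π).filter (B π),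
          w x π * (if ∀ i, π (p i) ∉ A x π then 1 else 0) := by
      apply Finset.sum_congr rfl
      intro x hx
      rw [Finset.mem_filter] at hx
      obtain ⟨ho, hi⟩ := hB π x hx.1 hx.2
      have hi' : ∀ i, π (p i) ∉ A x π := hi
      simp only [w]
      rw [if_pos ⟨hx.1, ho⟩, if_pos hi', mul_one]
    rw [h3]
    apply Finset.sum_le_sum_of_subset_of_nonneg (Finset.subset_univ _)
    intro x _ _
    apply mul_nonneg (hw x π)
    split_ifs <;> norm_num
  calc ∑ π : Equiv.Perm (Fin N), avg (Fset S φ π) (B π)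
      ≤ ∑ π : Equiv.Perm (Fin N), ∑ x, w x π * (if ∀ i, π (p i) ∉ A x π then 1 else 0) :=
        Finset.sum_le_sum fun π _ => havg π
    _ = ∑ x, ∑ π : Equiv.Perm (Fin N), w x π * (if ∀ i, π (p i) ∉ A x π then 1 else 0) :=
        Finset.sum_comm
    _ ≤ ∑ x, (1 - α) ^ R * ∑ π : Equiv.Perm (Fin N), w x π :=
        Finset.sum_le_sum fun x _ => hmain x
    _ = (1 - α) ^ R * ∑ π : Equiv.Perm (Fin N), ∑ x, w x π := by
        rw [← Finset.mul_sum, Finset.sum_comm]
    _ ≤ (1 - α) ^ R * ∑ π : Equiv.Perm (Fin N), (1 : ℝ) := by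
        apply mul_le_mul_of_nonneg_left
        · exact Finset.sum_le_sum fun π _ => htot π
        · exact pow_nonneg (by linarith) R
    _ = (1 - α) ^ R * (N.factorial : ℝ) := by
        rw [Finset.sum_const, Finset.card_univ, Fintype.card_perm, Fintype.card_fin]
        simp

/-- The neighbours at far positions. -/
theorem gencost4_nbr {k r : ℕ} (S : CSys k r (Fin N)) {γ : ℝ} (hγ : Cod S γ) {a : ℕ}
    {T : Tg Clx} (hT : Bel a T) (hlev : cnt ClxI Set.univ T = -1)
    (hk : a ≤ k) (hN : k + a ≤ N) {π : Equiv.Perm (Fin N)} {x : Fin N}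
    (hx : x ∈ ref k π) (hoff : Off k a π x) :
    γ * N - k - a ≤ (((gencost4_Q N (k + a)).filter fun q =>
      π q ∈ Finset.univ.filter (fun v => S.E (insert v (rlx k π x T)))).card : ℝ) := by
  have h1 := hγ (rlx k π x T) (rlx_card hk hN π hx hoff hT hlev)
  have h2 := gencost4_count hN π (Finset.univ.filter (fun v => S.E (insert v (rlx k π x T))))
  have h3 : ((Finset.univ.filter (fun v => S.E (insert v (rlx k π x T)))).card : ℝ) ≤
      (((gencost4_Q N (k + a)).filter fun q =>
      π q ∈ Finset.univ.filter (fun v => S.E (insert v (rlx k π x T)))).card : ℝ) +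
      ((k + a : ℕ) : ℝ) := by exact_mod_cast h2
  push_cast at h3
  linarith

/-- **Four sets.** As `cost_N`, with `A π` the set of the `v` which are neighbours of at least two of
the four sets `rlx (T b)`. If `U = {π q | q ∈ Q}`, then
`∑_b |N_b ∩ U| ≤ |U| + 3 |A ∩ U|` and `|N_b ∩ U| ≥ γ N - k - a`. -/
theorem cost_4 {k r : ℕ} (S : CSys k r (Fin N)) {γ : ℝ} (hγ : Cod S γ) (φ : Fml Cl) {a : ℕ}
    (hφ : FBel a φ) {T : Fin 4 → Tg Clx} (hT : ∀ b, Bel a (T b))
    (hlev : ∀ b, cnt ClxI Set.univ (T b) = -1) {R : ℕ}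
    (hk : a ≤ k) (hN : k + a + R ≤ N) {α : ℝ} (h0 : 0 ≤ α) (h1 : α ≤ 1)
    (hα : 3 * α * ((N : ℝ) - k - a) ≤ 4 * (γ * N - k - a) - (N - k - a)) :
    ∑ π : Equiv.Perm (Fin N), avg (Fset S φ π) (fun x => Off k a π x ∧
      ∀ i < R, ¬ ∃ b b', b ≠ b' ∧ S.E (rlx k π x (T b + t (some (Sum.inr (a + i))))) ∧
        S.E (rlx k π x (T b' + t (some (Sum.inr (a + i)))))) ≤
      (1 - α) ^ R * (N.factorial : ℝ) := by
  have hN' : k + a ≤ N := by omega
  have hQ : ((gencost4_Q N (k + a)).card : ℝ) = (N : ℝ) - k - a := by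
    have := gencost4_Q_card hN'
    have h' : (((gencost4_Q N (k + a)).card + (k + a) : ℕ) : ℝ) = (N : ℝ) := by exact_mod_cast this
    push_cast at h'
    linarith
  apply gencost4_gen S φ hφ hk hN h0 h1
    (fun x π => Finset.univ.filter (fun v => ∃ b b', b ≠ b' ∧
      S.E (insert v (rlx k π x (T b))) ∧ S.E (insert v (rlx k π x (T b')))))
  · intro x π q q' hq hq'
    obtain ⟨_, _, h3, _, _⟩ := far_swap hk hN' S π hq hq'
    simp only [h3 x _ (hT _)]
  · intro x π hx hoff
    rw [hQ]
    have hnb := fun b => gencost4_nbr S hγ (hT b) (hlev b) hk hN' (fset_ref hx) hoff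
    have hpt : ∀ q : Fin N, (∑ b : Fin 4, if π q ∈ Finset.univ.filter
        (fun v => S.E (insert v (rlx k π x (T b)))) then (1 : ℕ) else 0) ≤
        1 + 3 * (if π q ∈ Finset.univ.filter (fun v => ∃ b b', b ≠ b' ∧
      S.E (insert v (rlx k π x (T b))) ∧ S.E (insert v (rlx k π x (T b')))) then 1 else 0) := by
      intro q
      simp only [Finset.mem_filter, Finset.mem_univ, true_and]
      by_cases hA : ∃ b b', b ≠ b' ∧
        S.E (insert (π q) (rlx k π x (T b))) ∧ S.E (insert (π q) (rlx k π x (T b')))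
      · rw [if_pos hA]
        calc (∑ b : Fin 4, if S.E (insert (π q) (rlx k π x (T b))) then (1 : ℕ) else 0)
            ≤ ∑ b : Fin 4, 1 := by
              apply Finset.sum_le_sum
              intro b _
              split_ifs <;> omega
          _ = 4 := by simp
          _ ≤ 1 + 3 * 1 := by norm_num
      · rw [if_neg hA]
        rw [← Finset.card_filter]
        have : ((Finset.univ : Finset (Fin 4)).filter
            fun b => S.E (insert (π q) (rlx k π x (T b)))).card ≤ 1 := by
          rw [Finset.card_le_one]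
          intro b hb b' hb'
          by_contra hne
          exact hA ⟨b, b', hne, (Finset.mem_filter.1 hb).2, (Finset.mem_filter.1 hb').2⟩
        omega
    have hsum : ∑ b : Fin 4, ((gencost4_Q N (k + a)).filter fun q => π q ∈ Finset.univ.filter
        (fun v => S.E (insert v (rlx k π x (T b))))).card ≤
        (gencost4_Q N (k + a)).card + 3 * ((gencost4_Q N (k + a)).filter fun q =>
        π q ∈ Finset.univ.filter (fun v => ∃ b b', b ≠ b' ∧
      S.E (insert v (rlx k π x (T b))) ∧ S.E (insert v (rlx k π x (T b'))))).card := by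
      simp only [Finset.card_filter _ (gencost4_Q N (k + a))]
      rw [Finset.sum_comm]
      calc _ ≤ ∑ q ∈ gencost4_Q N (k + a), (1 + 3 * (if π q ∈ Finset.univ.filter
            (fun v => ∃ b b', b ≠ b' ∧
            S.E (insert v (rlx k π x (T b))) ∧ S.E (insert v (rlx k π x (T b')))) then 1 else 0)) :=
            Finset.sum_le_sum fun q _ => hpt q
        _ = _ := by
            rw [Finset.sum_add_distrib, ← Finset.mul_sum]
            simp
    have hsum' : (4 : ℝ) * (γ * N - k - a) ≤ ((N : ℝ) - k - a) +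
        3 * (((gencost4_Q N (k + a)).filter fun q =>
        π q ∈ Finset.univ.filter (fun v => ∃ b b', b ≠ b' ∧
      S.E (insert v (rlx k π x (T b))) ∧ S.E (insert v (rlx k π x (T b'))))).card : ℝ) := by
      rw [← hQ]
      have h4 : (4 : ℝ) * (γ * N - k - a) ≤ ∑ b : Fin 4, (((gencost4_Q N (k + a)).filter fun q =>
          π q ∈ Finset.univ.filter (fun v => S.E (insert v (rlx k π x (T b))))).card : ℝ) := by
        calc (4 : ℝ) * (γ * N - k - a) = ∑ b : Fin 4, (γ * N - k - a) := by
              rw [Finset.sum_const, Finset.card_univ, Fintype.card_fin, nsmul_eq_mul]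
              norm_num
          _ ≤ _ := Finset.sum_le_sum fun b _ => hnb b
      refine h4.trans ?_
      exact_mod_cast hsum
    linarith
  · rintro π x hx ⟨hoff, hev⟩
    refine ⟨hoff, ?_⟩
    intro i hi
    rw [Finset.mem_filter] at hi
    obtain ⟨_, b, b', hne, hb, hb'⟩ := hi
    apply hev i i.2
    have hlt : k + (a + (i : ℕ)) < N := by have := i.2; omega
    refine ⟨b, b', hne, ?_, ?_⟩
    · rw [rlx_add hk hlt π (fset_ref hx) (hT b) (Nat.le_add_right a i), ← add_assoc]
      exact hb
    · rw [rlx_add hk hlt π (fset_ref hx) (hT b') (Nat.le_add_right a i), ← add_assoc]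
      exact hb'

end Pool.Agent.Lib.MP_a572be_co
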