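import Mathlib

namespace Pool.Agent.Lib.MP_a572be_co

set_option maxRecDepth 100000 in
theorem lintot_tab : ∀ a b c d e f : Fin 3,
    (∀ s s' : Fin 3, (![![a, b, c], ![b, d, e], ![c, e, f]] : Fin 3 → Fin 3 → Fin 3) s
      ((![![a, b, c], ![b, d, e], ![c, e, f]] : Fin 3 → Fin 3 → Fin 3) s s') = s') →
    ∃ C : Fin 3, ∀ s s' : Fin 3,
      (![![a, b, c], ![b, d, e], ![c, e, f]] : Fin 3 → Fin 3 → Fin 3) s s' = C - s - s' := by
  decide

/-- Totally symmetric operations on `ZMod 3`. (Six values `n s s'`, `s ≤ s'`; `decide` over six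
variables of `ZMod 3`.) -/
theorem totsym3 (n : ZMod 3 → ZMod 3 → ZMod 3) (hs : ∀ s s', n s s' = n s' s)
    (hi : ∀ s s', n s (n s s') = s') : ∃ C, ∀ s s', n s s' = C - s - s' := by
  have h := lintot_tab (n 0 0) (n 0 1) (n 0 2) (n 1 1) (n 1 2) (n 2 2)
  have e : (![![n 0 0, n 0 1, n 0 2], ![n 0 1, n 1 1, n 1 2], ![n 0 2, n 1 2, n 2 2]] :
      Fin 3 → Fin 3 → Fin 3) = n := by
    funext s s'
    fin_cases s <;> fin_cases s' <;> first | rfl | exact hs _ _
  rw [e] at h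
  exact h hi

end Pool.Agent.Lib.MP_a572be_co
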