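import Pool.Agent.Lib.MP_a572be_co.LinB2
import Pool.Agent.Lib.MP_a572be_co.LinTot

/-!
# The linear structure
-/

namespace Pool.Agent.Lib.MP_a572be_co

namespace World

variable {r : ℕ} {Ω : Type} (W : World r Ω)

theorem linc_in (L : Tg Ω) (D : Finset Ω) : ∃ y, y ∉ D ∧ W.m L y := by
  classical
  obtain ⟨y, hy, hyD⟩ := W.infI.exists_notMem_finset (D ∪ L.support)
  refine ⟨y, fun h => hyD (Finset.mem_union_left _ h), ?_⟩
  exact (mem_of_notMem_support W.I (fun h => hyD (Finset.mem_union_right _ h))).2 hy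

theorem linc_out (L : Tg Ω) (D : Finset Ω) : ∃ y, y ∉ D ∧ ¬ W.m L y := by
  classical
  obtain ⟨y, hy, hyD⟩ := W.infO.exists_notMem_finset (D ∪ L.support)
  refine ⟨y, fun h => hyD (Finset.mem_union_left _ h), fun hm => hy ?_⟩
  exact (mem_of_notMem_support W.I (fun h => hyD (Finset.mem_union_right _ h))).1 hm

/-- All levels occur. -/
theorem linc_lev (n : ℤ) : ∃ Z, W.lev Z = n := by
  have key : ∀ k : ℤ, ∃ Z, W.lev Z = W.e0 + k := by
    intro k
    induction k using Int.induction_on with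
    | zero => exact ⟨0, by unfold PW.lev; rw [cnt_zero]⟩
    | succ i ih =>
      obtain ⟨Z, hZ⟩ := ih
      obtain ⟨y, _, hy⟩ := W.linc_out Z ∅
      exact ⟨Z + t y, by rw [W.toPW.lev_out hy, hZ]; ring⟩
    | pred i ih =>
      obtain ⟨Z, hZ⟩ := ih
      obtain ⟨y, _, hy⟩ := W.linc_in Z ∅
      exact ⟨Z + t y, by rw [W.toPW.lev_in hy, hZ]; ring⟩
  obtain ⟨Z, hZ⟩ := key (n - W.e0)
  exact ⟨Z, by rw [hZ]; ring⟩

theorem linc_mark_ne {S : Tg Ω} (hS : W.lev S = -1) : (W.mark S).Nonempty := by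
  obtain ⟨v, _, _, hE⟩ := W.axN S hS ∅
  exact ⟨v, v, hE, W.toPW.eqv_refl _ _⟩

/-- The labelling. -/
theorem linc_lam (h3 : W.Three) : ∃ lam : Ω → ZMod 3, Function.Surjective lam ∧
    (∀ Z, W.lev Z = -2 → ∀ x y, W.PZ Z x y ↔ lam x = lam y) ∧
    (∀ s (b : Prop) (D : Finset Ω), ∃ y, y ∉ D ∧ (y ∈ W.I ↔ b) ∧ lam y = s) := by
  classical
  obtain ⟨Z0, hZ0⟩ := W.linc_lev (-2)
  obtain ⟨a, b, c, ha, hb, hc, dab, dac, dbc⟩ := W.z_three h3 hZ0
  have la : W.lev (Z0 + t a) = -1 := by rw [W.toPW.lev_out ha, hZ0]; ring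
  have lb : W.lev (Z0 + t b) = -1 := by rw [W.toPW.lev_out hb, hZ0]; ring
  have lc : W.lev (Z0 + t c) = -1 := by rw [W.toPW.lev_out hc, hZ0]; ring
  obtain ⟨ya, hya⟩ := W.linc_mark_ne la
  obtain ⟨yb, hyb⟩ := W.linc_mark_ne lb
  obtain ⟨yc, hyc⟩ := W.linc_mark_ne lc
  have nab : ∀ x, x ∈ W.mark (Z0 + t a) → x ∉ W.mark (Z0 + t b) := fun x h1 h2 =>
    Set.disjoint_left.1 dab h1 h2
  have nac : ∀ x, x ∈ W.mark (Z0 + t a) → x ∉ W.mark (Z0 + t c) := fun x h1 h2 =>
    Set.disjoint_left.1 dac h1 h2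
  have nbc : ∀ x, x ∈ W.mark (Z0 + t b) → x ∉ W.mark (Z0 + t c) := fun x h1 h2 =>
    Set.disjoint_left.1 dbc h1 h2
  set lam : Ω → ZMod 3 := fun x => if x ∈ W.mark (Z0 + t a) then 0 else
    if x ∈ W.mark (Z0 + t b) then 1 else 2 with hlam
  have l0 : ∀ x, x ∈ W.mark (Z0 + t a) → lam x = 0 := fun x hx => by simp [hlam, hx]
  have l1 : ∀ x, x ∈ W.mark (Z0 + t b) → lam x = 1 := fun x hx => by
    have : x ∉ W.mark (Z0 + t a) := fun h => nab x h hx
    simp [hlam, hx, this]
  have l2 : ∀ x, x ∈ W.mark (Z0 + t c) → lam x = 2 := fun x hx => by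
    have h1 : x ∉ W.mark (Z0 + t a) := fun h => nac x h hx
    have h2 : x ∉ W.mark (Z0 + t b) := fun h => nbc x h hx
    simp [hlam, h1, h2]
  have n01 : (0 : ZMod 3) ≠ 1 := by decide
  have n02 : (0 : ZMod 3) ≠ 2 := by decide
  have n12 : (1 : ZMod 3) ≠ 2 := by decide
  have hPZ0 : ∀ x y, W.PZ Z0 x y ↔ lam x = lam y := by
    intro x y
    constructor
    · intro h
      have e1 := h a ha
      have e2 := h b hb
      simp only [hlam, e1, e2]
    · intro h
      rw [W.pz_iff h3 hZ0]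
      rcases W.mark_cover h3 la lb lc dab dac dbc x with hx | hx | hx <;>
        rcases W.mark_cover h3 la lb lc dab dac dbc y with hy | hy | hy
      · exact ⟨a, ha, hx, hy⟩
      · rw [l0 x hx, l1 y hy] at h; exact absurd h n01
      · rw [l0 x hx, l2 y hy] at h; exact absurd h n02
      · rw [l1 x hx, l0 y hy] at h; exact absurd h.symm n01
      · exact ⟨b, hb, hx, hy⟩
      · rw [l1 x hx, l2 y hy] at h; exact absurd h n12
      · rw [l2 x hx, l0 y hy] at h; exact absurd h.symm n02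
      · rw [l2 x hx, l1 y hy] at h; exact absurd h.symm n12
      · exact ⟨c, hc, hx, hy⟩
  have hsurj : Function.Surjective lam := by
    intro s
    have hs : s = 0 ∨ s = 1 ∨ s = 2 := by revert s; decide
    rcases hs with rfl | rfl | rfl
    · exact ⟨ya, l0 _ hya⟩
    · exact ⟨yb, l1 _ hyb⟩
    · exact ⟨yc, l2 _ hyc⟩
  refine ⟨lam, hsurj, fun Z hZ x y => ?_, fun s b' D => ?_⟩
  · rw [W.pz_const h3 hZ hZ0, hPZ0]
  · obtain ⟨x, hx⟩ := hsurj s
    obtain ⟨y, hyD, _, hyI, hy⟩ := W.mark_joint {Z0 + t a, Z0 + t b} (by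
      intro S hS
      simp only [Finset.mem_insert, Finset.mem_singleton] at hS
      rcases hS with rfl | rfl
      · exact la
      · exact lb) x b' D
    have e1 := hy (Z0 + t a) (by simp)
    have e2 := hy (Z0 + t b) (by simp)
    refine ⟨y, hyD, hyI, ?_⟩
    rw [← hx]
    simp only [hlam, e1, e2]

/-- **Theorem B.** If all components have three classes then the edges are given by a linear
equation modulo 3.

Proof. Let `Z0` be a set of level `-2` (exists since `I` and its complement are infinite) and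
`≈ := PZ Z0`, an equivalence relation, which is `PZ Z` for every `Z` of level `-2` (`pz_const`). It has
exactly three classes (`z_three`, `mark_cover`, `pz_iff`), so there is a surjective
`lam : Ω → ZMod 3` with `x ≈ y ↔ lam x = lam y`. For every level `-1` set `S` the mark is a class:
`S = Z + x` for `x ∈ S`, and use `pz_iff`, `mark_eq_or`. So there is `mu S : ZMod 3` with
`mark S = {y | lam y = mu S}`. By `pz_mk`, for `Z` of level `-2` and `x, y ∉ Z`,
`mu (Z + x) = mu (Z + y) ↔ lam x = lam y`, and by `mark_nbr` for `x ≠ y`: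
`lam y = mu (Z + x) ↔ lam x = mu (Z + y)` (both say that `Z + x + y` is an edge).
Let `Y` have level `-3`. For distinct `a, b ∉ Y`, `mu (Y + a + b)` depends only on `lam a`, `lam b`
(apply the first property to `Y + a` and to `Y + b`; there are many elements of each label outside
`Y`, `mark_joint`), so `mu (Y + a + b) = n (lam a) (lam b)` for some `n`, symmetric and with
`n s (n s s') = s'` (the second property for `Z = Y + a`). By `totsym3`,
`mu (Y + a + b) = C - lam a - lam b`. Hence for an exchange `S' = S - a + b` of level `-1` sets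
(`Y = S - a - c` with another `c ∈ S`, `c ≠ a, b`), `mu S' = mu S + lam a - lam b`, so
`mu S + fsum lam S` is invariant; by `lev_chain` it is a constant `cE`. For `K` of level `0` and
`x ∈ K`, `S = K - x`: `K` is an edge iff `lam x = mu S = cE - fsum lam S` iff `fsum lam K = cE`.
For an edge `K` the class of `x` (with `x ∈ K` after taking a copy) is `mark (K - x)`, a class of
`lam`. -/
theorem linear (h3 : W.Three) : ∃ (lam : Ω → ZMod 3) (cE : ZMod 3), Function.Surjective lam ∧
    (∀ K, W.E K ↔ (W.lev K = 0 ∧ fsum W.I lam K = cE)) ∧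
    (∀ K, W.E K → ∀ x y, W.Eqv K x y ↔ lam x = lam y) := by
  classical
  obtain ⟨lam, hsurj, hPZ, hlab⟩ := W.linc_lam h3
  -- labels inside and outside a set
  have lout : ∀ (s : ZMod 3) (L : Tg Ω) (D : Finset Ω), ∃ y, y ∉ D ∧ ¬ W.m L y ∧ lam y = s := by
    intro s L D
    obtain ⟨y, hyD, hyI, hy⟩ := hlab s False (D ∪ L.support)
    refine ⟨y, fun h => hyD (Finset.mem_union_left _ h), fun hm => ?_, hy⟩
    exact hyI.1 ((mem_of_notMem_support W.I
      (fun h => hyD (Finset.mem_union_right _ h))).1 hm)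
  -- marks are classes
  have hmu : ∀ S, ∃ u : ZMod 3, W.lev S = -1 → ∀ y, y ∈ W.mark S ↔ lam y = u := by
    intro S
    by_cases hS : W.lev S = -1
    · obtain ⟨x, _, hx⟩ := W.linc_in S ∅
      obtain ⟨v, hv⟩ := W.linc_mark_ne hS
      have hZ : W.lev (S + t x) = -2 := by rw [W.toPW.lev_in hx, hS]; ring
      have hxZ : ¬ W.m (S + t x) x := by rw [W.toPW.m_self]; simpa using hx
      have hSZ : S + t x + t x = S := tg_add_t_t S x
      refine ⟨lam v, fun _ y => ⟨fun hy => ?_, fun hy => ?_⟩⟩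
      · have : W.PZ (S + t x) y v := (W.pz_iff h3 hZ y v).2
          ⟨x, hxZ, by rw [hSZ]; exact hy, by rw [hSZ]; exact hv⟩
        exact (hPZ _ hZ y v).1 this
      · have h1 : W.PZ (S + t x) y v := (hPZ _ hZ y v).2 hy
        have h2 := h1 x hxZ
        rw [hSZ] at h2
        exact h2.2 hv
    · exact ⟨0, fun h => absurd h hS⟩
  choose mu hmu using hmu
  have mu_eq : ∀ S S', W.lev S = -1 → W.lev S' = -1 → (W.mark S = W.mark S' ↔ mu S = mu S') := by
    intro S S' hS hS'
    constructor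
    · intro h
      obtain ⟨v, hv⟩ := W.linc_mark_ne hS
      have h1 := (hmu S hS v).1 hv
      rw [h] at hv
      have h2 := (hmu S' hS' v).1 hv
      rw [← h1, ← h2]
    · intro h
      ext v
      rw [hmu S hS, hmu S' hS', h]
  have lvo : ∀ {L : Tg Ω} {x : Ω} {n : ℤ}, ¬ W.m L x → W.lev L = n → W.lev (L + t x) = n + 1 := by
    intro L x n hx hn
    rw [W.toPW.lev_out hx, hn]
  have p1 : ∀ Z, W.lev Z = -2 → ∀ x y, ¬ W.m Z x → ¬ W.m Z y →
      (mu (Z + t x) = mu (Z + t y) ↔ lam x = lam y) := by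
    intro Z hZ x y hx hy
    rw [← mu_eq _ _ (by rw [lvo hx hZ]; ring) (by rw [lvo hy hZ]; ring), ← hPZ Z hZ,
      W.pz_mk h3 hZ hx hy]
  have p2 : ∀ Z, W.lev Z = -2 → ∀ x y, x ≠ y → ¬ W.m Z x → ¬ W.m Z y →
      lam y = mu (Z + t x) → lam x = mu (Z + t y) := by
    intro Z hZ x y hxy hx hy h
    have lx : W.lev (Z + t x) = -1 := by rw [lvo hx hZ]; ring
    have ly : W.lev (Z + t y) = -1 := by rw [lvo hy hZ]; ring
    have m1 : ¬ W.m (Z + t x) y := by rw [W.toPW.m_ne Z hxy]; exact hy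
    have m2 : ¬ W.m (Z + t y) x := by rw [W.toPW.m_ne Z (Ne.symm hxy)]; exact hx
    have h1 : W.E (Z + t x + t y) := (W.mark_nbr h3 lx m1).2 ((hmu _ lx y).2 h)
    rw [tg_comm] at h1
    exact (hmu _ ly x).1 ((W.mark_nbr h3 ly m2).1 h1)
  -- level `-3` sets
  have p3 : ∀ Y, W.lev Y = -3 → ∃ C : ZMod 3, ∀ x y, x ≠ y → ¬ W.m Y x → ¬ W.m Y y →
      mu (Y + t x + t y) = C - lam x - lam y := by
    intro Y hY
    have wd : ∀ a b a' b', a ≠ b → a' ≠ b' → ¬ W.m Y a → ¬ W.m Y b → ¬ W.m Y a' → ¬ W.m Y b' →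
        lam a = lam a' → lam b = lam b' → mu (Y + t a + t b) = mu (Y + t a' + t b') := by
      intro a b a' b' hab hab' ha hb ha' hb' h1 h2
      obtain ⟨c, hcD, hc, hcl⟩ := lout (lam b) Y {a, b, a', b'}
      simp only [Finset.mem_insert, Finset.mem_singleton, not_or] at hcD
      obtain ⟨hca, hcb, hca', hcb'⟩ := hcD
      have la : W.lev (Y + t a) = -2 := by rw [lvo ha hY]; ring
      have la' : W.lev (Y + t a') = -2 := by rw [lvo ha' hY]; ring
      have lc : W.lev (Y + t c) = -2 := by rw [lvo hc hY]; ring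
      have e1 : mu (Y + t a + t b) = mu (Y + t a + t c) :=
        (p1 _ la b c (by rw [W.toPW.m_ne Y hab]; exact hb)
          (by rw [W.toPW.m_ne Y (Ne.symm hca)]; exact hc)).2 hcl.symm
      have e2 : mu (Y + t c + t a) = mu (Y + t c + t a') :=
        (p1 _ lc a a' (by rw [W.toPW.m_ne Y hca]; exact ha)
          (by rw [W.toPW.m_ne Y hca']; exact ha')).2 h1
      have e3 : mu (Y + t a' + t c) = mu (Y + t a' + t b') :=
        (p1 _ la' c b' (by rw [W.toPW.m_ne Y (Ne.symm hca')]; exact hc)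
          (by rw [W.toPW.m_ne Y hab']; exact hb')).2 (hcl.trans h2)
      rw [e1, tg_comm, e2, tg_comm, e3]
    have hA : ∀ s : ZMod 3, ∃ a, ¬ W.m Y a ∧ lam a = s := fun s => by
      obtain ⟨y, _, h1, h2⟩ := lout s Y ∅
      exact ⟨y, h1, h2⟩
    choose a ham hal using hA
    have hB : ∀ s : ZMod 3, ∃ b, (∀ s', a s' ≠ b) ∧ ¬ W.m Y b ∧ lam b = s := fun s => by
      obtain ⟨y, h0, h1, h2⟩ := lout s Y (Finset.univ.image a)
      refine ⟨y, fun s' hs' => h0 ?_, h1, h2⟩
      rw [← hs']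
      exact Finset.mem_image_of_mem a (Finset.mem_univ s')
    choose b hab hbm hbl using hB
    set n : ZMod 3 → ZMod 3 → ZMod 3 := fun s s' => mu (Y + t (a s) + t (b s')) with hn
    have hgen : ∀ x y, x ≠ y → ¬ W.m Y x → ¬ W.m Y y → mu (Y + t x + t y) = n (lam x) (lam y) := by
      intro x y hxy hx hy
      exact wd x y (a (lam x)) (b (lam y)) hxy (hab _ _) hx hy (ham _) (hbm _)
        (hal _).symm (hbl _).symm
    have hs : ∀ s s', n s s' = n s' s := by
      intro s s'
      have := hgen (b s') (a s) (Ne.symm (hab s' s)) (hbm _) (ham _)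
      rw [hbl, hal, tg_comm] at this
      rw [← this]
    have hi : ∀ s s', n s (n s s') = s' := by
      intro s s'
      have la : W.lev (Y + t (a s)) = -2 := by rw [lvo (ham s) hY]; ring
      have hbZ : ¬ W.m (Y + t (a s)) (b s') := by
        rw [W.toPW.m_ne Y (hab s' s)]; exact hbm s'
      obtain ⟨y, hyD, hy, hyl⟩ := lout (n s s') (Y + t (a s)) {a s, b s'}
      simp only [Finset.mem_insert, Finset.mem_singleton, not_or] at hyD
      have h1 := p2 _ la (b s') y (Ne.symm hyD.2) hbZ hy hyl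
      have hyY : ¬ W.m Y y := by
        rw [W.toPW.m_ne Y (Ne.symm hyD.1)] at hy; exact hy
      rw [hgen (a s) y (Ne.symm hyD.1) (ham s) hyY, hbl, hal, hyl] at h1
      exact h1.symm
    obtain ⟨C, hC⟩ := totsym3 n hs hi
    exact ⟨C, fun x y hxy hx hy => by rw [hgen x y hxy hx hy, hC]⟩
  -- the invariant
  have inv1 : ∀ S x v, W.lev S = -1 → W.m S x → ¬ W.m S v →
      mu (S + t x + t v) + fsum W.I lam (S + t x + t v) = mu S + fsum W.I lam S := by
    intro S x v hS hx hv
    have hxv := W.toPW.ne_of_m hx hv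
    obtain ⟨c, hcD, hc⟩ := W.linc_in S {x, v}
    simp only [Finset.mem_insert, Finset.mem_singleton, not_or] at hcD
    obtain ⟨hcx, hcv⟩ := hcD
    have mc : W.m (S + t x) c := by rw [W.toPW.m_ne S (Ne.symm hcx)]; exact hc
    have hY : W.lev (S + t x + t c) = -3 := by
      rw [W.toPW.lev_in mc, W.toPW.lev_in hx, hS]; ring
    obtain ⟨C, hC⟩ := p3 _ hY
    have yx : ¬ W.m (S + t x + t c) x := by
      rw [W.toPW.m_ne _ hcx, W.toPW.m_self]; simpa using hx
    have yc : ¬ W.m (S + t x + t c) c := by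
      rw [W.toPW.m_self]; simpa using mc
    have yv : ¬ W.m (S + t x + t c) v := by
      rw [W.toPW.m_ne _ hcv, W.toPW.m_ne _ hxv]; exact hv
    have e1 := hC x c (Ne.symm hcx) yx yc
    have e2 := hC v c (Ne.symm hcv) yv yc
    have f1 : S + t x + t c + t x + t c = S := by abel_nf; simp
    have f2 : S + t x + t c + t v + t c = S + t x + t v := by abel_nf; simp
    rw [f1] at e1
    rw [f2] at e2
    have mv : ¬ mem W.I (S + t x) v := by
      have : ¬ W.m (S + t x) v := by rw [W.toPW.m_ne _ hxv]; exact hv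
      exact this
    have mx : mem W.I S x := hx
    rw [fsum_add_t, fsum_add_t, if_pos mx, if_neg mv, e1, e2]
    ring
  obtain ⟨S0, hS0⟩ := W.linc_lev (-1)
  have inv : ∀ S, W.lev S = -1 → mu S + fsum W.I lam S = mu S0 + fsum W.I lam S0 := by
    intro S hS
    have hch := W.toPW.lev_chain (K := S0) (K' := S) (by rw [hS0, hS])
    have key : ∀ L, Relation.ReflTransGen
        (fun L L' => ∃ x v, W.m L x ∧ ¬ W.m L v ∧ L' = L + t x + t v) S0 L →
        W.lev L = -1 ∧ mu L + fsum W.I lam L = mu S0 + fsum W.I lam S0 := by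
      intro L hL
      induction hL with
      | refl => exact ⟨hS0, rfl⟩
      | @tail L1 L2 _ h2 ih =>
        obtain ⟨x, v, hx, hv, rfl⟩ := h2
        have hxv := W.toPW.ne_of_m hx hv
        refine ⟨?_, ?_⟩
        · rw [W.toPW.lev_out, W.toPW.lev_in hx, ih.1]
          · ring
          · rw [W.toPW.m_ne _ hxv]; exact hv
        · rw [inv1 L1 x v ih.1 hx hv, ih.2]
    exact (key S hch).2
  have hE0 : ∀ K, W.lev K = 0 → (W.E K ↔ fsum W.I lam K = mu S0 + fsum W.I lam S0) := by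
    intro K hK
    obtain ⟨x, _, hx⟩ := W.linc_in K ∅
    have hS : W.lev (K + t x) = -1 := by rw [W.toPW.lev_in hx, hK]; ring
    have hxS : ¬ W.m (K + t x) x := by rw [W.toPW.m_self]; simpa using hx
    have e1 : W.E K ↔ lam x = mu (K + t x) := by
      rw [← hmu _ hS, ← W.mark_nbr h3 hS hxS, tg_add_t_t]
    have e2 := inv _ hS
    have mx : mem W.I K x := hx
    rw [fsum_add_t, if_pos mx] at e2
    rw [e1, ← e2]
    constructor
    · intro h; rw [← h]; ring
    · intro h
      have h' := congrArg (fun z => z - fsum W.I lam K + lam x) h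
      simp only [sub_self, zero_add] at h'
      rw [h']; ring
  refine ⟨lam, mu S0 + fsum W.I lam S0, hsurj, fun K => ⟨fun hK => ?_, fun hK => ?_⟩, ?_⟩
  · have hl := W.toPW.lev_E hK
    exact ⟨hl, (hE0 K hl).1 hK⟩
  · exact (hE0 K hK.1).2 hK.2
  · intro K hK
    have hin : ∀ x y, W.m K x → (W.Eqv K x y ↔ lam x = lam y) := by
      intro x y hx
      have hS := W.toPW.lev_S hK hx
      have e1 := W.mark_edge hK hx y
      have e2 := W.mark_edge hK hx x
      rw [hmu _ hS] at e1 e2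
      have e3 := e2.2 (W.toPW.eqv_refl _ _)
      rw [← e1, e3]
      exact eq_comm
    intro x y
    by_cases hx : W.m K x
    · exact hin x y hx
    · obtain ⟨x', _, hx', hE⟩ := W.toPW.vis hK hx (W.notP x) ∅
      have he : W.Eqv K x' x := W.toPW.eqv_mk hK hx' hx hE
      have hl : lam x' = lam x := (hin x' x hx').1 he
      rw [← hl, ← hin x' y hx']
      exact ⟨fun h => W.toPW.eqv_trans he h, fun h => W.toPW.eqv_trans (W.toPW.eqv_symm he) h⟩

end World

end Pool.Agent.Lib.MP_a572be_co
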