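import Pool.Agent.Lib.MP_a572be_co.MainBad2

/-!
# Not all edges of a two-class component are bad
-/

namespace Pool.Agent.Lib.MP_a572be_co

namespace World

variable {r : ℕ} {Ω : Type} (W : World r Ω)

/-- One direction of the B-move: `K' = K - j + y`, `j, y ∉ A`; neighbours `v ∈ A` of `K - a`,
`a ∈ A ∩ K`, are neighbours of `K' - a`. -/
private theorem mainbad3_B {K0 K : Tg Ω} {A : Set Ω} (hT : W.Two K0 A)
    (hbad : ∀ L, W.Conn K0 L → W.DPair A L → ∀ z, z ∉ A → ¬ W.m L z → W.BadStr L A z)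
    (hD : W.DPair A K0) (hc : W.Conn K0 K) {j y a v : Ω} (hj : j ∉ A) (hy : y ∉ A) (mj : W.m K j)
    (my : ¬ W.m K y) (ha : a ∈ A) (ma : W.m K a) (hv : v ∈ A) (mv : ¬ W.m K v)
    (hE : W.E (K + t a + t v)) : W.E (K + t j + t y + t a + t v) := by
  have hK := W.toPW.conn_E hT.1 hc
  have hcL : W.Conn K0 (K + t a + t v) := W.toPW.conn_trans hc (W.toPW.conn_mk hK ma mv hE)
  have hDL := W.all_dpair hT hbad hD hcL
  have haj : a ≠ j := by rintro rfl; exact hj ha
  have hay : a ≠ y := by rintro rfl; exact hy ha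
  have hvj : v ≠ j := by rintro rfl; exact hj hv
  have hvy : v ≠ y := by rintro rfl; exact hy hv
  have h := (W.x_facts hT hbad hcL hDL).2.2 j y hj
    (by rw [W.toPW.m_ne _ hvj, W.toPW.m_ne _ haj]; exact mj) hy
    (by rw [W.toPW.m_ne _ hvy, W.toPW.m_ne _ hay]; exact my)
  have e : K + t a + t v + t j + t y = K + t j + t y + t a + t v := by abel
  rwa [e] at h

/-- `Sim` is preserved in one direction by the B-move. -/
private theorem mainbad3_BSim {K0 K : Tg Ω} {A : Set Ω} (hT : W.Two K0 A)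
    (hbad : ∀ L, W.Conn K0 L → W.DPair A L → ∀ z, z ∉ A → ¬ W.m L z → W.BadStr L A z)
    (hD : W.DPair A K0) (hc : W.Conn K0 K) {j y a b : Ω} (hj : j ∉ A) (hy : y ∉ A) (mj : W.m K j)
    (my : ¬ W.m K y) (hE : W.E (K + t j + t y)) (ha : a ∈ A) (ma : W.m K a) (hb : b ∈ A)
    (mb : W.m K b) : W.Sim K a b ↔ W.Sim (K + t j + t y) a b := by
  have hK := W.toPW.conn_E hT.1 hc
  have hc' : W.Conn K0 (K + t j + t y) := W.toPW.conn_trans hc (W.toPW.conn_mk hK mj my hE)
  have hjy := W.toPW.ne_of_m mj my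
  have mj' : ¬ W.m (K + t j + t y) j := by
    rw [W.toPW.m_ne _ (Ne.symm hjy), W.toPW.m_self]; simpa using mj
  have my' : W.m (K + t j + t y) y := by
    rw [W.toPW.m_self, W.toPW.m_ne _ hjy]; exact my
  have eK : K + t j + t y + t y + t j = K := by rw [tg_add_t_t, tg_add_t_t]
  -- membership away from `j`, `y`
  have hm : ∀ u, u ∈ A → (W.m (K + t j + t y) u ↔ W.m K u) := by
    intro u hu
    have h1 : y ≠ u := by rintro rfl; exact hy hu
    have h2 : j ≠ u := by rintro rfl; exact hj hu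
    rw [W.toPW.m_ne _ h1, W.toPW.m_ne _ h2]
  -- the key equivalence
  have key : ∀ x v, x ∈ A → W.m K x → v ∈ A → ¬ W.m K v →
      (W.E (K + t x + t v) ↔ W.E (K + t j + t y + t x + t v)) := by
    intro x v hx mx hv mv
    constructor
    · intro h
      exact W.mainbad3_B hT hbad hD hc hj hy mj my hx mx hv mv h
    · intro h
      have h1 := W.mainbad3_B hT hbad hD hc' hy hj my' mj' hx ((hm x hx).2 mx) hv
        (fun h' => mv ((hm v hv).1 h')) h
      rwa [eK] at h1
  constructor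
  · intro hs v mv
    by_cases hv : v ∈ A
    · have mv' : ¬ W.m K v := fun h => mv ((hm v hv).2 h)
      rw [← key a v ha ma hv mv', ← key b v hb mb hv mv']
      exact hs v mv'
    · constructor
      · intro h
        exact absurd ((W.two_exch hT hc' ((hm a ha).2 ma) mv h).1 ha) hv
      · intro h
        exact absurd ((W.two_exch hT hc' ((hm b hb).2 mb) mv h).1 hb) hv
  · intro hs v mv
    by_cases hv : v ∈ A
    · have mv' : ¬ W.m (K + t j + t y) v := fun h => mv ((hm v hv).1 h)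
      rw [key a v ha ma hv mv, key b v hb mb hv mv]
      exact hs v mv'
    · constructor
      · intro h
        exact absurd ((W.two_exch hT hc ma mv h).1 ha) hv
      · intro h
        exact absurd ((W.two_exch hT hc mb mv h).1 hb) hv

/-- The A-move `K' = K - i + v`: `Sim K x i ↔ Sim K' x v`. -/
private theorem mainbad3_A1 {K0 K : Tg Ω} {A : Set Ω} (hT : W.Two K0 A)
    (hbad : ∀ L, W.Conn K0 L → W.DPair A L → ∀ z, z ∉ A → ¬ W.m L z → W.BadStr L A z)
    (hD : W.DPair A K0) (hc : W.Conn K0 K) {i v x : Ω} (hi : i ∈ A) (hv : v ∈ A) (mi : W.m K i)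
    (mv : ¬ W.m K v) (hE : W.E (K + t i + t v)) (hx : x ∈ A) (mx : W.m K x) (hxi : x ≠ i) :
    W.Sim K x i ↔ W.Sim (K + t i + t v) x v := by
  have hK := W.toPW.conn_E hT.1 hc
  have hc' : W.Conn K0 (K + t i + t v) := W.toPW.conn_trans hc (W.toPW.conn_mk hK mi mv hE)
  have hiv := W.toPW.ne_of_m mi mv
  have hxv := W.toPW.ne_of_m mx mv
  have mi' : ¬ W.m (K + t i + t v) i := by
    rw [W.toPW.m_ne _ (Ne.symm hiv), W.toPW.m_self]; simpa using mi
  have mv' : W.m (K + t i + t v) v := by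
    rw [W.toPW.m_self, W.toPW.m_ne _ hiv]; exact mv
  have mx' : W.m (K + t i + t v) x := by
    rw [W.toPW.m_ne _ (Ne.symm hxv), W.toPW.m_ne _ (Ne.symm hxi)]; exact mx
  have e1 : K + t i + t v + t v + t i = K := by rw [tg_add_t_t, tg_add_t_t]
  have e2 : K + t i + t v + t x + t i = K + t x + t v := by abel_nf; simp
  constructor
  · intro hs
    have h1 : W.E (K + t x + t v) := (hs v mv).2 hE
    exact (W.x_facts hT hbad hc' (W.all_dpair hT hbad hD hc')).1 x v i hx hv mx' mv' mi'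
      (by rw [e2]; exact h1) (by rw [e1]; exact hK)
  · intro hs
    have h1 := (hs i mi').2 (by rw [e1]; exact hK)
    rw [e2] at h1
    exact (W.x_facts hT hbad hc (W.all_dpair hT hbad hD hc)).1 x i v hx hi mx mi mv h1 hE

/-- There are at most two `Sim`-classes. -/
private theorem mainbad3_two {K0 K : Tg Ω} {A : Set Ω} (hT : W.Two K0 A)
    (hbad : ∀ L, W.Conn K0 L → W.DPair A L → ∀ z, z ∉ A → ¬ W.m L z → W.BadStr L A z)
    (hD : W.DPair A K0) (hc : W.Conn K0 K) {i a b : Ω} (hi : i ∈ A) (ha : a ∈ A) (hb : b ∈ A)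
    (mi : W.m K i) (ma : W.m K a) (mb : W.m K b) :
    W.Sim K a b ↔ (W.Sim K a i ↔ W.Sim K b i) := by
  constructor
  · intro hs
    exact ⟨fun h => W.sim_trans (W.sim_symm hs) h, fun h => W.sim_trans hs h⟩
  · intro h
    by_contra hs
    obtain ⟨z, _, mz, hz⟩ := W.two_out' hT K ∅
    have hB := hbad K hc (W.all_dpair hT hbad hD hc) z hz mz
    rcases hB.b4 a b i ha hb hi ma mb mi hs with h1 | h1
    · have h2 := W.sim_symm h1
      exact hs (W.sim_trans h2 (W.sim_symm (h.1 h2)))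
    · have h2 := W.sim_symm h1
      exact hs (W.sim_trans (h.2 h2) (W.sim_symm h2))

/-- **Not all D-pair edges are bad.** Apply `inv_rel` to the relation
`c' K x y := (x ∈ A ∧ y ∈ A ∧ Sim K x y) ∨ (x ∉ A ∧ y ∉ A)`. It separates the two elements of a D-pair
of `K0`, which are equivalent since both are in `A`: contradiction. All edges of the component
have D-pairs (`all_dpair`) so `x_facts` applies to all of them.
* `cswap`: for `x, y ∈ A` by (x2); `x ∈ A`, `y ∉ A` is impossible by `two_exch`.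
* `cmove` for the A-move `K' = K - i + v`, `i, v ∈ A`. First, for `x ∈ A ∩ K`, `x ≠ i`:
  `Sim K x i ↔ Sim K' x v`. If `Sim K x i`, then `v` is a neighbour of `K - x` so `i` is a common
  neighbour of `K' - x` and `K' - v`, and `Sim K' x v` by (x2) for `K'`. If `Sim K' x v`, then as `i` is
  a neighbour of `K' - v` it is one of `K' - x`, that is `K - x + v` is an edge, so `v` is a common
  neighbour of `K - x` and `K - i` and `Sim K x i` by (x2). Since there are exactly two `Sim`-classes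
  (`b4`), for `a, b ∈ A ∩ K`, `Sim K a b ↔ (Sim K a i ↔ Sim K b i)`, and similarly for `K'` and `v`;
  so `Sim K a b ↔ Sim K' a b`.
* `cmove` for the B-move `K' = K - j + y`, `j, y ∉ A`. For `a ∈ A ∩ K` and `v ∈ A` outside `K`: if
  `K - a + v` is an edge then so is `K' - a + v` (apply (x3) to the edge `K - a + v`), and
  conversely. Neighbours outside `A` do not exist, so `Sim K a b ↔ Sim K' a b`.
* `cmove'`: similar, as above. -/
theorem no_all_bad {K0 : Tg Ω} {A : Set Ω} (hT : W.Two K0 A)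
    (hbad : ∀ L, W.Conn K0 L → W.DPair A L → ∀ z, z ∉ A → ¬ W.m L z → W.BadStr L A z)
    (hD : W.DPair A K0) : False := by
  obtain ⟨i, l, hi, hl, mi, ml, hns⟩ := hD
  have hD : W.DPair A K0 := ⟨i, l, hi, hl, mi, ml, hns⟩
  have heqv : W.Eqv K0 i l := (hT.2.1 i l).2 (iff_of_true hi hl)
  have key := W.toPW.inv_rel W.P_empty hT.1
    (fun K x y => (x ∈ A ∧ y ∈ A ∧ W.Sim K x y) ∨ (x ∉ A ∧ y ∉ A))
    (by
      intro K x hc mx
      by_cases hx : x ∈ A
      · exact Or.inl ⟨hx, hx, W.sim_refl K x⟩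
      · exact Or.inr ⟨hx, hx⟩)
    (by
      rintro K x y hc mx my (⟨hx, hy, hs⟩ | ⟨hx, hy⟩)
      · exact Or.inl ⟨hy, hx, W.sim_symm hs⟩
      · exact Or.inr ⟨hy, hx⟩)
    (by
      rintro K x y z hc mx my mz (⟨hx, hy, hs⟩ | ⟨hx, hy⟩) (⟨hy', hz, hs'⟩ | ⟨hy', hz⟩)
      · exact Or.inl ⟨hx, hz, W.sim_trans hs hs'⟩
      · exact absurd hy hy'
      · exact absurd hy' hy
      · exact Or.inr ⟨hx, hz⟩)
    (by
      intro K x y v hc mx my mv h1 h2
      have k1 := W.two_exch hT hc mx mv h1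
      have k2 := W.two_exch hT hc my mv h2
      by_cases hx : x ∈ A
      · have hy : y ∈ A := k2.2 (k1.1 hx)
        exact Or.inl ⟨hx, hy, (W.x_facts hT hbad hc (W.all_dpair hT hbad hD hc)).1 x y v hx hy mx
          my mv h1 h2⟩
      · exact Or.inr ⟨hx, fun hy => hx (k1.2 (k2.1 hy))⟩)
    (by
      intro K x v a b hc mx mv hE ma mb hax hbx
      have hK := W.toPW.conn_E hT.1 hc
      have hxv := W.two_exch hT hc mx mv hE
      have hsim : a ∈ A → b ∈ A → (W.Sim K a b ↔ W.Sim (K + t x + t v) a b) := by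
        intro ha hb
        by_cases hx : x ∈ A
        · have hv : v ∈ A := hxv.1 hx
          have hc' : W.Conn K0 (K + t x + t v) :=
            W.toPW.conn_trans hc (W.toPW.conn_mk hK mx mv hE)
          have hxv' := W.toPW.ne_of_m mx mv
          have hav := W.toPW.ne_of_m ma mv
          have hbv := W.toPW.ne_of_m mb mv
          have mv' : W.m (K + t x + t v) v := by
            rw [W.toPW.m_self, W.toPW.m_ne _ hxv']; exact mv
          have ma' : W.m (K + t x + t v) a := by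
            rw [W.toPW.m_ne _ (Ne.symm hav), W.toPW.m_ne _ (Ne.symm hax)]; exact ma
          have mb' : W.m (K + t x + t v) b := by
            rw [W.toPW.m_ne _ (Ne.symm hbv), W.toPW.m_ne _ (Ne.symm hbx)]; exact mb
          rw [W.mainbad3_two hT hbad hD hc hx ha hb mx ma mb,
            W.mainbad3_two hT hbad hD hc' hv ha hb mv' ma' mb',
            W.mainbad3_A1 hT hbad hD hc hx hv mx mv hE ha ma hax,
            W.mainbad3_A1 hT hbad hD hc hx hv mx mv hE hb mb hbx]
        · have hv : v ∉ A := fun h => hx (hxv.2 h)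
          exact W.mainbad3_BSim hT hbad hD hc hx hv mx mv hE ha ma hb mb
      constructor
      · rintro (⟨ha, hb, hs⟩ | ⟨ha, hb⟩)
        · exact Or.inl ⟨ha, hb, (hsim ha hb).1 hs⟩
        · exact Or.inr ⟨ha, hb⟩
      · rintro (⟨ha, hb, hs⟩ | ⟨ha, hb⟩)
        · exact Or.inl ⟨ha, hb, (hsim ha hb).2 hs⟩
        · exact Or.inr ⟨ha, hb⟩)
    (by
      intro K x v a hc mx mv hE ma hax
      have hxv := W.two_exch hT hc mx mv hE
      constructor
      · rintro (⟨ha, hx, hs⟩ | ⟨ha, hx⟩)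
        · have hv : v ∈ A := hxv.1 hx
          exact Or.inl ⟨ha, hv, (W.mainbad3_A1 hT hbad hD hc hx hv mx mv hE ha ma hax).1 hs⟩
        · exact Or.inr ⟨ha, fun h => hx (hxv.2 h)⟩
      · rintro (⟨ha, hv, hs⟩ | ⟨ha, hv⟩)
        · have hx : x ∈ A := hxv.2 hv
          exact Or.inl ⟨ha, hx, (W.mainbad3_A1 hT hbad hD hc hx hv mx mv hE ha ma hax).2 hs⟩
        · exact Or.inr ⟨ha, fun h => hv (hxv.1 h)⟩)
    mi ml heqv
  rcases key with ⟨_, _, hs⟩ | ⟨h, _⟩
  · exact hns hs
  · exact h hi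

end World

end Pool.Agent.Lib.MP_a572be_co
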