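import Pool.Agent.Lib.MP_a572be_co.MainCentre

/-!
# The dichotomy at an edge with a D-pair
-/

namespace Pool.Agent.Lib.MP_a572be_co

namespace World

variable {r : ℕ} {Ω : Type} (W : World r Ω)

/-- Level of `T x y = K - x - y + z`. -/
theorem maindich_lev {K : Tg Ω} {x y z : Ω} (hK : W.E K) (mx : W.m K x) (my : W.m K y)
    (hxy : x ≠ y) (mz : ¬ W.m K z) : W.lev (K + t x + t y + t z) = -1 := by
  have h1 := W.toPW.lev_S hK mx
  have m1 : W.m (K + t x) y := (W.toPW.m_ne K hxy).2 my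
  have h2 := W.toPW.lev_in m1
  have hxz : x ≠ z := W.toPW.ne_of_m mx mz
  have hyz : y ≠ z := W.toPW.ne_of_m my mz
  have m2 : ¬ W.m (K + t x + t y) z := by
    rw [W.toPW.m_ne _ hyz, W.toPW.m_ne _ hxz]; exact mz
  rw [W.toPW.lev_out m2, h2, h1]; ring

/-- Membership in `T x y`. -/
theorem maindich_m {K : Tg Ω} {x y z v : Ω} (h1 : v ≠ x) (h2 : v ≠ y) (h3 : v ≠ z) :
    W.m (K + t x + t y + t z) v ↔ W.m K v := by
  rw [W.toPW.m_ne _ (Ne.symm h3), W.toPW.m_ne _ (Ne.symm h2), W.toPW.m_ne _ (Ne.symm h1)]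

/-- The neighbours of `T x y` are outside `K` and different from `z`. -/
theorem maindich_nbr {K : Tg Ω} {A : Set Ω} (hT : W.Two K A) {z : Ω} (hz : z ∉ A)
    (mz : ¬ W.m K z) {x y v : Ω} (hx : x ∈ A) (hy : y ∈ A) (mx : W.m K x) (my : W.m K y)
    (hxy : x ≠ y) (hE : W.E (K + t x + t y + t z + t v)) : ¬ W.m K v ∧ v ≠ z := by
  have hlev := W.maindich_lev hT.1 mx my hxy mz
  have hn := W.toPW.not_m_of_E hlev hE
  have hxz : x ≠ z := W.toPW.ne_of_m mx mz
  have hyz : y ≠ z := W.toPW.ne_of_m my mz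
  have hvz : v ≠ z := by
    rintro rfl
    apply hn
    rw [W.toPW.m_self, W.toPW.m_ne _ hyz, W.toPW.m_ne _ hxz]
    exact mz
  refine ⟨fun hv => ?_, hvz⟩
  by_cases h1 : v = x
  · subst h1
    have e : K + t v + t y + t z + t v = K + t y + t z := by abel_nf; simp
    rw [e] at hE
    exact hz ((W.two_exch hT (W.toPW.conn_refl K) my mz hE).1 hy)
  by_cases h2 : v = y
  · subst h2
    have e : K + t x + t v + t z + t v = K + t x + t z := by abel_nf; simp
    rw [e] at hE
    exact hz ((W.two_exch hT (W.toPW.conn_refl K) mx mz hE).1 hx)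
  · exact hn ((W.maindich_m h1 h2 hvz).2 hv)

/-- `T x y` and `T x y'` with a common neighbour have the same value. -/
theorem maindich_same {K : Tg Ω} {z : Ω} (hK : W.E K) (mz : ¬ W.m K z) {x y y' : Ω}
    (mx : W.m K x) (my : W.m K y) (my' : W.m K y') (hxy : x ≠ y) (hxy' : x ≠ y') (hyy : y ≠ y')
    (hd : ¬ W.Dj (K + t x + t y + t z) (K + t x + t y' + t z)) :
    W.SameVal (K + t x + t y + t z) (K + t x + t y' + t z) := by
  have hlev := W.maindich_lev hK mx my hxy mz
  have hlev' := W.maindich_lev hK mx my' hxy' mz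
  obtain ⟨v, _, _, h1, h2⟩ := W.toPW.not_dj_inf hlev hlev' hd ∅
  have hyz : y ≠ z := W.toPW.ne_of_m my mz
  have hy'z : y' ≠ z := W.toPW.ne_of_m my' mz
  have e : K + t x + t y + t z + t y' + t y = K + t x + t y' + t z := by abel_nf; simp
  have m1 : W.m (K + t x + t y + t z) y' :=
    (W.maindich_m (Ne.symm hxy') (Ne.symm hyy) hy'z).2 my'
  have m2 : ¬ W.m (K + t x + t y + t z) y := by
    rw [W.toPW.m_ne _ (Ne.symm hyz), W.toPW.m_self, W.toPW.m_ne _ hxy]
    simpa using my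
  have h3 := W.toPW.sameVal_of_common hlev m1 m2 h1 (by rw [e]; exact h2)
  rw [e] at h3
  exact h3.1

/-- If `T x y` and `T x y'` have the same value then `y`, `y'` are equivalent in its component. -/
theorem maindich_eqv {K : Tg Ω} {z : Ω} (hK : W.E K) (mz : ¬ W.m K z) {x y y' v : Ω}
    (mx : W.m K x) (my : W.m K y) (my' : W.m K y') (hxy : x ≠ y) (hxy' : x ≠ y') (hyy : y ≠ y')
    (hv : W.E (K + t x + t y + t z + t v))
    (hs : W.SameVal (K + t x + t y + t z) (K + t x + t y' + t z)) :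
    W.Eqv (K + t x + t y + t z + t v) y' y := by
  have hlev := W.maindich_lev hK mx my hxy mz
  have hyz : y ≠ z := W.toPW.ne_of_m my mz
  have hy'z : y' ≠ z := W.toPW.ne_of_m my' mz
  have e : K + t x + t y + t z + t y' + t y = K + t x + t y' + t z := by abel_nf; simp
  have m1 : W.m (K + t x + t y + t z) y' :=
    (W.maindich_m (Ne.symm hxy') (Ne.symm hyy) hy'z).2 my'
  have m2 : ¬ W.m (K + t x + t y + t z) y := by
    rw [W.toPW.m_ne _ (Ne.symm hyz), W.toPW.m_self, W.toPW.m_ne _ hxy]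
    simpa using my
  exact W.toPW.eqv_of_sameVal hlev m1 m2 hv (by rw [e]; exact hs)

/-- **The dichotomy.** Let `K` have a D-pair. Let `i0`, `l0` be as in `centre_value`, call `x`, `y`
adjacent if they are adjacent in that graph, let `w0` be a neighbour of `T i0 l0` and
`K0 = T i0 l0 + w0`, `≡0` for `Eqv K0`.

(1) If `x` is adjacent to `y` and to `y'` then `y ≡0 y'` (`eqv_of_sameVal` for `T x y` and `T x y'`,
`sameVal_all` to compare with `K0`). Hence, by induction along paths from `i0`, every `x ∈ A ∩ K` is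
either `≡0 i0` with all its neighbours `≡0 l0`, or `≡0 l0` with all its neighbours `≡0 i0`.
(2) If `i0 ≡0 l0` then all elements of `A ∩ K` are `≡0`-equivalent. If all adjacent pairs `x, y`
satisfied `Sim K x y`, then `Sim K` would hold for all pairs by connectivity, contradicting the
D-pair. So some adjacent pair `i, l` has `¬ Sim K i l`; let `w` be a neighbour of `T i l`; `T i l + w` is
in the component of `K0`. This is the first alternative.
(3) Now suppose `i0`, `l0` are not `≡0`-equivalent. Then each `x ∈ A ∩ K` is on exactly one of the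
two sides (`≡0 i0` or `≡0 l0`), and adjacent elements are on different sides. By `joint` for
`{K, K0}` each side is infinite: every `x ∈ A ∩ K` has `x' ≠ x` on the same side (`x' ∈ K`,
`Eqv K x x'` so `x' ∈ A`). Each `x` has an adjacent `l` (connectivity) and a non-adjacent `x' ≠ x`.
(4) For adjacent `i, l` and non-adjacent `i ≠ i'`: `K - i`, `T i l`, `T i i'` are pairwise disjoint
(`dj_T`, `sameVal_of_common`: `T i l`, `T i i'` have different values), so every `v ∉ K`, `v ≠ z` is a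
neighbour of exactly one of them (`cover3`). No `v ∈ K ∪ {z}` is a neighbour of `T i l`
(levels, or the exchanges `i → z`, `l → z` at `K`).
(5) So for adjacent `(i,l)`, `(i,l')` the sets `T i l` and `T i l'` have the same neighbours, and by
connectivity all `T i l`, `i, l` adjacent, have the same neighbourhood `X`. For non-adjacent
`i ≠ i'` and `v ∉ K ∪ {z}`: `v ∈ N(T i i') ↔ v ∉ N(K-i) ∧ v ∉ X`; by symmetry in `i, i'`,
`Sim K i i'` (for `v = z` both sides of `Sim` are false, `two_exch`).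
(6) Same side implies non-adjacent implies `Sim`. If some pair on different sides were non-adjacent
or `Sim`, all pairs would be `Sim`, contradicting the D-pair. So for `i ≠ i'`:
`Sim K i i'` iff same side iff non-adjacent. This gives `b4`.
(7) `b1`: let `¬ Sim K i l` (so adjacent), `v ∈ X`, and suppose `v ∈ A`. By (4) `v ∉ K ∪ {z}`. By
`vis` there is `x ∈ K` with `K - x + v` an edge, `x ∈ A` (`two_exch`). Take `l'` adjacent to `x`:
`v` is a common neighbour of `K - x` and `T x l'`, contradicting `dj_T`.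
(8) `b2`: by (5), as `v ∉ X` by (7) (`v ≠ z` since `v ∈ A`).
(9) `b3`: suppose all `v ∈ A` outside `K` are neighbours of `K - i`. Take `i'` non-adjacent and `l`
adjacent to `i`. `N(T i i')` and `N(T i l) = X` are disjoint and contained in `Aᶜ` (for `T i i'`:
a neighbour `v ∈ A` is outside `K` — `v = i, i'` are impossible as in (4) — so it is a neighbour of
`K - i`, contradicting `dj_T`), contradicting `hP`. -/
theorem dich {K : Tg Ω} {A : Set Ω} (hT : W.Two K A) (hP : W.P1 Aᶜ) {z : Ω} (hz : z ∉ A)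
    (mz : ¬ W.m K z) (hD : W.DPair A K) :
    (∃ i l w, i ∈ A ∧ l ∈ A ∧ W.m K i ∧ W.m K l ∧ ¬ W.Sim K i l ∧
      W.E (K + t i + t l + t z + t w) ∧
      ∀ x y, x ∈ A → y ∈ A → W.m K x → W.m K y → W.Eqv (K + t i + t l + t z + t w) x y) ∨
    W.BadStr K A z := by
  classical
  obtain ⟨i0, l0, hi0, hl0, mi0, ml0, hil0, hcon⟩ := W.centre_value hT hz mz
  have hK := hT.1
  have hlev0 := W.maindich_lev hK mi0 ml0 hil0 mz
  obtain ⟨w0, _, _, hw0⟩ := W.axN _ hlev0 ∅
  -- the adjacency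
  set adj : Ω → Ω → Prop := fun a b => a ≠ b ∧ (a ∈ A ∧ W.m K a) ∧ (b ∈ A ∧ W.m K b) ∧
    W.SameVal (K + t i0 + t l0 + t z) (K + t a + t b + t z) with hadj
  have adj_symm : ∀ {a b}, adj a b → adj b a := by
    rintro a b ⟨h1, h2, h3, h4⟩
    exact ⟨Ne.symm h1, h3, h2, by rw [tg_comm K b a]; exact h4⟩
  have adj0 : adj i0 l0 := ⟨hil0, ⟨hi0, mi0⟩, ⟨hl0, ml0⟩, W.toPW.sameVal_refl hlev0⟩
  have adj_conn : ∀ {a b v}, adj a b → W.E (K + t a + t b + t z + t v) →
      W.Conn (K + t i0 + t l0 + t z + t w0) (K + t a + t b + t z + t v) := by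
    rintro a b v ⟨h1, h2, h3, h4⟩ hv
    exact (W.toPW.sameVal_all hlev0 (W.maindich_lev hK h2.2 h3.2 h1 mz) h4 hw0 hv).1
  have adj_same : ∀ {a b c}, adj a b → adj a c →
      W.SameVal (K + t a + t b + t z) (K + t a + t c + t z) := by
    intro a b c h1 h2
    exact W.toPW.sameVal_trans hlev0 (W.toPW.sameVal_symm h1.2.2.2) h2.2.2.2
  -- (1)
  have step1 : ∀ {x y y'}, adj x y → adj x y' →
      W.Eqv (K + t i0 + t l0 + t z + t w0) y' y := by
    intro x y y' h1 h2
    by_cases hyy : y = y'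
    · subst hyy; exact W.toPW.eqv_refl _ _
    obtain ⟨v, _, _, hv⟩ := W.axN _ (W.maindich_lev hK h1.2.1.2 h1.2.2.1.2 h1.1 mz) ∅
    have h3 := W.maindich_eqv hK mz h1.2.1.2 h1.2.2.1.2 h2.2.2.1.2 h1.1 h2.1 hyy hv
      (adj_same h1 h2)
    exact W.toPW.eqv_of_conn (adj_conn h1 hv) h3
  -- sides
  have sides : ∀ x, x ∈ A → W.m K x →
      (W.Eqv (K + t i0 + t l0 + t z + t w0) x i0 ∧
        ∀ y, adj x y → W.Eqv (K + t i0 + t l0 + t z + t w0) y l0) ∨
      (W.Eqv (K + t i0 + t l0 + t z + t w0) x l0 ∧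
        ∀ y, adj x y → W.Eqv (K + t i0 + t l0 + t z + t w0) y i0) := by
    intro x hx mx
    have hp := hcon i0 x hi0 mi0 hx mx
    clear hx mx
    induction hp with
    | refl => exact Or.inl ⟨W.toPW.eqv_refl _ _, fun y hy => step1 adj0 hy⟩
    | tail _ h2 ih =>
      rename_i b c _
      have h2' : adj b c := h2
      rcases ih with ⟨h3, h4⟩ | ⟨h3, h4⟩
      · right
        exact ⟨h4 c h2', fun y hy => W.toPW.eqv_trans (step1 (adj_symm h2') hy) h3⟩
      · left
        exact ⟨h4 c h2', fun y hy => W.toPW.eqv_trans (step1 (adj_symm h2') hy) h3⟩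
  by_cases hside : W.Eqv (K + t i0 + t l0 + t z + t w0) i0 l0
  · -- first alternative
    left
    have hall : ∀ x, x ∈ A → W.m K x → W.Eqv (K + t i0 + t l0 + t z + t w0) x i0 := by
      intro x hx mx
      rcases sides x hx mx with h | h
      · exact h.1
      · exact W.toPW.eqv_trans h.1 (W.toPW.eqv_symm hside)
    have hex : ∃ a b, adj a b ∧ ¬ W.Sim K a b := by
      by_contra hno
      push Not at hno
      obtain ⟨i, l, hi, hl, mi, ml, hs⟩ := hD
      apply hs
      have hp := hcon i l hi mi hl ml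
      clear hl ml hs
      induction hp with
      | refl => exact fun v _ => Iff.rfl
      | tail _ h2 ih =>
        exact fun v hv => (ih v hv).trans (hno _ _ h2 v hv)
    obtain ⟨a, b, hab, hs⟩ := hex
    obtain ⟨w, _, _, hw⟩ := W.axN _ (W.maindich_lev hK hab.2.1.2 hab.2.2.1.2 hab.1 mz) ∅
    refine ⟨a, b, w, hab.2.1.1, hab.2.2.1.1, hab.2.1.2, hab.2.2.1.2, hs, hw, ?_⟩
    intro x y hx hy mx my
    rw [← W.toPW.eqv_conn (adj_conn hab hw)]
    exact W.toPW.eqv_trans (hall x hx mx) (W.toPW.eqv_symm (hall y hy my))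
  right
  -- (3)
  have not_same_side : ∀ {x}, W.Eqv (K + t i0 + t l0 + t z + t w0) x i0 →
      W.Eqv (K + t i0 + t l0 + t z + t w0) x l0 → False := fun h1 h2 =>
    hside (W.toPW.eqv_trans (W.toPW.eqv_symm h1) h2)
  have adj_ne : ∀ {x y}, adj x y → ¬ W.Eqv (K + t i0 + t l0 + t z + t w0) x y := by
    intro x y h1 h2
    rcases sides x h1.2.1.1 h1.2.1.2 with ⟨h3, h4⟩ | ⟨h3, h4⟩
    · exact not_same_side (W.toPW.eqv_trans (W.toPW.eqv_symm h2) h3) (h4 y h1)
    · exact not_same_side (h4 y h1) (W.toPW.eqv_trans (W.toPW.eqv_symm h2) h3)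
  have exists_adj : ∀ x, x ∈ A → W.m K x → ∃ l, adj x l := by
    intro x hx mx
    have hex : ∃ p, p ∈ A ∧ W.m K p ∧ x ≠ p := by
      by_cases h : x = i0
      · exact ⟨l0, hl0, ml0, by rw [h]; exact hil0⟩
      · exact ⟨i0, hi0, mi0, h⟩
    obtain ⟨p, hp, mp, hxp⟩ := hex
    rcases (hcon x p hx mx hp mp).cases_head with h | ⟨c, hc, _⟩
    · exact absurd h hxp
    · exact ⟨c, hc⟩
  have exists_nadj : ∀ x, x ∈ A → W.m K x → ∃ x', x' ∈ A ∧ W.m K x' ∧ x ≠ x' ∧ ¬ adj x x' := by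
    intro x hx mx
    obtain ⟨y, hyD, hyx, hyI, hy⟩ := W.toPW.joint {K, K + t i0 + t l0 + t z + t w0} (by
      intro L hL
      simp only [Finset.mem_insert, Finset.mem_singleton] at hL
      rcases hL with rfl | rfl
      · exact hK
      · exact hw0) (W.notP x) True K.support
    refine ⟨y, ?_, ?_, Ne.symm hyx, fun ha => adj_ne ha (hy _ (by simp))⟩
    · exact ((hT.2.1 x y).1 (hy K (by simp))).1 hx
    · exact (mem_of_notMem_support W.I hyD).2 (by simpa using hyI)
  -- (4)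
  have djT : ∀ {x y}, x ∈ A → y ∈ A → W.m K x → W.m K y → x ≠ y →
      W.Dj (K + t x) (K + t x + t y + t z) := fun hx hy mx my hxy =>
    W.dj_T hT hx hy mx my hxy hz mz
  have djTT : ∀ {i l i'}, adj i l → i' ∈ A → W.m K i' → i ≠ i' → ¬ adj i i' →
      W.Dj (K + t i + t l + t z) (K + t i + t i' + t z) := by
    intro i l i' h1 hi' mi' hii' h2
    by_contra hd
    have hli' : l ≠ i' := by
      rintro rfl
      exact h2 h1
    have h3 := W.maindich_same hK mz h1.2.1.2 h1.2.2.1.2 mi' h1.1 hii' hli' hd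
    exact h2 ⟨hii', h1.2.1, ⟨hi', mi'⟩, W.toPW.sameVal_trans
      (W.maindich_lev hK h1.2.1.2 h1.2.2.1.2 h1.1 mz) h1.2.2.2 h3⟩
  have cover : ∀ {i l i'}, adj i l → i' ∈ A → W.m K i' → i ≠ i' → ¬ adj i i' →
      ∀ {v}, ¬ W.m K v → v ≠ z → W.E (K + t i + t v) ∨ W.E (K + t i + t l + t z + t v) ∨
        W.E (K + t i + t i' + t z + t v) := by
    intro i l i' h1 hi' mi' hii' h2 v hv hvz
    have hvi : v ≠ i := fun h => hv (by rw [h]; exact h1.2.1.2)
    have hvl : v ≠ l := fun h => hv (by rw [h]; exact h1.2.2.1.2)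
    have hvi' : v ≠ i' := fun h => hv (by rw [h]; exact mi')
    apply W.toPW.cover3 (W.toPW.lev_S hK h1.2.1.2)
      (W.maindich_lev hK h1.2.1.2 h1.2.2.1.2 h1.1 mz) (W.maindich_lev hK h1.2.1.2 mi' hii' mz)
      (djT h1.2.1.1 h1.2.2.1.1 h1.2.1.2 h1.2.2.1.2 h1.1)
      (djT h1.2.1.1 hi' h1.2.1.2 mi' hii') (djTT h1 hi' mi' hii' h2) (W.notP v)
    · rw [W.toPW.m_ne _ (Ne.symm hvi)]; exact hv
    · rw [W.maindich_m hvi hvl hvz]; exact hv
    · rw [W.maindich_m hvi hvi' hvz]; exact hv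
  -- (5)
  have nbr_eq1 : ∀ {i l l'}, adj i l → adj i l' → ∀ v, W.E (K + t i + t l + t z + t v) →
      W.E (K + t i + t l' + t z + t v) := by
    intro i l l' h1 h2 v hv
    obtain ⟨i', hi', mi', hii', h3⟩ := exists_nadj i h1.2.1.1 h1.2.1.2
    obtain ⟨n1, n2⟩ := W.maindich_nbr hT hz mz h1.2.1.1 h1.2.2.1.1 h1.2.1.2 h1.2.2.1.2 h1.1 hv
    rcases cover h2 hi' mi' hii' h3 n1 n2 with h | h | h
    · exact absurd ⟨h, hv⟩ (djT h1.2.1.1 h1.2.2.1.1 h1.2.1.2 h1.2.2.1.2 h1.1 v (W.notP v))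
    · exact h
    · exact absurd ⟨hv, h⟩ (djTT h1 hi' mi' hii' h3 v (W.notP v))
  have nbrX' : ∀ x, x ∈ A → W.m K x → ∀ l, adj x l → ∀ v,
      (W.E (K + t x + t l + t z + t v) ↔ W.E (K + t i0 + t l0 + t z + t v)) := by
    intro x hx mx
    have hp := hcon i0 x hi0 mi0 hx mx
    clear hx mx
    induction hp with
    | refl => exact fun l hl v => ⟨nbr_eq1 hl adj0 v, nbr_eq1 adj0 hl v⟩
    | tail _ h2 ih =>
      rename_i b c _
      have h2' : adj b c := h2
      intro l hl v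
      have h3 := ih c h2' v
      rw [tg_comm K b c] at h3
      rw [← h3]
      exact ⟨nbr_eq1 hl (adj_symm h2') v, nbr_eq1 (adj_symm h2') hl v⟩
  have nbrX : ∀ {x l}, adj x l → ∀ v,
      (W.E (K + t x + t l + t z + t v) ↔ W.E (K + t i0 + t l0 + t z + t v)) :=
    fun h v => nbrX' _ h.2.1.1 h.2.1.2 _ h v
  have nbrT : ∀ {i i'}, i ∈ A → W.m K i → i' ∈ A → W.m K i' → i ≠ i' → ¬ adj i i' →
      ∀ v, ¬ W.m K v → v ≠ z → (W.E (K + t i + t i' + t z + t v) ↔
        (¬ W.E (K + t i + t v) ∧ ¬ W.E (K + t i0 + t l0 + t z + t v))) := by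
    intro i i' hi mi hi' mi' hii' h1 v hv hvz
    obtain ⟨l, hl⟩ := exists_adj i hi mi
    constructor
    · intro h
      refine ⟨fun h' => djT hi hi' mi mi' hii' v (W.notP v) ⟨h', h⟩, fun h' => ?_⟩
      rw [← nbrX hl v] at h'
      exact djTT hl hi' mi' hii' h1 v (W.notP v) ⟨h', h⟩
    · rintro ⟨h2, h3⟩
      rw [← nbrX hl v] at h3
      rcases cover hl hi' mi' hii' h1 hv hvz with h | h | h
      · exact absurd h h2
      · exact absurd h h3
      · exact h
  have Xdj : ∀ {i}, i ∈ A → W.m K i → ∀ v, W.E (K + t i + t v) →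
      ¬ W.E (K + t i0 + t l0 + t z + t v) := by
    intro i hi mi v h h'
    obtain ⟨l, hl⟩ := exists_adj i hi mi
    rw [← nbrX hl v] at h'
    exact djT hi hl.2.2.1.1 mi hl.2.2.1.2 hl.1 v (W.notP v) ⟨h, h'⟩
  have nEz : ∀ {i}, i ∈ A → W.m K i → ¬ W.E (K + t i + t z) := by
    intro i hi mi h
    exact hz ((W.two_exch hT (W.toPW.conn_refl K) mi mz h).1 hi)
  have sim_nadj : ∀ {i i'}, i ∈ A → W.m K i → i' ∈ A → W.m K i' → ¬ adj i i' →
      W.Sim K i i' := by
    intro i i' hi mi hi' mi' h1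
    by_cases hii' : i = i'
    · subst hii'; exact fun v _ => Iff.rfl
    intro v hv
    by_cases hvz : v = z
    · subst hvz
      exact ⟨fun h => absurd h (nEz hi mi), fun h => absurd h (nEz hi' mi')⟩
    have h2 := nbrT hi mi hi' mi' hii' h1 v hv hvz
    have h3 := nbrT hi' mi' hi mi (Ne.symm hii') (fun h => h1 (adj_symm h)) v hv hvz
    rw [tg_comm K i' i] at h3
    have h4 := Xdj hi mi v
    have h5 := Xdj hi' mi' v
    tauto
  -- (6)
  have sim_side : ∀ {x y}, x ∈ A → W.m K x → y ∈ A → W.m K y →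
      W.Eqv (K + t i0 + t l0 + t z + t w0) x y → W.Sim K x y := by
    intro x y hx mx hy my h
    exact sim_nadj hx mx hy my (fun ha => adj_ne ha h)
  have sim_symm : ∀ {x y}, W.Sim K x y → W.Sim K y x := fun h v hv => (h v hv).symm
  have sim_trans : ∀ {x y u}, W.Sim K x y → W.Sim K y u → W.Sim K x u :=
    fun h h' v hv => (h v hv).trans (h' v hv)
  have side_or : ∀ {i l u}, i ∈ A → l ∈ A → u ∈ A → W.m K i → W.m K l → W.m K u →
      ¬ W.Eqv (K + t i0 + t l0 + t z + t w0) i l →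
      W.Eqv (K + t i0 + t l0 + t z + t w0) u i ∨
      W.Eqv (K + t i0 + t l0 + t z + t w0) u l := by
    intro i l u hi hl hu mi ml mu hne
    have si := sides i hi mi
    have sl := sides l hl ml
    have su := sides u hu mu
    rcases si with ⟨si, _⟩ | ⟨si, _⟩ <;> rcases sl with ⟨sl, _⟩ | ⟨sl, _⟩
    · exact absurd (W.toPW.eqv_trans si (W.toPW.eqv_symm sl)) hne
    · rcases su with ⟨su, _⟩ | ⟨su, _⟩
      · exact Or.inl (W.toPW.eqv_trans su (W.toPW.eqv_symm si))
      · exact Or.inr (W.toPW.eqv_trans su (W.toPW.eqv_symm sl))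
    · rcases su with ⟨su, _⟩ | ⟨su, _⟩
      · exact Or.inr (W.toPW.eqv_trans su (W.toPW.eqv_symm sl))
      · exact Or.inl (W.toPW.eqv_trans su (W.toPW.eqv_symm si))
    · exact absurd (W.toPW.eqv_trans si (W.toPW.eqv_symm sl)) hne
  have nsim_diff : ∀ {x y}, x ∈ A → W.m K x → y ∈ A → W.m K y →
      ¬ W.Eqv (K + t i0 + t l0 + t z + t w0) x y → ¬ W.Sim K x y := by
    intro x y hx mx hy my hne hs
    obtain ⟨i, l, hi, hl, mi, ml, hs'⟩ := hD
    apply hs'
    have key : ∀ {u}, u ∈ A → W.m K u → W.Sim K u x := by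
      intro u hu mu
      rcases side_or hx hy hu mx my mu hne with h | h
      · exact sim_side hu mu hx mx h
      · exact sim_trans (sim_side hu mu hy my h) (sim_symm hs)
    exact sim_trans (key hi mi) (sim_symm (key hl ml))
  have adj_of_nsim : ∀ {x y}, x ∈ A → W.m K x → y ∈ A → W.m K y → ¬ W.Sim K x y → adj x y := by
    intro x y hx mx hy my hs
    by_contra ha
    exact hs (sim_nadj hx mx hy my ha)
  -- (7)
  have XA : ∀ v, W.E (K + t i0 + t l0 + t z + t v) → v ∉ A := by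
    intro v hv hvA
    obtain ⟨n1, _⟩ := W.maindich_nbr hT hz mz hi0 hl0 mi0 ml0 hil0 hv
    obtain ⟨x, _, mx, hx⟩ := W.toPW.vis hK n1 (W.notP v) ∅
    have hxA : x ∈ A := (W.two_exch hT (W.toPW.conn_refl K) mx n1 hx).2 hvA
    exact Xdj hxA mx v hx hv
  refine ⟨?_, ?_, ?_, ?_⟩
  · intro i l v hi hl mi ml _ hs hE
    rw [nbrX (adj_of_nsim hi mi hl ml hs) v] at hE
    exact XA v hE
  · intro i l v hi hl mi ml hil hs hv hvA hE
    have hna : ¬ adj i l := fun ha => nsim_diff hi mi hl ml (adj_ne ha) hs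
    have hvz : v ≠ z := fun h => hz (h ▸ hvA)
    rw [nbrT hi mi hl ml hil hna v hv hvz]
    exact ⟨hE, fun h => XA v h hvA⟩
  · intro i hi mi
    by_contra hno
    push Not at hno
    obtain ⟨i', hi', mi', hii', hna⟩ := exists_nadj i hi mi
    obtain ⟨l, hl⟩ := exists_adj i hi mi
    obtain ⟨v, h1, h2⟩ := hP (K + t i + t i' + t z) (K + t i + t l + t z)
      (W.maindich_lev hK mi mi' hii' mz) (W.maindich_lev hK mi hl.2.2.1.2 hl.1 mz)
      (by
        intro v hv hvA
        obtain ⟨n1, _⟩ := W.maindich_nbr hT hz mz hi hi' mi mi' hii' hv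
        exact djT hi hi' mi mi' hii' v (W.notP v) ⟨hno v n1 hvA, hv⟩)
      (by
        intro v hv
        rw [nbrX hl v] at hv
        exact XA v hv)
    exact djTT hl hi' mi' hii' hna v (W.notP v) ⟨h2, h1⟩
  · intro i l u hi hl hu mi ml mu hs
    have hne : ¬ W.Eqv (K + t i0 + t l0 + t z + t w0) i l := fun h =>
      hs (sim_side hi mi hl ml h)
    rcases side_or hi hl hu mi ml mu hne with h | h
    · exact Or.inl (sim_side hu mu hi mi h)
    · exact Or.inr (sim_side hu mu hl ml h)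

end World

end Pool.Agent.Lib.MP_a572be_co
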