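import Pool.Agent.Lib.MP_a572be_co.MainFat

/-!
# The full case
-/

namespace Pool.Agent.Lib.MP_a572be_co

namespace World

variable {r : ℕ} {Ω : Type} (W : World r Ω)

/-- If all neighbourhoods `N(K' - i)`, `i ∈ A ∩ K'`, `K'` in the component, are as large as possible
then every pair is fat.

Proof: `M = K - i - l`, `M + i = K - l`, `M + l = K - i`. Let `Dj (M+x) (M+i)`, `Dj (M+x) (M+l)`.
(i) `x ∉ A`: otherwise, as `x ≠ i` and `x ≠ l` (`M + i` has a neighbour), `x ∉ K`,
`K1 = K - l + x` is an edge of the component containing `i` and `x`, `M + x = K1 - i`,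
`M + i = K1 - x`, and by `hfull` for `K1` every `v ∈ A` outside `K1` is a common neighbour.
(ii) All neighbours `v` of `M + x` are outside `A`: if `v ∈ A`, `v ∉ K`, then `v` is also a
neighbour of `M + i = K - l` by `hfull`; if `v = i` or `v = l` then `K - l + x` or `K - i + x` is
an edge, an exchange `l → x` with `l ∈ A`, `x ∉ A`.
The same for `y`, and `hP` gives a common neighbour of `M + x` and `M + y`. -/
theorem fat_of_full {K : Tg Ω} {A : Set Ω} (hT : W.Two K A) (hP : W.P1 Aᶜ)
    (hfull : ∀ K', W.Conn K K' → ∀ i ∈ A, W.m K' i → ∀ v ∈ A, ¬ W.m K' v →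
      W.E (K' + t i + t v)) {i l : Ω} (hi : i ∈ A) (hl : l ∈ A)
    (mi : W.m K i) (ml : W.m K l) (hil : i ≠ l) : W.Fat (K + t i + t l) i l := by
  have hK := hT.1
  have l1 : W.toPW.lev (K + t i) = -1 := W.toPW.lev_S hK mi
  have l1' : W.toPW.lev (K + t l) = -1 := W.toPW.lev_S hK ml
  have ml' : W.toPW.m (K + t i) l := by rw [W.toPW.m_ne K hil]; exact ml
  have l2 : W.toPW.lev (K + t i + t l) = -2 := by
    rw [W.toPW.lev_in ml', l1]; ring
  have ei : K + t i + t l + t i = K + t l := by abel_nf; simp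
  have el : K + t i + t l + t l = K + t i := tg_add_t_t _ _
  -- the key statement
  have key : ∀ x, ¬ W.toPW.m (K + t i + t l) x →
      W.toPW.Dj (K + t i + t l + t x) (K + t i + t l + t i) →
      W.toPW.Dj (K + t i + t l + t x) (K + t i + t l + t l) →
      W.toPW.lev (K + t i + t l + t x) = -1 ∧
      ∀ v, W.E (K + t i + t l + t x + t v) → v ∈ Aᶜ := by
    intro x mx dxi dxl
    rw [ei] at dxi
    rw [el] at dxl
    have lx : W.toPW.lev (K + t i + t l + t x) = -1 := by rw [W.toPW.lev_out mx, l2]; ring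
    refine ⟨lx, ?_⟩
    have hxi : x ≠ i := by
      rintro rfl
      obtain ⟨v, _, _, hv⟩ := W.axN _ l1' ∅
      rw [ei] at dxi
      exact dxi v (W.notP v) ⟨hv, hv⟩
    have hxl : x ≠ l := by
      rintro rfl
      obtain ⟨v, _, _, hv⟩ := W.axN _ l1 ∅
      rw [el] at dxl
      exact dxl v (W.notP v) ⟨hv, hv⟩
    have nx : ¬ W.toPW.m K x := by
      rwa [W.toPW.m_ne _ (Ne.symm hxl), W.toPW.m_ne _ (Ne.symm hxi)] at mx
    have hxA : x ∉ A := by
      intro hxA
      have hE1 : W.E (K + t l + t x) := hfull K (W.toPW.conn_refl K) l hl ml x hxA nx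
      have hc1 : W.toPW.Conn K (K + t l + t x) := W.toPW.conn_mk hK ml nx hE1
      have mi1 : W.toPW.m (K + t l + t x) i := by
        rw [W.toPW.m_ne _ hxi, W.toPW.m_ne _ (Ne.symm hil)]; exact mi
      have mx1 : W.toPW.m (K + t l + t x) x := by
        rw [W.toPW.m_self, W.toPW.m_ne _ (Ne.symm hxl)]; exact nx
      obtain ⟨v, _, nv, hvA⟩ := W.two_out hT (K + t l + t x) ∅
      have a1 := hfull _ hc1 i hi mi1 v hvA nv
      have a2 := hfull _ hc1 x hxA mx1 v hvA nv
      have e1 : K + t l + t x + t i + t v = K + t i + t l + t x + t v := by abel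
      have e2 : K + t l + t x + t x + t v = K + t l + t v := by rw [tg_add_t_t]
      rw [e1] at a1
      rw [e2] at a2
      exact dxi v (W.notP v) ⟨a1, a2⟩
    intro v hv hvA
    have nv := W.toPW.not_m_of_E lx hv
    have hvx : v ≠ x := by rintro rfl; exact hxA hvA
    by_cases hvi : v = i
    · subst hvi
      have e : K + t v + t l + t x + t v = K + t l + t x := by abel_nf; simp
      rw [e] at hv
      exact hxA ((W.two_exch hT (W.toPW.conn_refl K) ml nx hv).1 hl)
    by_cases hvl : v = l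
    · subst hvl
      have e : K + t i + t v + t x + t v = K + t i + t x := by abel_nf; simp
      rw [e] at hv
      exact hxA ((W.two_exch hT (W.toPW.conn_refl K) mi nx hv).1 hi)
    have nvK : ¬ W.toPW.m K v := by
      rwa [W.toPW.m_ne _ (Ne.symm hvx), W.toPW.m_ne _ (Ne.symm hvl),
        W.toPW.m_ne _ (Ne.symm hvi)] at nv
    exact dxi v (W.notP v) ⟨hv, hfull K (W.toPW.conn_refl K) l hl ml v hvA nvK⟩
  intro x y _ mx my dxi dxl dyi dyl dxy
  obtain ⟨lx, kx⟩ := key x mx dxi dxl
  obtain ⟨ly, ky⟩ := key y my dyi dyl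
  obtain ⟨v, hv, hv'⟩ := hP _ _ lx ly kx ky
  exact dxy v (W.notP v) ⟨hv, hv'⟩

/-- The sets `T x y` of `five_of_full`: level and neighbours. -/
theorem mainfull_T {K : Tg Ω} {A : Set Ω} (hT : W.Two K A)
    (hfull : ∀ K', W.Conn K K' → ∀ i ∈ A, W.m K' i → ∀ v ∈ A, ¬ W.m K' v →
      W.E (K' + t i + t v)) {z : Ω} (hz : z ∉ A) (mz : ¬ W.m K z)
    {x y : Ω} (hx : x ∈ A) (hy : y ∈ A) (mx : W.m K x) (my : W.m K y) (hxy : x ≠ y) :
    W.toPW.lev (K + t x + t y + t z) = -1 ∧
      ∀ v, W.E (K + t x + t y + t z + t v) → v ∈ Aᶜ := by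
  have hK := hT.1
  have hzx : z ≠ x := by rintro rfl; exact mz mx
  have hzy : z ≠ y := by rintro rfl; exact mz my
  have l1 : W.toPW.lev (K + t x) = -1 := W.toPW.lev_S hK mx
  have my' : W.toPW.m (K + t x) y := by rw [W.toPW.m_ne K hxy]; exact my
  have mz' : ¬ W.toPW.m (K + t x + t y) z := by
    rw [W.toPW.m_ne _ (Ne.symm hzy), W.toPW.m_ne _ (Ne.symm hzx)]; exact mz
  have l2 : W.toPW.lev (K + t x + t y + t z) = -1 := by
    rw [W.toPW.lev_out mz', W.toPW.lev_in my', l1]; ring
  refine ⟨l2, ?_⟩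
  intro v hv hvA
  have nv := W.toPW.not_m_of_E l2 hv
  have hvz : v ≠ z := by rintro rfl; exact hz hvA
  by_cases hvx : v = x
  · subst hvx
    have e : K + t v + t y + t z + t v = K + t y + t z := by abel_nf; simp
    rw [e] at hv
    exact hz ((W.two_exch hT (W.toPW.conn_refl K) my mz hv).1 hy)
  by_cases hvy : v = y
  · subst hvy
    have e : K + t x + t v + t z + t v = K + t x + t z := by abel_nf; simp
    rw [e] at hv
    exact hz ((W.two_exch hT (W.toPW.conn_refl K) mx mz hv).1 hx)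
  have nvK : ¬ W.toPW.m K v := by
    rwa [W.toPW.m_ne _ (Ne.symm hvz), W.toPW.m_ne _ (Ne.symm hvy),
      W.toPW.m_ne _ (Ne.symm hvx)] at nv
  exact W.dj_T hT hx hy mx my hxy hz mz v (W.notP v)
    ⟨hfull K (W.toPW.conn_refl K) x hx mx v hvA nvK, hv⟩

/-- The sets `T x y` and `T x u` have the same value. -/
theorem mainfull_same {K : Tg Ω} {A : Set Ω} (hT : W.Two K A) (hP : W.P1 Aᶜ)
    (hfull : ∀ K', W.Conn K K' → ∀ i ∈ A, W.m K' i → ∀ v ∈ A, ¬ W.m K' v →
      W.E (K' + t i + t v)) {z : Ω} (hz : z ∉ A) (mz : ¬ W.m K z)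
    {x y u : Ω} (hx : x ∈ A) (hy : y ∈ A) (hu : u ∈ A) (mx : W.m K x) (my : W.m K y)
    (mu : W.m K u) (hxy : x ≠ y) (hxu : x ≠ u) (hyu : y ≠ u) :
    W.toPW.SameVal (K + t x + t y + t z) (K + t x + t u + t z) := by
  obtain ⟨l1, n1⟩ := W.mainfull_T hT hfull hz mz hx hy mx my hxy
  obtain ⟨l2, n2⟩ := W.mainfull_T hT hfull hz mz hx hu mx mu hxu
  obtain ⟨v, hv, hv'⟩ := hP _ _ l1 l2 n1 n2
  have e : K + t x + t y + t z + t u + t y = K + t x + t u + t z := by
    have : K + t x + t y + t z + t u + t y = K + t x + t u + t z + (t y + t y) := by abel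
    rw [this, tg_add_self, add_zero]
  have hzx : z ≠ x := by rintro rfl; exact mz mx
  have hzy : z ≠ y := by rintro rfl; exact mz my
  have hzu : z ≠ u := by rintro rfl; exact mz mu
  have m1 : W.toPW.m (K + t x + t y + t z) u := by
    rw [W.toPW.m_ne _ hzu, W.toPW.m_ne _ hyu, W.toPW.m_ne _ hxu]; exact mu
  have m2 : ¬ W.toPW.m (K + t x + t y + t z) y := by
    rw [W.toPW.m_ne _ hzy, W.toPW.m_self, W.toPW.m_ne _ hxy]; simpa using my
  have h := (W.toPW.sameVal_of_common l1 m1 m2 hv (by rw [e]; exact hv')).1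
  rwa [e] at h

/-- Under the same hypothesis all elements of `A ∩ K` are equivalent in the component of
`K - i - l + z + w`.

Proof. Write `T x y = K - x - y + z` for distinct `x, y ∈ A ∩ K`. All neighbours `v` of `T x y` are
outside `A`: if `v ∈ A`, `v ∉ K` then `v` is a common neighbour of `K - x` (by `hfull`) and `T x y`,
contradicting `dj_T`; `v ∈ {x, y}` would give the exchange `y → z` or `x → z` at `K`. So by `hP` any
two of the sets `T x y` have a common neighbour. If they share one of `x`, `y` they differ by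
one exchange and have the same value (`sameVal_of_common`); so all `T x y` have the same value as
`T i l`. Given distinct `x, y ∈ A ∩ K` choose `u ∈ A ∩ K` different from both; `T u x` and `T u y`
have the same value, so `x`, `y` are equivalent in the component of `T u x + v` by
`eqv_of_sameVal`, which is the component of `T i l + w` (`sameVal_all`). -/
theorem five_of_full {K : Tg Ω} {A : Set Ω} (hT : W.Two K A) (hP : W.P1 Aᶜ)
    (hfull : ∀ K', W.Conn K K' → ∀ i ∈ A, W.m K' i → ∀ v ∈ A, ¬ W.m K' v →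
      W.E (K' + t i + t v)) {i l z w : Ω} (hi : i ∈ A) (hl : l ∈ A)
    (mi : W.m K i) (ml : W.m K l) (hil : i ≠ l) (hz : z ∉ A) (mz : ¬ W.m K z)
    (hw : W.E (K + t i + t l + t z + t w)) {x y : Ω} (hx : x ∈ A) (hy : y ∈ A)
    (mx : W.m K x) (my : W.m K y) : W.Eqv (K + t i + t l + t z + t w) x y := by
  classical
  by_cases hxy : x = y
  · subst hxy; exact W.toPW.eqv_refl _ _
  obtain ⟨u, huD, mu, huA⟩ := W.two_mem hT K {x, y, i, l}
  simp only [Finset.mem_insert, Finset.mem_singleton, not_or] at huD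
  obtain ⟨hux, huy, hui, hul⟩ := huD
  obtain ⟨lil, _⟩ := W.mainfull_T hT hfull hz mz hi hl mi ml hil
  obtain ⟨liu, _⟩ := W.mainfull_T hT hfull hz mz hi huA mi mu (Ne.symm hui)
  obtain ⟨lux, _⟩ := W.mainfull_T hT hfull hz mz huA hx mu mx hux
  have s1 : W.toPW.SameVal (K + t i + t l + t z) (K + t i + t u + t z) :=
    W.mainfull_same hT hP hfull hz mz hi hl huA mi ml mu hil (Ne.symm hui) (Ne.symm hul)
  have s2 : W.toPW.SameVal (K + t i + t u + t z) (K + t u + t x + t z) := by
    rw [tg_comm K i u] 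
    by_cases hix : i = x
    · subst hix
      exact W.toPW.sameVal_refl lux
    · exact W.mainfull_same hT hP hfull hz mz huA hi hx mu mi mx hui hux hix
  have s3 := W.toPW.sameVal_trans liu s1 s2
  obtain ⟨v, _, _, hv⟩ := W.axN _ lux ∅
  obtain ⟨c1, _⟩ := W.toPW.sameVal_all lil lux s3 hw hv
  have s4 : W.toPW.SameVal (K + t u + t x + t z) (K + t u + t y + t z) :=
    W.mainfull_same hT hP hfull hz mz huA hx hy mu mx my hux huy hxy
  have e : K + t u + t x + t z + t y + t x = K + t u + t y + t z := by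
    have : K + t u + t x + t z + t y + t x = K + t u + t y + t z + (t x + t x) := by abel
    rw [this, tg_add_self, add_zero]
  have hzx : z ≠ x := by rintro rfl; exact mz mx
  have hzy : z ≠ y := by rintro rfl; exact mz my
  have m1 : W.toPW.m (K + t u + t x + t z) y := by
    rw [W.toPW.m_ne _ hzy, W.toPW.m_ne _ hxy, W.toPW.m_ne _ huy]; exact my
  have m2 : ¬ W.toPW.m (K + t u + t x + t z) x := by
    rw [W.toPW.m_ne _ hzx, W.toPW.m_self, W.toPW.m_ne _ hux]; simpa using mx
  have h5 := W.toPW.eqv_of_sameVal lux m1 m2 hv (by rw [e]; exact s4)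
  exact W.toPW.eqv_symm (W.toPW.eqv_of_conn c1 h5)

end World

end Pool.Agent.Lib.MP_a572be_co
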