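import Pool.Agent.Lib.MP_a572be_co.MainGood
import Pool.Agent.Lib.MP_a572be_co.MainDich
import Pool.Agent.Lib.MP_a572be_co.MainBad3
import Pool.Agent.Lib.MP_a572be_co.MainFull

/-!
# The main lemma
-/

namespace Pool.Agent.Lib.MP_a572be_co

namespace World

variable {r : ℕ} {Ω : Type} (W : World r Ω)

/-- One of the two sides satisfies `P1` (by `four`). -/
theorem P1_or (A : Set Ω) : W.P1 A ∨ W.P1 Aᶜ := by
  by_contra h
  simp only [PW.P1, not_or] at h
  push Not at h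
  obtain ⟨⟨S1, S2, h1, h2, k1, k2, k3⟩, S3, S4, h3, h4, k4, k5, k6⟩ := h
  obtain ⟨a, b, hab, hd⟩ := W.toPW.four ![S1, S2, S3, S4] (by
    intro a; fin_cases a
    · exact h1
    · exact h2
    · exact h3
    · exact h4)
  unfold PW.Dj at hd
  push Not at hd
  obtain ⟨v, _, ha, hb⟩ := hd
  have f1 := k1 v
  have f2 := k2 v
  have f3 := k3 v
  have f4 := k4 v
  have f5 := k5 v
  have f6 := k6 v
  fin_cases a <;> fin_cases b <;> simp at hab ha hb <;> simp_all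

/-- **Main lemma.** -/
theorem main {K : Tg Ω} {A : Set Ω} (hT : W.Two K A) (hP : W.P1 Aᶜ) :
    ∃ M i l z w, i ∈ A ∧ l ∈ A ∧ i ≠ l ∧ ¬ W.m M i ∧ ¬ W.m M l ∧ z ∉ A ∧ w ∉ A ∧ z ≠ w ∧
      ¬ W.m M z ∧ ¬ W.m M w ∧ W.Conn K (M + t i + t l) ∧
      W.JumpAt M A (M + t i + t l) (M + t z + t w) := by
  classical
  -- a common final step
  have fin : ∀ K1, W.Conn K K1 → ∀ i l z w, i ∈ A → l ∈ A → W.m K1 i → W.m K1 l → i ≠ l →
      z ∉ A → ¬ W.m K1 z → W.E (K1 + t i + t l + t z + t w) →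
      W.JumpAt (K1 + t i + t l) A K1 (K1 + t i + t l + t z + t w) →
      ∃ M i l z w, i ∈ A ∧ l ∈ A ∧ i ≠ l ∧ ¬ W.m M i ∧ ¬ W.m M l ∧ z ∉ A ∧ w ∉ A ∧ z ≠ w ∧
      ¬ W.m M z ∧ ¬ W.m M w ∧ W.Conn K (M + t i + t l) ∧
      W.JumpAt M A (M + t i + t l) (M + t z + t w) := by
    intro K1 hc i l z w hi hl mi ml hil hz mz hw hJ
    have e1 : K1 + t i + t l + t i + t l = K1 := by abel_nf; simp
    have n1 : ¬ W.m (K1 + t i + t l) z := by
      rw [W.toPW.m_ne _ (by rintro rfl; exact hz hl), W.toPW.m_ne _ (by rintro rfl; exact hz hi)]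
      exact mz
    have hlev : W.lev (K1 + t i + t l + t z) = -1 := by
      rw [W.toPW.lev_out n1, W.toPW.lev_in, W.toPW.lev_in mi,
        W.toPW.lev_E (W.toPW.conn_E hT.1 hc)]
      · ring
      · rw [W.toPW.m_ne _ hil]; exact ml
    have n2 := W.toPW.not_m_of_E hlev hw
    have hzw : z ≠ w := by
      rintro rfl
      apply n2
      rw [W.toPW.m_self]; exact n1
    refine ⟨K1 + t i + t l, i, l, z, w, hi, hl, hil, ?_, ?_, hz, ?_, hzw, n1, ?_, ?_, ?_⟩
    · rw [W.toPW.m_ne _ (Ne.symm hil), W.toPW.m_self]; simpa using mi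
    · rw [W.toPW.m_self, W.toPW.m_ne _ hil]; simpa using ml
    · exact (hJ.nbr2 z w hz n1 hw).1
    · rwa [W.toPW.m_ne _ hzw] at n2
    · rw [e1]; exact hc
    · rw [e1]; exact hJ
  by_cases hDex : ∃ K1, W.Conn K K1 ∧ W.DPair A K1
  · by_cases hgood : ∃ K1, W.Conn K K1 ∧ W.DPair A K1 ∧ ∃ z, z ∉ A ∧ ¬ W.m K1 z ∧
        ¬ W.BadStr K1 A z
    · obtain ⟨K1, hc, hD, z, hz, mz, hnb⟩ := hgood
      have hT1 := W.two_conn hT hc
      rcases W.dich hT1 hP hz mz hD with ⟨i, l, w, hi, hl, mi, ml, hs, hw, h5⟩ | hb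
      · have hil : i ≠ l := by rintro rfl; exact hs (W.sim_refl _ _)
        exact fin K1 hc i l z w hi hl mi ml hil hz mz hw
          (W.good5a hT1 hi hl mi ml hil hz mz hw h5 (W.fat_of_nsim hT1.1 mi ml hs))
      · exact absurd hb hnb
    · exfalso
      push Not at hgood
      obtain ⟨K1, hc, hD⟩ := hDex
      refine W.no_all_bad (W.two_conn hT hc) (fun L hL hDL z hz mz => ?_) hD
      exact hgood L (W.toPW.conn_trans hc hL) hDL z hz mz
  · push Not at hDex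
    have hfull : ∀ K', W.Conn K K' → ∀ i ∈ A, W.m K' i → ∀ v ∈ A, ¬ W.m K' v →
        W.E (K' + t i + t v) := fun K' hc i hi mi v hv mv =>
      W.full_of_not_dpair hT hc (hDex K' hc) hi mi hv mv
    obtain ⟨i, _, mi, hi⟩ := W.two_mem hT K ∅
    obtain ⟨l, hli, ml, hl⟩ := W.two_mem hT K {i}
    have hil : i ≠ l := by rintro rfl; simp at hli
    obtain ⟨z, _, mz, hz⟩ := W.two_out' hT K ∅
    have n1 : ¬ W.m (K + t i + t l) z := by
      rw [W.toPW.m_ne _ (by rintro rfl; exact hz hl), W.toPW.m_ne _ (by rintro rfl; exact hz hi)]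
      exact mz
    have hlev : W.lev (K + t i + t l + t z) = -1 := by
      rw [W.toPW.lev_out n1, W.toPW.lev_in, W.toPW.lev_in mi, W.toPW.lev_E hT.1]
      · ring
      · rw [W.toPW.m_ne _ hil]; exact ml
    obtain ⟨w, _, _, hw⟩ := W.axN _ hlev ∅
    exact fin K (W.toPW.conn_refl K) i l z w hi hl mi ml hil hz mz hw
      (W.good5a hT hi hl mi ml hil hz mz hw
        (fun x y hx hy mx my => W.five_of_full hT hP hfull hi hl mi ml hil hz mz hw hx hy mx my)
        (W.fat_of_full hT hP hfull hi hl mi ml hil))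

end World

end Pool.Agent.Lib.MP_a572be_co
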