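import Pool.Agent.Lib.MP_a572be_co.EXBase
import Pool.Agent.Lib.MP_a572be_co.Main
import Pool.Agent.Lib.MP_a572be_co.LinC

/-!
# The data produced by the limit argument
-/

namespace Pool.Agent.Lib.MP_a572be_co

/-- A finite list of sets `K t` with `q` names `u t a` of classes in each of them. -/
structure Fml (Ω : Type) where
  m : ℕ
  q : ℕ
  K : Fin m → Tg Ω
  u : Fin m → Fin q → Ω

open Classical in
/-- The data produced by the limit argument. -/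
structure LimitData (r : ℕ) (Ω : Type) where
  /-- the limit world -/
  W : PW r Ω
  hP : W.P = ∅
  /-- eventually, every element of all `K t` has a common label -/
  Emp : Fml Ω → Prop
  tri : ∀ φ : Fml Ω, (∀ t, W.E (φ.K t)) → (∀ t a, W.m (φ.K t) (φ.u t a)) →
    Emp φ ∨
    (∃ x, (∀ t, W.m (φ.K t) x) ∧ ¬ ∃ a, ∀ t, W.c (φ.K t) x (φ.u t a)) ∨
    (∃ X : PW r (Option Ω), IsExt W X ∧
      ¬ ∃ a, ∀ t, X.c (emb (φ.K t)) none (some (φ.u t a)))
  size : ∀ φ : Fml Ω, (∀ t, W.E (φ.K t)) → (∀ t a, W.m (φ.K t) (φ.u t a)) → Emp φ →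
    ∀ lab : Ω → Fin φ.q, (∀ t e, W.m (φ.K t) e → W.c (φ.K t) e (φ.u t (lab e))) →
    ∃ s : Fin φ.q → ZMod r,
      (∀ t, ∑ b, (s b + ((cnt W.I {e | lab e = b} (φ.K t) : ℤ) : ZMod r)) = 0) ∧
      (∀ t a, W.ρ (φ.K t) (φ.u t a) = ∑ b, if W.c (φ.K t) (φ.u t a) (φ.u t b) then
        (s b + ((cnt W.I {e | lab e = b} (φ.K t) : ℤ) : ZMod r)) else 0) ∧
      ∀ t, ¬ ∀ a, W.ρ (φ.K t) (φ.u t a) = 0

/-- The linear structure of a world. -/
structure Lin {r : ℕ} {Ω : Type} (W : PW r Ω) (lam : Ω → ZMod 3) (cE : ZMod 3) : Prop where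
  surj : Function.Surjective lam
  E_iff : ∀ K, W.E K ↔ (W.lev K = 0 ∧ fsum W.I lam K = cE)
  eqv : ∀ K, W.E K → ∀ x y, W.Eqv K x y ↔ lam x = lam y

/-- `V` is the world of the sets without the special element. -/
structure IsMinus {r : ℕ} {Ω : Type} (W : PW r Ω) (X : PW r (Option Ω)) (V : PW r Ω) : Prop where
  I_eq : V.I = W.I
  P_eq : V.P = ∅
  e0_eq : V.e0 = W.e0 - 1
  E_iff : ∀ K, V.E K ↔ X.E (emb K + t none)
  c_iff : ∀ K a b, V.c K a b ↔ X.c (emb K + t none) (some a) (some b)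
  ρ_eq : ∀ K a, V.ρ K a = X.ρ (emb K + t none) (some a)

end Pool.Agent.Lib.MP_a572be_co
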