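import Pool.Agent.Lib.MP_a572be_co.GenReal
import Pool.Agent.Lib.MP_a572be_co.CSys
import Pool.Agent.Lib.MP_a572be_co.LimDefs

/-!
# Random placements: definitions

The cloud is `Ω = ℕ ⊕ ℕ`: `inl i` is the `i`-th element of a random ordering of the vertices, and
`inr j` the `(k+j)`-th. A placement is given by a permutation `π` of `Fin N`; the reference set is
the set of the first `k` vertices in the ordering.
-/

namespace Pool.Agent.Lib.MP_a572be_co

open Classical

/-- The cloud. -/
abbrev Cl : Type := ℕ ⊕ ℕ

/-- The elements of the cloud inside the reference set. -/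
def ClI : Set Cl := {ω | ω.isLeft}

/-- The cloud with the special element. -/
abbrev Clx : Type := Option Cl

/-- The reference set of the cloud with the special element. -/
def ClxI : Set Clx := {ω | ω = none ∨ ∃ i, ω = some (Sum.inl i)}

/-- Index of an element of the cloud. -/
def idx : Clx → ℕ
  | none => 0
  | some (Sum.inl i) => i
  | some (Sum.inr j) => j

/-- Position (as a natural number) of an element of the cloud. -/
def posN (k : ℕ) : Cl → ℕ
  | Sum.inl i => i
  | Sum.inr j => k + j

/-- The average over the elements of `F` of the truth value of `B` (zero if `F` is empty). -/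
noncomputable def avg {V : Type} (F : Finset V) (B : V → Prop) : ℝ :=
  ((F.filter B).card : ℝ) / F.card

/-- The codegree hypothesis. -/
def Cod {k r N : ℕ} (S : CSys k r (Fin N)) (γ : ℝ) : Prop :=
  ∀ T : Finset (Fin N), T.card + 1 = k →
    γ * N ≤ ((Finset.univ.filter fun v => S.E (insert v T)).card : ℝ)

variable {N : ℕ} [NeZero N]

/-- Placement of the cloud. -/
def plc (k : ℕ) (π : Equiv.Perm (Fin N)) (ω : Cl) : Fin N := π (Fin.ofNat N (posN k ω))

/-- Placement of the cloud and of the special element. -/
def plcx (k : ℕ) (π : Equiv.Perm (Fin N)) (x : Fin N) : Clx → Fin N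
  | none => x
  | some ω => plc k π ω

/-- The reference set. -/
noncomputable def ref (k : ℕ) (π : Equiv.Perm (Fin N)) : Finset (Fin N) :=
  (Finset.univ.filter (fun p : Fin N => (p : ℕ) < k)).image π

/-- Realization of the sets coded over the cloud. -/
noncomputable def rl (k : ℕ) (π : Equiv.Perm (Fin N)) (X : Tg Cl) : Finset (Fin N) :=
  real (ref k π) (plc k π) X

/-- Realization of the sets coded over the cloud with the special element `x`. -/
noncomputable def rlx (k : ℕ) (π : Equiv.Perm (Fin N)) (x : Fin N) (X : Tg Clx) :
    Finset (Fin N) :=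
  real (ref k π) (plcx k π x) X

/-- The elements without a common label in the sets of the formula `φ`. -/
noncomputable def Fset {k r : ℕ} (S : CSys k r (Fin N)) (φ : Fml Cl) (π : Equiv.Perm (Fin N)) :
    Finset (Fin N) :=
  Finset.univ.filter fun x => x ∈ ref k π ∧ (∀ t, x ∈ rl k π (φ.K t)) ∧
    ¬ ∃ a, ∀ t, S.E (rl k π (φ.K t)) ∧ S.c (rl k π (φ.K t)) x (plc k π (φ.u t a))

/-- All indices occurring in `X` are smaller than `a`. -/
def Bel (a : ℕ) (X : Tg Clx) : Prop := ∀ ω ∈ X.support, idx ω < a

/-- All indices occurring in the formula are smaller than `a`. -/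
def FBel (a : ℕ) (φ : Fml Cl) : Prop :=
  (∀ t, ∀ ω ∈ (φ.K t).support, idx (some ω) < a) ∧ ∀ t b, idx (some (φ.u t b)) < a

/-- The names of the formula belong to the corresponding sets. -/
def FVal (φ : Fml Cl) : Prop := ∀ t b, mem ClI (φ.K t) (φ.u t b)

/-- `x` is not the placement of an element of the cloud of index smaller than `a`. -/
def Off (k a : ℕ) (π : Equiv.Perm (Fin N)) (x : Fin N) : Prop :=
  ∀ ω : Cl, idx (some ω) < a → x ≠ plc k π ω

end Pool.Agent.Lib.MP_a572be_co
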