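import Pool.Agent.Lib.MP_a572be_co.GenInv

/-!
# Exchanging two positions of the cloud
-/

namespace Pool.Agent.Lib.MP_a572be_co

open Classical

variable {N : ℕ} [NeZero N]

/-- The position of an element of the cloud. -/
def pos (k : ℕ) (ω : Cl) : Fin N := Fin.ofNat N (posN k ω)

theorem genfca_flip {A B : Prop} (h : ¬ (A ↔ B)) : B ↔ ¬ A := by
  by_cases a : A <;> by_cases b : B <;> simp [a, b] at h ⊢

omit [NeZero N] in
theorem genfca_equiv {Ω : Type} (P0 : Finset (Fin N)) (e : Ω → Fin N) (Z : Tg Ω)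
    (ρ : Equiv.Perm (Fin N)) (q : Fin N) :
    ρ q ∈ real (P0.image ρ) (fun ω => ρ (e ω)) Z ↔ q ∈ real P0 e Z := by
  unfold real
  simp only [Finset.mem_symmDiff, Finset.mem_image]
  have h1 : (∃ a ∈ P0, ρ a = ρ q) ↔ q ∈ P0 := by
    constructor
    · rintro ⟨a, ha, he⟩
      rwa [← ρ.injective he]
    · intro h; exact ⟨q, h, rfl⟩
  have h2 : (∃ a ∈ Z.support, ρ (e a) = ρ q) ↔ ∃ a ∈ Z.support, e a = q := by
    constructor
    · rintro ⟨a, ha, he⟩
      exact ⟨a, ha, ρ.injective he⟩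
    · rintro ⟨a, ha, he⟩
      exact ⟨a, ha, by rw [he]⟩
  rw [h1, h2]

omit [NeZero N] in
theorem genfca_mem {Ω : Type} {I : Set Ω} {P0 : Finset (Fin N)} {e : Ω → Fin N} {Z : Tg Ω}
    {ω : Ω} (hI : e ω ∈ P0 ↔ ω ∈ I) (hinj : ∀ ω' ∈ Z.support, e ω' = e ω → ω' = ω) :
    e ω ∈ real P0 e Z ↔ mem I Z ω := by
  unfold real mem
  simp only [Finset.mem_symmDiff, Finset.mem_image]
  have h2 : (∃ a ∈ Z.support, e a = e ω) ↔ Z ω ≠ 0 := by
    constructor
    · rintro ⟨a, ha, he⟩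
      rw [hinj a ha he] at ha
      exact Finsupp.mem_support_iff.1 ha
    · intro h
      exact ⟨ω, Finsupp.mem_support_iff.2 h, rfl⟩
  rw [h2, hI]
  by_cases a : ω ∈ I <;> by_cases b : Z ω = 0 <;> simp [a, b]

omit [NeZero N] in
theorem genfca_core {Ω : Type} {I : Set Ω} {P0 : Finset (Fin N)} {e : Ω → Fin N} {Y : Tg Ω}
    {ω0 ω1 : Ω} (h0 : e ω0 ∈ P0 ↔ ω0 ∈ I) (h1 : e ω1 ∈ P0 ↔ ω1 ∈ I)
    (i0 : ∀ ω, (ω ∈ Y.support ∨ ω = ω0 ∨ ω = ω1) → e ω = e ω0 → ω = ω0)
    (i1 : ∀ ω, (ω ∈ Y.support ∨ ω = ω0 ∨ ω = ω1) → e ω = e ω1 → ω = ω1)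
    (π : Equiv.Perm (Fin N)) :
    real (P0.image (π * Equiv.swap (e ω0) (e ω1)))
        (fun ω => (π * Equiv.swap (e ω0) (e ω1)) (e ω)) Y =
      if (mem I Y ω0 ↔ mem I Y ω1) then real (P0.image π) (fun ω => π (e ω)) Y
      else real (P0.image π) (fun ω => π (e ω)) (Y + t ω0 + t ω1) := by
  have hsub : ∀ ω, ω ∈ (Y + t ω0 + t ω1).support → ω ∈ Y.support ∨ ω = ω0 ∨ ω = ω1 := by
    intro ω hω
    by_contra hc
    push Not at hc
    obtain ⟨c1, c2, c3⟩ := hc
    apply Finsupp.mem_support_iff.1 hω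
    rw [Finsupp.add_apply, Finsupp.add_apply, t_ne (Ne.symm c2), t_ne (Ne.symm c3), add_zero,
      add_zero]
    exact Finsupp.notMem_support_iff.1 c1
  have m0 : e ω0 ∈ real P0 e Y ↔ mem I Y ω0 := genfca_mem h0 (fun ω h => i0 ω (Or.inl h))
  have m1 : e ω1 ∈ real P0 e Y ↔ mem I Y ω1 := genfca_mem h1 (fun ω h => i1 ω (Or.inl h))
  have m0' : e ω0 ∈ real P0 e (Y + t ω0 + t ω1) ↔ mem I (Y + t ω0 + t ω1) ω0 :=
    genfca_mem h0 (fun ω h => i0 ω (hsub ω h))
  have m1' : e ω1 ∈ real P0 e (Y + t ω0 + t ω1) ↔ mem I (Y + t ω0 + t ω1) ω1 :=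
    genfca_mem h1 (fun ω h => i1 ω (hsub ω h))
  ext v
  obtain ⟨p, rfl⟩ := π.surjective v
  have hL : π p ∈ real (P0.image (π * Equiv.swap (e ω0) (e ω1)))
        (fun ω => (π * Equiv.swap (e ω0) (e ω1)) (e ω)) Y ↔
      Equiv.swap (e ω0) (e ω1) p ∈ real P0 e Y := by
    rw [← genfca_equiv P0 e Y (π * Equiv.swap (e ω0) (e ω1))]
    rw [Equiv.Perm.mul_apply, Equiv.swap_apply_self]
  rw [hL]
  by_cases hm : mem I Y ω0 ↔ mem I Y ω1
  · rw [if_pos hm, genfca_equiv]
    by_cases p0 : p = e ω0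
    · subst p0
      rw [Equiv.swap_apply_left, m0, m1, hm]
    by_cases p1 : p = e ω1
    · subst p1
      rw [Equiv.swap_apply_right, m0, m1, hm]
    rw [Equiv.swap_apply_of_ne_of_ne p0 p1]
  · rw [if_neg hm, genfca_equiv]
    have hne : ω0 ≠ ω1 := by rintro rfl; exact hm Iff.rfl
    by_cases p0 : p = e ω0
    · subst p0
      rw [Equiv.swap_apply_left, m1, m0', mem_add_t_ne I _ (Ne.symm hne), mem_add_t_self]
      exact genfca_flip hm
    by_cases p1 : p = e ω1
    · subst p1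
      rw [Equiv.swap_apply_right, m0, m1', mem_add_t_self, mem_add_t_ne I _ hne]
      exact genfca_flip (fun h => hm h.symm)
    rw [Equiv.swap_apply_of_ne_of_ne p0 p1]
    unfold real
    simp only [Finset.mem_symmDiff, Finset.mem_image]
    have h2 : (∃ a ∈ (Y + t ω0 + t ω1).support, e a = p) ↔ ∃ a ∈ Y.support, e a = p := by
      have h3 : ∀ a, e a = p → (a ∈ (Y + t ω0 + t ω1).support ↔ a ∈ Y.support) := by
        intro a ha
        have a0 : a ≠ ω0 := by rintro rfl; exact p0 ha.symm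
        have a1 : a ≠ ω1 := by rintro rfl; exact p1 ha.symm
        rw [Finsupp.mem_support_iff, Finsupp.mem_support_iff, Finsupp.add_apply,
          Finsupp.add_apply, t_ne (Ne.symm a0), t_ne (Ne.symm a1), add_zero, add_zero]
      constructor
      · rintro ⟨a, ha, he⟩
        exact ⟨a, (h3 a he).1 ha, he⟩
      · rintro ⟨a, ha, he⟩
        exact ⟨a, (h3 a he).2 ha, he⟩
    rw [h2]

theorem genfca_pos_inj {k a : ℕ} (hk : a ≤ k) (hN : k + a ≤ N)
    {ω ω' : Cl} (h : idx (some ω) < a) (h' : idx (some ω') < a)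
    (he : (pos k ω : Fin N) = pos k ω') : ω = ω' :=
  geninv_plc_inj hk hN 1 h h' (by unfold plc; unfold pos at he; rw [he])

theorem genfca_pos_mem {k a : ℕ} (hk : a ≤ k) (hN : k + a ≤ N) {ω : Cl}
    (h : idx (some ω) < a) :
    (pos k ω : Fin N) ∈ (Finset.univ.filter (fun p : Fin N => (p : ℕ) < k)) ↔ ω ∈ ClI := by
  have h2 := geninv_pos hk h
  rw [Finset.mem_filter, ← geninv_pos_lt hk h]
  unfold pos
  rw [geninv_val (by omega)]
  simp

/-- Exchange of the positions of `ω0` and `ω1`: the position set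
`{p < k} Δ pos (supp Y)` is invariant under the exchange if `ω0`, `ω1` both belong or both do not
belong to the set coded by `Y`, and otherwise it becomes the position set of
`Y + t ω0 + t ω1`. Positions of elements of index `< a` are pairwise different natural numbers
`< N`. -/
theorem fc_rl {k a : ℕ} (hk : a ≤ k) (hN : k + a ≤ N) (π : Equiv.Perm (Fin N)) {ω0 ω1 : Cl}
    (h0 : idx (some ω0) < a) (h1 : idx (some ω1) < a) (Y : Tg Cl)
    (hY : ∀ ω ∈ Y.support, idx (some ω) < a) :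
    rl k (π * Equiv.swap (pos k ω0) (pos k ω1)) Y =
      if (mem ClI Y ω0 ↔ mem ClI Y ω1) then rl k π Y else rl k π (Y + t ω0 + t ω1) := by
  have hb : ∀ ω, (ω ∈ Y.support ∨ ω = ω0 ∨ ω = ω1) → idx (some ω) < a := by
    rintro ω (h | rfl | rfl)
    · exact hY ω h
    · exact h0
    · exact h1
  exact genfca_core (e := fun ω => (pos k ω : Fin N)) (genfca_pos_mem hk hN h0)
    (genfca_pos_mem hk hN h1)
    (fun ω hω he => genfca_pos_inj hk hN (hb ω hω) h0 he)
    (fun ω hω he => genfca_pos_inj hk hN (hb ω hω) h1 he) π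

/-- The same with a special element which is off the cloud. -/
theorem fc_rlx {k a : ℕ} (hk : a ≤ k) (hN : k + a ≤ N) (π : Equiv.Perm (Fin N)) {ω0 ω1 : Cl}
    (h0 : idx (some ω0) < a) (h1 : idx (some ω1) < a) {x : Fin N} (hx : Off k a π x) (Y : Tg Clx)
    (hY : Bel a Y) :
    rlx k (π * Equiv.swap (pos k ω0) (pos k ω1)) x Y =
      if (mem ClxI Y (some ω0) ↔ mem ClxI Y (some ω1)) then rlx k π x Y
      else rlx k π x (Y + t (some ω0) + t (some ω1)) := by
  let e : Clx → Fin N := fun ω => match ω with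
    | none => π⁻¹ x
    | some ω => pos k ω
  have hx0 : ∀ ω : Cl, idx (some ω) < a → π⁻¹ x ≠ pos k ω := by
    intro ω hω he
    apply hx ω hω
    unfold plc
    unfold pos at he
    rw [← he]
    exact (π.apply_symm_apply x).symm
  have hb : ∀ ω : Clx, (ω ∈ Y.support ∨ ω = some ω0 ∨ ω = some ω1) → idx ω < a := by
    rintro ω (h | rfl | rfl)
    · exact hY ω h
    · exact h0
    · exact h1
  have hcl : ∀ ω : Cl, (some ω : Clx) ∈ ClxI ↔ ω ∈ ClI := by
    intro ω
    cases ω with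
    | inl i => simp [ClxI, ClI]
    | inr j => simp [ClxI, ClI]
  have hinj : ∀ ω2 : Cl, idx (some ω2) < a → ∀ ω : Clx, idx ω < a → e ω = e (some ω2) →
      ω = some ω2 := by
    intro ω2 h2 ω hω he
    cases ω with
    | none => exact absurd he (hx0 ω2 h2)
    | some ω => rw [genfca_pos_inj hk hN hω h2 he]
  have e1 : plcx k π x = fun ω => π (e ω) := by
    funext ω
    cases ω with
    | none => exact (π.apply_symm_apply x).symm
    | some ω => rfl
  have e2 : plcx k (π * Equiv.swap (pos k ω0) (pos k ω1)) x =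
      fun ω => (π * Equiv.swap (pos k ω0) (pos k ω1) : Equiv.Perm (Fin N)) (e ω) := by
    funext ω
    cases ω with
    | none =>
      change x = π (Equiv.swap (pos k ω0) (pos k ω1) (π⁻¹ x))
      rw [Equiv.swap_apply_of_ne_of_ne (hx0 ω0 h0) (hx0 ω1 h1)]
      exact (π.apply_symm_apply x).symm
    | some ω => rfl
  unfold rlx
  rw [e1, e2]
  exact genfca_core (e := e) (ω0 := some ω0) (ω1 := some ω1)
    ((genfca_pos_mem hk hN h0).trans (hcl ω0).symm)
    ((genfca_pos_mem hk hN h1).trans (hcl ω1).symm)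
    (fun ω hω he => hinj ω0 h0 ω (hb ω hω) he)
    (fun ω hω he => hinj ω1 h1 ω (hb ω hω) he) π

/-- Off the cloud is invariant. -/
theorem fc_off {k a : ℕ} (π : Equiv.Perm (Fin N)) {ω0 ω1 : Cl}
    (h0 : idx (some ω0) < a) (h1 : idx (some ω1) < a) (hk : a ≤ k) (hN : k + a ≤ N) {x : Fin N} :
    Off k a (π * Equiv.swap (pos k ω0) (pos k ω1)) x ↔ Off k a π x := by
  have key : ∀ ρ : Equiv.Perm (Fin N), Off k a ρ x →
      Off k a (ρ * Equiv.swap (pos k ω0) (pos k ω1)) x := by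
    intro ρ h ω hω
    have e : plc k (ρ * Equiv.swap (pos k ω0) (pos k ω1)) ω =
        ρ (Equiv.swap (pos k ω0) (pos k ω1) (pos k ω)) := rfl
    rw [e]
    by_cases p0 : (pos k ω : Fin N) = pos k ω0
    · rw [p0, Equiv.swap_apply_left]; exact h ω1 h1
    by_cases p1 : (pos k ω : Fin N) = pos k ω1
    · rw [p1, Equiv.swap_apply_right]; exact h ω0 h0
    rw [Equiv.swap_apply_of_ne_of_ne p0 p1]
    exact h ω hω
  constructor
  · intro h
    have := key _ h
    rwa [mul_assoc, Equiv.swap_mul_self, mul_one] at this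
  · exact key π

end Pool.Agent.Lib.MP_a572be_co
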