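import Pool.Agent.Lib.MP_a572be_co.Dec
import Pool.Agent.Lib.MP_a572be_co.GenFCa

/-!
# Transport of the set `Fset` between two placements
-/

namespace Pool.Agent.Lib.MP_a572be_co

open Classical

variable {N : ℕ} [NeZero N]

/-- The candidates for a copy of `b` relative to `Y`: `cand Y b a 0 = b`, and `cand Y b a (i+1)` is the
element of index `a + i` on the side of the reference set determined by the membership of `b` in the
set coded by `Y`. -/
noncomputable def cand (Y : Tg Cl) (b : Cl) (a : ℕ) : ℕ → Cl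
  | 0 => b
  | i + 1 => if mem ClI Y b then Sum.inl (a + i) else Sum.inr (a + i)

/-- The placement with the positions of `b` and of the `j`-th candidate exchanged. -/
noncomputable def pj (k : ℕ) (π : Equiv.Perm (Fin N)) (Y : Tg Cl) (b : Cl) (a j : ℕ) :
    Equiv.Perm (Fin N) :=
  π * Equiv.swap (pos k b) (pos k (cand Y b a j))

/-! ### Auxiliary facts -/

theorem genfcb_mem {k A : ℕ} (hk : A ≤ k) (hN : k + A ≤ N) (π : Equiv.Perm (Fin N)) {X : Tg Cl}
    (hX : ∀ ω ∈ X.support, idx (some ω) < A) {ω : Cl} (h : idx (some ω) < A) :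
    plc k π ω ∈ rl k π X ↔ mem ClI X ω := by
  refine real_mem (D := insert ω X.support) (plc_adm hk hN π _ ?_) (Finset.subset_insert _ _)
    (Finset.mem_insert_self _ _)
  intro ω' h'
  rcases Finset.mem_insert.1 h' with rfl | h'
  · exact h
  · exact hX _ h'

theorem genfcb_add_in {k A : ℕ} (hk : A ≤ k) (hN : k + A ≤ N) (π : Equiv.Perm (Fin N)) {X : Tg Cl}
    (hX : ∀ ω ∈ X.support, idx (some ω) < A) {ω : Cl} (h : idx (some ω) < A)
    (hm : mem ClI X ω) (x : Fin N) :
    x ∈ rl k π (X + t ω) ↔ (x ≠ plc k π ω ∧ x ∈ rl k π X) := by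
  unfold rl
  rw [real_add_in (I := ClI) (D := insert ω X.support) (plc_adm hk hN π _ ?_)
    (Finset.subset_insert _ _) (Finset.mem_insert_self _ _) hm]
  · exact @Finset.mem_erase _ (_) _ _ _
  · intro ω' h'
    rcases Finset.mem_insert.1 h' with rfl | h'
    · exact h
    · exact hX _ h'

theorem genfcb_add_out {k A : ℕ} (hk : A ≤ k) (hN : k + A ≤ N) (π : Equiv.Perm (Fin N)) {X : Tg Cl}
    (hX : ∀ ω ∈ X.support, idx (some ω) < A) {ω : Cl} (h : idx (some ω) < A)
    (hm : ¬ mem ClI X ω) (x : Fin N) :
    x ∈ rl k π (X + t ω) ↔ (x = plc k π ω ∨ x ∈ rl k π X) := by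
  unfold rl
  rw [real_add_out (I := ClI) (D := insert ω X.support) (plc_adm hk hN π _ ?_)
    (Finset.subset_insert _ _) (Finset.mem_insert_self _ _) hm]
  · exact @Finset.mem_insert _ (_) _ _ _
  · intro ω' h'
    rcases Finset.mem_insert.1 h' with rfl | h'
    · exact h
    · exact hX _ h'

theorem genfcb_inj {k A : ℕ} (hk : A ≤ k) (hN : k + A ≤ N) (π : Equiv.Perm (Fin N)) {ω ω' : Cl}
    (h : idx (some ω) < A) (h' : idx (some ω') < A) (he : plc k π ω = plc k π ω') : ω = ω' := by
  have := (plc_adm hk hN π ({ω, ω'} : Finset Cl) (by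
    intro x hx
    rcases Finset.mem_insert.1 hx with rfl | hx
    · exact h
    · rw [Finset.mem_singleton] at hx
      subst hx
      exact h')).1
  exact this (by simp) (by simp) he

theorem genfcb_idx (Y : Tg Cl) {b : Cl} {a R : ℕ} (hb : idx (some b) < a) {i : ℕ} (hi : i ≤ R) :
    idx (some (cand Y b a i)) < a + R := by
  cases i with
  | zero => simp only [cand]; omega
  | succ i =>
    simp only [cand]
    split_ifs <;> simp only [idx] <;> omega

theorem genfcb_idx' (Y : Tg Cl) (b : Cl) (a i : ℕ) :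
    a ≤ idx (some (cand Y b a (i + 1))) := by
  simp only [cand]
  split_ifs <;> simp only [idx] <;> omega

theorem genfcb_mem_cand (Y : Tg Cl) (b : Cl) (a i : ℕ) {X : Tg Cl}
    (hX : ∀ ω ∈ X.support, idx (some ω) < a) :
    mem ClI X (cand Y b a (i + 1)) ↔ mem ClI Y b := by
  have h : cand Y b a (i + 1) ∉ X.support := by
    intro h
    have := hX _ h
    have := genfcb_idx' Y b a i
    omega
  rw [mem_of_notMem_support ClI h]
  simp only [cand, ClI]
  split_ifs with h' <;> simp [h']

/-- The realizations under `pj i`. -/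
theorem genfcb_rl {k a R : ℕ} (hk : a + R ≤ k) (hN : k + a + R ≤ N) (π : Equiv.Perm (Fin N))
    (Y : Tg Cl) {b : Cl} (hb : idx (some b) < a) {i : ℕ} (hi : i ≤ R) {X : Tg Cl}
    (hX : ∀ ω ∈ X.support, idx (some ω) < a) :
    rl k (pj k π Y b a i) X =
      if (mem ClI X b ↔ mem ClI Y b) then rl k π X else rl k π (X + t b + t (cand Y b a i)) := by
  cases i with
  | zero =>
    have h1 : pj k π Y b a 0 = π := by
      unfold pj
      simp only [cand, Equiv.swap_self]
      rfl
    rw [h1]
    simp [cand]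
  | succ i =>
    unfold pj
    rw [fc_rl (a := a + R) hk (by omega) π (by omega) (genfcb_idx Y hb hi) X
      (fun ω hω => by have := hX ω hω; omega), genfcb_mem_cand Y b a i hX]

/-- The elements of index `< a` under `pj i`. -/
theorem genfcb_plc {k a R : ℕ} (hk : a + R ≤ k) (hN : k + a + R ≤ N) (π : Equiv.Perm (Fin N))
    (Y : Tg Cl) {b : Cl} (hb : idx (some b) < a) {i : ℕ} (hi : i ≤ R) {ω : Cl}
    (hω : idx (some ω) < a) :
    plc k (pj k π Y b a i) ω = if ω = b then plc k π (cand Y b a i) else plc k π ω := by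
  have e : ∀ ω, plc k (pj k π Y b a i) ω =
      π (Equiv.swap (pos k b) (pos k (cand Y b a i)) (pos k ω)) := fun ω => rfl
  rw [e]
  split_ifs with h
  · subst h
    rw [Equiv.swap_apply_left]
    rfl
  · rw [Equiv.swap_apply_of_ne_of_ne]
    · rfl
    · intro h'
      apply h
      exact genfcb_inj (A := a + R) hk (by omega) π (by omega) (by omega)
        (show plc k π ω = plc k π b from congrArg π h')
    · intro h'
      have h2 : ω = cand Y b a i := genfcb_inj (A := a + R) hk (by omega) π (by omega)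
        (genfcb_idx Y hb hi) (show plc k π ω = plc k π (cand Y b a i) from congrArg π h')
      cases i with
      | zero => exact h h2
      | succ i =>
        have := genfcb_idx' Y b a i
        rw [← h2] at this
        omega

/-- An element of index `< a`, different from `b`, is not a candidate. -/
theorem genfcb_ne {k a R : ℕ} (hk : a + R ≤ k) (hN : k + a + R ≤ N) (π : Equiv.Perm (Fin N))
    (Y : Tg Cl) {b : Cl} (hb : idx (some b) < a) {i : ℕ} (hi : i ≤ R) {ω : Cl}
    (hω : idx (some ω) < a) (h : ω ≠ b) : plc k π ω ≠ plc k π (cand Y b a i) := by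
  intro h'
  have h2 : ω = cand Y b a i := genfcb_inj (A := a + R) hk (by omega) π (by omega)
    (genfcb_idx Y hb hi) h'
  cases i with
  | zero => exact h h2
  | succ i =>
    have := genfcb_idx' Y b a i
    rw [← h2] at this
    omega

theorem genfcb_swap_mem {V : Type} {inst : DecidableEq V} {C : Finset V} {e e' : V}
    (h : e ∈ C ↔ e' ∈ C) (x : V) : @Equiv.swap V inst e e' x ∈ C ↔ x ∈ C := by
  by_cases h1 : x = e
  · subst h1
    rw [Equiv.swap_apply_left]; exact h.symm
  · by_cases h2 : x = e'
    · subst h2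
      rw [Equiv.swap_apply_right]; exact h
    · rw [Equiv.swap_apply_of_ne_of_ne h1 h2]

/-- Moving one element is the image under the transposition. -/
theorem genfcb_insert_erase {V : Type} {i1 i2 i3 : DecidableEq V} {A A' : Finset V} {x v : V}
    (hx : x ∈ A) (hv : v ∉ A) (h : ∀ y, @Equiv.swap V i1 x v y ∈ A' ↔ y ∈ A) :
    @insert V (Finset V) (@Finset.instInsert V i2) v (@Finset.erase V i3 A x) = A' := by
  obtain rfl : i1 = i2 := Subsingleton.elim _ _
  obtain rfl : i1 = i3 := Subsingleton.elim _ _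
  have hxv : x ≠ v := fun h => hv (h ▸ hx)
  ext y
  rw [Finset.mem_insert, Finset.mem_erase]
  by_cases h1 : y = v
  · subst h1
    have := h x
    rw [Equiv.swap_apply_left] at this
    simp [this, hx]
  · by_cases h2 : y = x
    · subst h2
      have := h v
      rw [Equiv.swap_apply_right] at this
      simp [this, hv, hxv]
    · have := h y
      rw [Equiv.swap_apply_of_ne_of_ne h2 h1] at this
      simp [this, h1, h2]

/-- The support of the coded set in case (ii). -/
theorem genfcb_supp {a : ℕ} {X : Tg Cl} (hX : ∀ ω ∈ X.support, idx (some ω) < a) {b : Cl}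
    (hb : idx (some b) < a) : ∀ ω ∈ (X + t b).support, idx (some ω) < a := by
  intro ω hω
  by_cases h : b = ω
  · subst h; exact hb
  · apply hX
    rw [Finsupp.mem_support_iff] at hω ⊢
    rw [Finsupp.add_apply, t_ne h, add_zero] at hω
    exact hω

/-- In both cases the base set contains all the candidates or none of them. -/
theorem genfcb_base {a : ℕ} (Y : Tg Cl) {b : Cl} (i : ℕ) {X : Tg Cl}
    (hX : ∀ ω ∈ X.support, idx (some ω) < a) (h : mem ClI X b ↔ mem ClI Y b) :
    mem ClI X (cand Y b a i) ↔ mem ClI Y b := by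
  cases i with
  | zero => exact h
  | succ i => exact genfcb_mem_cand Y b a i hX

/-- The transposition of the candidates maps the realization under `pj j` to the one under
`pj j'`. -/
theorem genfcb_img {k a R : ℕ} (hk : a + R ≤ k) (hN : k + a + R ≤ N) (π : Equiv.Perm (Fin N))
    (Y : Tg Cl) {b : Cl} (hb : idx (some b) < a) {j j' : ℕ} (hj : j ≤ R) (hj' : j' ≤ R) {X : Tg Cl}
    (hX : ∀ ω ∈ X.support, idx (some ω) < a) (x : Fin N) :
    Equiv.swap (plc k π (cand Y b a j)) (plc k π (cand Y b a j')) x ∈ rl k (pj k π Y b a j') X ↔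
      x ∈ rl k (pj k π Y b a j) X := by
  rw [genfcb_rl hk hN π Y hb hj hX, genfcb_rl hk hN π Y hb hj' hX]
  have h1 := genfcb_idx Y hb hj
  have h2 := genfcb_idx Y hb hj'
  have hN' : k + (a + R) ≤ N := by omega
  split_ifs with h
  · have hX' : ∀ ω ∈ X.support, idx (some ω) < a + R := fun ω hω => by
      have := hX ω hω; omega
    apply genfcb_swap_mem
    rw [genfcb_mem hk hN' π hX' h1, genfcb_mem hk hN' π hX' h2,
      genfcb_base Y j hX h, genfcb_base Y j' hX h]
  · have hXb := genfcb_supp hX hb
    have hX' : ∀ ω ∈ (X + t b).support, idx (some ω) < a + R := fun ω hω => by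
      have := hXb ω hω; omega
    have hm : mem ClI (X + t b) b ↔ mem ClI Y b := by
      rw [mem_add_t_self]; tauto
    have hc := genfcb_base Y j hXb hm
    have hc' := genfcb_base Y j' hXb hm
    have hs : Equiv.swap (plc k π (cand Y b a j)) (plc k π (cand Y b a j')) x ∈ rl k π (X + t b) ↔
        x ∈ rl k π (X + t b) := by
      apply genfcb_swap_mem
      rw [genfcb_mem hk hN' π hX' h1, genfcb_mem hk hN' π hX' h2, hc, hc']
    have he : Equiv.swap (plc k π (cand Y b a j)) (plc k π (cand Y b a j')) x =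
        plc k π (cand Y b a j') ↔ x = plc k π (cand Y b a j) := by
      rw [Equiv.swap_apply_eq_iff, Equiv.swap_apply_right]
    by_cases hσ : mem ClI Y b
    · rw [genfcb_add_in hk hN' π hX' h2 (hc'.2 hσ), genfcb_add_in hk hN' π hX' h1 (hc.2 hσ), hs,
        Ne, he]
    · rw [genfcb_add_out hk hN' π hX' h2 (fun h => hσ (hc'.1 h)),
        genfcb_add_out hk hN' π hX' h1 (fun h => hσ (hc.1 h)), hs, he]

/-- The relation on an edge is transported. -/
theorem genfcb_rel {k a r R : ℕ} (hk : a + R ≤ k) (hN : k + a + R ≤ N) (S : CSys k r (Fin N))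
    (π : Equiv.Perm (Fin N)) (Y : Tg Cl)
    (hY : ∀ ω ∈ Y.support, idx (some ω) < a) (b : Cl) (hb : idx (some b) < a) {j j' : ℕ}
    (hj : j ≤ R) (hj' : j' ≤ R)
    (h1 : ∀ Z : Tg Cl, (∀ ω ∈ Z.support, idx (some ω) < a) → Z b = 0 →
      (S.E (rl k π (Y + Z + t (cand Y b a j))) ↔ S.E (rl k π (Y + Z + t (cand Y b a j')))))
    {X : Tg Cl} (hX : ∀ ω ∈ X.support, idx (some ω) < a)
    (h2 : mem ClI Y b → mem ClI X b → S.E (rl k π X) →
      S.c (rl k π X) (plc k π (cand Y b a j)) (plc k π (cand Y b a j'))) :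
    (S.E (rl k (pj k π Y b a j') X) ↔ S.E (rl k (pj k π Y b a j) X)) ∧
    (S.E (rl k (pj k π Y b a j) X) → ∀ x ∈ rl k (pj k π Y b a j) X,
      ∀ n ∈ rl k (pj k π Y b a j) X,
      (S.c (rl k (pj k π Y b a j) X) x n ↔ S.c (rl k (pj k π Y b a j') X)
        (Equiv.swap (plc k π (cand Y b a j)) (plc k π (cand Y b a j')) x)
        (Equiv.swap (plc k π (cand Y b a j)) (plc k π (cand Y b a j')) n))) := by
  have hi1 := genfcb_idx Y hb hj
  have hi2 := genfcb_idx Y hb hj'
  have hN' : k + (a + R) ≤ N := by omega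
  have himg := fun x => genfcb_img hk hN π Y hb hj hj' hX x
  by_cases h : mem ClI X b ↔ mem ClI Y b
  · have hX' : ∀ ω ∈ X.support, idx (some ω) < a + R := fun ω hω => by
      have := hX ω hω; omega
    have e1 : rl k (pj k π Y b a j) X = rl k π X := by
      rw [genfcb_rl hk hN π Y hb hj hX, if_pos h]
    have e2 : rl k (pj k π Y b a j') X = rl k π X := by
      rw [genfcb_rl hk hN π Y hb hj' hX, if_pos h]
    rw [e1, e2]
    refine ⟨Iff.rfl, ?_⟩
    intro hE x hx n hn
    have m1 : plc k π (cand Y b a j) ∈ rl k π X ↔ mem ClI Y b := by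
      rw [genfcb_mem hk hN' π hX' hi1, genfcb_base Y j hX h]
    have m2 : plc k π (cand Y b a j') ∈ rl k π X ↔ mem ClI Y b := by
      rw [genfcb_mem hk hN' π hX' hi2, genfcb_base Y j' hX h]
    by_cases hσ : mem ClI Y b
    · have hr := h2 hσ (h.2 hσ) hE
      have key : ∀ x ∈ rl k π X, Equiv.swap (plc k π (cand Y b a j)) (plc k π (cand Y b a j')) x ∈
          rl k π X ∧ S.c (rl k π X) x
            (Equiv.swap (plc k π (cand Y b a j)) (plc k π (cand Y b a j')) x) := by
        intro x hx
        by_cases h3 : x = plc k π (cand Y b a j)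
        · subst h3
          rw [Equiv.swap_apply_left]
          exact ⟨m2.2 hσ, hr⟩
        · by_cases h4 : x = plc k π (cand Y b a j')
          · subst h4
            rw [Equiv.swap_apply_right]
            exact ⟨m1.2 hσ, S.c_symm _ _ _ hE (m1.2 hσ) hx hr⟩
          · rw [Equiv.swap_apply_of_ne_of_ne h3 h4]
            exact ⟨hx, S.c_refl _ _ hE hx⟩
      obtain ⟨gx, cx⟩ := key x hx
      obtain ⟨gn, cn⟩ := key n hn
      constructor
      · intro hc
        exact S.c_trans _ _ _ _ hE gx hx gn (S.c_symm _ _ _ hE hx gx cx)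
          (S.c_trans _ _ _ _ hE hx hn gn hc cn)
      · intro hc
        exact S.c_trans _ _ _ _ hE hx gx hn cx
          (S.c_trans _ _ _ _ hE gx gn hn hc (S.c_symm _ _ _ hE hn gn cn))
    · have h3 : plc k π (cand Y b a j) ∉ rl k π X := fun h => hσ (m1.1 h)
      have h4 : plc k π (cand Y b a j') ∉ rl k π X := fun h => hσ (m2.1 h)
      have h5 : ∀ y ∈ rl k π X,
          Equiv.swap (plc k π (cand Y b a j)) (plc k π (cand Y b a j')) y = y := by
        intro y hy
        apply Equiv.swap_apply_of_ne_of_ne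
        · rintro rfl; exact h3 hy
        · rintro rfl; exact h4 hy
      rw [h5 x hx, h5 n hn]
  · have hXb := genfcb_supp hX hb
    have hX' : ∀ ω ∈ (X + t b).support, idx (some ω) < a + R := fun ω hω => by
      have := hXb ω hω; omega
    have hm : mem ClI (X + t b) b ↔ mem ClI Y b := by
      rw [mem_add_t_self]; tauto
    have hc := genfcb_base Y j hXb hm
    have hc' := genfcb_base Y j' hXb hm
    have e1 : rl k (pj k π Y b a j) X = rl k π (X + t b + t (cand Y b a j)) := by
      rw [genfcb_rl hk hN π Y hb hj hX, if_neg h]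
    have e2 : rl k (pj k π Y b a j') X = rl k π (X + t b + t (cand Y b a j')) := by
      rw [genfcb_rl hk hN π Y hb hj' hX, if_neg h]
    have hE' : S.E (rl k (pj k π Y b a j) X) ↔ S.E (rl k (pj k π Y b a j') X) := by
      have hZ := h1 (Y + (X + t b)) (by
        intro ω hω
        by_contra hge
        have hy : Y ω = 0 := by
          by_contra hne
          exact hge (hY ω (Finsupp.mem_support_iff.2 hne))
        have hx : (X + t b) ω = 0 := by
          by_contra hne
          exact hge (hXb ω (Finsupp.mem_support_iff.2 hne))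
        rw [Finsupp.mem_support_iff, Finsupp.add_apply, hy, hx, add_zero] at hω
        exact hω rfl) (by
        rw [Finsupp.add_apply]
        unfold mem at hm
        rcases zmod2_cases (Y b) with h3 | h3 <;> rcases zmod2_cases ((X + t b) b) with h4 | h4 <;>
          rw [h3, h4] at hm ⊢ <;> first | decide | (exfalso; simp at hm))
      rw [tg_add_self_left] at hZ
      rw [e1, e2]
      exact hZ
    refine ⟨hE'.symm, ?_⟩
    intro hE x hx n hn
    by_cases hjj : plc k π (cand Y b a j) = plc k π (cand Y b a j')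
    · have hcc : cand Y b a j = cand Y b a j' := genfcb_inj hk hN' π hi1 hi2 hjj
      rw [hjj, Equiv.swap_self, Equiv.refl_apply, Equiv.refl_apply, e1, e2, hcc]
    · by_cases hσ : mem ClI Y b
      · -- `e j ∉ A`, `e j' ∈ A`
        have hv : plc k π (cand Y b a j) ∉ rl k (pj k π Y b a j) X := by
          rw [e1, genfcb_add_in hk hN' π hX' hi1 (hc.2 hσ)]
          tauto
        have hx' : plc k π (cand Y b a j') ∈ rl k (pj k π Y b a j) X := by
          rw [e1, genfcb_add_in hk hN' π hX' hi1 (hc.2 hσ)]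
          exact ⟨fun h => hjj h.symm, (genfcb_mem hk hN' π hX' hi2).2 (hc'.2 hσ)⟩
        have hI := fun {i2 i3} => @genfcb_insert_erase _ _ i2 i3 _ _ _ _ hx' hv (fun y => by
          rw [Equiv.swap_comm]
          exact himg y)
        have hmv := S.c_move _ _ _ hE hx' hv (by rw [hI]; exact hE'.1 hE) x hx n hn
        rw [hI] at hmv
        rw [hmv]
        have hsw : ∀ y, @Equiv.swap (Fin N) (fun a b => propDecidable (a = b))
            (plc k π (cand Y b a j')) (plc k π (cand Y b a j)) y =
            Equiv.swap (plc k π (cand Y b a j)) (plc k π (cand Y b a j')) y := by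
          intro y
          rw [@Equiv.swap_comm _ (_), swap_dec _ _ (plc k π (cand Y b a j))]
        rw [hsw, hsw]
      · have hx' : plc k π (cand Y b a j) ∈ rl k (pj k π Y b a j) X := by
          rw [e1, genfcb_add_out hk hN' π hX' hi1 (fun h => hσ (hc.1 h))]
          exact Or.inl rfl
        have hv : plc k π (cand Y b a j') ∉ rl k (pj k π Y b a j) X := by
          rw [e1, genfcb_add_out hk hN' π hX' hi1 (fun h => hσ (hc.1 h))]
          rintro (h | h)
          · exact hjj h.symm
          · exact hσ (hc'.1 ((genfcb_mem hk hN' π hX' hi2).1 h))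
        have hI := fun {i2 i3} => @genfcb_insert_erase _ _ i2 i3 _ _ _ _ hx' hv himg
        have hmv := S.c_move _ _ _ hE hx' hv (by rw [hI]; exact hE'.1 hE) x hx n hn
        rw [hI] at hmv
        rw [hmv]
        have hsw : ∀ y, @Equiv.swap (Fin N) (fun a b => propDecidable (a = b))
            (plc k π (cand Y b a j)) (plc k π (cand Y b a j')) y =
            Equiv.swap (plc k π (cand Y b a j)) (plc k π (cand Y b a j')) y := by
          intro y
          rw [swap_dec _ _ (plc k π (cand Y b a j))]
        rw [hsw, hsw]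

/-- **Transport.** Let `j, j' ≤ R` be such that the `j`-th and the `j'`-th candidates have the same
diagrams (`h1`), and, if both belong to the realization of `φ.K t`, are related there (`h2`). Write
`e i = π (pos (cand i))`, `g = swap (e j) (e j')`. Then `Fset` for `pj j'` is the image under `g` of
`Fset` for `pj j`.

Proof. Let `A_t^j = rl (pj j) (φ.K t)`, `n_{ta}^j = plc (pj j) (φ.u t a)`, `σ = mem ClI Y b`. The
candidates of index `≥ 1` belong to `ClI` iff `σ`, and to `φ.K t` iff `σ`. By `fc_rl`:
(i) if `mem ClI (φ.K t) b ↔ σ` then `A_t^j = rl π (φ.K t)` for all `j`, and it contains all `e i`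
(if `σ`) or none of them (if `¬ σ`);
(ii) if not, then `A_t^j = rl π (φ.K t + t b + t (cand j))`
(also for `j = 0`), which is either `B ∪ {e j}` with no `e i` in `B`, or `C \ {e j}` with all `e i` in
`C`, where `B`, `C` do not depend on `j`; moreover `φ.K t + t b + t (cand j) = Y + Z + t (cand j)` with
`Z = φ.K t + Y + t b`, `Z b = 0`, so `S.E (A_t^j) ↔ S.E (A_t^{j'})` by `h1`.
In all cases `A_t^{j'} = g (A_t^j)`; the same for the reference set `ref (pj j) = rl (pj j) 0`; and
`n_{ta}^{j'} = g (n_{ta}^j)` (it is `e j` if `φ.u t a = b`, and otherwise does not depend on `j` and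
is different from all `e i`). Finally `S.c (A_t^j) x n ↔ S.c (A_t^{j'}) (g x) (g n)` for edges and
`x, n ∈ A_t^j`: in case (ii) by `c_move` (with `x := e j`, `v := e j'` if `e j ∈ A_t^j`, otherwise with
`x := e j'`, `v := e j`; `insert v (K.erase x)` is the image of `K` under `g`); in case (i) with no
`e i` in `A_t` because `g` fixes its elements; in case (i) with all `e i ∈ A_t` because
`S.c A_t (e j) (e j')` by `h2` (so `g` preserves the classes: `c_symm`, `c_trans`). The names are in
the sets by `FVal`. -/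
theorem fc_fset {k a r R : ℕ} (hk : a + R ≤ k) (hN : k + a + R ≤ N) (S : CSys k r (Fin N))
    (φ : Fml Cl) (hφ : FBel a φ) (hv : FVal φ) (π : Equiv.Perm (Fin N)) (Y : Tg Cl)
    (hY : ∀ ω ∈ Y.support, idx (some ω) < a) (b : Cl) (hb : idx (some b) < a) {j j' : ℕ}
    (hj : j ≤ R) (hj' : j' ≤ R)
    (h1 : ∀ Z : Tg Cl, (∀ ω ∈ Z.support, idx (some ω) < a) → Z b = 0 →
      (S.E (rl k π (Y + Z + t (cand Y b a j))) ↔ S.E (rl k π (Y + Z + t (cand Y b a j')))))
    (h2 : ∀ t, mem ClI Y b → mem ClI (φ.K t) b → S.E (rl k π (φ.K t)) →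
      S.c (rl k π (φ.K t)) (π (pos k (cand Y b a j))) (π (pos k (cand Y b a j')))) :
    Fset S φ (pj k π Y b a j') = (Fset S φ (pj k π Y b a j)).image
      (Equiv.swap (π (pos k (cand Y b a j))) (π (pos k (cand Y b a j')))) := by
  change Fset S φ (pj k π Y b a j') = (Fset S φ (pj k π Y b a j)).image
      (Equiv.swap (plc k π (cand Y b a j)) (plc k π (cand Y b a j')))
  have hk' : a ≤ k := by omega
  have hN' : k + a ≤ N := by omega
  have hK := hφ.1
  have hu := hφ.2
  -- the reference set
  have hrl0 : ∀ π : Equiv.Perm (Fin N), ref k π = rl k π 0 := by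
    intro π
    ext y
    unfold rl real
    rw [@Finset.mem_symmDiff _ (_)]
    simp
  have href : ∀ x, Equiv.swap (plc k π (cand Y b a j)) (plc k π (cand Y b a j')) x ∈
      ref k (pj k π Y b a j') ↔ x ∈ ref k (pj k π Y b a j) := by
    intro x
    rw [hrl0, hrl0]
    exact genfcb_img hk hN π Y hb hj hj' (by simp) x
  -- the names
  have hname : ∀ ω, idx (some ω) < a → plc k (pj k π Y b a j') ω =
      Equiv.swap (plc k π (cand Y b a j)) (plc k π (cand Y b a j'))
        (plc k (pj k π Y b a j) ω) := by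
    intro ω hω
    rw [genfcb_plc hk hN π Y hb hj hω, genfcb_plc hk hN π Y hb hj' hω]
    split_ifs with h
    · rw [Equiv.swap_apply_left]
    · rw [Equiv.swap_apply_of_ne_of_ne (genfcb_ne hk hN π Y hb hj hω h)
        (genfcb_ne hk hN π Y hb hj' hω h)]
  have hmemn : ∀ s c, plc k (pj k π Y b a j) (φ.u s c) ∈ rl k (pj k π Y b a j) (φ.K s) := by
    intro s c
    rw [genfcb_mem hk' hN' _ (hK s) (hu s c)]
    exact hv s c
  have hall : ∀ x, Equiv.swap (plc k π (cand Y b a j)) (plc k π (cand Y b a j')) x ∈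
      Fset S φ (pj k π Y b a j') ↔ x ∈ Fset S φ (pj k π Y b a j) := by
    intro x
    unfold Fset
    rw [Finset.mem_filter, Finset.mem_filter]
    simp only [Finset.mem_univ, true_and, href]
    refine and_congr_right (fun _ => ?_)
    have himg : (∀ s, Equiv.swap (plc k π (cand Y b a j)) (plc k π (cand Y b a j')) x ∈
        rl k (pj k π Y b a j') (φ.K s)) ↔ ∀ s, x ∈ rl k (pj k π Y b a j) (φ.K s) :=
      forall_congr' (fun s => genfcb_img hk hN π Y hb hj hj' (hK s) x)
    rw [himg]
    refine and_congr_right (fun hx => not_congr ?_)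
    refine exists_congr (fun c => forall_congr' (fun s => ?_))
    obtain ⟨r1, r2⟩ := genfcb_rel hk hN S π Y hY b hb hj hj' h1 (hK s) (h2 s)
    rw [r1]
    refine and_congr_right (fun hE => ?_)
    rw [hname _ (hu s c)]
    exact (r2 hE x (hx s) _ (hmemn s c)).symm
  ext y
  rw [Finset.mem_image]
  constructor
  · intro hy
    refine ⟨Equiv.swap (plc k π (cand Y b a j)) (plc k π (cand Y b a j')) y, ?_,
      Equiv.swap_apply_self _ _ _⟩
    rw [← hall, Equiv.swap_apply_self]
    exact hy
  · rintro ⟨x, hx, rfl⟩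
    exact (hall x).2 hx

end Pool.Agent.Lib.MP_a572be_co
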