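import Mathlib

/-!
# A counting lemma
-/

namespace Pool.Agent.Lib.MP_a572be_co

open Classical

/-- The bound for the indices with a given key. -/
theorem genfcc_key {V K G : Type} [Fintype G] {R : ℕ} (F : Fin (R + 1) → Finset V)
    (good : V → Prop) (key : Fin (R + 1) → K) (dg : Fin (R + 1) → V → G)
    (hF : ∀ j j', key j = key j' → (F j).card = (F j').card ∧
      ∀ x, good x → (x ∈ F j ↔ x ∈ F j')) (κ : K) :
    ∑ j ∈ Finset.univ.filter (fun j => key j = κ),
      ((((F j).filter fun x => good x ∧ ∀ i, i ≠ j → dg i x ≠ dg j x).card : ℝ) /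
      ((F j).card : ℝ)) ≤ (Fintype.card G : ℝ) := by
  rcases (Finset.univ.filter (fun j => key j = κ)).eq_empty_or_nonempty with h | ⟨j0, hj0⟩
  · rw [h, Finset.sum_empty]
    positivity
  have hk0 : key j0 = κ := (Finset.mem_filter.1 hj0).2
  set J := Finset.univ.filter (fun j => key j = κ) with hJ
  have hkJ : ∀ j ∈ J, key j = key j0 := fun j hj => by
    rw [hk0]; exact (Finset.mem_filter.1 hj).2
  have e1 : ∀ j ∈ J,
      ((((F j).filter fun x => good x ∧ ∀ i, i ≠ j → dg i x ≠ dg j x).card : ℝ) /
        ((F j).card : ℝ)) =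
      ((((F j).filter fun x => good x ∧ ∀ i, i ≠ j → dg i x ≠ dg j x).card : ℝ) /
        ((F j0).card : ℝ)) := fun j hj => by
    rw [(hF j j0 (hkJ j hj)).1]
  rw [Finset.sum_congr rfl e1, ← Finset.sum_div]
  have e2 : ∑ j ∈ J, ((F j).filter fun x => good x ∧ ∀ i, i ≠ j → dg i x ≠ dg j x).card ≤
      (F j0).card * Fintype.card G := by
    calc ∑ j ∈ J, ((F j).filter fun x => good x ∧ ∀ i, i ≠ j → dg i x ≠ dg j x).card
        ≤ ∑ j ∈ J, ((F j0).filter fun x => ∀ i, i ≠ j → dg i x ≠ dg j x).card := by
          apply Finset.sum_le_sum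
          intro j hj
          apply Finset.card_le_card
          intro x hx
          rw [Finset.mem_filter] at hx ⊢
          exact ⟨((hF j j0 (hkJ j hj)).2 x hx.2.1).1 hx.1, hx.2.2⟩
      _ = ∑ j ∈ J, ∑ x ∈ F j0, (if ∀ i, i ≠ j → dg i x ≠ dg j x then 1 else 0) := by
          apply Finset.sum_congr rfl
          intro j _
          rw [Finset.card_filter]
      _ = ∑ x ∈ F j0, ∑ j ∈ J, (if ∀ i, i ≠ j → dg i x ≠ dg j x then 1 else 0) :=
          Finset.sum_comm
      _ ≤ ∑ x ∈ F j0, Fintype.card G := by
          apply Finset.sum_le_sum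
          intro x _
          rw [← Finset.card_filter, ← Finset.card_univ]
          apply Finset.card_le_card_of_injOn (fun j => dg j x)
          · intro j _
            exact Finset.mem_coe.2 (Finset.mem_univ _)
          · intro i hi j hj hij
            have hj' := (Finset.mem_filter.1 (Finset.mem_coe.1 hj)).2
            by_contra hne
            exact hj' i hne hij
      _ = (F j0).card * Fintype.card G := by
          rw [Finset.sum_const, smul_eq_mul]
  have e3 : ∑ j ∈ J, (((F j).filter fun x => good x ∧ ∀ i, i ≠ j → dg i x ≠ dg j x).card : ℝ) ≤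
      ((F j0).card : ℝ) * (Fintype.card G : ℝ) := by
    exact_mod_cast e2
  rcases Nat.eq_zero_or_pos (F j0).card with h0 | h0
  · rw [h0, Nat.cast_zero, div_zero]
    positivity
  · have h0' : (0 : ℝ) < ((F j0).card : ℝ) := by exact_mod_cast h0
    rw [div_le_iff₀ h0', mul_comm]
    exact e3

/-- Let `F j`, `j ≤ R`, be finite sets with keys such that sets with equal keys have the same size
and the same good elements, and let every element `x` have a diagram `dg j x` for every `j`. Then
the sum over `j` of the fraction of the elements `x` of `F j` which are good and whose diagram for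
`j` is different from all its other diagrams is at most the number of keys times the number of
diagrams.

Proof: for a key `κ` let `J` be the set of the `j` with this key, `F` one of the `F j`, `j ∈ J`. The sum
over `j ∈ J` is at most `1/|F| * ∑_{x ∈ F good} #{j ∈ J | dg j x ≠ dg i x for i ≠ j}`, and for fixed `x`
the map `j ↦ dg j x` is injective on this set. -/
theorem count_abs {V K G : Type} [Fintype K] [Fintype G] {R : ℕ} (F : Fin (R + 1) → Finset V)
    (good : V → Prop) (key : Fin (R + 1) → K) (dg : Fin (R + 1) → V → G)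
    (hF : ∀ j j', key j = key j' → (F j).card = (F j').card ∧
      ∀ x, good x → (x ∈ F j ↔ x ∈ F j')) :
    ∑ j, ((((F j).filter fun x => good x ∧ ∀ i, i ≠ j → dg i x ≠ dg j x).card : ℝ) /
      ((F j).card : ℝ)) ≤ (Fintype.card K : ℝ) * Fintype.card G := by
  rw [← Finset.sum_fiberwise Finset.univ key]
  calc ∑ κ : K, ∑ j ∈ Finset.univ.filter (fun j => key j = κ),
      ((((F j).filter fun x => good x ∧ ∀ i, i ≠ j → dg i x ≠ dg j x).card : ℝ) /
      ((F j).card : ℝ)) ≤ ∑ _κ : K, (Fintype.card G : ℝ) :=
        Finset.sum_le_sum (fun κ _ => genfcc_key F good key dg hF κ)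
    _ = (Fintype.card K : ℝ) * Fintype.card G := by
        rw [Finset.sum_const, Finset.card_univ, nsmul_eq_mul]

end Pool.Agent.Lib.MP_a572be_co
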