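import Pool.Agent.Lib.MP_a572be_co.Dec
import Pool.Agent.Lib.MP_a572be_co.GenFCb
import Pool.Agent.Lib.MP_a572be_co.GenFCc

/-!
# The probability that an element of the cloud has no copy
-/

namespace Pool.Agent.Lib.MP_a572be_co

open Classical

/-- At most three classes on every edge. -/
def Cls3 {k r N : ℕ} (S : CSys k r (Fin N)) : Prop :=
  ∀ K, S.E K → ∃ f : Fin N → Fin 3, ∀ x ∈ K, ∀ y ∈ K, (S.c K x y ↔ f x = f y)

/-- Among four elements of an edge two are related. -/
theorem genfc_four {k r N : ℕ} (S : CSys k r (Fin N)) {γ : ℝ} (hγ : Cod S γ)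
    (h : (N : ℝ) < 4 * (γ * N - 1)) {K : Finset (Fin N)} (hK : S.E K) (x : Fin 4 → Fin N)
    (hx : ∀ i, x i ∈ K) : ∃ i j, i ≠ j ∧ S.c K (x i) (x j) := by
  by_contra hc
  push Not at hc
  set A : Fin 4 → Finset (Fin N) := fun i =>
    Finset.univ.filter fun v => v ∉ K ∧ S.E (insert v (K.erase (x i))) with hA
  have hcard : ∀ i, γ * N - 1 ≤ ((A i).card : ℝ) := by
    intro i
    have hT : (K.erase (x i)).card + 1 = k := by
      rw [Finset.card_erase_add_one (hx i), S.card_eq K hK]
    have h1 := hγ _ hT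
    have h2 : (Finset.univ.filter fun v => S.E (insert v (K.erase (x i)))) ⊆
        insert (x i) (A i) := by
      intro v hv
      rw [Finset.mem_filter] at hv
      rw [Finset.mem_insert]
      by_cases hvx : v = x i
      · exact Or.inl hvx
      · right
        rw [hA]
        refine Finset.mem_filter.2 ⟨Finset.mem_univ _, ?_, hv.2⟩
        intro hvK
        have h3 : insert v (K.erase (x i)) = K.erase (x i) :=
          Finset.insert_eq_of_mem (Finset.mem_erase.2 ⟨hvx, hvK⟩)
        have h4 := S.card_eq _ hv.2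
        rw [h3] at h4
        omega
    have h3 := (Finset.card_le_card h2).trans (Finset.card_insert_le _ _)
    have h4 : (((Finset.univ.filter fun v => S.E (insert v (K.erase (x i)))).card : ℕ) : ℝ) ≤
        (A i).card + 1 := by exact_mod_cast h3
    linarith
  have hdisj : ∀ i ∈ (Finset.univ : Finset (Fin 4)), ∀ j ∈ (Finset.univ : Finset (Fin 4)),
      i ≠ j → Disjoint (A i) (A j) := by
    intro i _ j _ hij
    rw [Finset.disjoint_left]
    intro v hvi hvj
    rw [hA] at hvi hvj
    obtain ⟨-, h1, h2⟩ := Finset.mem_filter.1 hvi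
    obtain ⟨-, -, h3⟩ := Finset.mem_filter.1 hvj
    exact hc i j hij (S.c_swap K (x i) (x j) v hK (hx i) (hx j) h1
      (Eq.mp (congrArg S.E (insert_erase_dec _ _ K (x i) v)) h2)
      (Eq.mp (congrArg S.E (insert_erase_dec _ _ K (x j) v)) h3))
  have hsum : ∑ i, (A i).card ≤ N := by
    rw [← Finset.card_biUnion hdisj]
    exact (Finset.card_le_univ _).trans (le_of_eq (Fintype.card_fin N))
  have hsum' : ∑ i : Fin 4, ((A i).card : ℝ) ≤ N := by exact_mod_cast hsum
  rw [Fin.sum_univ_four] at hsum'
  linarith [hcard 0, hcard 1, hcard 2, hcard 3]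

/-- `Cls3` holds if the codegrees are larger than a quarter: for four elements `x_i` of an edge `K`,
pairwise not related, the sets `{v ∉ K | S.E (K - x_i + v)}` are pairwise disjoint by `c_swap`, and
have at least `γ N - 1` elements each (a `v ∈ K` with `K - x_i + v` an edge is `x_i`, by
cardinality). So a maximal set of pairwise not related elements of `K` has at most three elements;
map every `x ∈ K` to the index of the unique related element of this set. -/
theorem cls3_of_cod {k r N : ℕ} (S : CSys k r (Fin N)) {γ : ℝ} (hγ : Cod S γ) (hk : 0 < k)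
    (h : (N : ℝ) < 4 * (γ * N - 1)) : Cls3 S := by
  intro K hK
  let s : Setoid {x // x ∈ K} :=
    { r := fun x y => S.c K x.1 y.1
      iseqv :=
        { refl := fun x => S.c_refl K x.1 hK x.2
          symm := fun {x y} hxy => S.c_symm K x.1 y.1 hK x.2 y.2 hxy
          trans := fun {x y z} hxy hyz => S.c_trans K x.1 y.1 z.1 hK x.2 y.2 z.2 hxy hyz } }
  have hcard : Fintype.card (Quotient s) ≤ Fintype.card (Fin 3) := by
    by_contra hc
    push Not at hc
    rw [Fintype.card_fin] at hc
    have h4 : Fintype.card (Fin 4) ≤ Fintype.card (Quotient s) := by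
      rw [Fintype.card_fin]; omega
    obtain ⟨e⟩ := Function.Embedding.nonempty_of_card_le h4
    obtain ⟨i, j, hij, hc2⟩ := genfc_four S hγ h hK (fun i => ((e i).out).1) (fun i => ((e i).out).2)
    apply hij
    apply e.injective
    rw [← Quotient.out_eq (e i), ← Quotient.out_eq (e j)]
    exact Quotient.sound hc2
  obtain ⟨e⟩ := Function.Embedding.nonempty_of_card_le hcard
  refine ⟨fun x => if hx : x ∈ K then e (Quotient.mk s ⟨x, hx⟩) else 0, fun x hx y hy => ?_⟩
  simp only [dif_pos hx, dif_pos hy]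
  constructor
  · intro hxy
    congr 1
    exact Quotient.sound hxy
  · intro hxy
    exact Quotient.exact (e.injective hxy)

/-! ### Diagrams -/

/-- The finite set of the tests over the cloud with the special element. -/
abbrev GfcZx (a : ℕ) (b : Cl) : Type := {Z : Tg Clx // Bel a Z ∧ Z (some b) = 0}

/-- The finite set of the tests over the cloud. -/
abbrev GfcZ (a : ℕ) (b : Cl) : Type :=
  {Z : Tg Cl // (∀ ω ∈ Z.support, idx (some ω) < a) ∧ Z b = 0}

theorem genfc_finite {Ω : Type} (s : Set Ω) (hs : s.Finite) (P : Tg Ω → Prop)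
    (hP : ∀ Z, P Z → ∀ ω ∈ Z.support, ω ∈ s) : Finite {Z : Tg Ω // P Z} := by
  have : Finite s := hs
  refine Finite.of_injective (fun Z : {Z : Tg Ω // P Z} => fun ω : s => Z.1 ω.1) ?_
  intro Z Z' hZ
  apply Subtype.ext
  ext ω
  by_cases hω : ω ∈ s
  · exact congrFun hZ ⟨ω, hω⟩
  · have h1 : Z.1 ω = 0 := by
      by_contra h
      exact hω (hP Z.1 Z.2 ω (Finsupp.mem_support_iff.2 h))
    have h2 : Z'.1 ω = 0 := by
      by_contra h
      exact hω (hP Z'.1 Z'.2 ω (Finsupp.mem_support_iff.2 h))
    rw [h1, h2]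

theorem genfc_idx_finite (a : ℕ) : {ω : Clx | idx ω < a}.Finite := by
  refine Set.Finite.subset (s := insert none ((fun i => some (Sum.inl i)) '' Set.Iio a ∪
    (fun i => some (Sum.inr i)) '' Set.Iio a)) ?_ ?_
  · exact (((Set.finite_Iio a).image _).union ((Set.finite_Iio a).image _)).insert _
  · rintro (_ | i | j) h
    · exact Or.inl rfl
    · exact Or.inr (Or.inl ⟨i, h, rfl⟩)
    · exact Or.inr (Or.inr ⟨j, h, rfl⟩)

theorem genfc_idx_finite' (a : ℕ) : {ω : Cl | idx (some ω) < a}.Finite :=
  (genfc_idx_finite a).preimage (Option.some_injective _).injOn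

instance genfc_finZx (a : ℕ) (b : Cl) : Finite (GfcZx a b) :=
  genfc_finite _ (genfc_idx_finite a) _ fun _ hZ => hZ.1

instance genfc_finZ (a : ℕ) (b : Cl) : Finite (GfcZ a b) :=
  genfc_finite _ (genfc_idx_finite' a) _ fun _ hZ => hZ.1

/-! ### Candidates -/

variable {Y : Tg Cl} {b : Cl} {a R : ℕ}

theorem genfc_cand_zero : cand Y b a 0 = b := rfl

theorem genfc_idx_cand (i : ℕ) : idx (some (cand Y b a (i + 1))) = a + i := by
  unfold cand
  split_ifs <;> rfl

theorem genfc_idx_cand_lt (hb : idx (some b) < a) {i : ℕ} (hi : i ≤ R) :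
    idx (some (cand Y b a i)) < a + R := by
  cases i with
  | zero => rw [genfc_cand_zero]; omega
  | succ i => rw [genfc_idx_cand]; omega

theorem genfc_cand_ClI (i : ℕ) : cand Y b a (i + 1) ∈ ClI ↔ mem ClI Y b := by
  unfold cand
  split_ifs with h
  · exact iff_of_true rfl h
  · refine iff_of_false ?_ h
    intro h2
    exact absurd (show (Sum.inr (a + i) : Cl).isLeft = true from h2) (by simp)

theorem genfc_cand_inj (hb : idx (some b) < a) : Function.Injective (cand Y b a) := by
  intro i j hij
  cases i with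
  | zero =>
    cases j with
    | zero => rfl
    | succ j =>
      exfalso
      have := genfc_idx_cand (Y := Y) (b := b) (a := a) j
      rw [← hij, genfc_cand_zero] at this
      omega
  | succ i =>
    cases j with
    | zero =>
      exfalso
      have := genfc_idx_cand (Y := Y) (b := b) (a := a) i
      rw [hij, genfc_cand_zero] at this
      omega
    | succ j =>
      have h1 := genfc_idx_cand (Y := Y) (b := b) (a := a) i
      have h2 := genfc_idx_cand (Y := Y) (b := b) (a := a) j
      rw [hij] at h1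
      omega

/-- membership of the candidates in a set of small index -/
theorem genfc_mem_cand {X : Tg Cl} (hX : ∀ ω ∈ X.support, idx (some ω) < a) (i : ℕ) :
    mem ClI X (cand Y b a (i + 1)) ↔ mem ClI Y b := by
  have h : cand Y b a (i + 1) ∉ X.support := by
    intro h
    have h1 := hX _ h
    rw [genfc_idx_cand] at h1
    omega
  rw [mem_of_notMem_support ClI h, genfc_cand_ClI]

theorem genfc_some_ClxI (ω : Cl) : some ω ∈ ClxI ↔ ω ∈ ClI := by
  rcases ω with i | i <;> simp [ClxI, ClI]

/-- membership of `b` in the test set -/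
theorem genfc_mem_b {Z : Tg Clx} (hZb : Z (some b) = 0) :
    mem ClxI (emb Y + Z) (some b) ↔ mem ClI Y b := by
  unfold mem
  rw [genfc_some_ClxI, Finsupp.add_apply, hZb, add_zero, emb_some]

/-- membership of the candidates in the test set -/
theorem genfc_mem_cx (hY : ∀ ω ∈ Y.support, idx (some ω) < a) {Z : Tg Clx} (hZ : Bel a Z)
    (i : ℕ) : mem ClxI (emb Y + Z) (some (cand Y b a (i + 1))) ↔ mem ClI Y b := by
  have h1 : Y (cand Y b a (i + 1)) = 0 := by
    by_contra h
    have h1 := hY _ (Finsupp.mem_support_iff.2 h)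
    rw [genfc_idx_cand] at h1
    omega
  have h2 : Z (some (cand Y b a (i + 1))) = 0 := by
    by_contra h
    have h1 := hZ _ (Finsupp.mem_support_iff.2 h)
    rw [genfc_idx_cand] at h1
    omega
  unfold mem
  rw [genfc_some_ClxI, Finsupp.add_apply, h2, add_zero, emb_some, h1, genfc_cand_ClI]
  unfold mem
  simp

theorem genfc_bel {Z : Tg Clx} (hY : ∀ ω ∈ Y.support, idx (some ω) < a) (hZ : Bel a Z)
    (hb : idx (some b) < a) {i : ℕ} (hi : i ≤ R) :
    Bel (a + R) (emb Y + Z + t (some (cand Y b a i))) := by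
  intro ω hω
  have h1 := Finsupp.support_add hω
  rw [Finset.mem_union] at h1
  rcases h1 with h1 | h1
  · have h2 := Finsupp.support_add h1
    rw [Finset.mem_union] at h2
    rcases h2 with h2 | h2
    · cases ω with
      | none => rw [Finsupp.mem_support_iff, emb_none] at h2; exact absurd rfl h2
      | some ω =>
        rw [Finsupp.mem_support_iff, emb_some] at h2
        have := hY ω (Finsupp.mem_support_iff.2 h2)
        omega
    · have := hZ ω h2
      omega
  · have h3 : ω = some (cand Y b a i) := by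
      by_contra hne
      rw [Finsupp.mem_support_iff, t_ne (Ne.symm hne)] at h1
      exact h1 rfl
    rw [h3]
    exact genfc_idx_cand_lt hb hi

/-- The exchange of the diagrams. -/
theorem genfc_dg {k N : ℕ} [NeZero N] (hY : ∀ ω ∈ Y.support, idx (some ω) < a)
    (hb : idx (some b) < a) (hk : a + R ≤ k) (hN : k + a + R ≤ N) (π : Equiv.Perm (Fin N))
    {x : Fin N} (hx : Off k (a + R) π x) {Z : Tg Clx} (hZ : Bel a Z) (hZb : Z (some b) = 0)
    {i j : ℕ} (hi : i ≤ R) (hj : j ≤ R) :
    rlx k (pj k π Y b a j) x (emb Y + Z + t (some (cand Y b a i))) =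
      rlx k π x (emb Y + Z + t (some (cand Y b a (Equiv.swap 0 j i)))) := by
  have hN' : k + (a + R) ≤ N := by omega
  have hb' : idx (some b) < a + R := by omega
  unfold pj
  rw [fc_rlx hk hN' π hb' (genfc_idx_cand_lt hb hj) hx _ (genfc_bel hY hZ hb hi)]
  have inj : ∀ {i j : ℕ}, some (cand Y b a i) = some (cand Y b a j) ↔ i = j := by
    intro i j
    constructor
    · intro h
      exact genfc_cand_inj hb (Option.some.inj h)
    · rintro rfl
      rfl
  have e1 : mem ClxI (emb Y + Z + t (some (cand Y b a i))) (some b) ↔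
      ((i = 0 ∧ ¬ mem ClI Y b) ∨ (i ≠ 0 ∧ mem ClI Y b)) := by
    have h0 : some (cand Y b a i) = some b ↔ i = 0 := inj (j := 0)
    rw [mem_add_t, genfc_mem_b hZb, ne_eq, h0]
  cases j with
  | zero =>
    rw [genfc_cand_zero, if_pos Iff.rfl, Equiv.swap_self]
    rfl
  | succ j =>
    have e2 : mem ClxI (emb Y + Z + t (some (cand Y b a i))) (some (cand Y b a (j + 1))) ↔
        ((i = j + 1 ∧ ¬ mem ClI Y b) ∨ (i ≠ j + 1 ∧ mem ClI Y b)) := by
      rw [mem_add_t, genfc_mem_cx hY hZ, ne_eq, inj]
    rw [e1, e2]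
    by_cases hi0 : i = 0
    · subst hi0
      rw [if_neg, Equiv.swap_apply_left]
      · rw [genfc_cand_zero, tg_add_t_t]
      · simp
    · by_cases hij : i = j + 1
      · subst hij
        rw [if_neg, Equiv.swap_apply_right, genfc_cand_zero, tg_comm, tg_add_t_t]
        simp
      · rw [if_pos, Equiv.swap_apply_of_ne_of_ne hi0 hij]
        simp [hi0, hij]

/-- **Copies.** There is a constant `C` (depending only on `a`, `φ`) such that in all systems the
expected fraction of `x ∈ Fset` over which `b` is not copied by one of the `R` candidates is at most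
`C / (R+1)`.

Proof. Let `T π` be the fraction for `π`. Since `π ↦ pj j` is a bijection for every `j ≤ R`,
`∑_π T π = (1/(R+1)) ∑_π ∑_{j ≤ R} T (pj j)`, and it is enough to show `∑_j T (pj j) ≤ C` for fixed
`π`. Let `𝒵` be the finite set of the `Z : Tg Clx` with `Bel a Z`, `Z (some b) = 0`. For `x` off the
cloud (indices `< a + R`) and `j ≤ R` let `dg j x ∈ (𝒵 → Bool)` record for which `Z` the set
`rlx π x (emb Y + Z + t (some (cand j)))` is an edge. By `fc_rlx` (applied to
`emb Y + Z + t (some (cand i))`; its membership at `b` and at `cand j` agree for `i ≠ 0, j`, and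
differ for `i = 0` and `i = j` (`j ≠ 0`)),
`S.E (rlx (pj j) x (emb Y + Z + t (some (cand i)))) ↔
S.E (rlx π x (emb Y + Z + t (some (cand i'))))` with `i' = swap 0 j i`. So `x` is bad for `pj j` only if
`x` is off the cloud and `dg j x ≠ dg i x` for all `i ≠ j`, `i ≤ R`. Let `key j` record for which
`Z : Tg Cl` (indices `< a`, `Z b = 0`) the set `rl π (Y + Z + t (cand j))` is an edge, and, for
every `t`, the value at `π (pos (cand j))` of a function `Fin N → Fin 3` describing the classes of
the edge `rl π (φ.K t)` (`Cls3`; `0` if it is not an edge). By `fc_fset`, if `key j = key j'` the sets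
`Fset (pj j)`, `Fset (pj j')` have the same size and the same elements off the cloud (the elements
`π (pos (cand j))` of the cloud have index `< a + R`). Conclude by `count_abs`, with
`C = (2 ^ #𝒵') 3 ^ m * 2 ^ #𝒵`. In `h2` of `fc_fset` the elements `π (pos (cand i))` are in
`rl π (φ.K t)` when `mem ClI Y b` and `mem ClI (φ.K t) b` (`real_mem`, `plc_adm`). -/
theorem cost_FC (φ : Fml Cl) {a : ℕ} (hφ : FBel a φ) (hv : FVal φ) (Y : Tg Cl)
    (hY : ∀ ω ∈ Y.support, idx (some ω) < a) (b : Cl) (hb : idx (some b) < a) (r : ℕ) :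
    ∃ C : ℝ, ∀ (k N : ℕ) [NeZero N] (S : CSys k r (Fin N)), Cls3 S → ∀ R : ℕ, a + R ≤ k →
      k + a + R ≤ N →
      ∑ π : Equiv.Perm (Fin N), avg (Fset S φ π) (fun x => Off k (a + R) π x ∧
        ∀ i < R, ∃ Z : Tg Clx, Bel a Z ∧ Z (some b) = 0 ∧
          ¬ (S.E (rlx k π x (emb Y + Z + t (some b))) ↔
            S.E (rlx k π x (emb Y + Z + t (some (cand Y b a (i + 1))))))) ≤
        C / (R + 1) * (N.factorial : ℝ) := by
  have : Fintype (GfcZx a b) := Fintype.ofFinite _
  have : Fintype (GfcZ a b) := Fintype.ofFinite _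
  refine ⟨(Fintype.card ((GfcZ a b → Bool) × (Fin φ.m → Fin 3)) : ℝ) *
    Fintype.card (GfcZx a b → Bool), ?_⟩
  intro k N _ S hS R hk hN
  have hN' : k + (a + R) ≤ N := by omega
  have hb' : idx (some b) < a + R := by omega
  set C : ℝ := (Fintype.card ((GfcZ a b → Bool) × (Fin φ.m → Fin 3)) : ℝ) *
    Fintype.card (GfcZx a b → Bool) with hC
  set Tf : Equiv.Perm (Fin N) → ℝ := fun π =>
    avg (Fset S φ π) (fun x => Off k (a + R) π x ∧
        ∀ i < R, ∃ Z : Tg Clx, Bel a Z ∧ Z (some b) = 0 ∧
          ¬ (S.E (rlx k π x (emb Y + Z + t (some b))) ↔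
            S.E (rlx k π x (emb Y + Z + t (some (cand Y b a (i + 1))))))) with hTf
  have hkey : ∀ π, ∑ j : Fin (R + 1), Tf (pj k π Y b a j) ≤ C := by
    intro π
    choose f hf using hS
    let key : Fin (R + 1) → (GfcZ a b → Bool) × (Fin φ.m → Fin 3) := fun j =>
      (fun Z => decide (S.E (rl k π (Y + Z.1 + t (cand Y b a j)))),
        fun t' => if h : S.E (rl k π (φ.K t')) then f _ h (π (pos k (cand Y b a j))) else 0)
    let dg : Fin (R + 1) → Fin N → (GfcZx a b → Bool) := fun j x Z =>
      decide (S.E (rlx k π x (emb Y + Z.1 + t (some (cand Y b a j)))))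
    have hF : ∀ j j', key j = key j' →
        (Fset S φ (pj k π Y b a j)).card = (Fset S φ (pj k π Y b a j')).card ∧
        ∀ x, Off k (a + R) π x →
          (x ∈ Fset S φ (pj k π Y b a j) ↔ x ∈ Fset S φ (pj k π Y b a j')) := by
      intro j j' hjj
      have hj : (j : ℕ) ≤ R := Nat.lt_succ_iff.1 j.2
      have hj' : (j' : ℕ) ≤ R := Nat.lt_succ_iff.1 j'.2
      have hmem : ∀ i : ℕ, i ≤ R → ∀ t', mem ClI Y b → mem ClI (φ.K t') b →
          π (pos k (cand Y b a i)) ∈ rl k π (φ.K t') := by
        intro i hi t' h1 h2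
        have hD : ∀ ω ∈ insert (cand Y b a i) (φ.K t').support, idx (some ω) < a + R := by
          intro ω hω
          rcases Finset.mem_insert.1 hω with rfl | hω
          · exact genfc_idx_cand_lt hb hi
          · have := hφ.1 t' ω hω
            omega
        have h3 := real_mem (plc_adm hk hN' π _ hD) (X := φ.K t') (Finset.subset_insert _ _)
          (Finset.mem_insert_self (cand Y b a i) _)
        refine h3.2 ?_
        cases i with
        | zero => exact h2
        | succ i => exact (genfc_mem_cand (hφ.1 t') i).2 h1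
      have h1 : ∀ Z : Tg Cl, (∀ ω ∈ Z.support, idx (some ω) < a) → Z b = 0 →
          (S.E (rl k π (Y + Z + t (cand Y b a j))) ↔
            S.E (rl k π (Y + Z + t (cand Y b a j')))) := by
        intro Z hZ hZb
        have := congrFun (congrArg Prod.fst hjj) ⟨Z, hZ, hZb⟩
        exact decide_eq_decide.1 this
      have h2 : ∀ t', mem ClI Y b → mem ClI (φ.K t') b → S.E (rl k π (φ.K t')) →
          S.c (rl k π (φ.K t')) (π (pos k (cand Y b a j))) (π (pos k (cand Y b a j'))) := by
        intro t' hm1 hm2 hE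
        have h3 := congrFun (congrArg Prod.snd hjj) t'
        simp only [key, dif_pos hE] at h3
        exact (hf _ hE _ (hmem j hj t' hm1 hm2) _ (hmem j' hj' t' hm1 hm2)).2 h3
      have h3 := fc_fset hk hN S φ hφ hv π Y hY b hb hj hj' h1 h2
      constructor
      · rw [h3, Finset.card_image_of_injective _ (Equiv.injective _)]
      · intro x hx
        have hx1 : x ≠ π (pos k (cand Y b a j)) := hx _ (genfc_idx_cand_lt hb hj)
        have hx2 : x ≠ π (pos k (cand Y b a j')) := hx _ (genfc_idx_cand_lt hb hj')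
        have hxs := Equiv.swap_apply_of_ne_of_ne hx1 hx2
        rw [h3, Finset.mem_image]
        constructor
        · intro h
          exact ⟨x, h, hxs⟩
        · rintro ⟨y, hy, hyx⟩
          have : y = x := by
            apply (Equiv.swap (π (pos k (cand Y b a j))) (π (pos k (cand Y b a j')))).injective
            rw [hyx, hxs]
          rwa [← this]
    refine le_trans (Finset.sum_le_sum fun j _ => ?_)
      (count_abs (fun j => Fset S φ (pj k π Y b a j)) (fun x => Off k (a + R) π x) key dg hF)
    rw [hTf]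
    unfold avg
    refine div_le_div_of_nonneg_right ?_ (Nat.cast_nonneg _)
    refine Nat.cast_le.2 (Finset.card_le_card ?_)
    intro x hx
    simp only [Finset.mem_filter] at hx ⊢
    obtain ⟨hx1, hx2, hx3⟩ := hx
    have hj : (j : ℕ) ≤ R := Nat.lt_succ_iff.1 j.2
    have hoff : Off k (a + R) π x :=
      (fc_off π hb' (genfc_idx_cand_lt hb hj) hk hN').1 hx2
    refine ⟨hx1, hoff, ?_⟩
    intro i hij hdg
    have hi : (i : ℕ) ≤ R := Nat.lt_succ_iff.1 i.2
    have hij' : (i : ℕ) ≠ j := fun h => hij (Fin.ext h)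
    have hi0 : Equiv.swap (0 : ℕ) j i ≠ 0 := by
      intro h
      have h2 := congrArg (Equiv.swap (0 : ℕ) j) h
      rw [Equiv.swap_apply_self, Equiv.swap_apply_left] at h2
      exact hij' h2
    have hiR : Equiv.swap (0 : ℕ) j i ≤ R := by
      rw [Equiv.swap_apply_def]
      split_ifs <;> omega
    obtain ⟨i', hi'⟩ := Nat.exists_eq_succ_of_ne_zero hi0
    obtain ⟨Z, hZ, hZb, hZ2⟩ := hx3 i' (by omega)
    apply hZ2
    have g1 := genfc_dg hY hb hk hN π hoff hZ hZb (Nat.zero_le R) hj
    have g2 := genfc_dg hY hb hk hN π hoff hZ hZb hiR hj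
    rw [Equiv.swap_apply_left, genfc_cand_zero] at g1
    rw [Equiv.swap_apply_self, hi'] at g2
    have g3 := congrFun hdg ⟨Z, hZ, hZb⟩
    have g4 := decide_eq_decide.1 g3
    rw [g1, Nat.succ_eq_add_one] at *
    rw [g2]
    exact g4.symm
  have hbij : ∀ j : Fin (R + 1), ∑ π, Tf (pj k π Y b a j) = ∑ π, Tf π := fun j =>
    Equiv.sum_comp (Equiv.mulRight (Equiv.swap (pos k b) (pos k (cand Y b a j)))) Tf
  have h1 : ((R : ℝ) + 1) * ∑ π, Tf π ≤ C * N.factorial := by
    calc ((R : ℝ) + 1) * ∑ π, Tf π = ∑ j : Fin (R + 1), ∑ π, Tf (pj k π Y b a j) := by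
          rw [Finset.sum_congr rfl fun j _ => hbij j, Finset.sum_const, Finset.card_univ,
            Fintype.card_fin, nsmul_eq_mul]
          push_cast
          ring
      _ = ∑ π, ∑ j : Fin (R + 1), Tf (pj k π Y b a j) := Finset.sum_comm
      _ ≤ ∑ _π : Equiv.Perm (Fin N), C := Finset.sum_le_sum fun π _ => hkey π
      _ = C * N.factorial := by
          rw [Finset.sum_const, Finset.card_univ, Fintype.card_perm, Fintype.card_fin,
            nsmul_eq_mul, mul_comm]
  have hR : (0 : ℝ) < (R : ℝ) + 1 := by positivity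
  rw [div_mul_eq_mul_div, le_div_iff₀ hR, mul_comm]
  exact h1

end Pool.Agent.Lib.MP_a572be_co
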