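import Pool.Agent.Lib.MP_a572be_co.GenLim
import Pool.Agent.Lib.MP_a572be_co.Dec

/-!
# The relation c and the sizes in the limit
-/

namespace Pool.Agent.Lib.MP_a572be_co

open Classical Filter

theorem genpwb_move {k r N : ℕ} (S : CSys k r (Fin N)) {A : Finset (Fin N)} {p q : Fin N}
    (hA : S.E A) (hp : p ∈ A) (hq : q ∉ A) (hE : S.E (insert q (A.erase p))) :
    ∀ a ∈ A, ∀ b ∈ A, (S.c A a b ↔
      S.c (insert q (A.erase p)) (Equiv.swap p q a) (Equiv.swap p q b)) := by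
  intro a ha b hb
  have h := S.c_move A p q hA hp hq
    (Eq.mp (congrArg S.E (insert_erase_dec _ _ A p q)) hE) a ha b hb
  rw [insert_erase_dec _ _ A p q, swap_dec _ _ p q]
  exact h

theorem genpwb_swap {k r N : ℕ} (S : CSys k r (Fin N)) {A : Finset (Fin N)} {p q w : Fin N}
    (hA : S.E A) (hp : p ∈ A) (hq : q ∈ A) (hw : w ∉ A) (hE : S.E (insert w (A.erase p)))
    (hE' : S.E (insert w (A.erase q))) : S.c A p q :=
  S.c_swap A p q w hA hp hq hw (Eq.mp (congrArg S.E (insert_erase_dec _ _ A p w)) hE)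
    (Eq.mp (congrArg S.E (insert_erase_dec _ _ A q w)) hE')

theorem genpwb_card {k r N : ℕ} (S : CSys k r (Fin N)) {A : Finset (Fin N)} {p q a : Fin N}
    (hA : S.E A) (hp : p ∈ A) (hq : q ∉ A) (hE : S.E (insert q (A.erase p))) (ha : a ∈ A) :
    ((insert q (A.erase p)).filter fun y =>
      S.c (insert q (A.erase p)) (Equiv.swap p q a) y).card =
    (A.filter fun y => S.c A a y).card := by
  have h1 : insert q (A.erase p) = A.map (Equiv.swap p q).toEmbedding := by
    ext y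
    simp only [Finset.mem_insert, Finset.mem_erase, Finset.mem_map, Equiv.coe_toEmbedding]
    constructor
    · rintro (rfl | ⟨h1, h2⟩)
      · exact ⟨p, hp, Equiv.swap_apply_left _ _⟩
      · refine ⟨y, h2, Equiv.swap_apply_of_ne_of_ne h1 ?_⟩
        rintro rfl
        exact hq h2
    · rintro ⟨z, hz, rfl⟩
      by_cases hzp : z = p
      · subst hzp
        left
        exact Equiv.swap_apply_left _ _
      · right
        have hzq : z ≠ q := by
          rintro rfl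
          exact hq hz
        rw [Equiv.swap_apply_of_ne_of_ne hzp hzq]
        exact ⟨hzp, hz⟩
  have h2 := genpwb_move S hA hp hq hE a ha
  rw [h1] at h2 ⊢
  rw [Finset.filter_map, Finset.card_map]
  congr 1
  refine Finset.filter_congr fun y hy => ?_
  exact (h2 y hy).symm

variable {r : ℕ} (Q : BSeq r) (π : ∀ n, Equiv.Perm (Fin (Q.N n))) (x : ∀ n, Fin (Q.N n))

/-- Equality of the limit sizes. -/
theorem genpwb_lim [NeZero r] {T T' : Tg Clx} {a a' : Clx}
    (h : ∀ᶠ n in UU, sz Q π x T a n = sz Q π x T' a' n) : limρ Q π x T a = limρ Q π x T' a' := by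
  obtain ⟨n, h1, h2, h3⟩ := (h.and ((limρ_spec Q π x T a).and (limρ_spec Q π x T' a'))).exists
  rw [← h2, ← h3, h1]

variable (hx : ∀ᶠ n in UU, x n ∈ ref (Q.k n) (π n))
  (hoff : ∀ a, ∀ᶠ n in UU, Off (Q.k n) a (π n) (x n))

include hx hoff

/-- `card_eq` and `ev_real`. -/
theorem lim_lev (K : Tg Clx) (hK : limE Q π x K) : cnt ClxI Set.univ K = 0 := by
  obtain ⟨n, h1, h2⟩ := (hK.and (ev_real Q π x hx hoff K none none)).exists
  have h3 := h2.2.2.2.2
  rw [(Q.S n).card_eq _ h1] at h3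
  omega

theorem lim_c_refl (K : Tg Clx) (u : Clx) (hK : limE Q π x K) (hu : mem ClxI K u) :
    limc Q π x K u u := by
  filter_upwards [hK, ev_real Q π x hx hoff K u u] with n h1 h2
  exact (Q.S n).c_refl _ _ h1 (h2.1.2 hu)

theorem lim_c_symm (K : Tg Clx) (u v : Clx) (hK : limE Q π x K) (hu : mem ClxI K u)
    (hv : mem ClxI K v) (h : limc Q π x K u v) : limc Q π x K v u := by
  filter_upwards [hK, ev_real Q π x hx hoff K u v, h] with n h1 h2 h3
  exact (Q.S n).c_symm _ _ _ h1 (h2.1.2 hu) (h2.2.1.2 hv) h3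

theorem lim_c_trans (K : Tg Clx) (u v w : Clx) (hK : limE Q π x K) (hu : mem ClxI K u)
    (hv : mem ClxI K v) (hw : mem ClxI K w) (h : limc Q π x K u v) (h' : limc Q π x K v w) :
    limc Q π x K u w := by
  filter_upwards [hK, ev_real Q π x hx hoff K u v, ev_real Q π x hx hoff K v w, h, h']
    with n h1 h2 h2' h3 h4
  exact (Q.S n).c_trans _ _ _ _ h1 (h2.1.2 hu) (h2.2.1.2 hv) (h2'.2.1.2 hw) h3 h4

/-- `CSys.c_swap` and `ev_real`. -/
theorem lim_c_swap (K : Tg Clx) (u v w : Clx) (hK : limE Q π x K) (hu : mem ClxI K u)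
    (hv : mem ClxI K v) (hw : ¬ mem ClxI K w) (h : limE Q π x (K + t u + t w))
    (h' : limE Q π x (K + t v + t w)) : limc Q π x K u v := by
  filter_upwards [hK, ev_real Q π x hx hoff K u w, ev_real Q π x hx hoff K v w, h, h']
    with n h1 h2 h2' h3 h4
  rw [h2.2.2.2.1 hu hw] at h3
  rw [h2'.2.2.2.1 hv hw] at h4
  exact genpwb_swap (Q.S n) h1 (h2.1.2 hu) (h2'.1.2 hv) (fun hm => hw (h2.2.1.1 hm)) h3 h4

/-- `CSys.c_move` and `ev_real`; `Equiv.swap` fixes the places of `a`, `b`. -/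
theorem lim_c_move (K : Tg Clx) (u v a b : Clx) (hK : limE Q π x K) (hu : mem ClxI K u)
    (hv : ¬ mem ClxI K v) (h : limE Q π x (K + t u + t v)) (ha : mem ClxI K a)
    (hb : mem ClxI K b) (hau : a ≠ u) (hbu : b ≠ u) :
    limc Q π x K a b ↔ limc Q π x (K + t u + t v) a b := by
  refine Filter.eventually_congr ?_
  have hav : a ≠ v := by rintro rfl; exact hv ha
  have hbv : b ≠ v := by rintro rfl; exact hv hb
  filter_upwards [hK, ev_real Q π x hx hoff K u v, h, ev_real Q π x hx hoff K a u,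
    ev_real Q π x hx hoff K a v, ev_real Q π x hx hoff K b u, ev_real Q π x hx hoff K b v]
    with n h1 h2 h3 h4 h5 h6 h7
  rw [h2.2.2.2.1 hu hv] at h3 ⊢
  have h8 := genpwb_move (Q.S n) h1 (h2.1.2 hu) (fun hm => hv (h2.2.1.1 hm)) h3 _ (h4.1.2 ha) _
    (h6.1.2 hb)
  rwa [Equiv.swap_apply_of_ne_of_ne (h4.2.2.1 hau) (h5.2.2.1 hav),
    Equiv.swap_apply_of_ne_of_ne (h6.2.2.1 hbu) (h7.2.2.1 hbv)] at h8

theorem lim_c_move' (K : Tg Clx) (u v a : Clx) (hK : limE Q π x K) (hu : mem ClxI K u)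
    (hv : ¬ mem ClxI K v) (h : limE Q π x (K + t u + t v)) (ha : mem ClxI K a)
    (hau : a ≠ u) : limc Q π x K a u ↔ limc Q π x (K + t u + t v) a v := by
  refine Filter.eventually_congr ?_
  have hav : a ≠ v := by rintro rfl; exact hv ha
  filter_upwards [hK, ev_real Q π x hx hoff K u v, h, ev_real Q π x hx hoff K a u,
    ev_real Q π x hx hoff K a v] with n h1 h2 h3 h4 h5
  rw [h2.2.2.2.1 hu hv] at h3 ⊢
  have h8 := genpwb_move (Q.S n) h1 (h2.1.2 hu) (fun hm => hv (h2.2.1.1 hm)) h3 _ (h4.1.2 ha) _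
    (h2.1.2 hu)
  rwa [Equiv.swap_apply_of_ne_of_ne (h4.2.2.1 hau) (h5.2.2.1 hav), Equiv.swap_apply_left] at h8

/-- Related elements have the same class. -/
theorem lim_ρ_c [NeZero r] (K : Tg Clx) (u v : Clx) (hK : limE Q π x K) (hu : mem ClxI K u)
    (hv : mem ClxI K v) (h : limc Q π x K u v) : limρ Q π x K u = limρ Q π x K v := by
  refine genpwb_lim Q π x ?_
  filter_upwards [hK, ev_real Q π x hx hoff K u v, h] with n h1 h2 h3
  have hu' := h2.1.2 hu
  have hv' := h2.2.1.2 hv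
  unfold sz
  congr 2
  refine Finset.filter_congr fun y hy => ?_
  exact ⟨fun h4 => (Q.S n).c_trans _ _ _ _ h1 hv' hu' hy ((Q.S n).c_symm _ _ _ h1 hu' hv' h3) h4,
    fun h4 => (Q.S n).c_trans _ _ _ _ h1 hu' hv' hy h3 h4⟩

/-- The class of `a` in `K - u + v` is the image of the class of `a` in `K` under `swap u v`
(`CSys.c_move`), so the two have the same size. -/
theorem lim_ρ_move [NeZero r] (K : Tg Clx) (u v a : Clx) (hK : limE Q π x K)
    (hu : mem ClxI K u) (hv : ¬ mem ClxI K v) (h : limE Q π x (K + t u + t v))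
    (ha : mem ClxI K a) (hau : a ≠ u) : limρ Q π x (K + t u + t v) a = limρ Q π x K a := by
  refine genpwb_lim Q π x ?_
  have hav : a ≠ v := by rintro rfl; exact hv ha
  filter_upwards [hK, ev_real Q π x hx hoff K u v, h, ev_real Q π x hx hoff K a u,
    ev_real Q π x hx hoff K a v] with n h1 h2 h3 h4 h5
  unfold sz
  rw [h2.2.2.2.1 hu hv] at h3 ⊢
  have h8 := genpwb_card (Q.S n) h1 (h2.1.2 hu) (fun hm => hv (h2.2.1.1 hm)) h3 (h4.1.2 ha)
  rw [Equiv.swap_apply_of_ne_of_ne (h4.2.2.1 hau) (h5.2.2.1 hav)] at h8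
  rw [h8]

theorem lim_ρ_move' [NeZero r] (K : Tg Clx) (u v : Clx) (hK : limE Q π x K)
    (hu : mem ClxI K u) (hv : ¬ mem ClxI K v) (h : limE Q π x (K + t u + t v)) :
    limρ Q π x (K + t u + t v) v = limρ Q π x K u := by
  refine genpwb_lim Q π x ?_
  filter_upwards [hK, ev_real Q π x hx hoff K u v, h] with n h1 h2 h3
  unfold sz
  rw [h2.2.2.2.1 hu hv] at h3 ⊢
  have h8 := genpwb_card (Q.S n) h1 (h2.1.2 hu) (fun hm => hv (h2.2.1.1 hm)) h3 (h2.1.2 hu)
  rw [Equiv.swap_apply_left] at h8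
  rw [h8]

end Pool.Agent.Lib.MP_a572be_co
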