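import Pool.Agent.Lib.MP_a572be_co.GenPWa
import Pool.Agent.Lib.MP_a572be_co.GenPWb

/-!
# The limit world of a sequence of placements
-/

namespace Pool.Agent.Lib.MP_a572be_co

open Classical Filter

variable {r : ℕ} (Q : BSeq r)

/-- **The limit world.** -/
theorem exists_PWx (hr : 0 < r) (π : ∀ n, Equiv.Perm (Fin (Q.N n))) (x : ∀ n, Fin (Q.N n))
    (hx : ∀ᶠ n in UU, x n ∈ ref (Q.k n) (π n))
    (hoff : ∀ a, ∀ᶠ n in UU, Off (Q.k n) a (π n) (x n))
    (gN : ∀ a (T : Tg Clx), Bel a T → cnt ClxI Set.univ T = -1 → ∃ R, ∀ᶠ n in UU, ∃ i < R,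
      (Q.S n).E (rlx (Q.k n) (π n) (x n) (T + t (some (Sum.inr (a + i))))))
    (g4 : ∀ a (T : Fin 4 → Tg Clx), (∀ b, Bel a (T b)) → (∀ b, cnt ClxI Set.univ (T b) = -1) →
      ∃ R, ∀ᶠ n in UU, ∃ i < R, ∃ b b', b ≠ b' ∧
        (Q.S n).E (rlx (Q.k n) (π n) (x n) (T b + t (some (Sum.inr (a + i))))) ∧
        (Q.S n).E (rlx (Q.k n) (π n) (x n) (T b' + t (some (Sum.inr (a + i))))))
    (g3 : ∀ a (T : Fin 3 → Tg Clx), (∀ b, Bel a (T b)) → (∀ b, cnt ClxI Set.univ (T b) = -1) →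
      ∃ j0, ∀ j ≥ j0, ∃ R, ∀ᶠ n in UU,
        (∃ b, (Q.S n).E (rlx (Q.k n) (π n) (x n) (T b + t (some (Sum.inr j))))) ∨
        ∃ i < R, ∃ b b', b ≠ b' ∧
        (Q.S n).E (rlx (Q.k n) (π n) (x n) (T b + t (some (Sum.inr (j + 1 + i))))) ∧
        (Q.S n).E (rlx (Q.k n) (π n) (x n) (T b' + t (some (Sum.inr (j + 1 + i))))))
    (gFC : ∀ a (Y : Tg Cl) (b : Cl), (∀ ω ∈ Y.support, idx (some ω) < a) → idx (some b) < a →
      ∃ R, ∀ᶠ n in UU, ∃ i < R, ∀ Z : Tg Clx, Bel a Z → Z (some b) = 0 →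
        ((Q.S n).E (rlx (Q.k n) (π n) (x n) (emb Y + Z + t (some b))) ↔
        (Q.S n).E (rlx (Q.k n) (π n) (x n) (emb Y + Z + t (some (cand Y b a (i + 1))))))) :
    ∃ X : PW r Clx, X.I = ClxI ∧ X.P = {none} ∧ X.e0 = 0 ∧
      (∀ T, X.E T ↔ ∀ᶠ n in UU, (Q.S n).E (rlx (Q.k n) (π n) (x n) T)) ∧
      (∀ T a b, X.c T a b ↔ ∀ᶠ n in UU, (Q.S n).c (rlx (Q.k n) (π n) (x n) T)
        (plcx (Q.k n) (π n) (x n) a) (plcx (Q.k n) (π n) (x n) b)) ∧
      (∀ T a, ∀ᶠ n in UU, sz Q π x T a n = X.ρ T a) := by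
  haveI : NeZero r := ⟨hr.ne'⟩
  have hinj1 : Function.Injective (fun i : ℕ => (some (Sum.inl i) : Clx)) := fun i j h => by
    simpa using h
  have hinj2 : Function.Injective (fun i : ℕ => (some (Sum.inr i) : Clx)) := fun i j h => by
    simpa using h
  have hFC := lim_FC Q π x gFC
  refine ⟨{
    I := ClxI
    P := {none}
    e0 := 0
    E := limE Q π x
    c := limc Q π x
    ρ := limρ Q π x
    infI := ?_
    infO := ?_
    P_sub := ?_
    lev_eq := fun K hK => by rw [zero_add]; exact lim_lev Q π x hx hoff K hK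
    axN := fun S hS D => lim_N Q π x gN S (by rwa [zero_add] at hS) D
    ax4 := fun S hS D => lim_4 Q π x g4 S (fun a => by simpa using hS a) D
    ax3 := fun S hS D hD hdis v hv hvI =>
      lim_3 Q π x g3 hFC S (fun a => by simpa using hS a) D hD hdis hv hvI
    axFC := fun X D b hb hbn => hFC X D b hb (by simpa using hbn)
    c_refl := lim_c_refl Q π x hx hoff
    c_symm := lim_c_symm Q π x hx hoff
    c_trans := lim_c_trans Q π x hx hoff
    c_swap := lim_c_swap Q π x hx hoff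
    c_move := lim_c_move Q π x hx hoff
    c_move' := lim_c_move' Q π x hx hoff
    ρ_c := lim_ρ_c Q π x hx hoff
    ρ_move := lim_ρ_move Q π x hx hoff
    ρ_move' := lim_ρ_move' Q π x hx hoff }, rfl, rfl, rfl, fun T => Iff.rfl,
    fun T a b => Iff.rfl, fun T a => limρ_spec Q π x T a⟩
  · apply Set.Infinite.mono _ (Set.infinite_range_of_injective hinj1)
    rintro _ ⟨i, rfl⟩
    exact Or.inr ⟨i, rfl⟩
  · apply Set.Infinite.mono _ (Set.infinite_range_of_injective hinj2)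
    rintro _ ⟨i, rfl⟩ h
    rcases h with h | ⟨j, h⟩ <;> simp at h
  · intro y hy
    rw [Set.mem_singleton_iff] at hy
    exact Or.inl hy

end Pool.Agent.Lib.MP_a572be_co
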