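import Pool.Agent.Lib.MP_a572be_co.GenInv

/-!
# Sizes of classes at a finite level
-/

namespace Pool.Agent.Lib.MP_a572be_co

open Classical

variable {N : ℕ} [NeZero N]

/-- The elements of the cloud of index smaller than `a`. -/
noncomputable def gensize_D (a : ℕ) : Finset Cl :=
  (Finset.range a).image Sum.inl ∪ (Finset.range a).image Sum.inr

theorem gensize_mem_D {a : ℕ} {e : Cl} : e ∈ gensize_D a ↔ idx (some e) < a := by
  rcases e with i | j <;> simp [gensize_D, idx]

theorem gensize_out {k : ℕ} (π : Equiv.Perm (Fin N)) {X : Tg Cl} {y : Fin N}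
    (h : ¬ ∃ ω ∈ X.support, plc k π ω = y) : y ∈ rl k π X ↔ y ∈ ref k π := by
  unfold rl
  refine real_out fun hmem => h ?_
  obtain ⟨ω, hω, hy⟩ := (@Finset.mem_image _ _ (fun a b => propDecidable (a = b)) _ _ _).1 hmem
  exact ⟨ω, hω, hy⟩

/-- The label function of the vertices. -/
noncomputable def gensize_L {k r : ℕ} (S : CSys k r (Fin N)) (φ : Fml Cl) (a : ℕ)
    (π : Equiv.Perm (Fin N)) (lab : Cl → Fin φ.q) (y : Fin N) : Fin φ.q :=
  if h : ∃ e, idx (some e) < a ∧ y = plc k π e then lab h.choose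
  else if h' : ∃ b, ∀ t, S.E (rl k π (φ.K t)) ∧ S.c (rl k π (φ.K t)) y (plc k π (φ.u t b)) then
    h'.choose
  else lab (Sum.inl 0)

/-- Every element of a realized set is in the class of the name given by its label. -/
theorem gensize_L_spec {k r : ℕ} (S : CSys k r (Fin N)) (φ : Fml Cl) {a : ℕ}
    (hφ : FBel a φ) (hk : a ≤ k) (hN : k + a ≤ N) (π : Equiv.Perm (Fin N))
    (lab : Cl → Fin φ.q)
    (hlab : ∀ t, ∀ e : Cl, idx (some e) < a → mem ClI (φ.K t) e →
      S.c (rl k π (φ.K t)) (plc k π e) (plc k π (φ.u t (lab e))))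
    (hemp : Fset S φ π = ∅) (t : Fin φ.m) {y : Fin N} (hy : y ∈ rl k π (φ.K t)) :
    S.c (rl k π (φ.K t)) y (plc k π (φ.u t (gensize_L S φ a π lab y))) := by
  have hadm : Adm ClI (ref k π) (plc k π) (gensize_D a) :=
    plc_adm hk hN π _ fun ω hω => gensize_mem_D.1 hω
  have hsub : ∀ t', (φ.K t').support ⊆ gensize_D a := fun t' ω hω =>
    gensize_mem_D.2 (hφ.1 t' ω hω)
  by_cases h : ∃ e, idx (some e) < a ∧ y = plc k π e
  · have hL : gensize_L S φ a π lab y = lab h.choose := by
      unfold gensize_L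
      rw [dif_pos h]
    rw [hL]
    obtain ⟨h1, h2⟩ := h.choose_spec
    have h3 : plc k π h.choose ∈ rl k π (φ.K t) := by
      rw [← h2]; exact hy
    have h4 : mem ClI (φ.K t) h.choose :=
      (real_mem hadm (hsub t) (gensize_mem_D.2 h1)).1 h3
    have h5 := hlab t h.choose h1 h4
    rw [← h2] at h5
    exact h5
  · have hout : ∀ t', ¬ ∃ ω ∈ (φ.K t').support, plc k π ω = y := by
      rintro t' ⟨ω, hω, hωy⟩
      exact h ⟨ω, hφ.1 t' ω hω, hωy.symm⟩
    have href : y ∈ ref k π := (gensize_out π (hout t)).1 hy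
    have hall : ∀ t', y ∈ rl k π (φ.K t') := fun t' => (gensize_out π (hout t')).2 href
    have h' : ∃ b, ∀ t', S.E (rl k π (φ.K t')) ∧
        S.c (rl k π (φ.K t')) y (plc k π (φ.u t' b)) := by
      by_contra hcon
      have : y ∈ Fset S φ π := by
        unfold Fset
        rw [Finset.mem_filter]
        exact ⟨Finset.mem_univ _, href, hall, hcon⟩
      rw [hemp] at this
      exact absurd this (Finset.notMem_empty _)
    have hL : gensize_L S φ a π lab y = h'.choose := by
      unfold gensize_L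
      rw [dif_neg h, dif_pos h']
    rw [hL]
    exact (h'.choose_spec t).2

/-- The number of elements of a realized set with a given label. -/
theorem gensize_count {k r : ℕ} (S : CSys k r (Fin N)) (φ : Fml Cl) {a : ℕ}
    (hφ : FBel a φ) (hk : a ≤ k) (hN : k + a ≤ N) (π : Equiv.Perm (Fin N))
    (lab : Cl → Fin φ.q) (t : Fin φ.m) (b : Fin φ.q) :
    ((((rl k π (φ.K t)).filter fun y => gensize_L S φ a π lab y = b).card : ℕ) : ℤ) =
      ((((ref k π).filter fun y => y ∉ (gensize_D a).image (plc k π) ∧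
        gensize_L S φ a π lab y = b).card : ℕ) : ℤ) +
      (((((gensize_D a).filter fun e => e ∈ {e | lab e = b}).filter fun e => e ∈ ClI).card : ℕ) : ℤ)
      + cnt ClI {e | lab e = b} (φ.K t) := by
  have hadm : Adm ClI (ref k π) (plc k π) (gensize_D a) :=
    plc_adm hk hN π _ fun ω hω => gensize_mem_D.1 hω
  have hsub : (φ.K t).support ⊆ gensize_D a := fun ω hω =>
    gensize_mem_D.2 (hφ.1 t ω hω)
  have hcount : (((((gensize_D a).filter fun e => e ∈ {e | lab e = b}).filter
      fun e => plc k π e ∈ real (ref k π) (plc k π) (φ.K t)).card : ℕ) : ℤ) =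
      (((((gensize_D a).filter fun e => e ∈ {e | lab e = b}).filter fun e => e ∈ ClI).card : ℕ) : ℤ)
      + cnt ClI {e | lab e = b} (φ.K t) := by
    have h := real_count hadm hsub {e | lab e = b}
    refine Eq.trans (congrArg (fun s : Finset Cl => ((s.card : ℕ) : ℤ)) ?_) (h.trans
      (congrArg (fun s : Finset Cl => ((s.card : ℕ) : ℤ) + cnt ClI {e | lab e = b} (φ.K t)) ?_))
    · ext e
      simp only [Finset.mem_filter]
    · ext e
      simp only [Finset.mem_filter]
  rw [add_assoc, ← hcount]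
  have hLe : ∀ e, e ∈ gensize_D a → gensize_L S φ a π lab (plc k π e) = lab e := by
    intro e he
    have h : ∃ e', idx (some e') < a ∧ plc k π e = plc k π e' := ⟨e, gensize_mem_D.1 he, rfl⟩
    have hL : gensize_L S φ a π lab (plc k π e) = lab h.choose := by
      unfold gensize_L
      rw [dif_pos h]
    rw [hL]
    congr 1
    obtain ⟨h1, h2⟩ := h.choose_spec
    exact (hadm.1 he (gensize_mem_D.2 h1) h2).symm
  have hsplit : (rl k π (φ.K t)).filter (fun y => gensize_L S φ a π lab y = b) =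
      ((ref k π).filter fun y => y ∉ (gensize_D a).image (plc k π) ∧
        gensize_L S φ a π lab y = b) ∪
      (((gensize_D a).filter (fun e => e ∈ {e | lab e = b})).filter
        (fun e => plc k π e ∈ real (ref k π) (plc k π) (φ.K t))).image (plc k π) := by
    ext y
    simp only [Finset.mem_filter, Finset.mem_union, Finset.mem_image, Set.mem_ofPred_eq]
    constructor
    · rintro ⟨h1, h2⟩
      by_cases hy : ∃ e, e ∈ gensize_D a ∧ plc k π e = y
      · obtain ⟨e, he, rfl⟩ := hy
        right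
        refine ⟨e, ⟨⟨he, ?_⟩, h1⟩, rfl⟩
        rw [← hLe e he]; exact h2
      · left
        refine ⟨?_, hy, h2⟩
        refine (gensize_out π (X := φ.K t) ?_).1 h1
        rintro ⟨ω, hω, hωy⟩
        exact hy ⟨ω, hsub hω, hωy⟩
    · rintro (⟨h1, h2, h3⟩ | ⟨e, ⟨⟨he, hl⟩, h1⟩, rfl⟩)
      · refine ⟨?_, h3⟩
        refine (gensize_out π (X := φ.K t) ?_).2 h1
        rintro ⟨ω, hω, hωy⟩
        exact h2 ⟨ω, hsub hω, hωy⟩
      · exact ⟨h1, by rw [hLe e he]; exact hl⟩
  rw [hsplit, Finset.card_union_of_disjoint, Finset.card_image_of_injOn]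
  · push_cast
    rfl
  · intro e he e' he' hee
    have h1 : e ∈ gensize_D a := by
      have := Finset.mem_coe.1 he
      exact (Finset.mem_filter.1 (Finset.mem_filter.1 this).1).1
    have h2 : e' ∈ gensize_D a := by
      have := Finset.mem_coe.1 he'
      exact (Finset.mem_filter.1 (Finset.mem_filter.1 this).1).1
    exact hadm.1 h1 h2 hee
  · rw [Finset.disjoint_left]
    intro y hy hy'
    obtain ⟨e, he, rfl⟩ := Finset.mem_image.1 hy'
    have h1 : e ∈ gensize_D a := (Finset.mem_filter.1 (Finset.mem_filter.1 he).1).1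
    exact (Finset.mem_filter.1 hy).2.1 (Finset.mem_image_of_mem _ h1)

/-- **Sizes at a finite level.** Let `Fset S φ π = ∅`, where all realizations are edges.

Proof. Let `D` be the (finite) set of all elements of the cloud of index `< a`. If `y` is in
some `rl (φ.K t)` and not in `plc '' D`, then `y` is in the reference set and in all `rl (φ.K t')`
(`real_out`), so, as `Fset = ∅`, there is a label `b` with `S.c (rl (φ.K t)) y (plc (φ.u t b))` for
all `t`; choose one, `L y = b`. If `y = plc e`, `e ∈ D`, let `L y = lab e`. So for all `t` and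
`y ∈ rl (φ.K t)`, `S.c (rl (φ.K t)) y (plc (φ.u t (L y)))`. The number of `y ∈ rl (φ.K t)` with
`L y = b` is `s0 b + c0 b + cnt ClI {lab = b} (φ.K t)`, with `s0 b` the number of the `y` in the
reference set outside `plc '' D` with `L y = b` and `c0 b = #{e ∈ D | e ∈ ClI, lab e = b}`
(`real_count`). Put `s b = s0 b + c0 b`. The class of `plc (φ.u t a)` consists of the `y` with
`S.c (rl (φ.K t)) (plc (φ.u t a)) (plc (φ.u t (L y)))`. The last claim is `S.nz`: the class of `y` is
the class of `plc (φ.u t (L y))`. -/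
theorem size_fin {k r : ℕ} (S : CSys k r (Fin N)) (hr : r ∣ k) (φ : Fml Cl) {a : ℕ}
    (hφ : FBel a φ) (hk : a ≤ k) (hN : k + a ≤ N) (π : Equiv.Perm (Fin N))
    (hE : ∀ t, S.E (rl k π (φ.K t))) (hv : FVal φ) (lab : Cl → Fin φ.q)
    (hlab : ∀ t, ∀ e : Cl, idx (some e) < a → mem ClI (φ.K t) e →
      S.c (rl k π (φ.K t)) (plc k π e) (plc k π (φ.u t (lab e))))
    (hemp : Fset S φ π = ∅) :
    ∃ s : Fin φ.q → ZMod r,
      (∀ t, ∑ b, (s b + ((cnt ClI {e | lab e = b} (φ.K t) : ℤ) : ZMod r)) = 0) ∧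
      (∀ t c, ((((rl k π (φ.K t)).filter fun y =>
          S.c (rl k π (φ.K t)) (plc k π (φ.u t c)) y).card : ℕ) : ZMod r) =
        ∑ b, if S.c (rl k π (φ.K t)) (plc k π (φ.u t c)) (plc k π (φ.u t b)) then
          (s b + ((cnt ClI {e | lab e = b} (φ.K t) : ℤ) : ZMod r)) else 0) ∧
      ∀ t, ¬ ∀ c, ((((rl k π (φ.K t)).filter fun y =>
          S.c (rl k π (φ.K t)) (plc k π (φ.u t c)) y).card : ℕ) : ZMod r) = 0 := by
  set L : Fin N → Fin φ.q := gensize_L S φ a π lab with hLdef
  have hL : ∀ t, ∀ y ∈ rl k π (φ.K t), S.c (rl k π (φ.K t)) y (plc k π (φ.u t (L y))) :=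
    fun t y hy => gensize_L_spec S φ hφ hk hN π lab hlab hemp t hy
  have hadm : Adm ClI (ref k π) (plc k π) (gensize_D a) :=
    plc_adm hk hN π _ fun ω hω => gensize_mem_D.1 hω
  have hsub : ∀ t, (φ.K t).support ⊆ gensize_D a := fun t ω hω =>
    gensize_mem_D.2 (hφ.1 t ω hω)
  have hu : ∀ t b, plc k π (φ.u t b) ∈ rl k π (φ.K t) := fun t b =>
    (real_mem hadm (hsub t) (gensize_mem_D.2 (hφ.2 t b))).2 (hv t b)
  have hc : ∀ t b, ((((rl k π (φ.K t)).filter fun y => L y = b).card : ℕ) : ZMod r) =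
      (((((ref k π).filter fun y => y ∉ (gensize_D a).image (plc k π) ∧
        gensize_L S φ a π lab y = b).card : ℕ) : ℤ) +
      (((((gensize_D a).filter fun e => e ∈ {e | lab e = b}).filter
        fun e => e ∈ ClI).card : ℕ) : ℤ) : ZMod r)
      + ((cnt ClI {e | lab e = b} (φ.K t) : ℤ) : ZMod r) := by
    intro t b
    have h1 := gensize_count S φ hφ hk hN π lab t b
    have h2 := congrArg (fun z : ℤ => (z : ZMod r)) h1
    simp only [Int.cast_natCast, Int.cast_add] at h2
    rw [hLdef, h2]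
    push_cast
    ring
  have hcl : ∀ t x, x ∈ rl k π (φ.K t) → ∀ z, z ∈ rl k π (φ.K t) →
      S.c (rl k π (φ.K t)) x z → (rl k π (φ.K t)).filter (fun y => S.c (rl k π (φ.K t)) x y) =
      (rl k π (φ.K t)).filter (fun y => S.c (rl k π (φ.K t)) z y) := by
    intro t x hx z hz hxz
    apply Finset.filter_congr
    intro y hy
    exact ⟨fun h => S.c_trans _ _ _ _ (hE t) hz hx hy (S.c_symm _ _ _ (hE t) hx hz hxz) h,
      fun h => S.c_trans _ _ _ _ (hE t) hx hz hy hxz h⟩
  refine ⟨fun b => (((((ref k π).filter fun y => y ∉ (gensize_D a).image (plc k π) ∧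
        gensize_L S φ a π lab y = b).card : ℕ) : ℤ) +
      (((((gensize_D a).filter fun e => e ∈ {e | lab e = b}).filter
        fun e => e ∈ ClI).card : ℕ) : ℤ) : ZMod r), ?_, ?_, ?_⟩
  · intro t
    have h1 : (rl k π (φ.K t)).card =
        ∑ b, ((rl k π (φ.K t)).filter fun y => L y = b).card :=
      Finset.card_eq_sum_card_fiberwise fun y _ => Finset.mem_coe.2 (Finset.mem_univ _)
    have h2 : (((rl k π (φ.K t)).card : ℕ) : ZMod r) = 0 := by
      rw [S.card_eq _ (hE t)]
      exact (ZMod.natCast_eq_zero_iff _ _).2 hr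
    rw [← h2, h1, Nat.cast_sum]
    exact Finset.sum_congr rfl fun b _ => (hc t b).symm
  · intro t c
    have h1 : ((rl k π (φ.K t)).filter fun y =>
        S.c (rl k π (φ.K t)) (plc k π (φ.u t c)) y).card =
        ∑ b, (((rl k π (φ.K t)).filter fun y =>
          S.c (rl k π (φ.K t)) (plc k π (φ.u t c)) y).filter fun y => L y = b).card :=
      Finset.card_eq_sum_card_fiberwise fun y _ => Finset.mem_coe.2 (Finset.mem_univ _)
    rw [h1, Nat.cast_sum]
    apply Finset.sum_congr rfl
    intro b _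
    have h3 : ∀ y ∈ rl k π (φ.K t), L y = b →
        (S.c (rl k π (φ.K t)) (plc k π (φ.u t c)) y ↔
          S.c (rl k π (φ.K t)) (plc k π (φ.u t c)) (plc k π (φ.u t b))) := by
      intro y hy hyb
      have h4 := hL t y hy
      rw [hyb] at h4
      exact ⟨fun h => S.c_trans _ _ _ _ (hE t) (hu t c) hy (hu t b) h h4,
        fun h => S.c_trans _ _ _ _ (hE t) (hu t c) (hu t b) hy h
          (S.c_symm _ _ _ (hE t) hy (hu t b) h4)⟩
    split_ifs with hcb
    · rw [← hc t b]
      congr 2
      ext y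
      simp only [Finset.mem_filter]
      constructor
      · rintro ⟨⟨h4, -⟩, h5⟩
        exact ⟨h4, h5⟩
      · rintro ⟨h4, h5⟩
        exact ⟨⟨h4, (h3 y h4 h5).2 hcb⟩, h5⟩
    · have h4 : (((rl k π (φ.K t)).filter fun y =>
          S.c (rl k π (φ.K t)) (plc k π (φ.u t c)) y).filter fun y => L y = b) = ∅ := by
        rw [Finset.eq_empty_iff_forall_notMem]
        intro y hy
        simp only [Finset.mem_filter] at hy
        exact hcb ((h3 y hy.1.1 hy.2).1 hy.1.2)
      rw [h4]
      simp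
  · intro t hall
    obtain ⟨x, hx, hnd⟩ := S.nz _ (hE t)
    apply hnd
    rw [← ZMod.natCast_eq_zero_iff]
    rw [hcl t x hx _ (hu t (L x)) (hL t x hx)]
    exact hall (L x)

end Pool.Agent.Lib.MP_a572be_co
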