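import Pool.Agent.Lib.MP_a572be_co.GenAsym
import Pool.Agent.Lib.MP_a572be_co.GenPW
import Pool.Agent.Lib.MP_a572be_co.GenSize
import Pool.Agent.Lib.MP_a572be_co.Ext2

/-!
# The limit data
-/

namespace Pool.Agent.Lib.MP_a572be_co

open Classical Filter

variable {r : ℕ} (Q : BSeq r)

theorem genfinal_countable_fml {Ω : Type} [Countable Ω] : Countable (Fml Ω) := by
  let f : Fml Ω → Σ m : ℕ, Σ q : ℕ, (Fin m → Tg Ω) × (Fin m → Fin q → Ω) :=
    fun φ => ⟨φ.m, φ.q, φ.K, φ.u⟩
  have hf : Function.Injective f := by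
    rintro ⟨m, q, K, u⟩ ⟨m', q', K', u'⟩ h
    simp only [f, Sigma.mk.injEq] at h
    obtain ⟨rfl, h⟩ := h
    have h := eq_of_heq h
    simp only [Sigma.mk.injEq] at h
    obtain ⟨rfl, h⟩ := h
    have h := eq_of_heq h
    simp only [Prod.mk.injEq] at h
    obtain ⟨rfl, rfl⟩ := h
    rfl
  exact hf.countable

theorem genfinal_fbel_mono {a b : ℕ} (h : a ≤ b) {φ : Fml Cl} (hφ : FBel a φ) : FBel b φ :=
  ⟨fun t ω hω => (hφ.1 t ω hω).trans_le h, fun t c => (hφ.2 t c).trans_le h⟩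

theorem genfinal_bel_mono {a b : ℕ} (h : a ≤ b) {X : Tg Clx} (hX : Bel a X) : Bel b X :=
  fun ω hω => (hX ω hω).trans_le h

theorem genfinal_exists_fbel (φ : Fml Cl) : ∃ a, FBel a φ := by
  let A : Finset ℕ :=
    (Finset.univ.biUnion fun t => (φ.K t).support.image fun ω => idx (some ω)) ∪
      (Finset.univ.biUnion fun t => Finset.univ.image fun b => idx (some (φ.u t b)))
  refine ⟨A.sup id + 1, ?_, ?_⟩
  · intro t ω hω
    have h : idx (some ω) ∈ A := by
      simp only [A, Finset.mem_union, Finset.mem_biUnion, Finset.mem_image, Finset.mem_univ,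
        true_and]
      exact Or.inl ⟨t, ω, hω, rfl⟩
    exact Nat.lt_succ_of_le (Finset.le_sup (f := id) h)
  · intro t b
    have h : idx (some (φ.u t b)) ∈ A := by
      simp only [A, Finset.mem_union, Finset.mem_biUnion, Finset.mem_image, Finset.mem_univ,
        true_and]
      exact Or.inr ⟨t, b, rfl⟩
    exact Nat.lt_succ_of_le (Finset.le_sup (f := id) h)

/-- The placements and special elements (`selection` with `P n = Perm (Fin (N n))`,
`F φ n π = Fset (Q.S n) φ π`, `asym`; `Fml Cl` is countable as it embeds into a sigma type of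
countable types). -/
theorem exists_places : ∃ (R : Fml Cl → Rq → ℕ) (π : ∀ n, Equiv.Perm (Fin (Q.N n)))
    (x : Fml Cl → ∀ n, Fin (Q.N n)), ∀ φ i, ∃ n0, ∀ n ≥ n0, (Fset (Q.S n) φ (π n)).Nonempty →
      x φ n ∈ Fset (Q.S n) φ (π n) ∧ ¬ bad Q φ i (R φ i) n (π n) (x φ n) := by
  have : Countable (Fml Cl) := genfinal_countable_fml
  have : Nonempty (Fml Cl) := ⟨⟨0, 0, fun i => i.elim0, fun i => i.elim0⟩⟩
  have : Nonempty Rq := ⟨(0, Sum.inr (Sum.inr (Sum.inr (Sum.inr ()))))⟩
  have : ∀ n, Nonempty (Fin (Q.N n)) := fun n => ⟨0⟩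
  refine selection (Φ := Fml Cl) (ι := Rq) (fun n => Equiv.Perm (Fin (Q.N n)))
    (fun n => Fin (Q.N n)) (fun φ n π => Fset (Q.S n) φ π) (fun φ i R n π x => bad Q φ i R n π x) ?_
  intro φ i δ hδ
  obtain ⟨R, n0, h⟩ := asym Q φ i hδ
  refine ⟨R, n0, fun n hn => ?_⟩
  have h1 := h n hn
  rw [Fintype.card_perm, Fintype.card_fin]
  exact h1

/-- The world with special element `x`, for one formula: if `Fset` is nonempty for almost all `n`
and `x` is off the cloud, `exists_PWx` applies. For given `a` choose `a' ≥ a` with `FBel a' φ`; `gN`,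
`g4`, `gFC` for `a` follow from the requirements for `a'` with `R + (a' - a)` candidates, and `g3` with
`j0 = a'`. `hx` by `fset_ref`. -/
theorem exists_world (hr : 0 < r) {R : Fml Cl → Rq → ℕ} {π : ∀ n, Equiv.Perm (Fin (Q.N n))}
    {φ : Fml Cl} (hv : FVal φ) {x : ∀ n, Fin (Q.N n)}
    (hgood : ∀ i, ∀ᶠ n in UU, x n ∈ Fset (Q.S n) φ (π n) ∧ ¬ bad Q φ i (R φ i) n (π n) (x n))
    (hoff : ∀ a, ∀ᶠ n in UU, Off (Q.k n) a (π n) (x n)) :
    ∃ X : PW r Clx, X.I = ClxI ∧ X.P = {none} ∧ X.e0 = 0 ∧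
      (∀ T, X.E T ↔ ∀ᶠ n in UU, (Q.S n).E (rlx (Q.k n) (π n) (x n) T)) ∧
      (∀ T a b, X.c T a b ↔ ∀ᶠ n in UU, (Q.S n).c (rlx (Q.k n) (π n) (x n) T)
        (plcx (Q.k n) (π n) (x n) a) (plcx (Q.k n) (π n) (x n) b)) ∧
      (∀ T a, ∀ᶠ n in UU, sz Q π x T a n = X.ρ T a) := by
  obtain ⟨a0, ha0⟩ := genfinal_exists_fbel φ
  refine exists_PWx Q hr π x ?_ hoff ?_ ?_ ?_ ?_
  · filter_upwards [hgood (0, Sum.inr (Sum.inr (Sum.inr (Sum.inr ()))))] with n hn
    exact fset_ref hn.1
  · intro a T hT hc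
    set a' := max a a0 with ha'
    refine ⟨(a' - a) + R φ (a', Sum.inl T), ?_⟩
    filter_upwards [hgood (a', Sum.inl T), hoff a'] with n hn hoffn
    by_contra hcon
    apply hn.2
    refine ⟨⟨genfinal_fbel_mono (le_max_right _ _) ha0, genfinal_bel_mono (le_max_left _ _) hT, hc⟩,
      hoffn, fun i hi hE => hcon ⟨(a' - a) + i, by omega, ?_⟩⟩
    have h1 : a + (a' - a + i) = a' + i := by
      have : a ≤ a' := le_max_left _ _
      omega
    rw [h1]
    exact hE
  · intro a T hT hc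
    set a' := max a a0 with ha'
    refine ⟨(a' - a) + R φ (a', Sum.inr (Sum.inl T)), ?_⟩
    filter_upwards [hgood (a', Sum.inr (Sum.inl T)), hoff a'] with n hn hoffn
    by_contra hcon
    apply hn.2
    refine ⟨⟨genfinal_fbel_mono (le_max_right _ _) ha0,
      fun b => genfinal_bel_mono (le_max_left _ _) (hT b), hc⟩,
      hoffn, fun i hi hE => hcon ⟨(a' - a) + i, by omega, ?_⟩⟩
    have h1 : a + (a' - a + i) = a' + i := by
      have : a ≤ a' := le_max_left _ _
      omega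
    rw [h1]
    exact hE
  · intro a T hT hc
    set a' := max a a0 with ha'
    refine ⟨a', fun j hj => ⟨R φ (a', Sum.inr (Sum.inr (Sum.inl (j, T)))), ?_⟩⟩
    filter_upwards [hgood (a', Sum.inr (Sum.inr (Sum.inl (j, T)))), hoff a'] with n hn hoffn
    by_contra hcon
    rw [not_or] at hcon
    apply hn.2
    exact ⟨⟨genfinal_fbel_mono (le_max_right _ _) ha0,
      fun b => genfinal_bel_mono (le_max_left _ _) (hT b), hc, hj⟩,
      hoffn, fun b hb => hcon.1 ⟨b, hb⟩, fun i hi hE => hcon.2 ⟨i, hi, hE⟩⟩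
  · intro a Y b hY hb
    set a' := max a a0 with ha'
    have haa : a ≤ a' := le_max_left _ _
    refine ⟨(a' - a) + R φ (a', Sum.inr (Sum.inr (Sum.inr (Sum.inl (Y, b))))), ?_⟩
    filter_upwards [hgood (a', Sum.inr (Sum.inr (Sum.inr (Sum.inl (Y, b))))),
      hoff (a' + R φ (a', Sum.inr (Sum.inr (Sum.inr (Sum.inl (Y, b))))))] with n hn hoffn
    by_contra hcon
    apply hn.2
    refine ⟨⟨genfinal_fbel_mono (le_max_right _ _) ha0, hv, fun ω hω => (hY ω hω).trans_le haa,
      hb.trans_le haa⟩, hoffn, fun i hi => ?_⟩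
    by_contra hcon2
    apply hcon
    refine ⟨(a' - a) + i, by omega, fun Z hZ hZb => ?_⟩
    have h1 : cand Y b a (a' - a + i + 1) = cand Y b a' (i + 1) := by
      have h2 : a + (a' - a + i) = a' + i := by omega
      simp only [cand, h2]
    rw [h1]
    by_contra hcon3
    exact hcon2 ⟨Z, genfinal_bel_mono haa hZ, hZb, hcon3⟩

/-- Elements of the cloud of small index. -/
theorem genfinal_finite (a : ℕ) : {ω : Cl | idx (some ω) < a}.Finite := by
  have h : {ω : Cl | idx (some ω) < a} ⊆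
      (((Finset.range a).image Sum.inl ∪ (Finset.range a).image Sum.inr : Finset Cl) : Set Cl) := by
    intro ω hω
    rcases ω with i | j
    · simp only [Set.mem_ofPred_eq, idx] at hω
      simp [hω]
    · simp only [Set.mem_ofPred_eq, idx] at hω
      simp [hω]
  exact (Finset.finite_toSet _).subset h

/-- For every `a`, almost all levels are large. -/
theorem genfinal_large (a : ℕ) : ∀ᶠ n in UU, a ≤ Q.k n ∧ Q.k n + a ≤ Q.N n := by
  filter_upwards [UU_large (a + 1)] with n hn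
  have h1 := Q.hk n
  have h2 := Q.hN n
  refine ⟨by omega, le_trans ?_ h2⟩
  nlinarith

theorem genfinal_off {π : ∀ n, Equiv.Perm (Fin (Q.N n))} {x : ∀ n, Fin (Q.N n)}
    (h : ∀ ω : Cl, ¬ ∀ᶠ n in UU, x n = plc (Q.k n) (π n) ω) (a : ℕ) :
    ∀ᶠ n in UU, Off (Q.k n) a (π n) (x n) := by
  have h1 : ∀ ω ∈ {ω : Cl | idx (some ω) < a}, ∀ᶠ n in UU, x n ≠ plc (Q.k n) (π n) ω :=
    fun ω _ => UU_not.1 (h ω)
  have h2 := (Filter.eventually_all_finite (genfinal_finite a)).2 h1
  filter_upwards [h2] with n hn ω hω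
  exact hn ω hω

include Q in
/-- **The limit data.** Let `R, π, x` be as in `exists_places`. For the trivial formula
`φ0 = ⟨0, 0, _, _⟩`, `Fset` is the reference set, nonempty, so `x φ0` is off the cloud by the last type
of requirement, and `exists_world` gives `X0`; let `W` be its base world (`exists_plus`). Then
`W.I = ClI`, `W.e0 = 0`, and `W.E K` iff `rl K` is an edge for almost all `n` etc. (`rlx_emb`), so `W`
does not depend on `φ0`. Let `Emp φ` mean that `Fset (Q.S n) φ (π n) = ∅` for almost all `n`.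
`tri`: suppose not `Emp φ`; then `Fset` is nonempty for almost all `n`, and `FVal φ` by hypothesis.
If for some `ω` in the cloud `x φ n = plc ω` for almost all `n`: second alternative with `x := ω`
(`real_mem`; if `∃ a, ∀ t, W.c ...` then for almost all `n` the same holds at level `n`, with
`S.E (rl (φ.K t))`, contradicting `x ∈ Fset`). Otherwise for every `ω` and almost all `n`,
`x φ n ≠ plc ω`, hence `hoff` (finitely many `ω` of index `< a`), and `exists_world` gives `X`; third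
alternative: `IsExt W X` by the descriptions, and `¬ ∃ a, ∀ t, ...` as before (`plcx none = x φ n`).
`size`: for almost all `n` all hypotheses of `size_fin` hold (with `a` a bound for the indices of
`φ`; finitely many conditions), `sz` agrees with `ρ`, and `S.c (rl (φ.K t)) ...` with `W.c` for the
finitely many `t, a, b`; there are finitely many `s : Fin q → ZMod r`, so the same `s` occurs for
almost all `n`. -/
theorem exists_limitData (hr : 0 < r) : Nonempty (LimitData r Cl) := by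
  obtain ⟨R, π, x, hx⟩ := exists_places Q
  have hx' : ∀ φ, (∀ᶠ n in UU, (Fset (Q.S n) φ (π n)).Nonempty) → ∀ i, ∀ᶠ n in UU,
      x φ n ∈ Fset (Q.S n) φ (π n) ∧ ¬ bad Q φ i (R φ i) n (π n) (x φ n) := by
    intro φ hne i
    obtain ⟨n0, h0⟩ := hx φ i
    filter_upwards [hne, UU_large n0] with n h1 h2
    exact h0 n h2 h1
  -- the base world
  obtain ⟨φ0, hm0, hq0⟩ : ∃ φ0 : Fml Cl, φ0.m = 0 ∧ φ0.q = 0 :=
    ⟨⟨0, 0, fun i => i.elim0, fun i => i.elim0⟩, rfl, rfl⟩
  have : IsEmpty (Fin φ0.m) := by rw [hm0]; infer_instance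
  have : IsEmpty (Fin φ0.q) := by rw [hq0]; infer_instance
  have hne0 : ∀ᶠ n in UU, (Fset (Q.S n) φ0 (π n)).Nonempty := by
    filter_upwards [genfinal_large Q 1] with n hn
    have hc : (ref (Q.k n) (π n)).card = Q.k n := ref_card (by omega) (π n)
    obtain ⟨v, hv⟩ := Finset.card_pos.1 (by rw [hc]; omega : 0 < (ref (Q.k n) (π n)).card)
    refine ⟨v, Finset.mem_filter.2 ⟨Finset.mem_univ _, hv, fun t => isEmptyElim t, ?_⟩⟩
    rintro ⟨a, _⟩
    exact isEmptyElim a
  have hoff0 : ∀ a, ∀ᶠ n in UU, Off (Q.k n) a (π n) (x φ0 n) := by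
    intro a
    filter_upwards [hx' φ0 hne0 (a, Sum.inr (Sum.inr (Sum.inr (Sum.inr ()))))] with n hn
    by_contra hcon
    exact hn.2 ⟨⟨hm0, hq0⟩, hcon⟩
  have hv0 : FVal φ0 := fun t => isEmptyElim t
  obtain ⟨X0, hI0, hP0, he0, hE0, hc0, hρ0⟩ := exists_world Q hr hv0 (hx' φ0 hne0) hoff0
  obtain ⟨W, hWP, hW⟩ := exists_plus X0 hP0 (by rw [hI0]; exact Or.inl rfl)
  have hWI : W.I = ClI := by
    ext ω
    rw [← hW.some_I, hI0]
    rcases ω with i | j
    · simp [ClxI, ClI]
    · simp [ClxI, ClI]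
  have hWe : W.e0 = 0 := by rw [← hW.e0_eq, he0]
  have hWE : ∀ K, W.E K ↔ ∀ᶠ n in UU, (Q.S n).E (rl (Q.k n) (π n) K) := by
    intro K
    rw [← hW.E_iff, hE0]
    simp only [rlx_emb]
  have hWc : ∀ K a b, W.c K a b ↔ ∀ᶠ n in UU, (Q.S n).c (rl (Q.k n) (π n) K)
      (plc (Q.k n) (π n) a) (plc (Q.k n) (π n) b) := by
    intro K a b
    rw [← hW.c_iff, hc0]
    simp only [rlx_emb]
    rfl
  have hWρ : ∀ K a, ∀ᶠ n in UU, ((((rl (Q.k n) (π n) K).filter fun y =>
      (Q.S n).c (rl (Q.k n) (π n) K) (plc (Q.k n) (π n) a) y).card : ℕ) : ZMod r) = W.ρ K a := by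
    intro K a
    filter_upwards [hρ0 (emb K) (some a)] with n hn
    rw [← hW.ρ_eq, ← hn]
    simp only [sz, rlx_emb]
    rfl
  have hWm : ∀ K a, W.m K a ↔ mem ClI K a := by
    intro K a
    unfold PW.m
    rw [hWI]
  refine ⟨{ W := W, hP := hWP, Emp := fun φ => ∀ᶠ n in UU, Fset (Q.S n) φ (π n) = ∅,
            tri := ?_, size := ?_ }⟩
  · intro φ hE hm
    have hv : FVal φ := fun t b => (hWm _ _).1 (hm t b)
    by_cases hEmp : ∀ᶠ n in UU, Fset (Q.S n) φ (π n) = ∅
    · exact Or.inl hEmp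
    right
    have hne : ∀ᶠ n in UU, (Fset (Q.S n) φ (π n)).Nonempty := by
      filter_upwards [UU_not.1 hEmp] with n hn
      exact Finset.nonempty_iff_ne_empty.2 hn
    have hgood := hx' φ hne
    have hmem : ∀ᶠ n in UU, x φ n ∈ Fset (Q.S n) φ (π n) :=
      (hgood (0, Sum.inr (Sum.inr (Sum.inr (Sum.inr ()))))).mono fun n h => h.1
    obtain ⟨a0, ha0⟩ := genfinal_exists_fbel φ
    have hEn : ∀ᶠ n in UU, ∀ t, (Q.S n).E (rl (Q.k n) (π n) (φ.K t)) :=
      Filter.eventually_all.2 fun t => (hWE _).1 (hE t)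
    by_cases hω : ∃ ω : Cl, ∀ᶠ n in UU, x φ n = plc (Q.k n) (π n) ω
    · left
      obtain ⟨ω, hω⟩ := hω
      refine ⟨ω, fun t => ?_, ?_⟩
      · obtain ⟨n, hn1, hn2, hn3⟩ :=
          (hω.and (hmem.and (genfinal_large Q (max a0 (idx (some ω) + 1))))).exists
        have hadm : Adm ClI (ref (Q.k n) (π n)) (plc (Q.k n) (π n))
            (insert ω (φ.K t).support) := by
          refine plc_adm hn3.1 hn3.2 (π n) _ ?_
          intro ω' hω'
          rcases Finset.mem_insert.1 hω' with rfl | h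
          · exact lt_of_lt_of_le (Nat.lt_succ_self _) (le_max_right _ _)
          · exact (ha0.1 t ω' h).trans_le (le_max_left _ _)
        have h1 : plc (Q.k n) (π n) ω ∈ rl (Q.k n) (π n) (φ.K t) := by
          rw [← hn1]
          exact (Finset.mem_filter.1 hn2).2.2.1 t
        exact (hWm _ _).2
          ((real_mem hadm (Finset.subset_insert _ _) (Finset.mem_insert_self _ _)).1 h1)
      · rintro ⟨a, ha⟩
        have h1 : ∀ᶠ n in UU, ∀ t, (Q.S n).c (rl (Q.k n) (π n) (φ.K t))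
            (plc (Q.k n) (π n) ω) (plc (Q.k n) (π n) (φ.u t a)) :=
          Filter.eventually_all.2 fun t => (hWc _ _ _).1 (ha t)
        obtain ⟨n, hn1, hn2, hn3, hn4⟩ := (hω.and (hmem.and (h1.and hEn))).exists
        apply (Finset.mem_filter.1 hn2).2.2.2
        exact ⟨a, fun t => ⟨hn4 t, by rw [hn1]; exact hn3 t⟩⟩
    · right
      obtain ⟨X, hXI, hXP, hXe, hXE, hXc, hXρ⟩ := exists_world Q hr hv hgood
        (genfinal_off Q fun ω h => hω ⟨ω, h⟩)
      refine ⟨X, ⟨hXP, ?_, ?_, ?_, ?_, ?_, ?_⟩, ?_⟩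
      · rw [hXI]; exact Or.inl rfl
      · intro ω
        rw [hXI, ← hW.some_I, hI0]
      · rw [hXe, hWe]
      · intro K
        rw [hXE, hWE]
        simp only [rlx_emb]
      · intro K a b
        rw [hXc, hWc]
        simp only [rlx_emb]
        rfl
      · intro K a
        obtain ⟨n, hn1, hn2⟩ := ((hXρ (emb K) (some a)).and (hWρ K a)).exists
        rw [← hn1, ← hn2]
        simp only [sz, rlx_emb]
        rfl
      · rintro ⟨a, ha⟩
        have h1 : ∀ᶠ n in UU, ∀ t, (Q.S n).c (rl (Q.k n) (π n) (φ.K t))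
            (x φ n) (plc (Q.k n) (π n) (φ.u t a)) := by
          refine Filter.eventually_all.2 fun t => ?_
          have h2 := (hXc _ _ _).1 (ha t)
          simp only [rlx_emb] at h2
          exact h2
        obtain ⟨n, hn2, hn3, hn4⟩ := (hmem.and (h1.and hEn)).exists
        apply (Finset.mem_filter.1 hn2).2.2.2
        exact ⟨a, fun t => ⟨hn4 t, hn3 t⟩⟩
  · intro φ hE hm hEmp lab hlab
    have hv : FVal φ := fun t b => (hWm _ _).1 (hm t b)
    obtain ⟨a0, ha0⟩ := genfinal_exists_fbel φ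
    have hEn : ∀ᶠ n in UU, ∀ t, (Q.S n).E (rl (Q.k n) (π n) (φ.K t)) :=
      Filter.eventually_all.2 fun t => (hWE _).1 (hE t)
    have hl : ∀ᶠ n in UU, ∀ t, ∀ e ∈ {ω : Cl | idx (some ω) < a0}, mem ClI (φ.K t) e →
        (Q.S n).c (rl (Q.k n) (π n) (φ.K t)) (plc (Q.k n) (π n) e)
          (plc (Q.k n) (π n) (φ.u t (lab e))) := by
      refine Filter.eventually_all.2 fun t => ?_
      refine (Filter.eventually_all_finite (genfinal_finite a0)).2 fun e _ => ?_
      by_cases hme : mem ClI (φ.K t) e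
      · filter_upwards [(hWc _ _ _).1 (hlab t e ((hWm _ _).2 hme))] with n hn _
        exact hn
      · exact Filter.Eventually.of_forall fun n h => absurd h hme
    have hc : ∀ᶠ n in UU, ∀ t (a b : Fin φ.q), ((Q.S n).c (rl (Q.k n) (π n) (φ.K t))
        (plc (Q.k n) (π n) (φ.u t a)) (plc (Q.k n) (π n) (φ.u t b)) ↔
        W.c (φ.K t) (φ.u t a) (φ.u t b)) := by
      refine Filter.eventually_all.2 fun t => Filter.eventually_all.2 fun a =>
        Filter.eventually_all.2 fun b => ?_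
      by_cases h : W.c (φ.K t) (φ.u t a) (φ.u t b)
      · filter_upwards [(hWc _ _ _).1 h] with n hn
        exact iff_of_true hn h
      · filter_upwards [UU_not.1 fun h' => h ((hWc _ _ _).2 h')] with n hn
        exact iff_of_false hn h
    have hρ : ∀ᶠ n in UU, ∀ t (a : Fin φ.q), ((((rl (Q.k n) (π n) (φ.K t)).filter fun y =>
        (Q.S n).c (rl (Q.k n) (π n) (φ.K t)) (plc (Q.k n) (π n) (φ.u t a)) y).card : ℕ) : ZMod r) =
        W.ρ (φ.K t) (φ.u t a) :=
      Filter.eventually_all.2 fun t => Filter.eventually_all.2 fun a => hWρ _ _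
    obtain ⟨n, hn1, hn2, hn3, hn4, hn5, hn6⟩ :=
      (hEmp.and (hEn.and (hl.and (hc.and (hρ.and (genfinal_large Q a0)))))).exists
    obtain ⟨s, h1, h2, h3⟩ := size_fin (Q.S n) (Q.hr n) φ ha0 hn6.1 hn6.2 (π n) hn2 hv lab
      (fun t e he hme => hn3 t e he hme) hn1
    refine ⟨s, fun t => ?_, fun t a => ?_, fun t h => ?_⟩
    · rw [hWI]
      exact h1 t
    · rw [hWI, ← hn5 t a, h2 t a]
      refine Finset.sum_congr rfl fun b _ => ?_
      by_cases h : W.c (φ.K t) (φ.u t a) (φ.u t b)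
      · rw [if_pos h, if_pos ((hn4 t a b).2 h)]
      · rw [if_neg h, if_neg fun h' => h ((hn4 t a b).1 h')]
    · apply h3 t
      intro c
      rw [hn5 t c]
      exact h c

end Pool.Agent.Lib.MP_a572be_co
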