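import Pool.Agent.Lib.MP_a572be_co.GenDefs

/-!
# Random placements: basic facts
-/

namespace Pool.Agent.Lib.MP_a572be_co

open Classical

variable {N : ℕ} [NeZero N]

theorem geninv_card {k : ℕ} (hk : k ≤ N) :
    (Finset.univ.filter (fun p : Fin N => (p : ℕ) < k)).card = k := by
  have h : (Finset.univ.filter (fun p : Fin N => (p : ℕ) < k)).map Fin.valEmbedding =
      Finset.range k := by
    ext m
    simp only [Finset.mem_map, Finset.mem_filter, Finset.mem_univ, true_and,
      Fin.valEmbedding_apply, Finset.mem_range]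
    constructor
    · rintro ⟨p, hp, rfl⟩; exact hp
    · intro hm; exact ⟨⟨m, by omega⟩, hm, rfl⟩
  rw [← Finset.card_map Fin.valEmbedding, h, Finset.card_range]

theorem ref_card {k : ℕ} (hk : k ≤ N) (π : Equiv.Perm (Fin N)) : (ref k π).card = k := by
  unfold ref
  rw [Finset.card_image_of_injective _ π.injective, geninv_card hk]

theorem geninv_mem_ref {k : ℕ} (π : Equiv.Perm (Fin N)) (p : Fin N) :
    π p ∈ ref k π ↔ (p : ℕ) < k := by
  unfold ref
  rw [Finset.mem_image]
  constructor
  · rintro ⟨q, hq, hqp⟩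
    rw [π.injective hqp] at hq
    exact (Finset.mem_filter.1 hq).2
  · intro h
    exact ⟨p, Finset.mem_filter.2 ⟨Finset.mem_univ _, h⟩, rfl⟩

theorem geninv_val {m : ℕ} (h : m < N) : ((Fin.ofNat N m : Fin N) : ℕ) = m := by
  rw [Fin.val_ofNat, Nat.mod_eq_of_lt h]

theorem geninv_pos {k a : ℕ} (hk : a ≤ k) {ω : Cl} (h : idx (some ω) < a) :
    posN k ω < k + a := by
  cases ω with
  | inl i => simp only [idx] at h; simp only [posN]; omega
  | inr j => simp only [idx] at h; simp only [posN]; omega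

theorem geninv_pos_lt {k a : ℕ} (hk : a ≤ k) {ω : Cl} (h : idx (some ω) < a) :
    posN k ω < k ↔ ω ∈ ClI := by
  cases ω with
  | inl i => simp only [idx] at h; simp [posN, ClI]; omega
  | inr j => simp only [idx] at h; simp [posN, ClI]

theorem geninv_pos_inj {k a : ℕ} (hk : a ≤ k) {ω ω' : Cl} (h : idx (some ω) < a)
    (h' : idx (some ω') < a) (he : posN k ω = posN k ω') : ω = ω' := by
  cases ω with
  | inl i =>
    cases ω' with
    | inl i' => simp only [posN] at he; rw [he]
    | inr j' => simp only [idx, posN] at h h' he; omega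
  | inr j =>
    cases ω' with
    | inl i' => simp only [idx, posN] at h h' he; omega
    | inr j' =>
      simp only [posN] at he
      have : j = j' := by omega
      rw [this]

theorem geninv_plc_inj {k a : ℕ} (hk : a ≤ k) (hN : k + a ≤ N) (π : Equiv.Perm (Fin N))
    {ω ω' : Cl} (h : idx (some ω) < a) (h' : idx (some ω') < a)
    (he : plc k π ω = plc k π ω') : ω = ω' := by
  unfold plc at he
  have h1 := congrArg Fin.val (π.injective he)
  have h2 := geninv_pos hk h
  have h3 := geninv_pos hk h'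
  rw [geninv_val (by omega), geninv_val (by omega)] at h1
  exact geninv_pos_inj hk h h' h1

theorem geninv_plc_mem {k a : ℕ} (hk : a ≤ k) (hN : k + a ≤ N) (π : Equiv.Perm (Fin N))
    {ω : Cl} (h : idx (some ω) < a) : plc k π ω ∈ ref k π ↔ ω ∈ ClI := by
  unfold plc
  have h2 := geninv_pos hk h
  rw [geninv_mem_ref, geninv_val (by omega)]
  exact geninv_pos_lt hk h

/-- The placement is admissible for the elements of index `< a` of the cloud. -/
theorem plc_adm {k a : ℕ} (hk : a ≤ k) (hN : k + a ≤ N) (π : Equiv.Perm (Fin N))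
    (D : Finset Cl) (hD : ∀ ω ∈ D, idx (some ω) < a) : Adm ClI (ref k π) (plc k π) D := by
  refine ⟨?_, ?_⟩
  · intro ω hω ω' hω' he
    exact geninv_plc_inj hk hN π (hD ω (Finset.mem_coe.1 hω)) (hD ω' (Finset.mem_coe.1 hω')) he
  · intro ω hω
    exact geninv_plc_mem hk hN π (hD ω hω)

/-- The same with the special element. -/
theorem plcx_adm {k a : ℕ} (hk : a ≤ k) (hN : k + a ≤ N) (π : Equiv.Perm (Fin N)) {x : Fin N}
    (hx : x ∈ ref k π) (hoff : Off k a π x) (D : Finset Clx) (hD : ∀ ω ∈ D, idx ω < a) :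
    Adm ClxI (ref k π) (plcx k π x) D := by
  refine ⟨?_, ?_⟩
  · intro ω hω ω' hω' he
    have h1 := hD ω (Finset.mem_coe.1 hω)
    have h2 := hD ω' (Finset.mem_coe.1 hω')
    cases ω with
    | none =>
      cases ω' with
      | none => rfl
      | some ω' => exact absurd he (hoff ω' h2)
    | some ω =>
      cases ω' with
      | none => exact absurd he.symm (hoff ω h1)
      | some ω' => rw [geninv_plc_inj hk hN π h1 h2 he]
  · intro ω hω
    have h1 := hD ω hω
    cases ω with
    | none => simp [plcx, ClxI, hx]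
    | some ω =>
      have h2 := geninv_plc_mem hk hN π h1
      have h3 : (some ω : Clx) ∈ ClxI ↔ ω ∈ ClI := by
        cases ω with
        | inl i => simp [ClxI, ClI]
        | inr j => simp [ClxI, ClI]
      rw [h3]
      exact h2

theorem rlx_emb {k : ℕ} (π : Equiv.Perm (Fin N)) (x : Fin N) (X : Tg Cl) :
    rlx k π x (emb X) = rl k π X := by
  unfold rlx rl real emb
  rw [Finsupp.support_embDomain]
  congr 1
  ext v
  simp only [Finset.mem_image, Finset.mem_map]
  constructor
  · rintro ⟨_, ⟨ω, hω, rfl⟩, rfl⟩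
    exact ⟨ω, hω, rfl⟩
  · rintro ⟨ω, hω, rfl⟩
    exact ⟨some ω, ⟨ω, hω, rfl⟩, rfl⟩

/-- Adding a far element outside the reference set: for `T` with indices `< a` and `j ≥ a`. -/
theorem rlx_add {k a j : ℕ} (hk : a ≤ k) (hN : k + j < N) (π : Equiv.Perm (Fin N)) {x : Fin N}
    (hx : x ∈ ref k π) {T : Tg Clx} (hT : Bel a T) (hj : a ≤ j) :
    rlx k π x (T + t (some (Sum.inr j))) =
      insert (π (Fin.ofNat N (k + j))) (rlx k π x T) := by
  have hs : (some (Sum.inr j) : Clx) ∉ T.support := by
    intro h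
    have := hT _ h
    simp only [idx] at this
    omega
  have hsupp : (T + t (some (Sum.inr j))).support = insert (some (Sum.inr j)) T.support := by
    ext y
    by_cases hy : (some (Sum.inr j) : Clx) = y
    · subst hy
      have : T (some (Sum.inr j)) = 0 := by simpa using hs
      simp [this, t_self]
    · simp [t_ne hy, Ne.symm hy]
  have hv : plcx k π x (some (Sum.inr j)) = π (Fin.ofNat N (k + j)) := rfl
  have hvr : π (Fin.ofNat N (k + j)) ∉ ref k π := by
    rw [geninv_mem_ref, geninv_val hN]; omega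
  have hvi : π (Fin.ofNat N (k + j)) ∉ T.support.image (plcx k π x) := by
    intro h
    obtain ⟨ω, hω, he⟩ := Finset.mem_image.1 h
    have h1 := hT ω hω
    cases ω with
    | none =>
      apply hvr
      rw [← he]
      exact hx
    | some ω =>
      have h2 := π.injective he
      have h3 := congrArg Fin.val h2
      have h4 := geninv_pos hk h1
      rw [geninv_val (by omega), geninv_val hN] at h3
      omega
  have hvi' : ∀ ω ∈ T.support, plcx k π x ω ≠ π (Fin.ofNat N (k + j)) := by
    intro ω hω he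
    exact hvi (Finset.mem_image.2 ⟨ω, hω, he⟩)
  unfold rlx real
  rw [hsupp]
  ext y
  simp only [Finset.mem_symmDiff, Finset.mem_insert, Finset.mem_image]
  constructor
  · rintro (⟨h1, h2⟩ | ⟨⟨ω, hω, he⟩, h2⟩)
    · exact Or.inr (Or.inl ⟨h1, fun ⟨ω, hω, he⟩ => h2 ⟨ω, Or.inr hω, he⟩⟩)
    · rcases hω with rfl | hω
      · left; rw [← he, hv]
      · exact Or.inr (Or.inr ⟨⟨ω, hω, he⟩, h2⟩)
  · rintro (rfl | ⟨h1, h2⟩ | ⟨⟨ω, hω, he⟩, h2⟩)
    · exact Or.inr ⟨⟨some (Sum.inr j), Or.inl rfl, hv⟩, hvr⟩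
    · refine Or.inl ⟨h1, ?_⟩
      rintro ⟨ω, hω, he⟩
      rcases hω with rfl | hω
      · rw [hv] at he
        rw [he] at hvr
        exact hvr h1
      · exact h2 ⟨ω, hω, he⟩
    · exact Or.inr ⟨⟨ω, Or.inr hω, he⟩, h2⟩

/-- Size of a realized set of level `-1`. -/
theorem rlx_card {k a : ℕ} (hk : a ≤ k) (hN : k + a ≤ N) (π : Equiv.Perm (Fin N)) {x : Fin N}
    (hx : x ∈ ref k π) (hoff : Off k a π x) {T : Tg Clx} (hT : Bel a T)
    (hlev : cnt ClxI Set.univ T = -1) : (rlx k π x T).card + 1 = k := by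
  have h1 := real_card (plcx_adm hk hN π hx hoff T.support hT) (X := T) (Finset.Subset.refl _)
  rw [ref_card (by omega), hlev] at h1
  unfold rlx
  omega

/-- Everything with indices `< a` is invariant under exchanging two positions `≥ k + a`. -/
theorem far_swap {k a r : ℕ} (hk : a ≤ k) (hN : k + a ≤ N) (S : CSys k r (Fin N))
    (π : Equiv.Perm (Fin N)) {q q' : Fin N} (hq : k + a ≤ (q : ℕ)) (hq' : k + a ≤ (q' : ℕ)) :
    ref k (π * Equiv.swap q q') = ref k π ∧
    (∀ ω : Cl, idx (some ω) < a → plc k (π * Equiv.swap q q') ω = plc k π ω) ∧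
    (∀ x, ∀ T : Tg Clx, Bel a T → rlx k (π * Equiv.swap q q') x T = rlx k π x T) ∧
    (∀ φ, FBel a φ → Fset S φ (π * Equiv.swap q q') = Fset S φ π) ∧
    (∀ x, Off k a (π * Equiv.swap q q') x ↔ Off k a π x) := by
  have hqN := q.isLt
  have hs : ∀ p : Fin N, (p : ℕ) < k + a → Equiv.swap q q' p = p := by
    intro p hp
    apply Equiv.swap_apply_of_ne_of_ne
    · rintro rfl; omega
    · rintro rfl; omega
  have h1 : ref k (π * Equiv.swap q q') = ref k π := by
    unfold ref
    apply Finset.image_congr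
    intro p hp
    have hp' := (Finset.mem_filter.1 (Finset.mem_coe.1 hp)).2
    simp only [Equiv.Perm.mul_apply]
    rw [hs p (by omega)]
  have h2 : ∀ ω : Cl, idx (some ω) < a → plc k (π * Equiv.swap q q') ω = plc k π ω := by
    intro ω hω
    unfold plc
    have h3 := geninv_pos hk hω
    rw [Equiv.Perm.mul_apply, hs _ (by rw [geninv_val (by omega)]; exact h3)]
  have h3 : ∀ (X : Tg Cl), (∀ ω ∈ X.support, idx (some ω) < a) →
      rl k (π * Equiv.swap q q') X = rl k π X := by
    intro X hX
    unfold rl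
    rw [h1]
    exact real_congr (fun ω hω => h2 ω (hX ω hω))
  refine ⟨h1, h2, ?_, ?_, ?_⟩
  · intro x T hT
    unfold rlx
    rw [h1]
    apply real_congr
    intro ω hω
    cases ω with
    | none => rfl
    | some ω => exact h2 ω (hT _ hω)
  · intro φ hφ
    unfold Fset
    apply Finset.filter_congr
    intro x _
    have h4 : ∀ t, rl k (π * Equiv.swap q q') (φ.K t) = rl k π (φ.K t) :=
      fun t => h3 (φ.K t) (hφ.1 t)
    have h5 : ∀ t b, plc k (π * Equiv.swap q q') (φ.u t b) = plc k π (φ.u t b) :=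
      fun t b => h2 _ (hφ.2 t b)
    simp only [h1, h4, h5]
  · intro x
    constructor
    · intro h ω hω
      rw [← h2 ω hω]; exact h ω hω
    · intro h ω hω
      rw [h2 ω hω]; exact h ω hω

/-- The elements of `Fset` are in the reference set. -/
theorem fset_ref {k r : ℕ} {S : CSys k r (Fin N)} {φ : Fml Cl} {π : Equiv.Perm (Fin N)}
    {x : Fin N} (hx : x ∈ Fset S φ π) : x ∈ ref k π := (Finset.mem_filter.1 hx).2.1

end Pool.Agent.Lib.MP_a572be_co
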