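import Pool.Agent.Lib.MP_a572be_co.GenSeq

/-!
# Limits of a sequence of placements
-/

namespace Pool.Agent.Lib.MP_a572be_co

open Classical Filter

/-- The ultrafilter. -/
noncomputable def UU : Ultrafilter ℕ := hyperfilter ℕ

theorem UU_large (n0 : ℕ) : ∀ᶠ n in UU, n0 ≤ n := by
  have h : (UU : Filter ℕ) ≤ atTop := Nat.hyperfilter_le_atTop
  exact h (eventually_ge_atTop n0)

variable {r : ℕ} (Q : BSeq r)

/-- The size modulo `r` of the class of `a` in the realization of `T`. -/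
noncomputable def sz (π : ∀ n, Equiv.Perm (Fin (Q.N n))) (x : ∀ n, Fin (Q.N n)) (T : Tg Clx)
    (a : Clx) (n : ℕ) : ZMod r :=
  (((rlx (Q.k n) (π n) (x n) T).filter fun y =>
    (Q.S n).c (rlx (Q.k n) (π n) (x n) T) (plcx (Q.k n) (π n) (x n) a) y).card : ZMod r)

variable (π : ∀ n, Equiv.Perm (Fin (Q.N n))) (x : ∀ n, Fin (Q.N n))

/-- `T` is realized by an edge for almost all `n`. -/
def limE (T : Tg Clx) : Prop := ∀ᶠ n in UU, (Q.S n).E (rlx (Q.k n) (π n) (x n) T)

/-- The limit of the relations `c`. -/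
def limc (T : Tg Clx) (a b : Clx) : Prop := ∀ᶠ n in UU, (Q.S n).c (rlx (Q.k n) (π n) (x n) T)
  (plcx (Q.k n) (π n) (x n) a) (plcx (Q.k n) (π n) (x n) b)

/-- An ultrafilter limit with values in a finite type. -/
theorem exists_lim {α : Type} [Finite α] (f : ℕ → α) : ∃ a, ∀ᶠ n in UU, f n = a :=
  Ultrafilter.eventually_exists_iff.1 (Eventually.of_forall fun n => ⟨f n, rfl⟩)

/-- One of finitely many alternatives holds for almost all `n`. -/
theorem exists_lim_lt {R : ℕ} {p : ℕ → ℕ → Prop} (h : ∀ᶠ n in UU, ∃ i < R, p n i) :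
    ∃ i < R, ∀ᶠ n in UU, p n i := by
  have h1 : ∀ᶠ n in UU, ∃ i : Fin R, p n i := by
    filter_upwards [h] with n hn
    obtain ⟨i, hi, hp⟩ := hn
    exact ⟨⟨i, hi⟩, hp⟩
  obtain ⟨i, hi⟩ := Ultrafilter.eventually_exists_iff.1 h1
  exact ⟨i, i.2, hi⟩

theorem UU_not {p : ℕ → Prop} : (¬ ∀ᶠ n in UU, p n) ↔ ∀ᶠ n in UU, ¬ p n :=
  Ultrafilter.eventually_not.symm

/-- The limit of the sizes modulo `r`. -/
noncomputable def limρ [NeZero r] (T : Tg Clx) (a : Clx) : ZMod r :=
  (exists_lim (sz Q π x T a)).choose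

theorem limρ_spec [NeZero r] (T : Tg Clx) (a : Clx) :
    ∀ᶠ n in UU, sz Q π x T a n = limρ Q π x T a := (exists_lim (sz Q π x T a)).choose_spec

/-- For every `a` and almost all `n`, the placement is admissible for the elements of index `< a`
(`plcx_adm`; `a ≤ k n` and `k n + a ≤ N n` for `n ≥ 2 a + 2` or so, by `Q.hk`, `Q.hN`). -/
theorem ev_adm (hx : ∀ᶠ n in UU, x n ∈ ref (Q.k n) (π n))
    (hoff : ∀ a, ∀ᶠ n in UU, Off (Q.k n) a (π n) (x n)) (a : ℕ) :
    ∀ᶠ n in UU, a ≤ Q.k n ∧ Q.k n + a ≤ Q.N n ∧ ∀ D : Finset Clx, (∀ ω ∈ D, idx ω < a) →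
      Adm ClxI (ref (Q.k n) (π n)) (plcx (Q.k n) (π n) (x n)) D := by
  filter_upwards [hx, hoff a, UU_large a] with n hxn hon hn
  have h1 : a ≤ Q.k n := by have := Q.hk n; omega
  have h2 : Q.k n + a ≤ Q.N n := by
    refine le_trans ?_ (Q.hN n)
    nlinarith [Nat.zero_le (n * Q.k n)]
  exact ⟨h1, h2, fun D hD => plcx_adm h1 h2 (π n) hxn hon D hD⟩

/-- Consequences of `ev_adm` for one set and two elements (`real_mem`, `real_add_in`,
`real_add_out`), for almost all `n`. -/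
theorem ev_real (hx : ∀ᶠ n in UU, x n ∈ ref (Q.k n) (π n))
    (hoff : ∀ a, ∀ᶠ n in UU, Off (Q.k n) a (π n) (x n)) (T : Tg Clx) (u v : Clx) :
    ∀ᶠ n in UU, (plcx (Q.k n) (π n) (x n) u ∈ rlx (Q.k n) (π n) (x n) T ↔ mem ClxI T u) ∧
      (plcx (Q.k n) (π n) (x n) v ∈ rlx (Q.k n) (π n) (x n) T ↔ mem ClxI T v) ∧
      (u ≠ v → plcx (Q.k n) (π n) (x n) u ≠ plcx (Q.k n) (π n) (x n) v) ∧
      (mem ClxI T u → ¬ mem ClxI T v → rlx (Q.k n) (π n) (x n) (T + t u + t v) =
        insert (plcx (Q.k n) (π n) (x n) v)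
          ((rlx (Q.k n) (π n) (x n) T).erase (plcx (Q.k n) (π n) (x n) u))) ∧
      (((rlx (Q.k n) (π n) (x n) T).card : ℤ) = Q.k n + cnt ClxI Set.univ T) := by
  let D : Finset Clx := T.support ∪ {u, v}
  have hTD : T.support ⊆ D := Finset.subset_union_left
  have huD : u ∈ D := Finset.mem_union_right _ (by simp)
  have hvD : v ∈ D := Finset.mem_union_right _ (by simp)
  filter_upwards [ev_adm Q π x hx hoff (D.sup idx + 1)] with n hn
  obtain ⟨h1, h2, h3⟩ := hn
  have hA := h3 D (fun ω hω => Nat.lt_succ_of_le (Finset.le_sup hω))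
  refine ⟨real_mem hA hTD huD, real_mem hA hTD hvD, fun huv h => huv (hA.1 huD hvD h), ?_, ?_⟩
  · intro hmu hmv
    have huv : u ≠ v := fun h => hmv (h ▸ hmu)
    have hsub : (T + t u).support ⊆ D := by
      intro ω hω
      have := Finsupp.support_add hω
      rw [Finset.mem_union] at this
      rcases this with h | h
      · exact hTD h
      · have := Finsupp.support_single_subset h
        rw [Finset.mem_singleton] at this
        rw [this]; exact huD
    have hmv' : ¬ mem ClxI (T + t u) v := by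
      rw [mem_add_t_ne ClxI T huv]; exact hmv
    unfold rlx
    rw [real_add_out hA hsub hvD hmv', real_add_in hA hTD huD hmu]
    ext y
    simp only [Finset.mem_insert, Finset.mem_erase]
  · have := real_card hA hTD
    unfold rlx
    rw [this, ref_card (by omega)]

end Pool.Agent.Lib.MP_a572be_co
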