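import Pool.Agent.Lib.MP_a572be_co.GenLim

/-!
# The axioms about neighbours in the limit
-/

namespace Pool.Agent.Lib.MP_a572be_co

open Classical Filter

variable {r : ℕ} (Q : BSeq r) (π : ∀ n, Equiv.Perm (Fin (Q.N n))) (x : ∀ n, Fin (Q.N n))

theorem genpwa_bound (A : Finset Clx) : ∃ a, ∀ ω ∈ A, idx ω < a :=
  ⟨A.sup idx + 1, fun _ hω => Nat.lt_succ_of_le (Finset.le_sup (f := idx) hω)⟩

/-- One of finitely many alternatives holds for almost all `n`. -/
theorem genpwa_fin {β : Type} [Finite β] [Nonempty β] {p : ℕ → β → Prop}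
    (h : ∀ᶠ n in UU, ∃ b, p n b) : ∃ b, ∀ᶠ n in UU, p n b := by
  obtain ⟨b, hb⟩ := exists_lim (α := β)
    (fun n => if h : ∃ b, p n b then h.choose else Classical.arbitrary β)
  refine ⟨b, ?_⟩
  filter_upwards [h, hb] with n h1 h2
  rw [dif_pos h1] at h2
  rw [← h2]
  exact h1.choose_spec

theorem genpwa_inr_notMem (j : ℕ) : (some (Sum.inr j) : Clx) ∉ ClxI := by
  rintro (h | ⟨i, h⟩)
  · exact absurd h (by simp)
  · exact absurd h (by simp)

theorem genpwa_mem_some (ω : Cl) : (some ω : Clx) ∈ ClxI ↔ ω ∈ ClI := by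
  rcases ω with i | j
  · simp [ClxI, ClI]
  · simp [ClxI, ClI]

theorem genpwa_not_ClxI {v : Clx} (h : v ∉ ClxI) : ∃ j, v = some (Sum.inr j) := by
  rcases v with _ | i | j
  · exact absurd (Or.inl rfl) h
  · exact absurd (Or.inr ⟨i, rfl⟩) h
  · exact ⟨j, rfl⟩

/-- Every set coded over the cloud with the special element comes from one over the cloud, up to
the special element. -/
theorem genpwa_decomp (X : Tg Clx) : ∃ (Y : Tg Cl) (Z : Tg Clx), X = emb Y + Z ∧
    (∀ ω, Y ω = X (some ω)) ∧ (∀ ω, Z (some ω) = 0) := by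
  let Y : Tg Cl := Finsupp.comapDomain some X (Option.some_injective _).injOn
  have hY : ∀ ω, Y ω = X (some ω) := fun ω => Finsupp.comapDomain_apply _ _ _ _
  refine ⟨Y, emb Y + X, by rw [tg_add_self_left], hY, fun ω => ?_⟩
  rw [Finsupp.add_apply, emb_some, hY]
  exact CharTwo.add_self_eq_zero _

/-- From `gN`: let `a` bound the indices of `S` and `D`; there are `R` and for almost all `n` some
`i < R`; one `i < R` works for almost all `n` (`exists_lim_lt`); `v = some (inr (a + i))`. -/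
theorem lim_N (gN : ∀ a (T : Tg Clx), Bel a T → cnt ClxI Set.univ T = -1 → ∃ R, ∀ᶠ n in UU,
      ∃ i < R, (Q.S n).E (rlx (Q.k n) (π n) (x n) (T + t (some (Sum.inr (a + i))))))
    (S : Tg Clx) (hS : cnt ClxI Set.univ S = -1) (D : Finset Clx) :
    ∃ v, v ∉ D ∧ v ∉ ClxI ∧ limE Q π x (S + t v) := by
  obtain ⟨a, ha⟩ := genpwa_bound (S.support ∪ D)
  obtain ⟨R, hR⟩ := gN a S (fun ω hω => ha ω (Finset.mem_union_left _ hω)) hS
  obtain ⟨i, _, hi⟩ := exists_lim_lt hR
  refine ⟨some (Sum.inr (a + i)), fun h => ?_, genpwa_inr_notMem _, hi⟩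
  have := ha _ (Finset.mem_union_right _ h)
  simp only [idx] at this
  omega

/-- From `g4`, similarly (the pair `b, b'` can also be chosen the same for almost all `n`). -/
theorem lim_4 (g4 : ∀ a (T : Fin 4 → Tg Clx), (∀ b, Bel a (T b)) →
      (∀ b, cnt ClxI Set.univ (T b) = -1) →
      ∃ R, ∀ᶠ n in UU, ∃ i < R, ∃ b b', b ≠ b' ∧
        (Q.S n).E (rlx (Q.k n) (π n) (x n) (T b + t (some (Sum.inr (a + i))))) ∧
        (Q.S n).E (rlx (Q.k n) (π n) (x n) (T b' + t (some (Sum.inr (a + i))))))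
    (S : Fin 4 → Tg Clx) (hS : ∀ a, cnt ClxI Set.univ (S a) = -1) (D : Finset Clx) :
    ∃ a b, a ≠ b ∧ ∃ v, v ∉ D ∧ v ∉ ClxI ∧ limE Q π x (S a + t v) ∧ limE Q π x (S b + t v) := by
  obtain ⟨a, ha⟩ := genpwa_bound ((Finset.univ.biUnion fun b => (S b).support) ∪ D)
  obtain ⟨R, hR⟩ := g4 a S (fun b ω hω => ha ω (Finset.mem_union_left _
    (Finset.mem_biUnion.2 ⟨b, Finset.mem_univ _, hω⟩))) hS
  obtain ⟨i, _, hi⟩ := exists_lim_lt hR
  obtain ⟨b, hb⟩ := genpwa_fin hi
  obtain ⟨b', hb'⟩ := genpwa_fin hb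
  obtain ⟨n, hn⟩ := hb'.exists
  refine ⟨b, b', hn.1, some (Sum.inr (a + i)), fun h => ?_, genpwa_inr_notMem _,
    hb'.mono fun n hn => hn.2.1, hb'.mono fun n hn => hn.2.2⟩
  have := ha _ (Finset.mem_union_right _ h)
  simp only [idx] at this
  omega

/-- From `gFC`. Let `b = some β`, `X = emb Y` or `X = emb Y + t none`, `a` a bound (`≥ 1`) for the
indices of `D`, `X`, `b`; by `gFC` one candidate `b' = some (cand Y β a (i+1))` works for almost all
`n` (`exists_lim_lt`); its index is `≥ a`, so it is not in `D`, not in the support of `X`, and it is in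
`ClxI` iff `mem ClI Y β`. For `Z` with support in `D`, `Bel a Z` and `Z b = 0`, also for
`Z + t none`. `limE` of a set is decided by `UU`, so an equivalence for almost all `n` gives the
equivalence of the limits. -/
theorem lim_FC (gFC : ∀ a (Y : Tg Cl) (b : Cl), (∀ ω ∈ Y.support, idx (some ω) < a) →
      idx (some b) < a →
      ∃ R, ∀ᶠ n in UU, ∃ i < R, ∀ Z : Tg Clx, Bel a Z → Z (some b) = 0 →
        ((Q.S n).E (rlx (Q.k n) (π n) (x n) (emb Y + Z + t (some b))) ↔
        (Q.S n).E (rlx (Q.k n) (π n) (x n) (emb Y + Z + t (some (cand Y b a (i + 1)))))))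
    (X : Tg Clx) (D : Finset Clx) (b : Clx) (hb : b ∉ D) (hbn : b ≠ none) :
    ∃ b', b' ∉ D ∧ b' ≠ b ∧ (mem ClxI X b' ↔ mem ClxI X b) ∧
      ∀ Z : Tg Clx, Z.support ⊆ D → (limE Q π x (X + Z + t b) ↔ limE Q π x (X + Z + t b')) := by
  obtain ⟨β, rfl⟩ : ∃ β, b = some β := by
    cases b with
    | none => exact absurd rfl hbn
    | some β => exact ⟨β, rfl⟩
  obtain ⟨Y, Zn, hX, hY, hZn⟩ := genpwa_decomp X
  obtain ⟨a, ha⟩ := genpwa_bound (insert none (insert (some β) (X.support ∪ D)))
  have haX : ∀ ω ∈ X.support, idx ω < a := fun ω hω => ha ω (Finset.mem_insert_of_mem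
    (Finset.mem_insert_of_mem (Finset.mem_union_left _ hω)))
  have haD : ∀ ω ∈ D, idx ω < a := fun ω hω => ha ω (Finset.mem_insert_of_mem
    (Finset.mem_insert_of_mem (Finset.mem_union_right _ hω)))
  have haβ : idx (some β) < a := ha _ (Finset.mem_insert_of_mem (Finset.mem_insert_self _ _))
  have han : idx none < a := ha _ (Finset.mem_insert_self _ _)
  obtain ⟨R, hR⟩ := gFC a Y β (fun ω hω => haX _ (by
    rw [Finsupp.mem_support_iff, ← hY]
    exact Finsupp.mem_support_iff.1 hω)) haβ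
  obtain ⟨i, _, hi⟩ := exists_lim_lt hR
  have hidx : idx (some (cand Y β a (i + 1))) = a + i := by
    simp only [cand]
    split_ifs <;> rfl
  have hC : (some (cand Y β a (i + 1)) : Clx) ∈ ClxI ↔ mem ClI Y β := by
    rw [genpwa_mem_some]
    simp only [cand]
    split_ifs with h
    · exact iff_of_true rfl h
    · exact iff_of_false (by simp [ClI]) h
  refine ⟨some (cand Y β a (i + 1)), fun h => ?_, fun h => ?_, ?_, fun Z hZ => ?_⟩
  · have := haD _ h
    omega
  · rw [← h] at haβ
    omega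
  · have h1 : X (some (cand Y β a (i + 1))) = 0 := by
      by_contra h
      have := haX _ (Finsupp.mem_support_iff.2 h)
      omega
    have h2 : mem ClxI X (some β) ↔ mem ClI Y β := by
      unfold mem
      rw [genpwa_mem_some, hY]
    rw [h2, ← hC]
    unfold mem
    simp [h1]
  · have hbel : Bel a (Zn + Z) := by
      intro ω hω
      cases ω with
      | none => exact han
      | some ω =>
        apply haD
        apply hZ
        rw [Finsupp.mem_support_iff] at hω ⊢
        intro h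
        apply hω
        rw [Finsupp.add_apply, hZn, h, add_zero]
    have h0 : (Zn + Z) (some β) = 0 := by
      rw [Finsupp.add_apply, hZn, zero_add]
      by_contra h
      exact hb (hZ (Finsupp.mem_support_iff.2 h))
    have hev : ∀ᶠ n in UU, ((Q.S n).E (rlx (Q.k n) (π n) (x n) (X + Z + t (some β))) ↔
        (Q.S n).E (rlx (Q.k n) (π n) (x n) (X + Z + t (some (cand Y β a (i + 1)))))) := by
      filter_upwards [hi] with n hn
      have h1 := hn (Zn + Z) hbel h0
      rw [hX, add_assoc (emb Y) Zn Z]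
      exact h1
    exact Filter.eventually_congr hev

/-- From `g3` and the copying property `hFC`. Let `v ∉ D` be outside `ClxI`. Let `a` bound the
indices of `D` and the supports, `j0` as in `g3`. By `hFC` for `X = S 0`, the finite set of all
elements of index `< j0 + a + 1` except `v`, and `b = v`, there is `v' = some (inr j)`, `j ≥ j0`,
`v' ∉ D`, with `limE (S c + t v) ↔ limE (S c + t v')` for `c = 0, 1, 2` (`S c = S 0 + Z`, and `v` is not
in the supports, as they are contained in `D`). By `g3` for `j`, for almost all `n` either some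
`S c + t v'` is realized by an edge, or one of finitely many candidates is a common neighbour of
two; the second is excluded by `hdis` (one candidate and one pair for almost all `n`). -/
theorem lim_3 (g3 : ∀ a (T : Fin 3 → Tg Clx), (∀ b, Bel a (T b)) →
      (∀ b, cnt ClxI Set.univ (T b) = -1) →
      ∃ j0, ∀ j ≥ j0, ∃ R, ∀ᶠ n in UU,
        (∃ b, (Q.S n).E (rlx (Q.k n) (π n) (x n) (T b + t (some (Sum.inr j))))) ∨
        ∃ i < R, ∃ b b', b ≠ b' ∧
        (Q.S n).E (rlx (Q.k n) (π n) (x n) (T b + t (some (Sum.inr (j + 1 + i))))) ∧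
        (Q.S n).E (rlx (Q.k n) (π n) (x n) (T b' + t (some (Sum.inr (j + 1 + i))))))
    (hFC : ∀ (X : Tg Clx) (D : Finset Clx) (b : Clx), b ∉ D → b ≠ none →
      ∃ b', b' ∉ D ∧ b' ≠ b ∧ (mem ClxI X b' ↔ mem ClxI X b) ∧
      ∀ Z : Tg Clx, Z.support ⊆ D → (limE Q π x (X + Z + t b) ↔ limE Q π x (X + Z + t b')))
    (S : Fin 3 → Tg Clx) (hS : ∀ a, cnt ClxI Set.univ (S a) = -1) (D : Finset Clx)
    (hD : ∀ a, (S a).support ⊆ D)
    (hdis : ∀ a b, a ≠ b → ∀ v, v ∉ D → v ∉ ClxI →
      ¬ (limE Q π x (S a + t v) ∧ limE Q π x (S b + t v)))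
    {v : Clx} (hv : v ∉ D) (hvI : v ∉ ClxI) : ∃ a, limE Q π x (S a + t v) := by
  obtain ⟨a, ha⟩ := genpwa_bound D
  obtain ⟨j0, hj0⟩ := g3 a S (fun b ω hω => ha ω (hD b hω)) hS
  -- the finite set of all elements of small index, except `v`
  let A : Finset Clx := insert none (((Finset.range (j0 + a + 1)).image fun i => some (Sum.inl i)) ∪
    ((Finset.range (j0 + a + 1)).image fun i => some (Sum.inr i)))
  have hA : ∀ ω, ω ∉ A → j0 + a < idx ω := by
    intro ω hω
    by_contra hcon
    apply hω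
    rcases ω with _ | i | j
    · exact Finset.mem_insert_self _ _
    · refine Finset.mem_insert_of_mem (Finset.mem_union_left _ (Finset.mem_image.2 ⟨i, ?_, rfl⟩))
      simp only [idx] at hcon
      rw [Finset.mem_range]
      omega
    · refine Finset.mem_insert_of_mem (Finset.mem_union_right _ (Finset.mem_image.2 ⟨j, ?_, rfl⟩))
      simp only [idx] at hcon
      rw [Finset.mem_range]
      omega
  have hvn : v ≠ none := fun h => hvI (Or.inl h)
  obtain ⟨v', h1, h2, h3, h4⟩ := hFC (S 0) (A.erase v) v (Finset.notMem_erase _ _) hvn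
  have hidx : j0 + a < idx v' := hA v' fun h => h1 (Finset.mem_erase.2 ⟨h2, h⟩)
  have hSz : ∀ c, ∀ ω, ω ∉ D → S c ω = 0 := fun c ω hω => by
    by_contra h
    exact hω (hD c (Finsupp.mem_support_iff.2 h))
  have hv'D : v' ∉ D := fun h => by
    have := ha _ h
    omega
  have hv'I : v' ∉ ClxI := by
    unfold mem at h3
    rw [hSz 0 v hv, hSz 0 v' hv'D] at h3
    simp only [iff_true] at h3
    rw [h3]
    exact hvI
  obtain ⟨j, rfl⟩ := genpwa_not_ClxI hv'I
  have hj : j0 + a < j := hidx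
  have htr : ∀ c, limE Q π x (S c + t v) ↔ limE Q π x (S c + t (some (Sum.inr j))) := by
    intro c
    have h5 := h4 (S 0 + S c) (by
      intro ω hω
      have hωD : ω ∈ D := by
        by_contra h
        rw [Finsupp.mem_support_iff, Finsupp.add_apply, hSz 0 ω h, hSz c ω h] at hω
        simp at hω
      rw [Finset.mem_erase]
      refine ⟨fun h => hv (h ▸ hωD), ?_⟩
      by_contra h
      have h6 := hA _ h
      have h7 := ha _ hωD
      omega)
    rwa [tg_add_self_left] at h5
  obtain ⟨R, hR⟩ := hj0 j (by omega)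
  rcases Ultrafilter.eventually_or.1 hR with h | h
  · obtain ⟨b, hb⟩ := genpwa_fin h
    exact ⟨b, (htr b).2 hb⟩
  · exfalso
    obtain ⟨i, _, hi⟩ := exists_lim_lt h
    obtain ⟨b, hb⟩ := genpwa_fin hi
    obtain ⟨b', hb'⟩ := genpwa_fin hb
    obtain ⟨n, hn⟩ := hb'.exists
    refine hdis b b' hn.1 (some (Sum.inr (j + 1 + i))) (fun h => ?_) (genpwa_inr_notMem _)
      ⟨hb'.mono fun n hn => hn.2.1, hb'.mono fun n hn => hn.2.2⟩
    have := ha _ h
    simp only [idx] at this
    omega

end Pool.Agent.Lib.MP_a572be_co
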