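import Pool.Agent.Lib.MP_a572be_co.Toggle

/-!
# Realizations of coded sets
-/

namespace Pool.Agent.Lib.MP_a572be_co

open Classical

variable {V Ω : Type}

/-- The set coded by `X` relative to the reference set `K0`, under the placement `e`. -/
noncomputable def real (K0 : Finset V) (e : Ω → V) (X : Tg Ω) : Finset V :=
  symmDiff K0 (X.support.image e)

/-- The placement `e` is injective on `D` and compatible with the reference sets there. -/
def Adm (I : Set Ω) (K0 : Finset V) (e : Ω → V) (D : Finset Ω) : Prop :=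
  Set.InjOn e D ∧ ∀ ω ∈ D, (e ω ∈ K0 ↔ ω ∈ I)

theorem genreal_mem_symm {A B : Finset V} {v : V} :
    v ∈ symmDiff A B ↔ ((v ∈ A ∧ v ∉ B) ∨ (v ∈ B ∧ v ∉ A)) := Finset.mem_symmDiff

/-- On `D`, the image of the support is detected by the support. -/
theorem genreal_image_iff {I : Set Ω} {K0 : Finset V} {e : Ω → V} {D : Finset Ω}
    (h : Adm I K0 e D) {X : Tg Ω} (hX : X.support ⊆ D) {x : Ω} (hx : x ∈ D) :
    e x ∈ X.support.image e ↔ X x ≠ 0 := by
  rw [Finset.mem_image]
  constructor
  · rintro ⟨y, hy, hyx⟩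
    have : y = x := h.1 (hX hy) hx hyx
    subst this
    exact Finsupp.mem_support_iff.mp hy
  · intro hne
    exact ⟨x, Finsupp.mem_support_iff.mpr hne, rfl⟩

theorem real_mem {I : Set Ω} {K0 : Finset V} {e : Ω → V} {D : Finset Ω} (h : Adm I K0 e D)
    {X : Tg Ω} (hX : X.support ⊆ D) {x : Ω} (hx : x ∈ D) :
    e x ∈ real K0 e X ↔ mem I X x := by
  unfold real mem
  rw [genreal_mem_symm, genreal_image_iff h hX hx, h.2 x hx]
  by_cases h1 : x ∈ I <;> by_cases h2 : X x = 0 <;> simp [h1, h2]

theorem genreal_supp_add {D : Finset Ω} {X : Tg Ω} (hX : X.support ⊆ D) {x : Ω} (hx : x ∈ D) :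
    (X + t x).support ⊆ D := by
  intro y hy
  by_cases hxy : x = y
  · subst hxy; exact hx
  · apply hX
    rw [Finsupp.mem_support_iff] at hy ⊢
    rw [Finsupp.add_apply, t_ne hxy, add_zero] at hy
    exact hy

/-- Away from `e x`, adding `t x` does not change the realization. -/
theorem genreal_add_ne {K0 : Finset V} {e : Ω → V} {X : Tg Ω} {x : Ω} {v : V} (hv : v ≠ e x) :
    v ∈ real K0 e (X + t x) ↔ v ∈ real K0 e X := by
  have himg : v ∈ (X + t x).support.image e ↔ v ∈ X.support.image e := by
    rw [Finset.mem_image, Finset.mem_image]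
    constructor
    · rintro ⟨y, hy, hyv⟩
      have hne : x ≠ y := by rintro rfl; exact hv hyv.symm
      refine ⟨y, ?_, hyv⟩
      rw [Finsupp.mem_support_iff] at hy ⊢
      rwa [Finsupp.add_apply, t_ne hne, add_zero] at hy
    · rintro ⟨y, hy, hyv⟩
      have hne : x ≠ y := by rintro rfl; exact hv hyv.symm
      refine ⟨y, ?_, hyv⟩
      rw [Finsupp.mem_support_iff] at hy ⊢
      rwa [Finsupp.add_apply, t_ne hne, add_zero]
  unfold real
  rw [genreal_mem_symm, genreal_mem_symm, himg]

theorem real_add_in {I : Set Ω} {K0 : Finset V} {e : Ω → V} {D : Finset Ω} (h : Adm I K0 e D)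
    {X : Tg Ω} (hX : X.support ⊆ D) {x : Ω} (hx : x ∈ D) (hm : mem I X x) :
    real K0 e (X + t x) = (real K0 e X).erase (e x) := by
  ext v
  by_cases hv : v = e x
  · subst hv
    have h1 : e x ∈ real K0 e (X + t x) ↔ mem I (X + t x) x :=
      real_mem h (genreal_supp_add hX hx) hx
    rw [h1, mem_add_t_self]
    simp [hm]
  · rw [genreal_add_ne hv, Finset.mem_erase]
    exact ⟨fun hh => ⟨hv, hh⟩, fun hh => hh.2⟩

theorem real_add_out {I : Set Ω} {K0 : Finset V} {e : Ω → V} {D : Finset Ω} (h : Adm I K0 e D)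
    {X : Tg Ω} (hX : X.support ⊆ D) {x : Ω} (hx : x ∈ D) (hm : ¬ mem I X x) :
    real K0 e (X + t x) = insert (e x) (real K0 e X) := by
  ext v
  by_cases hv : v = e x
  · subst hv
    have h1 : e x ∈ real K0 e (X + t x) ↔ mem I (X + t x) x :=
      real_mem h (genreal_supp_add hX hx) hx
    rw [h1, mem_add_t_self]
    simp [hm]
  · rw [genreal_add_ne hv, Finset.mem_insert]
    constructor
    · exact fun hh => Or.inr hh
    · rintro (hh | hh)
      · exact absurd hh hv
      · exact hh

theorem real_out {K0 : Finset V} {e : Ω → V} {X : Tg Ω} {v : V} (hv : v ∉ X.support.image e) :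
    v ∈ real K0 e X ↔ v ∈ K0 := by
  unfold real
  rw [genreal_mem_symm]
  constructor
  · rintro (hh | hh)
    · exact hh.1
    · exact absurd hh.1 hv
  · exact fun hh => Or.inl ⟨hh, hv⟩

/-- Dependence only on the values of `e` on the support. -/
theorem real_congr {K0 : Finset V} {e e' : Ω → V} {X : Tg Ω} (h : ∀ ω ∈ X.support, e ω = e' ω) :
    real K0 e X = real K0 e' X := by
  unfold real
  rw [Finset.image_congr (fun ω hω => h ω hω)]

/-- Elements of a realized set which belong to the label class `C` of the codes: for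
`X.support ⊆ D`, the elements of `real K0 e X` of the form `e ω` with `ω ∈ D ∩ C` are
`#{ω ∈ D | ω ∈ I, ω ∈ C} + cnt I C X` many. -/
theorem real_count {I : Set Ω} {K0 : Finset V} {e : Ω → V} {D : Finset Ω} (h : Adm I K0 e D)
    {X : Tg Ω} (hX : X.support ⊆ D) (C : Set Ω) :
    (((D.filter (fun ω => ω ∈ C)).filter (fun ω => e ω ∈ real K0 e X)).card : ℤ) =
      ((D.filter (fun ω => ω ∈ C)).filter (fun ω => ω ∈ I)).card + cnt I C X := by
  have hcnt : cnt I C X = ∑ x ∈ D, if X x = 0 then 0 else
      if x ∈ C then (if x ∈ I then (-1 : ℤ) else 1) else 0 := by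
    unfold cnt
    rw [← Finset.sum_subset hX (f := fun x => if X x = 0 then 0 else
      if x ∈ C then (if x ∈ I then (-1 : ℤ) else 1) else 0)]
    · apply Finset.sum_congr rfl
      intro x hx
      rw [Finsupp.mem_support_iff] at hx
      simp [hx]
    · intro x _ hx
      rw [Finsupp.notMem_support_iff] at hx
      simp [hx]
  rw [hcnt, Finset.card_filter, Finset.card_filter]
  push_cast
  rw [Finset.sum_filter, Finset.sum_filter, ← Finset.sum_add_distrib]
  apply Finset.sum_congr rfl
  intro x hx
  have h1 := real_mem h hX hx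
  unfold mem at h1
  by_cases hm : e x ∈ real K0 e X
  · have h2 := h1.mp hm
    by_cases hC : x ∈ C <;> by_cases hI : x ∈ I <;> by_cases h0 : X x = 0 <;>
      simp [hC, hI, h0, hm] at h2 ⊢
  · have h2 : ¬ (x ∈ I ↔ X x = 0) := fun hh => hm (h1.mpr hh)
    by_cases hC : x ∈ C <;> by_cases hI : x ∈ I <;> by_cases h0 : X x = 0 <;>
      simp [hC, hI, h0, hm] at h2 ⊢

theorem real_card {I : Set Ω} {K0 : Finset V} {e : Ω → V} {D : Finset Ω} (h : Adm I K0 e D)
    {X : Tg Ω} (hX : X.support ⊆ D) :
    ((real K0 e X).card : ℤ) = K0.card + cnt I Set.univ X := by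
  -- split along membership in the image of `D`
  have hsplit : ∀ A : Finset V, (A.card : ℤ) =
      ((A.filter (fun v => v ∈ D.image e)).card : ℤ) + (A.filter (fun v => v ∉ D.image e)).card := by
    intro A
    have := Finset.card_filter_add_card_filter_not (s := A) (fun v => v ∈ D.image e)
    exact_mod_cast this.symm
  have hin : ∀ A : Finset V, (A.filter (fun v => v ∈ D.image e)).card =
      (D.filter (fun ω => e ω ∈ A)).card := by
    intro A
    have hinj : Set.InjOn e (D.filter (fun ω => e ω ∈ A) : Finset Ω) := by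
      intro a ha b hb hab
      exact h.1 (Finset.mem_of_mem_filter a ha) (Finset.mem_of_mem_filter b hb) hab
    rw [← Finset.card_image_of_injOn hinj]
    congr 1
    ext v
    simp only [Finset.mem_filter, Finset.mem_image]
    constructor
    · rintro ⟨hvA, ω, hω, rfl⟩
      exact ⟨ω, ⟨hω, hvA⟩, rfl⟩
    · rintro ⟨ω, ⟨hω, hωA⟩, rfl⟩
      exact ⟨hωA, ω, hω, rfl⟩
  have hout : (real K0 e X).filter (fun v => v ∉ D.image e) = K0.filter (fun v => v ∉ D.image e) := by
    ext v
    simp only [Finset.mem_filter]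
    constructor
    · rintro ⟨hv, hvD⟩
      refine ⟨?_, hvD⟩
      have : v ∉ X.support.image e := fun hh => hvD (Finset.image_subset_image hX hh)
      exact (real_out this).mp hv
    · rintro ⟨hv, hvD⟩
      refine ⟨?_, hvD⟩
      have : v ∉ X.support.image e := fun hh => hvD (Finset.image_subset_image hX hh)
      exact (real_out this).mpr hv
  have hc := real_count h hX Set.univ
  simp only [Set.mem_univ, Finset.filter_true] at hc
  have hK : D.filter (fun ω => ω ∈ I) = D.filter (fun ω => e ω ∈ K0) := by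
    apply Finset.filter_congr
    intro ω hω
    exact (h.2 ω hω).symm
  rw [hK] at hc
  rw [hsplit (real K0 e X), hsplit K0, hin, hin, hout, hc]
  ring

end Pool.Agent.Lib.MP_a572be_co
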