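import Mathlib

/-!
# The selection lemma
-/

namespace Pool.Agent.Lib.MP_a572be_co

open Classical

theorem gensel_geom (m : ℕ) : ∑ j ∈ Finset.range m, ((1 : ℝ) / 2) ^ (j + 2) < 1 := by
  have h : ∀ m : ℕ, ∑ j ∈ Finset.range m, ((1 : ℝ) / 2) ^ (j + 2)
      = 1 / 2 - (1 / 2) ^ (m + 1) := by
    intro m
    induction m with
    | zero => norm_num
    | succ k ih => rw [Finset.sum_range_succ, ih]; ring
  rw [h]
  have : (0 : ℝ) < (1 / 2) ^ (m + 1) := by positivity
  linarith

theorem gensel_pick {P : Type} [Fintype P] [Nonempty P] (m : ℕ) (c : ℕ → P → ℝ)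
    (h : ∀ j < m, ∑ π, c j π ≤ ((1 : ℝ) / 2) ^ (j + 2) * Fintype.card P) :
    ∃ π, ∑ j ∈ Finset.range m, c j π < 1 := by
  have hpos : (0 : ℝ) < Fintype.card P := by exact_mod_cast Fintype.card_pos
  have h1 : ∑ π, ∑ j ∈ Finset.range m, c j π < ∑ _π : P, (1 : ℝ) := by
    rw [Finset.sum_comm]
    calc ∑ j ∈ Finset.range m, ∑ π, c j π
        ≤ ∑ j ∈ Finset.range m, ((1 : ℝ) / 2) ^ (j + 2) * Fintype.card P :=
          Finset.sum_le_sum (fun j hj => h j (Finset.mem_range.1 hj))
      _ = (∑ j ∈ Finset.range m, ((1 : ℝ) / 2) ^ (j + 2)) * Fintype.card P := by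
          rw [Finset.sum_mul]
      _ < 1 * Fintype.card P := by
          exact mul_lt_mul_of_pos_right (gensel_geom m) hpos
      _ = ∑ _π : P, (1 : ℝ) := by simp
  obtain ⟨π, -, hπ⟩ := Finset.exists_lt_of_sum_lt h1
  exact ⟨π, hπ⟩

theorem gensel_elem {V : Type} (F : Finset V) (hF : F.Nonempty) (m : ℕ) (S : ℕ → Prop)
    (B : ℕ → V → Prop)
    (h : ∑ j ∈ Finset.range m, (if S j then ((F.filter (B j)).card : ℝ) / F.card else 0) < 1) :
    ∃ x ∈ F, ∀ j < m, S j → ¬ B j x := by
  by_contra hcon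
  push Not at hcon
  have hFpos : (0 : ℝ) < F.card := by exact_mod_cast hF.card_pos
  have hsub : F ⊆ ((Finset.range m).filter S).biUnion (fun j => F.filter (B j)) := by
    intro x hx
    obtain ⟨j, hj, hS, hB⟩ := hcon x hx
    rw [Finset.mem_biUnion]
    exact ⟨j, by simp [hj, hS], by simp [hx, hB]⟩
  have hcard : (F.card : ℝ) ≤ ∑ j ∈ (Finset.range m).filter S, ((F.filter (B j)).card : ℝ) := by
    have := (Finset.card_le_card hsub).trans Finset.card_biUnion_le
    exact_mod_cast this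
  have h2 : ∑ j ∈ Finset.range m, (if S j then ((F.filter (B j)).card : ℝ) / F.card else 0)
      = (∑ j ∈ (Finset.range m).filter S, ((F.filter (B j)).card : ℝ)) / F.card := by
    rw [← Finset.sum_filter, Finset.sum_div]
  rw [h2, div_lt_one hFpos] at h
  linarith

/-- **Selection lemma.** For every `n` let `Ωn` be a nonempty finite set (the placements), and for
every formula `φ` let `F φ n π` be a finite set. For every requirement `i` and every `φ` the average
over `π ∈ Ωn` of the fraction of the elements `x ∈ F φ n π` which are bad for `i` (with parameter `R`)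
becomes as small as we wish, for suitable `R` and then `n` large. Then one can choose `R φ i`,
`π n ∈ Ωn`, and `x φ n ∈ F φ n (π n)` (if nonempty), such that for all `φ`, `i` the element `x φ n` is
not bad for `i` with parameter `R φ i`, for all large `n`.

Proof. Let `e : ℕ → Φ × ι` be surjective (`exists_surjective_nat`, or by `Countable`), choose `R j`,
`n0 j` for `e j` and `δ = 2^{-(j+2)}`. For `m` and `n ≥ n0 0, ..., n0 (m-1)` the average over `π` of
`∑_{j<m} cost_j(π)` is `< 1`, `cost_j(π)` the fraction of bad elements of `F φ n π`, `(φ, i) = e j`; so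
some `π` has `∑_{j<m} cost_j(π) < 1`. Let `m(n)` be the largest `m ≤ n` with `n0 j ≤ n` for all `j < m`;
`m(n) → ∞`; choose `π n` for `m = m(n)`. For every `φ` the elements of `F φ n (π n)` which are bad for
some `j < m(n)` with `(e j).1 = φ` are fewer than all, so choose `x φ n` not bad for all those `j`.
Put `R φ i = R j` for a fixed `j` with `e j = (φ, i)`. -/
theorem selection {Φ ι : Type} [Countable Φ] [Countable ι] [Nonempty Φ] [Nonempty ι]
    (P : ℕ → Type) (V : ℕ → Type) [∀ n, Fintype (P n)] [∀ n, Nonempty (P n)]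
    [∀ n, Nonempty (V n)] (F : Φ → ∀ n, P n → Finset (V n))
    (bad : Φ → ι → ℕ → ∀ n, P n → V n → Prop)
    (h : ∀ φ i (δ : ℝ), 0 < δ → ∃ R n0, ∀ n ≥ n0,
      ∑ π, (((F φ n π).filter (bad φ i R n π)).card : ℝ) / (F φ n π).card ≤
        δ * Fintype.card (P n)) :
    ∃ (R : Φ → ι → ℕ) (π : ∀ n, P n) (x : Φ → ∀ n, V n), ∀ φ i, ∃ n0, ∀ n ≥ n0,
      (F φ n (π n)).Nonempty →
        x φ n ∈ F φ n (π n) ∧ ¬ bad φ i (R φ i) n (π n) (x φ n) := by
  obtain ⟨e, he⟩ := exists_surjective_nat (Φ × ι)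
  have h' : ∀ j : ℕ, ∃ R n0, ∀ n ≥ n0,
      ∑ π, (((F (e j).1 n π).filter (bad (e j).1 (e j).2 R n π)).card : ℝ) /
        (F (e j).1 n π).card ≤ ((1 : ℝ) / 2) ^ (j + 2) * Fintype.card (P n) :=
    fun j => h (e j).1 (e j).2 _ (by positivity)
  choose Rj n0 hR using h'
  let M : ℕ → ℕ := fun n => Nat.findGreatest (fun m => ∀ j < m, n0 j ≤ n) n
  have hM : ∀ n, ∀ j < M n, n0 j ≤ n := by
    intro n
    exact Nat.findGreatest_spec (P := fun m => ∀ j < m, n0 j ≤ n) (Nat.zero_le n)
      (fun j hj => absurd hj (Nat.not_lt_zero j))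
  have hpi : ∀ n, ∃ π : P n, ∑ j ∈ Finset.range (M n),
      (((F (e j).1 n π).filter (bad (e j).1 (e j).2 (Rj j) n π)).card : ℝ) /
        (F (e j).1 n π).card < 1 := by
    intro n
    exact gensel_pick (M n) (fun j π =>
      (((F (e j).1 n π).filter (bad (e j).1 (e j).2 (Rj j) n π)).card : ℝ) /
        (F (e j).1 n π).card) (fun j hj => hR j n (hM n j hj))
  choose π hπ using hpi
  have hx : ∀ (φ : Φ) (n : ℕ), ∃ x : V n, (F φ n (π n)).Nonempty → x ∈ F φ n (π n) ∧
      ∀ j < M n, (e j).1 = φ → ¬ bad φ (e j).2 (Rj j) n (π n) x := by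
    intro φ n
    by_cases hne : (F φ n (π n)).Nonempty
    · obtain ⟨x, hxF, hxb⟩ := gensel_elem (F φ n (π n)) hne (M n) (fun j => (e j).1 = φ)
        (fun j x => bad φ (e j).2 (Rj j) n (π n) x) (by
          refine lt_of_le_of_lt (Finset.sum_le_sum (fun j _ => ?_)) (hπ n)
          split_ifs with hj
          · subst hj
            exact le_rfl
          · positivity)
      exact ⟨x, fun _ => ⟨hxF, hxb⟩⟩
    · exact ⟨Classical.arbitrary _, fun h => absurd h hne⟩
  choose x hx using hx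
  choose J hJ using he
  refine ⟨fun φ i => Rj (J (φ, i)), π, x, fun φ i => ?_⟩
  refine ⟨J (φ, i) + 1 + ∑ j ∈ Finset.range (J (φ, i) + 1), n0 j, fun n hn hne => ?_⟩
  obtain ⟨h1, h2⟩ := hx φ n hne
  refine ⟨h1, ?_⟩
  have hJM : J (φ, i) < M n := by
    have : J (φ, i) + 1 ≤ M n := by
      apply Nat.le_findGreatest (by omega)
      intro j hj
      have : n0 j ≤ ∑ j ∈ Finset.range (J (φ, i) + 1), n0 j :=
        Finset.single_le_sum (f := n0) (fun _ _ => Nat.zero_le _) (Finset.mem_range.2 hj)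
      omega
    omega
  have h3 := h2 (J (φ, i)) hJM (by rw [hJ])
  rw [hJ] at h3
  exact h3

end Pool.Agent.Lib.MP_a572be_co
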