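import Pool.Agent.Lib.MP_a572be_co.GenFC
import Pool.Agent.Lib.MP_a572be_co.GenCost
import Pool.Agent.Lib.MP_a572be_co.GenSel

/-!
# Sequences of coloured systems, requirements
-/

namespace Pool.Agent.Lib.MP_a572be_co

open Classical

/-- A sequence of coloured systems of codegree density tending to `1/3`, with `k → ∞` and
`k / N → 0`. -/
structure BSeq (r : ℕ) where
  k : ℕ → ℕ
  N : ℕ → ℕ
  ne : ∀ n, NeZero (N n)
  S : ∀ n, CSys (k n) r (Fin (N n))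
  hk : ∀ n, n + 1 ≤ k n
  hN : ∀ n, (n + 1) * (k n + 1) ≤ N n
  hr : ∀ n, r ∣ k n
  cod : ∀ n, Cod (S n) (1 / 3 - 1 / ((n : ℝ) + 1))

attribute [instance] BSeq.ne

/-- The types of requirements (with a bound `a` for the indices). -/
abbrev Rq : Type :=
  ℕ × (Tg Clx ⊕ (Fin 4 → Tg Clx) ⊕ (ℕ × (Fin 3 → Tg Clx)) ⊕ (Tg Cl × Cl) ⊕ Unit)

variable {r : ℕ} (Q : BSeq r)

/-- No neighbour of `T` among `R` candidates. -/
def badN (φ : Fml Cl) (a : ℕ) (T : Tg Clx) (R n : ℕ) (π : Equiv.Perm (Fin (Q.N n)))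
    (x : Fin (Q.N n)) : Prop :=
  (FBel a φ ∧ Bel a T ∧ cnt ClxI Set.univ T = -1) ∧ Off (Q.k n) a π x ∧
    ∀ i < R, ¬ (Q.S n).E (rlx (Q.k n) π x (T + t (some (Sum.inr (a + i)))))

/-- No common neighbour of two of the four sets among `R` candidates. -/
def bad4 (φ : Fml Cl) (a : ℕ) (T : Fin 4 → Tg Clx) (R n : ℕ) (π : Equiv.Perm (Fin (Q.N n)))
    (x : Fin (Q.N n)) : Prop :=
  (FBel a φ ∧ (∀ b, Bel a (T b)) ∧ ∀ b, cnt ClxI Set.univ (T b) = -1) ∧ Off (Q.k n) a π x ∧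
    ∀ i < R, ¬ ∃ b b', b ≠ b' ∧
      (Q.S n).E (rlx (Q.k n) π x (T b + t (some (Sum.inr (a + i))))) ∧
      (Q.S n).E (rlx (Q.k n) π x (T b' + t (some (Sum.inr (a + i)))))

/-- `inr j` is not a neighbour of one of the three sets, and no common neighbour of two of them
among `R` candidates. -/
def bad3 (φ : Fml Cl) (a j : ℕ) (T : Fin 3 → Tg Clx) (R n : ℕ) (π : Equiv.Perm (Fin (Q.N n)))
    (x : Fin (Q.N n)) : Prop :=
  (FBel a φ ∧ (∀ b, Bel a (T b)) ∧ (∀ b, cnt ClxI Set.univ (T b) = -1) ∧ a ≤ j) ∧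
    Off (Q.k n) a π x ∧
    (∀ b, ¬ (Q.S n).E (rlx (Q.k n) π x (T b + t (some (Sum.inr j))))) ∧
    ∀ i < R, ¬ ∃ b b', b ≠ b' ∧
      (Q.S n).E (rlx (Q.k n) π x (T b + t (some (Sum.inr (j + 1 + i))))) ∧
      (Q.S n).E (rlx (Q.k n) π x (T b' + t (some (Sum.inr (j + 1 + i)))))

/-- `b` is not copied by one of `R` candidates. -/
def badFC (φ : Fml Cl) (a : ℕ) (Y : Tg Cl) (b : Cl) (R n : ℕ) (π : Equiv.Perm (Fin (Q.N n)))
    (x : Fin (Q.N n)) : Prop :=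
  (FBel a φ ∧ FVal φ ∧ (∀ ω ∈ Y.support, idx (some ω) < a) ∧ idx (some b) < a) ∧
    Off (Q.k n) (a + R) π x ∧
    ∀ i < R, ∃ Z : Tg Clx, Bel a Z ∧ Z (some b) = 0 ∧
      ¬ ((Q.S n).E (rlx (Q.k n) π x (emb Y + Z + t (some b))) ↔
        (Q.S n).E (rlx (Q.k n) π x (emb Y + Z + t (some (cand Y b a (i + 1))))))

/-- The special element is on the cloud (only for the trivial formula). -/
def badOff (φ : Fml Cl) (a _R n : ℕ) (π : Equiv.Perm (Fin (Q.N n))) (x : Fin (Q.N n)) : Prop :=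
  (φ.m = 0 ∧ φ.q = 0) ∧ ¬ Off (Q.k n) a π x

/-- All bad events. -/
def bad (φ : Fml Cl) (i : Rq) (R n : ℕ) (π : Equiv.Perm (Fin (Q.N n))) (x : Fin (Q.N n)) : Prop :=
  match i with
  | (a, Sum.inl T) => badN Q φ a T R n π x
  | (a, Sum.inr (Sum.inl T)) => bad4 Q φ a T R n π x
  | (a, Sum.inr (Sum.inr (Sum.inl (j, T)))) => bad3 Q φ a j T R n π x
  | (a, Sum.inr (Sum.inr (Sum.inr (Sum.inl (Y, b))))) => badFC Q φ a Y b R n π x
  | (a, Sum.inr (Sum.inr (Sum.inr (Sum.inr ())))) => badOff Q φ a R n π x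

end Pool.Agent.Lib.MP_a572be_co
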