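import Pool.Agent.Lib.MP_a572be_co.LabDefs

namespace Pool.Agent.Lib.MP_a572be_co

open Classical

theorem labbasic_adj_symm {V : Type} {E : Set (Finset V)} {k : ℕ} {f g : Fin k → V}
    (h : LAdj E k f g) : LAdj E k g f := by
  obtain ⟨h1, h2, i, hi⟩ := h
  exact ⟨h2, h1, i, fun j hj => (hi j hj).symm⟩

theorem labbasic_conn_symm {V : Type} {E : Set (Finset V)} {k : ℕ} {f g : Fin k → V}
    (h : LConn E k f g) : LConn E k g f := by
  induction h with
  | refl => exact Relation.ReflTransGen.refl
  | tail _ h2 ih => exact (Relation.ReflTransGen.single (labbasic_adj_symm h2)).trans ih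

theorem labbasic_edge_comp {V : Type} {E : Set (Finset V)} {k : ℕ} {f : Fin k → V}
    (h : LEdge E k f) (σ : Equiv.Perm (Fin k)) : LEdge E k (f ∘ σ) := by
  refine ⟨h.1.comp σ.injective, ?_⟩
  have : Finset.univ.image (f ∘ σ) = Finset.univ.image f := by
    ext v
    simp only [Finset.mem_image, Finset.mem_univ, true_and, Function.comp_apply]
    constructor
    · rintro ⟨i, rfl⟩
      exact ⟨σ i, rfl⟩
    · rintro ⟨i, rfl⟩
      exact ⟨σ.symm i, by rw [σ.apply_symm_apply]⟩
  rw [this]
  exact h.2

theorem labbasic_adj_comp {V : Type} {E : Set (Finset V)} {k : ℕ} {f g : Fin k → V}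
    (h : LAdj E k f g) (σ : Equiv.Perm (Fin k)) : LAdj E k (f ∘ σ) (g ∘ σ) := by
  obtain ⟨h1, h2, i, hi⟩ := h
  refine ⟨labbasic_edge_comp h1 σ, labbasic_edge_comp h2 σ, σ.symm i, ?_⟩
  intro j hj
  refine hi (σ j) ?_
  rintro rfl
  exact hj (by rw [σ.symm_apply_apply])

theorem labbasic_conn_comp {V : Type} {E : Set (Finset V)} {k : ℕ} {f g : Fin k → V}
    (h : LConn E k f g) (σ : Equiv.Perm (Fin k)) : LConn E k (f ∘ σ) (g ∘ σ) := by
  induction h with
  | refl => exact Relation.ReflTransGen.refl
  | tail _ h2 ih => exact ih.tail (labbasic_adj_comp h2 σ)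

/-- Equivalence of some and every labelling in the definition of `cRel`: two labelled edges
`f`, `g` with the same image differ by a permutation `σ` of `Fin k`, and
`LConn f (s ∘ f) → LConn (f ∘ σ) (s ∘ f ∘ σ)`. -/
theorem cRel_all {V : Type} {E : Set (Finset V)} {k : ℕ} {K : Finset V} {x y : V}
    (h : cRel E k K x y) {f : Fin k → V} (hf : LEdge E k f) (hK : Finset.univ.image f = K) :
    LConn E k f (fun i => Equiv.swap x y (f i)) := by
  obtain ⟨-, -, f0, hf0, hK0, hc⟩ := h
  have hex : ∀ i, ∃ j, f0 j = f i := by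
    intro i
    have : f i ∈ Finset.univ.image f0 := by
      rw [hK0, ← hK]
      exact Finset.mem_image_of_mem f (Finset.mem_univ i)
    obtain ⟨j, -, hj⟩ := Finset.mem_image.mp this
    exact ⟨j, hj⟩
  choose s hs using hex
  have hinj : Function.Injective s := by
    intro i j hij
    apply hf.1
    rw [← hs i, ← hs j, hij]
  let σ : Equiv.Perm (Fin k) := Equiv.ofBijective s (Finite.injective_iff_bijective.mp hinj)
  have h1 := labbasic_conn_comp hc σ
  have h2 : f0 ∘ σ = f := funext hs
  have h3 : (fun i => Equiv.swap x y (f0 i)) ∘ σ = fun i => Equiv.swap x y (f i) := by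
    funext i
    show Equiv.swap x y (f0 (s i)) = _
    rw [hs]
  rw [h2, h3] at h1
  exact h1

theorem labbasic_exists {V : Type} {k : ℕ} {K : Finset V} (hK : K.card = k) :
    ∃ f : Fin k → V, Function.Injective f ∧ Finset.univ.image f = K := by
  let e := (K.equivFinOfCardEq hK).symm
  refine ⟨fun i => (e i : V), fun i j hij => e.injective (Subtype.ext hij), ?_⟩
  ext v
  simp only [Finset.mem_image, Finset.mem_univ, true_and]
  constructor
  · rintro ⟨i, rfl⟩
    exact (e i).2
  · intro hv
    exact ⟨e.symm ⟨v, hv⟩, by rw [e.apply_symm_apply]⟩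

/-- changing one place -/
theorem labbasic_update {V : Type} {k : ℕ} {K : Finset V} {f : Fin k → V}
    (hf : Function.Injective f) (hK : Finset.univ.image f = K) (i : Fin k) {w : V} (hw : w ∉ K) :
    Function.Injective (Function.update f i w) ∧
      Finset.univ.image (Function.update f i w) = insert w (K.erase (f i)) := by
  have hmem : ∀ j, f j ∈ K := fun j => by
    rw [← hK]
    exact Finset.mem_image_of_mem f (Finset.mem_univ j)
  constructor
  · intro a b hab
    by_cases ha : a = i
    · by_cases hb : b = i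
      · rw [ha, hb]
      · subst ha
        rw [Function.update_self, Function.update_of_ne hb] at hab
        exact absurd (hab ▸ hmem b) hw
    · by_cases hb : b = i
      · subst hb
        rw [Function.update_self, Function.update_of_ne ha] at hab
        exact absurd (hab ▸ hmem a) hw
      · rw [Function.update_of_ne ha, Function.update_of_ne hb] at hab
        exact hf hab
  · ext v
    simp only [Finset.mem_image, Finset.mem_univ, true_and, Finset.mem_insert, Finset.mem_erase]
    constructor
    · rintro ⟨a, rfl⟩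
      by_cases ha : a = i
      · subst ha
        left
        rw [Function.update_self]
      · right
        rw [Function.update_of_ne ha]
        exact ⟨fun h => ha (hf h), hmem a⟩
    · rintro (rfl | ⟨h1, h2⟩)
      · exact ⟨i, by rw [Function.update_self]⟩
      · rw [← hK] at h2
        obtain ⟨a, -, rfl⟩ := Finset.mem_image.mp h2
        refine ⟨a, ?_⟩
        rw [Function.update_of_ne]
        rintro rfl
        exact h1 rfl

theorem labbasic_swap_edge {V : Type} {E : Set (Finset V)} {k : ℕ} {K : Finset V} {x y : V}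
    (hKE : K ∈ E) (hx : x ∈ K) (hy : y ∈ K) {f : Fin k → V} (hf : Function.Injective f)
    (hK : Finset.univ.image f = K) :
    LEdge E k (fun i => Equiv.swap x y (f i)) ∧
      Finset.univ.image (fun i => Equiv.swap x y (f i)) = K := by
  have himg : Finset.univ.image (fun i => Equiv.swap x y (f i)) = K := by
    have hsub : ∀ v ∈ K, Equiv.swap x y v ∈ K := by
      intro v hv
      by_cases h1 : v = x
      · subst h1
        rw [Equiv.swap_apply_left]
        exact hy
      · by_cases h2 : v = y
        · subst h2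
          rw [Equiv.swap_apply_right]
          exact hx
        · rw [Equiv.swap_apply_of_ne_of_ne h1 h2]
          exact hv
    ext v
    simp only [Finset.mem_image, Finset.mem_univ, true_and]
    constructor
    · rintro ⟨i, rfl⟩
      apply hsub
      rw [← hK]
      exact Finset.mem_image_of_mem f (Finset.mem_univ i)
    · intro hv
      have h1 := hsub v hv
      rw [← hK] at h1
      obtain ⟨i, -, hi⟩ := Finset.mem_image.mp h1
      exact ⟨i, by rw [hi, Equiv.swap_apply_self]⟩
  refine ⟨⟨(Equiv.swap x y).injective.comp hf, ?_⟩, himg⟩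
  rw [himg]
  exact hKE

/-- replacing `x ∈ K` by `v ∉ K` -/
theorem labbasic_move_adj {V : Type} {E : Set (Finset V)} {k : ℕ} {K : Finset V} {x v : V}
    (hKE : K ∈ E) (hx : x ∈ K) (hv : v ∉ K) (hK' : insert v (K.erase x) ∈ E)
    {f : Fin k → V} (hf : Function.Injective f) (hK : Finset.univ.image f = K) :
    LAdj E k f (fun i => Equiv.swap x v (f i)) ∧
      Finset.univ.image (fun i => Equiv.swap x v (f i)) = insert v (K.erase x) := by
  have hx' := hx
  rw [← hK] at hx'
  obtain ⟨i, -, hi⟩ := Finset.mem_image.mp hx'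
  have heq : (fun i => Equiv.swap x v (f i)) = Function.update f i v := by
    funext j
    by_cases hj : j = i
    · subst hj
      rw [Function.update_self, hi, Equiv.swap_apply_left]
    · rw [Function.update_of_ne hj, Equiv.swap_apply_of_ne_of_ne]
      · rw [← hi]
        exact fun h => hj (hf h)
      · rintro rfl
        apply hv
        rw [← hK]
        exact Finset.mem_image_of_mem f (Finset.mem_univ j)
  obtain ⟨h1, h2⟩ := labbasic_update hf hK i hv
  rw [hi] at h2
  rw [heq]
  refine ⟨⟨⟨hf, by rw [hK]; exact hKE⟩, ⟨h1, by rw [h2]; exact hK'⟩, i, ?_⟩, h2⟩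
  intro j hj
  rw [Function.update_of_ne hj]

theorem labbasic_move {V : Type} {E : Set (Finset V)} {k : ℕ} (hE : ∀ e ∈ E, e.card = k)
    {K : Finset V} {x v a b : V} (hKE : K ∈ E) (hx : x ∈ K) (hv : v ∉ K)
    (hK' : insert v (K.erase x) ∈ E) (hab : cRel E k K a b) :
    cRel E k (insert v (K.erase x)) (Equiv.swap x v a) (Equiv.swap x v b) := by
  obtain ⟨f, hf, himg⟩ := labbasic_exists (hE K hKE)
  have ha := hab.1
  have hb := hab.2.1
  have hc := cRel_all hab ⟨hf, by rw [himg]; exact hKE⟩ himg
  obtain ⟨h1, h2⟩ := labbasic_move_adj hKE hx hv hK' hf himg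
  obtain ⟨h3, h4⟩ := labbasic_swap_edge hKE ha hb hf himg
  obtain ⟨h5, -⟩ := labbasic_move_adj hKE hx hv hK' h3.1 h4
  have hmem : ∀ w ∈ K, Equiv.swap x v w ∈ insert v (K.erase x) := by
    intro w hw
    rw [← h2]
    rw [← himg] at hw
    obtain ⟨i, -, rfl⟩ := Finset.mem_image.mp hw
    exact Finset.mem_image.mpr ⟨i, Finset.mem_univ i, rfl⟩
  refine ⟨hmem a ha, hmem b hb, fun i => Equiv.swap x v (f i), h1.2.1, h2, ?_⟩
  have heq : (fun i => Equiv.swap (Equiv.swap x v a) (Equiv.swap x v b)
      ((fun i => Equiv.swap x v (f i)) i)) =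
      fun i => Equiv.swap x v (Equiv.swap a b (f i)) := by
    funext i
    have h6 := Equiv.mul_swap_eq_swap_mul (Equiv.swap x v) a b
    exact (DFunLike.congr_fun h6 (f i)).symm
  rw [heq]
  exact (Relation.ReflTransGen.single (labbasic_adj_symm h1)).trans
    (hc.trans (Relation.ReflTransGen.single h5))

theorem labbasic_swap {V : Type} {E : Set (Finset V)} {k : ℕ} (hE : ∀ e ∈ E, e.card = k)
    {K : Finset V} {x y v : V} (hKE : K ∈ E) (hx : x ∈ K) (hy : y ∈ K) (hv : v ∉ K)
    (hx' : insert v (K.erase x) ∈ E) (hy' : insert v (K.erase y) ∈ E) : cRel E k K x y := by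
  obtain ⟨f, hf, himg⟩ := labbasic_exists (hE K hKE)
  refine ⟨hx, hy, f, ⟨hf, by rw [himg]; exact hKE⟩, himg, ?_⟩
  by_cases hxy : x = y
  · subst hxy
    have : (fun i => Equiv.swap x x (f i)) = f := by
      funext i
      rw [Equiv.swap_self]
      rfl
    rw [this]
    exact Relation.ReflTransGen.refl
  -- first step: `x` becomes `v`
  obtain ⟨h1, h2⟩ := labbasic_move_adj hKE hx hv hx' hf himg
  have hxv : x ≠ v := fun h => hv (h ▸ hx)
  have hyv : y ≠ v := fun h => hv (h ▸ hy)
  -- second step: `y` becomes `x`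
  have hy1 : y ∈ insert v (K.erase x) :=
    Finset.mem_insert_of_mem (Finset.mem_erase.mpr ⟨Ne.symm hxy, hy⟩)
  have hx1 : x ∉ insert v (K.erase x) := by
    simp [hxv]
  have himg2 : insert x ((insert v (K.erase x)).erase y) = insert v (K.erase y) := by
    ext w
    simp only [Finset.mem_insert, Finset.mem_erase]
    constructor
    · rintro (rfl | ⟨h3, h4 | ⟨h4, h5⟩⟩)
      · exact Or.inr ⟨hxy, hx⟩
      · exact Or.inl h4
      · exact Or.inr ⟨h3, h5⟩
    · rintro (rfl | ⟨h3, h4⟩)
      · exact Or.inr ⟨Ne.symm hyv, Or.inl rfl⟩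
      · by_cases h5 : w = x
        · exact Or.inl h5
        · exact Or.inr ⟨h3, Or.inr ⟨h5, h4⟩⟩
  obtain ⟨h3, h4⟩ := labbasic_move_adj hx' hy1 hx1 (by rw [himg2]; exact hy') h1.2.1.1 h2
  rw [himg2] at h4
  -- third step: `v` becomes `y`
  have hv2 : v ∈ insert v (K.erase y) := Finset.mem_insert_self _ _
  have hy2 : y ∉ insert v (K.erase y) := by
    simp [hyv]
  have himg3 : insert y ((insert v (K.erase y)).erase v) = K := by
    ext w
    simp only [Finset.mem_insert, Finset.mem_erase]
    constructor
    · rintro (rfl | ⟨h3, h4 | ⟨h4, h5⟩⟩)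
      · exact hy
      · exact absurd h4 h3
      · exact h5
    · intro hw
      by_cases h5 : w = y
      · exact Or.inl h5
      · exact Or.inr ⟨fun h => hv (h ▸ hw), Or.inr ⟨h5, hw⟩⟩
  obtain ⟨h5, -⟩ := labbasic_move_adj hy' hv2 hy2 (by rw [himg3]; exact hKE) h3.2.1.1 h4
  have hfin : (fun i => Equiv.swap v y (Equiv.swap y x (Equiv.swap x v (f i)))) =
      fun i => Equiv.swap x y (f i) := by
    funext i
    have hfv : f i ≠ v := by
      intro h
      apply hv
      rw [← h, ← himg]
      exact Finset.mem_image_of_mem f (Finset.mem_univ i)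
    by_cases h6 : f i = x
    · rw [h6, Equiv.swap_apply_left, Equiv.swap_apply_left,
        Equiv.swap_apply_of_ne_of_ne (Ne.symm hyv) (Ne.symm hxv), Equiv.swap_apply_left]
    · rw [Equiv.swap_apply_of_ne_of_ne h6 hfv]
      by_cases h7 : f i = y
      · rw [h7, Equiv.swap_apply_left, Equiv.swap_apply_right,
          Equiv.swap_apply_of_ne_of_ne hxv hxy]
      · rw [Equiv.swap_apply_of_ne_of_ne h7 h6, Equiv.swap_apply_of_ne_of_ne hfv h7,
          Equiv.swap_apply_of_ne_of_ne h6 h7]
  rw [← hfin]
  exact ((Relation.ReflTransGen.single h1).tail h3).tail h5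

theorem labbasic_trans {V : Type} {E : Set (Finset V)} {k : ℕ} (hE : ∀ e ∈ E, e.card = k)
    {K : Finset V} {x y z : V} (hKE : K ∈ E) (h1 : cRel E k K x y) (h2 : cRel E k K y z) :
    cRel E k K x z := by
  by_cases hxy : x = y
  · rw [hxy]; exact h2
  obtain ⟨f, hf, himg⟩ := labbasic_exists (hE K hKE)
  refine ⟨h1.1, h2.2.1, f, ⟨hf, by rw [himg]; exact hKE⟩, himg, ?_⟩
  by_cases hxz : x = z
  · subst hxz
    have : (fun i => Equiv.swap x x (f i)) = f := by
      funext i
      rw [Equiv.swap_self]
      rfl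
    rw [this]
    exact Relation.ReflTransGen.refl
  have c1 := cRel_all h1 ⟨hf, by rw [himg]; exact hKE⟩ himg
  obtain ⟨e1, i1⟩ := labbasic_swap_edge hKE h1.1 h1.2.1 hf himg
  have c2 := cRel_all h2 e1 i1
  obtain ⟨e2, i2⟩ := labbasic_swap_edge hKE h2.1 h2.2.1 e1.1 i1
  have c3 := cRel_all h1 e2 i2
  by_cases hyz : y = z
  · subst hyz
    exact c1
  have hfin : (fun i => Equiv.swap x y (Equiv.swap y z (Equiv.swap x y (f i)))) =
      fun i => Equiv.swap x z (f i) := by
    funext i
    have h6 := Equiv.swap_mul_swap_mul_swap (x := z) (y := y) (z := x) (Ne.symm hyz) (Ne.symm hxz)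
    have h7 := DFunLike.congr_fun h6 (f i)
    rw [Equiv.Perm.mul_apply, Equiv.Perm.mul_apply] at h7
    rw [Equiv.swap_comm x y, Equiv.swap_comm y z, h7]
  rw [← hfin]
  exact (c1.trans c2).trans c3

/-- Properties of `cRel`.

* `c_refl`, `c_symm`: clear (`LAdj` is symmetric; labellings exist since `K.card = k`).
* `c_trans`: `swap x z = swap x y * swap y z * swap x y`; go
  `f → swap x y ∘ f → swap y z ∘ swap x y ∘ f → swap x y ∘ swap y z ∘ swap x y ∘ f`
  (each step is the relation applied to another labelled edge with image `K`).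
* `c_swap`: let `f` have image `K` with `x` at place `i` and `y` at place `j`; change place `i`
  from `x` to `v`, then place `j` from `y` to `x`, then place `i` from `v` to `y`. The images are
  `K - x + v`, `K - y + v`, `K`.
* `c_move`: `f' = swap x v ∘ f` is adjacent to `f`; and for `a, b ∈ K`, with
  `a' = swap x v a`, `b' = swap x v b`, `swap a' b' ∘ f' = swap x v ∘ (swap a b ∘ f)` is adjacent
  to `swap a b ∘ f`. -/
theorem cRel_props {V : Type} {E : Set (Finset V)} {k : ℕ} (hE : ∀ e ∈ E, e.card = k) :
    CProps E (cRel E k) := by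
  refine ⟨?_, ?_, ?_, ?_, ?_⟩
  · intro K x hK hx
    obtain ⟨f, hf, himg⟩ := labbasic_exists (hE K hK)
    refine ⟨hx, hx, f, ⟨hf, by rw [himg]; exact hK⟩, himg, ?_⟩
    have : (fun i => Equiv.swap x x (f i)) = f := by
      funext i
      rw [Equiv.swap_self]
      rfl
    rw [this]
    exact Relation.ReflTransGen.refl
  · intro K x y hK hx hy h
    obtain ⟨-, -, f, hf, himg, hc⟩ := h
    refine ⟨hy, hx, f, hf, himg, ?_⟩
    rw [Equiv.swap_comm y x]
    exact hc
  · intro K x y z hK _ _ _ h1 h2
    exact labbasic_trans hE hK h1 h2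
  · intro K x y v hK hx hy hv h1 h2
    exact labbasic_swap hE hK hx hy hv h1 h2
  · intro K x v hK hx hv hK' a _ b _
    constructor
    · exact labbasic_move hE hK hx hv hK'
    · intro h
      have hxv : x ≠ v := fun h => hv (h ▸ hx)
      have hx1 : x ∉ insert v (K.erase x) := by simp [hxv]
      have hv1 : v ∈ insert v (K.erase x) := Finset.mem_insert_self _ _
      have himg : insert x ((insert v (K.erase x)).erase v) = K := by
        ext w
        simp only [Finset.mem_insert, Finset.mem_erase]
        constructor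
        · rintro (rfl | ⟨h3, h4 | ⟨h4, h5⟩⟩)
          · exact hx
          · exact absurd h4 h3
          · exact h5
        · intro hw
          by_cases h5 : w = x
          · exact Or.inl h5
          · exact Or.inr ⟨fun h => hv (h ▸ hw), Or.inr ⟨h5, hw⟩⟩
      have h3 := labbasic_move hE hK' hv1 hx1 (by rw [himg]; exact hK) h
      rw [himg, Equiv.swap_comm v x, Equiv.swap_apply_self, Equiv.swap_apply_self] at h3
      exact h3

end Pool.Agent.Lib.MP_a572be_co
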