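import Pool.Agent.Lib.MP_a572be_co.Walk

/-!
# Labelled edges

For an edge `K` of a `k`-graph and `x, y ∈ K` write `cRel K x y` if the labelled edge `K` can be
transformed into itself with `x` and `y` interchanged, by changing one vertex at a time through
labelled edges.
-/

namespace Pool.Agent.Lib.MP_a572be_co

open Classical

/-- A labelled edge: an injective `k`-tuple whose image is in the family `E`. -/
def LEdge {V : Type} (E : Set (Finset V)) (k : ℕ) (f : Fin k → V) : Prop :=
  Function.Injective f ∧ Finset.univ.image f ∈ E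

/-- Adjacent labelled edges: they differ in at most one place. -/
def LAdj {V : Type} (E : Set (Finset V)) (k : ℕ) (f g : Fin k → V) : Prop :=
  LEdge E k f ∧ LEdge E k g ∧ ∃ i, ∀ j, j ≠ i → f j = g j

/-- Connected labelled edges. -/
def LConn {V : Type} (E : Set (Finset V)) (k : ℕ) (f g : Fin k → V) : Prop :=
  Relation.ReflTransGen (LAdj E k) f g

/-- `x` and `y` can be interchanged in the edge `K`. -/
def cRel {V : Type} (E : Set (Finset V)) (k : ℕ) (K : Finset V) (x y : V) : Prop :=
  x ∈ K ∧ y ∈ K ∧ ∃ f : Fin k → V, LEdge E k f ∧ Finset.univ.image f = K ∧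
    LConn E k f (fun i => Equiv.swap x y (f i))

/-- The conjunction of the formal properties of `cRel` (everything in a coloured system but
`nz`). -/
structure CProps {V : Type} (E : Set (Finset V)) (c : Finset V → V → V → Prop) : Prop where
  c_refl : ∀ K x, K ∈ E → x ∈ K → c K x x
  c_symm : ∀ K x y, K ∈ E → x ∈ K → y ∈ K → c K x y → c K y x
  c_trans : ∀ K x y z, K ∈ E → x ∈ K → y ∈ K → z ∈ K → c K x y → c K y z → c K x z
  c_swap : ∀ K x y v, K ∈ E → x ∈ K → y ∈ K → v ∉ K → insert v (K.erase x) ∈ E →
    insert v (K.erase y) ∈ E → c K x y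
  c_move : ∀ K x v, K ∈ E → x ∈ K → v ∉ K → insert v (K.erase x) ∈ E → ∀ a ∈ K, ∀ b ∈ K,
    (c K a b ↔ c (insert v (K.erase x)) (Equiv.swap x v a) (Equiv.swap x v b))

end Pool.Agent.Lib.MP_a572be_co
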