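import Pool.Agent.Lib.MP_a572be_co.LinDefs

/-!
# Marks in worlds all of whose components have three classes
-/

namespace Pool.Agent.Lib.MP_a572be_co

namespace World

variable {r : ℕ} {Ω : Type} (W : World r Ω)

/-- Every edge has elements of three different classes, one of them any given `x`.
Proof: `two_eqv` gives `y` not equivalent to `x`. Let `A = {z | Eqv K x z}`. Since `¬ Two K A` there
are `a, b ∉ A` which are not equivalent (the relation `Eqv K a b ↔ (a ∈ A ↔ b ∈ A)` can only fail for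
such a pair). Then `x, a, b` are pairwise not equivalent; take copies of `a`, `b` in `K` by
`joint`. -/
theorem three (h3 : W.Three) {K : Tg Ω} (hK : W.E K) (x : Ω) :
    ∃ y z, W.m K y ∧ W.m K z ∧ ¬ W.Eqv K x y ∧ ¬ W.Eqv K x z ∧ ¬ W.Eqv K y z := by
  obtain ⟨y0, hy0, hxy0⟩ := W.two_eqv hK x
  have hT := h3 K {z | W.Eqv K x z}
  have hex : ∃ a b, ¬ W.Eqv K x a ∧ ¬ W.Eqv K x b ∧ ¬ W.Eqv K a b := by
    by_contra hcon
    push Not at hcon
    apply hT
    refine ⟨hK, ?_, ⟨x, W.eqv_refl K x⟩, ⟨y0, hxy0⟩⟩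
    intro a b
    constructor
    · intro hab
      exact ⟨fun ha => W.eqv_trans ha hab, fun hb => W.eqv_trans hb (W.eqv_symm hab)⟩
    · intro hab
      by_cases ha : W.Eqv K x a
      · exact W.eqv_trans (W.eqv_symm ha) (hab.1 ha)
      · exact hcon a b ha (fun hb => ha (hab.2 hb))
  obtain ⟨a, b, ha, hb, hab⟩ := hex
  obtain ⟨y, hyD, _, hyI, hy⟩ := W.joint {K} (by simpa using hK) (W.notP a) True K.support
  obtain ⟨z, hzD, _, hzI, hz⟩ := W.joint {K} (by simpa using hK) (W.notP b) True K.support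
  have hay : W.Eqv K a y := hy K (by simp)
  have hbz : W.Eqv K b z := hz K (by simp)
  refine ⟨y, z, (mem_of_notMem_support W.I hyD).2 (by simpa using hyI),
    (mem_of_notMem_support W.I hzD).2 (by simpa using hzI), ?_, ?_, ?_⟩
  · exact fun h => ha (W.eqv_trans h (W.eqv_symm hay))
  · exact fun h => hb (W.eqv_trans h (W.eqv_symm hbz))
  · exact fun h => hab (W.eqv_trans hay (W.eqv_trans h (W.eqv_symm hbz)))

/-- In an edge `K` the exchange `x → v` is possible if and only if `x`, `v` are equivalent.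
(`→` `eqv_mk`; `←`: take `y, z` as in `three`; `K - x`, `K - y`, `K - z` are pairwise disjoint by
`dj_of_not_eqv`, so `v` is a neighbour of one of them by `cover3`, and it must be `K - x`.) -/
theorem full3 (h3 : W.Three) {K : Tg Ω} (hK : W.E K) {x v : Ω} (hx : W.m K x) (hv : ¬ W.m K v) :
    W.E (K + t x + t v) ↔ W.Eqv K x v := by
  refine ⟨fun h => W.eqv_mk hK hx hv h, fun hxv => ?_⟩
  obtain ⟨y, z, hy, hz, hxy, hxz, hyz⟩ := W.three h3 hK x
  have hn : ∀ {w : Ω}, W.m K w → ¬ W.m (K + t w) v := by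
    intro w hw
    rw [W.m_ne K (W.ne_of_m hw hv)]; exact hv
  rcases W.cover3 (W.lev_S hK hx) (W.lev_S hK hy) (W.lev_S hK hz)
    (W.dj_of_not_eqv hK hx hy hxy) (W.dj_of_not_eqv hK hx hz hxz) (W.dj_of_not_eqv hK hy hz hyz)
    (W.notP v) (hn hx) (hn hy) (hn hz) with h | h | h
  · exact h
  · exact absurd (W.eqv_trans hxv (W.eqv_symm (W.eqv_mk hK hy hv h))) hxy
  · exact absurd (W.eqv_trans hxv (W.eqv_symm (W.eqv_mk hK hz hv h))) hxz

/-- Description of marks by one neighbour (`conn_of_nbrs`, `eqv_conn`). -/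
theorem mark_iff {S : Tg Ω} (hS : W.lev S = -1) {v : Ω} (hv : W.E (S + t v)) (x : Ω) :
    x ∈ W.mark S ↔ W.Eqv (S + t v) v x := by
  constructor
  · rintro ⟨u, hu, h⟩
    obtain ⟨hc, he⟩ := W.conn_of_nbrs hS hv hu
    exact W.eqv_trans he (W.eqv_of_conn hc h)
  · intro h
    exact ⟨v, hv, h⟩

/-- The neighbours of `S` are the elements of the mark outside `S` (`full3`, `axN`). -/
theorem mark_nbr (h3 : W.Three) {S : Tg Ω} (hS : W.lev S = -1) {v : Ω} (hv : ¬ W.m S v) :
    W.E (S + t v) ↔ v ∈ W.mark S := by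
  constructor
  · intro h
    exact ⟨v, h, W.eqv_refl _ _⟩
  · rintro ⟨u, hu, h⟩
    by_cases huv : u = v
    · subst huv; exact hu
    · have h1 : W.m (S + t u) u := (W.m_self S u).2 (W.not_m_of_E hS hu)
      have h2 : ¬ W.m (S + t u) v := by rw [W.m_ne S huv]; exact hv
      have := (W.full3 h3 hu h1 h2).2 h
      rwa [tg_add_t_t] at this

/-- Joint copies for marks of a finite family of level `-1` sets (`joint` applied to edges `S + v`,
and `mark_iff`). -/
theorem mark_joint (F : Finset (Tg Ω)) (hF : ∀ S ∈ F, W.lev S = -1) (x : Ω) (b : Prop)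
    (D : Finset Ω) :
    ∃ y, y ∉ D ∧ y ≠ x ∧ (y ∈ W.I ↔ b) ∧ ∀ S ∈ F, (x ∈ W.mark S ↔ y ∈ W.mark S) := by
  classical
  have h1 : ∀ S : Tg Ω, ∃ v, S ∈ F → W.E (S + t v) := by
    intro S
    by_cases hS : S ∈ F
    · obtain ⟨v, _, _, hv⟩ := W.axN S (hF S hS) ∅
      exact ⟨v, fun _ => hv⟩
    · exact ⟨x, fun h => absurd h hS⟩
  choose g hg using h1
  obtain ⟨y, hyD, hyx, hyI, hy⟩ := W.joint (F.image (fun S => S + t (g S))) (by
    intro K hK
    obtain ⟨S, hS, rfl⟩ := Finset.mem_image.1 hK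
    exact hg S hS) (W.notP x) b D
  refine ⟨y, hyD, hyx, hyI, fun S hS => ?_⟩
  have h2 := hy _ (Finset.mem_image_of_mem (fun S => S + t (g S)) hS)
  rw [W.mark_iff (hF S hS) (hg S hS), W.mark_iff (hF S hS) (hg S hS)]
  exact ⟨fun h => W.eqv_trans h h2, fun h => W.eqv_trans h (W.eqv_symm h2)⟩

/-- For an edge `K` and `x ∈ K` the mark of `K - x` is the class of `x`. -/
theorem mark_edge {K : Tg Ω} (hK : W.E K) {x : Ω} (hx : W.m K x) (y : Ω) :
    y ∈ W.mark (K + t x) ↔ W.Eqv K x y := by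
  have h := W.mark_iff (W.lev_S hK hx) (v := x) (by rw [tg_add_t_t]; exact hK) y
  rwa [tg_add_t_t] at h

/-- The marks of `Z + a` and `Z + b` are equal or disjoint: if `x` is in both, by `mark_joint` there
is such an `x ∉ Z + a, Z + b`, a common neighbour (`mark_nbr`); so `Z + a` and `Z + b = (Z + a) - a + b`
have the same value (`sameVal_of_common`) and the marks are equal (`mark_iff`, `sameVal_all`). -/
theorem mark_eq_or (h3 : W.Three) {Z : Tg Ω} (hZ : W.lev Z = -2) {a b : Ω} (ha : ¬ W.m Z a)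
    (hb : ¬ W.m Z b) {x : Ω} (hxa : x ∈ W.mark (Z + t a)) (hxb : x ∈ W.mark (Z + t b)) :
    W.mark (Z + t a) = W.mark (Z + t b) := by
  classical
  by_cases hab : a = b
  · rw [hab]
  have la : W.lev (Z + t a) = -1 := by rw [W.lev_out ha, hZ]; ring
  have lb : W.lev (Z + t b) = -1 := by rw [W.lev_out hb, hZ]; ring
  obtain ⟨y, hyD, _, hyI, hy⟩ := W.mark_joint {Z + t a, Z + t b} (by
    intro S hS
    simp only [Finset.mem_insert, Finset.mem_singleton] at hS
    rcases hS with rfl | rfl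
    · exact la
    · exact lb) x False ((Z + t a).support ∪ (Z + t b).support)
  simp only [Finset.mem_union, not_or] at hyD
  have hyI' : y ∉ W.I := by simpa using hyI
  have na : ¬ W.m (Z + t a) y := fun h => hyI' ((mem_of_notMem_support W.I hyD.1).1 h)
  have nb : ¬ W.m (Z + t b) y := fun h => hyI' ((mem_of_notMem_support W.I hyD.2).1 h)
  have ya : y ∈ W.mark (Z + t a) := (hy _ (by simp)).1 hxa
  have yb : y ∈ W.mark (Z + t b) := (hy _ (by simp)).1 hxb
  have Ea := (W.mark_nbr h3 la na).2 ya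
  have Eb := (W.mark_nbr h3 lb nb).2 yb
  have m1 : W.m (Z + t a) a := (W.m_self Z a).2 ha
  have m2 : ¬ W.m (Z + t a) b := by rw [W.m_ne Z hab]; exact hb
  have e : Z + t a + t a + t b = Z + t b := by rw [tg_add_t_t]
  have hc := (W.sameVal_of_common la m1 m2 Ea (by rw [e]; exact Eb)).2.1
  rw [e] at hc
  ext w
  rw [W.mark_iff la Ea, W.mark_iff lb Eb, W.eqv_conn hc]

/-- Disjoint marks give disjoint neighbourhoods. -/
theorem linA_dj {S S' : Tg Ω} (d : Disjoint (W.mark S) (W.mark S')) : W.Dj S S' := by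
  intro v _ hv
  exact Set.disjoint_left.1 d ⟨v, hv.1, W.eqv_refl _ _⟩ ⟨v, hv.2, W.eqv_refl _ _⟩

/-- Three pairwise disjoint marks cover everything (`mark_joint` to move `x` outside the three
sets, then `cover3`). -/
theorem mark_cover (h3 : W.Three) {S1 S2 S3 : Tg Ω} (h1 : W.lev S1 = -1) (h2 : W.lev S2 = -1)
    (h3' : W.lev S3 = -1) (d12 : Disjoint (W.mark S1) (W.mark S2)) (d13 : Disjoint (W.mark S1) (W.mark S3))
    (d23 : Disjoint (W.mark S2) (W.mark S3)) (x : Ω) : x ∈ W.mark S1 ∨ x ∈ W.mark S2 ∨ x ∈ W.mark S3 := by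
  classical
  have _ := h3
  obtain ⟨y, hyD, _, hyI, hy⟩ := W.mark_joint {S1, S2, S3} (by
    intro S hS
    simp only [Finset.mem_insert, Finset.mem_singleton] at hS
    rcases hS with rfl | rfl | rfl
    · exact h1
    · exact h2
    · exact h3') x False (S1.support ∪ S2.support ∪ S3.support)
  simp only [Finset.mem_union, not_or] at hyD
  have hyI' : y ∉ W.I := by simpa using hyI
  have n1 : ¬ W.m S1 y := fun h => hyI' ((mem_of_notMem_support W.I hyD.1.1).1 h)
  have n2 : ¬ W.m S2 y := fun h => hyI' ((mem_of_notMem_support W.I hyD.1.2).1 h)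
  have n3 : ¬ W.m S3 y := fun h => hyI' ((mem_of_notMem_support W.I hyD.2).1 h)
  rcases W.cover3 h1 h2 h3' (W.linA_dj d12) (W.linA_dj d13) (W.linA_dj d23) (W.notP y) n1 n2 n3
    with h | h | h
  · exact Or.inl ((hy S1 (by simp)).2 ⟨y, h, W.eqv_refl _ _⟩)
  · exact Or.inr (Or.inl ((hy S2 (by simp)).2 ⟨y, h, W.eqv_refl _ _⟩))
  · exact Or.inr (Or.inr ((hy S3 (by simp)).2 ⟨y, h, W.eqv_refl _ _⟩))

/-- Two disjoint marks never cover everything: suppose `mark S ∪ mark S'` is everything and the two are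
disjoint. Let `K = S + v` be an edge, and let `y, z ∈ K` be as in `three` for `x = v`; the classes of
`y` and `z` are the marks of `K - y`, `K - z`, they are disjoint from `mark S` (the class of `v`), so
contained in `mark S'`. In the same way there are two disjoint marks in `mark S`: four pairwise disjoint
marks, contradicting `four`. -/
theorem mark_not_two (h3 : W.Three) {S S' : Tg Ω} (h1 : W.lev S = -1) (h2 : W.lev S' = -1)
    (d : Disjoint (W.mark S) (W.mark S')) : ∃ x, x ∉ W.mark S ∧ x ∉ W.mark S' := by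
  by_contra hcon
  push Not at hcon
  -- two disjoint marks inside the complement of a mark
  have key : ∀ T : Tg Ω, W.lev T = -1 → ∃ A B : Tg Ω, W.lev A = -1 ∧ W.lev B = -1 ∧
      Disjoint (W.mark A) (W.mark B) ∧ (∀ w ∈ W.mark A, w ∉ W.mark T) ∧
      (∀ w ∈ W.mark B, w ∉ W.mark T) := by
    intro T hT
    obtain ⟨v, _, _, hE⟩ := W.axN T hT ∅
    obtain ⟨y, z, hy, hz, hvy, hvz, hyz⟩ := W.three h3 hE v
    refine ⟨T + t v + t y, T + t v + t z, W.lev_S hE hy, W.lev_S hE hz, ?_, ?_, ?_⟩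
    · rw [Set.disjoint_left]
      intro w hw hw'
      rw [W.mark_edge hE hy] at hw
      rw [W.mark_edge hE hz] at hw'
      exact hyz (W.eqv_trans hw (W.eqv_symm hw'))
    · intro w hw hw'
      rw [W.mark_edge hE hy] at hw
      rw [W.mark_iff hT hE] at hw'
      exact hvy (W.eqv_trans hw' (W.eqv_symm hw))
    · intro w hw hw'
      rw [W.mark_edge hE hz] at hw
      rw [W.mark_iff hT hE] at hw'
      exact hvz (W.eqv_trans hw' (W.eqv_symm hw))
  obtain ⟨A, B, hA, hB, dAB, hAS, hBS⟩ := key S h1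
  obtain ⟨A', B', hA', hB', dAB', hAS', hBS'⟩ := key S' h2
  have hin : ∀ w, w ∉ W.mark S → w ∈ W.mark S' := hcon
  have hin' : ∀ w, w ∉ W.mark S' → w ∈ W.mark S := by
    intro w hw
    by_contra h
    exact hw (hin w h)
  have hd : ∀ {P Q : Tg Ω}, (∀ w ∈ W.mark P, w ∉ W.mark S) → (∀ w ∈ W.mark Q, w ∉ W.mark S') →
      W.Dj P Q := by
    intro P Q hP hQ
    apply W.linA_dj
    rw [Set.disjoint_left]
    intro w hwP hwQ
    exact hP w hwP (hin' w (hQ w hwQ))
  obtain ⟨a, b, hab, hne⟩ := W.four ![A, B, A', B'] (by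
    intro a; fin_cases a
    · exact hA
    · exact hB
    · exact hA'
    · exact hB')
  apply hne
  have e1 := W.linA_dj dAB
  have e2 := W.linA_dj dAB'
  have e3 : W.Dj A A' := hd hAS hAS'
  have e4 : W.Dj A B' := hd hAS hBS'
  have e5 : W.Dj B A' := hd hBS hAS'
  have e6 : W.Dj B B' := hd hBS hBS'
  fin_cases a <;> fin_cases b <;>
    first
      | exact absurd rfl hab
      | exact e1 | exact e2 | exact e3 | exact e4 | exact e5 | exact e6
      | exact W.dj_symm e1 | exact W.dj_symm e2 | exact W.dj_symm e3 | exact W.dj_symm e4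
      | exact W.dj_symm e5 | exact W.dj_symm e6

end World

end Pool.Agent.Lib.MP_a572be_co
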