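import Pool.Agent.Lib.MP_a572be_co.LinA

/-!
# The partition attached to level `-2` sets does not depend on the set
-/

namespace Pool.Agent.Lib.MP_a572be_co

namespace World

variable {r : ℕ} {Ω : Type} (W : World r Ω)

theorem linb1_lev {Z : Tg Ω} (hZ : W.lev Z = -2) {a : Ω} (ha : ¬ W.m Z a) :
    W.lev (Z + t a) = -1 := by
  rw [W.toPW.lev_out ha, hZ]; norm_num

/-- A neighbour of `S` belongs to the mark of `S`. -/
theorem linb1_mem {S : Tg Ω} {v : Ω} (h : W.E (S + t v)) : v ∈ W.mark S :=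
  ⟨v, h, W.toPW.eqv_refl _ _⟩

/-- An element outside a finite set and outside the reference set is outside the set coded by
`Z`. -/
theorem linb1_out {Z : Tg Ω} {v : Ω} (hs : v ∉ Z.support) (hI : v ∉ W.I) : ¬ W.m Z v :=
  fun h => hI ((mem_of_notMem_support W.I hs).1 h)

/-- A common neighbour structure: for `x ∉ Z` there is `v ∉ Z`, avoiding `D`, such that
`Z + x + v` is an edge. -/
theorem linb1_nbr {Z : Tg Ω} (hZ : W.lev Z = -2) {x : Ω} (hx : ¬ W.m Z x) (D : Finset Ω) :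
    ∃ v, v ∉ D ∧ v ≠ x ∧ ¬ W.m Z v ∧ W.E (Z + t x + t v) := by
  classical
  obtain ⟨v, hv, hvI, hE⟩ := W.axN (Z + t x) (W.linb1_lev hZ hx) (insert x (D ∪ Z.support))
  simp only [Finset.mem_insert, Finset.mem_union, not_or] at hv
  exact ⟨v, hv.2.1, hv.1, W.linb1_out hv.2.2 hvI, hE⟩

/-- Different marks are disjoint. -/
theorem linb1_disj (h3 : W.Three) {Z : Tg Ω} (hZ : W.lev Z = -2) {a b : Ω} (ha : ¬ W.m Z a)
    (hb : ¬ W.m Z b) (h : W.mark (Z + t a) ≠ W.mark (Z + t b)) :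
    Disjoint (W.mark (Z + t a)) (W.mark (Z + t b)) := by
  rw [Set.disjoint_left]
  intro x hxa hxb
  exact h (W.mark_eq_or h3 hZ ha hb hxa hxb)

/-- Disjoint marks give disjoint neighbourhoods. -/
theorem linb1_dj {S S' : Tg Ω} (h : Disjoint (W.mark S) (W.mark S')) : W.Dj S S' := by
  intro v _ hv
  exact Set.disjoint_left.1 h (W.linb1_mem hv.1) (W.linb1_mem hv.2)

/-- There are finitely many marks. -/
theorem linb1_fin (h3 : W.Three) {Z : Tg Ω} (hZ : W.lev Z = -2) :
    ∃ F : Finset Ω, (∀ a ∈ F, ¬ W.m Z a) ∧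
      ∀ b, ¬ W.m Z b → ∃ a ∈ F, W.mark (Z + t b) = W.mark (Z + t a) := by
  classical
  by_contra hcon
  push Not at hcon
  have key : ∀ n : ℕ, ∃ f : Fin n → Ω, (∀ i, ¬ W.m Z (f i)) ∧
      ∀ i j, i ≠ j → W.mark (Z + t (f i)) ≠ W.mark (Z + t (f j)) := by
    intro n
    induction n with
    | zero => exact ⟨Fin.elim0, fun i => i.elim0, fun i => i.elim0⟩
    | succ n ih =>
      obtain ⟨f, hf, hd⟩ := ih
      obtain ⟨b, hb, hbd⟩ := hcon (Finset.univ.image f) (by
        intro a ha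
        obtain ⟨i, _, rfl⟩ := Finset.mem_image.1 ha
        exact hf i)
      have hbd' : ∀ i, W.mark (Z + t b) ≠ W.mark (Z + t (f i)) := fun i =>
        hbd (f i) (Finset.mem_image_of_mem f (Finset.mem_univ i))
      refine ⟨Fin.cons b f, ?_, ?_⟩
      · intro i
        refine Fin.cases ?_ (fun j => ?_) i
        · simpa using hb
        · simpa using hf j
      · intro i j
        refine Fin.cases ?_ (fun i' => ?_) i
        · refine Fin.cases ?_ (fun j' => ?_) j
          · intro h; exact absurd rfl h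
          · intro _; simpa using hbd' j'
        · refine Fin.cases ?_ (fun j' => ?_) j
          · intro _; simpa using (hbd' i').symm
          · intro hij
            have : i' ≠ j' := fun h => hij (by rw [h])
            simpa using hd i' j' this
  obtain ⟨f, hf, hd⟩ := key 4
  obtain ⟨a, b, hab, hdj⟩ := W.toPW.four (fun i => Z + t (f i)) (fun i => W.linb1_lev hZ (hf i))
  exact hdj (W.linb1_dj (W.linb1_disj h3 hZ (hf a) (hf b) (hd a b hab)))

/-- The marks `mark (Z + a)` cover everything: for `x ∉ Z` take a neighbour `a` of `Z + x`; then `x` is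
a neighbour of `Z + a`. For `x ∈ Z`: the marks `mark (Z + a)`, `a ∉ Z`, are pairwise equal or disjoint
(`mark_eq_or`) and no four are pairwise disjoint (`four`), so there are finitely many of them, say
the marks of `Z + a`, `a ∈ F` (at most three); apply `mark_joint` to move `x` outside `Z`. -/
theorem z_cover (h3 : W.Three) {Z : Tg Ω} (hZ : W.lev Z = -2) (x : Ω) :
    ∃ a, ¬ W.m Z a ∧ x ∈ W.mark (Z + t a) := by
  classical
  have main : ∀ y, ¬ W.m Z y → ∃ a, ¬ W.m Z a ∧ y ∈ W.mark (Z + t a) := by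
    intro y hy
    obtain ⟨v, _, _, hv, hE⟩ := W.linb1_nbr hZ hy ∅
    exact ⟨v, hv, W.linb1_mem (by rw [tg_comm]; exact hE)⟩
  obtain ⟨F, hF, hFm⟩ := W.linb1_fin h3 hZ
  obtain ⟨y, hyD, _, hyI, hy⟩ := W.mark_joint (F.image (fun a => Z + t a)) (by
    intro S hS
    obtain ⟨a, ha, rfl⟩ := Finset.mem_image.1 hS
    exact W.linb1_lev hZ (hF a ha)) x False Z.support
  have hyZ : ¬ W.m Z y := W.linb1_out hyD (by simpa using hyI)
  obtain ⟨b, hb, hyb⟩ := main y hyZ
  obtain ⟨a, ha, hab⟩ := hFm b hb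
  refine ⟨a, hF a ha, ?_⟩
  rw [hy (Z + t a) (Finset.mem_image_of_mem _ ha), ← hab]
  exact hyb

/-- `PZ Z x y` iff `x`, `y` are in a common mark (`z_cover`, `mark_eq_or`). -/
theorem pz_iff (h3 : W.Three) {Z : Tg Ω} (hZ : W.lev Z = -2) (x y : Ω) :
    W.PZ Z x y ↔ ∃ a, ¬ W.m Z a ∧ x ∈ W.mark (Z + t a) ∧ y ∈ W.mark (Z + t a) := by
  constructor
  · intro h
    obtain ⟨a, ha, hx⟩ := W.z_cover h3 hZ x
    exact ⟨a, ha, hx, (h a ha).1 hx⟩
  · rintro ⟨a, ha, hx, hy⟩ b hb
    constructor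
    · intro hxb
      rw [W.mark_eq_or h3 hZ hb ha hxb hx]; exact hy
    · intro hyb
      rw [W.mark_eq_or h3 hZ hb ha hyb hy]; exact hx

/-- There are exactly three marks: three pairwise disjoint ones exist. (`z_cover`, and `mark_not_two`
to find a third.) -/
theorem z_three (h3 : W.Three) {Z : Tg Ω} (hZ : W.lev Z = -2) :
    ∃ a b c, ¬ W.m Z a ∧ ¬ W.m Z b ∧ ¬ W.m Z c ∧ Disjoint (W.mark (Z + t a)) (W.mark (Z + t b)) ∧
      Disjoint (W.mark (Z + t a)) (W.mark (Z + t c)) ∧ Disjoint (W.mark (Z + t b)) (W.mark (Z + t c)) := by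
  obtain ⟨a, haI, haD⟩ := W.infO.exists_notMem_finset Z.support
  have ha : ¬ W.m Z a := W.linb1_out haD haI
  have hla := W.linb1_lev hZ ha
  obtain ⟨v, _, _, hv, hE⟩ := W.linb1_nbr hZ ha ∅
  obtain ⟨y, _, hy⟩ := W.two_eqv hE v
  have hya : y ∉ W.mark (Z + t a) := fun h => hy ((W.mark_iff hla hE y).1 h)
  obtain ⟨b, hb, hyb⟩ := W.z_cover h3 hZ y
  have hlb := W.linb1_lev hZ hb
  have hab : W.mark (Z + t a) ≠ W.mark (Z + t b) := fun h => hya (by rw [h]; exact hyb)
  have dab := W.linb1_disj h3 hZ ha hb hab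
  obtain ⟨z, hza, hzb⟩ := W.mark_not_two h3 hla hlb dab
  obtain ⟨c, hc, hzc⟩ := W.z_cover h3 hZ z
  refine ⟨a, b, c, ha, hb, hc, dab, ?_, ?_⟩
  · exact W.linb1_disj h3 hZ ha hc (fun h => hza (by rw [h]; exact hzc))
  · exact W.linb1_disj h3 hZ hb hc (fun h => hzb (by rw [h]; exact hzc))

/-- For `x, y ∉ Z`: the marks of `Z + x` and `Z + y` are equal iff `x`, `y` are in the same mark.
`←`: `x, y ∈ mark (Z + a)`; we may take `a ≠ x, y` (replace `a` by another element of `mark (Z + v)`,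
where `v ∈ mark (Z + a)` is different from everything: both contain `v`, so `mark (Z + a') = mark (Z + a)`).
Then `Z + a + x` and `Z + a + y` are edges, so `a` is in both marks: `mark_eq_or`.
`→`: take `v` in the mark, different from `x`, `y` and outside `Z`; `Z + x + v`, `Z + y + v` are
edges, so `x, y ∈ mark (Z + v)`. -/
theorem pz_mk (h3 : W.Three) {Z : Tg Ω} (hZ : W.lev Z = -2) {x y : Ω} (hx : ¬ W.m Z x)
    (hy : ¬ W.m Z y) : W.PZ Z x y ↔ W.mark (Z + t x) = W.mark (Z + t y) := by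
  classical
  obtain ⟨v, hvy, _, hv, hE⟩ := W.linb1_nbr hZ hx {y}
  have hvy' : v ≠ y := fun h => hvy (by simp [h])
  have hvx : v ∈ W.mark (Z + t x) := W.linb1_mem hE
  have hxv : x ∈ W.mark (Z + t v) := W.linb1_mem (by rw [tg_comm]; exact hE)
  constructor
  · intro h
    have hyv : y ∈ W.mark (Z + t v) := (h v hv).1 hxv
    have hn : ¬ W.m (Z + t v) y := by rw [W.toPW.m_ne Z hvy']; exact hy
    have hE' : W.E (Z + t v + t y) := (W.mark_nbr h3 (W.linb1_lev hZ hv) hn).2 hyv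
    have hvy2 : v ∈ W.mark (Z + t y) := W.linb1_mem (by rw [tg_comm]; exact hE')
    exact W.mark_eq_or h3 hZ hx hy hvx hvy2
  · intro h
    have hvy2 : v ∈ W.mark (Z + t y) := by rw [← h]; exact hvx
    have hn : ¬ W.m (Z + t y) v := by rw [W.toPW.m_ne Z (Ne.symm hvy')]; exact hv
    have hE' : W.E (Z + t y + t v) := (W.mark_nbr h3 (W.linb1_lev hZ hy) hn).2 hvy2
    have hyv : y ∈ W.mark (Z + t v) := W.linb1_mem (by rw [tg_comm]; exact hE')
    exact (W.pz_iff h3 hZ x y).2 ⟨v, hv, hxv, hyv⟩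

end World

end Pool.Agent.Lib.MP_a572be_co
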