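import Pool.Agent.Lib.MP_a572be_co.LinDefs

/-!
# Connecting sets of the same level
-/

namespace Pool.Agent.Lib.MP_a572be_co

namespace PW

variable {r : ℕ} {Ω : Type} (W : PW r Ω)

theorem linchain_erase {Ω : Type} [DecidableEq Ω] (L : Tg Ω) {x : Ω} (hx : x ∈ L.support) :
    (L + t x).support = L.support.erase x := by
  have h : L x = 1 := by
    rcases zmod2_cases (L x) with h | h
    · simp [h] at hx
    · exact h
  ext y
  by_cases hy : x = y
  · subst hy; simp [h, t_self]; decide
  · simp [t_ne hy, Ne.symm hy]

/-- Adding elements increases the level. -/
theorem linchain_out (D : Finset Ω) : ∀ K K' : Tg Ω, (K + K').support = D →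
    (∀ x ∈ D, ¬ W.m K x) → W.lev K' = W.lev K + D.card := by
  classical
  induction D using Finset.induction_on with
  | empty =>
    intro K K' hD _
    have h0 : K + K' = 0 := by simpa using hD
    have : K' = K := by
      have := congrArg (fun z => K + z) h0
      simpa using this
    rw [this]; simp
  | insert x D hx ih =>
    intro K K' hD hm
    have hxs : x ∈ (K + K').support := by rw [hD]; simp
    have h1 : (K + t x + K').support = D := by
      have e : K + t x + K' = K + K' + t x := by abel
      rw [e, linchain_erase _ hxs, hD, Finset.erase_insert hx]
    have h2 := ih (K + t x) K' h1 (by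
      intro y hy
      have hxy : x ≠ y := by rintro rfl; exact hx hy
      rw [W.m_ne K hxy]
      exact hm y (Finset.mem_insert_of_mem hy))
    rw [h2, W.lev_out (hm x (Finset.mem_insert_self x D)), Finset.card_insert_of_notMem hx]
    push_cast
    ring

/-- Elements of the support of the difference are in exactly one of the sets. -/
theorem linchain_m {K K' : Tg Ω} {x : Ω} (hx : x ∈ (K + K').support) :
    W.m K' x ↔ ¬ W.m K x := by
  have h1 : K x + K' x ≠ 0 := by simpa using hx
  unfold m mem
  rcases zmod2_cases (K x) with h | h <;> rcases zmod2_cases (K' x) with h' | h' <;>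
    rw [h, h'] at h1 ⊢ <;> by_cases hI : x ∈ W.I <;> simp [hI] at h1 ⊢
  all_goals exact absurd (by decide) h1

/-- Sets of the same level are connected by exchanges (no edges needed).

Proof: induction on the size of the support of `K + K'`. The elements of the support of `K + K'` are
those in exactly one of the two sets; since the levels agree, if it is nonempty there is `x` in
`K` not in `K'` and `v` in `K'` not in `K` (compare `cnt I univ`, e.g. `K' = K + ∑ t`); replace
`K` by `K + t x + t v`. -/
theorem lev_chain {K K' : Tg Ω} (h : W.lev K = W.lev K') :
    Relation.ReflTransGen (fun L L' => ∃ x v, W.m L x ∧ ¬ W.m L v ∧ L' = L + t x + t v) K K' := by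
  classical
  have main : ∀ n : ℕ, ∀ K K' : Tg Ω, (K + K').support.card = n → W.lev K = W.lev K' →
      Relation.ReflTransGen (fun L L' => ∃ x v, W.m L x ∧ ¬ W.m L v ∧ L' = L + t x + t v)
        K K' := by
    intro n
    induction n using Nat.strong_induction_on with
    | _ n ih =>
      intro K K' hn h
      by_cases h0 : K + K' = 0
      · have : K' = K := by
          have := congrArg (fun z => K + z) h0
          simpa using this
        rw [this]
      have hpos : 0 < (K + K').support.card := by
        rw [Finset.card_pos, Finsupp.support_nonempty_iff]; exact h0
      have hx : ∃ x ∈ (K + K').support, W.m K x := by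
        by_contra hc
        push Not at hc
        have := W.linchain_out _ K K' rfl hc
        omega
      have hv : ∃ v ∈ (K + K').support, ¬ W.m K v := by
        by_contra hc
        push Not at hc
        have h2 : (K' + K).support = (K + K').support := by rw [add_comm]
        have := W.linchain_out _ K' K h2 (by
          intro x hx
          rw [W.linchain_m hx]
          simpa using hc x hx)
        omega
      obtain ⟨x, hx, mx⟩ := hx
      obtain ⟨v, hv, mv⟩ := hv
      have hxv := W.ne_of_m mx mv
      have mv' : ¬ W.m (K + t x) v := by rw [W.m_ne K hxv]; exact mv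
      have hl : W.lev (K + t x + t v) = W.lev K' := by
        rw [W.lev_out mv', W.lev_in mx, h]; ring
      have hs : (K + t x + t v + K').support = ((K + K').support.erase x).erase v := by
        have e : K + t x + t v + K' = K + K' + t x + t v := by abel
        rw [e, linchain_erase, linchain_erase _ hx]
        rw [linchain_erase _ hx]
        exact Finset.mem_erase.2 ⟨Ne.symm hxv, hv⟩
      have hlt : (K + t x + t v + K').support.card < n := by
        rw [hs, ← hn]
        refine lt_of_le_of_lt (Finset.card_le_card (Finset.erase_subset _ _)) ?_
        exact Finset.card_erase_lt_of_mem hx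
      exact Relation.ReflTransGen.head ⟨x, v, mx, mv, rfl⟩ (ih _ hlt _ _ rfl hl)
  exact main _ K K' rfl h

end PW

end Pool.Agent.Lib.MP_a572be_co
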