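import Pool.Agent.Lib.MP_a572be_co.LinB1
import Pool.Agent.Lib.MP_a572be_co.LinChain

/-!
# The partition attached to level `-2` sets does not depend on the set
-/

namespace Pool.Agent.Lib.MP_a572be_co

namespace World

variable {r : ℕ} {Ω : Type} (W : World r Ω)

private theorem linb2_lev {Z : Tg Ω} {n : ℤ} (hZ : W.lev Z = n) {a : Ω} (ha : ¬ W.m Z a) :
    W.lev (Z + t a) = n + 1 := by rw [W.toPW.lev_out ha, hZ]

/-- Marks of `Z` which are not equal are disjoint. -/
private theorem linb2_disj (h3 : W.Three) {Z : Tg Ω} (hZ : W.lev Z = -2) {a b : Ω}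
    (ha : ¬ W.m Z a) (hb : ¬ W.m Z b) (h : W.mark (Z + t a) ≠ W.mark (Z + t b)) :
    Disjoint (W.mark (Z + t a)) (W.mark (Z + t b)) := by
  rw [Set.disjoint_left]
  intro x hxa hxb
  exact h (W.mark_eq_or h3 hZ ha hb hxa hxb)

/-- Two different marks determine the partition. -/
private theorem linb2_pz (h3 : W.Three) {Z : Tg Ω} (hZ : W.lev Z = -2) {a u : Ω}
    (ha : ¬ W.m Z a) (hu : ¬ W.m Z u) (h : W.mark (Z + t u) ≠ W.mark (Z + t a)) (x y : Ω) :
    W.PZ Z x y ↔ ((x ∈ W.mark (Z + t a) ↔ y ∈ W.mark (Z + t a)) ∧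
      (x ∈ W.mark (Z + t u) ↔ y ∈ W.mark (Z + t u))) := by
  constructor
  · intro hp
    exact ⟨hp a ha, hp u hu⟩
  · rintro ⟨h1, h2⟩ c hc
    by_cases e1 : W.mark (Z + t c) = W.mark (Z + t a)
    · rw [e1]; exact h1
    by_cases e2 : W.mark (Z + t c) = W.mark (Z + t u)
    · rw [e2]; exact h2
    have d1 := W.linb2_disj h3 hZ hc ha e1
    have d2 := W.linb2_disj h3 hZ hc hu e2
    have d3 := W.linb2_disj h3 hZ hu ha h
    have la := W.linb2_lev hZ ha
    have lu := W.linb2_lev hZ hu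
    have lc := W.linb2_lev hZ hc
    norm_num at la lu lc
    have cov := W.mark_cover h3 lc lu la d2 d1 d3
    have key : ∀ w, (w ∈ W.mark (Z + t c) ↔ (w ∉ W.mark (Z + t a) ∧ w ∉ W.mark (Z + t u))) := by
      intro w
      constructor
      · intro hw
        exact ⟨Set.disjoint_left.1 d1 hw, Set.disjoint_left.1 d2 hw⟩
      · rintro ⟨k1, k2⟩
        rcases cov w with k | k | k
        · exact k
        · exact absurd k k2
        · exact absurd k k1
    rw [key x, key y, h1, h2]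

/-- **Sharing.** If `Z` and `Z'` have a common mark `P` and further marks `U ≠ P`, `U' ≠ P` which are
equal or disjoint, then `PZ Z = PZ Z'`. Proof: if `U = U'`, the three marks of `Z` are `P`, `U` and
the complement of `P ∪ U` (`z_three`, `mark_cover`, `mark_eq_or`), and the same for `Z'`. If `U` and
`U'` are disjoint then `P, U, U'` are pairwise disjoint (marks of `Z` are equal or disjoint), so
they cover everything, and the marks of `Z` are `P, U, U'`, and so are those of `Z'`. -/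
theorem pz_share (h3 : W.Three) {Z Z' : Tg Ω} (hZ : W.lev Z = -2) (hZ' : W.lev Z' = -2)
    {a a' u u' : Ω} (ha : ¬ W.m Z a) (ha' : ¬ W.m Z' a') (hu : ¬ W.m Z u) (hu' : ¬ W.m Z' u')
    (hP : W.mark (Z + t a) = W.mark (Z' + t a')) (h1 : W.mark (Z + t u) ≠ W.mark (Z + t a))
    (h2 : W.mark (Z' + t u') ≠ W.mark (Z' + t a'))
    (h : W.mark (Z + t u) = W.mark (Z' + t u') ∨ Disjoint (W.mark (Z + t u)) (W.mark (Z' + t u')))
    (x y : Ω) : W.PZ Z x y ↔ W.PZ Z' x y := by
  rw [W.linb2_pz h3 hZ ha hu h1, W.linb2_pz h3 hZ' ha' hu' h2, ← hP]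
  rcases h with h | h
  · rw [h]
  · have d1 := W.linb2_disj h3 hZ hu ha h1
    have d2 := W.linb2_disj h3 hZ' hu' ha' h2
    rw [← hP] at d2
    have la := W.linb2_lev hZ ha
    have lu := W.linb2_lev hZ hu
    have lu' := W.linb2_lev hZ' hu'
    norm_num at la lu lu'
    have cov := W.mark_cover h3 la lu lu' d1.symm d2.symm h
    have key : ∀ w, (w ∈ W.mark (Z' + t u') ↔
        (w ∉ W.mark (Z + t a) ∧ w ∉ W.mark (Z + t u))) := by
      intro w
      constructor
      · intro hw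
        exact ⟨Set.disjoint_left.1 d2 hw, Set.disjoint_right.1 h hw⟩
      · rintro ⟨k1, k2⟩
        rcases cov w with k | k | k
        · exact absurd k k1
        · exact absurd k k2
        · exact k
    have key' : ∀ w, (w ∈ W.mark (Z + t u) ↔
        (w ∉ W.mark (Z + t a) ∧ w ∉ W.mark (Z' + t u'))) := by
      intro w
      constructor
      · intro hw
        exact ⟨Set.disjoint_left.1 d1 hw, Set.disjoint_left.1 h hw⟩
      · rintro ⟨k1, k2⟩
        rcases cov w with k | k | k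
        · exact absurd k k1
        · exact k
        · exact absurd k k2
    constructor
    · rintro ⟨k1, k2⟩
      refine ⟨k1, ?_⟩
      rw [key x, key y, k1, k2]
    · rintro ⟨k1, k2⟩
      refine ⟨k1, ?_⟩
      rw [key' x, key' y, k1, k2]

/-- A point outside the mark `P`, whose value is different from `P`. -/
private theorem linb2_choose (h3 : W.Three) {Z : Tg Ω} (hZ : W.lev Z = -2) {p : Ω}
    (hp : ¬ W.m Z p) : ∃ x, ¬ W.m Z x ∧ x ∉ W.mark (Z + t p) ∧
      W.mark (Z + t x) ≠ W.mark (Z + t p) := by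
  classical
  obtain ⟨a, b, c, ha, hb, hc, dab, dac, dbc⟩ := W.z_three h3 hZ
  -- elements of marks outside `Z`
  have hel : ∀ q, ¬ W.m Z q → ∃ v, ¬ W.m Z v ∧ v ∈ W.mark (Z + t q) := by
    intro q hq
    have lq := W.linb2_lev hZ hq
    norm_num at lq
    obtain ⟨v, hvD, hvI, hE⟩ := W.axN (Z + t q) lq Z.support
    exact ⟨v, fun h => hvI ((mem_of_notMem_support W.I hvD).1 h), v, hE, W.toPW.eqv_refl _ _⟩
  -- two disjoint marks which are both disjoint from `P`
  have hne : ∀ q s, ¬ W.m Z q → ¬ W.m Z s → Disjoint (W.mark (Z + t q)) (W.mark (Z + t s)) →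
      W.mark (Z + t q) ≠ W.mark (Z + t s) := by
    intro q s hq hs hd he
    obtain ⟨v, _, hv⟩ := hel q hq
    exact Set.disjoint_left.1 hd hv (he ▸ hv)
  have hex : ∃ q s, ¬ W.m Z q ∧ ¬ W.m Z s ∧ Disjoint (W.mark (Z + t q)) (W.mark (Z + t s)) ∧
      Disjoint (W.mark (Z + t q)) (W.mark (Z + t p)) ∧
      Disjoint (W.mark (Z + t s)) (W.mark (Z + t p)) := by
    by_cases e1 : W.mark (Z + t a) = W.mark (Z + t p)
    · exact ⟨b, c, hb, hc, dbc, e1 ▸ dab.symm, e1 ▸ dac.symm⟩
    by_cases e2 : W.mark (Z + t b) = W.mark (Z + t p)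
    · exact ⟨a, c, ha, hc, dac, e2 ▸ dab, e2 ▸ dbc.symm⟩
    exact ⟨a, b, ha, hb, dab, W.linb2_disj h3 hZ ha hp e1, W.linb2_disj h3 hZ hb hp e2⟩
  obtain ⟨q, s, hq, hs, dqs, dqp, dsp⟩ := hex
  obtain ⟨v, mv, hv⟩ := hel q hq
  obtain ⟨w, mw, hw⟩ := hel s hs
  have hvw : W.mark (Z + t v) ≠ W.mark (Z + t w) := by
    intro he
    have := (W.pz_mk h3 hZ mv mw).2 he q hq
    exact Set.disjoint_left.1 dqs (this.1 hv) hw
  by_cases e : W.mark (Z + t v) = W.mark (Z + t p)
  · exact ⟨w, mw, Set.disjoint_left.1 dsp hw, fun h => hvw (e.trans h.symm)⟩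
  · exact ⟨v, mv, Set.disjoint_left.1 dqp hv, e⟩

/-- **One exchange.** For `Y` of level `-3` and distinct `a, b ∉ Y`, `PZ (Y + a) = PZ (Y + b)`.

Proof: `P = mark (Y + a + b)` is a mark of both `Y + a` and `Y + b`. There is `x1 ∉ P`, `x1 ∉ Y + a`,
`x1 ≠ b` with `mark (Y + a + x1) ≠ P`: choose (by `z_three` and `mark_joint`) two elements outside `P` in
different marks of `Y + a`; by `pz_mk` their values `mark (Y + a + x)` are different. Similarly
`x2 ∉ P`, `x2 ∉ Y + b`, with `mark (Y + b + x2) ≠ P`. Let `U ∋ x1` be the mark of `Y + a` containing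
`x1` and `U' ∋ x2` the mark of `Y + b` containing `x2`. If `U`, `U'` are disjoint we are done by
`pz_share`. Otherwise there is `x ∈ U ∩ U'`, and by `mark_joint` we may take `x ∉ Y ∪ {a, b}`. By `pz_mk`
`mark (Y + a + x) = mark (Y + a + x1) ≠ P` and `mark (Y + b + x) = mark (Y + b + x2) ≠ P`. Both are marks of
`Y + x`, so equal or disjoint (`mark_eq_or`), and we are done by `pz_share`. -/
theorem pz_exch (h3 : W.Three) {Y : Tg Ω} (hY : W.lev Y = -3) {a b : Ω} (ha : ¬ W.m Y a)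
    (hb : ¬ W.m Y b) (x y : Ω) : W.PZ (Y + t a) x y ↔ W.PZ (Y + t b) x y := by
  classical
  by_cases hab : a = b
  · rw [hab]
  have lZ : W.lev (Y + t a) = -2 := by rw [W.linb2_lev hY ha]; norm_num
  have lZ' : W.lev (Y + t b) = -2 := by rw [W.linb2_lev hY hb]; norm_num
  have hbZ : ¬ W.m (Y + t a) b := by rw [W.toPW.m_ne Y hab]; exact hb
  have haZ' : ¬ W.m (Y + t b) a := by rw [W.toPW.m_ne Y (Ne.symm hab)]; exact ha
  have hP : W.mark (Y + t a + t b) = W.mark (Y + t b + t a) := by rw [tg_comm]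
  obtain ⟨x1, mx1, x1P, hx1⟩ := W.linb2_choose h3 lZ hbZ
  obtain ⟨x2, mx2, x2P, hx2⟩ := W.linb2_choose h3 lZ' haZ'
  obtain ⟨u, hu, x1u⟩ := W.z_cover h3 lZ x1
  obtain ⟨u', hu', x2u'⟩ := W.z_cover h3 lZ' x2
  by_cases hd : Disjoint (W.mark (Y + t a + t u)) (W.mark (Y + t b + t u'))
  · exact W.pz_share h3 lZ lZ' hbZ haZ' hu hu' hP (fun h => x1P (h ▸ x1u))
      (fun h => x2P (h ▸ x2u')) (Or.inr hd) x y
  · obtain ⟨c, hc, hc'⟩ := Set.not_disjoint_iff.1 hd
    have lu := W.linb2_lev lZ hu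
    have lu' := W.linb2_lev lZ' hu'
    norm_num at lu lu'
    obtain ⟨d, hdD, _, hdI, hdm⟩ := W.mark_joint {Y + t a + t u, Y + t b + t u'} (by
      intro S hS
      simp only [Finset.mem_insert, Finset.mem_singleton] at hS
      rcases hS with rfl | rfl
      · exact lu
      · exact lu') c False (insert a (insert b Y.support))
    simp only [Finset.mem_insert, not_or] at hdD
    obtain ⟨hda, hdb, hdY⟩ := hdD
    have hdI' : d ∉ W.I := by simpa using hdI
    have mdY : ¬ W.m Y d := fun h => hdI' ((mem_of_notMem_support W.I hdY).1 h)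
    have mdZ : ¬ W.m (Y + t a) d := by rw [W.toPW.m_ne Y (Ne.symm hda)]; exact mdY
    have mdZ' : ¬ W.m (Y + t b) d := by rw [W.toPW.m_ne Y (Ne.symm hdb)]; exact mdY
    have d1 : d ∈ W.mark (Y + t a + t u) := (hdm _ (by simp)).1 hc
    have d2 : d ∈ W.mark (Y + t b + t u') := (hdm _ (by simp)).1 hc'
    have k1 : W.mark (Y + t a + t d) = W.mark (Y + t a + t x1) :=
      (W.pz_mk h3 lZ mdZ mx1).1 ((W.pz_iff h3 lZ d x1).2 ⟨u, hu, d1, x1u⟩)
    have k2 : W.mark (Y + t b + t d) = W.mark (Y + t b + t x2) :=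
      (W.pz_mk h3 lZ' mdZ' mx2).1 ((W.pz_iff h3 lZ' d x2).2 ⟨u', hu', d2, x2u'⟩)
    have lYd : W.lev (Y + t d) = -2 := by rw [W.linb2_lev hY mdY]; norm_num
    have hor : W.mark (Y + t a + t d) = W.mark (Y + t b + t d) ∨
        Disjoint (W.mark (Y + t a + t d)) (W.mark (Y + t b + t d)) := by
      by_cases he : W.mark (Y + t a + t d) = W.mark (Y + t b + t d)
      · exact Or.inl he
      · right
        rw [tg_comm Y a d, tg_comm Y b d] at he ⊢
        refine W.linb2_disj h3 lYd ?_ ?_ he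
        · rw [W.toPW.m_ne Y hda]; exact ha
        · rw [W.toPW.m_ne Y hdb]; exact hb
    exact W.pz_share h3 lZ lZ' hbZ haZ' mdZ mdZ' hP (by rw [k1]; exact hx1)
      (by rw [k2]; exact hx2) hor x y

/-- All level `-2` sets have the same partition (`pz_exch` and `lev_chain`: if `L' = L + x + v` with
`x ∈ L`, `v ∉ L`, take `Y = L + x`, so `L = Y + x`, `L' = Y + v`). -/
theorem pz_const (h3 : W.Three) {Z Z' : Tg Ω} (hZ : W.lev Z = -2) (hZ' : W.lev Z' = -2)
    (x y : Ω) : W.PZ Z x y ↔ W.PZ Z' x y := by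
  have hch := W.toPW.lev_chain (hZ.trans hZ'.symm)
  have key : ∀ L, Relation.ReflTransGen
      (fun L L' => ∃ x v, W.m L x ∧ ¬ W.m L v ∧ L' = L + t x + t v) Z L →
      W.lev L = -2 ∧ (W.PZ Z x y ↔ W.PZ L x y) := by
    intro L hL
    induction hL with
    | refl => exact ⟨hZ, Iff.rfl⟩
    | @tail L L' _ hs ih =>
      obtain ⟨a, v, ma, mv, rfl⟩ := hs
      obtain ⟨hl, hi⟩ := ih
      have hav := W.toPW.ne_of_m ma mv
      have lY : W.lev (L + t a) = -3 := by rw [W.toPW.lev_in ma, hl]; norm_num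
      have m1 : ¬ W.m (L + t a) a := by rw [W.toPW.m_self]; simpa using ma
      have m2 : ¬ W.m (L + t a) v := by rw [W.toPW.m_ne _ hav]; exact mv
      refine ⟨by rw [W.linb2_lev lY m2]; norm_num, ?_⟩
      rw [hi]
      have := W.pz_exch h3 lY m1 m2 x y
      rwa [tg_add_t_t] at this
  exact (key Z' hch).2

end World

end Pool.Agent.Lib.MP_a572be_co
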