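import Pool.Agent.Lib.MP_a572be_co.MainDefs

/-!
# Definitions for the linear case
-/

namespace Pool.Agent.Lib.MP_a572be_co

open Classical in
/-- The signed sum of the labels. -/
noncomputable def fsum {Ω : Type} (I : Set Ω) (lam : Ω → ZMod 3) (K : Tg Ω) : ZMod 3 :=
  ∑ x ∈ K.support, if x ∈ I then -(lam x) else lam x

open Classical in
theorem fsum_add_t {Ω : Type} (I : Set Ω) (lam : Ω → ZMod 3) (K : Tg Ω) (x : Ω) :
    fsum I lam (K + t x) = fsum I lam K + (if mem I K x then -(lam x) else lam x) := by
  unfold fsum
  rcases zmod2_cases (K x) with h | h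
  · have hs : (K + t x).support = insert x K.support := by
      ext y
      by_cases hy : x = y
      · subst hy; simp [h, t_self]
      · simp [t_ne hy, Ne.symm hy]
    have hn : x ∉ K.support := by simp [h]
    rw [hs, Finset.sum_insert hn]
    have hm : mem I K x ↔ x ∈ I := mem_of_notMem_support I hn
    simp only [hm]
    ring
  · have hs : (K + t x).support = K.support.erase x := by
      ext y
      by_cases hy : x = y
      · subst hy; simp [h, t_self]; decide
      · simp [t_ne hy, Ne.symm hy]
    have hn : x ∈ K.support := by simp [h]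
    rw [hs, ← Finset.add_sum_erase _ _ hn]
    have hm : mem I K x ↔ x ∉ I := by unfold mem; simp [h]
    simp only [hm]
    by_cases h2 : x ∈ I <;> simp [h2]

namespace PW

variable {r : ℕ} {Ω : Type} (W : PW r Ω)

/-- The mark of a level `-1` set. -/
def mark (S : Tg Ω) : Set Ω := {x | ∃ v, W.E (S + t v) ∧ W.Eqv (S + t v) v x}

/-- `x` and `y` belong to the same marks `mark (Z + a)`. -/
def PZ (Z : Tg Ω) (x y : Ω) : Prop :=
  ∀ a, ¬ W.m Z a → (x ∈ W.mark (Z + t a) ↔ y ∈ W.mark (Z + t a))

/-- All components have three classes. -/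
def Three : Prop := ∀ K A, ¬ W.Two K A

end PW

end Pool.Agent.Lib.MP_a572be_co
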