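import Pool.Agent.Lib.MP_a572be_co.MainFat

/-!
# Bad edges, part 1
-/

namespace Pool.Agent.Lib.MP_a572be_co

namespace World

variable {r : ℕ} {Ω : Type} (W : World r Ω)

theorem sim_refl (K : Tg Ω) (i : Ω) : W.Sim K i i := fun _ _ => Iff.rfl

theorem sim_symm {K : Tg Ω} {i l : Ω} (h : W.Sim K i l) : W.Sim K l i := fun v hv => (h v hv).symm

theorem sim_trans {K : Tg Ω} {i l u : Ω} (h : W.Sim K i l) (h' : W.Sim K l u) : W.Sim K i u :=
  fun v hv => (h v hv).trans (h' v hv)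

/-- If `K` has no D-pair then `N(K - i)` is everything possible, for `i ∈ A ∩ K`: for `v ∈ A`, `v ∉ K`
there is by `vis` some `x ∈ K` with `K - x + v` an edge, `x ∈ A` by `two_exch`, and `Sim K x i`. -/
theorem full_of_not_dpair {K0 K : Tg Ω} {A : Set Ω} (hT : W.Two K0 A) (hc : W.Conn K0 K)
    (h : ¬ W.DPair A K) {i v : Ω} (hi : i ∈ A) (mi : W.m K i) (hv : v ∈ A) (mv : ¬ W.m K v) :
    W.E (K + t i + t v) := by
  obtain ⟨x, _, hx, hE⟩ := W.toPW.vis (W.toPW.conn_E hT.1 hc) mv (W.notP v) ∅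
  have hxA : x ∈ A := (W.two_exch hT hc hx mv hE).2 hv
  by_contra hne
  apply h
  exact ⟨x, i, hxA, hi, hx, mi, fun hs => hne ((hs v mv).1 hE)⟩

/-- The A-move preserves D-pairs: let `K' = K - i + v`, `i, v ∈ A`. If `K'` had no D-pair then
`N(K' - v) = N(K - i)` would be everything (`full_of_not_dpair`), but by `b3` there is `u ∈ A`
outside `K` which is not a neighbour of `K - i`; `u ≠ v` and `u ∉ K'`. -/
theorem dpair_A {K0 K : Tg Ω} {A : Set Ω} (hT : W.Two K0 A) (hc : W.Conn K0 K) {z : Ω}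
    (hbad : W.BadStr K A z) {i v : Ω} (hi : i ∈ A) (mi : W.m K i) (mv : ¬ W.m K v)
    (hE : W.E (K + t i + t v)) : W.DPair A (K + t i + t v) := by
  by_contra h
  obtain ⟨u, mu, hu, hnE⟩ := hbad.b3 i hi mi
  have huv : u ≠ v := by rintro rfl; exact hnE hE
  have hiv : i ≠ v := W.toPW.ne_of_m mi mv
  have hiu : i ≠ u := W.toPW.ne_of_m mi mu
  have hvA : v ∈ A := (W.two_exch hT hc mi mv hE).1 hi
  have hc' : W.Conn K0 (K + t i + t v) :=
    W.toPW.conn_trans hc (W.toPW.conn_mk (W.toPW.conn_E hT.1 hc) mi mv hE)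
  have m1 : W.m (K + t i + t v) v := by
    rw [W.toPW.m_self, W.toPW.m_ne _ hiv]; exact mv
  have m2 : ¬ W.m (K + t i + t v) u := by
    rw [W.toPW.m_ne _ (Ne.symm huv), W.toPW.m_ne _ hiu]; exact mu
  have h1 := W.full_of_not_dpair hT hc' h hvA m1 hu m2
  rw [tg_add_t_t] at h1
  exact hnE h1

/-- `W' - x` (coded by `W' + t x`) for `W' = K + v`. -/
theorem mainbad1_bad {K0 K : Tg Ω} {A : Set Ω} (hT : W.Two K0 A)
    (hbad : ∀ L, W.Conn K0 L → W.DPair A L → ∀ z, z ∉ A → ¬ W.m L z → W.BadStr L A z)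
    (hc : W.Conn K0 K) (hD : W.DPair A K) {v : Ω} (hv : v ∈ A) (mv : ¬ W.m K v)
    (h : ∀ i ∈ A, W.m K i → W.E (K + t i + t v)) {z : Ω} (hz : z ∉ A) (mz : ¬ W.m K z)
    {x : Ω} (hx : x ∈ A) (mx : W.m (K + t v) x) : W.BadStr (K + t v + t x) A z := by
  by_cases hxv : v = x
  · subst hxv
    rw [tg_add_t_t]
    exact hbad K hc hD z hz mz
  · have mx' : W.m K x := (W.toPW.m_ne K hxv).1 mx
    have hE := h x hx mx'
    have hb := hbad K hc hD z hz mz
    have hD' := W.dpair_A hT hc hb hx mx' mv hE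
    have hc' : W.Conn K0 (K + t x + t v) :=
      W.toPW.conn_trans hc (W.toPW.conn_mk (W.toPW.conn_E hT.1 hc) mx' mv hE)
    rw [tg_comm]
    refine hbad _ hc' hD' z hz ?_
    rw [W.toPW.m_ne _ (by rintro rfl; exact hz hv), W.toPW.m_ne _ (by rintro rfl; exact hz hx)]
    exact mz

/-- The relation `Tri x y w`. -/
def MainBad1Tri (U : Tg Ω) (A : Set Ω) (z x y w : Ω) : Prop :=
  ∃ u ∈ A, W.E (U + t z + t x + t y + t w + t u)

theorem mainbad1_tri_comm12 {U : Tg Ω} {A : Set Ω} {z x y w : Ω} :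
    W.MainBad1Tri U A z x y w ↔ W.MainBad1Tri U A z y x w := by
  unfold MainBad1Tri
  have : ∀ u, U + t z + t x + t y + t w + t u = U + t z + t y + t x + t w + t u := fun u => by abel
  simp only [this]

theorem mainbad1_tri_comm23 {U : Tg Ω} {A : Set Ω} {z x y w : Ω} :
    W.MainBad1Tri U A z x y w ↔ W.MainBad1Tri U A z x w y := by
  unfold MainBad1Tri
  have : ∀ u, U + t z + t x + t y + t w + t u = U + t z + t x + t w + t y + t u := fun u => by abel
  simp only [this]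

theorem mainbad1_tri {U : Tg Ω} {A : Set Ω} {z x y w : Ω} (hb : W.BadStr (U + t x) A z)
    (hy : y ∈ A) (hw : w ∈ A) (my : W.m (U + t x) y) (mw : W.m (U + t x) w) (hyw : y ≠ w) :
    W.MainBad1Tri U A z x y w ↔ W.Sim (U + t x) y w := by
  have e : ∀ u, U + t z + t x + t y + t w + t u = U + t x + t y + t w + t z + t u :=
    fun u => by abel
  constructor
  · rintro ⟨u, hu, hE⟩
    by_contra hs
    rw [e] at hE
    exact hb.b1 y w u hy hw my mw hyw hs hE hu
  · intro hs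
    obtain ⟨u, mu, hu, hnE⟩ := hb.b3 y hy my
    refine ⟨u, hu, ?_⟩
    rw [e]
    exact hb.b2 y w u hy hw my mw hyw hs mu hu hnE

theorem mainbad1_one {U : Tg Ω} {A : Set Ω} {z x y w u : Ω} (hb : W.BadStr (U + t x) A z)
    (hy : y ∈ A) (hw : w ∈ A) (hu : u ∈ A) (my : W.m (U + t x) y) (mw : W.m (U + t x) w)
    (mu : W.m (U + t x) u) (hyw : y ≠ w) (hyu : y ≠ u) (hwu : w ≠ u)
    (hn : ¬ W.MainBad1Tri U A z x y w) :
    ¬ (W.MainBad1Tri U A z x y u ↔ W.MainBad1Tri U A z x w u) := by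
  rw [W.mainbad1_tri hb hy hw my mw hyw] at hn
  rw [W.mainbad1_tri hb hy hu my mu hyu, W.mainbad1_tri hb hw hu mw mu hwu]
  intro hiff
  rcases hb.b4 y w u hy hw hu my mw mu hn with h | h
  · exact hn (W.sim_trans (W.sim_symm h) (W.sim_symm (hiff.1 (W.sim_symm h))))
  · exact hn (W.sim_trans (hiff.2 (W.sim_symm h)) h)

/-- **The case X2.** Suppose that every edge of the component with a D-pair is bad for every
`z`. If `K` has a D-pair and `v ∈ A` is a neighbour of all `K - i`, `i ∈ A ∩ K`, we get a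
contradiction.

Proof. Let `W' = K + v` and let `z ∉ A`, `z ∉ W'`. For `x ∈ A ∩ W'` the set `W' - x` is an edge of the
component with a D-pair (`K` itself for `x = v`, `dpair_A` otherwise), so it is bad. For distinct
`x, y, w ∈ A ∩ W'` let `Tri x y w` mean: some `u ∈ A` is a neighbour of `W' + z - x - y - w`. This is
symmetric, and `Tri x y w ↔ Sim (W' - x) y w` (`b1` for `→`, `b3` and `b2` for `←`; `b3` gives
`u ∈ A` outside `W' - x`, and `u ≠ z`). `K` has a D-pair: `¬ Sim K y w`, `y ≠ w`; let `x = v`. Take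
a fourth element `u ∈ A ∩ W'` (`two_mem`). From `¬ Tri x y w`: at `x`, `b4` and transitivity of `Sim`
give that exactly one of `Tri x y u`, `Tri x w u` holds; at `y` exactly one of `Tri y x u`,
`Tri y w u`; at `w` exactly one of `Tri w x u`, `Tri w y u`. With `a = Tri x y u`, `b = Tri x w u`,
`c = Tri y w u`: exactly one of `a, b`, exactly one of `a, c`, exactly one of `b, c`: impossible. -/
theorem no_X2 {K0 K : Tg Ω} {A : Set Ω} (hT : W.Two K0 A)
    (hbad : ∀ L, W.Conn K0 L → W.DPair A L → ∀ z, z ∉ A → ¬ W.m L z → W.BadStr L A z)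
    (hc : W.Conn K0 K) (hD : W.DPair A K) {v : Ω} (hv : v ∈ A) (mv : ¬ W.m K v)
    (h : ∀ i ∈ A, W.m K i → W.E (K + t i + t v)) : False := by
  classical
  obtain ⟨z, _, mz, hz⟩ := W.two_out' hT (K + t v) ∅
  have mz' : ¬ W.m K z := by
    rwa [W.toPW.m_ne K (by rintro rfl; exact hz hv)] at mz
  have key : ∀ x, x ∈ A → W.m (K + t v) x → W.BadStr (K + t v + t x) A z := fun x hx mx =>
    W.mainbad1_bad hT hbad hc hD hv mv h hz mz' hx mx
  obtain ⟨y, w, hy, hw, my, mw, hns⟩ := id hD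
  obtain ⟨u, huD, mu, hu⟩ := W.two_mem hT (K + t v) {v, y, w}
  simp only [Finset.mem_insert, Finset.mem_singleton, not_or] at huD
  obtain ⟨huv, huy, huw⟩ := huD
  have hyw : y ≠ w := by rintro rfl; exact hns (W.sim_refl _ _)
  have hyv : y ≠ v := W.toPW.ne_of_m my mv
  have hwv : w ≠ v := W.toPW.ne_of_m mw mv
  have mv' : W.m (K + t v) v := (W.toPW.m_self K v).2 mv
  have my' : W.m (K + t v) y := (W.toPW.m_ne K hyv.symm).2 my
  have mw' : W.m (K + t v) w := (W.toPW.m_ne K hwv.symm).2 mw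
  have mem2 : ∀ x a, x ≠ a → W.m (K + t v) a → W.m (K + t v + t x) a := fun x a hxa ha =>
    (W.toPW.m_ne _ hxa).2 ha
  have hT1 : ¬ W.MainBad1Tri (K + t v) A z v y w := by
    rw [W.mainbad1_tri (key v hv mv') hy hw (mem2 v y hyv.symm my') (mem2 v w hwv.symm mw') hyw,
      tg_add_t_t]
    exact hns
  have hT2 : ¬ W.MainBad1Tri (K + t v) A z y v w := by
    rwa [W.mainbad1_tri_comm12]
  have hT3 : ¬ W.MainBad1Tri (K + t v) A z w v y := by
    rwa [W.mainbad1_tri_comm12, W.mainbad1_tri_comm23]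
  have o1 := W.mainbad1_one (key v hv mv') hy hw hu (mem2 v y hyv.symm my')
    (mem2 v w hwv.symm mw') (mem2 v u (Ne.symm huv) mu) hyw (Ne.symm huy) (Ne.symm huw) hT1
  have o2 := W.mainbad1_one (key y hy my') hv hw hu (mem2 y v hyv mv')
    (mem2 y w hyw mw') (mem2 y u (Ne.symm huy) mu) hwv.symm (Ne.symm huv) (Ne.symm huw) hT2
  have o3 := W.mainbad1_one (key w hw mw') hv hy hu (mem2 w v hwv mv')
    (mem2 w y hyw.symm my') (mem2 w u (Ne.symm huw) mu) hyv.symm (Ne.symm huv) (Ne.symm huy) hT3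
  have c1 : W.MainBad1Tri (K + t v) A z y v u ↔ W.MainBad1Tri (K + t v) A z v y u :=
    W.mainbad1_tri_comm12
  have c2 : W.MainBad1Tri (K + t v) A z w v u ↔ W.MainBad1Tri (K + t v) A z v w u :=
    W.mainbad1_tri_comm12
  have c3 : W.MainBad1Tri (K + t v) A z w y u ↔ W.MainBad1Tri (K + t v) A z y w u :=
    W.mainbad1_tri_comm12
  rw [c1] at o2
  rw [c2, c3] at o3
  clear c1 c2 c3 hT1 hT2 hT3 mem2 key hbad h
  generalize W.MainBad1Tri (K + t v) A z v y u = a at o1 o2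
  generalize W.MainBad1Tri (K + t v) A z v w u = b at o1 o3
  generalize W.MainBad1Tri (K + t v) A z y w u = c at o2 o3
  by_cases ha : a <;> by_cases hb : b <;> by_cases hcc : c <;> simp [ha, hb, hcc] at o1 o2 o3

end World

end Pool.Agent.Lib.MP_a572be_co
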