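import Pool.Agent.Lib.MP_a572be_co.MainBad1

/-!
# Bad edges, part 2
-/

namespace Pool.Agent.Lib.MP_a572be_co

namespace World

variable {r : ℕ} {Ω : Type} (W : World r Ω)

/-- A common neighbour of `K - a` and `K - b` is outside `K`. -/
theorem mainbad2_out {K : Tg Ω} (hK : W.E K) {a b v : Ω} (ma : W.m K a) (mb : W.m K b)
    (hab : a ≠ b) (h1 : W.E (K + t a + t v)) (h2 : W.E (K + t b + t v)) : ¬ W.m K v := by
  have n1 := W.toPW.not_m_of_E (W.toPW.lev_S hK ma) h1
  have n2 := W.toPW.not_m_of_E (W.toPW.lev_S hK mb) h2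
  by_cases hva : a = v
  · subst hva
    rw [W.toPW.m_ne K hab.symm] at n2
    exact absurd ma n2
  · rwa [W.toPW.m_ne K hva] at n1

/-- Consequences, for every edge `K` of the component with a D-pair (all of them bad):
(x2) if `v ∉ K` is a common neighbour of `K - a` and `K - b`, `a, b ∈ A ∩ K`, then `Sim K a b`
(otherwise every `i ∈ A ∩ K` is `Sim` to `a` or `b` by `b4`, so `v` is a neighbour of all `K - i`:
`no_X2`; note `v ∈ A` by `two_exch`);
(x4) if `¬ Sim K a b` then every `v ∈ A` outside `K` is a neighbour of `K - a` or of `K - b` (`vis`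
and `b4`);
(x3) for `j ∈ K`, `j ∉ A` and `y ∉ A`, `y ∉ K` the set `K - j + y` is an edge (take `a, b` with
`¬ Sim K a b`; `K - a`, `K - b`, `K - j` are pairwise disjoint by (x2) and `dj_of_not_eqv`, `cover3`,
and `y` is not a neighbour of `K - a`, `K - b` by `two_exch`). -/
theorem x_facts {K0 K : Tg Ω} {A : Set Ω} (hT : W.Two K0 A)
    (hbad : ∀ L, W.Conn K0 L → W.DPair A L → ∀ z, z ∉ A → ¬ W.m L z → W.BadStr L A z)
    (hc : W.Conn K0 K) (hD : W.DPair A K) :
    (∀ a b v, a ∈ A → b ∈ A → W.m K a → W.m K b → ¬ W.m K v → W.E (K + t a + t v) →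
      W.E (K + t b + t v) → W.Sim K a b) ∧
    (∀ a b v, a ∈ A → b ∈ A → W.m K a → W.m K b → ¬ W.Sim K a b → v ∈ A → ¬ W.m K v →
      W.E (K + t a + t v) ∨ W.E (K + t b + t v)) ∧
    (∀ j y, j ∉ A → W.m K j → y ∉ A → ¬ W.m K y → W.E (K + t j + t y)) := by
  classical
  have hK : W.E K := W.toPW.conn_E hT.1 hc
  have hT' : W.Two K A := W.two_conn hT hc
  obtain ⟨z, _, mz, hz⟩ := W.two_out' hT K ∅
  have hb := hbad K hc hD z hz mz
  have x2 : ∀ a b v, a ∈ A → b ∈ A → W.m K a → W.m K b → ¬ W.m K v → W.E (K + t a + t v) →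
      W.E (K + t b + t v) → W.Sim K a b := by
    intro a b v ha hb' ma mb mv h1 h2
    by_contra hs
    have hv : v ∈ A := (W.two_exch hT hc ma mv h1).1 ha
    refine W.no_X2 hT hbad hc hD hv mv (fun i hi mi => ?_)
    rcases hb.b4 a b i ha hb' hi ma mb mi hs with h | h
    · exact (h v mv).2 h1
    · exact (h v mv).2 h2
  refine ⟨x2, ?_, ?_⟩
  · intro a b v ha hb' ma mb hs hv mv
    obtain ⟨x, _, hx, hE⟩ := W.toPW.vis hK mv (W.notP v) ∅
    have hxA : x ∈ A := (W.two_exch hT hc hx mv hE).2 hv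
    rcases hb.b4 a b x ha hb' hxA ma mb hx hs with h | h
    · exact Or.inl ((h v mv).1 hE)
    · exact Or.inr ((h v mv).1 hE)
  · intro j y hj mj hy my
    obtain ⟨a, b, ha, hb', ma, mb, hs⟩ := hD
    have hab : a ≠ b := by rintro rfl; exact hs (W.sim_refl _ _)
    have d12 : W.Dj (K + t a) (K + t b) := by
      intro v _ hv
      have mv := W.mainbad2_out hK ma mb hab hv.1 hv.2
      exact hs (x2 a b v ha hb' ma mb mv hv.1 hv.2)
    have d13 : W.Dj (K + t a) (K + t j) := W.toPW.dj_of_not_eqv hK ma mj (by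
      intro h; exact hj (((hT'.2.1 a j).1 h).1 ha))
    have d23 : W.Dj (K + t b) (K + t j) := W.toPW.dj_of_not_eqv hK mb mj (by
      intro h; exact hj (((hT'.2.1 b j).1 h).1 hb'))
    have hay : a ≠ y := W.toPW.ne_of_m ma my
    have hby : b ≠ y := W.toPW.ne_of_m mb my
    have hjy : j ≠ y := W.toPW.ne_of_m mj my
    rcases W.toPW.cover3 (W.toPW.lev_S hK ma) (W.toPW.lev_S hK mb) (W.toPW.lev_S hK mj) d12 d13 d23
      (W.notP y) (by rw [W.toPW.m_ne K hay]; exact my) (by rw [W.toPW.m_ne K hby]; exact my)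
      (by rw [W.toPW.m_ne K hjy]; exact my) with h | h | h
    · exact absurd ((W.two_exch hT hc ma my h).1 ha) hy
    · exact absurd ((W.two_exch hT hc mb my h).1 hb') hy
    · exact h

/-- All edges of the component have a D-pair. Induction along `Conn`; A-moves by `dpair_A`. B-move
`K' = K - j + y`, `j, y ∉ A`: suppose `K'` has no D-pair; take distinct `a, b ∈ A ∩ K` with
`Sim K a b` (three elements of `A ∩ K`, two of them not `Sim`; `b4`). By `b3` there is `v ∈ A`
outside `K` with `K - a + v` not an edge, and by `b2` (bad for `K` and `z = y`), `v` is a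
neighbour of `K - a - b + y`. But `K - a - b + y = K' - a - b + j` and `v` is a neighbour of `K' - a`
by `full_of_not_dpair`: contradiction to `dj_T` for `K'` and `z = j`. -/
theorem all_dpair {K0 : Tg Ω} {A : Set Ω} (hT : W.Two K0 A)
    (hbad : ∀ L, W.Conn K0 L → W.DPair A L → ∀ z, z ∉ A → ¬ W.m L z → W.BadStr L A z)
    (hD : W.DPair A K0) {K : Tg Ω} (hc : W.Conn K0 K) : W.DPair A K := by
  classical
  induction hc with
  | refl => exact hD
  | @tail K K' hc h2 ih =>
    have hc : W.Conn K0 K := hc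
    obtain ⟨hK, hK', j, y, mj, my, rfl⟩ := h2
    by_cases hj : j ∈ A
    · obtain ⟨z, _, mz, hz⟩ := W.two_out' hT K ∅
      exact W.dpair_A hT hc (hbad K hc ih z hz mz) hj mj my hK'
    · have hy : y ∉ A := fun h => hj ((W.two_exch hT hc mj my hK').2 h)
      have hb := hbad K hc ih y hy my
      by_contra hn
      -- two distinct elements which are `Sim`
      have hex : ∃ a b, a ∈ A ∧ b ∈ A ∧ W.m K a ∧ W.m K b ∧ a ≠ b ∧ W.Sim K a b := by
        obtain ⟨a, b, ha, hb', ma, mb, hs⟩ := ih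
        obtain ⟨u, huD, mu, hu⟩ := W.two_mem hT K {a, b}
        simp only [Finset.mem_insert, Finset.mem_singleton, not_or] at huD
        rcases hb.b4 a b u ha hb' hu ma mb mu hs with h | h
        · exact ⟨u, a, hu, ha, mu, ma, huD.1, h⟩
        · exact ⟨u, b, hu, hb', mu, mb, huD.2, h⟩
      obtain ⟨a, b, ha, hb', ma, mb, hab, hs⟩ := hex
      obtain ⟨v, mv, hv, hnE⟩ := hb.b3 a ha ma
      have hE2 := hb.b2 a b v ha hb' ma mb hab hs mv hv hnE
      have hc' : W.Conn K0 (K + t j + t y) :=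
        W.toPW.conn_trans hc (W.toPW.conn_mk hK mj my hK')
      have hT' := W.two_conn hT hc'
      have hja : j ≠ a := by rintro rfl; exact hj ha
      have hjb : j ≠ b := by rintro rfl; exact hj hb'
      have hjv : j ≠ v := W.toPW.ne_of_m mj mv
      have hya : y ≠ a := (W.toPW.ne_of_m ma my).symm
      have hyb : y ≠ b := (W.toPW.ne_of_m mb my).symm
      have hyv : y ≠ v := by rintro rfl; exact hy hv
      have hjy : j ≠ y := W.toPW.ne_of_m mj my
      have ma' : W.m (K + t j + t y) a := by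
        rw [W.toPW.m_ne _ hya, W.toPW.m_ne _ hja]; exact ma
      have mb' : W.m (K + t j + t y) b := by
        rw [W.toPW.m_ne _ hyb, W.toPW.m_ne _ hjb]; exact mb
      have mv' : ¬ W.m (K + t j + t y) v := by
        rw [W.toPW.m_ne _ hyv, W.toPW.m_ne _ hjv]; exact mv
      have mj' : ¬ W.m (K + t j + t y) j := by
        rw [W.toPW.m_ne _ hjy.symm, W.toPW.m_self]; simpa using mj
      have h1 := W.full_of_not_dpair hT hc' hn ha ma' hv mv'
      have hd := W.dj_T hT' ha hb' ma' mb' hab hj mj'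
      refine hd v (W.notP v) ⟨h1, ?_⟩
      have e : K + t j + t y + t a + t b + t j + t v = K + t a + t b + t y + t v := by
        abel_nf; simp
      rw [e]
      exact hE2

end World

end Pool.Agent.Lib.MP_a572be_co
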