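import Pool.Agent.Lib.MP_a572be_co.MainFat
import Pool.Agent.Lib.MP_a572be_co.Center

/-!
# The centre value
-/

namespace Pool.Agent.Lib.MP_a572be_co

namespace World

variable {r : ℕ} {Ω : Type} (W : World r Ω)

theorem maincentre_taut {P Q R : Prop} (h1 : P ∨ Q) (h2 : P ∨ R) (h3 : R ∨ Q)
    (h4 : ¬ (P ∧ Q)) (h5 : ¬ (P ∧ R)) (h6 : ¬ (R ∧ Q)) : False := by tauto

theorem maincentre_lev {K : Tg Ω} (hK : W.E K) {i l z : Ω} (mi : W.m K i) (ml : W.m K l)
    (hil : i ≠ l) (mz : ¬ W.m K z) : W.lev (K + t i + t l + t z) = -1 := by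
  have hzi : i ≠ z := W.toPW.ne_of_m mi mz
  have hzl : l ≠ z := W.toPW.ne_of_m ml mz
  rw [W.toPW.lev_out, W.toPW.lev_in, W.toPW.lev_in mi, W.toPW.lev_E hK]
  · ring
  · rw [W.toPW.m_ne K hil]; exact ml
  · rw [W.toPW.m_ne _ hzl, W.toPW.m_ne K hzi]; exact mz

theorem maincentre_comm (K : Tg Ω) (i l z : Ω) :
    K + t i + t l + t z = K + t l + t i + t z := by rw [tg_comm K i l]

theorem maincentre_dj {K : Tg Ω} (hK : W.E K) {i l j z : Ω} (mi : W.m K i) (ml : W.m K l)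
    (mj : W.m K j) (hil : i ≠ l) (hij : i ≠ j) (hlj : l ≠ j) (mz : ¬ W.m K z)
    (h : ¬ W.SameVal (K + t i + t l + t z) (K + t i + t j + t z)) :
    W.Dj (K + t i + t l + t z) (K + t i + t j + t z) := by
  have hzi : i ≠ z := W.toPW.ne_of_m mi mz
  have hzl : l ≠ z := W.toPW.ne_of_m ml mz
  have hzj : j ≠ z := W.toPW.ne_of_m mj mz
  intro v _ hv
  apply h
  have e : K + t i + t l + t z + t j + t l = K + t i + t j + t z := by
    have : K + t i + t l + t z + t j + t l = K + t i + t j + t z + (t l + t l) := by abel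
    rw [this, tg_add_self, add_zero]
  have m1 : W.m (K + t i + t l + t z) j := by
    rw [W.toPW.m_ne _ hzj.symm, W.toPW.m_ne _ hlj, W.toPW.m_ne _ hij]
    exact mj
  have m2 : ¬ W.m (K + t i + t l + t z) l := by
    rw [W.toPW.m_ne _ hzl.symm, W.toPW.m_self, W.toPW.m_ne _ hil]
    simpa using ml
  have := (W.toPW.sameVal_of_common (W.maincentre_lev hK mi ml hil mz) m1 m2 hv.1
    (by rw [e]; exact hv.2)).1
  rwa [e] at this

theorem maincentre_four {S1 S2 S3 S4 : Tg Ω} (h1 : W.lev S1 = -1) (h2 : W.lev S2 = -1)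
    (h3 : W.lev S3 = -1) (h4 : W.lev S4 = -1) (d12 : W.Dj S1 S2) (d13 : W.Dj S1 S3)
    (d14 : W.Dj S1 S4) (d23 : W.Dj S2 S3) (d24 : W.Dj S2 S4) (d34 : W.Dj S3 S4) : False := by
  obtain ⟨a, b, hab, hd⟩ := W.toPW.four ![S1, S2, S3, S4] (by
    intro a
    fin_cases a
    · exact h1
    · exact h2
    · exact h3
    · exact h4)
  fin_cases a <;> fin_cases b <;>
    first
      | exact hab rfl
      | exact hd d12 | exact hd d13 | exact hd d14
      | exact hd d23 | exact hd d24 | exact hd d34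
      | exact hd (W.toPW.dj_symm d12) | exact hd (W.toPW.dj_symm d13)
      | exact hd (W.toPW.dj_symm d14) | exact hd (W.toPW.dj_symm d23)
      | exact hd (W.toPW.dj_symm d24) | exact hd (W.toPW.dj_symm d34)

/-- The centre value. Write `T x y = K - x - y + z` for distinct `x, y ∈ A ∩ K`. There are
`i0 ≠ l0` in `A ∩ K` such that the graph on `A ∩ K` in which `x`, `y` are adjacent when `T x y` has
the same value as `T i0 l0` is connected.

Proof. Apply `center` to `X = {x // x ∈ A ∧ m K x}` and the colouring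
`θ x y = {S | lev S = -1 ∧ SameVal (T x y) S}` (for `x = y` anything symmetric, e.g. `∅`); two colours
are equal iff `SameVal (T x y) (T x' y')` (`sameVal_refl`, `sameVal_symm`, `sameVal_trans`).
(h4): for `i` and distinct `l1, l2, l3` with pairwise different values, the four sets `K - i`,
`T i l1`, `T i l2`, `T i l3` have pairwise disjoint neighbourhoods (`dj_T` and
`sameVal_of_common`; `T i l2 = T i l1 + l1 - l2`), contradicting `four`.
(h3): suppose `T i l`, `T l j`, `T i j` have pairwise different values. They are pairwise disjoint.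
`K - i`, `T i l`, `T i j` are pairwise disjoint, so by `cover3` every `v ∉ K`, `v ≠ z` is a neighbour
of one of them; similarly for `l` and `j`. Take `v ∉ A`, `v ∉ K`, `v ≠ z` (`two_out'`); it is not a
neighbour of `K - i`, `K - l`, `K - j` (`two_exch`), so it is a neighbour of at least two of
`T i l`, `T l j`, `T i j`: contradiction. -/
theorem centre_value {K : Tg Ω} {A : Set Ω} (hT : W.Two K A) {z : Ω} (hz : z ∉ A)
    (mz : ¬ W.m K z) :
    ∃ i0 l0, i0 ∈ A ∧ l0 ∈ A ∧ W.m K i0 ∧ W.m K l0 ∧ i0 ≠ l0 ∧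
      ∀ x y, x ∈ A → W.m K x → y ∈ A → W.m K y → Relation.ReflTransGen (fun a b =>
        a ≠ b ∧ (a ∈ A ∧ W.m K a) ∧ (b ∈ A ∧ W.m K b) ∧
        W.SameVal (K + t i0 + t l0 + t z) (K + t a + t b + t z)) x y := by
  classical
  have hK : W.E K := hT.1
  let X : Type := {x : Ω // x ∈ A ∧ W.m K x}
  let θ : X → X → Set (Tg Ω) := fun x y => if x = y then ∅ else
    {S | W.lev S = -1 ∧ W.SameVal (K + t x.1 + t y.1 + t z) S}
  have hlev : ∀ x y : X, x ≠ y → W.lev (K + t x.1 + t y.1 + t z) = -1 := by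
    intro x y hxy
    exact W.maincentre_lev hK x.2.2 y.2.2 (fun h => hxy (Subtype.ext h)) mz
  have hθ : ∀ x y x' y' : X, x ≠ y → x' ≠ y' → (θ x y = θ x' y' ↔
      W.SameVal (K + t x.1 + t y.1 + t z) (K + t x'.1 + t y'.1 + t z)) := by
    intro x y x' y' hxy hxy'
    have e1 : θ x y = {S | W.lev S = -1 ∧ W.SameVal (K + t x.1 + t y.1 + t z) S} := if_neg hxy
    have e2 : θ x' y' = {S | W.lev S = -1 ∧ W.SameVal (K + t x'.1 + t y'.1 + t z) S} :=
      if_neg hxy'
    rw [e1, e2]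
    constructor
    · intro h
      have h1 : (K + t x'.1 + t y'.1 + t z) ∈
          {S | W.lev S = -1 ∧ W.SameVal (K + t x'.1 + t y'.1 + t z) S} :=
        ⟨hlev _ _ hxy', W.toPW.sameVal_refl (hlev _ _ hxy')⟩
      rw [← h] at h1
      exact h1.2
    · intro h
      ext S
      constructor
      · rintro ⟨h1, h2⟩
        exact ⟨h1, W.toPW.sameVal_trans (hlev _ _ hxy) (W.toPW.sameVal_symm h) h2⟩
      · rintro ⟨h1, h2⟩
        exact ⟨h1, W.toPW.sameVal_trans (hlev _ _ hxy') h h2⟩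
  have hs : ∀ a b : X, θ a b = θ b a := by
    intro a b
    by_cases hab : a = b
    · rw [hab]
    · rw [hθ a b b a hab (Ne.symm hab), maincentre_comm K a.1 b.1 z]
      exact W.toPW.sameVal_refl (hlev _ _ (Ne.symm hab))
  have h2 : ∃ a b : X, a ≠ b := by
    obtain ⟨a, _, ma, ha⟩ := W.two_mem hT K ∅
    obtain ⟨b, hb, mb, hbA⟩ := W.two_mem hT K {a}
    refine ⟨⟨a, ha, ma⟩, ⟨b, hbA, mb⟩, fun h => hb ?_⟩
    rw [Finset.mem_singleton]
    exact (Subtype.ext_iff.1 h).symm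
  have hdj : ∀ i l j : X, i ≠ l → i ≠ j → l ≠ j → θ i l ≠ θ i j →
      W.Dj (K + t i.1 + t l.1 + t z) (K + t i.1 + t j.1 + t z) := by
    intro i l j hil hij hlj hne
    refine W.maincentre_dj hK i.2.2 l.2.2 j.2.2 (fun h => hil (Subtype.ext h))
      (fun h => hij (Subtype.ext h)) (fun h => hlj (Subtype.ext h)) mz ?_
    intro h
    exact hne ((hθ i l i j hil hij).2 h)
  have hdT : ∀ i l : X, i ≠ l → W.Dj (K + t i.1) (K + t i.1 + t l.1 + t z) := by
    intro i l hil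
    exact W.dj_T hT i.2.1 l.2.1 i.2.2 l.2.2 (fun h => hil (Subtype.ext h)) hz mz
  have h4 : ∀ i l1 l2 l3 : X, i ≠ l1 → i ≠ l2 → i ≠ l3 →
      θ i l1 = θ i l2 ∨ θ i l1 = θ i l3 ∨ θ i l2 = θ i l3 := by
    intro i l1 l2 l3 n1 n2 n3
    by_contra hcon
    push Not at hcon
    obtain ⟨c12, c13, c23⟩ := hcon
    have l12 : l1 ≠ l2 := fun h => c12 (by rw [h])
    have l13 : l1 ≠ l3 := fun h => c13 (by rw [h])
    have l23 : l2 ≠ l3 := fun h => c23 (by rw [h])
    have d12 := hdj i l1 l2 n1 n2 l12 c12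
    have d13 := hdj i l1 l3 n1 n3 l13 c13
    have d23 := hdj i l2 l3 n2 n3 l23 c23
    have e1 := hdT i l1 n1
    have e2 := hdT i l2 n2
    have e3 := hdT i l3 n3
    exact W.maincentre_four (W.toPW.lev_S hK i.2.2) (hlev _ _ n1) (hlev _ _ n2) (hlev _ _ n3)
      e1 e2 e3 d12 d13 d23
  have h3 : ∀ i l j : X, i ≠ l → l ≠ j → i ≠ j →
      θ i l = θ l j ∨ θ i l = θ i j ∨ θ l j = θ i j := by
    intro i l j hil hlj hij
    by_contra hcon
    push Not at hcon
    obtain ⟨c1, c2, c3⟩ := hcon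
    -- disjointness
    have di : W.Dj (K + t i.1 + t l.1 + t z) (K + t i.1 + t j.1 + t z) :=
      hdj i l j hil hij hlj c2
    have dl : W.Dj (K + t l.1 + t i.1 + t z) (K + t l.1 + t j.1 + t z) :=
      hdj l i j (Ne.symm hil) hlj hij (by rw [hs l i]; exact c1)
    have djj : W.Dj (K + t j.1 + t l.1 + t z) (K + t j.1 + t i.1 + t z) :=
      hdj j l i (Ne.symm hlj) (Ne.symm hij) (Ne.symm hil) (by rw [hs j l, hs j i]; exact c3)
    obtain ⟨v, hvz, mv, hvA⟩ := W.two_out' hT K {z}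
    have hvz' : v ≠ z := fun h => hvz (by simp [h])
    have hcov : ∀ a b c : X, a ≠ b → a ≠ c →
        W.Dj (K + t a.1 + t b.1 + t z) (K + t a.1 + t c.1 + t z) →
        W.E (K + t a.1 + t b.1 + t z + t v) ∨ W.E (K + t a.1 + t c.1 + t z + t v) := by
      intro a b c hab hac hd
      have ma : a.1 ≠ v := W.toPW.ne_of_m a.2.2 mv
      have mb : b.1 ≠ v := W.toPW.ne_of_m b.2.2 mv
      have mc : c.1 ≠ v := W.toPW.ne_of_m c.2.2 mv
      rcases W.toPW.cover3 (W.toPW.lev_S hK a.2.2) (hlev _ _ hab) (hlev _ _ hac) (hdT a b hab)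
        (hdT a c hac) hd (W.notP v) (by rw [W.toPW.m_ne _ ma]; exact mv)
        (by rw [W.toPW.m_ne _ (Ne.symm hvz'), W.toPW.m_ne _ mb, W.toPW.m_ne _ ma]; exact mv)
        (by rw [W.toPW.m_ne _ (Ne.symm hvz'), W.toPW.m_ne _ mc, W.toPW.m_ne _ ma]; exact mv)
        with h | h | h
      · exact absurd ((W.two_exch hT (W.toPW.conn_refl K) a.2.2 mv h).1 a.2.1) hvA
      · exact Or.inl h
      · exact Or.inr h
    have r1 := hcov i l j hil hij di
    have r2 := hcov l i j (Ne.symm hil) hlj dl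
    have r3 := hcov j l i (Ne.symm hlj) (Ne.symm hij) djj
    rw [maincentre_comm K l.1 i.1 z] at r2 dl
    rw [maincentre_comm K j.1 l.1 z, maincentre_comm K j.1 i.1 z] at r3 djj
    have f1 := di v (W.notP v)
    have f2 := dl v (W.notP v)
    have f3 := djj v (W.notP v)
    exact maincentre_taut r1 r2 r3 f1 f2 f3
  obtain ⟨c0, hc0⟩ := center θ hs h2 h4 h3
  obtain ⟨a, b, hab⟩ := h2
  obtain ⟨l, hal, hlc⟩ : ∃ l, a ≠ l ∧ θ a l = c0 := by
    rcases Relation.ReflTransGen.cases_head (hc0 a b) with h | ⟨l, h, _⟩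
    · exact absurd h hab
    · exact ⟨l, h.1, h.2⟩
  refine ⟨a.1, l.1, a.2.1, l.2.1, a.2.2, l.2.2, fun h => hal (Subtype.ext h), ?_⟩
  intro x y hx mx hy my
  refine Relation.ReflTransGen.lift (r := fun x y : X => x ≠ y ∧ θ x y = c0)
    (Subtype.val : X → Ω) ?_ _ _ (hc0 ⟨x, hx, mx⟩ ⟨y, hy, my⟩)
  rintro u w ⟨huw, hc⟩
  exact ⟨fun h => huw (Subtype.ext h), u.2, w.2,
    (hθ a l u w hal huw).1 (hlc.trans hc.symm)⟩

end World

end Pool.Agent.Lib.MP_a572be_co
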