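import Pool.Agent.Lib.MP_a572be_co.Basics2

/-!
# Definitions for the main lemma
-/

namespace Pool.Agent.Lib.MP_a572be_co

namespace PW

variable {r : ℕ} {Ω : Type} (W : PW r Ω)

/-- `K - i` and `K - l` have the same neighbours outside `K`. -/
def Sim (K : Tg Ω) (i l : Ω) : Prop := ∀ v, ¬ W.m K v → (W.E (K + t i + t v) ↔ W.E (K + t l + t v))

/-- `K` has a pair of elements of `A` with different neighbourhoods. -/
def DPair (A : Set Ω) (K : Tg Ω) : Prop :=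
  ∃ i l, i ∈ A ∧ l ∈ A ∧ W.m K i ∧ W.m K l ∧ ¬ W.Sim K i l

/-- Fat pairs: `M` has level `-2`, `M + i + l` is an edge. -/
def Fat (M : Tg Ω) (i l : Ω) : Prop := ∀ x y, x ≠ y → ¬ W.m M x → ¬ W.m M y →
  W.Dj (M + t x) (M + t i) → W.Dj (M + t x) (M + t l) →
  W.Dj (M + t y) (M + t i) → W.Dj (M + t y) (M + t l) → ¬ W.Dj (M + t x) (M + t y)

/-- Connection of `x` and `y` in the link of `M` restricted to `A`, avoiding `v`. -/
def LinkConn (M : Tg Ω) (A : Set Ω) (v x y : Ω) : Prop :=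
  Relation.ReflTransGen (fun a b => a ∈ A ∧ b ∈ A ∧ a ≠ v ∧ b ≠ v ∧ ¬ W.m M a ∧ ¬ W.m M b ∧
    W.E (M + t a + t b)) x y

/-- The configuration produced by the main lemma. -/
structure JumpAt (M : Tg Ω) (A : Set Ω) (K K' : Tg Ω) : Prop where
  two1 : W.Two K A
  two2 : W.Two K' A
  nbr1 : ∀ x v, x ∈ A → ¬ W.m M x → W.E (M + t x + t v) → v ∈ A ∧ W.Conn K (M + t x + t v)
  nbr2 : ∀ x v, x ∉ A → ¬ W.m M x → W.E (M + t x + t v) → v ∉ A ∧ W.Conn K' (M + t x + t v)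
  con1 : ∃ D0 : Finset Ω, ∀ v, v ∉ D0 → ∀ x y, x ∈ A → y ∈ A → ¬ W.m M x → ¬ W.m M y →
    x ≠ v → y ≠ v → W.LinkConn M A v x y
  con2 : ∃ D0 : Finset Ω, ∀ v, v ∉ D0 → ∀ x y, x ∉ A → y ∉ A → ¬ W.m M x → ¬ W.m M y →
    x ≠ v → y ≠ v → W.LinkConn M Aᶜ v x y

/-- The structure of a bad edge `K` (relative to `z ∉ K`, `z ∉ A`). -/
structure BadStr (K : Tg Ω) (A : Set Ω) (z : Ω) : Prop where
  b1 : ∀ i l v, i ∈ A → l ∈ A → W.m K i → W.m K l → i ≠ l → ¬ W.Sim K i l →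
    W.E (K + t i + t l + t z + t v) → v ∉ A
  b2 : ∀ i l v, i ∈ A → l ∈ A → W.m K i → W.m K l → i ≠ l → W.Sim K i l → ¬ W.m K v → v ∈ A →
    ¬ W.E (K + t i + t v) → W.E (K + t i + t l + t z + t v)
  b3 : ∀ i, i ∈ A → W.m K i → ∃ v, ¬ W.m K v ∧ v ∈ A ∧ ¬ W.E (K + t i + t v)
  b4 : ∀ i l u, i ∈ A → l ∈ A → u ∈ A → W.m K i → W.m K l → W.m K u → ¬ W.Sim K i l →
    W.Sim K u i ∨ W.Sim K u l

end PW

namespace World

variable {r : ℕ} {Ω : Type} (W : World r Ω)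

/-- In a two-class component an exchange stays inside `A` or inside `Aᶜ`. -/
theorem two_exch {K A} (hT : W.Two K A) {K' : Tg Ω} (hc : W.Conn K K') {x v : Ω}
    (hx : W.m K' x) (hv : ¬ W.m K' v) (hE : W.E (K' + t x + t v)) : x ∈ A ↔ v ∈ A :=
  (hT.2.1 x v).1 (W.toPW.eqv_of_conn hc
    (W.toPW.eqv_mk (W.toPW.conn_E hT.1 hc) hx hv hE))

theorem two_conn {K A} (hT : W.Two K A) {K' : Tg Ω} (hc : W.Conn K K') : W.Two K' A :=
  ⟨W.toPW.conn_E hT.1 hc, fun x y => by rw [← hT.2.1 x y, W.toPW.eqv_conn hc], hT.2.2⟩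

/-- The class `A` is infinite, inside and outside the reference set. -/
theorem two_inf {K A} (hT : W.Two K A) (b : Prop) (D : Finset Ω) :
    ∃ y, y ∉ D ∧ (y ∈ W.I ↔ b) ∧ y ∈ A := by
  obtain ⟨x, hx⟩ := hT.2.2.1
  obtain ⟨y, h1, _, h2, h3⟩ := W.toPW.joint {K} (by simpa using hT.1) (W.notP x) b D
  exact ⟨y, h1, h2, ((hT.2.1 x y).1 (h3 K (by simp))).1 hx⟩

theorem two_inf' {K A} (hT : W.Two K A) (b : Prop) (D : Finset Ω) :
    ∃ y, y ∉ D ∧ (y ∈ W.I ↔ b) ∧ y ∉ A := by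
  obtain ⟨x, hx⟩ := hT.2.2.2
  obtain ⟨y, h1, _, h2, h3⟩ := W.toPW.joint {K} (by simpa using hT.1) (W.notP x) b D
  exact ⟨y, h1, h2, fun h => hx (((hT.2.1 x y).1 (h3 K (by simp))).2 h)⟩

/-- Elements of `A` in `K`, avoiding a finite set. -/
theorem two_mem {K A} (hT : W.Two K A) (L : Tg Ω) (D : Finset Ω) :
    ∃ y, y ∉ D ∧ W.m L y ∧ y ∈ A := by
  classical
  obtain ⟨y, h1, h2, h3⟩ := W.two_inf hT True (D ∪ L.support)
  refine ⟨y, fun h => h1 (Finset.mem_union_left _ h), ?_, h3⟩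
  exact (mem_of_notMem_support W.I (fun h => h1 (Finset.mem_union_right _ h))).2 (by simpa using h2)

theorem two_mem' {K A} (hT : W.Two K A) (L : Tg Ω) (D : Finset Ω) :
    ∃ y, y ∉ D ∧ W.m L y ∧ y ∉ A := by
  classical
  obtain ⟨y, h1, h2, h3⟩ := W.two_inf' hT True (D ∪ L.support)
  refine ⟨y, fun h => h1 (Finset.mem_union_left _ h), ?_, h3⟩
  exact (mem_of_notMem_support W.I (fun h => h1 (Finset.mem_union_right _ h))).2 (by simpa using h2)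

/-- Elements of `A` outside `L`, avoiding a finite set. -/
theorem two_out {K A} (hT : W.Two K A) (L : Tg Ω) (D : Finset Ω) :
    ∃ y, y ∉ D ∧ ¬ W.m L y ∧ y ∈ A := by
  classical
  obtain ⟨y, h1, h2, h3⟩ := W.two_inf hT False (D ∪ L.support)
  refine ⟨y, fun h => h1 (Finset.mem_union_left _ h), fun hm => ?_, h3⟩
  have := (mem_of_notMem_support W.I (fun h => h1 (Finset.mem_union_right _ h))).1 hm
  simp [this] at h2

theorem two_out' {K A} (hT : W.Two K A) (L : Tg Ω) (D : Finset Ω) :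
    ∃ y, y ∉ D ∧ ¬ W.m L y ∧ y ∉ A := by
  classical
  obtain ⟨y, h1, h2, h3⟩ := W.two_inf' hT False (D ∪ L.support)
  refine ⟨y, fun h => h1 (Finset.mem_union_left _ h), fun hm => ?_, h3⟩
  have := (mem_of_notMem_support W.I (fun h => h1 (Finset.mem_union_right _ h))).1 hm
  simp [this] at h2

end World

end Pool.Agent.Lib.MP_a572be_co
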