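import Pool.Agent.Lib.MP_a572be_co.MainDefs

/-!
# Fat pairs
-/

namespace Pool.Agent.Lib.MP_a572be_co

namespace World

variable {r : ℕ} {Ω : Type} (W : World r Ω)

/-- `T = K - i - l + z` (with `i, l ∈ A ∩ K`, `z ∉ A ∪ K`) and `K - i` have disjoint
neighbourhoods: a common neighbour `v` would give the exchange `l → z` at the edge `K - i + v`
of the component, but `l ∈ A`, `z ∉ A`. (`two_exch`; the cases `v = z`, `v = i`, `v = l` are excluded
by levels, or give the exchange `i → z` or `l → z` at `K`.) -/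
theorem dj_T {K : Tg Ω} {A : Set Ω} (hT : W.Two K A) {i l z : Ω} (hi : i ∈ A) (hl : l ∈ A)
    (mi : W.m K i) (ml : W.m K l) (hil : i ≠ l) (hz : z ∉ A) (mz : ¬ W.m K z) :
    W.Dj (K + t i) (K + t i + t l + t z) := by
  have hK := hT.1
  have hzi : z ≠ i := by rintro rfl; exact mz mi
  have hzl : z ≠ l := by rintro rfl; exact mz ml
  have hnot : ∀ {K' : Tg Ω}, W.toPW.Conn K K' → W.toPW.m K' l → ¬ W.toPW.m K' z →
      W.E (K' + t l + t z) → False := by
    intro K' hc h1 h2 h3
    exact hz ((W.two_exch hT hc h1 h2 h3).1 hl)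
  have l1 : W.toPW.lev (K + t i) = -1 := W.toPW.lev_S hK mi
  have ml' : W.toPW.m (K + t i) l := by rw [W.toPW.m_ne K hil]; exact ml
  have mz' : ¬ W.toPW.m (K + t i + t l) z := by
    rw [W.toPW.m_ne _ (Ne.symm hzl), W.toPW.m_ne _ (Ne.symm hzi)]; exact mz
  have l2 : W.toPW.lev (K + t i + t l + t z) = -1 := by
    rw [W.toPW.lev_out mz', W.toPW.lev_in ml', l1]; ring
  intro v _ hv
  obtain ⟨h1, h2⟩ := hv
  have n1 := W.toPW.not_m_of_E l1 h1
  have n2 := W.toPW.not_m_of_E l2 h2
  by_cases hvz : v = z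
  · subst hvz
    exact n2 ((W.toPW.m_self _ _).2 mz')
  by_cases hvl : v = l
  · subst hvl
    exact n1 ml'
  by_cases hvi : v = i
  · subst hvi
    have e : K + t v + t l + t z + t v = K + t l + t z := by abel_nf; simp
    rw [e] at h2
    exact hnot (W.toPW.conn_refl K) ml mz h2
  · have n3 : ¬ W.toPW.m K v := by
      rwa [W.toPW.m_ne K (Ne.symm hvi)] at n1
    refine hnot (W.toPW.conn_mk hK mi n3 h1) ?_ ?_ ?_
    · rw [W.toPW.m_ne _ hvl]; exact ml'
    · rw [W.toPW.m_ne _ hvz, W.toPW.m_ne _ (Ne.symm hzi)]; exact mz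
    · have e : K + t i + t v + t l + t z = K + t i + t l + t z + t v := by abel
      rw [e]; exact h2

/-- If `K - i` and `K - l` have different neighbourhoods then the pair is fat.

Proof: here `M = K - i - l`, so `M + i = K - l` and `M + l = K - i`. Suppose `M + x`, `M + y`,
`M + i` and also `M + x`, `M + y`, `M + l` are pairwise disjoint. Take `v0 ∉ K` in exactly one of
`N(K-i)`, `N(K-l)` and copy it (`copy` with `F = {K + t i + t v0, K + t l + t v0}`, `σ = True`) to
`v ∉ I`, outside the supports of `K` and different from `x`, `y`, `i`, `l`. By `cover3` for both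
triples (`v` is not in `M + x` etc.) the neighbour `v` of exactly one of `M + i`, `M + l` is a
neighbour of `M + x` or `M + y`, contradicting the disjointness. -/
theorem fat_of_nsim {K : Tg Ω} (hK : W.E K) {i l : Ω} (mi : W.m K i) (ml : W.m K l)
    (h : ¬ W.Sim K i l) : W.Fat (K + t i + t l) i l := by
  classical
  have hil : i ≠ l := by
    rintro rfl
    exact h (fun v _ => Iff.rfl)
  intro x y hxy mx my dxi dxl dyi dyl dxy
  unfold PW.Sim at h
  push_neg at h
  -- the element in exactly one neighbourhood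
  have h' : ∃ v0, ¬ W.toPW.m K v0 ∧ ¬ (W.E (K + t i + t v0) ↔ W.E (K + t l + t v0)) := by
    obtain ⟨v0, h1, h2⟩ := h
    refine ⟨v0, h1, ?_⟩
    tauto
  obtain ⟨v0, hv0, hne⟩ := h'
  have hv0i : v0 ≠ i := by rintro rfl; exact hv0 mi
  have hv0l : v0 ≠ l := by rintro rfl; exact hv0 ml
  obtain ⟨v, hvD, hvv0, hvI, hvF⟩ := W.toPW.copy {K + t i + t v0, K + t l + t v0} True
    (W.notP v0) (by
      intro L hL
      simp only [Finset.mem_insert, Finset.mem_singleton] at hL
      rcases hL with rfl | rfl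
      · rw [W.toPW.m_self, W.toPW.m_ne K (Ne.symm hv0i)]; simp [hv0]
      · rw [W.toPW.m_self, W.toPW.m_ne K (Ne.symm hv0l)]; simp [hv0])
    (K.support ∪ {x, y, i, l})
  simp only [Finset.mem_union, Finset.mem_insert, Finset.mem_singleton, not_or] at hvD
  obtain ⟨hvK, hvx, hvy, hvi, hvl⟩ := hvD
  have hvI' : v ∉ W.I := by simpa using hvI
  have nv : ¬ W.toPW.m K v := fun hm => hvI' ((mem_of_notMem_support W.I hvK).1 hm)
  have e1 : W.E (K + t i + t v0) ↔ W.E (K + t i + t v) := by
    have := (hvF (K + t i + t v0) (by simp)).2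
    rwa [tg_add_t_t] at this
  have e2 : W.E (K + t l + t v0) ↔ W.E (K + t l + t v) := by
    have := (hvF (K + t l + t v0) (by simp)).2
    rwa [tg_add_t_t] at this
  rw [e1, e2] at hne
  -- levels
  have l1 : W.toPW.lev (K + t i) = -1 := W.toPW.lev_S hK mi
  have l1' : W.toPW.lev (K + t l) = -1 := W.toPW.lev_S hK ml
  have ml' : W.toPW.m (K + t i) l := by rw [W.toPW.m_ne K hil]; exact ml
  have l2 : W.toPW.lev (K + t i + t l) = -2 := by
    rw [W.toPW.lev_in ml', l1]; ring
  have lx : W.toPW.lev (K + t i + t l + t x) = -1 := by rw [W.toPW.lev_out mx, l2]; ring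
  have ly : W.toPW.lev (K + t i + t l + t y) = -1 := by rw [W.toPW.lev_out my, l2]; ring
  have ei : K + t i + t l + t i = K + t l := by abel_nf; simp
  have el : K + t i + t l + t l = K + t i := tg_add_t_t _ _
  rw [ei] at dxi dyi
  rw [el] at dxl dyl
  have nM : ¬ W.toPW.m (K + t i + t l) v := by
    rw [W.toPW.m_ne _ (Ne.symm hvl), W.toPW.m_ne _ (Ne.symm hvi)]; exact nv
  have nx : ¬ W.toPW.m (K + t i + t l + t x) v := by
    rw [W.toPW.m_ne _ (Ne.symm hvx)]; exact nM
  have ny : ¬ W.toPW.m (K + t i + t l + t y) v := by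
    rw [W.toPW.m_ne _ (Ne.symm hvy)]; exact nM
  have ni : ¬ W.toPW.m (K + t i) v := by
    rw [W.toPW.m_ne _ (Ne.symm hvi)]; exact nv
  have nl : ¬ W.toPW.m (K + t l) v := by
    rw [W.toPW.m_ne _ (Ne.symm hvl)]; exact nv
  have c1 := W.toPW.cover3 lx ly l1' dxy dxi dyi (W.notP v) nx ny nl
  have c2 := W.toPW.cover3 lx ly l1 dxy dxl dyl (W.notP v) nx ny ni
  by_cases h1 : W.E (K + t i + t v)
  · have h2 : ¬ W.E (K + t l + t v) := fun h2 => hne ⟨fun _ => h2, fun _ => h1⟩
    rcases c1 with c | c | c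
    · exact dxl v (W.notP v) ⟨c, h1⟩
    · exact dyl v (W.notP v) ⟨c, h1⟩
    · exact h2 c
  · have h2 : W.E (K + t l + t v) := by
      by_contra h2
      exact hne ⟨fun h => absurd h h1, fun h => absurd h h2⟩
    rcases c2 with c | c | c
    · exact dxi v (W.notP v) ⟨c, h2⟩
    · exact dyi v (W.notP v) ⟨c, h2⟩
    · exact h1 c

end World

end Pool.Agent.Lib.MP_a572be_co
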