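import Pool.Agent.Lib.MP_a572be_co.MainDefs

/-!
# The good case of the main lemma
-/

namespace Pool.Agent.Lib.MP_a572be_co

namespace World

variable {r : ℕ} {Ω : Type} (W : World r Ω)

/-- **The good case.** Write `M = K - i - l`, `K0 = M + z + w` and `≡0` for `Eqv K0`. Note
`M + i = K + t l` and `M + l = K + t i` (as elements of `Tg Ω`) have all neighbours in `A`.

(g1) For `x ∉ A`, `x ∉ K`: `Dj (M+x) (M+i)` and `Dj (M+x) (M+l)`: a common neighbour `v` of `M + x`
and `M + i` gives the exchange `i → x` at the edge `M + i + v` of the component of `K`.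
(g2) For `x, y ∉ A ∪ K`, `x ≠ y`: by `hfat` they have a common neighbour, so `SameVal (M+x) (M+y)`.
In particular `SameVal (M+z) (M+x)`, and `z ≡0 x` by `eqv_of_sameVal` (with `S = M + z`, `v = w`).
(g3) `w ∉ K` (if `w = i` then `K - l + z` is an edge: exchange `l → z`; similarly `w = l`), and
`z ≡0 w`: `Dj (M+w) (M+i)` holds: if `v` is a common neighbour then `M + w + v` is an edge of the
component of `K` by the exchange `i → w` at `M + i + v`, and `M + w` has the neighbours `v` and `z`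
so `v` and `z` are equivalent in the component of `K` (`conn_of_nbrs`), but `v ∈ A` as a neighbour of
`M + i`. Similarly `Dj (M+w) (M+l)`. By `hfat` (with (g1) for `z`), `M + w` and `M + z` have a
common neighbour, so the same value and `z ≡0 w`.
(g4) Every `x ∉ A` is `≡0 z`: if `x ∉ K` by (g2). If `x ∈ K`, by `copy` with `F = {K, K0}` (both
contain `x`), there is `z' ∉ K`, `z' ∉ {i,l,z,w}` with `K - x + z'` and `K0 - x + z'` edges; so
`z' ∉ A` and `x ≡0 z' ≡0 z`.
(g5) Every `x ∈ A` is `≡0 i`: by `joint` for `{K, K0}` there is `x' ∈ K`, equivalent to `x` in both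
components; `x' ∈ A`, and use `h5`.
(g6) not `i ≡0 z` by `two_eqv`. So `Two K0 A`.
(g7) `nbr2`: for `p ∉ A`, `p ∉ M` (so `p ∉ K`) and a neighbour `v` of `M + p`: by (g2) and
`sameVal_all`, `Conn K0 (M+p+v)` and `w ≡0 v`, so `v ∉ A` as `w ≡0 z`.
(g8) `nbr1`: for `x ∈ A`, `x ∉ M`. If `x = i` or `x = l` then `M + x = K - l` or `K - i`, clear. If
`x ∉ K`: not both `Dj (M+x) (M+i)` and `Dj (M+x) (M+l)`, otherwise `hfat` gives a common neighbour
of `M + x` and `M + z`, hence (`sameVal_of_common`) `x ≡0 z`, contradicting (g6). So there is a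
common neighbour `v0` of `M + x` and (say) `M + i`; exchange `i → x` at `M + i + v0`: `M + x + v0` is
in the component of `K`, `v0 ∈ A`, and use `conn_of_nbrs` for the other neighbours of `M + x`.
(g9) `con1` with `D0 = {i, l}`: by (g8) and `not_dj_inf` every `x ∈ A` outside `K` is adjacent in the
link to some `v0 ∈ A`, `v0 ≠ v`, `v0 ∉ K`, which is adjacent to `i` or `l`; and `i`, `l` are
adjacent (`M + i + l = K`).
(g10) `con2` with `D0 = ∅`: `x, y ∉ A ∪ M` have a common neighbour `v0 ≠ v`, `v0 ∉ A`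
(`hfat`, `not_dj_inf`, (g7)). -/
theorem good5a {K : Tg Ω} {A : Set Ω} (hT : W.Two K A) {i l z w : Ω} (hi : i ∈ A) (hl : l ∈ A)
    (mi : W.m K i) (ml : W.m K l) (hil : i ≠ l) (hz : z ∉ A) (mz : ¬ W.m K z)
    (hw : W.E (K + t i + t l + t z + t w))
    (h5 : ∀ x y, x ∈ A → y ∈ A → W.m K x → W.m K y → W.Eqv (K + t i + t l + t z + t w) x y)
    (hfat : W.Fat (K + t i + t l) i l) :
    W.JumpAt (K + t i + t l) A K (K + t i + t l + t z + t w) := by
  classical
  have hE := hT.1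
  obtain ⟨M, hM⟩ : ∃ M, M = K + t i + t l := ⟨_, rfl⟩
  rw [← hM] at hw h5 hfat ⊢
  -- basic facts
  have hMi : M + t i = K + t l := by rw [hM]; abel_nf; simp
  have hMl : M + t l = K + t i := by rw [hM]; abel_nf; simp
  have hMil : M + t i + t l = K := by rw [hMi]; simp
  have hMli : M + t l + t i = K := by rw [hMl]; simp
  have mMi : ¬ W.m M i := by
    rw [hM, W.m_ne _ (Ne.symm hil), W.m_self]; simpa using mi
  have mMl : ¬ W.m M l := by
    rw [hM, W.m_self, W.m_ne _ hil]; simpa using ml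
  have mM : ∀ x, x ≠ i → x ≠ l → (W.m M x ↔ W.m K x) := by
    intro x hxi hxl
    rw [hM, W.m_ne _ (Ne.symm hxl), W.m_ne _ (Ne.symm hxi)]
  have levM : W.lev M = -2 := by
    rw [hM, W.lev_in, W.lev_in mi, W.lev_E hE]
    · ring
    · rw [W.m_ne _ hil]; exact ml
  have levMx : ∀ x, ¬ W.m M x → W.lev (M + t x) = -1 := by
    intro x hx
    rw [W.lev_out hx, levM]; ring
  have hne_i : ∀ x, x ∉ A → x ≠ i := by rintro x hx rfl; exact hx hi
  have hne_l : ∀ x, x ∉ A → x ≠ l := by rintro x hx rfl; exact hx hl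
  have mMo : ∀ x, x ∉ A → (W.m M x ↔ W.m K x) := fun x hx => mM x (hne_i x hx) (hne_l x hx)
  have mMz : ¬ W.m M z := by rw [mMo z hz]; exact mz
  -- a neighbour of `M + x` is outside `M` and different from `x`
  have nb : ∀ x v, ¬ W.m M x → W.E (M + t x + t v) → v ≠ x ∧ ¬ W.m M v := by
    intro x v hx hv
    have h1 := W.not_m_of_E (levMx x hx) hv
    have h2 : v ≠ x := by
      rintro rfl
      exact h1 ((W.m_self M v).2 hx)
    exact ⟨h2, by rwa [W.m_ne M (Ne.symm h2)] at h1⟩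
  -- common neighbours
  have common : ∀ a b v, ¬ W.m M a → ¬ W.m M b → a ≠ b → W.E (M + t a + t v) →
      W.E (M + t b + t v) → W.SameVal (M + t a) (M + t b) ∧
        W.Conn (M + t a + t v) (M + t b + t v) ∧ W.Eqv (M + t a + t v) a b := by
    intro a b v ha hb hab h1 h2
    have h3 : M + t a + t a + t b = M + t b := by simp
    have h4 := W.toPW.sameVal_of_common (S := M + t a) (x := a) (y := b) (v := v) (levMx a ha)
      ((W.m_self M a).2 ha) (by rw [W.m_ne M hab]; exact hb) h1 (by rw [h3]; exact h2)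
    rwa [h3] at h4
  have nbri : ∀ v, W.E (M + t i + t v) → v ∈ A ∧ W.Conn K (M + t i + t v) := by
    intro v hv
    have h1 := W.toPW.conn_of_nbrs (S := M + t i) (v := l) (v' := v) (levMx i mMi)
      (by rw [hMil]; exact hE) hv
    rw [hMil] at h1
    exact ⟨((hT.2.1 l v).1 h1.2).1 hl, h1.1⟩
  have nbrl : ∀ v, W.E (M + t l + t v) → v ∈ A ∧ W.Conn K (M + t l + t v) := by
    intro v hv
    have h1 := W.toPW.conn_of_nbrs (S := M + t l) (v := i) (v' := v) (levMx l mMl)
      (by rw [hMli]; exact hE) hv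
    rw [hMli] at h1
    exact ⟨((hT.2.1 i v).1 h1.2).1 hi, h1.1⟩
  -- (g1)
  have djc : ∀ x, ¬ W.m M x → x ≠ i → ¬ W.Dj (M + t x) (M + t i) → x ∈ A := by
    intro x mx hxi hd
    obtain ⟨v, -, -, h1, h2⟩ := W.toPW.not_dj_inf (levMx x mx) (levMx i mMi) hd ∅
    obtain ⟨-, -, h3⟩ := common i x v mMi mx (Ne.symm hxi) h2 h1
    exact ((hT.2.1 i x).1 (W.toPW.eqv_of_conn (nbri v h2).2 h3)).1 hi
  have djc' : ∀ x, ¬ W.m M x → x ≠ l → ¬ W.Dj (M + t x) (M + t l) → x ∈ A := by
    intro x mx hxl hd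
    obtain ⟨v, -, -, h1, h2⟩ := W.toPW.not_dj_inf (levMx x mx) (levMx l mMl) hd ∅
    obtain ⟨-, -, h3⟩ := common l x v mMl mx (Ne.symm hxl) h2 h1
    exact ((hT.2.1 l x).1 (W.toPW.eqv_of_conn (nbrl v h2).2 h3)).1 hl
  have dji : ∀ x, x ∉ A → ¬ W.m M x → W.Dj (M + t x) (M + t i) := by
    intro x hx mx
    by_contra hd
    exact hx (djc x mx (hne_i x hx) hd)
  have djl : ∀ x, x ∉ A → ¬ W.m M x → W.Dj (M + t x) (M + t l) := by
    intro x hx mx
    by_contra hd
    exact hx (djc' x mx (hne_l x hx) hd)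
  -- (g2)
  have g2 : ∀ x y, x ∉ A → y ∉ A → ¬ W.m M x → ¬ W.m M y → x ≠ y →
      ¬ W.Dj (M + t x) (M + t y) := by
    intro x y hx hy mx my hxy
    exact hfat x y hxy mx my (dji x hx mx) (djl x hx mx) (dji y hy my) (djl y hy my)
  have g2s : ∀ x, x ∉ A → ¬ W.m M x → W.SameVal (M + t z) (M + t x) := by
    intro x hx mx
    by_cases hxz : z = x
    · rw [← hxz]; exact W.toPW.sameVal_refl (levMx z mMz)
    · obtain ⟨v, -, -, h1, h2⟩ := W.toPW.not_dj_inf (levMx z mMz) (levMx x mx)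
        (g2 z x hz hx mMz mx hxz) ∅
      exact (common z x v mMz mx hxz h1 h2).1
  have eqz : ∀ x, ¬ W.m M x → W.SameVal (M + t z) (M + t x) → W.Eqv (M + t z + t w) z x := by
    intro x mx hs
    by_cases hxz : z = x
    · rw [← hxz]; exact W.toPW.eqv_refl _ _
    · refine W.toPW.eqv_of_sameVal (S := M + t z) (levMx z mMz) ((W.m_self M z).2 mMz) ?_ hw ?_
      · rw [W.m_ne M hxz]; exact mx
      · have h3 : M + t z + t z + t x = M + t x := by simp
        rw [h3]; exact hs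
  -- (g3)
  obtain ⟨hwz, mMw⟩ := nb z w mMz hw
  have hEwz : W.E (M + t w + t z) := by rw [tg_comm]; exact hw
  have hwi : w ≠ i := by
    rintro rfl
    exact hz (nbri z hEwz).1
  have hwl : w ≠ l := by
    rintro rfl
    exact hz (nbrl z hEwz).1
  have djwi : W.Dj (M + t w) (M + t i) := by
    by_contra hd
    obtain ⟨v, -, -, h1, h2⟩ := W.toPW.not_dj_inf (levMx w mMw) (levMx i mMi) hd ∅
    obtain ⟨-, h3, -⟩ := common i w v mMi mMw (Ne.symm hwi) h2 h1
    obtain ⟨h4, h5'⟩ := nbri v h2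
    obtain ⟨-, h6⟩ := W.toPW.conn_of_nbrs (levMx w mMw) h1 hEwz
    have h7 := W.toPW.eqv_of_conn (W.toPW.conn_trans h5' h3) h6
    exact hz (((hT.2.1 v z).1 h7).1 h4)
  have djwl : W.Dj (M + t w) (M + t l) := by
    by_contra hd
    obtain ⟨v, -, -, h1, h2⟩ := W.toPW.not_dj_inf (levMx w mMw) (levMx l mMl) hd ∅
    obtain ⟨-, h3, -⟩ := common l w v mMl mMw (Ne.symm hwl) h2 h1
    obtain ⟨h4, h5'⟩ := nbrl v h2
    obtain ⟨-, h6⟩ := W.toPW.conn_of_nbrs (levMx w mMw) h1 hEwz
    have h7 := W.toPW.eqv_of_conn (W.toPW.conn_trans h5' h3) h6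
    exact hz (((hT.2.1 v z).1 h7).1 h4)
  have hzw0 : W.Eqv (M + t z + t w) z w := by
    apply eqz w mMw
    have hd := hfat z w (Ne.symm hwz) mMz mMw (dji z hz mMz) (djl z hz mMz) djwi djwl
    obtain ⟨v, -, -, h1, h2⟩ := W.toPW.not_dj_inf (levMx z mMz) (levMx w mMw) hd ∅
    exact (common z w v mMz mMw (Ne.symm hwz) h1 h2).1
  -- (g4)
  obtain ⟨K0, hK0⟩ : ∃ K0, K0 = M + t z + t w := ⟨_, rfl⟩
  rw [← hK0] at hw h5 eqz hzw0 ⊢
  have g4 : ∀ x, x ∉ A → W.Eqv K0 z x := by
    intro x hx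
    by_cases mx : W.m M x
    · have mKx : W.m K x := (mMo x hx).1 mx
      have hxz : z ≠ x := by rintro rfl; exact mMz mx
      have hxw : w ≠ x := by rintro rfl; exact mMw mx
      have mK0x : W.m K0 x := by
        rw [hK0, W.m_ne _ hxw, W.m_ne _ hxz]; exact mx
      obtain ⟨y, hyD, hyx, -, hy⟩ := W.toPW.copy {K, K0} True (W.notP x) (by
        intro L hL
        simp only [Finset.mem_insert, Finset.mem_singleton] at hL
        rcases hL with rfl | rfl
        · simp [mKx]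
        · simp [mK0x]) {i, l}
      simp only [Finset.mem_insert, Finset.mem_singleton, not_or] at hyD
      obtain ⟨h1, h2⟩ := hy K (by simp)
      obtain ⟨h3, h4⟩ := hy K0 (by simp)
      have h5' : ¬ W.m K y := by simpa using h1
      have h6 : ¬ W.m K0 y := by simpa using h3
      have h7 : W.Eqv K x y := W.toPW.eqv_mk hE mKx h5' (h2.1 hE)
      have h8 : W.Eqv K0 x y := W.toPW.eqv_mk hw mK0x h6 (h4.1 hw)
      have h9 : y ∉ A := fun h => hx (((hT.2.1 x y).1 h7).2 h)
      have h10 : ¬ W.m M y := by rw [mMo y h9]; exact h5'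
      exact W.toPW.eqv_trans (eqz y h10 (g2s y h9 h10)) (W.toPW.eqv_symm h8)
    · exact eqz x mx (g2s x hx mx)
  -- (g5)
  have g5 : ∀ x, x ∈ A → W.Eqv K0 i x := by
    intro x hx
    obtain ⟨y, hyD, -, hyI, hy⟩ := W.toPW.joint {K, K0} (by
      intro L hL
      simp only [Finset.mem_insert, Finset.mem_singleton] at hL
      rcases hL with rfl | rfl
      · exact hE
      · exact hw) (W.notP x) True K.support
    have h1 : W.Eqv K x y := hy K (by simp)
    have h2 : W.Eqv K0 x y := hy K0 (by simp)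
    have h3 : y ∈ A := ((hT.2.1 x y).1 h1).1 hx
    have h4 : W.m K y := (mem_of_notMem_support W.I hyD).2 (by simpa using hyI)
    exact W.toPW.eqv_trans (h5 i y hi h3 mi h4) (W.toPW.eqv_symm h2)
  -- (g6)
  have g6 : ¬ W.Eqv K0 i z := by
    intro h
    obtain ⟨y, -, hy⟩ := W.two_eqv hw z
    apply hy
    by_cases hyA : y ∈ A
    · exact W.toPW.eqv_trans (W.toPW.eqv_symm h) (g5 y hyA)
    · exact g4 y hyA
  have hTwo : W.Two K0 A := by
    refine ⟨hw, ?_, ⟨i, hi⟩, ⟨z, hz⟩⟩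
    intro x y
    constructor
    · intro h
      by_cases hx : x ∈ A <;> by_cases hy : y ∈ A
      · exact ⟨fun _ => hy, fun _ => hx⟩
      · exfalso
        exact g6 (W.toPW.eqv_trans (g5 x hx) (W.toPW.eqv_trans h
          (W.toPW.eqv_symm (g4 y hy))))
      · exfalso
        exact g6 (W.toPW.eqv_trans (g5 y hy) (W.toPW.eqv_trans (W.toPW.eqv_symm h)
          (W.toPW.eqv_symm (g4 x hx))))
      · exact ⟨fun h => absurd h hx, fun h => absurd h hy⟩
    · intro h
      by_cases hx : x ∈ A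
      · exact W.toPW.eqv_trans (W.toPW.eqv_symm (g5 x hx)) (g5 y (h.1 hx))
      · exact W.toPW.eqv_trans (W.toPW.eqv_symm (g4 x hx)) (g4 y (fun hy => hx (h.2 hy)))
  have hwA : w ∉ A := fun h => hz (((hTwo.2.1 z w).1 hzw0).2 h)
  -- (g7)
  have nbr2 : ∀ x v, x ∉ A → ¬ W.m M x → W.E (M + t x + t v) →
      v ∉ A ∧ W.Conn K0 (M + t x + t v) := by
    intro x v hx mx hv
    have h1 := W.toPW.sameVal_all (levMx z mMz) (levMx x mx) (g2s x hx mx)
      (v := w) (v' := v) (by rw [← hK0]; exact hw) hv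
    rw [← hK0] at h1
    exact ⟨fun h => hwA (((hTwo.2.1 w v).1 h1.2).2 h), h1.1⟩
  -- (g8)
  have ndj : ∀ x, x ∈ A → ¬ W.m M x →
      ¬ W.Dj (M + t x) (M + t i) ∨ ¬ W.Dj (M + t x) (M + t l) := by
    intro x hx mx
    by_contra hcon
    push Not at hcon
    obtain ⟨d1, d2⟩ := hcon
    have hxz : z ≠ x := by rintro rfl; exact hz hx
    have hd := hfat z x hxz mMz mx (dji z hz mMz) (djl z hz mMz) d1 d2
    obtain ⟨v, -, -, h1, h2⟩ := W.toPW.not_dj_inf (levMx z mMz) (levMx x mx) hd ∅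
    obtain ⟨-, -, h3⟩ := common z x v mMz mx hxz h1 h2
    have h4 := W.toPW.eqv_of_conn (nbr2 z v hz mMz h1).2 h3
    exact hz (((hTwo.2.1 z x).1 h4).2 hx)
  have nbr1 : ∀ x v, x ∈ A → ¬ W.m M x → W.E (M + t x + t v) →
      v ∈ A ∧ W.Conn K (M + t x + t v) := by
    intro x v hx mx hv
    by_cases hxi : x = i
    · subst hxi; exact nbri v hv
    by_cases hxl : x = l
    · subst hxl; exact nbrl v hv
    rcases ndj x hx mx with hd | hd
    · obtain ⟨u, -, -, h1, h2⟩ := W.toPW.not_dj_inf (levMx x mx) (levMx i mMi) hd ∅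
      obtain ⟨-, h3, -⟩ := common i x u mMi mx (Ne.symm hxi) h2 h1
      obtain ⟨h4, h4'⟩ := nbri u h2
      obtain ⟨h5', h6⟩ := W.toPW.conn_of_nbrs (levMx x mx) h1 hv
      have h7 := W.toPW.conn_trans h4' h3
      exact ⟨((hT.2.1 u v).1 (W.toPW.eqv_of_conn h7 h6)).1 h4, W.toPW.conn_trans h7 h5'⟩
    · obtain ⟨u, -, -, h1, h2⟩ := W.toPW.not_dj_inf (levMx x mx) (levMx l mMl) hd ∅
      obtain ⟨-, h3, -⟩ := common l x u mMl mx (Ne.symm hxl) h2 h1
      obtain ⟨h4, h4'⟩ := nbrl u h2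
      obtain ⟨h5', h6⟩ := W.toPW.conn_of_nbrs (levMx x mx) h1 hv
      have h7 := W.toPW.conn_trans h4' h3
      exact ⟨((hT.2.1 u v).1 (W.toPW.eqv_of_conn h7 h6)).1 h4, W.toPW.conn_trans h7 h5'⟩
  refine ⟨hT, hTwo, nbr1, nbr2, ⟨{i, l}, ?_⟩, ⟨∅, ?_⟩⟩
  · -- (g9)
    intro v hv
    simp only [Finset.mem_insert, Finset.mem_singleton, not_or] at hv
    obtain ⟨hvi, hvl⟩ := hv
    have hsymm : ∀ x y, W.LinkConn M A v x y → W.LinkConn M A v y x := by
      intro x y h
      unfold PW.LinkConn at h ⊢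
      induction h with
      | refl => exact Relation.ReflTransGen.refl
      | tail _ hab ih =>
        obtain ⟨h1, h2, h3, h4, h5', h6, h7⟩ := hab
        exact Relation.ReflTransGen.head ⟨h2, h1, h4, h3, h6, h5', by rw [tg_comm]; exact h7⟩ ih
    have hli : W.LinkConn M A v l i :=
      Relation.ReflTransGen.single ⟨hl, hi, Ne.symm hvl, Ne.symm hvi, mMl, mMi, by
        rw [hMli]; exact hE⟩
    have hconn : ∀ x, x ∈ A → ¬ W.m M x → x ≠ v → W.LinkConn M A v x i := by
      intro x hx mx hxv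
      by_cases hxi : x = i
      · rw [hxi]; exact Relation.ReflTransGen.refl
      by_cases hxl : x = l
      · rw [hxl]; exact hli
      rcases ndj x hx mx with hd | hd
      · obtain ⟨u, hu, -, h1, h2⟩ := W.toPW.not_dj_inf (levMx x mx) (levMx i mMi) hd {v}
        have huv : u ≠ v := by simpa using hu
        obtain ⟨h4, -⟩ := nbri u h2
        have mu := (nb x u mx h1).2
        refine Relation.ReflTransGen.head (b := u) ⟨hx, h4, hxv, huv, mx, mu, h1⟩ ?_
        exact Relation.ReflTransGen.single ⟨h4, hi, huv, Ne.symm hvi, mu, mMi, by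
          rw [tg_comm]; exact h2⟩
      · obtain ⟨u, hu, -, h1, h2⟩ := W.toPW.not_dj_inf (levMx x mx) (levMx l mMl) hd {v}
        have huv : u ≠ v := by simpa using hu
        obtain ⟨h4, -⟩ := nbrl u h2
        have mu := (nb x u mx h1).2
        refine Relation.ReflTransGen.head (b := u) ⟨hx, h4, hxv, huv, mx, mu, h1⟩ ?_
        refine Relation.ReflTransGen.head (b := l) ⟨h4, hl, huv, Ne.symm hvl, mu, mMl, by
          rw [tg_comm]; exact h2⟩ hli
    intro x y hx hy mx my hxv hyv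
    exact Relation.ReflTransGen.trans (hconn x hx mx hxv) (hsymm _ _ (hconn y hy my hyv))
  · -- (g10)
    intro v _ x y hx hy mx my hxv hyv
    by_cases hxy : x = y
    · rw [hxy]; exact Relation.ReflTransGen.refl
    obtain ⟨u, hu, -, h1, h2⟩ := W.toPW.not_dj_inf (levMx x mx) (levMx y my)
      (g2 x y hx hy mx my hxy) {v}
    have huv : u ≠ v := by simpa using hu
    have huA := (nbr2 x u hx mx h1).1
    have mu := (nb x u mx h1).2
    refine Relation.ReflTransGen.head (b := u) ⟨hx, huA, hxv, huv, mx, mu, h1⟩ ?_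
    exact Relation.ReflTransGen.single ⟨huA, hy, huv, hyv, mu, my, by rw [tg_comm]; exact h2⟩

end World

end Pool.Agent.Lib.MP_a572be_co
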