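import Pool.Agent.Lib.MP_a572be_co.Toggle

/-!
# Worlds

A `PW r Ω` is a hypergraph on the finite modifications of an infinite reference set, of codegree
density exactly `1/3` in the sense of the axioms `axN`, `ax3`, `ax4`, with the finite copying
property `axFC` for elements outside `P`, and a relation `c` on each edge and a size function `ρ`
with values in `ZMod r`.
-/

namespace Pool.Agent.Lib.MP_a572be_co

/-- Pre-worlds. -/
structure PW (r : ℕ) (Ω : Type) where
  /-- the reference set -/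
  I : Set Ω
  /-- the special elements (to which `axFC` does not apply) -/
  P : Set Ω
  /-- level of the reference set -/
  e0 : ℤ
  /-- the edges -/
  E : Tg Ω → Prop
  /-- interchangeability of two elements of an edge -/
  c : Tg Ω → Ω → Ω → Prop
  /-- the size modulo `r` of the `c`-class of an element of an edge -/
  ρ : Tg Ω → Ω → ZMod r
  infI : I.Infinite
  infO : Iᶜ.Infinite
  P_sub : P ⊆ I
  lev_eq : ∀ K, E K → e0 + cnt I Set.univ K = 0
  axN : ∀ S, e0 + cnt I Set.univ S = -1 → ∀ D : Finset Ω, ∃ v, v ∉ D ∧ v ∉ I ∧ E (S + t v)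
  ax4 : ∀ S : Fin 4 → Tg Ω, (∀ a, e0 + cnt I Set.univ (S a) = -1) → ∀ D : Finset Ω,
    ∃ a b, a ≠ b ∧ ∃ v, v ∉ D ∧ v ∉ I ∧ E (S a + t v) ∧ E (S b + t v)
  ax3 : ∀ S : Fin 3 → Tg Ω, (∀ a, e0 + cnt I Set.univ (S a) = -1) → ∀ D : Finset Ω,
    (∀ a, (S a).support ⊆ D) →
    (∀ a b, a ≠ b → ∀ v, v ∉ D → v ∉ I → ¬ (E (S a + t v) ∧ E (S b + t v))) →
    ∀ v, v ∉ D → v ∉ I → ∃ a, E (S a + t v)
  axFC : ∀ (X : Tg Ω) (D : Finset Ω) (b : Ω), b ∉ D → b ∉ P → ∃ b', b' ∉ D ∧ b' ≠ b ∧
    (mem I X b' ↔ mem I X b) ∧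
    ∀ Z : Tg Ω, Z.support ⊆ D → (E (X + Z + t b) ↔ E (X + Z + t b'))
  c_refl : ∀ K x, E K → mem I K x → c K x x
  c_symm : ∀ K x y, E K → mem I K x → mem I K y → c K x y → c K y x
  c_trans : ∀ K x y z, E K → mem I K x → mem I K y → mem I K z → c K x y → c K y z → c K x z
  c_swap : ∀ K x y v, E K → mem I K x → mem I K y → ¬ mem I K v → E (K + t x + t v) →
    E (K + t y + t v) → c K x y
  c_move : ∀ K x v a b, E K → mem I K x → ¬ mem I K v → E (K + t x + t v) → mem I K a →
    mem I K b → a ≠ x → b ≠ x → (c K a b ↔ c (K + t x + t v) a b)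
  c_move' : ∀ K x v a, E K → mem I K x → ¬ mem I K v → E (K + t x + t v) → mem I K a →
    a ≠ x → (c K a x ↔ c (K + t x + t v) a v)
  ρ_c : ∀ K x y, E K → mem I K x → mem I K y → c K x y → ρ K x = ρ K y
  ρ_move : ∀ K x v a, E K → mem I K x → ¬ mem I K v → E (K + t x + t v) → mem I K a →
    a ≠ x → ρ (K + t x + t v) a = ρ K a
  ρ_move' : ∀ K x v, E K → mem I K x → ¬ mem I K v → E (K + t x + t v) →
    ρ (K + t x + t v) v = ρ K x

namespace PW

variable {r : ℕ} {Ω : Type} (W : PW r Ω)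

/-- `x` belongs to the set coded by `K`. -/
def m (K : Tg Ω) (x : Ω) : Prop := mem W.I K x

/-- The level of a set (edges have level `0`). -/
noncomputable def lev (K : Tg Ω) : ℤ := W.e0 + cnt W.I Set.univ K

/-- The level `-1` sets `S`, `S'` have no common neighbour outside `P`. -/
def Dj (S S' : Tg Ω) : Prop := ∀ v, v ∉ W.P → ¬ (W.E (S + t v) ∧ W.E (S' + t v))

/-- One exchange. -/
def Exch (K K' : Tg Ω) : Prop :=
  W.E K ∧ W.E K' ∧ ∃ x v, W.m K x ∧ ¬ W.m K v ∧ K' = K + t x + t v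

/-- The component relation. -/
def Conn (K K' : Tg Ω) : Prop := Relation.ReflTransGen W.Exch K K'

/-- `x` is replaced by `v` in some exchange inside the component of `K`. -/
def R (K : Tg Ω) (x v : Ω) : Prop :=
  ∃ K', W.Conn K K' ∧ W.E K' ∧ W.m K' x ∧ ¬ W.m K' v ∧ W.E (K' + t x + t v)

/-- The equivalence relation generated by the exchanges inside the component of `K`. -/
def Eqv (K : Tg Ω) (x y : Ω) : Prop := Relation.EqvGen (W.R K) x y

/-- Two level `-1` sets have the same component and the same mark. -/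
def SameVal (S S' : Tg Ω) : Prop :=
  ∃ v v', W.E (S + t v) ∧ W.E (S' + t v') ∧ W.Conn (S + t v) (S' + t v') ∧ W.Eqv (S + t v) v v'

/-- The component of the edge `K` has exactly the two classes `A` and `Aᶜ`. -/
def Two (K : Tg Ω) (A : Set Ω) : Prop :=
  W.E K ∧ (∀ x y, W.Eqv K x y ↔ (x ∈ A ↔ y ∈ A)) ∧ A.Nonempty ∧ Aᶜ.Nonempty

/-- No two level `-1` sets have disjoint neighbourhoods inside `B`. -/
def P1 (B : Set Ω) : Prop := ∀ S S', W.lev S = -1 → W.lev S' = -1 →
  (∀ v, W.E (S + t v) → v ∈ B) → (∀ v, W.E (S' + t v) → v ∈ B) →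
  ∃ v, W.E (S + t v) ∧ W.E (S' + t v)

end PW

/-- Worlds: pre-worlds without special elements in which every edge has at least two visible
`c`-classes. -/
structure World (r : ℕ) (Ω : Type) extends PW r Ω where
  P_empty : P = ∅
  two : ∀ K x, E K → mem I K x → ∃ y, mem I K y ∧ ¬ c K x y

end Pool.Agent.Lib.MP_a572be_co
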