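import Pool.Agent.Lib.MP_a572be_co.Dec
import Pool.Agent.Lib.MP_a572be_co.Defs

/-!
# Random samples of a hypergraph of large codegree have large codegree
-/

namespace Pool.Agent.Lib.MP_a572be_co

open Classical in
/-- The pull-back of a `k`-graph along a map of vertex sets. -/
def KGraph.pull {k : ℕ} {V W : Type} (G : KGraph k V) (φ : W → V) : KGraph k W where
  edges := {e | e.card = k ∧ e.image φ ∈ G.edges}
  card_eq := fun _ he => he.1

/-- The neighbourhood of `S` in the pull-back along an injective map. -/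
theorem sampling_nbr {k n M : ℕ} (G : KGraph k (Fin n))
    (φ : Fin M → Fin n) (hφ : Function.Injective φ) (S : Finset (Fin M)) :
    (G.pull φ).nbr S = {j | φ j ∈ G.nbr (S.image φ)} := by
  ext j
  have key : (insert j S).image φ = insert (φ j) (S.image φ) := Finset.image_insert φ j S
  constructor
  · intro h
    obtain ⟨h1, h2⟩ := h
    have h3 : (insert j S).image φ ∈ G.edges := by
      rw [image_dec _ _ φ]
      exact h2
    rw [key] at h3
    exact h3
  · intro h
    have h3 : insert (φ j) (S.image φ) ∈ G.edges := h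
    have hc := G.card_eq _ h3
    rw [← key] at hc
    rw [Finset.card_image_of_injective _ hφ] at hc
    refine ⟨hc, ?_⟩
    rw [← key] at h3
    rw [image_dec _ _ φ]
    exact h3

/-- The basic exponential sum: `∑_χ exp(-t #{j | χ j ∈ A}) = (∑_a w a)^|ι|`. -/
theorem sampling_sum {ι : Type} [Fintype ι] [DecidableEq ι] {n : ℕ} (A : Finset (Fin n))
    (t : ℝ) :
    ∑ χ : ι → Fin n, Real.exp (-t * ((Finset.univ.filter fun j => χ j ∈ A).card : ℝ)) =
      (∑ a : Fin n, (if a ∈ A then Real.exp (-t) else 1)) ^ Fintype.card ι := by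
  have h1 : ∏ _i : ι, ∑ a ∈ (Finset.univ : Finset (Fin n)), (if a ∈ A then Real.exp (-t) else 1)
      = ∑ x ∈ Fintype.piFinset (fun _ : ι => (Finset.univ : Finset (Fin n))),
        ∏ i : ι, (if x i ∈ A then Real.exp (-t) else 1) :=
    Finset.prod_univ_sum _ _
  rw [Finset.prod_const, Finset.card_univ, Fintype.piFinset_univ] at h1
  rw [h1]
  refine Finset.sum_congr rfl fun χ _ => ?_
  rw [Finset.prod_ite, Finset.prod_const_one, mul_one, Finset.prod_const, ← Real.exp_nat_mul]
  congr 1
  ring

theorem sampling_base {n : ℕ} (A : Finset (Fin n)) {α t : ℝ} (ht : 0 ≤ t)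
    (hA : α * n ≤ (A.card : ℝ)) :
    (∑ a : Fin n, (if a ∈ A then Real.exp (-t) else 1)) ≤
      n * Real.exp (-((1 - Real.exp (-t)) * α)) := by
  have h1 : (∑ a : Fin n, (if a ∈ A then Real.exp (-t) else 1)) =
      n - (1 - Real.exp (-t)) * A.card := by
    have h2 : ∀ a : Fin n, (if a ∈ A then Real.exp (-t) else (1 : ℝ)) =
        1 - (1 - Real.exp (-t)) * (if a ∈ A then 1 else 0) := by
      intro a
      split_ifs <;> ring
    rw [Finset.sum_congr rfl fun a _ => h2 a, Finset.sum_sub_distrib, ← Finset.mul_sum]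
    simp
  rw [h1]
  have h3 : 0 ≤ 1 - Real.exp (-t) := by
    have : Real.exp (-t) ≤ 1 := Real.exp_le_one_iff.mpr (by linarith)
    linarith
  have h4 : -((1 - Real.exp (-t)) * α) + 1 ≤ Real.exp (-((1 - Real.exp (-t)) * α)) :=
    Real.add_one_le_exp _
  have hn : (0 : ℝ) ≤ n := Nat.cast_nonneg n
  calc (n : ℝ) - (1 - Real.exp (-t)) * A.card ≤ n - (1 - Real.exp (-t)) * (α * n) := by
        have := mul_le_mul_of_nonneg_left hA h3
        linarith
    _ = n * (-((1 - Real.exp (-t)) * α) + 1) := by ring
    _ ≤ n * Real.exp (-((1 - Real.exp (-t)) * α)) := mul_le_mul_of_nonneg_left h4 hn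

/-- The exponential moment over all maps with prescribed set `S`. -/
theorem sampling_moment {n M : ℕ} (S : Finset (Fin M)) (A : Finset (Fin n) → Finset (Fin n))
    (P : Finset (Fin n) → Prop) [DecidablePred P] {α t : ℝ} (ht : 0 ≤ t)
    (hA : ∀ T, P T → α * n ≤ ((A T).card : ℝ)) :
    ∑ φ : Fin M → Fin n, (if P (S.image φ) then
      Real.exp (-t * ((Finset.univ.filter fun j => φ j ∈ A (S.image φ)).card : ℝ)) else 0) ≤
      (n : ℝ) ^ S.card * (n * Real.exp (-((1 - Real.exp (-t)) * α))) ^ (M - S.card) := by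
  set e := Equiv.piEquivPiSubtypeProd (fun j : Fin M => j ∈ S) (fun _ => Fin n) with he
  rw [← Equiv.sum_comp e.symm, Fintype.sum_prod_type]
  have hB0 : (0 : ℝ) ≤ n * Real.exp (-((1 - Real.exp (-t)) * α)) := by positivity
  have hcard : Fintype.card {j : Fin M // ¬ j ∈ S} = M - S.card := by
    rw [Fintype.card_subtype_compl]
    simp
  have key : ∀ ψ : {j : Fin M // j ∈ S} → Fin n,
      ∑ χ : {j : Fin M // ¬ j ∈ S} → Fin n, (if P (S.image (e.symm (ψ, χ))) then
      Real.exp (-t * ((Finset.univ.filter fun j => e.symm (ψ, χ) j ∈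
        A (S.image (e.symm (ψ, χ)))).card : ℝ)) else 0) ≤
      (n * Real.exp (-((1 - Real.exp (-t)) * α))) ^ (M - S.card) := by
    intro ψ
    have himg : ∀ χ : {j : Fin M // ¬ j ∈ S} → Fin n,
        S.image (e.symm (ψ, χ)) = Finset.univ.image ψ := by
      intro χ
      ext a
      simp only [Finset.mem_image, Finset.mem_univ, true_and]
      constructor
      · rintro ⟨j, hj, rfl⟩
        refine ⟨⟨j, hj⟩, ?_⟩
        simp [he, Equiv.piEquivPiSubtypeProd, hj]
      · rintro ⟨⟨j, hj⟩, rfl⟩
        refine ⟨j, hj, ?_⟩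
        simp [he, Equiv.piEquivPiSubtypeProd, hj]
    simp only [himg]
    by_cases hP : P (Finset.univ.image ψ)
    · simp only [hP, if_true]
      have h1 : ∀ χ : {j : Fin M // ¬ j ∈ S} → Fin n,
          Real.exp (-t * ((Finset.univ.filter fun j => e.symm (ψ, χ) j ∈
            A (Finset.univ.image ψ)).card : ℝ)) ≤
          Real.exp (-t * ((Finset.univ.filter fun j => χ j ∈
            A (Finset.univ.image ψ)).card : ℝ)) := by
        intro χ
        apply Real.exp_le_exp.mpr
        have hc : (Finset.univ.filter fun j => χ j ∈ A (Finset.univ.image ψ)).card ≤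
            (Finset.univ.filter fun j => e.symm (ψ, χ) j ∈
            A (Finset.univ.image ψ)).card := by
          apply Finset.card_le_card_of_injOn (fun j => j.1)
          · intro j hj
            have hj' : χ j ∈ A (Finset.univ.image ψ) := by simpa using hj
            have : e.symm (ψ, χ) j.1 = χ j := by
              simp [he, Equiv.piEquivPiSubtypeProd, j.2]
            have hm : e.symm (ψ, χ) j.1 ∈ A (Finset.univ.image ψ) := by rw [this]; exact hj'
            simpa using hm
          · intro a _ b _ hab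
            exact Subtype.ext hab
        have : ((Finset.univ.filter fun j => χ j ∈ A (Finset.univ.image ψ)).card : ℝ) ≤
            ((Finset.univ.filter fun j => e.symm (ψ, χ) j ∈
            A (Finset.univ.image ψ)).card : ℝ) := by exact_mod_cast hc
        nlinarith
      refine (Finset.sum_le_sum fun χ _ => h1 χ).trans ?_
      rw [sampling_sum, hcard]
      apply pow_le_pow_left₀
      · apply Finset.sum_nonneg
        intro a _
        split_ifs
        · exact (Real.exp_pos _).le
        · norm_num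
      · exact sampling_base _ ht (hA _ hP)
    · simp only [hP, if_false, Finset.sum_const_zero]
      positivity
  refine (Finset.sum_le_sum fun ψ _ => key ψ).trans ?_
  rw [Finset.sum_const, nsmul_eq_mul, Finset.card_univ, Fintype.card_fun]
  simp

/-- Number of maps which are bad for `S`. -/
theorem sampling_bad {n M : ℕ} (S : Finset (Fin M)) (hSM : S.card ≤ M)
    (A : Finset (Fin n) → Finset (Fin n))
    (P : Finset (Fin n) → Prop) [DecidablePred P] {α α' t : ℝ} (ht : 0 ≤ t)
    (hA : ∀ T, P T → α * n ≤ ((A T).card : ℝ)) :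
    ((Finset.univ.filter fun φ : Fin M → Fin n => P (S.image φ) ∧
      ((Finset.univ.filter fun j => φ j ∈ A (S.image φ)).card : ℝ) < α' * M).card : ℝ) ≤
      Real.exp (t * α' * M) *
      ((n : ℝ) ^ M * Real.exp (-((1 - Real.exp (-t)) * α)) ^ (M - S.card)) := by
  have h1 := sampling_moment S A P ht hA
  have h2 : ((Finset.univ.filter fun φ : Fin M → Fin n => P (S.image φ) ∧
      ((Finset.univ.filter fun j => φ j ∈ A (S.image φ)).card : ℝ) < α' * M).card : ℝ) ≤
      ∑ φ : Fin M → Fin n, Real.exp (t * α' * M) * (if P (S.image φ) then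
      Real.exp (-t * ((Finset.univ.filter fun j => φ j ∈ A (S.image φ)).card : ℝ)) else 0) := by
    rw [Finset.card_filter]
    push_cast
    apply Finset.sum_le_sum
    intro φ _
    by_cases hP : P (S.image φ)
    · by_cases hX : ((Finset.univ.filter fun j => φ j ∈ A (S.image φ)).card : ℝ) < α' * M
      · simp only [hP, hX, true_and, if_true]
        rw [← Real.exp_add]
        apply Real.one_le_exp
        nlinarith
      · simp only [hP, hX, and_false, if_false, if_true]
        positivity
    · simp only [hP, false_and, if_false, mul_zero, le_refl]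
  refine h2.trans ?_
  rw [← Finset.mul_sum]
  apply mul_le_mul_of_nonneg_left _ (Real.exp_pos _).le
  refine h1.trans (le_of_eq ?_)
  rw [mul_pow, ← mul_assoc, ← pow_add, Nat.add_sub_cancel' hSM]

theorem sampling_exp {t : ℝ} (h0 : 0 ≤ t) (h1 : t ≤ 1) : t - t ^ 2 ≤ 1 - Real.exp (-t) := by
  have h := Real.abs_exp_sub_one_sub_id_le (x := -t) (by rw [abs_neg, abs_of_nonneg h0]; exact h1)
  have := (abs_le.mp h).2
  nlinarith

/-- The number of injective maps. -/
theorem sampling_inj {n M : ℕ} (hn : 4 * M ^ 2 ≤ n) (hn0 : 0 < n) :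
    3 / 4 * (n : ℝ) ^ M ≤
      ((Finset.univ.filter fun φ : Fin M → Fin n => Function.Injective φ).card : ℝ) := by
  have h1 : (Finset.univ.filter fun φ : Fin M → Fin n => Function.Injective φ).card =
      n.descFactorial M := by
    have := Fintype.card_embedding_eq (α := Fin M) (β := Fin n)
    rw [Fintype.card_fin, Fintype.card_fin] at this
    rw [← this, ← Fintype.card_subtype]
    exact Fintype.card_congr (Equiv.subtypeInjectiveEquivEmbedding (Fin M) (Fin n))
  rw [h1]
  have h2 : (n + 1 - M) ^ M ≤ n.descFactorial M := Nat.pow_sub_le_descFactorial n M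
  have hMn : M ≤ n := by nlinarith [Nat.le_self_pow (show 2 ≠ 0 by norm_num) M]
  have h3 : ((n : ℝ) - M) ^ M ≤ (n.descFactorial M : ℝ) := by
    have h4 : (((n + 1 - M) ^ M : ℕ) : ℝ) ≤ (n.descFactorial M : ℝ) := by exact_mod_cast h2
    refine le_trans ?_ h4
    rw [Nat.cast_pow, Nat.cast_sub (by omega)]
    push_cast
    apply pow_le_pow_left₀
    · have : (M : ℝ) ≤ n := by exact_mod_cast hMn
      linarith
    · linarith
  refine le_trans ?_ h3
  have hn' : (0 : ℝ) < n := by exact_mod_cast hn0
  have hb : 1 + (M : ℝ) * (-(M / n : ℝ)) ≤ (1 + -(M / n : ℝ)) ^ M := by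
    apply one_add_mul_le_pow
    have : (M : ℝ) / n ≤ 1 := by
      rw [div_le_one hn']
      exact_mod_cast hMn
    linarith
  have h5 : ((n : ℝ) - M) ^ M = (n : ℝ) ^ M * (1 + -(M / n : ℝ)) ^ M := by
    rw [← mul_pow]
    congr 1
    field_simp
    ring
  rw [h5]
  have h6 : (3 : ℝ) / 4 ≤ 1 + (M : ℝ) * (-(M / n : ℝ)) := by
    have h7 : (M : ℝ) * (M / n) ≤ 1 / 4 := by
      rw [← mul_div_assoc, div_le_iff₀ hn']
      have : (4 * M ^ 2 : ℝ) ≤ n := by exact_mod_cast hn
      nlinarith
    nlinarith
  have h8 : (0 : ℝ) ≤ (n : ℝ) ^ M := by positivity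
  nlinarith [mul_le_mul_of_nonneg_left (h6.trans hb) h8]

open Classical in
/-- **Sampling lemma.** Let `0 < α' < α` (both at most `1`). For `M` large and then `n` large, for
every `k`-graph `G` on `n` vertices all of whose codegrees are at least `α n`, at least half of
the maps `φ : Fin M → Fin n` are injective and have a pull-back all of whose codegrees are at
least `α' M`.

Proof (Chernoff bound by hand). The number of non-injective maps is at most `M^2 n^(M-1)`.
Fix `S ⊆ Fin M` with `k-1` elements and fix the restriction `ψ` of `φ` to `S`, injective; let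
`T = ψ(S)` and `A = N_G(T)`, `|A| ≥ α n`. Let `X(φ)` be the number of `j ∉ S` with `φ j ∈ A`. For
`0 < x < 1` one has `∑_φ x^{X(φ)} = (n - (1-x)|A|)^(M-k+1) ≤ n^(M-k+1) (1-(1-x)α)^(M-k+1)`, the sum
over the `φ` extending `ψ` (`Finset.prod_univ_sum` / `Fintype.piFinset`, or
`Finset.sum_prod_piFinset`). So the number of `φ` extending `ψ` with `X(φ) ≤ α' M` is at most
`x^{-α' M} (1-(1-x)α)^(M-k+1) n^(M-k+1)`. Choose `x < 1` with
`q := x^{-α'} (1-(1-x)α) < 1` (possible: the derivative of `x ↦ log` of this at `x = 1` is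
`α - α' > 0`). Summing over the `ψ` and over the at most `2^M`... better `M^(k-1)` sets `S`, the
number of bad injective `φ` is at most `M^(k-1) C q^M n^M` with `C = (1-(1-x)α)^(1-k)`, which is
at most `n^M / 4` for `M` large. -/
theorem sampling {k : ℕ} (hk : 2 ≤ k) {α α' : ℝ} (h0 : 0 < α') (h1 : α' < α) (h2 : α ≤ 1) :
    ∃ M0 : ℕ, ∀ M ≥ M0, ∃ n0 : ℕ, ∀ n ≥ n0, ∀ G : KGraph k (Fin n),
      (∀ S : Finset (Fin n), S.card = k - 1 → α * n ≤ ((G.nbr S).ncard : ℝ)) →
      (n : ℝ) ^ M / 2 ≤ ((Finset.univ.filter fun φ : Fin M → Fin n => Function.Injective φ ∧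
        ∀ S : Finset (Fin M), S.card = k - 1 →
          α' * M ≤ (((G.pull φ).nbr S).ncard : ℝ)).card : ℝ) := by
  have hα : 0 < α := h0.trans h1
  -- the parameter `t`
  obtain ⟨t, ht0, ht1, hδ⟩ : ∃ t : ℝ, 0 < t ∧ t ≤ 1 ∧ 0 < (1 - Real.exp (-t)) * α - t * α' := by
    refine ⟨(1 - α' / α) / 2, ?_, ?_, ?_⟩
    · have : α' / α < 1 := (div_lt_one hα).mpr h1
      linarith
    · have : 0 < α' / α := div_pos h0 hα
      linarith
    · set t := (1 - α' / α) / 2 with ht
      have ht0 : 0 < t := by
        have : α' / α < 1 := (div_lt_one hα).mpr h1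
        rw [ht]; linarith
      have ht1 : t ≤ 1 := by
        have : 0 < α' / α := div_pos h0 hα
        rw [ht]; linarith
      have h3 := sampling_exp ht0.le ht1
      have h4 : α' = α * (1 - 2 * t) := by
        rw [ht]; field_simp; ring
      have h5 : (t - t ^ 2) * α ≤ (1 - Real.exp (-t)) * α := mul_le_mul_of_nonneg_right h3 hα.le
      have h6 : 0 < α * t ^ 2 := by positivity
      have h7 : t * α' = α * t - 2 * (α * t ^ 2) := by rw [h4]; ring
      nlinarith
  set c := (1 - Real.exp (-t)) * α with hc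
  have hc0 : 0 ≤ c := by
    have : Real.exp (-t) ≤ 1 := Real.exp_le_one_iff.mpr (by linarith)
    have h3 : 0 ≤ 1 - Real.exp (-t) := by linarith
    positivity
  -- choose `M0`
  have hr : |Real.exp (-(c - t * α'))| < 1 := by
    rw [abs_of_pos (Real.exp_pos _)]
    rw [← Real.exp_zero]
    exact Real.exp_lt_exp.mpr (by linarith)
  have hlim := tendsto_pow_const_mul_const_pow_of_abs_lt_one (k - 1) hr
  have hpos : (0 : ℝ) < 1 / (4 * Real.exp (c * (k - 1 : ℕ))) := by positivity
  have hev := (hlim.eventually (gt_mem_nhds hpos))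
  obtain ⟨M1, hM1⟩ := Filter.eventually_atTop.mp hev
  refine ⟨max M1 k, fun M hM => ⟨4 * M ^ 2 + 1, fun n hn G hG => ?_⟩⟩
  have hMk : k ≤ M := (le_max_right _ _).trans hM
  have hMM := hM1 M ((le_max_left _ _).trans hM)
  -- the bad maps
  let A : Finset (Fin n) → Finset (Fin n) := fun T => (G.nbr T).toFinset
  have hAcard : ∀ T, T.card = k - 1 → α * n ≤ ((A T).card : ℝ) := by
    intro T hT
    have := hG T hT
    rwa [Set.ncard_eq_toFinset_card'] at this
  let bad : Finset (Fin M) → Finset (Fin M → Fin n) := fun S =>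
    Finset.univ.filter fun φ : Fin M → Fin n => (S.image φ).card = k - 1 ∧
      ((Finset.univ.filter fun j => φ j ∈ A (S.image φ)).card : ℝ) < α' * M
  have hbad : ∀ S : Finset (Fin M), S.card = k - 1 → ((bad S).card : ℝ) ≤
      Real.exp (c * (k - 1 : ℕ)) * Real.exp (-(c - t * α')) ^ M * (n : ℝ) ^ M := by
    intro S hS
    have h3 := sampling_bad (α' := α') S (by omega) A (fun T => T.card = k - 1) ht0.le hAcard
    refine le_trans (le_of_eq ?_) (h3.trans (le_of_eq ?_))
    · congr!
    rw [hS, ← hc, ← Real.exp_nat_mul, ← Real.exp_nat_mul]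
    rw [mul_comm ((n : ℝ) ^ M), ← mul_assoc, ← Real.exp_add, ← Real.exp_add]
    congr 2
    rw [Nat.cast_sub (by omega : k - 1 ≤ M)]
    ring
  set inj := (Finset.univ.filter fun φ : Fin M → Fin n => Function.Injective φ) with hinj
  set good := (Finset.univ.filter fun φ : Fin M → Fin n => Function.Injective φ ∧
        ∀ S : Finset (Fin M), S.card = k - 1 →
          α' * M ≤ (((G.pull φ).nbr S).ncard : ℝ)) with hgood
  set allbad := (Finset.univ.powersetCard (k - 1) : Finset (Finset (Fin M))).biUnion bad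
    with hallbad
  have hsub : inj ⊆ good ∪ allbad := by
    intro φ hφ
    have hφi : Function.Injective φ := by simpa [hinj] using hφ
    by_cases hg : φ ∈ good
    · exact Finset.mem_union_left _ hg
    · apply Finset.mem_union_right
      have hg' : ¬ ∀ S : Finset (Fin M), S.card = k - 1 →
          α' * M ≤ (((G.pull φ).nbr S).ncard : ℝ) := by
        intro hh
        exact hg (by simp only [hgood, Finset.mem_filter, Finset.mem_univ, true_and]
                     exact ⟨hφi, hh⟩)
      push Not at hg'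
      obtain ⟨S, hS, hlt⟩ := hg'
      rw [hallbad, Finset.mem_biUnion]
      refine ⟨S, by simp [Finset.mem_powersetCard, hS], ?_⟩
      simp only [bad, Finset.mem_filter, Finset.mem_univ, true_and]
      refine ⟨by rw [Finset.card_image_of_injective _ hφi, hS], ?_⟩
      rw [sampling_nbr G φ hφi S, Set.ncard_eq_toFinset_card'] at hlt
      refine lt_of_eq_of_lt ?_ hlt
      congr 2
      ext j
      simp [A]
  have hcount : inj.card ≤ good.card + allbad.card :=
    (Finset.card_le_card hsub).trans (Finset.card_union_le _ _)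
  have hcount' : (inj.card : ℝ) ≤ good.card + allbad.card := by exact_mod_cast hcount
  have hall : (allbad.card : ℝ) ≤ (n : ℝ) ^ M / 4 := by
    have h3 : allbad.card ≤ ∑ S ∈ (Finset.univ.powersetCard (k - 1) : Finset (Finset (Fin M))),
        (bad S).card := Finset.card_biUnion_le
    have h4 : (allbad.card : ℝ) ≤
        ∑ S ∈ (Finset.univ.powersetCard (k - 1) : Finset (Finset (Fin M))),
        ((bad S).card : ℝ) := by exact_mod_cast h3
    have h5 : ∑ S ∈ (Finset.univ.powersetCard (k - 1) : Finset (Finset (Fin M))),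
        ((bad S).card : ℝ) ≤
        ∑ _S ∈ (Finset.univ.powersetCard (k - 1) : Finset (Finset (Fin M))),
        Real.exp (c * (k - 1 : ℕ)) * Real.exp (-(c - t * α')) ^ M * (n : ℝ) ^ M := by
      apply Finset.sum_le_sum
      intro S hS
      exact hbad S (Finset.mem_powersetCard.mp hS).2
    refine h4.trans (h5.trans ?_)
    rw [Finset.sum_const, nsmul_eq_mul, Finset.card_powersetCard, Finset.card_univ,
      Fintype.card_fin]
    have h6 : ((M.choose (k - 1) : ℕ) : ℝ) ≤ (M : ℝ) ^ (k - 1) := by
      exact_mod_cast Nat.choose_le_pow _ _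
    have hE : (0 : ℝ) < Real.exp (c * (k - 1 : ℕ)) := Real.exp_pos _
    have h7 : (M : ℝ) ^ (k - 1) * Real.exp (-(c - t * α')) ^ M * Real.exp (c * (k - 1 : ℕ))
        ≤ 1 / 4 := by
      have := mul_le_mul_of_nonneg_right hMM.le hE.le
      refine this.trans (le_of_eq ?_)
      field_simp
    have hn0 : (0 : ℝ) ≤ (n : ℝ) ^ M := by positivity
    calc ((M.choose (k - 1) : ℕ) : ℝ) *
          (Real.exp (c * (k - 1 : ℕ)) * Real.exp (-(c - t * α')) ^ M * (n : ℝ) ^ M)
        ≤ (M : ℝ) ^ (k - 1) *
          (Real.exp (c * (k - 1 : ℕ)) * Real.exp (-(c - t * α')) ^ M * (n : ℝ) ^ M) := by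
          apply mul_le_mul_of_nonneg_right h6
          positivity
      _ = ((M : ℝ) ^ (k - 1) * Real.exp (-(c - t * α')) ^ M * Real.exp (c * (k - 1 : ℕ))) *
          (n : ℝ) ^ M := by ring
      _ ≤ 1 / 4 * (n : ℝ) ^ M := mul_le_mul_of_nonneg_right h7 hn0
      _ = (n : ℝ) ^ M / 4 := by ring
  have hinj' : 3 / 4 * (n : ℝ) ^ M ≤ (inj.card : ℝ) := by
    have := sampling_inj (n := n) (M := M) (by omega) (by omega)
    convert this
  linarith

end Pool.Agent.Lib.MP_a572be_co
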