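import Pool.Agent.Lib.MP_a572be_co.Walk
import Pool.Agent.Lib.MP_a572be_co.Sampling
import Pool.Agent.Lib.MP_a572be_co.Box

/-!
# From closed walks to tight cycles
-/

namespace Pool.Agent.Lib.MP_a572be_co

open Filter

/-- A periodic sequence only depends on the residue. -/
theorem partA_periodic {V : Type} {w : ℕ → V} {L : ℕ} (h : ∀ i, w (i + L) = w i) (i : ℕ) :
    w (i % L) = w i := by
  have h2 : ∀ q j, w (j + L * q) = w j := by
    intro q
    induction q with
    | zero => intro j; simp
    | succ q ih =>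
      intro j
      have : j + L * (q + 1) = (j + L * q) + L := by ring
      rw [this, h, ih]
  conv_rhs => rw [← Nat.mod_add_div i L]
  rw [h2]

/-- Minimum codegree is at most the number of vertices. -/
theorem partA_minCodeg_le {k n : ℕ} (G : KGraph k (Fin n)) : minCodeg G ≤ n := by
  unfold minCodeg
  rcases Set.eq_empty_or_nonempty
    {m | ∃ S : Finset (Fin n), S.card = k - 1 ∧ m = (G.nbr S).ncard} with h | h
  · rw [h]; simp
  · obtain ⟨S, -, hm⟩ := Nat.sInf_mem h
    rw [hm]
    have := Set.ncard_le_ncard (Set.subset_univ (G.nbr S)) Set.finite_univ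
    simpa [Set.ncard_univ] using this

/-- There are finitely many `k`-graphs on a finite vertex set. -/
theorem partA_finite (k M : ℕ) : Finite (KGraph k (Fin M)) := by
  refine Finite.of_injective (fun G : KGraph k (Fin M) => G.edges) ?_
  rintro ⟨E, hE⟩ ⟨E', hE'⟩ h
  simp only at h
  subst h
  rfl

open Classical in
/-- If all maps of the box `A_1 × ... × A_M` with sides of size `ℓ` are injective and have pull-back
`F`, and `F` has a closed walk of length `ℓ ≥ k + 1`, then `G` contains the tight cycle. Proof: let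
`w` be the walk and, for `i < ℓ`, choose distinct vertices `v_i ∈ A_{w i}` (the sets `A_j` are
pairwise disjoint since all maps of the box are injective, and `|A_j| = ℓ`, so take
`v_i = ` the `i`-th element of `A_{w i}`). The map `ZMod ℓ → Fin n`, `i ↦ v_i`, is injective and
maps each edge to an edge: on a window the `w`-values are distinct (the window is an edge of `F`,
which has `k` elements), so some map `φ` of the box has `φ (w (i+j)) = v_{i+j}` for `j < k`, and the
image of the window is the image under `φ` of an edge of `F = ` pull-back along `φ`. -/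
theorem contains_of_box {k n M ℓ : ℕ} (hk : 1 ≤ k) (hℓ : k + 1 ≤ ℓ) (G : KGraph k (Fin n))
    (F : KGraph k (Fin M)) (A : Fin M → Finset (Fin n)) (hA : ∀ i, (A i).card = ℓ)
    (hinj : ∀ φ : Fin M → Fin n, (∀ i, φ i ∈ A i) → Function.Injective φ ∧ G.pull φ = F)
    (hw : ClosedWalk F.edges k ℓ) : Contains G (tightCycle k ℓ) := by
  obtain ⟨hℓ0, w, hper, hwin⟩ := hw
  haveI : NeZero ℓ := ⟨hℓ0.ne'⟩
  have hne : ∀ m, (A m).Nonempty := fun m => by
    rw [← Finset.card_pos, hA]; exact hℓ0
  -- the chosen vertices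
  let v : ZMod ℓ → Fin n := fun i =>
    (A (w i.val)).orderEmbOfFin (hA _) ⟨i.val, ZMod.val_lt i⟩
  have hvA : ∀ i, v i ∈ A (w i.val) := fun i => Finset.orderEmbOfFin_mem _ _ _
  have hdisj : ∀ m m' : Fin M, ∀ y, y ∈ A m → y ∈ A m' → m = m' := by
    intro m m' y hm hm'
    by_contra hmm
    let φ : Fin M → Fin n := fun q => if q = m ∨ q = m' then y else (hne q).choose
    have hφ : ∀ q, φ q ∈ A q := by
      intro q
      simp only [φ]
      split_ifs with hq
      · rcases hq with rfl | rfl <;> assumption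
      · exact (hne q).choose_spec
    exact hmm ((hinj φ hφ).1 (by simp [φ]))
  have hval : ∀ (i : ZMod ℓ) (j : ℕ), w ((i + (j : ZMod ℓ)).val) = w (i.val + j) := by
    intro i j
    rw [← partA_periodic hper (i.val + j)]
    congr 1
    rw [ZMod.val_add, ZMod.val_natCast, Nat.add_mod, Nat.mod_mod, ← Nat.add_mod]
  refine ⟨v, ?_, ?_⟩
  · intro i j hij
    have hw' : w i.val = w j.val := hdisj _ _ (v i) (hvA i) (by rw [hij]; exact hvA j)
    have key : ∀ (m m' : Fin M) (hm : m = m') (a b : Fin ℓ),
        (A m).orderEmbOfFin (hA m) a = (A m').orderEmbOfFin (hA m') b → a = b := by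
      intro m m' hm a b hab
      subst hm
      exact ((A m).orderEmbOfFin (hA m)).injective hab
    have := key _ _ hw' _ _ hij
    exact ZMod.val_injective ℓ (by simpa using congrArg Fin.val this)
  · rintro e ⟨he, i, rfl⟩
    have hK := hwin i.val
    have hKcard := F.card_eq _ hK
    have hinjOn : Set.InjOn (fun j => w (i.val + j)) (Finset.range k) := by
      apply Finset.card_image_iff.mp
      rw [hKcard, Finset.card_range]
    let φ : Fin M → Fin n := fun q =>
      if hq : ∃ j, j < k ∧ w (i.val + j) = q then v (i + (hq.choose : ZMod ℓ))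
      else (hne q).choose
    have hφ : ∀ q, φ q ∈ A q := by
      intro q
      simp only [φ]
      split_ifs with hq
      · have h1 := hvA (i + (hq.choose : ZMod ℓ))
        rw [hval, hq.choose_spec.2] at h1
        exact h1
      · exact (hne q).choose_spec
    have hφv : ∀ j, j < k → φ (w (i.val + j)) = v (i + (j : ZMod ℓ)) := by
      intro j hj
      have hq : ∃ j', j' < k ∧ w (i.val + j') = w (i.val + j) := ⟨j, hj, rfl⟩
      simp only [φ, dif_pos hq]
      have : hq.choose = j := hinjOn (by simpa using hq.choose_spec.1) (by simpa using hj)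
        hq.choose_spec.2
      rw [this]
    have hpull := (hinj φ hφ).2
    have hmem : (Finset.range k).image (fun j => w (i.val + j)) ∈ (G.pull φ).edges := by
      rw [hpull]; exact hK
    have h2 := hmem.2
    convert h2 using 1
    ext y
    simp only [Finset.mem_image, Finset.mem_range]
    constructor
    · rintro ⟨a, ⟨j, hj, rfl⟩, rfl⟩
      exact ⟨_, ⟨j, hj, rfl⟩, hφv j hj⟩
    · rintro ⟨a, ⟨j, hj, rfl⟩, rfl⟩
      exact ⟨_, ⟨j, hj, rfl⟩, (hφv j hj).symm⟩

/-- **Theorem A.** If `Good (r d) d` then the codegree Turan density of `C^{rd}_ℓ` is smaller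
than `1/3` (with a uniform gap) for all large `ℓ` divisible by `d`.

Proof. Let `ε`, `M0` be as in `Good`, wlog `ε < 1/3` (if `ε` works so does a smaller one; use
`min ε (1/6)`). Apply `sampling` with `α = 1/3 - ε/2`, `α' = 1/3 - ε` and take `M ≥ M0` large. There
are finitely many `k`-graphs on `Fin M` (`KGraph k (Fin M)` injects into `Set (Finset (Fin M))`);
for each with codegrees `≥ (1/3-ε) M` choose a closed walk length `L_F`, and let `ℓ0` be the maximum
of `k + 1` and all `r L_F`. Let `ℓ ≥ ℓ0` be divisible by `d`; by `walk_all` each such `F` has a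
closed walk of length `ℓ`. For `n` large, if `exCodeg n C > (1/3-ε/2) n`, there is `G` on `Fin n`
not containing the cycle with minimum codegree `> (1/3-ε/2) n` (the supremum of a bounded nonempty
set of naturals is attained; the set is bounded by `n`; if it is empty then `exCodeg = 0`). By
`sampling` and pigeonhole over the finitely many `F`, some `F` with codegrees `≥ (1/3-ε) M` is the
pull-back of `G` along at least `c n^M` injective maps, `c = 1/(2 * number of F)`; `box` with side
`ℓ` and `contains_of_box` give the tight cycle in `G`, a contradiction. -/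
theorem upper_of_good {r d : ℕ} (hr : 1 < r) (hd : 0 < d) (h : Good (r * d) d) :
    ∃ ε : ℝ, 0 < ε ∧ ∃ ℓ0 : ℕ, ∀ ℓ ≥ ℓ0, d ∣ ℓ → ∀ᶠ n : ℕ in atTop,
      (exCodeg n (tightCycle (r * d) ℓ) : ℝ) ≤ (1 / 3 - ε) * n := by
  classical
  obtain ⟨ε0, hε0, M0, hM0⟩ := h
  set ε : ℝ := min ε0 (1 / 6) with hε
  have hεpos : 0 < ε := lt_min hε0 (by norm_num)
  have hε6 : ε ≤ 1 / 6 := min_le_right _ _
  have hεle : ε ≤ ε0 := min_le_left _ _
  have hk2 : 2 ≤ r * d := by nlinarith
  obtain ⟨M1, hM1⟩ := sampling (k := r * d) hk2 (α := 1 / 3 - ε / 2) (α' := 1 / 3 - ε)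
    (by linarith) (by linarith) (by linarith)
  obtain ⟨n0, hn0⟩ := hM1 (max M0 M1) (le_max_right _ _)
  set M := max M0 M1 with hM
  haveI : Finite (KGraph (r * d) (Fin M)) := partA_finite _ _
  letI : Fintype (KGraph (r * d) (Fin M)) := Fintype.ofFinite _
  -- the walk lengths
  have hL : ∀ F : KGraph (r * d) (Fin M), ∃ L : ℕ,
      (∀ S : Finset (Fin M), S.card = r * d - 1 → (1 / 3 - ε) * M ≤ ((F.nbr S).ncard : ℝ)) →
        r * d ∣ L + d ∧ ClosedWalk F.edges (r * d) L := by
    intro F
    by_cases hF : ∀ S : Finset (Fin M), S.card = r * d - 1 →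
        (1 / 3 - ε) * M ≤ ((F.nbr S).ncard : ℝ)
    · obtain ⟨L, h1, h2⟩ := hM0 M (le_max_left _ _) F (fun S hS => by
        refine le_trans ?_ (hF S hS)
        have : (0 : ℝ) ≤ M := Nat.cast_nonneg _
        nlinarith)
      exact ⟨L, fun _ => ⟨h1, h2⟩⟩
    · exact ⟨0, fun h => absurd h hF⟩
  choose Lf hLf using hL
  obtain ⟨B, hB⟩ := (Set.finite_range Lf).bddAbove
  refine ⟨ε / 2, by linarith, max (r * d + 1) (r * B), fun ℓ hℓ hdℓ => ?_⟩
  have hℓ1 : r * d + 1 ≤ ℓ := le_trans (le_max_left _ _) hℓ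
  have hℓ2 : r * B ≤ ℓ := le_trans (le_max_right _ _) hℓ
  set N : ℕ := Fintype.card (KGraph (r * d) (Fin M)) with hN
  have hNpos : 0 < N := by
    rw [hN]
    haveI : Nonempty (KGraph (r * d) (Fin M)) := ⟨⟨∅, fun e he => absurd he (by simp)⟩⟩
    exact Fintype.card_pos
  have hNR : (0 : ℝ) < N := by exact_mod_cast hNpos
  obtain ⟨n1, hn1⟩ := box M ℓ (1 / (2 * N)) (by positivity)
  filter_upwards [eventually_ge_atTop (max n0 n1)] with n hn
  have hnn0 : n ≥ n0 := le_trans (le_max_left _ _) hn
  have hnn1 : n ≥ n1 := le_trans (le_max_right _ _) hn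
  by_contra hcon
  push Not at hcon
  have hnR : (0 : ℝ) ≤ n := Nat.cast_nonneg _
  -- an extremal graph
  have hset : ({m | ∃ G : KGraph (r * d) (Fin n), ¬ Contains G (tightCycle (r * d) ℓ) ∧
      m = minCodeg G} : Set ℕ).Nonempty := by
    by_contra he
    rw [Set.not_nonempty_iff_eq_empty] at he
    have : exCodeg n (tightCycle (r * d) ℓ) = 0 := by
      unfold exCodeg
      rw [he]
      simp
    rw [this] at hcon
    have : (0 : ℝ) ≤ (1 / 3 - ε / 2) * n := mul_nonneg (by linarith) hnR
    simp at hcon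
    linarith
  have hbdd : BddAbove ({m | ∃ G : KGraph (r * d) (Fin n),
      ¬ Contains G (tightCycle (r * d) ℓ) ∧ m = minCodeg G} : Set ℕ) := by
    refine ⟨n, ?_⟩
    rintro m ⟨G, -, rfl⟩
    exact partA_minCodeg_le G
  obtain ⟨G, hG, hGm⟩ := Nat.sSup_mem hset hbdd
  have hGcod : ∀ S : Finset (Fin n), S.card = r * d - 1 →
      (1 / 3 - ε / 2) * n ≤ ((G.nbr S).ncard : ℝ) := by
    intro S hS
    have h1 : minCodeg G ≤ (G.nbr S).ncard := Nat.sInf_le ⟨S, hS, rfl⟩
    have h2 : (1 / 3 - ε / 2) * n < (minCodeg G : ℝ) := by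
      rw [← hGm]
      exact hcon
    have h3 : (minCodeg G : ℝ) ≤ ((G.nbr S).ncard : ℝ) := by exact_mod_cast h1
    linarith
  have hsamp := hn0 n hnn0 G hGcod
  set good : Finset (Fin M → Fin n) := Finset.univ.filter fun φ : Fin M → Fin n =>
    Function.Injective φ ∧ ∀ S : Finset (Fin M), S.card = r * d - 1 →
      (1 / 3 - ε) * M ≤ (((G.pull φ).nbr S).ncard : ℝ) with hgood
  have hfib : (good.card : ℝ) = ∑ F : KGraph (r * d) (Fin M),
      ((good.filter (fun φ => G.pull φ = F)).card : ℝ) := by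
    have := Finset.card_eq_sum_card_fiberwise (f := fun φ : Fin M → Fin n => G.pull φ)
      (s := good) (t := Finset.univ) (fun _ _ => by simp)
    exact_mod_cast this
  have hsum : ∑ _F : KGraph (r * d) (Fin M), (1 / (2 * (N : ℝ)) * (n : ℝ) ^ M) ≤
      ∑ F : KGraph (r * d) (Fin M), ((good.filter (fun φ => G.pull φ = F)).card : ℝ) := by
    rw [← hfib, Finset.sum_const, Finset.card_univ, ← hN, nsmul_eq_mul]
    refine le_trans (le_of_eq ?_) hsamp
    field_simp
  haveI : Nonempty (KGraph (r * d) (Fin M)) := ⟨⟨∅, fun e he => absurd he (by simp)⟩⟩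
  obtain ⟨F, -, hF⟩ := Finset.exists_le_of_sum_le Finset.univ_nonempty hsum
  obtain ⟨A, hA, hbox⟩ := hn1 n hnn1 _ hF
  have hℓ0 : 0 < ℓ := by omega
  have hne : ∀ m, (A m).Nonempty := fun m => by
    rw [← Finset.card_pos, hA]; exact hℓ0
  have hinj : ∀ φ : Fin M → Fin n, (∀ i, φ i ∈ A i) → Function.Injective φ ∧ G.pull φ = F := by
    intro φ hφ
    have h1 := hbox φ hφ
    rw [Finset.mem_filter, hgood, Finset.mem_filter] at h1
    exact ⟨h1.1.2.1, h1.2⟩
  have hFcod : ∀ S : Finset (Fin M), S.card = r * d - 1 →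
      (1 / 3 - ε) * M ≤ ((F.nbr S).ncard : ℝ) := by
    have h1 := hbox (fun m => (hne m).choose) (fun m => (hne m).choose_spec)
    rw [Finset.mem_filter, hgood, Finset.mem_filter] at h1
    intro S hS
    have h2 := h1.1.2.2 S hS
    rw [h1.2] at h2
    exact h2
  obtain ⟨hLF, hwalk⟩ := hLf F hFcod
  have hLB : r * Lf F ≤ ℓ :=
    le_trans (Nat.mul_le_mul_left r (hB ⟨F, rfl⟩)) hℓ2
  exact hG (contains_of_box (by omega) hℓ1 G F A hA hinj
    (walk_all (by omega) hd F.card_eq hLF hwalk hLB hdℓ))

end Pool.Agent.Lib.MP_a572be_co
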