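import Mathlib

/-!
# Sets coded by finite modifications of a reference set

`Tg Ω` is the group of finitely supported functions `Ω → ZMod 2`. Given a reference set `I`, an
element `K` of `Tg Ω` codes the set obtained from `I` by changing the membership of the elements of
the support of `K`. `mem I K x` says that `x` belongs to this set.
-/

namespace Pool.Agent.Lib.MP_a572be_co

/-- The group of finite modifications. -/
abbrev Tg (Ω : Type) : Type := Ω →₀ ZMod 2

/-- The modification of a single element. -/
noncomputable def t {Ω : Type} (x : Ω) : Tg Ω := Finsupp.single x 1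

/-- `x` belongs to the set coded by `K` relative to the reference set `I`. -/
def mem {Ω : Type} (I : Set Ω) (K : Tg Ω) (x : Ω) : Prop := (x ∈ I ↔ K x = 0)

open Classical in
/-- The number of elements of `C` added minus the number of elements of `C` removed. -/
noncomputable def cnt {Ω : Type} (I C : Set Ω) (K : Tg Ω) : ℤ :=
  ∑ x ∈ K.support, if x ∈ C then (if x ∈ I then -1 else 1) else 0

variable {Ω : Type}

@[simp] theorem tg_add_self (g : Tg Ω) : g + g = 0 := by
  ext x
  simp only [Finsupp.add_apply, Finsupp.zero_apply]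
  exact CharTwo.add_self_eq_zero _

@[simp] theorem tg_two_nsmul (g : Tg Ω) : (2 : ℕ) • g = 0 := by rw [two_nsmul, tg_add_self]

@[simp] theorem tg_two_zsmul (g : Tg Ω) : (2 : ℤ) • g = 0 := by rw [two_zsmul, tg_add_self]

@[simp] theorem tg_add_self_left (g h : Tg Ω) : g + (g + h) = h := by
  rw [← add_assoc, tg_add_self, zero_add]

@[simp] theorem tg_add_t_t (K : Tg Ω) (x : Ω) : K + t x + t x = K := by
  rw [add_assoc, tg_add_self, add_zero]

theorem tg_comm (K : Tg Ω) (x y : Ω) : K + t x + t y = K + t y + t x := by
  rw [add_assoc, add_comm (t x), ← add_assoc]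

theorem t_self (x : Ω) : t x x = (1 : ZMod 2) := by simp [t]

theorem t_ne {x y : Ω} (h : x ≠ y) : t x y = (0 : ZMod 2) := by
  simp [t, h]

theorem zmod2_cases (a : ZMod 2) : a = 0 ∨ a = 1 := by
  revert a; decide

theorem mem_add_t_self (I : Set Ω) (K : Tg Ω) (x : Ω) :
    mem I (K + t x) x ↔ ¬ mem I K x := by
  unfold mem
  rw [Finsupp.add_apply, t_self]
  rcases zmod2_cases (K x) with h | h <;> rw [h] <;> by_cases hx : x ∈ I <;> simp [hx]
  all_goals decide

theorem mem_add_t_ne (I : Set Ω) (K : Tg Ω) {x y : Ω} (h : y ≠ x) :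
    mem I (K + t y) x ↔ mem I K x := by
  unfold mem
  rw [Finsupp.add_apply, t_ne h, add_zero]

theorem mem_add_t (I : Set Ω) (K : Tg Ω) (x y : Ω) :
    mem I (K + t y) x ↔ ((y = x ∧ ¬ mem I K x) ∨ (y ≠ x ∧ mem I K x)) := by
  by_cases h : y = x
  · subst h; simp [mem_add_t_self]
  · simp [h, mem_add_t_ne I K h]

/-- Membership outside the support of the difference. -/
theorem mem_congr_of_notMem (I : Set Ω) {K L : Tg Ω} {x : Ω} (h : x ∉ (K + L).support) :
    mem I K x ↔ mem I L x := by
  have h1 : K x + L x = 0 := by simpa using h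
  have h2 : K x = L x := by
    rcases zmod2_cases (K x) with h' | h' <;> rcases zmod2_cases (L x) with h'' | h'' <;>
      rw [h', h''] at h1 ⊢ <;> first | rfl | (exact absurd h1 (by decide))
  unfold mem; rw [h2]

theorem mem_of_notMem_support (I : Set Ω) {K : Tg Ω} {x : Ω} (h : x ∉ K.support) :
    mem I K x ↔ x ∈ I := by
  have : K x = 0 := by simpa using h
  unfold mem; simp [this]

theorem cnt_zero (I C : Set Ω) : cnt I C (0 : Tg Ω) = 0 := by simp [cnt]

open Classical in
theorem cnt_add_t (I C : Set Ω) (K : Tg Ω) (x : Ω) :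
    cnt I C (K + t x) = cnt I C K + (if x ∈ C then (if mem I K x then -1 else 1) else 0) := by
  unfold cnt
  rcases zmod2_cases (K x) with h | h
  · have hs : (K + t x).support = insert x K.support := by
      ext y
      by_cases hy : x = y
      · subst hy; simp [h, t_self]
      · simp [t_ne hy, Ne.symm hy]
    have hn : x ∉ K.support := by simp [h]
    rw [hs, Finset.sum_insert hn]
    have hm : mem I K x ↔ x ∈ I := mem_of_notMem_support I hn
    simp only [hm]
    ring
  · have hs : (K + t x).support = K.support.erase x := by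
      ext y
      by_cases hy : x = y
      · subst hy; simp [h, t_self]; decide
      · simp [t_ne hy, Ne.symm hy]
    have hn : x ∈ K.support := by simp [h]
    rw [hs, ← Finset.add_sum_erase _ _ hn]
    have hm : mem I K x ↔ x ∉ I := by unfold mem; simp [h]
    simp only [hm]
    by_cases h1 : x ∈ C <;> by_cases h2 : x ∈ I <;> simp [h1, h2]

end Pool.Agent.Lib.MP_a572be_co
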