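import Pool.Agent.Lib.MP_a572be_co.GenFinal
import Pool.Agent.Lib.MP_a572be_co.FinH
import Pool.Agent.Lib.MP_a572be_co.PartA

/-!
# `k`-graphs of codegree density close to `1/3` have closed walks of length `≡ -d` mod `k = r d`
-/

namespace Pool.Agent.Lib.MP_a572be_co

open Classical Filter

/-- A bad `k`-graph for given `ε`, `M0`. -/
theorem bad_graph {k d : ℕ} (h : ¬ Good k d) {ε : ℝ} (hε : 0 < ε) (M0 : ℕ) :
    ∃ M ≥ M0, ∃ G : KGraph k (Fin M),
      (∀ S : Finset (Fin M), S.card = k - 1 → (1 / 3 - ε) * M ≤ ((G.nbr S).ncard : ℝ)) ∧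
      ¬ ∃ L, k ∣ L + d ∧ ClosedWalk G.edges k L := by
  unfold Good at h
  push Not at h
  obtain ⟨M, hM, G, h1, h2⟩ := h ε hε M0
  exact ⟨M, hM, G, h1, by push Not; exact h2⟩

/-- If `Good (r d) d` fails for arbitrarily large `d`, there is a sequence of coloured systems. -/
theorem exists_BSeq {r : ℕ} (hr : 1 < r) (hbad : ∀ d0 : ℕ, ∃ d ≥ d0, ¬ Good (r * d) d) :
    Nonempty (BSeq r) := by
  have h1 : ∀ n : ℕ, ∃ (d M : ℕ) (S : CSys (r * d) r (Fin M)), n + 1 ≤ d ∧
      (n + 1) * (r * d + 1) ≤ M ∧ Cod S (1 / 3 - 1 / ((n : ℝ) + 1)) := by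
    intro n
    obtain ⟨d, hd, hG⟩ := hbad (n + 1)
    obtain ⟨M, hM, G, h2, h3⟩ := bad_graph hG (ε := 1 / ((n : ℝ) + 1)) (by positivity)
      ((n + 1) * (r * d + 1))
    obtain ⟨S, hS⟩ := exists_CSys hr (by omega) G h3
    refine ⟨d, M, S, hd, hM, ?_⟩
    intro T hT
    have h4 := h2 T (by omega)
    refine h4.trans ?_
    have h5 : (G.nbr T).ncard ≤ (Finset.univ.filter fun v => S.E (insert v T)).card := by
      rw [← Set.ncard_coe_finset]
      apply Set.ncard_le_ncard _ (Finset.finite_toSet _)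
      intro v hv
      simp only [Finset.coe_filter, Finset.mem_univ, true_and, Set.mem_setOf_eq]
      rw [hS]
      unfold KGraph.nbr at hv
      simp only [Set.mem_setOf_eq] at hv
      convert hv
    exact_mod_cast h5
  choose d M S hd hM hc using h1
  refine ⟨{ k := fun n => r * d n, N := M, ne := ?_, S := S, hk := ?_, hN := hM, hr := ?_,
            cod := hc }⟩
  · intro n
    refine ⟨?_⟩
    have := hM n
    have h2 : 0 < (n + 1) * (r * d n + 1) := by positivity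
    omega
  · intro n
    have := hd n
    nlinarith
  · intro n
    exact Dvd.intro _ rfl

/-- **Walks.** For `r > 1` coprime to `6` and all large `d`, `Good (r d) d`. -/
theorem good_of_large {r : ℕ} (hr : 1 < r) (h6 : Nat.Coprime r 6) :
    ∃ d0 : ℕ, ∀ d ≥ d0, Good (r * d) d := by
  by_contra hcon
  push Not at hcon
  obtain ⟨Q⟩ := exists_BSeq hr hcon
  obtain ⟨L⟩ := exists_limitData Q (by omega)
  refine limit_false L (by omega) ?_ ?_
  · intro h2
    have := Nat.dvd_gcd h2 (by norm_num : 2 ∣ 6)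
    rw [h6] at this
    omega
  · intro h3
    have := Nat.dvd_gcd h3 (by norm_num : 3 ∣ 6)
    rw [h6] at this
    omega

/-- **The codegree Turan number of long tight cycles.** -/
theorem exCodeg_le {r : ℕ} (hr : 1 < r) (h6 : Nat.Coprime r 6) :
    ∃ d0 : ℕ, ∀ d ≥ d0, ∃ ε : ℝ, 0 < ε ∧ ∃ ℓ0 : ℕ, ∀ ℓ ≥ ℓ0, d ∣ ℓ → ∀ᶠ n : ℕ in atTop,
      (exCodeg n (tightCycle (r * d) ℓ) : ℝ) ≤ (1 / 3 - ε) * n := by
  obtain ⟨d0, h⟩ := good_of_large hr h6
  refine ⟨d0 + 1, fun d hd => ?_⟩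
  exact upper_of_good hr (by omega) (h d (by omega))

end Pool.Agent.Lib.MP_a572be_co
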