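import Pool.Agent.Lib.MP_a572be_co.Defs

/-!
# Closed tight walks
-/

namespace Pool.Agent.Lib.MP_a572be_co

/-- `ClosedWalk E k L`: there is a closed tight walk of length `L` in the family `E` of `k`-sets,
that is an `L`-periodic sequence all of whose windows of length `k` are members of `E`. -/
def ClosedWalk {V : Type} [DecidableEq V] (E : Set (Finset V)) (k L : ℕ) : Prop :=
  0 < L ∧ ∃ w : ℕ → V, (∀ i, w (i + L) = w i) ∧
    ∀ i, (Finset.range k).image (fun j => w (i + j)) ∈ E

/-- `Good k d`: for some `ε > 0` all large `k`-graphs of minimum codegree at least `(1/3-ε)`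
times the number of vertices have a closed tight walk of length congruent to `-d` mod `k`. -/
def Good (k d : ℕ) : Prop :=
  ∃ ε : ℝ, 0 < ε ∧ ∃ M0 : ℕ, ∀ M ≥ M0, ∀ G : KGraph k (Fin M),
    (∀ S : Finset (Fin M), S.card = k - 1 → (1 / 3 - ε) * M ≤ ((G.nbr S).ncard : ℝ)) →
      ∃ L, k ∣ L + d ∧ ClosedWalk G.edges k L

theorem walk_period {V : Type} {L : ℕ} {w : ℕ → V} (hw : ∀ i, w (i + L) = w i) (j i : ℕ) :
    w (i + j * L) = w i := by
  induction j with
  | zero => simp
  | succ j ih =>
    rw [Nat.succ_mul, ← Nat.add_assoc, hw, ih]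

theorem walk_le {V : Type} [DecidableEq V] {k L : ℕ} {w : ℕ → V} (hL : 0 < L)
    (hw : ∀ i, w (i + L) = w i)
    (hc : ((Finset.range k).image (fun j => w (0 + j))).card = k) : k ≤ L := by
  by_contra hlt
  push Not at hlt
  have hinj : Set.InjOn (fun j => w (0 + j)) (Finset.range k) := by
    rw [← Finset.card_image_iff, hc, Finset.card_range]
  have h0 : (0 : ℕ) ∈ (Finset.range k : Set ℕ) := by
    simp; omega
  have h1 : L ∈ (Finset.range k : Set ℕ) := by
    simpa using hlt
  have := hinj h0 h1 (by simpa using (hw 0).symm)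
  omega

/-- Going once more around an edge. Note `k ≤ L` (the window at `0` has `k` distinct entries and
takes at most `L` values). Given the periodic sequence `w` of period `L` insert the
block `w 0, ..., w (k-1)` once more: the new sequence of period `L + k` is
`w 0, ..., w (k-1), w 0, ..., w (L-1)`, that is `i ↦ w (i % (L+k))` if `i % (L+k) < k` and
`i ↦ w (i % (L+k) - k)` otherwise. Its windows starting in the first `k` entries are cyclic
rearrangements of the window of `w` at `0`; the others are windows of `w`. -/
theorem walk_extend {V : Type} [DecidableEq V] {E : Set (Finset V)} {k L : ℕ}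
    (hE : ∀ e ∈ E, e.card = k) (h : ClosedWalk E k L) : ClosedWalk E k (L + k) := by
  obtain ⟨hL, w, hw, hE'⟩ := h
  have hkL : k ≤ L := walk_le hL hw (hE _ (hE' 0))
  refine ⟨by omega, fun i => if i % (L + k) < k then w (i % (L + k)) else w (i % (L + k) - k),
    ?_, ?_⟩
  · intro i
    simp only [Nat.add_mod_right]
  · intro i
    obtain ⟨m, hm⟩ : ∃ m, m = i % (L + k) := ⟨_, rfl⟩
    have hmlt : m < L + k := by
      rw [hm]; exact Nat.mod_lt _ (by omega)
    -- value of the new sequence at `i + j`
    have hval : ∀ j, j < k →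
        (if (i + j) % (L + k) < k then w ((i + j) % (L + k)) else w ((i + j) % (L + k) - k)) =
          if m + j < k then w (m + j) else w (m + j - k) := by
      intro j hj
      have hmod : (i + j) % (L + k) = (m + j) % (L + k) := by
        rw [hm, Nat.mod_add_mod]
      rw [hmod]
      by_cases h1 : m + j < L + k
      · rw [Nat.mod_eq_of_lt h1]
      · have h2 : (m + j) % (L + k) = m + j - (L + k) := by
          rw [Nat.mod_eq_sub_mod (by omega), Nat.mod_eq_of_lt (by omega)]
        rw [h2, if_pos (by omega), if_neg (by omega)]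
        have : m + j - k = (m + j - (L + k)) + L := by omega
        rw [this, hw]
    have himg : (Finset.range k).image (fun j => if (i + j) % (L + k) < k then
          w ((i + j) % (L + k)) else w ((i + j) % (L + k) - k)) =
        (Finset.range k).image (fun j => if m + j < k then w (m + j) else w (m + j - k)) := by
      apply Finset.image_congr
      intro j hj
      exact hval j (by simpa using hj)
    rw [himg]
    by_cases hmk : m < k
    · have : (Finset.range k).image (fun j => if m + j < k then w (m + j) else w (m + j - k)) =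
          (Finset.range k).image (fun j => w (0 + j)) := by
        ext v
        simp only [Finset.mem_image, Finset.mem_range, Nat.zero_add]
        constructor
        · rintro ⟨j, hj, rfl⟩
          by_cases h1 : m + j < k
          · exact ⟨m + j, h1, by rw [if_pos h1]⟩
          · exact ⟨m + j - k, by omega, by rw [if_neg h1]⟩
        · rintro ⟨t, ht, rfl⟩
          by_cases h1 : m ≤ t
          · refine ⟨t - m, by omega, ?_⟩
            rw [if_pos (by omega)]
            congr 1
            omega
          · refine ⟨t + k - m, by omega, ?_⟩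
            rw [if_neg (by omega)]
            congr 1
            omega
      rw [this]
      exact hE' 0
    · have : (Finset.range k).image (fun j => if m + j < k then w (m + j) else w (m + j - k)) =
          (Finset.range k).image (fun j => w (m - k + j)) := by
        apply Finset.image_congr
        intro j hj
        simp only [Finset.coe_range, Set.mem_Iio] at hj
        simp only
        rw [if_neg (by omega)]
        congr 1
        omega
      rw [this]
      exact hE' (m - k)

/-- Going `j` times around. -/
theorem walk_mul {V : Type} [DecidableEq V] {E : Set (Finset V)} {k L : ℕ}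
    (h : ClosedWalk E k L) {j : ℕ} (hj : 0 < j) : ClosedWalk E k (j * L) := by
  obtain ⟨hL, w, hw, hE'⟩ := h
  exact ⟨Nat.mul_pos hj hL, w, fun i => walk_period hw j i, hE'⟩

theorem walk_extend_many {V : Type} [DecidableEq V] {E : Set (Finset V)} {k L : ℕ}
    (hE : ∀ e ∈ E, e.card = k) (h : ClosedWalk E k L) (s : ℕ) : ClosedWalk E k (L + s * k) := by
  induction s with
  | zero => simpa using h
  | succ s ih =>
    have := walk_extend hE ih
    rwa [Nat.add_assoc, ← Nat.succ_mul] at this

/-- If there is a closed walk of length `L ≡ -d` mod `k = r d`, then there is one of every length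
`ℓ ≥ r L` divisible by `d`: `ℓ = d ℓ'`, choose `1 ≤ j ≤ r` with `j ≡ -ℓ'` mod `r`; then
`j L ≡ ℓ` mod `k` and `j L ≤ ℓ`; use `walk_mul` and then `walk_extend` repeatedly. -/
theorem walk_all {V : Type} [DecidableEq V] {E : Set (Finset V)} {r d L ℓ : ℕ} (hr : 0 < r)
    (hd : 0 < d) (hE : ∀ e ∈ E, e.card = r * d)
    (hL : r * d ∣ L + d) (h : ClosedWalk E (r * d) L) (hℓ : r * L ≤ ℓ)
    (hdℓ : d ∣ ℓ) : ClosedWalk E (r * d) ℓ := by
  obtain ⟨ℓ', rfl⟩ := hdℓ
  obtain ⟨j, hj⟩ : ∃ j, j = r - ℓ' % r := ⟨_, rfl⟩
  have hlt : ℓ' % r < r := Nat.mod_lt _ hr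
  have hj0 : 0 < j := by omega
  have hjr : j ≤ r := by omega
  have hjle : j * L ≤ d * ℓ' := le_trans (Nat.mul_le_mul_right L hjr) hℓ
  have hrj : r ∣ ℓ' + j := by
    have h1 : ℓ' + j = r * (ℓ' / r) + r := by
      have := Nat.div_add_mod ℓ' r
      omega
    rw [h1]
    exact Dvd.dvd.add (Dvd.intro _ rfl) dvd_rfl
  have h1 : r * d ∣ d * ℓ' + j * d := by
    have : d * ℓ' + j * d = (ℓ' + j) * d := by ring
    rw [this]
    exact Nat.mul_dvd_mul_right hrj d
  have h2 : r * d ∣ j * L + j * d := by
    have : j * L + j * d = j * (L + d) := by ring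
    rw [this]
    exact Dvd.dvd.mul_left hL j
  have h3 : r * d ∣ d * ℓ' - j * L := by
    have h4 := Nat.dvd_sub h1 h2
    have h5 : d * ℓ' + j * d - (j * L + j * d) = d * ℓ' - j * L := by omega
    rwa [h5] at h4
  obtain ⟨s, hs⟩ := h3
  have h6 : d * ℓ' = j * L + s * (r * d) := by
    rw [Nat.mul_comm s, ← hs]
    omega
  rw [h6]
  exact walk_extend_many hE (walk_mul h hj0) s

end Pool.Agent.Lib.MP_a572be_co
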